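import Pool.Agent.W_1b8d5d_sc.Flat
import Pool.Agent.W_1b8d5d_nc.FinalC1
import Pool.Agent.W_1b8d5d_h85.AGood
import Pool.Agent.W_1b8d5d_c1.PartA
import Pool.Agent.W_1b8d5d_c1.Core

/-!
MP_1b8d5d_pr (SC, no flat side): the final theorem (`d = 2`, atomless law on `[a, b]`, `0 < a`) in the form of the frozen
statement, from the core: there is no flat piece.
-/

set_option autoImplicit false

open MeasureTheory ProbabilityTheory Filter Topology

namespace Pool.Agent.W_1b8d5d_sc

open Pool.Agent.W_1b8d5d_h85 Pool.Agent.W_1b8d5d_fe Pool.Agent.W_1b8d5d_nc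

/-- The core of the proof: a flat piece is impossible. -/
def SCM : Prop := ∀ (Q : Par) (g : V → ℝ), IsMean Q g → HasModels Q g → ∀ c : Crd, FlatS g c → False

/-- The strict triangle inequality and the strict convexity of the unit ball. -/
theorem strict_of {μ : (Fin 2 → ℝ) → ℝ} (h : NormFun μ)
    (hs : ∀ x y : Fin 2 → ℝ, ¬ SameRay ℝ x y → μ (x + y) < μ x + μ y) :
    StrictConvex ℝ {x | μ x ≤ 1} ∧ {x | μ x ≤ 1}.extremePoints ℝ = {x | μ x = 1} := by
  have hint : {x | μ x < 1} ⊆ interior {x | μ x ≤ 1} := by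
    refine interior_maximal ?_ (isOpen_lt h.cont continuous_const)
    intro x hx
    have hx' : μ x < 1 := hx
    exact hx'.le
  have key : ∀ x y : Fin 2 → ℝ, μ x ≤ 1 → μ y ≤ 1 → x ≠ y → ∀ a b : ℝ, 0 < a → 0 < b → a + b = 1 →
      μ (a • x + b • y) < 1 := by
    intro x y hx hy hxy a b ha hb hab
    by_cases hr : SameRay ℝ x y
    · rcases hr with h0 | h0 | ⟨r₁, r₂, hr₁, hr₂, hr⟩
      · rw [h0, smul_zero, zero_add, h.hom b y hb.le]
        have h1 := mul_le_mul_of_nonneg_left hy hb.le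
        linarith
      · rw [h0, smul_zero, add_zero, h.hom a x ha.le]
        have h1 := mul_le_mul_of_nonneg_left hx ha.le
        linarith
      · have hyx : y = (r₂⁻¹ * r₁) • x := by
          rw [mul_smul, hr, smul_smul, inv_mul_cancel₀ hr₂.ne', one_smul]
        obtain ⟨r, hr0, hyr⟩ : ∃ r : ℝ, 0 < r ∧ y = r • x := ⟨_, by positivity, hyx⟩
        by_cases hx0 : x = 0
        · exact absurd (by rw [hyr, hx0, smul_zero]) hxy
        have hpos := h.pos x hx0
        have hr1 : r ≠ 1 := by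
          intro h1
          rw [h1, one_smul] at hyr
          exact hxy hyr.symm
        have e1 : a • x + b • y = (a + b * r) • x := by rw [hyr, smul_smul, add_smul]
        have hyy : μ y = r * μ x := by rw [hyr, h.hom r x hr0.le]
        rw [e1, h.hom _ x (by positivity)]
        rw [hyy] at hy
        rcases lt_or_gt_of_ne hr1 with h1 | h1
        · have h2 : b * r * μ x < b * μ x := by
            have := mul_lt_mul_of_pos_left h1 (mul_pos hb hpos)
            nlinarith
          have h3 : (a + b) * μ x ≤ 1 := by rw [hab, one_mul]; exact hx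
          nlinarith
        · have h2 : a * μ x < a * (r * μ x) := by
            have := mul_lt_mul_of_pos_left h1 (mul_pos ha hpos)
            nlinarith
          have h3 : (a + b) * (r * μ x) ≤ 1 := by rw [hab, one_mul]; exact hy
          nlinarith
    · have hr' : ¬ SameRay ℝ (a • x) (b • y) := by
        intro h0
        apply hr
        have h1 := h0.pos_smul_left (inv_pos.2 ha)
        have h2 := h1.pos_smul_right (inv_pos.2 hb)
        rwa [smul_smul, smul_smul, inv_mul_cancel₀ ha.ne', inv_mul_cancel₀ hb.ne', one_smul, one_smul] at h2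
      have h1 := hs _ _ hr'
      rw [h.hom a x ha.le, h.hom b y hb.le] at h1
      have h2 := mul_le_mul_of_nonneg_left hx ha.le
      have h3 := mul_le_mul_of_nonneg_left hy hb.le
      linarith
  refine ⟨fun x hx y hy hxy a b ha hb hab => hint (key x y hx hy hxy a b ha hb hab), ?_⟩
  ext z
  constructor
  · rintro ⟨hz, hz2⟩
    have hz' : μ z ≤ 1 := hz
    refine le_antisymm hz' ?_
    by_contra hlt
    push Not at hlt
    -- `z` is the midpoint of two points of the ball
    obtain ⟨w, hw⟩ : ∃ w : Fin 2 → ℝ, w ≠ 0 := ⟨fun _ => 1, fun h0 => by simpa using congrFun h0 0⟩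
    have hmw := h.pos w hw
    have hmw' := h.pos (-w) (neg_ne_zero.2 hw)
    obtain ⟨s, hs0, hs1, hs2⟩ : ∃ s : ℝ, 0 < s ∧ s * μ w ≤ 1 - μ z ∧ s * μ (-w) ≤ 1 - μ z := by
      refine ⟨min ((1 - μ z) / μ w) ((1 - μ z) / μ (-w)), lt_min (div_pos (by linarith) hmw) (div_pos (by linarith) hmw'), ?_, ?_⟩
      · rw [← le_div_iff₀ hmw]
        exact min_le_left _ _
      · rw [← le_div_iff₀ hmw']
        exact min_le_right _ _
    have h1 : μ (z + s • w) ≤ 1 := by
      have := h.add z (s • w)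
      rw [h.hom s w hs0.le] at this
      linarith
    have h2 : μ (z + s • (-w)) ≤ 1 := by
      have := h.add z (s • (-w))
      rw [h.hom s (-w) hs0.le] at this
      linarith
    have h3 := hz2 (show z + s • w ∈ {x | μ x ≤ 1} from h1) (show z + s • (-w) ∈ {x | μ x ≤ 1} from h2)
      ⟨1 / 2, 1 / 2, by norm_num, by norm_num, by norm_num, by
        rw [smul_add, smul_add, smul_neg, smul_neg]
        have : (1 / 2 : ℝ) • z + (1 / 2 : ℝ) • z = z := by rw [← add_smul]; norm_num
        calc (1 / 2 : ℝ) • z + (1 / 2 : ℝ) • s • w + ((1 / 2 : ℝ) • z + -((1 / 2 : ℝ) • s • w)) =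
            (1 / 2 : ℝ) • z + (1 / 2 : ℝ) • z := by abel
          _ = z := this⟩
    have h4 : s • w = 0 := by
      have : z + s • w = z := h3
      simpa using this
    rcases smul_eq_zero.1 h4 with h5 | h5
    · exact hs0.ne' h5
    · exact hw h5
  · intro hz
    have hz' : μ z = 1 := hz
    refine ⟨hz'.le, ?_⟩
    rintro x hx y hy ⟨a, b, ha, hb, hab, he⟩
    by_contra hne
    have hxy : x ≠ y := by
      rintro rfl
      apply hne
      rw [← he, ← add_smul, hab, one_smul]
    have h1 := key x y hx hy hxy a b ha hb hab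
    rw [he, hz'] at h1
    exact lt_irrefl _ h1

/-- Two vectors of the plane on different rays and no strict inequality: a flat piece. -/
theorem dt_ne_of {μ : (Fin 2 → ℝ) → ℝ} (h : NormFun μ) (hneg : ∀ x, μ (-x) = μ x) {x y : Fin 2 → ℝ} (hr : ¬ SameRay ℝ x y)
    (hxy : μ x + μ y ≤ μ (x + y)) : dt (x 0, x 1) (y 0, y 1) ≠ 0 := by
  intro h0
  have h0' : x 0 * y 1 - x 1 * y 0 = 0 := h0
  have hx0 : x ≠ 0 := fun h1 => hr (Or.inl h1)
  have hy0 : y ≠ 0 := fun h1 => hr (Or.inr (Or.inl h1))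
  obtain ⟨r, hr1⟩ : ∃ r : ℝ, y = r • x := by
    by_cases hc : x 0 = 0
    · have hx1 : x 1 ≠ 0 := by
        intro h1
        apply hx0
        funext i
        fin_cases i
        · exact hc
        · exact h1
      refine ⟨y 1 / x 1, ?_⟩
      funext i
      fin_cases i
      · show y 0 = y 1 / x 1 * x 0
        rw [hc, zero_mul, zero_sub, neg_eq_zero] at h0'
        rw [hc, mul_zero]
        rcases mul_eq_zero.1 h0' with h2 | h2
        · exact absurd h2 hx1
        · exact h2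
      · show y 1 = y 1 / x 1 * x 1
        rw [div_mul_cancel₀ _ hx1]
    · refine ⟨y 0 / x 0, ?_⟩
      funext i
      fin_cases i
      · show y 0 = y 0 / x 0 * x 0
        rw [div_mul_cancel₀ _ hc]
      · show y 1 = y 0 / x 0 * x 1
        rw [div_mul_eq_mul_div, eq_div_iff hc]
        linarith
  rcases lt_trichotomy r 0 with h1 | h1 | h1
  · -- opposite vectors
    have hpx := h.pos x hx0
    have hy : μ y = -r * μ x := by
      rw [hr1, ← h.hom (-r) x (by linarith), neg_smul, hneg]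
    have e1 : x + y = (1 + r) • x := by rw [hr1, add_smul, one_smul]
    rcases le_total 0 (1 + r) with h2 | h2
    · rw [e1, h.hom (1 + r) x h2, hy] at hxy
      nlinarith
    · have h3 : μ (x + y) = -(1 + r) * μ x := by
        rw [e1, ← h.hom (-(1 + r)) x (by linarith), neg_smul, hneg]
      rw [h3, hy] at hxy
      nlinarith
  · exact hy0 (by rw [hr1, h1, zero_smul])
  · exact hr (by rw [hr1]; exact SameRay.sameRay_pos_smul_right x h1)

/-- **The final theorem, from the core.** -/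
theorem finalS (hC : SCM) :
    ∀ (a b : ℝ), 0 < a →
    ∀ (ν : Measure ℝ), IsProbabilityMeasure ν → ν (Set.Icc a b)ᶜ = 0 →
      (∀ x : ℝ, ν ({x} : Set ℝ) = 0) →
    ∀ (Ω : Type) [MeasurableSpace Ω] (P : Measure Ω), IsProbabilityMeasure P →
    ∀ (τ : (Fin 2 → ℤ) × Fin 2 → Ω → ℝ),
      (∀ e, Measurable (τ e)) → iIndepFun τ P → (∀ e, P.map (τ e) = ν) →
    ∀ (μ : (Fin 2 → ℝ) → ℝ), Continuous μ →
      (∀ (c : ℝ) (x : Fin 2 → ℝ), 0 ≤ c → μ (c • x) = c * μ x) →
      (∀ x : Fin 2 → ℤ, TendstoInMeasure P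
        (fun (n : ℕ) (ω : Ω) =>
            sInf {t : ℝ | ∃ (m : ℕ) (p : ℕ → Fin 2 → ℤ), p 0 = 0 ∧ p m = (n : ℤ) • x ∧
              (∀ k < m, ∑ i, |p (k+1) i - p k i| = 1) ∧
              t = ∑ k ∈ Finset.range m, ∑ i : Fin 2,
                ((if p (k+1) = p k + (Pi.single i (1 : ℤ) : Fin 2 → ℤ) then τ (p k, i) ω else 0) +
                 (if p k = p (k+1) + (Pi.single i (1 : ℤ) : Fin 2 → ℤ) then τ (p (k+1), i) ω else 0))}
            / (n : ℝ))
        atTop (fun _ => μ (fun i => (x i : ℝ)))) →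
      StrictConvex ℝ {x | μ x ≤ 1} ∧
      (∀ x y : Fin 2 → ℝ, ¬ SameRay ℝ x y → μ (x + y) < μ x + μ y) ∧
      {x | μ x ≤ 1}.extremePoints ℝ = {x | μ x = 1} ∧
      (∀ z : Fin 2 → ℝ, μ z = 1 → ∀ U ∈ 𝓝 z,
        ¬ {y : Fin 2 → ℝ | y ∈ U ∧ μ y ≤ 1 ∧ ∃ (c : Fin 2 → ℝ) (r : ℝ),
          ∑ i, (y i - c i) ^ 2 = r ∧ ∀ x, μ x ≤ 1 → ∑ i, (x i - c i) ^ 2 ≤ r}.Countable) := by
  intro a b ha ν hν hsupp hatom Ω _ P hP τ hm hi hl μ hμ hom hlim
  obtain ⟨g1, -, -, -, -⟩ := final1
    (fun a b ν ha hl Ω _ P τ hF => Pool.Agent.W_1b8d5d_c1.partA a b ν ha hl Ω P τ hF)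
    (fun Q g hM hg c h => Pool.Agent.W_1b8d5d_c1.no_corner Q g hM hg c h)
    a b ha ν hν hsupp hatom Ω P hP τ hm hi hl μ hμ hom hlim
  have hlaw : Law a b ν := ⟨hν, hsupp, hatom⟩
  have hF := isFPP_of_frozen hP hm hi hl
  obtain ⟨Q, hM, hmean⟩ := Pool.Agent.W_1b8d5d_h85.partA a b ν ha hlaw Ω P _ hF
  have hc' : Continuous (pl μ) := by
    show Continuous fun x : ℝ × ℝ => μ ![x.1, x.2]
    refine hμ.comp ?_
    refine continuous_pi fun i => ?_
    fin_cases i
    · exact continuous_fst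
    · exact continuous_snd
  have hom' : ∀ (c : ℝ) (x : ℝ × ℝ), 0 ≤ c → pl μ (c • x) = c * pl μ x := by
    intro c x hcc
    show μ ![c * x.1, c * x.2] = c * μ ![x.1, x.2]
    rw [← hom c _ hcc]
    congr 1
    funext i
    fin_cases i <;> rfl
  have hlim' : ∀ x : V, Tendsto (fun n : ℕ => tm P (fun e => τ (toE e)) (n • x) / n) atTop
      (𝓝 (pl μ (toR x))) := by
    intro x
    refine tendsto_tm ha hlaw hF ?_
    have h1 := hlim (toF x)
    rw [cast_toF] at h1
    have h2 : (fun (n : ℕ) (ω : Ω) =>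
        T (fun e => τ (toE e) ω) 0 (n • x) / (n : ℝ)) = fun (n : ℕ) (ω : Ω) =>
        sInf (pathSet (fun e => τ e ω) ((n : ℤ) • toF x)) / (n : ℝ) := by
      funext n ω
      rw [toF_nsmul, sInf_pathSet]
    rw [h2]
    exact h1
  have hn : NormLike (pl μ) := normLike hmean hc' hom' hlim'
  have hnf : NormFun μ := normFun_of_pl hμ hn
  have hneg : ∀ x, μ (-x) = μ x := by
    intro x
    rw [mu_eq μ (-x), mu_eq μ x]
    exact hn.neg (x 0, x 1)
  have hstrict : ∀ x y : Fin 2 → ℝ, ¬ SameRay ℝ x y → μ (x + y) < μ x + μ y := by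
    intro x y hr
    by_contra hcon
    push Not at hcon
    have hd := dt_ne_of hnf hneg hr hcon
    have hxy : pl μ ((x 0, x 1) + (y 0, y 1)) = pl μ (x 0, x 1) + pl μ (y 0, y 1) := by
      have h1 : μ (x + y) = μ x + μ y := le_antisymm (hnf.add x y) hcon
      rw [mu_eq μ (x + y), mu_eq μ x, mu_eq μ y] at h1
      exact h1
    obtain ⟨c, hf⟩ := exists_flat hmean hc' hom' hlim' hd hxy
    exact hC Q _ hmean hM c hf
  obtain ⟨h1, h2⟩ := strict_of hnf hstrict
  refine ⟨h1, hstrict, h2, fun z hz U hU => g1 z ?_ U hU⟩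
  rw [h2]
  exact hz

end Pool.Agent.W_1b8d5d_sc
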