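import Pool.Agent.W_1b8d5d_sc.Fluct

/-!
MP_1b8d5d_pr (SC, P8): lowering the costs of the paths inside a thin set of edges (free end points).
-/

set_option autoImplicit false

namespace Pool.Agent.W_1b8d5d_sc

open Finset Pool.Agent.W_1b8d5d_h85 Pool.Agent.W_1b8d5d_fe Filter Topology

private lemma Drop_exp : Real.exp (1 / 2) ≤ 2 := by
  have h2 := Real.add_one_le_exp (-(1 / 2 : ℝ))
  have h3 : Real.exp (1 / 2) * Real.exp (-(1 / 2)) = 1 := by
    rw [← Real.exp_add]; simp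
  have h4 := mul_le_mul_of_nonneg_left h2 (Real.exp_pos (1 / 2 : ℝ)).le
  rw [h3] at h4
  linarith

private lemma Drop_drop {τ τ' : Env} {x y : V} {w : grid.Walk x y} (hw : w.IsPath) (hle : ∀ e, τ' e ≤ τ e)
    (H : Finset Edge) (hH : ∀ e ∈ H, e ∈ wedges w) :
    cost τ' w ≤ cost τ w - ∑ e ∈ H, (τ e - τ' e) := by
  classical
  rw [cost_path τ' hw, cost_path τ hw]
  have h1 : H ⊆ (wedges w).toFinset := fun e he => List.mem_toFinset.2 (hH e he)
  have h2 : ∑ e ∈ H, (τ e - τ' e) ≤ ∑ e ∈ (wedges w).toFinset, (τ e - τ' e) :=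
    Finset.sum_le_sum_of_subset_of_nonneg h1 fun e _ _ => sub_nonneg.2 (hle e)
  rw [Finset.sum_sub_distrib (s := (wedges w).toFinset)] at h2
  linarith

private lemma Drop_high {su : ℝ} {τ : Env} {x y : V} {w : grid.Walk x y} (hw : w.IsPath) :
    (((wedges w).toFinset.filter fun e => su ≤ τ e).card : ℝ) = nHigh su τ w := by
  classical
  unfold nHigh
  have h1 : (wedges w).toFinset.filter (fun e => su ≤ τ e) = ((wedges w).filter fun e => su ≤ τ e).toFinset := by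
    ext e
    simp
  rw [h1, List.toFinset_card_of_nodup ((wedges_nodup hw).filter _)]

/-- The starting point of a walk with at least one edge is an end point of one of its edges. -/
private lemma Drop_start {x y : V} {w : grid.Walk x y} (h : 1 ≤ w.length) :
    ∃ e ∈ wedges w, x = e.1 ∨ x = e.1 + dir e.2 := by
  cases w with
  | nil => simp at h
  | @cons _ v _ hadj p =>
    refine ⟨ke s(x, v), ?_, ?_⟩
    · unfold wedges
      simp
    · obtain ⟨s, h2 | h2⟩ := id hadj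
      · left
        subst h2
        rw [ke_dir]
      · right
        subst h2
        rw [ke_dir']

/-- `s² 2^(-κ s)` is small. -/
private lemma Drop_small {κ δ : ℝ} (hκ : 0 < κ) (hδ : 0 < δ) : ∃ s₀ : ℝ, 1 ≤ s₀ ∧ ∀ (s : ℝ) (n : ℕ), s₀ ≤ s → κ * s ≤ n →
    s ^ 2 * (1 / 2 : ℝ) ^ n ≤ δ := by
  have hl : 0 < Real.log 2 := Real.log_pos (by norm_num)
  have hb : 0 < κ * Real.log 2 := by positivity
  have h1 : Tendsto (fun x : ℝ => x ^ 2 * Real.exp (-x)) atTop (𝓝 0) := Real.tendsto_pow_mul_exp_neg_atTop_nhds_zero 2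
  have h2 : ∀ᶠ x : ℝ in atTop, x ^ 2 * Real.exp (-x) < δ * (κ * Real.log 2) ^ 2 := h1.eventually (gt_mem_nhds (by positivity))
  obtain ⟨t, ht⟩ := eventually_atTop.1 h2
  refine ⟨max 1 (t / (κ * Real.log 2)), le_max_left _ _, fun s n hs hn => ?_⟩
  have hs0 : 1 ≤ s := (le_max_left _ _).trans hs
  have h3 : t ≤ κ * Real.log 2 * s := by
    have h4 : t / (κ * Real.log 2) ≤ s := (le_max_right _ _).trans hs
    rw [div_le_iff₀ hb] at h4
    linarith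
  have h5 := (ht _ h3).le
  have h6 : (1 / 2 : ℝ) ^ n ≤ Real.exp (-(κ * Real.log 2 * s)) := by
    have h7 : (1 / 2 : ℝ) ^ n = Real.exp (-(n * Real.log 2)) := by
      rw [Real.exp_neg, Real.exp_nat_mul, Real.exp_log (by norm_num), one_div, inv_pow]
    rw [h7]
    refine Real.exp_le_exp.2 ?_
    have := mul_le_mul_of_nonneg_right hn hl.le
    linarith
  have h7 : s ^ 2 * (1 / 2 : ℝ) ^ n ≤ s ^ 2 * Real.exp (-(κ * Real.log 2 * s)) := mul_le_mul_of_nonneg_left h6 (by positivity)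
  refine h7.trans ?_
  have h8 : (κ * Real.log 2 * s) ^ 2 = (κ * Real.log 2) ^ 2 * s ^ 2 := by ring
  rw [h8] at h5
  have h9 : 0 < (κ * Real.log 2) ^ 2 := by positivity
  have h10 : (κ * Real.log 2) ^ 2 * (s ^ 2 * Real.exp (-(κ * Real.log 2 * s))) ≤ (κ * Real.log 2) ^ 2 * δ := by linarith
  exact le_of_mul_le_mul_left h10 h9

/-- ** (P8) ** If the probability of a crossing (of length at least `κ s`, inside a set `F` of edges) of cost at most `f x y + B` is at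
least `p₀` then the probability of such a crossing of cost at most `f x y + B - c₇ s / √(card F + 1)` is at least `p₀ / 4`. -/
theorem drop (Q : Par) (g : V → ℝ) (κ p₀ : ℝ) (hp : 0 < p₀) (hκ : 0 < κ) :
    ∃ c₇ D₀ s₀ : ℝ, 0 < c₇ ∧ 0 < D₀ ∧ 1 ≤ s₀ ∧ ∀ (s R : ℝ) (M : Mdl Q.a Q.b) (F : Finset Edge) (f : V → V → ℝ) (B : ℝ),
      s₀ ≤ s → Good Q g R M → (∀ e ∈ F, nm e.1 + 1 ≤ R) → D₀ * Real.sqrt (F.card + 1) ≤ s → (F.card : ℝ) ≤ s ^ 2 → (F.card : ℝ) ≤ R →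
      p₀ ≤ M.P (fun τ => ∃ (x y : V) (w : grid.Walk x y), w.IsPath ∧ (∀ e ∈ wedges w, e ∈ F) ∧ κ * s ≤ w.length ∧
        cost τ w ≤ f x y + B) →
      p₀ / 4 ≤ M.P (fun τ => ∃ (x y : V) (w : grid.Walk x y), w.IsPath ∧ (∀ e ∈ wedges w, e ∈ F) ∧ κ * s ≤ w.length ∧
        cost τ w ≤ f x y + B - c₇ * (s / Real.sqrt (F.card + 1))) := by
  classical
  have ha := Q.ha
  have hab := Q.hab
  have hK := Q.hK
  have hpl := Q.hpl
  have hsl : 0 < Q.su - Q.sl := by linarith [Q.hs]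
  obtain ⟨m, hm⟩ : ∃ m : ℕ, 2 * (1 / 2 : ℝ) ^ m * 2 ≤ p₀ / 8 := by
    obtain ⟨n, hn⟩ := exists_pow_lt_of_lt_one (show 0 < p₀ / 32 by positivity) (show (1 / 2 : ℝ) < 1 by norm_num)
    exact ⟨n, by linarith⟩
  have hm0 : (0 : ℝ) ≤ m := Nat.cast_nonneg _
  -- the intensity
  obtain ⟨c₀, hc₀, hc₁, hc₂, hc₃⟩ : ∃ x : ℝ, 0 < x ∧ x ≤ 1 / 2 ∧ m * x ≤ Q.pl ∧ Q.K * m ^ 2 * x ^ 2 ≤ 1 / 2 := by
    refine ⟨min (1 / 2) (min (Q.pl / (m + 1)) (1 / (2 * Q.K * (m + 1) ^ 2))), by positivity, min_le_left _ _, ?_, ?_⟩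
    · have h1 : min (1 / 2) (min (Q.pl / (m + 1)) (1 / (2 * Q.K * (m + 1) ^ 2))) ≤ Q.pl / (m + 1) :=
        (min_le_right _ _).trans (min_le_left _ _)
      calc (m : ℝ) * min (1 / 2) (min (Q.pl / (m + 1)) (1 / (2 * Q.K * (m + 1) ^ 2))) ≤ (m + 1) * (Q.pl / (m + 1)) :=
            mul_le_mul (by linarith) h1 (by positivity) (by linarith)
        _ = Q.pl := by field_simp
    · have h1 : min (1 / 2) (min (Q.pl / (m + 1)) (1 / (2 * Q.K * (m + 1) ^ 2))) ≤ 1 / (2 * Q.K * (m + 1) ^ 2) :=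
        (min_le_right _ _).trans (min_le_right _ _)
      have h0 : 0 < min (1 / 2) (min (Q.pl / (m + 1)) (1 / (2 * Q.K * (m + 1) ^ 2))) := by positivity
      have h2 : min (1 / 2) (min (Q.pl / (m + 1)) (1 / (2 * Q.K * (m + 1) ^ 2))) ≤ 1 / 2 := min_le_left _ _
      set x := min (1 / 2) (min (Q.pl / (m + 1)) (1 / (2 * Q.K * (m + 1) ^ 2))) with hx
      have h3 : x ^ 2 ≤ x := by nlinarith
      have h4 : (m : ℝ) ^ 2 ≤ (m + 1) ^ 2 := by nlinarith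
      have hK0 : 0 < Q.K := by linarith
      calc Q.K * m ^ 2 * x ^ 2 ≤ Q.K * (m + 1) ^ 2 * (1 / (2 * Q.K * (m + 1) ^ 2)) := by
            refine mul_le_mul (mul_le_mul_of_nonneg_left h4 hK0.le) (h3.trans h1) (by positivity) (by positivity)
        _ = 1 / 2 := by field_simp
  -- Peierls
  obtain ⟨s₀, hs₀, hPei⟩ := Drop_small (κ := κ) (δ := p₀ / 4 / (2 * Q.K)) hκ (by positivity)
  refine ⟨(Q.su - Q.sl) * (c₀ * κ / 8), 16 * (8 / p₀) * 2 / (c₀ * κ), max s₀ (1 / κ), by positivity, by positivity, hs₀.trans (le_max_left _ _), ?_⟩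
  intro s R M F f B hs hG hFR hD hFs hFR' hE
  have hs1 : s₀ ≤ s := (le_max_left _ _).trans hs
  have hs2 : 1 ≤ κ * s := by
    have h1 : 1 / κ ≤ s := (le_max_right _ _).trans hs
    rw [div_le_iff₀ hκ] at h1
    linarith
  have hs0 : 0 < s := by linarith
  have hF0 : (0 : ℝ) ≤ F.card := Nat.cast_nonneg _
  have hq : 1 ≤ Real.sqrt (F.card + 1) := by
    rw [Real.one_le_sqrt]
    linarith
  have hq0 : 0 < Real.sqrt (F.card + 1) := by linarith
  have hqq : Real.sqrt (F.card + 1) ^ 2 = F.card + 1 := Real.sq_sqrt (by linarith)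
  obtain ⟨d, hd⟩ : ∃ d : ℝ, d = c₀ / Real.sqrt (F.card + 1) := ⟨_, rfl⟩
  have hd0 : 0 ≤ d := by rw [hd]; positivity
  have hdc : d ≤ c₀ := by rw [hd]; exact div_le_self hc₀.le hq
  have hmd : m * d ≤ Q.pl := (mul_le_mul_of_nonneg_left hdc hm0).trans hc₂
  have hexp : Real.exp (Q.K * m ^ 2 * d ^ 2 * F.card) ≤ 2 := by
    refine (Real.exp_le_exp.2 ?_).trans Drop_exp
    have h1 : d ^ 2 * F.card ≤ c₀ ^ 2 := by
      rw [hd, div_pow, hqq, div_mul_eq_mul_div, div_le_iff₀ (by linarith)]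
      nlinarith [sq_nonneg c₀]
    calc Q.K * m ^ 2 * d ^ 2 * F.card = Q.K * m ^ 2 * (d ^ 2 * F.card) := by ring
      _ ≤ Q.K * m ^ 2 * c₀ ^ 2 := mul_le_mul_of_nonneg_left h1 (by positivity)
      _ ≤ 1 / 2 := hc₃
  -- the drop
  have hdk : d * (κ * s / 2) = c₀ * κ / 2 * (s / Real.sqrt (F.card + 1)) := by
    rw [hd]
    field_simp
  have hdk2 : 16 * (8 / p₀) ≤ d * (κ * s / 2) := by
    rw [hdk]
    have h1 : 16 * (8 / p₀) * 2 / (c₀ * κ) ≤ s / Real.sqrt (F.card + 1) := by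
      rw [le_div_iff₀ hq0]
      exact hD
    have h2 : c₀ * κ / 2 * (16 * (8 / p₀) * 2 / (c₀ * κ)) ≤ c₀ * κ / 2 * (s / Real.sqrt (F.card + 1)) :=
      mul_le_mul_of_nonneg_left h1 (by positivity)
    have h3 : c₀ * κ / 2 * (16 * (8 / p₀) * 2 / (c₀ * κ)) = 16 * (8 / p₀) := by
      field_simp
    linarith
  have hk : Real.exp (-(d * (κ * s / 2) / 16)) ≤ p₀ / 8 := by
    have h2 : 8 / p₀ ≤ d * (κ * s / 2) / 16 := by linarith
    have h3 := Real.add_one_le_exp (d * (κ * s / 2) / 16)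
    rw [Real.exp_neg]
    have h4 : 8 / p₀ ≤ Real.exp (d * (κ * s / 2) / 16) := by linarith
    have h5 : (8 / p₀)⁻¹ = p₀ / 8 := by rw [inv_div]
    rw [← h5]
    exact inv_anti₀ (by positivity) h4
  -- the bad event
  let Bad : Env → Prop := fun τ => ∃ e ∈ F ×ˢ (Finset.univ : Finset Bool), ∃ (y : V) (w : grid.Walk (if e.2 then e.1.1 else e.1.1 + dir e.1.2) y),
    w.IsPath ∧ ⌈κ * s⌉₊ ≤ w.length ∧ (w.length : ℝ) ≤ R ∧ (nHigh Q.su τ w : ℝ) < w.length / 2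
  have hl1 : 1 ≤ ⌈κ * s⌉₊ := Nat.one_le_ceil_iff.2 (by linarith)
  have hBad : M.P Bad ≤ p₀ / 4 := by
    have h1 := M.P_exists_le (F ×ˢ (Finset.univ : Finset Bool)) (fun e τ => ∃ (y : V) (w : grid.Walk (if e.2 then e.1.1 else e.1.1 + dir e.1.2) y),
      w.IsPath ∧ ⌈κ * s⌉₊ ≤ w.length ∧ (w.length : ℝ) ≤ R ∧ (nHigh Q.su τ w : ℝ) < w.length / 2)
    refine h1.trans ?_
    have h2 : ∀ e ∈ F ×ˢ (Finset.univ : Finset Bool), M.P (fun τ => ∃ (y : V) (w : grid.Walk (if e.2 then e.1.1 else e.1.1 + dir e.1.2) y),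
      w.IsPath ∧ ⌈κ * s⌉₊ ≤ w.length ∧ (w.length : ℝ) ≤ R ∧ (nHigh Q.su τ w : ℝ) < w.length / 2) ≤ Q.K * (1 / 2) ^ ⌈κ * s⌉₊ := by
      intro e he
      have he1 := hFR e.1 (Finset.mem_product.1 he).1
      refine hG.peierls _ _ ?_ hl1
      split_ifs
      · linarith
      · have h3 := nm_add_le e.1.1 (dir e.1.2)
        rw [nm_dir] at h3
        linarith
    refine (Finset.sum_le_sum h2).trans ?_
    rw [Finset.sum_const, nsmul_eq_mul, Finset.card_product, Finset.card_univ, Fintype.card_bool]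
    push_cast
    have h3 := hPei s ⌈κ * s⌉₊ hs1 (Nat.le_ceil _)
    have hK0 : 0 < Q.K := by linarith
    have h4 : (F.card : ℝ) * (1 / 2) ^ ⌈κ * s⌉₊ ≤ p₀ / 4 / (2 * Q.K) :=
      (mul_le_mul_of_nonneg_right hFs (by positivity)).trans h3
    have h5 : (F.card : ℝ) * 2 * (Q.K * (1 / 2) ^ ⌈κ * s⌉₊) = 2 * Q.K * ((F.card : ℝ) * (1 / 2) ^ ⌈κ * s⌉₊) := by ring
    rw [h5]
    have h6 := mul_le_mul_of_nonneg_left h4 (show 0 ≤ 2 * Q.K by positivity)
    have h7 : 2 * Q.K * (p₀ / 4 / (2 * Q.K)) = p₀ / 4 := by field_simp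
    linarith
  have hgood : p₀ - p₀ / 4 ≤ M.P (fun τ => (∃ (x y : V) (w : grid.Walk x y), w.IsPath ∧ (∀ e ∈ wedges w, e ∈ F) ∧ κ * s ≤ w.length ∧
      cost τ w ≤ f x y + B) ∧ ¬ Bad τ) := by
    have h1 := M.P_or (fun τ => (∃ (x y : V) (w : grid.Walk x y), w.IsPath ∧ (∀ e ∈ wedges w, e ∈ F) ∧ κ * s ≤ w.length ∧
      cost τ w ≤ f x y + B) ∧ ¬ Bad τ) Bad
    have h2 : M.P (fun τ => ∃ (x y : V) (w : grid.Walk x y), w.IsPath ∧ (∀ e ∈ wedges w, e ∈ F) ∧ κ * s ≤ w.length ∧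
      cost τ w ≤ f x y + B) ≤
      M.P (fun τ => ((∃ (x y : V) (w : grid.Walk x y), w.IsPath ∧ (∀ e ∈ wedges w, e ∈ F) ∧ κ * s ≤ w.length ∧
      cost τ w ≤ f x y + B) ∧ ¬ Bad τ) ∨ Bad τ) := by
      refine M.P_mono fun τ _ h => ?_
      by_cases h3 : Bad τ
      · exact Or.inr h3
      · exact Or.inl ⟨h, h3⟩
    linarith
  -- the chosen path
  have hch : ∀ ω : M.Ω, ∃ H : Finset Edge, ((∃ (x y : V) (w : grid.Walk x y), w.IsPath ∧ (∀ e ∈ wedges w, e ∈ F) ∧ κ * s ≤ w.length ∧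
      cost (M.env ω) w ≤ f x y + B) ∧ ¬ Bad (M.env ω)) →
      (H ⊆ F ∧ (∀ e ∈ H, Q.su ≤ M.env ω e) ∧ κ * s / 2 ≤ (H.card : ℝ)) ∧
      ∀ τ' : Env, (∀ e, τ' e ≤ M.env ω e) → ∃ (x y : V) (w : grid.Walk x y), w.IsPath ∧ (∀ e ∈ wedges w, e ∈ F) ∧ κ * s ≤ w.length ∧
        cost τ' w ≤ f x y + B - ∑ e ∈ H, (M.env ω e - τ' e) := by
    intro ω
    by_cases hω : (∃ (x y : V) (w : grid.Walk x y), w.IsPath ∧ (∀ e ∈ wedges w, e ∈ F) ∧ κ * s ≤ w.length ∧
      cost (M.env ω) w ≤ f x y + B) ∧ ¬ Bad (M.env ω)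
    · obtain ⟨⟨x, y, w, hw, hwF, hwl, hwc⟩, hpe⟩ := hω
      refine ⟨(wedges w).toFinset.filter fun e => Q.su ≤ M.env ω e, fun _ => ⟨⟨?_, ?_, ?_⟩, ?_⟩⟩
      · intro e he
        exact hwF e (List.mem_toFinset.1 (Finset.mem_filter.1 he).1)
      · intro e he
        exact (Finset.mem_filter.1 he).2
      · rw [Drop_high hw]
        have h2 : (w.length : ℝ) ≤ R := by
          have h3 : (wedges w).toFinset ⊆ F := fun e he => hwF e (List.mem_toFinset.1 he)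
          have h4 := Finset.card_le_card h3
          rw [List.toFinset_card_of_nodup (wedges_nodup hw), length_wedges] at h4
          have h5 : (w.length : ℝ) ≤ F.card := by exact_mod_cast h4
          linarith
        have h3 : ⌈κ * s⌉₊ ≤ w.length := Nat.ceil_le.2 hwl
        have h4 : (w.length : ℝ) / 2 ≤ nHigh Q.su (M.env ω) w := by
          by_contra hc
          push Not at hc
          obtain ⟨e, he, hx⟩ := Drop_start (w := w) (hl1.trans h3)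
          refine hpe ?_
          rcases hx with hx | hx
          · subst hx
            exact ⟨(e, true), Finset.mem_product.2 ⟨hwF e he, Finset.mem_univ _⟩, y, w, hw, h3, h2, hc⟩
          · subst hx
            exact ⟨(e, false), Finset.mem_product.2 ⟨hwF e he, Finset.mem_univ _⟩, y, w, hw, h3, h2, hc⟩
        linarith
      · intro τ' hle
        have h1 := Drop_drop hw hle ((wedges w).toFinset.filter fun e => Q.su ≤ M.env ω e)
          (fun e he => List.mem_toFinset.1 (Finset.mem_filter.1 he).1)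
        exact ⟨x, y, w, hw, hwF, hwl, by linarith⟩
    · exact ⟨∅, fun h => absurd h hω⟩
  choose Hs hHs using hch
  have key := Pool.Agent.W_1b8d5d_c1.tilt_transfer (toC1 hG) F d (fun e he => by linarith [hFR e he]) hd0 (by linarith) m hmd
    (fun ω => (∃ (x y : V) (w : grid.Walk x y), w.IsPath ∧ (∀ e ∈ wedges w, e ∈ F) ∧ κ * s ≤ w.length ∧
      cost (M.env ω) w ≤ f x y + B) ∧ ¬ Bad (M.env ω))
    (fun ω => ∃ (x y : V) (w : grid.Walk x y), w.IsPath ∧ (∀ e ∈ wedges w, e ∈ F) ∧ κ * s ≤ w.length ∧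
      cost (M.env ω) w ≤ f x y + B - (Q.su - Q.sl) * (c₀ * κ / 8) * (s / Real.sqrt (F.card + 1)))
    Hs (κ * s / 2) (fun ω hω => (hHs ω hω).1) (fun ω ω' hω hle hsum => by
      obtain ⟨x, y, w, hw, hwF, hwl, hwc⟩ := (hHs ω hω).2 (M.env ω') hle
      refine ⟨x, y, w, hw, hwF, hwl, hwc.trans ?_⟩
      have h1 : (Q.su - Q.sl) * (d * (κ * s / 2) / 4) = (Q.su - Q.sl) * (c₀ * κ / 8) * (s / Real.sqrt (F.card + 1)) := by
        rw [hdk]
        ring
      linarith)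
  have h2 : 2 * (1 / 2 : ℝ) ^ m * Real.exp (Q.K * m ^ 2 * d ^ 2 * F.card) ≤ p₀ / 8 := by
    refine le_trans (mul_le_mul_of_nonneg_left hexp (by positivity)) hm
  have h4 : Pr (fun ω => (∃ (x y : V) (w : grid.Walk x y), w.IsPath ∧ (∀ e ∈ wedges w, e ∈ F) ∧ κ * s ≤ w.length ∧
      cost (M.env ω) w ≤ f x y + B) ∧ ¬ Bad (M.env ω)) =
      M.P (fun τ => (∃ (x y : V) (w : grid.Walk x y), w.IsPath ∧ (∀ e ∈ wedges w, e ∈ F) ∧ κ * s ≤ w.length ∧
      cost τ w ≤ f x y + B) ∧ ¬ Bad τ) := rfl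
  have h5 : Pr (fun ω => ∃ (x y : V) (w : grid.Walk x y), w.IsPath ∧ (∀ e ∈ wedges w, e ∈ F) ∧ κ * s ≤ w.length ∧
      cost (M.env ω) w ≤ f x y + B - (Q.su - Q.sl) * (c₀ * κ / 8) * (s / Real.sqrt (F.card + 1))) =
      M.P (fun τ => ∃ (x y : V) (w : grid.Walk x y), w.IsPath ∧ (∀ e ∈ wedges w, e ∈ F) ∧ κ * s ≤ w.length ∧
      cost τ w ≤ f x y + B - (Q.su - Q.sl) * (c₀ * κ / 8) * (s / Real.sqrt (F.card + 1))) := rfl
  rw [h4, h5] at key
  linarith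

end Pool.Agent.W_1b8d5d_sc
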