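import Mathlib

/-!
MP_1b8d5d_pr (SC, P7): the excess is bounded (one window; real analysis).
-/

set_option autoImplicit false

namespace Pool.Agent.W_1b8d5d_sc

open Finset Filter Topology

/-- `H` bounds the regularised excess at the scale `2 ^ j` (horizon `2 ^ N`). -/
def MH (A : ℝ) (N : ℕ) (x : ℕ → ℝ) (j : ℕ) (H : ℝ) : Prop := ∀ m, j ≤ m → m ≤ N → x m ≤ A ^ (m - j) * H

/-- The inequalities between the excess `x j` at the scale `2 ^ j` and the tubes: `Tub j b B` says that the tubes of length `2 ^ j` and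
width `b 2 ^ j` are crossed inside with the budget `B`. -/
structure NumH (A θ C₀ C K c : ℝ) (i₀ β : ℕ) (s₀ q₀ s₁ : ℝ → ℕ) (κ : ℝ → ℝ) (N : ℕ) (x : ℕ → ℝ) (Tub : ℕ → ℝ → ℝ → Prop) : Prop where
  one : ∀ j, 1 ≤ x j
  mono : ∀ i j, i ≤ j → j ≤ N → x i ≤ x j
  crude : ∀ j, j ≤ N → x j ≤ C₀ * θ ^ j
  inc : ∀ i j b B H, i₀ ≤ i → i < j → β * j ≤ N → 0 ≤ b → 1 ≤ B → Tub j b B → b ≤ c * 2 ^ i / 2 ^ j → B ≤ c * 2 ^ i → MH A N x j H →
    x (i + 1) ≤ x i + C * (2 ^ i / 2 ^ j + 1 / 2 ^ i) * (B + H)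
  base : ∀ η j H, 0 < η → s₀ η ≤ j → β * j ≤ N → MH A N x j H → Tub j η (K * H)
  win : ∀ δ j₀ j₁ B, 0 < δ → s₁ δ ≤ j₀ → j₀ ≤ j₁ → β * j₁ ≤ N → 1 ≤ B → B ≤ κ δ * 2 ^ j₀ →
    (∀ j m, j₀ ≤ j → j ≤ j₁ → j ≤ m → m ≤ N → K * x m ≤ A ^ (m - j) * B) →
    ∃ b : ℕ → ℝ, (∀ j, j₀ + q₀ δ ≤ j → j ≤ j₁ → 0 ≤ b j ∧ Tub j (b j) B) ∧ ∑ j ∈ Icc (j₀ + q₀ δ) j₁, b j ≤ δ

/-- The sum of distinct powers of `2`. -/
private lemma Num_pow (S : Finset ℕ) (Y : ℝ) (hY : ∀ i ∈ S, (2 : ℝ) ^ i ≤ Y) (hY0 : 0 ≤ Y) : ∑ i ∈ S, (2 : ℝ) ^ i ≤ 2 * Y := by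
  rcases S.eq_empty_or_nonempty with h | h
  · rw [h, Finset.sum_empty]
    linarith
  · have h1 : S ⊆ range (S.max' h + 1) := fun i hi => Finset.mem_range.2 (Nat.lt_succ_of_le (Finset.le_max' S i hi))
    have h2 : ∑ i ∈ S, (2 : ℝ) ^ i ≤ ∑ i ∈ range (S.max' h + 1), (2 : ℝ) ^ i :=
      Finset.sum_le_sum_of_subset_of_nonneg h1 fun i _ _ => by positivity
    have h3 : ∑ i ∈ range (S.max' h + 1), (2 : ℝ) ^ i = 2 ^ (S.max' h + 1) - 1 := by
      have h4 := mul_neg_geom_sum (2 : ℝ) (S.max' h + 1)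
      linarith
    have h4 := hY (S.max' h) (Finset.max'_mem S h)
    rw [h3, pow_succ] at h2
    linarith

/-- `a θ ^ m ≤ b 2 ^ m` for large `m`. -/
private lemma Num_large {θ a b : ℝ} (h1 : 1 < θ) (h2 : θ < 2) (hb : 0 < b) : ∃ S : ℕ, ∀ m, S ≤ m → a * θ ^ m ≤ b * 2 ^ m := by
  have h3 : Tendsto (fun m : ℕ => a * (θ / 2) ^ m) atTop (𝓝 (a * 0)) :=
    (tendsto_pow_atTop_nhds_zero_of_lt_one (by positivity) (by linarith)).const_mul a
  rw [mul_zero] at h3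
  have h4 : ∀ᶠ m : ℕ in atTop, a * (θ / 2) ^ m < b := h3.eventually (gt_mem_nhds hb)
  obtain ⟨S, hS⟩ := eventually_atTop.1 h4
  refine ⟨S, fun m hm => ?_⟩
  have h5 := (hS m hm).le
  rw [div_pow, mul_div_assoc', div_le_iff₀ (by positivity)] at h5
  exact h5

/-- A large power of a number larger than `1`. -/
private lemma Num_pow_large {r a : ℝ} (hr : 1 < r) : ∃ n : ℕ, a ≤ r ^ n := by
  obtain ⟨n, hn⟩ := pow_unbounded_of_one_lt a hr
  exact ⟨n, hn.le⟩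

/-- The sum of the inverses of the powers of `2`. -/
private lemma Num_inv (a k : ℕ) : ∑ i ∈ Ico a (a + k), 1 / (2 : ℝ) ^ i ≤ 2 / 2 ^ a - 2 / 2 ^ (a + k) := by
  induction k with
  | zero => simp
  | succ k ih =>
    rw [← add_assoc, Finset.sum_Ico_succ_top (by omega)]
    have h1 : (2 : ℝ) / 2 ^ (a + k + 1) = 1 / 2 ^ (a + k) := by
      rw [pow_succ]
      field_simp
    have h2 : (2 : ℝ) / 2 ^ (a + k) = 1 / 2 ^ (a + k) + 1 / 2 ^ (a + k) := by
      field_simp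
      norm_num
    rw [h1]
    linarith

private lemma Num_inv' (a b : ℕ) : ∑ i ∈ Ico a b, 1 / (2 : ℝ) ^ i ≤ 2 / 2 ^ a := by
  rcases le_total a b with h | h
  · obtain ⟨k, rfl⟩ := Nat.exists_eq_add_of_le h
    have h1 := Num_inv a k
    have h2 : (0 : ℝ) ≤ 2 / 2 ^ (a + k) := by positivity
    linarith
  · rw [Finset.Ico_eq_empty_of_le h, Finset.sum_empty]
    positivity

/-- Part (b): the increments in the window. -/
private lemma Num_b {A C K c X δ : ℝ} {i₀ β N j₂ m e : ℕ} {x : ℕ → ℝ} {Tub : ℕ → ℝ → ℝ → Prop} {b : ℕ → ℝ}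
    (hC : 0 ≤ C) (hK : 0 ≤ K) (hc : 0 < c) (hX : 0 ≤ X) (hKX1 : 1 ≤ K * X)
    (hinc : ∀ i j b B H, i₀ ≤ i → i < j → β * j ≤ N → 0 ≤ b → 1 ≤ B → Tub j b B → b ≤ c * 2 ^ i / 2 ^ j → B ≤ c * 2 ^ i → MH A N x j H →
      x (i + 1) ≤ x i + C * (2 ^ i / 2 ^ j + 1 / 2 ^ i) * (B + H))
    (hb : ∀ j, j₂ ≤ j → j ≤ m → 0 ≤ b j ∧ Tub j (b j) (K * X)) (hs : ∑ j ∈ Icc j₂ m, b j ≤ δ) (hδ : δ ≤ c / 2)
    (hi₀ : i₀ ≤ j₂) (hm : β * m ≤ N) (hMH : ∀ j, j ≤ m → MH A N x j X) (hBX : K * X ≤ c * 2 ^ j₂) (hem : e ≤ m) (hj₂ : j₂ ≤ m - e) :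
    x (m - e) ≤ x j₂ + C * ((K + 1) * X) * (4 / c * δ + 2 * (1 / 2) ^ e + 2 / 2 ^ j₂) := by
  classical
  -- the choice of the scale
  have hex : ∀ i, j₂ ≤ i → i < m → ∃ j, i < j ∧ j ≤ m ∧ b j ≤ c * 2 ^ i / 2 ^ j ∧
      (j = m ∨ c * 2 ^ i / 2 ^ (j + 1) ≤ b (j + 1)) := by
    intro i hi him
    have h1 : b (i + 1) ≤ c * 2 ^ i / 2 ^ (i + 1) := by
      have h2 : b (i + 1) ≤ ∑ j ∈ Icc j₂ m, b j := by
        refine Finset.single_le_sum (f := b) (fun j hj => ?_) (Finset.mem_Icc.2 ⟨by omega, by omega⟩)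
        rw [Finset.mem_Icc] at hj
        exact (hb j hj.1 hj.2).1
      have h3 : c * 2 ^ i / 2 ^ (i + 1) = c / 2 := by
        rw [pow_succ]
        field_simp
      rw [h3]
      linarith
    have h2 : i + 1 ≤ Nat.findGreatest (fun j => b j ≤ c * 2 ^ i / 2 ^ j) m := Nat.le_findGreatest (by omega) h1
    have h3 : b (Nat.findGreatest (fun j => b j ≤ c * 2 ^ i / 2 ^ j) m) ≤
        c * 2 ^ i / 2 ^ (Nat.findGreatest (fun j => b j ≤ c * 2 ^ i / 2 ^ j) m) :=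
      Nat.findGreatest_spec (P := fun j => b j ≤ c * 2 ^ i / 2 ^ j) (show i + 1 ≤ m by omega) h1
    have h4 : Nat.findGreatest (fun j => b j ≤ c * 2 ^ i / 2 ^ j) m ≤ m := Nat.findGreatest_le _
    refine ⟨Nat.findGreatest (fun j => b j ≤ c * 2 ^ i / 2 ^ j) m, by omega, h4, h3, ?_⟩
    by_cases h5 : Nat.findGreatest (fun j => b j ≤ c * 2 ^ i / 2 ^ j) m = m
    · exact Or.inl h5
    · right
      have h6 : ¬ b (Nat.findGreatest (fun j => b j ≤ c * 2 ^ i / 2 ^ j) m + 1) ≤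
          c * 2 ^ i / 2 ^ (Nat.findGreatest (fun j => b j ≤ c * 2 ^ i / 2 ^ j) m + 1) :=
        Nat.findGreatest_is_greatest (P := fun j => b j ≤ c * 2 ^ i / 2 ^ j) (Nat.lt_succ_self _) (by omega)
      exact (not_le.1 h6).le
  choose! J hJ1 hJ2 hJ3 hJ4 using hex
  -- one step
  have hstep : ∀ i, j₂ ≤ i → i < m → x (i + 1) ≤ x i + C * ((K + 1) * X) * (2 ^ i / 2 ^ J i + 1 / 2 ^ i) := by
    intro i hi him
    have h1 := hJ1 i hi him
    have h2 := hJ2 i hi him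
    have h3 : K * X ≤ c * 2 ^ i := hBX.trans (mul_le_mul_of_nonneg_left (pow_le_pow_right₀ (by norm_num) hi) hc.le)
    have h4 := hinc i (J i) (b (J i)) (K * X) X (by omega) h1 ((Nat.mul_le_mul_left β h2).trans hm) (hb (J i) (by omega) h2).1 hKX1
      (hb (J i) (by omega) h2).2 (hJ3 i hi him) h3 (hMH (J i) h2)
    have h5 : C * (2 ^ i / 2 ^ J i + 1 / 2 ^ i) * (K * X + X) = C * ((K + 1) * X) * (2 ^ i / 2 ^ J i + 1 / 2 ^ i) := by ring
    rwa [h5] at h4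
  have hsum : ∀ k, j₂ + k ≤ m → x (j₂ + k) ≤ x j₂ + C * ((K + 1) * X) * ∑ i ∈ Ico j₂ (j₂ + k), ((2 : ℝ) ^ i / 2 ^ J i + 1 / 2 ^ i) := by
    intro k
    induction k with
    | zero => intro _; simp
    | succ k ih =>
      intro hk
      have h1 := ih (by omega)
      have h2 := hstep (j₂ + k) (by omega) (by omega)
      rw [← add_assoc, Finset.sum_Ico_succ_top (by omega), mul_add]
      linarith
  have h1 := hsum (m - e - j₂) (by omega)
  rw [show j₂ + (m - e - j₂) = m - e by omega] at h1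
  refine h1.trans ?_
  have hKX : 0 ≤ C * ((K + 1) * X) := by positivity
  refine add_le_add le_rfl (mul_le_mul_of_nonneg_left ?_ hKX)
  rw [Finset.sum_add_distrib]
  refine add_le_add ?_ (Num_inv' _ _)
  -- the sum of the ratios
  have h2 : ∑ i ∈ Ico j₂ (m - e), (2 : ℝ) ^ i / 2 ^ J i =
      ∑ j ∈ Icc j₂ m, ∑ i ∈ (Ico j₂ (m - e)).filter (fun i => J i = j), (2 : ℝ) ^ i / 2 ^ J i := by
    rw [Finset.sum_fiberwise_of_maps_to]
    intro i hi
    rw [Finset.mem_Ico] at hi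
    have h3 := hJ1 i hi.1 (by omega)
    have h4 := hJ2 i hi.1 (by omega)
    rw [Finset.mem_Icc]
    omega
  rw [h2]
  have h3 : ∀ j ∈ Icc j₂ m, ∑ i ∈ (Ico j₂ (m - e)).filter (fun i => J i = j), (2 : ℝ) ^ i / 2 ^ J i ≤
      if j = m then 2 * (1 / 2 : ℝ) ^ e else 4 / c * b (j + 1) := by
    intro j hj
    rw [Finset.mem_Icc] at hj
    have h4 : ∑ i ∈ (Ico j₂ (m - e)).filter (fun i => J i = j), (2 : ℝ) ^ i / 2 ^ J i =
        (∑ i ∈ (Ico j₂ (m - e)).filter (fun i => J i = j), (2 : ℝ) ^ i) / 2 ^ j := by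
      rw [Finset.sum_div]
      refine Finset.sum_congr rfl fun i hi => ?_
      rw [(Finset.mem_filter.1 hi).2]
    rw [h4]
    split_ifs with hjm
    · have h5 := Num_pow ((Ico j₂ (m - e)).filter (fun i => J i = j)) (2 ^ (m - e)) (fun i hi => by
        have h6 := (Finset.mem_filter.1 hi).1
        rw [Finset.mem_Ico] at h6
        exact pow_le_pow_right₀ (by norm_num) (by omega)) (by positivity)
      rw [div_le_iff₀ (by positivity)]
      refine h5.trans (le_of_eq ?_)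
      rw [hjm]
      have h7 : (2 : ℝ) ^ m = 2 ^ (m - e) * 2 ^ e := by
        rw [← pow_add]
        congr 1
        omega
      rw [h7, one_div, inv_pow]
      field_simp
    · have h5 : ∀ i ∈ (Ico j₂ (m - e)).filter (fun i => J i = j), (2 : ℝ) ^ i ≤ 2 / c * b (j + 1) * 2 ^ j := by
        intro i hi
        have h6 := Finset.mem_filter.1 hi
        have h7 := Finset.mem_Ico.1 h6.1
        rcases hJ4 i h7.1 (by omega) with h8 | h8
        · exact absurd (h6.2 ▸ h8) hjm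
        · rw [h6.2, div_le_iff₀ (by positivity), pow_succ] at h8
          have h9 : c * 2 ^ i ≤ c * (2 / c * b (j + 1) * 2 ^ j) := by
            have h10 : c * (2 / c * b (j + 1) * 2 ^ j) = b (j + 1) * (2 ^ j * 2) := by field_simp
            rw [h10]
            exact h8
          exact le_of_mul_le_mul_left h9 hc
      have hb1 : 0 ≤ b (j + 1) := (hb (j + 1) (by omega) (by omega)).1
      have h6 := Num_pow _ _ h5 (by positivity)
      rw [div_le_iff₀ (by positivity)]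
      refine h6.trans (le_of_eq ?_)
      ring
  refine (Finset.sum_le_sum h3).trans ?_
  rw [← Finset.sum_filter_add_sum_filter_not (Icc j₂ m) (fun j => j = m)]
  have h4 : ∑ j ∈ (Icc j₂ m).filter (fun j => j = m), (if j = m then 2 * (1 / 2 : ℝ) ^ e else 4 / c * b (j + 1)) ≤ 2 * (1 / 2) ^ e := by
    have h5 : (Icc j₂ m).filter (fun j => j = m) ⊆ {m} := by
      intro j hj
      rw [Finset.mem_singleton]
      exact (Finset.mem_filter.1 hj).2
    refine (Finset.sum_le_sum_of_subset_of_nonneg h5 fun j hj _ => ?_).trans ?_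
    · rw [Finset.mem_singleton] at hj
      rw [if_pos hj]
      positivity
    · rw [Finset.sum_singleton, if_pos rfl]
  have h5 : ∑ j ∈ (Icc j₂ m).filter (fun j => ¬ j = m), (if j = m then 2 * (1 / 2 : ℝ) ^ e else 4 / c * b (j + 1)) ≤ 4 / c * δ := by
    have h6 : ∑ j ∈ (Icc j₂ m).filter (fun j => ¬ j = m), (if j = m then 2 * (1 / 2 : ℝ) ^ e else 4 / c * b (j + 1)) =
        4 / c * ∑ j ∈ (Icc j₂ m).filter (fun j => ¬ j = m), b (j + 1) := by
      rw [Finset.mul_sum]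
      refine Finset.sum_congr rfl fun j hj => ?_
      rw [if_neg (Finset.mem_filter.1 hj).2]
    rw [h6]
    refine mul_le_mul_of_nonneg_left ?_ (by positivity)
    refine le_trans ?_ hs
    have h7 : ∑ j ∈ (Icc j₂ m).filter (fun j => ¬ j = m), b (j + 1) =
        ∑ j ∈ ((Icc j₂ m).filter (fun j => ¬ j = m)).image (fun j => j + 1), b j := by
      rw [Finset.sum_image]
      intro a _ b _ hab
      simpa using hab
    rw [h7]
    refine Finset.sum_le_sum_of_subset_of_nonneg ?_ fun j hj _ => ?_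
    · intro j hj
      rw [Finset.mem_image] at hj
      obtain ⟨j', hj', rfl⟩ := hj
      rw [Finset.mem_filter, Finset.mem_Icc] at hj'
      rw [Finset.mem_Icc]
      omega
    · rw [Finset.mem_Icc] at hj
      exact (hb j hj.1 hj.2).1
  linarith

/-- Part (c): the last steps, with the soft tubes. -/
private lemma Num_c {A θ C₀ C K c X : ℝ} {i₀ β N m e r : ℕ} {s₀ : ℝ → ℕ} {x : ℕ → ℝ} {Tub : ℕ → ℝ → ℝ → Prop}
    (hA : 1 < A) (hC : 0 ≤ C) (hK : 1 ≤ K) (hc : 0 < c) (hX : 1 ≤ X) (hX1 : X ≤ C₀ * θ ^ m)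
    (hinc : ∀ i j b B H, i₀ ≤ i → i < j → β * j ≤ N → 0 ≤ b → 1 ≤ B → Tub j b B → b ≤ c * 2 ^ i / 2 ^ j → B ≤ c * 2 ^ i → MH A N x j H →
      x (i + 1) ≤ x i + C * (2 ^ i / 2 ^ j + 1 / 2 ^ i) * (B + H))
    (hbase : ∀ η j H, 0 < η → s₀ η ≤ j → β * j ≤ N → MH A N x j H → Tub j η (K * H))
    (hMH : MH A N x m X) (hm : β * (m + r) ≤ N) (hr : 1 ≤ r) (hem : e + i₀ ≤ m) (hs₀ : s₀ (c / 2 ^ (e + r)) ≤ m)
    (hbig : K * A ^ r * C₀ * 2 ^ e * θ ^ m ≤ c * 2 ^ m) :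
    x m ≤ x (m - e) + (C * (K + 1) * (A / 2) ^ r * X + C * (K + 1) * A ^ r * X * (2 / 2 ^ (m - e))) := by
  have hA0 : 0 < A := by linarith
  have hK0 : 0 < K := by linarith
  have hX0 : 0 < X := by linarith
  have hB1 : 1 ≤ K * (A ^ r * X) := by
    have h1 : 1 ≤ A ^ r := one_le_pow₀ hA.le
    have h2 : 1 * 1 ≤ A ^ r * X := mul_le_mul h1 hX (by norm_num) (by linarith)
    have h3 : 1 * 1 ≤ K * (A ^ r * X) := mul_le_mul hK (by linarith) (by norm_num) (by linarith)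
    linarith
  have hMH2 : MH A N x (m + r) (A ^ r * X) := by
    intro k hk hkN
    refine (hMH k (by omega) hkN).trans (le_of_eq ?_)
    rw [← mul_assoc, ← pow_add]
    congr 2
    omega
  have hT := hbase (c / 2 ^ (e + r)) (m + r) (A ^ r * X) (by positivity) (by omega) hm hMH2
  have hB : K * (A ^ r * X) ≤ c * 2 ^ (m - e) := by
    have h1 : K * (A ^ r * X) * 2 ^ e ≤ K * A ^ r * C₀ * 2 ^ e * θ ^ m := by
      have h2 : K * (A ^ r * X) * 2 ^ e = K * A ^ r * 2 ^ e * X := by ring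
      have h3 : K * A ^ r * C₀ * 2 ^ e * θ ^ m = K * A ^ r * 2 ^ e * (C₀ * θ ^ m) := by ring
      rw [h2, h3]
      exact mul_le_mul_of_nonneg_left hX1 (by positivity)
    have h2 : (2 : ℝ) ^ m = 2 ^ (m - e) * 2 ^ e := by
      rw [← pow_add]
      congr 1
      omega
    have h3 : K * (A ^ r * X) * 2 ^ e ≤ c * 2 ^ (m - e) * 2 ^ e := by
      rw [mul_assoc c, ← h2]
      exact h1.trans hbig
    exact le_of_mul_le_mul_right h3 (by positivity)
  have hstep : ∀ i, m - e ≤ i → i < m → x (i + 1) ≤ x i + (C * (K + 1) * (A / 2) ^ r * X * (2 ^ i / 2 ^ m) +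
      C * (K + 1) * A ^ r * X * (1 / 2 ^ i)) := by
    intro i hi him
    have h1 := hinc i (m + r) (c / 2 ^ (e + r)) (K * (A ^ r * X)) (A ^ r * X) (by omega) (by omega) hm (by positivity) hB1 hT ?_ ?_ hMH2
    · refine h1.trans (le_of_eq ?_)
      rw [pow_add (2 : ℝ) m r, div_pow]
      field_simp
    · rw [div_le_div_iff₀ (by positivity) (by positivity), mul_assoc, ← pow_add]
      exact mul_le_mul_of_nonneg_left (pow_le_pow_right₀ (by norm_num) (by omega)) hc.le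
    · exact hB.trans (mul_le_mul_of_nonneg_left (pow_le_pow_right₀ (by norm_num) hi) hc.le)
  have hsum : ∀ k, k ≤ e → x (m - e + k) ≤ x (m - e) + (C * (K + 1) * (A / 2) ^ r * X * ∑ i ∈ Ico (m - e) (m - e + k), (2 : ℝ) ^ i / 2 ^ m +
      C * (K + 1) * A ^ r * X * ∑ i ∈ Ico (m - e) (m - e + k), 1 / (2 : ℝ) ^ i) := by
    intro k
    induction k with
    | zero => intro _; simp
    | succ k ih =>
      intro hk
      have h1 := ih (by omega)
      have h2 := hstep (m - e + k) (by omega) (by omega)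
      rw [← add_assoc, Finset.sum_Ico_succ_top (by omega), Finset.sum_Ico_succ_top (by omega), mul_add, mul_add]
      linarith
  have h1 := hsum e le_rfl
  rw [show m - e + e = m by omega] at h1
  refine h1.trans ?_
  have h2 : ∑ i ∈ Ico (m - e) m, (2 : ℝ) ^ i / 2 ^ m ≤ 1 := by
    rw [← Finset.sum_div, div_le_one (by positivity)]
    have h3 : ∑ i ∈ Ico (m - e) m, (2 : ℝ) ^ i ≤ ∑ i ∈ range m, (2 : ℝ) ^ i :=
      Finset.sum_le_sum_of_subset_of_nonneg (fun i hi => Finset.mem_range.2 (Finset.mem_Ico.1 hi).2) fun i _ _ => by positivity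
    have h4 : ∑ i ∈ range m, (2 : ℝ) ^ i = 2 ^ m - 1 := by
      have h5 := mul_neg_geom_sum (2 : ℝ) m
      linarith
    linarith
  have h3 : 0 ≤ C * (K + 1) * (A / 2) ^ r * X := by positivity
  have h4 := mul_le_mul_of_nonneg_left h2 h3
  have h5 : 0 ≤ C * (K + 1) * A ^ r * X := by positivity
  have h6 := mul_le_mul_of_nonneg_left (Num_inv' (m - e) m) h5
  linarith

/-- The maximum of `x m / A ^ m`. -/
private lemma Num_max {A θ C₀ : ℝ} (hA : 1 < A) {N n Λ : ℕ} {x : ℕ → ℝ} (hθ : 1 < θ) (hθA : θ < A)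
    (hone : ∀ j, 1 ≤ x j) (hmono : ∀ i j, i ≤ j → j ≤ N → x i ≤ x j) (hcr : ∀ j, j ≤ N → x j ≤ C₀ * θ ^ j)
    (hΛA : A ≤ (A / θ) ^ Λ) (hΛC : C₀ ≤ (A / θ) ^ Λ) (hn : n ≤ N) :
    ∃ m, n ≤ m ∧ m ≤ N ∧ m ≤ Λ * (n + 1) ∧ (∀ j, j ≤ m → MH A N x j (x m)) := by
  have hA0 : 0 < A := by linarith
  have hθ0 : 0 < θ := by linarith
  obtain ⟨m, hm, hmax⟩ := Finset.exists_max_image (Icc n N) (fun k => x k / A ^ k) ⟨n, Finset.mem_Icc.2 ⟨le_rfl, hn⟩⟩
  rw [Finset.mem_Icc] at hm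
  have h1 : ∀ k, n ≤ k → k ≤ N → x k * A ^ m ≤ x m * A ^ k := by
    intro k hk hkN
    have h2 := hmax k (Finset.mem_Icc.2 ⟨hk, hkN⟩)
    rwa [div_le_div_iff₀ (pow_pos hA0 k) (pow_pos hA0 m)] at h2
  refine ⟨m, hm.1, hm.2, ?_, ?_⟩
  · by_contra hcon
    push Not at hcon
    have h2 := h1 n le_rfl hn
    have h3 := hcr m hm.2
    have h4 := hone n
    have hr : 1 < A / θ := (one_lt_div hθ0).2 hθA
    have h5 : A ^ m ≤ C₀ * θ ^ m * A ^ n := by
      calc A ^ m = 1 * A ^ m := (one_mul _).symm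
        _ ≤ x n * A ^ m := mul_le_mul_of_nonneg_right h4 (by positivity)
        _ ≤ x m * A ^ n := h2
        _ ≤ C₀ * θ ^ m * A ^ n := mul_le_mul_of_nonneg_right h3 (by positivity)
    have h6 : (A / θ) ^ m ≤ C₀ * A ^ n := by
      rw [div_pow, div_le_iff₀ (pow_pos hθ0 m)]
      linarith
    have h7 : C₀ * A ^ n ≤ (A / θ) ^ (Λ * (n + 1)) := by
      calc C₀ * A ^ n ≤ (A / θ) ^ Λ * ((A / θ) ^ Λ) ^ n :=
            mul_le_mul hΛC (pow_le_pow_left₀ hA0.le hΛA n) (by positivity) (by positivity)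
        _ = (A / θ) ^ (Λ * (n + 1)) := by rw [← pow_mul, ← pow_add]; congr 1; ring
    have h8 : (A / θ) ^ (Λ * (n + 1)) < (A / θ) ^ m := pow_lt_pow_right₀ hr hcon
    linarith
  · intro j hj k hk hkN
    have hxm : 0 ≤ x m := by linarith [hone m]
    rcases le_total k m with h | h
    · have h2 := hmono k m h hm.2
      refine h2.trans (le_mul_of_one_le_left hxm (one_le_pow₀ hA.le))
    · have h2 := h1 k (hm.1.trans h) hkN
      have h3 : A ^ k = A ^ (k - m) * A ^ m := by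
        rw [← pow_add]
        congr 1
        omega
      rw [h3, ← mul_assoc] at h2
      have h4 := le_of_mul_le_mul_right h2 (pow_pos hA0 m)
      refine h4.trans ?_
      rw [mul_comm]
      exact mul_le_mul_of_nonneg_right (pow_le_pow_right₀ hA.le (by omega)) hxm

/-- ** (P7) ** The excess is bounded. -/
theorem num_bounded (A θ C₀ C K c : ℝ) (i₀ β : ℕ) (s₀ q₀ s₁ : ℝ → ℕ) (κ : ℝ → ℝ) (hθ : 1 < θ) (hA : θ < A) (hA2 : A < 2)
    (hC₀ : 1 ≤ C₀) (hC : 0 ≤ C) (hK1 : 1 ≤ K) (hc : 0 < c) (hκ : ∀ δ, 0 < δ → 0 < κ δ) :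
    ∃ (Cs : ℝ) (Λ : ℕ), ∀ (N : ℕ) (x : ℕ → ℝ) (Tub : ℕ → ℝ → ℝ → Prop), NumH A θ C₀ C K c i₀ β s₀ q₀ s₁ κ N x Tub →
      ∀ n, Λ * (n + 1) ≤ N → x n ≤ Cs ∧ MH A N x n Cs := by
  have hA1 : 1 < A := by linarith
  have hA0 : 0 < A := by linarith
  have hθ0 : 0 < θ := by linarith
  have hK : 0 ≤ K := by linarith
  have hr : 1 < A / θ := (one_lt_div hθ0).2 hA
  -- the constants
  obtain ⟨Λ₁, hΛA, hΛC⟩ : ∃ Λ₁ : ℕ, A ≤ (A / θ) ^ Λ₁ ∧ C₀ ≤ (A / θ) ^ Λ₁ := by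
    obtain ⟨n, hn⟩ := Num_pow_large (a := max A C₀) hr
    exact ⟨n, (le_max_left _ _).trans hn, (le_max_right _ _).trans hn⟩
  obtain ⟨e, he⟩ : ∃ e : ℕ, C * (K + 1) * (2 * (1 / 2) ^ e) ≤ 1 / 16 := by
    obtain ⟨n, hn⟩ := exists_pow_lt_of_lt_one (show 0 < 1 / (16 * (2 * (C * (K + 1)) + 1)) by positivity) (show (1 / 2 : ℝ) < 1 by norm_num)
    refine ⟨n, ?_⟩
    have h1 := hn.le
    rw [le_div_iff₀ (by positivity)] at h1
    have h2 : 0 < (1 / 2 : ℝ) ^ n := by positivity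
    nlinarith
  obtain ⟨δ, hδ, hδ1, hδ2⟩ : ∃ δ : ℝ, 0 < δ ∧ δ ≤ c / 2 ∧ C * (K + 1) * (4 / c * δ) ≤ 1 / 16 := by
    refine ⟨min (c / 2) (c / (64 * (C * (K + 1) + 1))), by positivity, min_le_left _ _, ?_⟩
    have h1 : min (c / 2) (c / (64 * (C * (K + 1) + 1))) ≤ c / (64 * (C * (K + 1) + 1)) := min_le_right _ _
    have h2 : 4 / c * min (c / 2) (c / (64 * (C * (K + 1) + 1))) ≤ 4 / c * (c / (64 * (C * (K + 1) + 1))) :=
      mul_le_mul_of_nonneg_left h1 (by positivity)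
    have h3 : 4 / c * (c / (64 * (C * (K + 1) + 1))) = 1 / (16 * (C * (K + 1) + 1)) := by
      field_simp
      norm_num
    have h4 : C * (K + 1) * (4 / c * min (c / 2) (c / (64 * (C * (K + 1) + 1)))) ≤ C * (K + 1) * (1 / (16 * (C * (K + 1) + 1))) :=
      mul_le_mul_of_nonneg_left (h2.trans h3.le) (by positivity)
    refine h4.trans ?_
    rw [mul_one_div, div_le_div_iff₀ (by positivity) (by norm_num)]
    have : 0 ≤ C * (K + 1) := by positivity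
    linarith
  obtain ⟨r, hr1, hr2⟩ : ∃ r : ℕ, 1 ≤ r ∧ C * (K + 1) * (A / 2) ^ r ≤ 1 / 8 := by
    obtain ⟨n, hn⟩ := exists_pow_lt_of_lt_one (show 0 < 1 / (8 * (C * (K + 1) + 1)) by positivity) (show A / 2 < 1 by linarith)
    refine ⟨n + 1, by omega, ?_⟩
    have h1 : (A / 2) ^ (n + 1) ≤ (A / 2) ^ n := pow_le_pow_of_le_one (by positivity) (by linarith) (by omega)
    have h2 := h1.trans hn.le
    rw [le_div_iff₀ (by positivity)] at h2
    have h3 : 0 < (A / 2) ^ (n + 1) := by positivity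
    nlinarith
  obtain ⟨R₁, hR₁⟩ : ∃ R₁ : ℝ, R₁ = 8 * A ^ q₀ δ := ⟨_, rfl⟩
  have hR₁1 : 1 < R₁ := by
    have h1 : 1 ≤ A ^ q₀ δ := one_le_pow₀ hA1.le
    rw [hR₁]
    linarith
  have hκδ := hκ δ hδ
  obtain ⟨S₁, hS₁⟩ := Num_large (θ := θ) (a := K * R₁ * C₀ * θ) (b := min (κ δ) c) hθ (by linarith) (by positivity)
  obtain ⟨S₂, hS₂⟩ := Num_large (θ := θ) (a := K * A ^ r * C₀ * 2 ^ e) (b := c) hθ (by linarith) hc
  obtain ⟨S₃, hS₃⟩ : ∃ S₃ : ℕ, C * (K + 1) * A ^ r * 2 * 16 * 2 ^ e ≤ (2 : ℝ) ^ S₃ := Num_pow_large (by norm_num)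
  obtain ⟨S, hS⟩ : ∃ S : ℕ, S = s₁ δ + i₀ + S₁ + S₂ + e + s₀ (c / 2 ^ (e + r)) + S₃ := ⟨_, rfl⟩
  obtain ⟨Cs, hCs⟩ : ∃ Cs : ℝ, Cs = R₁ * (C₀ * θ ^ S) := ⟨_, rfl⟩
  obtain ⟨Λ, hΛ⟩ : ∃ Λ : ℕ, Λ = (β + 1) * (Λ₁ + r + q₀ δ + S) := ⟨_, rfl⟩
  have hCs1 : 1 ≤ Cs := by
    have h1 : 1 ≤ θ ^ S := one_le_pow₀ hθ.le
    rw [hCs]
    nlinarith [mul_le_mul hC₀ h1 (by norm_num) (by linarith)]
  -- the first assertion
  have main : ∀ (N : ℕ) (x : ℕ → ℝ) (Tub : ℕ → ℝ → ℝ → Prop), NumH A θ C₀ C K c i₀ β s₀ q₀ s₁ κ N x Tub →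
      ∀ n, Λ * (n + 1) ≤ N → x n ≤ Cs := by
    intro N x Tub h n hn
    by_contra hcon
    push Not at hcon
    have hΛn : (β + 1) * (Λ₁ * (n + 1) + r + q₀ δ + S) ≤ Λ * (n + 1) := by
      rw [hΛ, mul_assoc]
      refine Nat.mul_le_mul_left _ ?_
      have : r + q₀ δ + S ≤ (r + q₀ δ + S) * (n + 1) := Nat.le_mul_of_pos_right _ (Nat.succ_pos n)
      nlinarith
    have hΛ0 : Λ₁ * (n + 1) + r + q₀ δ + S ≤ Λ * (n + 1) := (Nat.le_mul_of_pos_left _ (Nat.succ_pos β)).trans hΛn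
    have hnΛ : n ≤ N := by
      rcases Nat.eq_zero_or_pos Λ with h0 | h0
      · exfalso
        rw [h0, Nat.zero_mul] at hΛ0
        omega
      · exact (Nat.le_succ n).trans ((Nat.le_mul_of_pos_left (n + 1) h0).trans hn)
    obtain ⟨m, hnm, hmN, hmΛ, hMH⟩ := Num_max hA1 hθ hA h.one h.mono h.crude hΛA hΛC hnΛ
    have hβ : ∀ k, k ≤ m + r → β * k ≤ N := by
      intro k hk
      have h1 : k ≤ Λ₁ * (n + 1) + r + q₀ δ + S := by omega
      have h2 : β * k ≤ (β + 1) * (Λ₁ * (n + 1) + r + q₀ δ + S) := Nat.mul_le_mul (Nat.le_succ β) h1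
      exact h2.trans (hΛn.trans hn)
    have hXn : x n ≤ x m := h.mono n m hnm hmN
    obtain ⟨X, hX⟩ : ∃ X : ℝ, X = x m := ⟨_, rfl⟩
    rw [← hX] at hMH hXn
    have hXC : Cs < X := by linarith
    have hX0 : 0 < X := by linarith
    have hX1 : 1 ≤ X := by linarith
    have hKX1 : 1 ≤ K * X := by nlinarith
    -- the small terms
    have hsm : ∀ k, S₃ ≤ k → C * (K + 1) * A ^ r * X * (2 / 2 ^ k) * 2 ^ e ≤ 1 / 16 * X := by
      intro k hk
      have h1 : (2 : ℝ) ^ S₃ ≤ 2 ^ k := pow_le_pow_right₀ (by norm_num) hk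
      have h2 : C * (K + 1) * A ^ r * X * (2 / 2 ^ k) * 2 ^ e = C * (K + 1) * A ^ r * 2 * 2 ^ e / 2 ^ k * X := by
        field_simp
      rw [h2]
      refine mul_le_mul_of_nonneg_right ?_ hX0.le
      rw [div_le_iff₀ (by positivity)]
      linarith
    -- the starting scale
    have hSm : MH A N x S (X / R₁) := by
      intro k hk hkN
      have h1 := h.crude k hkN
      have h2 : θ ^ k = θ ^ S * θ ^ (k - S) := by
        rw [← pow_add]
        congr 1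
        omega
      have h3 : θ ^ (k - S) ≤ A ^ (k - S) := pow_le_pow_left₀ hθ0.le hA.le _
      have h4 : C₀ * θ ^ S ≤ X / R₁ := by
        rw [le_div_iff₀ (by linarith)]
        rw [hCs] at hXC
        linarith
      calc x k ≤ C₀ * (θ ^ S * θ ^ (k - S)) := by rw [← h2]; exact h1
        _ = C₀ * θ ^ S * θ ^ (k - S) := by ring
        _ ≤ X / R₁ * A ^ (k - S) := mul_le_mul h4 h3 (by positivity) (by positivity)
        _ = A ^ (k - S) * (X / R₁) := by ring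
    have hSm2 : S < m := by
      by_contra hc2
      push Not at hc2
      have h1 := h.crude m hmN
      have h2 : θ ^ m ≤ θ ^ S := pow_le_pow_right₀ hθ.le hc2
      have h3 : C₀ * θ ^ m ≤ C₀ * θ ^ S := mul_le_mul_of_nonneg_left h2 (by linarith)
      have h4 : C₀ * θ ^ S ≤ R₁ * (C₀ * θ ^ S) := le_mul_of_one_le_left (by positivity) hR₁1.le
      rw [hCs] at hXC
      linarith
    classical
    obtain ⟨j₀, hj₀⟩ : ∃ j₀ : ℕ, j₀ = Nat.findGreatest (fun j => MH A N x j (X / R₁)) m := ⟨_, rfl⟩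
    have hj1 : S ≤ j₀ := by
      rw [hj₀]
      exact Nat.le_findGreatest hSm2.le hSm
    have hj2 : MH A N x j₀ (X / R₁) := by
      rw [hj₀]
      exact Nat.findGreatest_spec (P := fun j => MH A N x j (X / R₁)) hSm2.le hSm
    have hj3 : j₀ ≤ m := by
      rw [hj₀]
      exact Nat.findGreatest_le _
    have hj4 : j₀ < m := by
      rcases hj3.lt_or_eq with h1 | h1
      · exact h1
      · exfalso
        rw [h1] at hj2
        have h2 := hj2 m le_rfl hmN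
        rw [Nat.sub_self, pow_zero, one_mul, ← hX] at h2
        rw [le_div_iff₀ (by linarith)] at h2
        nlinarith
    have hj5 : X ≤ R₁ * C₀ * θ * θ ^ j₀ := by
      have h1 : ¬ MH A N x (j₀ + 1) (X / R₁) := by
        rw [hj₀]
        exact Nat.findGreatest_is_greatest (P := fun j => MH A N x j (X / R₁)) (Nat.lt_succ_self _) (by rw [← hj₀]; omega)
      unfold MH at h1
      push Not at h1
      obtain ⟨k, hk1, hk2, hk3⟩ := h1
      have h2 := h.crude k hk2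
      have h3 : θ ^ k = θ ^ (k - (j₀ + 1)) * (θ * θ ^ j₀) := by
        rw [← pow_succ', ← pow_add]
        congr 1
        omega
      have h4 : θ ^ (k - (j₀ + 1)) ≤ A ^ (k - (j₀ + 1)) := pow_le_pow_left₀ hθ0.le hA.le _
      have h5 : A ^ (k - (j₀ + 1)) * (X / R₁) < A ^ (k - (j₀ + 1)) * (C₀ * (θ * θ ^ j₀)) := by
        calc A ^ (k - (j₀ + 1)) * (X / R₁) < x k := hk3
          _ ≤ C₀ * (θ ^ (k - (j₀ + 1)) * (θ * θ ^ j₀)) := by rw [← h3]; exact h2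
          _ = θ ^ (k - (j₀ + 1)) * (C₀ * (θ * θ ^ j₀)) := by ring
          _ ≤ A ^ (k - (j₀ + 1)) * (C₀ * (θ * θ ^ j₀)) := mul_le_mul_of_nonneg_right h4 (by positivity)
      have h6 := (lt_of_mul_lt_mul_left h5 (by positivity)).le
      rw [div_le_iff₀ (by linarith)] at h6
      linarith
    -- the budget
    have hB : K * X ≤ min (κ δ) c * 2 ^ j₀ := by
      have h1 := hS₁ j₀ (by omega)
      have h2 : K * X ≤ K * (R₁ * C₀ * θ * θ ^ j₀) := mul_le_mul_of_nonneg_left hj5 hK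
      linarith
    have hB1 : K * X ≤ κ δ * 2 ^ j₀ := hB.trans (mul_le_mul_of_nonneg_right (min_le_left _ _) (by positivity))
    have hB2 : K * X ≤ c * 2 ^ j₀ := hB.trans (mul_le_mul_of_nonneg_right (min_le_right _ _) (by positivity))
    -- (a)
    have ha : x (j₀ + q₀ δ) ≤ X / 8 := by
      have h1 := hj2 (j₀ + q₀ δ) (by omega) (by omega)
      rw [Nat.add_sub_cancel_left] at h1
      refine h1.trans (le_of_eq ?_)
      rw [hR₁]
      have : A ^ q₀ δ ≠ 0 := by positivity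
      field_simp
    -- (c)
    have hXm : X ≤ C₀ * θ ^ m := by rw [hX]; exact h.crude m hmN
    have hcc := Num_c (e := e) (r := r) hA1 hC hK1 hc hX1 hXm h.inc h.base (hMH m le_rfl) (hβ _ le_rfl) hr1 (by omega) (by omega)
      (hS₂ m (by omega))
    rw [← hX] at hcc
    have hc3 : C * (K + 1) * (A / 2) ^ r * X ≤ 1 / 8 * X := mul_le_mul_of_nonneg_right hr2 hX0.le
    have hc4 : C * (K + 1) * A ^ r * X * (2 / 2 ^ (m - e)) ≤ 1 / 16 * X := by
      have h1 := hsm m (by omega)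
      have h2 : (2 : ℝ) ^ m = 2 ^ (m - e) * 2 ^ e := by
        rw [← pow_add]
        congr 1
        omega
      have h3 : C * (K + 1) * A ^ r * X * (2 / 2 ^ m) * 2 ^ e = C * (K + 1) * A ^ r * X * (2 / 2 ^ (m - e)) := by
        rw [h2]
        field_simp
      linarith
    -- (b)
    rcases le_total (j₀ + q₀ δ) (m - e) with hcase | hcase
    · obtain ⟨b, hb1, hb2⟩ := h.win δ j₀ m (K * X) hδ (by omega) hj3 (hβ m (by omega)) hKX1 hB1 (by
        intro j k h1 h2 h3 h4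
        have h5 := hMH j h2 k h3 h4
        have h6 := mul_le_mul_of_nonneg_left h5 hK
        linarith)
      have hbb := Num_b (e := e) (δ := δ) hC hK hc hX0.le hKX1 h.inc hb1 hb2 hδ1 (by omega) (hβ m (by omega)) hMH
        (hB2.trans (mul_le_mul_of_nonneg_left (pow_le_pow_right₀ (by norm_num) (by omega)) hc.le)) (by omega) hcase
      have h1 : C * ((K + 1) * X) * (4 / c * δ + 2 * (1 / 2) ^ e + 2 / 2 ^ (j₀ + q₀ δ)) =
          (C * (K + 1) * (4 / c * δ) + C * (K + 1) * (2 * (1 / 2) ^ e)) * X + C * (K + 1) * X * (2 / 2 ^ (j₀ + q₀ δ)) := by ring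
      rw [h1] at hbb
      have h3 : C * (K + 1) * X * (2 / 2 ^ (j₀ + q₀ δ)) ≤ 1 / 16 * X := by
        have h4 := hsm (j₀ + q₀ δ) (by omega)
        have h5 : 1 ≤ A ^ r * 2 ^ e := one_le_mul_of_one_le_of_one_le (one_le_pow₀ hA1.le) (one_le_pow₀ (by norm_num))
        have h6 : C * (K + 1) * X * (2 / 2 ^ (j₀ + q₀ δ)) ≤ C * (K + 1) * X * (2 / 2 ^ (j₀ + q₀ δ)) * (A ^ r * 2 ^ e) :=
          le_mul_of_one_le_right (by positivity) h5
        linarith
      have h2 : (C * (K + 1) * (4 / c * δ) + C * (K + 1) * (2 * (1 / 2) ^ e)) * X ≤ 1 / 8 * X :=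
        mul_le_mul_of_nonneg_right (by linarith) hX0.le
      linarith
    · have h1 := h.mono (m - e) (j₀ + q₀ δ) hcase (by omega)
      linarith
  refine ⟨Cs, Λ * (Λ₁ + 1), fun N x Tub h n hn => ?_⟩
  have hΛ1 : Λ * (n + 1) ≤ Λ * (Λ₁ + 1) * (n + 1) := by
    have : Λ ≤ Λ * (Λ₁ + 1) := Nat.le_mul_of_pos_right _ (Nat.succ_pos _)
    exact Nat.mul_le_mul_right _ this
  refine ⟨main N x Tub h n (hΛ1.trans hn), fun k hk hkN => ?_⟩
  by_cases hkΛ : Λ * (k + 1) ≤ N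
  · refine (main N x Tub h k hkΛ).trans (le_mul_of_one_le_left (by linarith) (one_le_pow₀ hA1.le))
  · push Not at hkΛ
    have h1 : Λ * ((Λ₁ + 1) * (n + 1)) < Λ * (k + 1) := by
      rw [← mul_assoc]
      omega
    have h2 : (Λ₁ + 1) * (n + 1) < k + 1 := lt_of_mul_lt_mul_left h1 (Nat.zero_le _)
    have h3 : Λ₁ * (n + 1) ≤ k := by nlinarith
    have h4 : C₀ * A ^ n ≤ (A / θ) ^ k := by
      calc C₀ * A ^ n ≤ (A / θ) ^ Λ₁ * ((A / θ) ^ Λ₁) ^ n :=
            mul_le_mul hΛC (pow_le_pow_left₀ hA0.le hΛA n) (by positivity) (by positivity)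
        _ = (A / θ) ^ (Λ₁ * (n + 1)) := by rw [← pow_mul, ← pow_add]; congr 1; ring
        _ ≤ (A / θ) ^ k := pow_le_pow_right₀ hr.le h3
    rw [div_pow, le_div_iff₀ (pow_pos hθ0 k)] at h4
    have h5 := h.crude k hkN
    have h6 : A ^ k = A ^ (k - n) * A ^ n := by
      rw [← pow_add]
      congr 1
      omega
    have h7 : x k * A ^ n ≤ A ^ (k - n) * Cs * A ^ n := by
      calc x k * A ^ n ≤ C₀ * θ ^ k * A ^ n := mul_le_mul_of_nonneg_right h5 (by positivity)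
        _ = C₀ * A ^ n * θ ^ k := by ring
        _ ≤ A ^ k := h4
        _ = A ^ (k - n) * A ^ n * 1 := by rw [h6, mul_one]
        _ ≤ A ^ (k - n) * A ^ n * Cs := mul_le_mul_of_nonneg_left hCs1 (by positivity)
        _ = A ^ (k - n) * Cs * A ^ n := by ring
    exact le_of_mul_le_mul_right h7 (pow_pos hA0 n)

end Pool.Agent.W_1b8d5d_sc
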