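import Pool.Agent.W_1b8d5d_fe.Cv

/-!
MP_1b8d5d_pr (SC): the number of edges of a strip.
-/

set_option autoImplicit false

namespace Pool.Agent.W_1b8d5d_sc

open Finset Pool.Agent.W_1b8d5d_h85 Pool.Agent.W_1b8d5d_fe

/-- The vertices of the strip of slope `σ` with the levels `[α, α + l]` and the half width `W` around the height `β` (at the level `α`). -/
def StripS (c : Crd) (σ α β l W : ℝ) : Set V := {z | α ≤ lv c z ∧ lv c z ≤ α + l ∧ |c.q z - β - σ * (lv c z - α)| ≤ W}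

private theorem Strip_coord {z : V} {r : ℝ} (h : nm z ≤ r) :
    z ∈ Finset.Icc (-⌊r⌋) ⌊r⌋ ×ˢ Finset.Icc (-⌊r⌋) ⌊r⌋ := by
  unfold nm at h
  have h1 := abs_nonneg (z.1 : ℝ)
  have h2 := abs_nonneg (z.2 : ℝ)
  have h3 : |z.1| ≤ ⌊r⌋ := by
    rw [Int.le_floor]
    push_cast
    linarith
  have h4 : |z.2| ≤ ⌊r⌋ := by
    rw [Int.le_floor]
    push_cast
    linarith
  rw [Finset.mem_product, Finset.mem_Icc, Finset.mem_Icc]
  rw [abs_le] at h3 h4
  exact ⟨h3, h4⟩

private theorem Strip_fib (c : Crd) {σ : ℝ} (hσ : |σ| ≤ 1) (s : Finset V) (a : ℤ × ℤ) :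
    (((s.filter fun z => (⌊lv c z⌋, ⌊c.q z - σ * lv c z⌋) = a).card : ℕ) : ℝ) ≤ 121 * c.C ^ 2 := by
  classical
  have hC := c.one_le
  rcases Finset.eq_empty_or_nonempty (s.filter fun z => (⌊lv c z⌋, ⌊c.q z - σ * lv c z⌋) = a) with h0 | ⟨z₀, hz₀⟩
  · rw [h0, Finset.card_empty, Nat.cast_zero]
    positivity
  · set r : ℤ := ⌊5 * c.C⌋ with hr
    have hr0 : 0 ≤ r := by
      rw [hr, Int.floor_nonneg]
      linarith
    have hz0 := (Finset.mem_filter.1 hz₀).2
    have hsub : ∀ z ∈ s.filter (fun z => (⌊lv c z⌋, ⌊c.q z - σ * lv c z⌋) = a),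
        z - z₀ ∈ Finset.Icc (-r) r ×ˢ Finset.Icc (-r) r := by
      intro z hz
      have hz1 := (Finset.mem_filter.1 hz).2
      rw [← hz0, Prod.mk.injEq] at hz1
      refine Strip_coord ?_
      have h1 := c.nm_le (z - z₀)
      rw [map_sub, map_sub] at h1
      have h2 := abs_le.1 (Int.abs_sub_lt_one_of_floor_eq_floor hz1.1).le
      have h3 := abs_le.1 (Int.abs_sub_lt_one_of_floor_eq_floor hz1.2).le
      have h4 : |σ * (lv c z - lv c z₀)| ≤ 1 := by
        rw [abs_mul]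
        have h5 : |lv c z - lv c z₀| ≤ 1 := abs_le.2 h2
        calc |σ| * |lv c z - lv c z₀| ≤ 1 * 1 := mul_le_mul hσ h5 (abs_nonneg _) (by norm_num)
          _ = 1 := one_mul 1
      have h5 := abs_le.1 h4
      have h6 : |c.q z - c.q z₀| ≤ 2 := by
        rw [abs_le]
        constructor <;> linarith [h3.1, h3.2, h5.1, h5.2]
      have h7 : |c.p z - c.p z₀| ≤ 3 := by
        have h8 := abs_le.1 h6
        unfold lv at h2
        rw [abs_le]
        constructor <;> linarith [h2.1, h2.2, h8.1, h8.2]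
      have h8 : c.C * (|c.p z - c.p z₀| + |c.q z - c.q z₀|) ≤ c.C * 5 := mul_le_mul_of_nonneg_left (by linarith) (by linarith)
      linarith
    have h1 := Finset.card_le_card_of_injOn (fun z : V => z - z₀) hsub
      (fun x _ y _ h => sub_left_injective h)
    rw [Finset.card_product, Int.card_Icc] at h1
    have h2 : ((r + 1 - -r).toNat : ℝ) ≤ 11 * c.C := by
      have h3 : ((r + 1 - -r).toNat : ℤ) = 2 * r + 1 := by
        rw [Int.toNat_of_nonneg (by linarith)]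
        ring
      have h4 : ((r + 1 - -r).toNat : ℝ) = 2 * (r : ℝ) + 1 := by exact_mod_cast h3
      rw [h4]
      have h5 : (r : ℝ) ≤ 5 * c.C := Int.floor_le _
      linarith
    have h6 : ((s.filter fun z => (⌊lv c z⌋, ⌊c.q z - σ * lv c z⌋) = a).card : ℝ) ≤
        ((r + 1 - -r).toNat : ℝ) * ((r + 1 - -r).toNat : ℝ) := by exact_mod_cast h1
    refine h6.trans ?_
    calc ((r + 1 - -r).toNat : ℝ) * ((r + 1 - -r).toNat : ℝ) ≤ (11 * c.C) * (11 * c.C) :=
          mul_le_mul h2 h2 (Nat.cast_nonneg _) (by linarith)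
      _ = 121 * c.C ^ 2 := by ring

/-- The points of the strip are not far away. -/
theorem strip_nm (c : Crd) {σ α β l W : ℝ} (hσ : |σ| ≤ 1) (hl : 0 ≤ l) {z : V} (hz : z ∈ StripS c σ α β l W) :
    nm z ≤ 3 * c.C * (|α| + |β| + l + W) := by
  obtain ⟨h1, h2, h3⟩ := hz
  have hC := c.one_le
  have h4 := abs_le.1 h3
  have h5 : |σ * (lv c z - α)| ≤ l := by
    rw [abs_mul]
    have h6 : |lv c z - α| ≤ l := by
      rw [abs_le]
      constructor <;> linarith
    calc |σ| * |lv c z - α| ≤ 1 * l := mul_le_mul hσ h6 (abs_nonneg _) (by norm_num)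
      _ = l := one_mul l
  have h6 := abs_le.1 h5
  have h7 : |c.q z| ≤ |β| + l + W := by
    have h8 := le_abs_self β
    have h9 := neg_abs_le β
    rw [abs_le]
    constructor <;> linarith [h4.1, h4.2, h6.1, h6.2]
  have h8 : |c.p z| ≤ |α| + |β| + 2 * l + W := by
    have h9 := abs_le.1 h7
    have h10 := le_abs_self α
    have h11 := neg_abs_le α
    unfold lv at h1 h2
    rw [abs_le]
    constructor <;> linarith [h9.1, h9.2]
  have h9 := c.nm_le z
  have hW : 0 ≤ W := (abs_nonneg _).trans h3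
  have hα := abs_nonneg α
  have hβ := abs_nonneg β
  have h10 : c.C * (|c.p z| + |c.q z|) ≤ c.C * (3 * (|α| + |β| + l + W)) := mul_le_mul_of_nonneg_left (by linarith) (by linarith)
  linarith

/-- The edges of a strip: a finite set of at most `C l W` elements. -/
theorem card_strip (c : Crd) : ∃ C : ℝ, 1 ≤ C ∧ ∀ (σ α β l W : ℝ), |σ| ≤ 1 → 1 ≤ l → 1 ≤ W →
    ∃ F : Finset Edge, (∀ e, e ∈ F ↔ e ∈ edg (StripS c σ α β l W)) ∧ (F.card : ℝ) ≤ C * l * W ∧
      ∀ e ∈ F, nm e.1 ≤ 3 * c.C * (|α| + |β| + l + W) := by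
  classical
  have hC := c.one_le
  refine ⟨3000 * c.C ^ 2, by nlinarith, ?_⟩
  intro σ α β l W hσ hl hW
  set N : ℤ := ⌊3 * c.C * (|α| + |β| + l + W)⌋ with hN
  set B : Finset V := (Finset.Icc (-N) N ×ˢ Finset.Icc (-N) N).filter fun z => z ∈ StripS c σ α β l W with hB
  have hBmem : ∀ z, z ∈ B ↔ z ∈ StripS c σ α β l W := by
    intro z
    rw [hB, Finset.mem_filter]
    refine ⟨fun h => h.2, fun h => ⟨?_, h⟩⟩
    exact Strip_coord (strip_nm c hσ (by linarith) h)
  set F : Finset Edge := (B ×ˢ (Finset.univ : Finset Bool)).filter fun e => e ∈ edg (StripS c σ α β l W) with hF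
  have hFmem : ∀ e, e ∈ F ↔ e ∈ edg (StripS c σ α β l W) := by
    intro e
    rw [hF, Finset.mem_filter]
    refine ⟨fun h => h.2, fun h => ⟨?_, h⟩⟩
    rw [Finset.mem_product]
    exact ⟨(hBmem _).2 h.1, Finset.mem_univ _⟩
  refine ⟨F, hFmem, ?_, ?_⟩
  · -- the vertices
    have him : B.image (fun z => (⌊lv c z⌋, ⌊c.q z - σ * lv c z⌋)) ⊆
        Finset.Icc ⌊α⌋ ⌊α + l⌋ ×ˢ Finset.Icc ⌊β - σ * α - W⌋ ⌊β - σ * α + W⌋ := by
      intro a ha
      rw [Finset.mem_image] at ha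
      obtain ⟨z, hz, rfl⟩ := ha
      obtain ⟨h1, h2, h3⟩ := (hBmem z).1 hz
      rw [abs_le] at h3
      rw [Finset.mem_product, Finset.mem_Icc, Finset.mem_Icc]
      exact ⟨⟨Int.floor_le_floor h1, Int.floor_le_floor h2⟩, Int.floor_le_floor (by linarith [h3.1]), Int.floor_le_floor (by linarith [h3.2])⟩
    have hcard := Finset.card_le_card him
    rw [Finset.card_product, Int.card_Icc, Int.card_Icc] at hcard
    have e0 : ∀ a b : ℝ, a ≤ b → ((⌊b⌋ + 1 - ⌊a⌋).toNat : ℝ) ≤ b - a + 2 := by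
      intro a b hab
      have h1 : ((⌊b⌋ + 1 - ⌊a⌋).toNat : ℤ) = ⌊b⌋ + 1 - ⌊a⌋ := by
        rw [Int.toNat_of_nonneg]
        have := Int.floor_le_floor hab
        linarith
      have h2 : ((⌊b⌋ + 1 - ⌊a⌋).toNat : ℝ) = (⌊b⌋ : ℝ) + 1 - ⌊a⌋ := by exact_mod_cast h1
      rw [h2]
      have h3 := Int.floor_le b
      have h4 := Int.lt_floor_add_one a
      linarith
    have e1 := e0 α (α + l) (by linarith)
    have e2 := e0 (β - σ * α - W) (β - σ * α + W) (by linarith)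
    have e3 : ((B.image (fun z => (⌊lv c z⌋, ⌊c.q z - σ * lv c z⌋))).card : ℝ) ≤ 12 * (l * W) := by
      have h1 : ((B.image (fun z => (⌊lv c z⌋, ⌊c.q z - σ * lv c z⌋))).card : ℝ) ≤
          ((⌊α + l⌋ + 1 - ⌊α⌋).toNat : ℝ) * ((⌊β - σ * α + W⌋ + 1 - ⌊β - σ * α - W⌋).toNat : ℝ) := by exact_mod_cast hcard
      have h2 : ((⌊α + l⌋ + 1 - ⌊α⌋).toNat : ℝ) * ((⌊β - σ * α + W⌋ + 1 - ⌊β - σ * α - W⌋).toNat : ℝ) ≤ (3 * l) * (4 * W) :=
        mul_le_mul (by linarith) (by linarith) (Nat.cast_nonneg _) (by linarith)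
      linarith
    have e4 : (B.card : ℝ) ≤ 121 * c.C ^ 2 * (12 * (l * W)) := by
      have h1 : B.card = ∑ a ∈ B.image (fun z => (⌊lv c z⌋, ⌊c.q z - σ * lv c z⌋)),
          (B.filter fun z => (⌊lv c z⌋, ⌊c.q z - σ * lv c z⌋) = a).card :=
        Finset.card_eq_sum_card_image _ _
      rw [h1, Nat.cast_sum]
      refine (Finset.sum_le_sum fun a _ => Strip_fib c hσ B a).trans ?_
      rw [Finset.sum_const, nsmul_eq_mul, mul_comm]
      exact mul_le_mul_of_nonneg_left e3 (by positivity)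
    have e5 : F.card ≤ B.card * 2 := by
      refine (Finset.card_filter_le _ _).trans ?_
      rw [Finset.card_product, Finset.card_univ, Fintype.card_bool]
    have e6 : (F.card : ℝ) ≤ B.card * 2 := by exact_mod_cast e5
    have e7 : 0 ≤ l * W := by positivity
    have e8 : 3000 * c.C ^ 2 * l * W = 3000 * c.C ^ 2 * (l * W) := by ring
    rw [e8]
    have e9 : 0 ≤ c.C ^ 2 * (l * W) := by positivity
    have e10 : 121 * c.C ^ 2 * (12 * (l * W)) = 1452 * (c.C ^ 2 * (l * W)) := by ring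
    have e11 : 3000 * c.C ^ 2 * (l * W) = 3000 * (c.C ^ 2 * (l * W)) := by ring
    rw [e11]
    rw [e10] at e4
    linarith
  · intro e he
    exact strip_nm c hσ (by linarith) ((hFmem e).1 he).1

end Pool.Agent.W_1b8d5d_sc
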