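import Pool.Agent.W_1b8d5d_sc.TDefs
import Pool.Agent.W_1b8d5d_sc.Drop
import Pool.Agent.W_1b8d5d_sc.Num
import Pool.Agent.W_1b8d5d_sc.Strip
import Pool.Agent.W_1b8d5d_fe.Geo

/-!
MP_1b8d5d_pr (SC, no flat side): the final contradiction. `core_low`: a thin crossed strip gives a lucky pair; `core_of`: the assembly
of the parts P1 (luck), P3 (tubes), P4 (soft base), P5 (increment), P7 (the excess is bounded), P8 (`drop`).
-/

set_option autoImplicit false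

namespace Pool.Agent.W_1b8d5d_sc

open Finset Pool.Agent.W_1b8d5d_h85 Pool.Agent.W_1b8d5d_fe

private lemma Core_start {S : Set V} {x y : V} {w : grid.Walk x y} (h : 1 ≤ w.length) (hF : ∀ e ∈ wedges w, e ∈ edg S) : x ∈ S := by
  cases w with
  | nil => simp at h
  | @cons _ v _ hadj p =>
    have h1 : ke s(x, v) ∈ wedges (SimpleGraph.Walk.cons hadj p) := by
      unfold wedges
      simp
    have h2 := hF _ h1
    obtain ⟨s, h3 | h3⟩ := id hadj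
    · subst h3
      rw [ke_dir] at h2
      exact h2.1
    · subst h3
      rw [ke_dir'] at h2
      exact h2.2

private lemma Core_end {S : Set V} {x y : V} {w : grid.Walk x y} (h : 1 ≤ w.length) (hF : ∀ e ∈ wedges w, e ∈ edg S) : y ∈ S := by
  refine Core_start (w := w.reverse) (by rwa [SimpleGraph.Walk.length_reverse]) fun e he => hF e ?_
  rw [wedges_reverse, List.mem_reverse] at he
  exact he

/-- A thin crossed strip gives a lucky pair. -/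
theorem core_low (Q : Par) (g : V → ℝ) (c : Crd) {B Y : ℝ} (hB : 0 ≤ B) (hY : 0 < Y) :
    ∃ η : ℝ, 0 < η ∧ ∃ n₀ : ℕ, ∀ (n N : ℕ) (R : ℝ) (M : Mdl Q.a Q.b), Hor Q g N R M → n₀ ≤ n → n ≤ N →
      1 / 2 ≤ M.P (fun τ => Tb c τ 0 0 0 (2 ^ n) (η * 2 ^ n) B) → 1 / 8 ≤ M.P (Lk c (7 * c.C * 2 ^ n) Y) := by
  have hC := c.one_le
  have hC0 : 0 < c.C := by linarith
  obtain ⟨C₁, hC₁, hcard⟩ := card_strip c
  obtain ⟨c₇, D₀, s₀, hc₇, hD₀, hs₀, hdrop⟩ := drop Q g (1 / (4 * c.C)) (1 / 2) (by norm_num) (by positivity)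
  obtain ⟨Z, hZ⟩ : ∃ Z : ℝ, Z = 1 + D₀ + (B + Y) / c₇ := ⟨_, rfl⟩
  have hBY : 0 ≤ (B + Y) / c₇ := by positivity
  have hZ1 : 1 ≤ Z := by linarith
  have hZ2 : D₀ ≤ Z := by linarith
  have hZ3 : (B + Y) / c₇ ≤ Z := by linarith
  have hZ0 : 0 < Z := by linarith
  obtain ⟨η, hη⟩ : ∃ η : ℝ, η = 1 / (2 * C₁ * Z ^ 2) := ⟨_, rfl⟩
  have hη0 : 0 < η := by rw [hη]; positivity
  have hCη : 2 * C₁ * η = 1 / Z ^ 2 := by
    rw [hη]
    field_simp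
  have hη1 : η ≤ 1 := by
    have h1 : 1 / Z ^ 2 ≤ 1 := by
      rw [div_le_one (by positivity)]
      exact one_le_pow₀ hZ1
    have h2 : η ≤ 2 * C₁ * η := le_mul_of_one_le_left hη0.le (by linarith)
    linarith
  obtain ⟨n₀, hn₀⟩ : ∃ n₀ : ℕ, s₀ + 8 * c.C + 1 / η + 1 / (C₁ * η) ≤ (2 : ℝ) ^ n₀ := by
    obtain ⟨n, hn⟩ := pow_unbounded_of_one_lt (s₀ + 8 * c.C + 1 / η + 1 / (C₁ * η)) (show (1 : ℝ) < 2 by norm_num)
    exact ⟨n, hn.le⟩
  refine ⟨η, hη0, n₀, ?_⟩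
  intro n N R M hH hn hnN hP
  have h2n : s₀ + 8 * c.C + 1 / η + 1 / (C₁ * η) ≤ (2 : ℝ) ^ n := hn₀.trans (pow_le_pow_right₀ (by norm_num) hn)
  have hi1 : 0 < 1 / η := by positivity
  have hi2 : 0 < 1 / (C₁ * η) := by positivity
  obtain ⟨s, hs⟩ : ∃ s : ℝ, s = (2 : ℝ) ^ n := ⟨_, rfl⟩
  rw [← hs] at h2n hP ⊢
  have hs1 : s₀ ≤ s := by linarith
  have hs2 : 8 * c.C ≤ s := by linarith
  have hs3 : 1 ≤ η * s := by
    have h1 : 1 / η ≤ s := by linarith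
    rw [div_le_iff₀ hη0] at h1
    linarith
  have hs4 : 1 ≤ C₁ * η * s := by
    have h1 : 1 / (C₁ * η) ≤ s := by linarith
    rw [div_le_iff₀ (by positivity)] at h1
    linarith
  have hs5 : 1 ≤ s := by linarith
  have hs0 : 0 < s := by linarith
  -- the range
  have hR : s ^ 2 ≤ R := by
    refine le_trans ?_ hH.2
    rw [hs, ← pow_mul, ← pow_mul]
    exact pow_le_pow_right₀ (by norm_num) (by omega)
  obtain ⟨F, hF1, hF2, hF3⟩ := hcard 0 0 0 s (η * s) (by simp) hs5 hs3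
  have hF4 : (F.card : ℝ) ≤ C₁ * η * s ^ 2 := by
    refine hF2.trans (le_of_eq ?_)
    ring
  have hCη1 : C₁ * η ≤ 1 / 2 := by
    have h1 : 1 / Z ^ 2 ≤ 1 := by
      rw [div_le_one (by positivity)]
      exact one_le_pow₀ hZ1
    linarith
  have hF5 : (F.card : ℝ) ≤ s ^ 2 := by
    have h1 : C₁ * η * s ^ 2 ≤ 1 * s ^ 2 := mul_le_mul_of_nonneg_right (by linarith) (by positivity)
    linarith
  have hF6 : (F.card : ℝ) + 1 ≤ (s / Z) ^ 2 := by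
    have h1 : 1 ≤ C₁ * η * s ^ 2 := by
      have h2 : C₁ * η * s ≤ C₁ * η * s * s := le_mul_of_one_le_right (by positivity) hs5
      have h3 : C₁ * η * s * s = C₁ * η * s ^ 2 := by ring
      linarith
    have h2 : (s / Z) ^ 2 = 2 * C₁ * η * s ^ 2 := by
      rw [hCη, div_pow]
      field_simp
    rw [h2]
    linarith
  have hsq : Real.sqrt (F.card + 1) ≤ s / Z := by
    rw [← Real.sqrt_sq (show 0 ≤ s / Z by positivity)]
    exact Real.sqrt_le_sqrt hF6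
  have hsq0 : 0 < Real.sqrt (F.card + 1) := Real.sqrt_pos.2 (by positivity)
  have hnm : ∀ z ∈ StripS c 0 0 0 s (η * s), nm z ≤ 7 * c.C * s := by
    intro z hz
    have h1 := strip_nm c (by simp) hs0.le hz
    rw [abs_zero] at h1
    have h2 : η * s ≤ 1 * s := mul_le_mul_of_nonneg_right hη1 hs0.le
    have h3 : 3 * c.C * (0 + 0 + s + η * s) ≤ 3 * c.C * (2 * s) := mul_le_mul_of_nonneg_left (by linarith) (by linarith)
    have h4 : 0 ≤ c.C * s := by positivity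
    linarith
  have hFR : ∀ e ∈ F, nm e.1 + 1 ≤ R := by
    intro e he
    have h1 := hnm e.1 ((hF1 e).1 he).1
    have h2 : 7 * c.C * s + 1 ≤ s ^ 2 := by
      have h3 : 8 * c.C * s ≤ s * s := mul_le_mul_of_nonneg_right hs2 hs0.le
      have h4 : 1 * 1 ≤ c.C * s := mul_le_mul hC hs5 (by norm_num) hC0.le
      rw [pow_two]
      linarith
    linarith
  have hDs : D₀ * Real.sqrt (F.card + 1) ≤ s := by
    have h1 : D₀ * Real.sqrt (F.card + 1) ≤ Z * (s / Z) := mul_le_mul hZ2 hsq hsq0.le hZ0.le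
    have h2 : Z * (s / Z) = s := by field_simp
    linarith
  have hmain := hdrop s R M F (fun x y => lv c (y - x)) B hs1 hH.1 hFR hDs hF5 (hF5.trans hR) ?_
  · refine le_trans (by norm_num) (hmain.trans (M.P_mono ?_))
    rintro τ hτ ⟨x, y, w, hw, hwF, hlen, hcost⟩
    have hlen1 : 1 ≤ w.length := by
      have h1 : 0 < 1 / (4 * c.C) * s := by positivity
      have h2 : (0 : ℝ) < w.length := by linarith
      exact_mod_cast h2
    have hx := Core_start hlen1 fun e he => (hF1 e).1 (hwF e he)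
    have hy := Core_end hlen1 fun e he => (hF1 e).1 (hwF e he)
    refine ⟨x, y, hnm x hx, hnm y hy, ?_⟩
    have h1 := T_le_cost hτ Q.ha.le w
    have h2 : Z ≤ s / Real.sqrt (F.card + 1) := by
      rw [le_div_iff₀ hsq0]
      calc Z * Real.sqrt (F.card + 1) ≤ Z * (s / Z) := mul_le_mul_of_nonneg_left hsq hZ0.le
        _ = s := by field_simp
    have h3 : B + Y ≤ c₇ * (s / Real.sqrt (F.card + 1)) := by
      have h4 := mul_le_mul_of_nonneg_left (hZ3.trans h2) hc₇.le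
      have h5 : c₇ * ((B + Y) / c₇) = B + Y := by field_simp
      linarith
    have h4 : cost τ w ≤ lv c (y - x) + B - c₇ * (s / Real.sqrt (F.card + 1)) := hcost
    linarith
  · refine hP.trans (M.P_mono ?_)
    rintro τ _ ⟨x, y, w, hw, hB, hsup, hx, hy⟩
    refine ⟨x, y, w, hw, ?_, ?_, ?_⟩
    · intro e he
      rw [hF1]
      have h1 := wedges_support w he
      have h2 := hsup _ h1.1
      have h3 := hsup _ h1.2
      exact ⟨⟨h2.1.1, h2.1.2, h2.2⟩, ⟨h3.1.1, h3.1.2, h3.2⟩⟩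
    · have h1 := nm_le_length w
      have h2 := (abs_le.1 (lv_le_nm c (y - x))).2
      rw [lv_sub] at h2
      have h3 : 2 * c.C * nm (y - x) ≤ 2 * c.C * w.length := mul_le_mul_of_nonneg_left h1 (by linarith)
      rw [div_mul_eq_mul_div, one_mul, div_le_iff₀ (by positivity)]
      linarith
    · have h1 := hB.2 x y SimpleGraph.Walk.nil w SimpleGraph.Walk.nil (by simp)
      exact h1

/-- The strips are monotone in the budget. -/
private lemma Core_Tb {c : Crd} {τ : Env} {σ α β l W B B' : ℝ} (hB : B ≤ B') (h : Tb c τ σ α β l W B) : Tb c τ σ α β l W B' := by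
  obtain ⟨x, y, w, hw, hg, h1⟩ := h
  exact ⟨x, y, w, hw, ⟨hg.1, fun u v w₁ w₂ w₃ he => (hg.2 u v w₁ w₂ w₃ he).trans (by linarith)⟩, h1⟩

/-- The horizon can be any natural number. -/
private lemma Core_models {Q : Par} {g : V → ℝ} (hM : HasModels Q g) (N : ℕ) : ∃ (R : ℝ) (M : Mdl Q.a Q.b), Hor Q g N R M := by
  obtain ⟨R, M, h1, h2⟩ := hM (((2 : ℝ) ^ N) ^ 300)
  exact ⟨R, M, h2, h1⟩

private lemma Core_A1 : (1 : ℝ) < 2 ^ (3 / 4 : ℝ) := Real.one_lt_rpow (by norm_num) (by norm_num)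

private lemma Core_A2 : (2 : ℝ) ^ (3 / 4 : ℝ) < Ag := Real.rpow_lt_rpow_of_exponent_lt (by norm_num) (by norm_num)

private lemma Core_A3 : Ag < 2 := by
  have h1 : Ag < (2 : ℝ) ^ (1 : ℝ) := Real.rpow_lt_rpow_of_exponent_lt (by norm_num) (by norm_num)
  rwa [Real.rpow_one] at h1

/-- The assembly: the parts P1 (luck), P3 (tubes), P4 (soft base), P5 (increment), P7 and P8 give a contradiction. -/
theorem core_of {Q : Par} {g : V → ℝ} {c : Crd} (hM : HasModels Q g) {e σ₀ C κ C₀ K K' : ℝ} {i₀ : ℕ} {q₀ s₁ : ℝ → ℕ} {κ' : ℝ → ℝ}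
    (hσ : 0 < σ₀) (hC : 0 ≤ C) (hκ : 0 < κ)
    (h5 : ∀ (N : ℕ) (R : ℝ) (M : Mdl Q.a Q.b), Hor Q g N R M → ∀ (i j : ℕ) (b B H : ℝ), i₀ ≤ i → i < j → 16 * j ≤ N →
      0 ≤ b → 1 ≤ B → Tub M c σ₀ j b B → b ≤ κ * 2 ^ i / 2 ^ j → B ≤ κ * 2 ^ i → MH Ag N (xs M c e) j H →
      xs M c e (i + 1) ≤ xs M c e i + C * (2 ^ i / 2 ^ j + 1 / 2 ^ i) * (B + H))
    (hC₀ : 1 ≤ C₀)
    (hb : ∀ (N : ℕ) (R : ℝ) (M : Mdl Q.a Q.b), Hor Q g N R M →
      (∀ j, 1 ≤ xs M c e j) ∧ (∀ i j, i ≤ j → j ≤ N → xs M c e i ≤ xs M c e j) ∧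
      ∀ j, j ≤ N → xs M c e j ≤ C₀ * ((2 : ℝ) ^ (3 / 4 : ℝ)) ^ j)
    (hK : 1 ≤ K) (hs : Soft Q g c e (1 / 1000) K) (hKK : K ≤ K') (hκ' : ∀ δ, 0 < δ → 0 < κ' δ)
    (h3 : ∀ (N : ℕ) (R : ℝ) (M : Mdl Q.a Q.b), Hor Q g N R M → ∀ (δ : ℝ) (j₀ j₁ : ℕ) (B : ℝ), 0 < δ → s₁ δ ≤ j₀ → j₀ ≤ j₁ →
      32 * j₁ ≤ N → 1 ≤ B → B ≤ κ' δ * 2 ^ j₀ → (∀ j m, j₀ ≤ j → j ≤ j₁ → j ≤ m → m ≤ N → K' * xs M c e m ≤ Ag ^ (m - j) * B) →
      ∃ b : ℕ → ℝ, (∀ j, j₀ + q₀ δ ≤ j → j ≤ j₁ → 0 ≤ b j ∧ Tub M c σ₀ j (b j) B) ∧ ∑ j ∈ Icc (j₀ + q₀ δ) j₁, b j ≤ δ)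
    (h1 : ∀ L : ℝ, 1 ≤ L → ∃ C : ℝ, 1 ≤ C ∧ ∀ (N : ℕ) (R : ℝ) (M : Mdl Q.a Q.b) (j : ℕ) (H y : ℝ), Hor Q g N R M → 16 * j ≤ N →
      MH Ag N (xs M c e) j H → 0 < y → M.P (Lk c (L * 2 ^ j) y) ≤ C * (H / y) ^ (20 / 9 : ℝ)) :
    False := by
  have hc1 := c.one_le
  have hK' : 1 ≤ K' := hK.trans hKK
  -- the soft base
  have hs' : ∀ η : ℝ, ∃ s₀ : ℕ, 0 < η → ∀ (N : ℕ) (R : ℝ) (M : Mdl Q.a Q.b) (j : ℕ) (H : ℝ), Hor Q g N R M → s₀ ≤ j → 16 * j ≤ N →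
      MH Ag N (xs M c e) j H → ∀ d : Crd, d = c ∨ d = swp c → ∀ α β : ℝ,
        1 / 2 ≤ M.P (fun τ => Tb d τ 0 α β (2 ^ j) (η * 2 ^ j) (K' * H)) := by
    intro η
    by_cases hη : 0 < η
    · obtain ⟨s₀, hs₀⟩ := hs η hη
      refine ⟨s₀, fun _ N R M j H hH hj hjN hMH d hd α β => ?_⟩
      have h2 := hs₀ N R M j H hH hj hjN hMH d hd 0 α β (by rw [abs_zero]; linarith)
      rw [M.P_not] at h2
      have h3 : 1 ≤ H := by
        have h4 := hMH j le_rfl (by omega)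
        rw [Nat.sub_self, pow_zero, one_mul] at h4
        exact ((hb N R M hH).1 j).trans h4
      have h4 : M.P (fun τ => Tb d τ 0 α β (2 ^ j) (η * 2 ^ j) (K * H)) ≤
          M.P (fun τ => Tb d τ 0 α β (2 ^ j) (η * 2 ^ j) (K' * H)) :=
        M.P_mono fun τ _ h => Core_Tb (mul_le_mul_of_nonneg_right hKK (by linarith)) h
      linarith
    · exact ⟨0, fun h => absurd h hη⟩
  choose s₀ hs₀ using hs'
  -- the excess is bounded
  obtain ⟨Cs, Λ, hnum⟩ := num_bounded Ag (2 ^ (3 / 4 : ℝ)) C₀ C K' κ i₀ 32 s₀ q₀ s₁ κ' Core_A1 Core_A2 Core_A3 hC₀ hC hK' hκ hκ'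
  have hNum : ∀ (N : ℕ) (R : ℝ) (M : Mdl Q.a Q.b), Hor Q g N R M →
      NumH Ag (2 ^ (3 / 4 : ℝ)) C₀ C K' κ i₀ 32 s₀ q₀ s₁ κ' N (xs M c e) (fun j r B => Tub M c σ₀ j r B) := by
    intro N R M hH
    obtain ⟨hb1, hb2, hb3⟩ := hb N R M hH
    refine ⟨hb1, hb2, hb3, ?_, ?_, ?_⟩
    · intro i j b B H hi hij hjN hb0 hB1 hT hbk hBk hMH
      exact h5 N R M hH i j b B H hi hij (by omega) hb0 hB1 hT hbk hBk hMH
    · intro η j H hη hj hjN hMH d hd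
      refine ⟨0, by rw [abs_zero]; exact hσ.le, fun α β => ?_⟩
      exact hs₀ η hη N R M j H hH hj (by omega) hMH d hd α β
    · intro δ j₀ j₁ B hδ hj₀ hj₁ hjN hB1 hB2 hall
      exact h3 N R M hH δ j₀ j₁ B hδ hj₀ hj₁ hjN hB1 hB2 hall
  have hCs : 1 ≤ Cs := by
    obtain ⟨R, M, hH⟩ := Core_models hM (Λ * (0 + 1))
    exact ((hb _ R M hH).1 0).trans (hnum _ _ _ (hNum _ R M hH) 0 le_rfl).1
  -- the tail of the luck
  obtain ⟨CL, hCL, hluck⟩ := h1 (7 * c.C) (by linarith)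
  obtain ⟨η, hη, n₀, hlow⟩ := core_low Q g c (B := K' * Cs) (Y := 16 * CL * Cs) (by positivity) (by positivity)
  obtain ⟨n, hn⟩ : ∃ n : ℕ, n = n₀ + s₀ η := ⟨_, rfl⟩
  obtain ⟨R, M, hH⟩ := Core_models hM (Λ * (n + 1) + 32 * n)
  have hMH := (hnum _ _ _ (hNum _ R M hH) n (by omega)).2
  have hT := hs₀ η hη _ R M n Cs hH (by omega) (by omega) hMH c (Or.inl rfl) 0 0
  have h6 := hlow n _ R M hH (by omega) (by omega) hT
  have h7 := hluck _ R M n Cs (16 * CL * Cs) hH (by omega) hMH (by positivity)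
  have h8 : (Cs / (16 * CL * Cs)) ^ (20 / 9 : ℝ) ≤ 1 / (16 * CL) := by
    have h9 : Cs / (16 * CL * Cs) = 1 / (16 * CL) := by field_simp
    rw [h9]
    have h10 : (0 : ℝ) < 1 / (16 * CL) := by positivity
    have h11 : 1 / (16 * CL) ≤ 1 := by
      rw [div_le_one (by positivity)]
      linarith
    calc (1 / (16 * CL)) ^ (20 / 9 : ℝ) ≤ (1 / (16 * CL)) ^ (1 : ℝ) := Real.rpow_le_rpow_of_exponent_ge h10 h11 (by norm_num)
      _ = 1 / (16 * CL) := Real.rpow_one _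
  have h9 : CL * (Cs / (16 * CL * Cs)) ^ (20 / 9 : ℝ) ≤ 1 / 16 := by
    calc CL * (Cs / (16 * CL * Cs)) ^ (20 / 9 : ℝ) ≤ CL * (1 / (16 * CL)) := mul_le_mul_of_nonneg_left h8 (by linarith)
      _ = 1 / 16 := by field_simp
  linarith

end Pool.Agent.W_1b8d5d_sc
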