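import Pool.Agent.W_1b8d5d_fe.Side2

/-!
MP_1b8d5d_pr (SC), part P4: the soft base.  Near an end point of a flat piece, a straight tube of length `s` and relative
width `η` is crossed, with probability `≥ 1 - p`, by a path of excess `≤ K(p) F`, where `F` bounds the growth of the
fluctuations from the scale `s` on.  Adapted from `contra_side` (FE).
-/

set_option autoImplicit false

namespace Pool.Agent.W_1b8d5d_sc

open Finset Filter Pool.Agent.W_1b8d5d_h85 Pool.Agent.W_1b8d5d_fe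

/-- Big lucks of wide blocks; `B` bounds the growth of the fluctuations from the scale `s` on.  PROOF. `luck_big` (constant `C₁`) with `w = w₁ = A s` and `N` defined by `C₁ N = s (y / (40 F)) ^ (10/9)` (`s ≤ C₁ N ≤ s ^ 2` since `40 F ≤ y ≤ s ^ (4/5)`):
`8 Fm M c D (C₁ N) + C₁ ≤ 32 (y / (40 F)) F + C₁ = 0.8 y + C₁ < y` as `y ≥ C F ≥ C > 5 C₁`.  So `P N ^ 2 < C₁ A s ^ 2`, i.e. `P < C₁ ^ 3 A (40 F / y) ^ (20/9)`. The condition `C₁ (w + ℓ) ≤ N` holds for `y / F ≥ C` large. -/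
theorem wide_probB (Q : Par) {g : V → ℝ} (hg : IsMean Q g) (c : Crd) (hl : ∀ z, lv c z ≤ g z) {D A : ℝ} (hD : 3 ≤ D)
    (hA : 2 ≤ A) :
    ∃ C s₀ : ℝ, 1 ≤ C ∧ 1 ≤ s₀ ∧ ∀ (s R : ℝ) (M : Mdl Q.a Q.b), s₀ ≤ s → s ^ 300 ≤ R → Good Q g R M →
      ∀ F : ℝ, 1 ≤ F → (∀ n : ℝ, s ≤ n → n ≤ s ^ 2 → Fm M c D n ≤ F * (n / s) ^ (9 / 10 : ℝ)) →
      ∀ r ℓ α β y : ℝ, 1 ≤ r → r ≤ ℓ → ℓ ≤ s → C * F ≤ y → y ≤ s ^ (4 / 5 : ℝ) →
        M.P (Cr Q.b c r (A * s) (A * s) ℓ α β (-y)) ≤ C * (F / y) ^ (20 / 9 : ℝ) := by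
  obtain ⟨K, hK1, hK⟩ := luck_big Q hg c hl hD
  have hK0 : 0 < K := by linarith
  have hA0 : 0 < A := by linarith
  -- the constant
  obtain ⟨C, hC⟩ : ∃ C : ℝ, C = 64000 * (K ^ 3 * (A + 1)) := ⟨_, rfl⟩
  have hKK : 1 ≤ K ^ 2 := one_le_pow₀ hK1
  have hKKK : K ≤ K ^ 3 := by
    have := mul_le_mul_of_nonneg_left hKK hK0.le
    calc K = K * 1 := (mul_one K).symm
      _ ≤ K * K ^ 2 := this
      _ = K ^ 3 := by ring
  have hC1 : 64000 * K ≤ C := by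
    rw [hC]
    have h1 : K ^ 3 * 1 ≤ K ^ 3 * (A + 1) := mul_le_mul_of_nonneg_left (by linarith) (by positivity)
    linarith
  have hC2 : 40 * (K ^ 2 * (A + 1)) ≤ C := by
    have h1 : 0 ≤ K ^ 2 * (A + 1) := by positivity
    have h2 : 1 * (K ^ 2 * (A + 1)) ≤ K * (K ^ 2 * (A + 1)) := mul_le_mul_of_nonneg_right hK1 h1
    have h3 : K * (K ^ 2 * (A + 1)) = K ^ 3 * (A + 1) := by ring
    rw [hC]
    linarith
  refine ⟨C, K ^ 2 + 1, by linarith, by linarith, ?_⟩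
  intro s R M hs hR hM F hF1 hgr r ℓ α β y hr hrl hls hCy hys
  have hs1 : 1 ≤ s := by linarith
  have hs0 : 0 < s := by linarith
  have hF0 : 0 < F := by linarith
  by_contra hcon
  have hcon' := not_le.1 hcon
  obtain ⟨P, hP⟩ : ∃ P : ℝ, P = M.P (Cr Q.b c r (A * s) (A * s) ℓ α β (-y)) := ⟨_, rfl⟩
  rw [← hP] at hcon'
  have hC0 : 0 < C := by linarith
  have hy0 : 0 < y := lt_of_lt_of_le (by positivity) hCy
  have h40 : 0 < 40 * F := by positivity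
  -- `t = y / (40 F)`
  obtain ⟨t, ht⟩ : ∃ t : ℝ, t = y / (40 * F) := ⟨_, rfl⟩
  have hty : t * (40 * F) = y := by rw [ht, div_mul_cancel₀ _ h40.ne']
  have htC : C / 40 ≤ t := by
    rw [ht, div_le_div_iff₀ (by norm_num) h40]
    linarith
  have ht1 : K ^ 2 * (A + 1) ≤ t := by linarith
  have ht1' : 1 ≤ t := by linarith
  have ht0 : 0 < t := by linarith
  have hts : t ≤ s ^ (4 / 5 : ℝ) := by
    have h1 : 1 * t ≤ 40 * F * t := mul_le_mul_of_nonneg_right (by linarith) ht0.le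
    linarith
  obtain ⟨u, hu⟩ : ∃ u : ℝ, u = t ^ (10 / 9 : ℝ) := ⟨_, rfl⟩
  have htu : t ≤ u := by
    rw [hu]
    calc t = t ^ (1 : ℝ) := (Real.rpow_one t).symm
      _ ≤ t ^ (10 / 9 : ℝ) := Real.rpow_le_rpow_of_exponent_le ht1' (by norm_num)
  have hu1 : 1 ≤ u := ht1'.trans htu
  have hus : u ≤ s := by
    rw [hu]
    calc t ^ (10 / 9 : ℝ) ≤ (s ^ (4 / 5 : ℝ)) ^ (10 / 9 : ℝ) :=
          Real.rpow_le_rpow ht0.le hts (by norm_num)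
      _ = s ^ (4 / 5 * (10 / 9) : ℝ) := (Real.rpow_mul hs0.le _ _).symm
      _ ≤ s ^ (1 : ℝ) := Real.rpow_le_rpow_of_exponent_le hs1 (by norm_num)
      _ = s := Real.rpow_one s
  have hu9 : u ^ (9 / 10 : ℝ) = t := by
    rw [hu, ← Real.rpow_mul ht0.le]
    norm_num
  have hu2 : u ^ 2 = t ^ (20 / 9 : ℝ) := by
    rw [hu, ← Real.rpow_natCast, ← Real.rpow_mul ht0.le]
    norm_num
  -- the scale
  obtain ⟨N, hN⟩ : ∃ N : ℝ, N = s * u / K := ⟨_, rfl⟩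
  have hKN : K * N = s * u := by
    rw [hN]
    field_simp
  have hsu : s ≤ s * u := by
    calc s = s * 1 := (mul_one s).symm
      _ ≤ s * u := mul_le_mul_of_nonneg_left hu1 hs0.le
  have hN0 : 0 < N := by rw [hN]; positivity
  have hNK : K ≤ N := by
    rw [hN, le_div_iff₀ hK0]
    have : K * K = K ^ 2 := by ring
    linarith
  have hNs : N ≤ s ^ 2 := by
    have h1 : 1 * N ≤ K * N := mul_le_mul_of_nonneg_right hK1 hN0.le
    have h2 : s * u ≤ s * s := mul_le_mul_of_nonneg_left hus hs0.le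
    have h3 : s * s = s ^ 2 := by ring
    linarith
  have hKs : K ≤ s := by
    have : K * 1 ≤ K * K := mul_le_mul_of_nonneg_left hK1 hK0.le
    have : K * K = K ^ 2 := by ring
    linarith
  have hR' : K * N ^ 12 ≤ R := by
    refine le_trans ?_ hR
    calc K * N ^ 12 ≤ s * (s ^ 2) ^ 12 :=
          mul_le_mul hKs (pow_le_pow_left₀ hN0.le hNs 12) (by positivity) hs0.le
      _ = s ^ 25 := by ring
      _ ≤ s ^ 300 := pow_le_pow_right₀ hs1 (by norm_num)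
  have hl1 : 1 ≤ ℓ := hr.trans hrl
  have hw1 : 1 ≤ A * s := by
    calc (1 : ℝ) = 1 * 1 := (mul_one 1).symm
      _ ≤ A * s := mul_le_mul (by linarith) hs1 (by norm_num) hA0.le
  have h2r : 2 * r ≤ A * s := by
    calc 2 * r ≤ 2 * s := by linarith
      _ ≤ A * s := mul_le_mul_of_nonneg_right hA hs0.le
  have hwl : K * (A * s + ℓ) ≤ N := by
    rw [hN, le_div_iff₀ hK0]
    calc K * (A * s + ℓ) * K = K ^ 2 * (A * s + ℓ) := by ring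
      _ ≤ K ^ 2 * (A * s + s) := mul_le_mul_of_nonneg_left (by linarith) (by positivity)
      _ = s * (K ^ 2 * (A + 1)) := by ring
      _ ≤ s * u := mul_le_mul_of_nonneg_left (ht1.trans htu) hs0.le
  have hbig : K * (A * s * ℓ) ≤ P * N ^ 2 := by
    -- `(F / y) ^ (20/9) * t ^ (20/9) = 40 ^ (-20/9)`
    have h1 : (F / y) ^ (20 / 9 : ℝ) * t ^ (20 / 9 : ℝ) = (1 / 40 : ℝ) ^ (20 / 9 : ℝ) := by
      rw [← Real.mul_rpow (by positivity) ht0.le]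
      congr 1
      rw [ht]
      field_simp
    have h2 : (1 / 40 : ℝ) ^ (3 : ℝ) ≤ (1 / 40 : ℝ) ^ (20 / 9 : ℝ) :=
      Real.rpow_le_rpow_of_exponent_ge (by norm_num) (by norm_num) (by norm_num)
    have h3 : (1 / 40 : ℝ) ^ (3 : ℝ) = 1 / 64000 := by
      rw [show (3 : ℝ) = ((3 : ℕ) : ℝ) by norm_num, Real.rpow_natCast]
      norm_num
    have h4 : 1 / 64000 ≤ (F / y) ^ (20 / 9 : ℝ) * u ^ 2 := by
      rw [hu2, h1, ← h3]
      exact h2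
    have h5 : N ^ 2 = s ^ 2 * u ^ 2 / K ^ 2 := by
      rw [hN]
      ring
    have h6 : C * (F / y) ^ (20 / 9 : ℝ) * N ^ 2 ≤ P * N ^ 2 :=
      mul_le_mul_of_nonneg_right hcon'.le (by positivity)
    refine le_trans ?_ h6
    have h7 : C * (F / y) ^ (20 / 9 : ℝ) * N ^ 2 =
        C * s ^ 2 / K ^ 2 * ((F / y) ^ (20 / 9 : ℝ) * u ^ 2) := by
      rw [h5]
      ring
    rw [h7]
    have h8 : C * s ^ 2 / K ^ 2 * (1 / 64000) ≤
        C * s ^ 2 / K ^ 2 * ((F / y) ^ (20 / 9 : ℝ) * u ^ 2) :=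
      mul_le_mul_of_nonneg_left h4 (by positivity)
    refine le_trans ?_ h8
    have h9 : C * s ^ 2 / K ^ 2 * (1 / 64000) = K * (A + 1) * s ^ 2 := by
      rw [hC]
      field_simp
    rw [h9]
    have h10 : A * s * ℓ ≤ A * s * s := mul_le_mul_of_nonneg_left hls (by positivity)
    have h11 : K * (A * s * ℓ) ≤ K * (A * s * s) := mul_le_mul_of_nonneg_left h10 hK0.le
    have h12 : 0 ≤ K * s ^ 2 := by positivity
    have h13 : K * (A + 1) * s ^ 2 = K * (A * s * s) + K * s ^ 2 := by ring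
    linarith
  have hend := hK N R M hNK hR' hM r (A * s) (A * s) ℓ α β y (by linarith) h2r hw1 le_rfl hrl hl1
    hwl (by rw [← hP]; exact hbig)
  -- the growth
  have hgr' := hgr (K * N) (by rw [hKN]; exact hsu) (by
    rw [hKN, pow_two]
    exact mul_le_mul_of_nonneg_left hus hs0.le)
  have hq : K * N / s = u := by
    rw [hKN]
    field_simp
  rw [hq, hu9] at hgr'
  have hlast : 8 * (F * t) = 1 / 5 * y := by
    rw [← hty]
    ring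
  have hC5 : C ≤ y := by
    calc C = C * 1 := (mul_one C).symm
      _ ≤ C * F := mul_le_mul_of_nonneg_left hF1 hC0.le
      _ ≤ y := hCy
  linarith

/-- The constant `Λ`. -/
private theorem Soft_num {Cw y₀ C : ℝ} (hCw : 1 ≤ Cw) (hy₀ : 1 ≤ y₀) : ∃ Λ : ℝ, 1 ≤ Λ ∧ Cw ≤ Λ ∧ 15 * C ≤ Λ ∧
    18 * y₀ * Real.sqrt (Cw * (1 / Λ) ^ (20 / 9 : ℝ)) ≤ 1 ∧ 160 * y₀ * (Cw * (1 / Λ) ^ (20 / 9 : ℝ)) ≤ 1 := by
  obtain ⟨Λ, hΛ⟩ : ∃ Λ : ℝ, Λ = max (400 * y₀ ^ 2 * Cw) (15 * C) := ⟨_, rfl⟩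
  have hCw0 : 0 < Cw := by linarith
  have hy0 : 0 < y₀ := by linarith
  have h1 : 400 * y₀ ^ 2 * Cw ≤ Λ := by rw [hΛ]; exact le_max_left _ _
  have hyy : y₀ ≤ y₀ ^ 2 := le_self_pow₀ hy₀ (by norm_num)
  have hyy1 : 1 ≤ y₀ ^ 2 := one_le_pow₀ hy₀
  have h2 : 400 * Cw ≤ 400 * y₀ ^ 2 * Cw := by nlinarith
  have hΛ1 : 1 ≤ Λ := by linarith
  have hΛ0 : 0 < Λ := by linarith
  have h3 : (1 / Λ) ^ (20 / 9 : ℝ) ≤ 1 / Λ := by
    calc (1 / Λ) ^ (20 / 9 : ℝ) ≤ (1 / Λ) ^ (1 : ℝ) :=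
          Real.rpow_le_rpow_of_exponent_ge (by positivity) (by rw [div_le_one hΛ0]; exact hΛ1) (by norm_num)
      _ = 1 / Λ := Real.rpow_one _
  have h4 : Cw * (1 / Λ) ^ (20 / 9 : ℝ) ≤ 1 / (400 * y₀ ^ 2) := by
    calc Cw * (1 / Λ) ^ (20 / 9 : ℝ) ≤ Cw * (1 / Λ) := mul_le_mul_of_nonneg_left h3 hCw0.le
      _ ≤ 1 / (400 * y₀ ^ 2) := by
        rw [mul_one_div, div_le_div_iff₀ hΛ0 (by positivity)]
        linarith
  refine ⟨Λ, hΛ1, by linarith, by rw [hΛ]; exact le_max_right _ _, ?_, ?_⟩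
  · have h5 : Real.sqrt (Cw * (1 / Λ) ^ (20 / 9 : ℝ)) ≤ 1 / (20 * y₀) := by
      rw [show 1 / (20 * y₀) = Real.sqrt ((1 / (20 * y₀)) ^ 2) from (Real.sqrt_sq (by positivity)).symm]
      refine Real.sqrt_le_sqrt (h4.trans (le_of_eq ?_))
      rw [div_pow, one_pow, mul_pow]
      norm_num
    calc 18 * y₀ * Real.sqrt (Cw * (1 / Λ) ^ (20 / 9 : ℝ)) ≤ 18 * y₀ * (1 / (20 * y₀)) :=
          mul_le_mul_of_nonneg_left h5 (by positivity)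
      _ = 18 / 20 := by field_simp
      _ ≤ 1 := by norm_num
  · calc 160 * y₀ * (Cw * (1 / Λ) ^ (20 / 9 : ℝ)) ≤ 160 * y₀ * (1 / (400 * y₀ ^ 2)) :=
          mul_le_mul_of_nonneg_left h4 (by positivity)
      _ = 160 / 400 * (1 / y₀) := by field_simp
      _ ≤ 1 := by
        have : 1 / y₀ ≤ 1 := by rw [div_le_one hy0]; exact hy₀
        linarith

open Classical in
/-- **The soft base.** -/
theorem soft {Q : Par} {g : V → ℝ} (hg : IsMean Q g) (hM : HasModels Q g) {c : Crd} (hf : FlatS g c) {D : ℝ} (hD : 3 ≤ D)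
    {p : ℝ} (hp : 0 < p) (hp1 : p ≤ 1) :
    ∃ K : ℝ, 1 ≤ K ∧ ∀ η : ℝ, 0 < η → η ≤ 1 / 1000 → ∀ CF : ℝ, 1 ≤ CF → ∃ s₀ : ℝ, 1 ≤ s₀ ∧
      ∀ (s R : ℝ) (M : Mdl Q.a Q.b), s₀ ≤ s →
      s ^ 300 ≤ R → Good Q g R M → ∀ F : ℝ, 1 ≤ F → F ≤ CF * s ^ (3 / 4 : ℝ) →
      (∀ n : ℝ, s ≤ n → n ≤ s ^ 2 → Fm M c D n ≤ F * (n / s) ^ (9 / 10 : ℝ)) →
      ∃ α β : ℝ, |α| ≤ 2 * c.C ∧ |β| ≤ c.C ∧
        1 - p ≤ M.P (Cr Q.b c (η * s) (10 * (η * s)) (η * s) s α β (K * F)) := by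
  have hC := c.one_le
  obtain ⟨κ₁, hκ₁d⟩ : ∃ κ₁ : ℝ, κ₁ = 2 * p := ⟨_, rfl⟩
  have hκ₁ : 0 < κ₁ := by rw [hκ₁d]; positivity
  have hpκ : κ₁ / 2 = p := by rw [hκ₁d]; ring
  obtain ⟨c₁, hc₁d⟩ : ∃ c₁ : ℝ, c₁ = 1024 / κ₁ := ⟨_, rfl⟩
  have hc₁ : 0 < c₁ := by rw [hc₁d]; positivity
  have hθd : (1 : ℝ) = c₁ * κ₁ / 1024 := by
    rw [hc₁d]
    field_simp
  obtain ⟨κm, m₀, hκm, hκm1, hmany⟩ := side_slow (p₀ := κ₁ / 2) (by positivity) (by linarith)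
  obtain ⟨Ad, sd, hAd, hsd, hdet⟩ := det_rows hg c hf.low
  obtain ⟨Cw, sw, hCw, hsw, hwide⟩ := wide_probB Q hg c hf.low (D := D) (A := Ad + 2) hD (by linarith)
  obtain ⟨y₁, hy₁, hls⟩ := luck_sum hCw one_pos
  obtain ⟨y₀, hy₀1, hy₀w⟩ : ∃ y₀, y₁ ≤ y₀ ∧ Cw ≤ y₀ := ⟨max y₁ Cw, le_max_left _ _, le_max_right _ _⟩
  have hy₀ : 1 ≤ y₀ := hCw.trans hy₀w
  obtain ⟨κs, hκs, hκs1, hls'⟩ := hls y₀ hy₀1
  obtain ⟨Λ, hΛ1, hΛw, hΛC, n2, n1⟩ := Soft_num (C := c.C) hCw hy₀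
  obtain ⟨κ, hκ0, hκ1, hκm', hκs', hκ32, n4, -⟩ := side_kappa hκm hκm1 hκs hκ₁ one_pos hy₀ (le_refl (1 : ℝ))
  have hΛ0 : 0 < Λ := by linarith
  have hc₁1 : 512 ≤ c₁ := by
    rw [hc₁d, le_div_iff₀ hκ₁]
    linarith
  refine ⟨c₁ * Λ / 2, by nlinarith, fun η hη hη3 CF hCF => ?_⟩
  have hCF0 : 0 < CF := by linarith
  obtain ⟨t, htd⟩ : ∃ t, t = η * κ / (8 * Ad) := ⟨_, rfl⟩
  have ht : 0 < t := by rw [htd]; positivity
  obtain ⟨θb, hθb, hθb1, hbar⟩ := bar_flat hf ht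
  obtain ⟨sc, hsc, hconf⟩ := conf_flat hf hη hAd
  obtain ⟨sz, hsz, hexc⟩ := excess_Z hg hM hf
  obtain ⟨so, hso, hov⟩ := P_Ov Q g 22 (1 / 8) (by norm_num)
  suffices H : ∀ᶠ s : ℝ in atTop, ∀ (R : ℝ) (M : Mdl Q.a Q.b), s ^ 300 ≤ R → Good Q g R M →
      ∀ F : ℝ, 1 ≤ F → F ≤ CF * s ^ (3 / 4 : ℝ) →
      (∀ n : ℝ, s ≤ n → n ≤ s ^ 2 → Fm M c D n ≤ F * (n / s) ^ (9 / 10 : ℝ)) →
      ∃ α β : ℝ, |α| ≤ 2 * c.C ∧ |β| ≤ c.C ∧
        1 - p ≤ M.P (Cr Q.b c (η * s) (10 * (η * s)) (η * s) s α β (c₁ * Λ / 2 * F)) by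
    obtain ⟨s₀, hs₀⟩ := eventually_atTop.1 H
    exact ⟨max s₀ 1, le_max_right _ _, fun s R M hs => hs₀ s ((le_max_left _ _).trans hs) R M⟩
  filter_upwards [eventually_ge_atTop sd, eventually_ge_atTop sw, eventually_ge_atTop sc, eventually_ge_atTop sz,
    eventually_ge_atTop so, eventually_ge_atTop (100 * c.C / η),
    eventually_ge_atTop (100000 * c.C ^ 2 * (Ad + 2)), eventually_ge_atTop (m₀ : ℝ),
    eventually_ge_atTop (2 / κ), eventually_ge_atTop (28 / 1 : ℝ), eventually_ge_atTop (12 * y₀ / 1),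
    ev_pow (1 / η) (by norm_num : (9 / 10 : ℝ) < 1), ev_pow (4 * (c₁ * Λ) * CF) (by norm_num : (3 / 4 : ℝ) < 4 / 5),
    ev_pow (1 / (θb * t)) (by norm_num : (3 / 5 : ℝ) < 1),
    ev_pow 4 (by norm_num : (7 / 10 : ℝ) < 1), ev_pow (2 * (y₀ * Λ) * CF) (by norm_num : (3 / 4 : ℝ) < 1),
    ev_pow (Λ * CF) (by norm_num : (3 / 4 : ℝ) < 4 / 5)]
    with s l1 l2 l3 l4 l5 l8 l10 l11 l12 l13 l14 w1 w2 w3 w5 w6 w7
  intro R M hR hG F₀ hF₀1 hF₀s hA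
  by_contra hcon
  push Not at hcon
  have hs1 : 1 ≤ s := hsd.trans l1
  have hsp : 0 < s := by linarith only [hs1]
  rw [Real.rpow_one] at w1 w3 w5 w6
  have hR30 : s ^ 30 ≤ R := (pow_le_pow_right₀ hs1 (by norm_num)).trans hR
  obtain ⟨F, hFd⟩ : ∃ F, F = Λ * F₀ := ⟨_, rfl⟩
  have hF₀0 : 0 < F₀ := by linarith only [hF₀1]
  have hF1 : 1 ≤ F := by rw [hFd]; exact one_le_mul_of_one_le_of_one_le hΛ1 hF₀1
  have hFp : 0 < F := by linarith only [hF1]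
  have hF4 : 4 * (c₁ * F) ≤ s ^ (4 / 5 : ℝ) := by
    refine le_trans ?_ w2
    rw [hFd]
    calc 4 * (c₁ * (Λ * F₀)) = 4 * (c₁ * Λ) * F₀ := by ring
      _ ≤ 4 * (c₁ * Λ) * (CF * s ^ (3 / 4 : ℝ)) := mul_le_mul_of_nonneg_left hF₀s (by positivity)
      _ = 4 * (c₁ * Λ) * CF * s ^ (3 / 4 : ℝ) := by ring
  have hFy : 2 * (y₀ * F) ≤ s := by
    refine le_trans ?_ w6
    rw [hFd]
    calc 2 * (y₀ * (Λ * F₀)) = 2 * (y₀ * Λ) * F₀ := by ring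
      _ ≤ 2 * (y₀ * Λ) * (CF * s ^ (3 / 4 : ℝ)) := mul_le_mul_of_nonneg_left hF₀s (by positivity)
      _ = 2 * (y₀ * Λ) * CF * s ^ (3 / 4 : ℝ) := by ring
  have hF7 : F ≤ s ^ (4 / 5 : ℝ) := by
    refine le_trans ?_ w7
    rw [hFd, mul_assoc Λ CF]
    exact mul_le_mul_of_nonneg_left hF₀s hΛ0.le
  obtain ⟨r, hrd⟩ : ∃ r, r = η * s := ⟨_, rfl⟩
  have hCr : 100 * c.C ≤ r := by
    rw [hrd]
    have := (div_le_iff₀ hη).1 l8
    linarith only [this]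
  have hrs : 1000 * r ≤ s := by
    rw [hrd]
    have := mul_le_mul_of_nonneg_right hη3 hsp.le
    linarith only [this]
  have hr0 : 0 < r := by linarith only [hCr, hC]
  have e1 : c.C ≤ c.C ^ 2 := le_self_pow₀ hC two_ne_zero
  have e2 : c.C * (Ad + 2) ≤ c.C ^ 2 * (Ad + 2) := mul_le_mul_of_nonneg_right e1 (by linarith)
  have e4 : c.C * 1 ≤ c.C * (Ad + 2) := mul_le_mul_of_nonneg_left (by linarith) (by linarith)
  have hc1 : 100000 * c.C ≤ s := by linarith only [l10, e2, e4]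
  have hc2 : 100000 * c.C * (Ad + 2) ≤ s := by linarith only [l10, e2]
  have hrℓ : r + 4 * c.C < s := by linarith only [hCr, hC, hrs, hc1]
  obtain ⟨m, N, hm1, hm2, hm₀, hm1', hsm, hN1, hN2, hNm⟩ := side_mN hs1 hκ0 hκ1 l11 l12
  have hmp : (0 : ℝ) < m := by linarith only [hsm, hsp]
  obtain ⟨g1, g2, g3, g4⟩ := side_rng hs1 hC hAd hr0.le hrs hsp.le le_rfl hc1 hc2 hm2 hmp.le (Nat.cast_nonneg N) hNm
  -- slow blocks
  have hslowP : ∀ α β : ℝ, κ₁ / 2 ≤ M.P (fun τ => ¬ Cr Q.b c r (10 * r) r s α β (c₁ * F / 2) τ) := by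
    intro α β
    obtain ⟨z, hz1, hz2⟩ := exists_shift c α β
    have h1 : M.P (Cr Q.b c r (10 * r) r s (α + lv c z) (β + c.q z) (c₁ * F / 2)) =
      M.P (Cr Q.b c r (10 * r) r s α β (c₁ * F / 2)) := P_Cr_sh hG c r (10 * r) r s α β (c₁ * F / 2) z
    have h2 := hcon _ _ hz1 hz2
    rw [← hrd, show c₁ * Λ / 2 * F₀ = c₁ * F / 2 by rw [hFd]; ring, h1] at h2
    have h3 := M.P_not (Cr Q.b c r (10 * r) r s α β (c₁ * F / 2))
    rw [h3, hpκ]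
    linarith only [h2]
  have hS := hmany hG m N hm₀ (hN1.trans (mul_le_mul_of_nonneg_right hκm' hmp.le)) c r s (c₁ * F / 2) hr0.le
    hrℓ (g2.trans hR30) hslowP
  -- the levels of luck
  obtain ⟨J, j1, j2, j3, j4⟩ := exists_J (one_le_mul_of_one_le_of_one_le hy₀ hF1)
    (Real.one_le_rpow hs1 (by norm_num) : 1 ≤ s ^ (7 / 10 : ℝ))
  have hJs : 2 * s ^ (7 / 10 : ℝ) + y₀ * F ≤ s := by linarith only [w5, hFy]
  have h78 : s ^ (7 / 10 : ℝ) ≤ s ^ (4 / 5 : ℝ) := Real.rpow_le_rpow_of_exponent_le hs1 (by norm_num)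
  have hrA : 10 * r ≤ (Ad + 2) * s := by
    have h1 : 1 * s ≤ (Ad + 2) * s := mul_le_mul_of_nonneg_right (by linarith) hsp.le
    linarith only [h1, hrs, hr0]
  have hrA' : r ≤ (Ad + 2) * s := by linarith only [hrA, hr0]
  have hwide' : ∀ α β y : ℝ, Cw * F₀ ≤ y → y ≤ s ^ (4 / 5 : ℝ) →
      M.P (Cr Q.b c r ((Ad + 2) * s) ((Ad + 2) * s) s α β (-y)) ≤ Cw * (F₀ / y) ^ (20 / 9 : ℝ) :=
    fun α β y h1 h2 => hwide s R M l2 hR hG F₀ hF₀1 hA r s α β y (by linarith only [hCr, hC])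
      (by linarith only [hrs, hr0]) le_rfl h1 h2
  have hD1 : ∀ α β : ℝ, M.P (Cr Q.b c r (10 * r) r s α β (-(1 * F))) ≤ Cw * (1 / Λ) ^ (20 / 9 : ℝ) := by
    intro α β
    have h1 := hwide' α β F (by rw [hFd]; exact mul_le_mul_of_nonneg_right hΛw hF₀0.le) hF7
    have h2 : F₀ / F = 1 / Λ := by
      rw [hFd]
      field_simp
    rw [h2] at h1
    rw [one_mul]
    refine le_trans (M.P_mono fun τ hτ h => ?_) h1
    exact Cr_mono Q.ha.le Q.hab.le hτ hrA hrA' le_rfl h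
  have hW1 : ∀ j < J, ∀ α β : ℝ, M.P (Cr Q.b c r ((Ad + 2) * s) ((Ad + 2) * s) s α β (-(2 ^ j * (y₀ * F)))) ≤
      Cw * (1 / (2 ^ j * y₀)) ^ (20 / 9 : ℝ) := by
    intro j hj α β
    have h2 : (1 : ℝ) ≤ 2 ^ j := one_le_pow₀ (by norm_num)
    have h5 : Cw * F₀ ≤ 2 ^ j * (y₀ * F) := by
      have h3 : Cw * F₀ ≤ y₀ * F := by
        rw [hFd]
        exact mul_le_mul hy₀w (le_mul_of_one_le_left hF₀0.le hΛ1) hF₀0.le (by linarith only [hy₀])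
      exact h3.trans (le_mul_of_one_le_left (by positivity) h2)
    have h1 := hwide' α β (2 ^ j * (y₀ * F)) h5 ((j3 j hj).trans h78)
    refine h1.trans (mul_le_mul_of_nonneg_left ?_ (by linarith only [hCw]))
    refine Real.rpow_le_rpow (by positivity) ?_ (by norm_num)
    rw [div_le_div_iff₀ (by positivity) (by positivity), one_mul]
    have h6 : F₀ ≤ F := by rw [hFd]; exact le_mul_of_one_le_left hF₀0.le hΛ1
    calc F₀ * (2 ^ j * y₀) ≤ F * (2 ^ j * y₀) := mul_le_mul_of_nonneg_right h6 (by positivity)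
      _ = 2 ^ j * (y₀ * F) := by ring
  have hρ0 : 0 ≤ Cw * (1 / Λ) ^ (20 / 9 : ℝ) := by positivity
  refine side_main hG (c := c) (r := r) (ℓ := s) (A := Ad) (A' := Ad + 2) (s := s) (L := s ^ 22) (F := F) (θ := 1)
    (y₀ := y₀) (c₁ := c₁) (κ₁ := κ₁) (κ := κ) (ρD := Cw * (1 / Λ) ^ (20 / 9 : ℝ)) (B := s ^ (7 / 10 : ℝ))
    (E := s ^ (4 / 5 : ℝ) / 4)
    (ρW := fun j => Cw * (1 / (2 ^ j * y₀)) ^ (20 / 9 : ℝ)) (m := m) (N := N) (J := J) hr0.le hrℓ (by positivity)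
    (mul_le_mul_of_nonneg_right (by linarith only) hsp.le) (g3.trans hR30)
    (hov s R M l5 (le_trans (by
      calc 2 * s ^ 22 ≤ s * s ^ 22 := mul_le_mul_of_nonneg_right (by linarith only [hc1, hC]) (by positivity)
        _ = s ^ 23 := by ring
        _ ≤ s ^ 30 := pow_le_pow_right₀ hs1 (by norm_num)) hR30) ((le_self_pow₀ hs1 (by norm_num)).trans hR30) hG)
    hS hρ0 hD1 (fun j => by positivity) hW1 hmp hN1 ?_ ?_ (by positivity) j1 hc₁ hκ₁ hFp hy₀ hθd le_rfl hκ32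
    n1 ?_ ?_ n4 ?_ ?_
  · intro τ hτ hτov
    obtain ⟨Z, z1, z2, z3, z4⟩ := hexc s s m τ l4 hs1 le_rfl hm1 hm2 hτ hτov
    exact hdet s r s (s ^ 22) t θb τ m N Z l1 (by
      rw [one_div, inv_mul_le_iff₀ hη] at w1
      rw [hrd]
      exact w1) (by linarith only [hrs, hr0]) le_rfl hm1' hτ hτov
      (hconf s r s l3 (by rw [hrd]) (by linarith only [hrs, hr0]) hsp.le le_rfl) ht hθb hθb1 hbar g4 z1 z2 z3 z4
      (side_bar hη hκ0 hAd hθb ht htd hrd hmp hsp hN2 w3)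
  · linarith only [hF4, mul_pos hc₁ hFp]
  · refine le_trans ?_ n2
    refine mul_le_mul_of_nonneg_left (Real.sqrt_le_sqrt ?_) (by linarith only [hy₀])
    exact mul_le_of_le_one_left hρ0 hκ1
  · linarith only [l14, hsm]
  · have h1 : 15 * c.C ≤ F := by
      rw [hFd]
      exact hΛC.trans (le_mul_of_one_le_right hΛ0.le hF₀1)
    have h2 := mul_le_mul_of_nonneg_right h1 hmp.le
    have h3 : 10 * c.C ≤ 10 * c.C * m := le_mul_of_one_le_right (by linarith only [hC]) (by exact_mod_cast hm1')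
    have h4 : (1 : ℝ) * m ≤ c.C * m := mul_le_mul_of_nonneg_right hC hmp.le
    linarith only [h2, h3, h4]
  · intro KW hKW
    exact side_W hls' hκ0.le hκs' hmp hF1 hs1 one_pos l13 hm1 (j2.trans hJs) (j4.trans hJs) (by linarith only [hy₀]) KW hKW

end Pool.Agent.W_1b8d5d_sc
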