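import Pool.Agent.W_1b8d5d_sc.P1LuckA
import Pool.Agent.W_1b8d5d_sc.Soft

/-!
MP_1b8d5d_pr (SC, P1): the tail of the luck of a box, the selection of the lowest lucky piece.
-/

set_option autoImplicit false

namespace Pool.Agent.W_1b8d5d_sc

open Finset Pool.Agent.W_1b8d5d_h85 Pool.Agent.W_1b8d5d_fe

section

variable {Q : Par} {g : V → ℝ} {R : ℝ} {M : Mdl Q.a Q.b} {c : Crd}

/-- Selection: every candidate has with probability at least `1 / 2` a good continuation, which is independent of the choice. -/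
theorem P_ex_le {ι : Type} [LinearOrder ι] [Fintype ι] (hG : Good Q g R M) (K N : ι → Env → Prop) (D G : ι → Set Edge)
    (A : Env → Prop) (hK : ∀ i, DependsOn (K i) (D i)) (hN : ∀ i, DependsOn (N i) (G i))
    (hD : ∀ i j, j ≤ i → Disjoint (D j) (G i)) (hR : ∀ i, ∀ e ∈ D i ∪ G i, nm e.1 ≤ R) (hB : ∀ i, M.P (N i) ≤ 1 / 2)
    (hA : ∀ i τ, Bd Q.a Q.b τ → K i τ → ¬ N i τ → A τ) : M.P (fun τ => ∃ i, K i τ) ≤ 2 * M.P A := by
  classical
  have hF : ∀ i, DependsOn (fun τ => if N i τ then (1 : ℝ) else 0) (G i) := fun i τ τ' h => by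
    have h1 : N i τ = N i τ' := hN i h
    show (if N i τ then (1 : ℝ) else 0) = if N i τ' then (1 : ℝ) else 0
    simp only [h1]
  have h1 := sel_le hG K D G (fun i τ => if N i τ then (1 : ℝ) else 0) (B := 1 / 2) hK hF hD hR fun i => by
    have := hB i
    rwa [M.P_def] at this
  have h2 : M.P (fun τ => ∃ i, K i τ) ≤ M.P A + M.E (fun τ => ∑ i, if Fst K i τ then (if N i τ then (1 : ℝ) else 0) else 0) := by
    rw [M.P_def, M.P_def, ← M.E_add]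
    refine M.E_mono fun τ hτ => ?_
    have hs0 : ∀ i ∈ (univ : Finset ι), 0 ≤ (if Fst K i τ then (if N i τ then (1 : ℝ) else 0) else 0) := fun i _ => by
      split_ifs <;> norm_num
    have hsum := Finset.sum_nonneg hs0
    have hA0 : 0 ≤ (if A τ then (1 : ℝ) else 0) := by split_ifs <;> norm_num
    by_cases h : ∃ i, K i τ
    · rw [if_pos h]
      rcases Fst_or_Non K τ with ⟨i, hi⟩ | hn
      · by_cases hNi : N i τ
        · have h3 := Finset.single_le_sum hs0 (Finset.mem_univ i)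
          rw [if_pos hi, if_pos hNi] at h3
          linarith
        · rw [if_pos (hA i τ hτ hi.1 hNi)]
          linarith
      · obtain ⟨i, hi⟩ := h
        exact absurd hi (hn i)
    · rw [if_neg h]
      linarith
  linarith

/-- Enumeration of a box in the order of the levels. -/
theorem exists_enum_lv (c : Crd) (Z : ℝ) : ∃ (n : ℕ) (v : Fin n → V), (∀ i, nm (v i) ≤ Z) ∧ (∀ x, nm x ≤ Z → ∃ i, v i = x) ∧
    ∀ i j, j ≤ i → lv c (v j) ≤ lv c (v i) := by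
  classical
  have hfin : {v : V | nm v ≤ Z}.Finite := by
    have h1 : {v : V | nm v ≤ Z} ⊆ ((Icc (-⌈Z⌉) ⌈Z⌉ ×ˢ Icc (-⌈Z⌉) ⌈Z⌉ : Finset (ℤ × ℤ)) : Set (ℤ × ℤ)) := by
      rintro ⟨x, y⟩ h
      have h' : |(x : ℝ)| + |(y : ℝ)| ≤ Z := h
      have hc : Z ≤ (⌈Z⌉ : ℝ) := Int.le_ceil Z
      have hx := abs_le.1 (show |(x : ℝ)| ≤ (⌈Z⌉ : ℝ) by linarith [abs_nonneg (y : ℝ)])
      have hy := abs_le.1 (show |(y : ℝ)| ≤ (⌈Z⌉ : ℝ) by linarith [abs_nonneg (x : ℝ)])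
      rw [Finset.mem_coe, Finset.mem_product, Finset.mem_Icc, Finset.mem_Icc]
      refine ⟨⟨?_, ?_⟩, ?_, ?_⟩
      · exact_mod_cast hx.1
      · exact_mod_cast hx.2
      · exact_mod_cast hy.1
      · exact_mod_cast hy.2
    exact (Finset.finite_toSet _).subset h1
  obtain ⟨e, he⟩ : ∃ e : Fin hfin.toFinset.card → V, e = fun i => (hfin.toFinset.equivFin.symm i : V) := ⟨_, rfl⟩
  refine ⟨hfin.toFinset.card, fun i => e (Tuple.sort (lv c ∘ e) i), fun i => ?_, fun x hx => ?_, fun i j hij => ?_⟩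
  · have h1 : e (Tuple.sort (lv c ∘ e) i) ∈ hfin.toFinset := by rw [he]; exact (hfin.toFinset.equivFin.symm _).2
    exact (Set.Finite.mem_toFinset hfin).1 h1
  · refine ⟨(Tuple.sort (lv c ∘ e)).symm (hfin.toFinset.equivFin ⟨x, (Set.Finite.mem_toFinset hfin).2 hx⟩), ?_⟩
    simp [he]
  · exact Tuple.monotone_sort (lv c ∘ e) hij

/-- The luck of a box is at most twice as likely as a lucky crossing of a wide block. -/
theorem lk_le (hG : Good Q g R M) {L Z y s F : ℝ} (hZ : (1 + 2 * (Q.b / Q.a)) * L ≤ Z) (hZ0 : 0 ≤ Z) (hs : 8 * c.C * Z ≤ s)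
    (hs' : 32 * c.C ≤ s) (hR : 10 * c.C * s ≤ R) (hF0 : 0 < F) (hF : Fm M c 3 (2 * s) ≤ F) :
    M.P (Lk c L y) ≤ 2 * M.P (Cr Q.b c s ((5 + 8 * c.C ^ 2 * (Q.b / Q.a)) * s) ((5 + 8 * c.C ^ 2 * (Q.b / Q.a)) * s) s (s / 4) 0
      (2 * F + 4 * c.C - y)) := by
  have hC := c.one_le
  have hC0 : 0 < c.C := by linarith
  have ha : 0 < Q.a := Q.ha
  have hab : Q.a ≤ Q.b := Q.hab.le
  have hba : 0 ≤ Q.b / Q.a := div_nonneg (ha.le.trans hab) ha.le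
  have hs0 : 0 < s := by linarith
  have hCZ : c.C * Z ≤ s / 8 := by linarith
  obtain ⟨n, v, hv1, hv2, hv3⟩ := exists_enum_lv c Z
  have hlv : ∀ z : V, nm z ≤ Z → |lv c z| ≤ s / 4 := fun z hz => by
    have h1 := (lv_le_nm c z).trans (mul_le_mul_of_nonneg_left hz (by linarith : 0 ≤ 2 * c.C))
    linarith
  -- the continuation
  obtain ⟨y₀, hy₀⟩ : ∃ y₀ : V → V, y₀ = fun p => c.rd ((s / 4 + s + 2 * c.C - lv c p) / 2) ((s / 4 + s + 2 * c.C - lv c p) / 2) :=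
    ⟨_, rfl⟩
  have hy : ∀ p : V, nm p ≤ Z → 0 ≤ c.p (y₀ p) ∧ 0 ≤ c.q (y₀ p) ∧ lv c (y₀ p) ≤ 3 * c.p (y₀ p) + 20 * c.C ∧
      lv c (y₀ p) ≤ 3 * c.q (y₀ p) + 20 * c.C ∧ s / 4 + s ≤ lv c (p + y₀ p) ∧ lv c (p + y₀ p) ≤ s / 4 + s + 4 * c.C ∧
      lv c (y₀ p) ≤ 2 * s := fun p hp => by
    have h1 := abs_le.1 (hlv p hp)
    obtain ⟨z, hz⟩ : ∃ z, z = y₀ p := ⟨_, rfl⟩
    have hz' : z = c.rd ((s / 4 + s + 2 * c.C - lv c p) / 2) ((s / 4 + s + 2 * c.C - lv c p) / 2) := by rw [hz, hy₀]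
    have h2 := abs_le.1 (c.rd_p ((s / 4 + s + 2 * c.C - lv c p) / 2) ((s / 4 + s + 2 * c.C - lv c p) / 2))
    have h3 := abs_le.1 (c.rd_q ((s / 4 + s + 2 * c.C - lv c p) / 2) ((s / 4 + s + 2 * c.C - lv c p) / 2))
    rw [← hz'] at h2 h3
    rw [← hz, lv_add]
    have hlz : lv c z = c.p z + c.q z := rfl
    rw [hlz]
    refine ⟨?_, ?_, ?_, ?_, ?_, ?_, ?_⟩ <;> linarith [h1.1, h1.2, h2.1, h2.2, h3.1, h3.2]
  have hyW : ∀ p : V, nm p ≤ Z → y₀ p ∈ Wc c := fun p hp => Wc_of_nonneg (hy p hp).1 (hy p hp).2.1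
  have hmain : M.P (fun τ => ∃ i, ∃ q, nm q ≤ Z ∧ Ko Q.b c Z y q (v i) τ) ≤
      2 * M.P (Cr Q.b c s ((5 + 8 * c.C ^ 2 * (Q.b / Q.a)) * s) ((5 + 8 * c.C ^ 2 * (Q.b / Q.a)) * s) s (s / 4) 0
        (2 * F + 4 * c.C - y)) := by
    refine P_ex_le hG (fun i τ => ∃ q, nm q ≤ Z ∧ Ko Q.b c Z y q (v i) τ)
      (fun i τ => 2 * F < Tc Q.b c τ (v i) (v i + y₀ (v i)) - lv c (y₀ (v i)))
      (fun i => edg {z | nm z ≤ Z ∧ lv c z ≤ lv c (v i)}) (fun i => edg (Dc c (v i) (v i + y₀ (v i)))) _ ?_ ?_ ?_ ?_ ?_ ?_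
    · intro i τ τ' h
      have h1 : ∀ q, T (res Q.b (edg (LBx c Z q (v i))) τ) q (v i) = T (res Q.b (edg (LBx c Z q (v i))) τ') q (v i) :=
        fun q => dependsOn_T_res Q.b _ q (v i) fun e he => h e ⟨⟨he.1.1, he.1.2.2⟩, ⟨he.2.1, he.2.2.2⟩⟩
      show (∃ q, nm q ≤ Z ∧ Ko Q.b c Z y q (v i) τ) = ∃ q, nm q ≤ Z ∧ Ko Q.b c Z y q (v i) τ'
      simp only [Ko, h1]
    · intro i τ τ' h
      have h1 : Tc Q.b c τ (v i) (v i + y₀ (v i)) = Tc Q.b c τ' (v i) (v i + y₀ (v i)) := Tc_dep Q.b c _ _ h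
      show (2 * F < Tc Q.b c τ (v i) (v i + y₀ (v i)) - lv c (y₀ (v i))) =
        (2 * F < Tc Q.b c τ' (v i) (v i + y₀ (v i)) - lv c (y₀ (v i)))
      rw [h1]
    · intro i j hij
      rw [Set.disjoint_left]
      rintro e ⟨⟨-, a1⟩, -, a2⟩ ⟨b1, b2⟩
      have h1 := hv3 i j hij
      have h2 : e.1 = v i := Dc_bot b1 (a1.trans h1)
      have h3 : e.1 + dir e.2 = v i := Dc_bot b2 (a2.trans h1)
      have h4 : dir e.2 = 0 := by
        rw [h2] at h3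
        exact add_left_cancel (h3.trans (add_zero _).symm)
      have h5 := nm_dir e.2
      rw [h4, nm_zero] at h5
      norm_num at h5
    · intro i e he
      have hsR : s ≤ R := by
        have : 1 * s ≤ 10 * c.C * s := mul_le_mul_of_nonneg_right (by linarith) hs0.le
        linarith
      have hZs : Z ≤ s := by
        have h1 : 1 * Z ≤ 8 * c.C * Z := mul_le_mul_of_nonneg_right (by linarith) hZ0
        linarith
      rcases he with he | he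
      · exact he.1.1.trans (hZs.trans hsR)
      · have h1 := Dc_nm he.1
        rw [add_sub_cancel_left] at h1
        have h2 := nm_add_le (e.1 - v i) (v i)
        rw [sub_add_cancel] at h2
        have h3 := hv1 i
        have h4 : 4 * c.C * lv c (y₀ (v i)) ≤ 4 * c.C * (2 * s) :=
          mul_le_mul_of_nonneg_left (hy _ (hv1 i)).2.2.2.2.2.2 (by linarith)
        have h5 : 1 * s ≤ c.C * s := mul_le_mul_of_nonneg_right hC hs0.le
        linarith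
    · intro i
      obtain ⟨g1, g2, g3, g4, g5, g6, g7⟩ := hy _ (hv1 i)
      have h1 := E_exc hG c (v i) (v i + y₀ (v i))
      rw [add_sub_cancel_left] at h1
      have h2 : Sc M c (y₀ (v i)) ≤ Fm M c 3 (2 * s) - 1 :=
        Sc_le_Fm M c (by norm_num) (Md_of le_rfl g1 g2 g3 g4) (Wc_lv (hyW _ (hv1 i))) g7
      have h3 : M.P (fun τ => 2 * F < Tc Q.b c τ (v i) (v i + y₀ (v i)) - lv c (y₀ (v i))) ≤
          M.P (fun τ => 2 * F ≤ max (Tc Q.b c τ (v i) (v i + y₀ (v i)) - lv c (y₀ (v i))) 0) :=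
        M.P_mono fun τ _ h => h.le.trans (le_max_left _ _)
      have h4 := M.markov (F := fun τ => max (Tc Q.b c τ (v i) (v i + y₀ (v i)) - lv c (y₀ (v i))) 0)
        (fun τ _ => le_max_right _ _) (by positivity : 0 < 2 * F)
      refine h3.trans (h4.trans ?_)
      rw [h1, div_le_iff₀ (by positivity)]
      linarith
    · rintro i τ hτ ⟨q, hq, hK⟩ hN
      obtain ⟨g1, g2, g3, g4, g5, g6, g7⟩ := hy _ (hv1 i)
      have k1 := abs_le.1 (hlv q hq)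
      have k2 := abs_le.1 (hlv _ (hv1 i))
      have k3 : 0 ≤ c.C * Z := by positivity
      have k4 : 4 * c.C ^ 2 * (Q.b / Q.a) * lv c (y₀ (v i)) ≤ 4 * c.C ^ 2 * (Q.b / Q.a) * (2 * s) :=
        mul_le_mul_of_nonneg_left g7 (by positivity)
      have k5 : (5 + 8 * c.C ^ 2 * (Q.b / Q.a)) * s = 5 * s + 4 * c.C ^ 2 * (Q.b / Q.a) * (2 * s) := by ring
      have k6 : 0 ≤ 4 * c.C ^ 2 * (Q.b / Q.a) * (2 * s) := by positivity
      refine Cr_of_Ko ha hab hτ hq (hv1 i) (hyW _ (hv1 i)) hK ?_ ?_ ?_ ?_ ?_ g5 g6 ?_ ?_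
      · have := not_lt.1 hN
        linarith
      · linarith
      · linarith
      · linarith
      · linarith
      · rw [k5]; linarith
      · rw [k5]; linarith
  refine (M.P_mono fun τ hτ h => ?_).trans hmain
  obtain ⟨q, p, hq, hp, hK⟩ := exists_Ko ha hab hτ hZ h
  obtain ⟨i, hi⟩ := hv2 p hp
  exact ⟨i, q, hq, by rw [hi]; exact hK⟩

end

section

variable {Q : Par} {g : V → ℝ} {c : Crd}

private theorem P1L_one {E H y C : ℝ} (hE : 0 < E) (hH : 0 < H) (hy0 : 0 < y) (hy : y ≤ E * H) (hC : E ^ (20 / 9 : ℝ) ≤ C) :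
    1 ≤ C * (H / y) ^ (20 / 9 : ℝ) := by
  have h1 : 1 / E ≤ H / y := by
    rw [div_le_div_iff₀ hE hy0]
    linarith
  have h2 : (1 / E) ^ (20 / 9 : ℝ) ≤ (H / y) ^ (20 / 9 : ℝ) := Real.rpow_le_rpow (by positivity) h1 (by norm_num)
  have h3 : E ^ (20 / 9 : ℝ) * (1 / E) ^ (20 / 9 : ℝ) = 1 := by
    rw [← Real.mul_rpow hE.le (by positivity), mul_one_div_cancel hE.ne', Real.one_rpow]
  calc (1 : ℝ) = E ^ (20 / 9 : ℝ) * (1 / E) ^ (20 / 9 : ℝ) := h3.symm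
    _ ≤ C * (H / y) ^ (20 / 9 : ℝ) := mul_le_mul hC h2 (by positivity) ((by positivity : 0 ≤ E ^ (20 / 9 : ℝ)).trans hC)

private theorem P1L_Ag (k : ℕ) : Ag ^ k = ((2 : ℝ) ^ k) ^ (9 / 10 : ℝ) := by
  unfold Ag
  rw [← Real.rpow_natCast, ← Real.rpow_mul (by norm_num), ← Real.rpow_natCast 2 k, ← Real.rpow_mul (by norm_num), mul_comm]

private theorem P1L_Ag1 : 1 ≤ Ag := Real.one_le_rpow (by norm_num) (by norm_num)

private theorem P1L_Ag2 : Ag ≤ 2 := by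
  calc Ag ≤ (2 : ℝ) ^ (1 : ℝ) := Real.rpow_le_rpow_of_exponent_le (by norm_num) (by norm_num)
    _ = 2 := Real.rpow_one 2

/-- On `Ov` there is no luck of size `s ^ (4 / 5)`. -/
theorem no_Lk_of_Ov (hl : ∀ z, lv c z ≤ g z) {L s y : ℝ} {τ : Env} (hs : 1 ≤ s) (hL : 2 * L ≤ s) (hO : Ov g (s ^ 2) s τ)
    (hy : s ^ (4 / 5 : ℝ) < y) : ¬ Lk c L y τ := by
  rintro ⟨u, v, hu, hv, huv⟩
  have hs0 : 0 < s := by linarith
  have hss : s ≤ s ^ 2 := by nlinarith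
  have hL0 : 0 ≤ L := (nm_nonneg u).trans hu
  have h1 := (abs_le.1 (hO u v (by linarith) (by linarith))).1
  have h2 : nm (v - u) ≤ s := by
    have := nm_add_le v (-u)
    rw [nm_neg, ← sub_eq_add_neg] at this
    linarith
  rw [max_eq_left h2] at h1
  have h3 := hl (v - u)
  have h4 : s ^ (3 / 5 : ℝ) ≤ s ^ (4 / 5 : ℝ) := Real.rpow_le_rpow_of_exponent_le hs (by norm_num)
  linarith

/-- The tail of the luck of a box. -/
theorem luck_box (hg : IsMean Q g) (hf : FlatS g c) {L C₁ : ℝ} (hL : 1 ≤ L) (hC₁ : 1 ≤ C₁) :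
    ∃ C : ℝ, 1 ≤ C ∧ ∀ (j N : ℕ) (R : ℝ) (M : Mdl Q.a Q.b) (H y : ℝ), Good Q g R M → ((2 : ℝ) ^ N) ^ 300 ≤ R → 16 * j ≤ N →
      1 ≤ H → (∀ m, j ≤ m → 4 * m ≤ N → Fm M c 3 (2 ^ m) ≤ C₁ * (Ag ^ (m - j) * H)) → 0 < y →
      M.P (Lk c (L * 2 ^ j) y) ≤ C * (H / y) ^ (20 / 9 : ℝ) := by
  have hC := c.one_le
  have hC0 : 0 < c.C := by linarith
  have ha : 0 < Q.a := Q.ha
  have hab : Q.a ≤ Q.b := Q.hab.le
  have hba : 0 ≤ Q.b / Q.a := div_nonneg (ha.le.trans hab) ha.le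
  obtain ⟨Z₀, hZ₀⟩ : ∃ Z₀ : ℝ, Z₀ = (1 + 2 * (Q.b / Q.a)) * L := ⟨_, rfl⟩
  have hLZ : L ≤ Z₀ := by
    rw [hZ₀]
    exact le_mul_of_one_le_left (by linarith) (by linarith)
  have hZ₀0 : 0 ≤ Z₀ := by linarith
  obtain ⟨k₀, hk₀⟩ := pow_unbounded_of_one_lt (8 * c.C * Z₀) (one_lt_two : (1 : ℝ) < 2)
  obtain ⟨A, hA⟩ : ∃ A : ℝ, A = 5 + 8 * c.C ^ 2 * (Q.b / Q.a) := ⟨_, rfl⟩
  have hA2 : 2 ≤ A := by
    have : 0 ≤ 8 * c.C ^ 2 * (Q.b / Q.a) := by positivity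
    rw [hA]; linarith
  obtain ⟨Cw, sw, hCw, hsw, hwide⟩ := wide_probB Q hg c hf.low (D := 3) (A := A) le_rfl hA2
  obtain ⟨so, hso, hov⟩ := P_Ov_pow Q g 2 3
  obtain ⟨G, hG⟩ : ∃ G : ℝ, G = Ag ^ k₀ := ⟨_, rfl⟩
  have hG1 : 1 ≤ G := by rw [hG]; exact one_le_pow₀ P1L_Ag1
  obtain ⟨j₁, hj₁⟩ := pow_unbounded_of_one_lt (sw + so + 32 * c.C) (one_lt_two : (1 : ℝ) < 2)
  obtain ⟨C₂, hC₂⟩ : ∃ C₂ : ℝ, C₂ = 2 * (2 + 4 * c.C) + 2 * Cw := ⟨_, rfl⟩
  obtain ⟨E₁, hE₁⟩ : ∃ E₁ : ℝ, E₁ = 4 * c.C * L * 2 ^ (j₁ + k₀ + 1) := ⟨_, rfl⟩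
  obtain ⟨E₂, hE₂⟩ : ∃ E₂ : ℝ, E₂ = C₂ * (2 * C₁ * G) := ⟨_, rfl⟩
  have hE₁0 : 0 < E₁ := by rw [hE₁]; positivity
  have hC₂0 : 0 < C₂ := by rw [hC₂]; positivity
  have hE₂0 : 0 < E₂ := by rw [hE₂]; positivity
  have t1 : 0 ≤ E₁ ^ (20 / 9 : ℝ) := by positivity
  have t2 : 0 ≤ E₂ ^ (20 / 9 : ℝ) := by positivity
  have t3 : 0 ≤ 2 * Cw * (4 * C₁ * G) ^ (20 / 9 : ℝ) := by positivity
  refine ⟨1 + E₁ ^ (20 / 9 : ℝ) + E₂ ^ (20 / 9 : ℝ) + 2 * Cw * (4 * C₁ * G) ^ (20 / 9 : ℝ), by linarith, ?_⟩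
  intro j N R M H y hGd hR hjN hH hFm hy
  have hH0 : 0 < H := by linarith
  have hHy : 0 ≤ (H / y) ^ (20 / 9 : ℝ) := by positivity
  have h2j : (1 : ℝ) ≤ 2 ^ j := one_le_pow₀ (by norm_num)
  -- no luck larger than the trivial bound
  by_cases hy4 : 4 * c.C * (L * 2 ^ j) < y
  · have h1 : M.P (Lk c (L * 2 ^ j) y) ≤ M.P fun _ => False := M.P_mono fun τ hτ h => by
      obtain ⟨u, v, hu, hv, huv⟩ := h
      have h2 := T_nonneg hτ ha.le u v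
      have h3 := (abs_le.1 (lv_le_nm c (v - u))).2
      have h4 : nm (v - u) ≤ 2 * (L * 2 ^ j) := by
        have := nm_add_le v (-u)
        rw [nm_neg, ← sub_eq_add_neg] at this
        linarith
      have h5 := mul_le_mul_of_nonneg_left h4 (by linarith : 0 ≤ 2 * c.C)
      linarith
    have h2 : M.P (fun _ => False) = 0 := by
      rw [M.P_def]
      simp only [if_false]
      exact M.E_const 0
    rw [h2] at h1
    exact h1.trans (by positivity)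
  have hy4 := not_lt.1 hy4
  -- small scales
  by_cases hj : j < j₁ + k₀ + 1
  · have h1 : y ≤ E₁ * H := by
      have h2 : (2 : ℝ) ^ j ≤ 2 ^ (j₁ + k₀ + 1) := pow_le_pow_right₀ (by norm_num) hj.le
      have h3 : 4 * c.C * (L * 2 ^ j) ≤ E₁ := by
        rw [hE₁]
        have := mul_le_mul_of_nonneg_left h2 (by positivity : 0 ≤ 4 * c.C * L)
        linarith
      have h4 : E₁ * 1 ≤ E₁ * H := mul_le_mul_of_nonneg_left hH hE₁0.le
      linarith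
    exact (M.P_le_one _).trans (P1L_one hE₁0 hH0 hy h1 (by linarith))
  have hj := not_lt.1 hj
  -- small lucks
  by_cases hyE : y ≤ E₂ * H
  · exact (M.P_le_one _).trans (P1L_one hE₂0 hH0 hy hyE (by linarith))
  have hyE := not_le.1 hyE
  obtain ⟨s, hs⟩ : ∃ s : ℝ, s = 2 ^ (j + k₀) := ⟨_, rfl⟩
  have hs' : s = 2 ^ j * 2 ^ k₀ := by rw [hs, pow_add]
  have hsbig : sw + so + 32 * c.C ≤ s := by
    rw [hs]
    exact hj₁.le.trans (pow_le_pow_right₀ (by norm_num) (by omega))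
  have hs1 : 1 ≤ s := by linarith
  have hs0 : 0 < s := by linarith
  have hsN : s ≤ 2 ^ N := by
    rw [hs]
    exact pow_le_pow_right₀ (by norm_num) (by omega)
  have hsR300 : s ^ 300 ≤ R := (pow_le_pow_left₀ hs0.le hsN 300).trans hR
  have hs2R : s ^ 3 ≤ R := (pow_le_pow_right₀ hs1 (by norm_num)).trans hsR300
  have hZs : 8 * c.C * (Z₀ * 2 ^ j) ≤ s := by
    rw [hs']
    have := mul_le_mul_of_nonneg_right hk₀.le (by positivity : (0 : ℝ) ≤ 2 ^ j)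
    linarith
  have hLs : 8 * c.C * (L * 2 ^ j) ≤ s := by
    refine le_trans ?_ hZs
    have := mul_le_mul_of_nonneg_right hLZ (by positivity : (0 : ℝ) ≤ 2 ^ j)
    exact mul_le_mul_of_nonneg_left this (by positivity)
  have hLs2 : 2 * (L * 2 ^ j) ≤ s := by
    have h1 : 2 * (L * 2 ^ j) ≤ 8 * c.C * (L * 2 ^ j) := mul_le_mul_of_nonneg_right (by linarith) (by positivity)
    linarith
  by_cases hys : s ^ (4 / 5 : ℝ) < y
  · -- very large lucks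
    have h1 : M.P (Lk c (L * 2 ^ j) y) ≤ M.P fun τ => ¬ Ov g (s ^ 2) s τ := M.P_mono fun τ _ h hO =>
      no_Lk_of_Ov hf.low hs1 hLs2 hO hys h
    have hs23 : 2 * s ^ 2 ≤ s ^ 3 := by
      have : 2 * s ^ 2 ≤ s * s ^ 2 := mul_le_mul_of_nonneg_right (by linarith) (by positivity)
      calc 2 * s ^ 2 ≤ s * s ^ 2 := this
        _ = s ^ 3 := by ring
    have hs13 : s ≤ s ^ 3 := le_self_pow₀ hs1 (by norm_num)
    have h2 := hov s R M (by linarith) (hs23.trans hs2R) (hs13.trans hs2R) hGd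
    have h3 : 1 / s ^ 3 ≤ (H / y) ^ (20 / 9 : ℝ) := by
      have h4 : 1 / s ≤ H / y := by
        rw [div_le_div_iff₀ hs0 hy]
        have : y ≤ s := by
          have h5 : 0 ≤ 4 * c.C * (L * 2 ^ j) := by positivity
          linarith
        have h6 : 1 * s ≤ H * s := mul_le_mul_of_nonneg_right hH hs0.le
        linarith
      calc 1 / s ^ 3 = (1 / s) ^ (3 : ℝ) := by
            rw [show (3 : ℝ) = ((3 : ℕ) : ℝ) by norm_num, Real.rpow_natCast, div_pow, one_pow]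
        _ ≤ (1 / s) ^ (20 / 9 : ℝ) := Real.rpow_le_rpow_of_exponent_ge (by positivity)
            (by rw [div_le_one hs0]; exact hs1) (by norm_num)
        _ ≤ (H / y) ^ (20 / 9 : ℝ) := Real.rpow_le_rpow (by positivity) h4 (by norm_num)
    have h4 : 1 * (H / y) ^ (20 / 9 : ℝ) ≤
        (1 + E₁ ^ (20 / 9 : ℝ) + E₂ ^ (20 / 9 : ℝ) + 2 * Cw * (4 * C₁ * G) ^ (20 / 9 : ℝ)) * (H / y) ^ (20 / 9 : ℝ) :=
      mul_le_mul_of_nonneg_right (by linarith) hHy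
    linarith
  have hys := not_lt.1 hys
  -- the main range
  obtain ⟨F, hF⟩ : ∃ F : ℝ, F = 2 * C₁ * G * H := ⟨_, rfl⟩
  have hF1 : 1 ≤ F := by
    have h1 : 1 * 1 ≤ C₁ * G := mul_le_mul hC₁ hG1 (by norm_num) (by linarith)
    have h2 : 1 * 1 ≤ C₁ * G * H := mul_le_mul (by linarith) hH (by norm_num) (by linarith)
    rw [hF]
    linarith
  have hF0 : 0 < F := by linarith
  have hFs : Fm M c 3 (2 * s) ≤ F := by
    have h1 := hFm (j + k₀ + 1) (by omega) (by omega)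
    have h2 : (2 : ℝ) * s = 2 ^ (j + k₀ + 1) := by rw [hs]; ring
    rw [h2]
    refine h1.trans ?_
    rw [show j + k₀ + 1 - j = k₀ + 1 by omega, pow_succ, ← hG, hF]
    have h3 := mul_le_mul_of_nonneg_left P1L_Ag2 (by positivity : 0 ≤ C₁ * G * H)
    linarith
  have h1 := lk_le (L := L * 2 ^ j) (Z := Z₀ * 2 ^ j) (y := y) (s := s) (F := F) hGd (le_of_eq (by rw [hZ₀]; ring))
    (mul_nonneg hZ₀0 (by positivity)) hZs (by linarith) ?_ hF0 hFs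
  swap
  · refine le_trans ?_ hs2R
    calc 10 * c.C * s ≤ s * s := mul_le_mul_of_nonneg_right (by linarith) hs0.le
      _ = s ^ 2 := by ring
      _ ≤ s ^ 3 := pow_le_pow_right₀ hs1 (by norm_num)
  have hyF : C₂ * F < y := by
    have : C₂ * F = E₂ * H := by rw [hF, hE₂]; ring
    linarith
  obtain ⟨y', hy'⟩ : ∃ y' : ℝ, y' = y - 2 * F - 4 * c.C := ⟨_, rfl⟩
  have hCF : c.C * 1 ≤ c.C * F := mul_le_mul_of_nonneg_left hF1 hC0.le
  have hC₂F : C₂ * F = 4 * F + 8 * (c.C * F) + 2 * (Cw * F) := by rw [hC₂]; ring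
  have hCwF : 0 ≤ Cw * F := by positivity
  have hy1 : y / 2 ≤ y' := by linarith
  have hy2 : Cw * F ≤ y' := by linarith
  have h2 := hwide s R M (by linarith) hsR300 hGd F hF1 ?_ s s (s / 4) 0 y' hs1 le_rfl le_rfl hy2 (by linarith)
  · rw [show 2 * F + 4 * c.C - y = -y' by rw [hy']; ring, ← hA] at h1
    have h3 : (F / y') ^ (20 / 9 : ℝ) ≤ (4 * C₁ * G) ^ (20 / 9 : ℝ) * (H / y) ^ (20 / 9 : ℝ) := by
      rw [← Real.mul_rpow (by positivity) (by positivity)]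
      refine Real.rpow_le_rpow (div_nonneg hF0.le (by linarith)) ?_ (by norm_num)
      have h4 : F / y' ≤ F / (y / 2) := div_le_div_of_nonneg_left hF0.le (by linarith) hy1
      refine h4.trans (le_of_eq ?_)
      rw [hF]
      field_simp
      ring
    have h4 : 2 * (Cw * (F / y') ^ (20 / 9 : ℝ)) ≤ 2 * (Cw * ((4 * C₁ * G) ^ (20 / 9 : ℝ) * (H / y) ^ (20 / 9 : ℝ))) :=
      mul_le_mul_of_nonneg_left (mul_le_mul_of_nonneg_left h3 (by linarith)) (by norm_num)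
    have h5 : 2 * (Cw * ((4 * C₁ * G) ^ (20 / 9 : ℝ) * (H / y) ^ (20 / 9 : ℝ))) =
        2 * Cw * (4 * C₁ * G) ^ (20 / 9 : ℝ) * (H / y) ^ (20 / 9 : ℝ) := by ring
    have h6 : 2 * Cw * (4 * C₁ * G) ^ (20 / 9 : ℝ) * (H / y) ^ (20 / 9 : ℝ) ≤
        (1 + E₁ ^ (20 / 9 : ℝ) + E₂ ^ (20 / 9 : ℝ) + 2 * Cw * (4 * C₁ * G) ^ (20 / 9 : ℝ)) * (H / y) ^ (20 / 9 : ℝ) :=
      mul_le_mul_of_nonneg_right (by linarith) hHy
    linarith
  · -- the growth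
    intro n hn1 hn2
    have hn : 1 ≤ n := hs1.trans hn1
    obtain ⟨k, hk1, hk2⟩ := exists_nat_pow_near hn (one_lt_two : (1 : ℝ) < 2)
    have hk3 : j + k₀ < k + 1 := by
      by_contra hcon
      have : (2 : ℝ) ^ (k + 1) ≤ 2 ^ (j + k₀) := pow_le_pow_right₀ (by norm_num) (not_lt.1 hcon)
      linarith
    have hk4 : k ≤ 2 * (j + k₀) := by
      by_contra hcon
      have h3 : (2 : ℝ) ^ (2 * (j + k₀)) < 2 ^ k := pow_lt_pow_right₀ (by norm_num) (not_le.1 hcon)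
      have h4 : (2 : ℝ) ^ (2 * (j + k₀)) = s ^ 2 := by rw [hs, ← pow_mul, mul_comm]
      linarith
    have h3 : Fm M c 3 n ≤ Fm M c 3 (2 ^ (k + 1)) := Fm_mono M c (by norm_num) hk2.le
    have h4 := hFm (k + 1) (by omega) (by omega)
    have h5 : Ag ^ (k + 1 - j) = G * Ag ^ (k + 1 - (j + k₀)) := by
      rw [hG, ← pow_add]
      congr 1
      omega
    have h6 : Ag ^ (k + 1 - (j + k₀)) ≤ 2 * (n / s) ^ (9 / 10 : ℝ) := by
      rw [P1L_Ag]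
      have h7 : (2 : ℝ) ^ (k + 1 - (j + k₀)) ≤ 2 * (n / s) := by
        have h8 : (2 : ℝ) ^ (k + 1 - (j + k₀)) * s = 2 ^ (k + 1) := by
          rw [hs, ← pow_add]
          congr 1
          omega
        rw [← mul_div_assoc, le_div_iff₀ hs0, h8, pow_succ]
        linarith
      calc ((2 : ℝ) ^ (k + 1 - (j + k₀))) ^ (9 / 10 : ℝ) ≤ (2 * (n / s)) ^ (9 / 10 : ℝ) :=
            Real.rpow_le_rpow (by positivity) h7 (by norm_num)
        _ = 2 ^ (9 / 10 : ℝ) * (n / s) ^ (9 / 10 : ℝ) := Real.mul_rpow (by norm_num) (by positivity)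
        _ ≤ 2 * (n / s) ^ (9 / 10 : ℝ) := mul_le_mul_of_nonneg_right P1L_Ag2 (by positivity)
    have h7 : C₁ * (G * Ag ^ (k + 1 - (j + k₀)) * H) ≤ C₁ * (G * (2 * (n / s) ^ (9 / 10 : ℝ)) * H) :=
      mul_le_mul_of_nonneg_left (mul_le_mul_of_nonneg_right (mul_le_mul_of_nonneg_left h6 (by linarith)) hH0.le) (by linarith)
    rw [h5] at h4
    refine h3.trans (h4.trans (h7.trans (le_of_eq ?_)))
    rw [hF]
    ring

/-- The tail of the luck of a box in terms of the signed mean excess (`P1_mean` at `D = 3` and `1 ≤ xs` as hypotheses). -/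
theorem P1_luck' (hg : IsMean Q g) (hf : FlatS g c) {e L : ℝ} (hL : 1 ≤ L)
    (hxs : ∀ (N : ℕ) (R : ℝ) (M : Mdl Q.a Q.b), Hor Q g N R M → ∀ j, 1 ≤ xs M c e j)
    (hmean : ∃ C : ℝ, 1 ≤ C ∧ ∀ (N : ℕ) (R : ℝ) (M : Mdl Q.a Q.b) (j : ℕ) (H : ℝ), Hor Q g N R M → 4 * j ≤ N →
      MH Ag N (xs M c e) j H → Fm M c 3 (2 ^ j) ≤ C * H) :
    ∃ C : ℝ, 1 ≤ C ∧ ∀ (N : ℕ) (R : ℝ) (M : Mdl Q.a Q.b) (j : ℕ) (H y : ℝ), Hor Q g N R M → 16 * j ≤ N →
      MH Ag N (xs M c e) j H → 0 < y → M.P (Lk c (L * 2 ^ j) y) ≤ C * (H / y) ^ (20 / 9 : ℝ) := by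
  obtain ⟨C₁, hC₁, hm⟩ := hmean
  obtain ⟨C, hC, hbox⟩ := luck_box hg hf hL hC₁
  refine ⟨C, hC, fun N R M j H y hH hj hMH hy => hbox j N R M H y hH.1 hH.2 hj ?_ (fun m hjm hmN => ?_) hy⟩
  · have h1 := hMH j le_rfl (by omega)
    rw [Nat.sub_self, pow_zero, one_mul] at h1
    exact (hxs N R M hH j).trans h1
  · refine hm N R M m (Ag ^ (m - j) * H) hH hmN fun m' h1 h2 => ?_
    have h3 := hMH m' (hjm.trans h1) h2
    rw [← mul_assoc, ← pow_add, show m' - m + (m - j) = m' - j by omega]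
    exact h3

end

end Pool.Agent.W_1b8d5d_sc
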