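import Pool.Agent.W_1b8d5d_sc.TDefs
import Pool.Agent.W_1b8d5d_fe.Geo

/-!
MP_1b8d5d_pr (SC, part P1): the signed mean excess of every middle vector is bounded by the excess of the vectors of the two
thin cones.
-/

set_option autoImplicit false

namespace Pool.Agent.W_1b8d5d_sc

open Finset Pool.Agent.W_1b8d5d_h85 Pool.Agent.W_1b8d5d_fe

variable {Q : Par} {g : V → ℝ} {R : ℝ} {M : Mdl Q.a Q.b}

theorem Dec_swp (M : Mdl Q.a Q.b) (c : Crd) (y : V) : Sg M (swp c) y = Sg M c y := by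
  unfold Sg
  refine M.E_congr fun τ _ => ?_
  rw [Tc_swp, lv_swp]

/-- The signed mean excess is subadditive in the wide cone. -/
theorem Sg_add_le (h : Good Q g R M) (c : Crd) {x y : V} (hx : x ∈ Wc c) (hy : y ∈ Wc c) :
    Sg M c (x + y) ≤ Sg M c x + Sg M c y := by
  have h1 := E_Tc h c (fun t => t - lv c y) x (x + y)
  simp only [add_sub_cancel_left] at h1
  have h2 : Sg M c (x + y) ≤ M.E fun τ => (Tc Q.b c τ 0 x - lv c x) + (Tc Q.b c τ x (x + y) - lv c y) := by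
    refine M.E_mono fun τ hτ => ?_
    have h3 := Tc_triangle Q.ha.le Q.hab.le hτ (c := c) (x := 0) (y := x + y) (z := x) (by rwa [sub_zero])
      (by rwa [add_sub_cancel_left])
    rw [lv_add]
    linarith
  rw [M.E_add, h1] at h2
  exact h2

/-- The crude bound. -/
theorem Sg_crude (M : Mdl Q.a Q.b) (c : Crd) {y : V} (hy : 0 ≤ lv c y) : Sg M c y ≤ Q.b * nm y := by
  refine M.E_le_of_le fun τ hτ => ?_
  have h1 := Tc_upper Q.ha.le Q.hab.le hτ c 0 y
  rw [sub_zero] at h1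
  linarith

/-- A vector near the first end. -/
private theorem Dec_A (h : Good Q g R M) (c : Crd) {e : ℝ} (he : 0 < e) (he1 : e ≤ 1 / 3) {n B : ℝ}
    (hK : ∀ z, z ∈ KD c e → lv c z ≤ n → Sg M c z ≤ B) {y : V} (hy : 200 * c.C ≤ e * lv c y) (hn : lv c y ≤ n)
    (h1 : e / 2 * lv c y - 7 * c.C ≤ c.q y) (h2 : c.q y ≤ 3 * e / 4 * lv c y + 10 * c.C) :
    Sg M c y ≤ B + Q.b * (c.C * (52 * c.C)) := by
  have hC := c.one_le
  have hb : 0 < Q.b := Q.ha.trans Q.hab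
  obtain ⟨w, hw⟩ : ∃ w : V, w = c.rd (40 * c.C) (-(10 * c.C)) := ⟨_, rfl⟩
  have hp := abs_le.1 (c.rd_p (40 * c.C) (-(10 * c.C)))
  have hq := abs_le.1 (c.rd_q (40 * c.C) (-(10 * c.C)))
  rw [← hw] at hp hq
  obtain ⟨P, hP⟩ : ∃ P : ℝ, P = c.p w := ⟨_, rfl⟩
  obtain ⟨S, hS⟩ : ∃ S : ℝ, S = c.q w := ⟨_, rfl⟩
  rw [← hP] at hp
  rw [← hS] at hq
  have hlw : lv c w = P + S := by unfold lv; rw [hP, hS]
  have hL : 600 * c.C ≤ lv c y := by
    by_contra hcon
    push Not at hcon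
    have h3 := mul_lt_mul_of_pos_left hcon he
    have h4 : e * (600 * c.C) ≤ 1 / 3 * (600 * c.C) := mul_le_mul_of_nonneg_right he1 (by linarith)
    linarith
  have hly : lv c (y - w) = lv c y - (P + S) := by rw [lv_sub, hlw]
  have hqy : c.q (y - w) = c.q y - S := by rw [map_sub, hS]
  have hpy : c.p (y - w) = lv c (y - w) - c.q (y - w) := by unfold lv; ring
  have hws : w ∈ Wc c := by
    show 0 ≤ 2 * c.p w + c.q w ∧ 0 ≤ c.p w + 2 * c.q w
    rw [← hP, ← hS]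
    constructor <;> linarith [hp.1, hq.1]
  have e0 : 0 ≤ lv c (y - w) := by rw [hly]; linarith [hp.2, hq.2]
  have e1 : e / 2 * lv c (y - w) ≤ c.q (y - w) := by
    rw [hly, hqy]
    have h3 : 0 ≤ e / 2 * (P + S) := mul_nonneg (by linarith) (by linarith [hp.1, hq.1])
    linarith [hq.2]
  have e2 : c.q (y - w) ≤ e * lv c (y - w) + 4 * c.C := by
    rw [hly, hqy]
    have h3 : e * (P + S) ≤ 1 / 3 * (32 * c.C) :=
      mul_le_mul he1 (by linarith [hp.2, hq.2]) (by linarith [hp.1, hq.1]) (by norm_num)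
    linarith [hq.1]
  have e3 : 0 ≤ c.q (y - w) := (mul_nonneg (by linarith) e0).trans e1
  have hyw : y - w ∈ Wc c := by
    show 0 ≤ 2 * c.p (y - w) + c.q (y - w) ∧ 0 ≤ c.p (y - w) + 2 * c.q (y - w)
    rw [hpy]
    have h3 : e * lv c (y - w) ≤ 1 / 3 * lv c (y - w) := mul_le_mul_of_nonneg_right he1 e0
    have h4 : 4 * c.C ≤ lv c (y - w) := by rw [hly]; linarith [hp.2, hq.2]
    constructor <;> linarith
  have k1 := Sg_add_le h c hyw hws
  rw [sub_add_cancel] at k1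
  have k2 := hK (y - w) ⟨e0, by linarith, e2⟩ (by rw [hly]; linarith [hp.1, hq.1])
  have k3 := Sg_crude M c (y := w) (by rw [hlw]; linarith [hp.1, hq.1])
  have k4 : nm w ≤ c.C * (52 * c.C) := by
    refine (c.nm_le w).trans (mul_le_mul_of_nonneg_left ?_ (by linarith))
    rw [← hP, ← hS]
    have h3 : |P| ≤ 41 * c.C := abs_le.2 ⟨by linarith [hp.1], by linarith [hp.2]⟩
    have h4 : |S| ≤ 11 * c.C := abs_le.2 ⟨by linarith [hq.1], by linarith [hq.2]⟩
    linarith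
  have k5 := mul_le_mul_of_nonneg_left k4 hb.le
  linarith

/-- A vector in the middle is the sum of two vectors of the thin cones. -/
private theorem Dec_C (h : Good Q g R M) (c : Crd) {e : ℝ} (he : 0 < e) (he1 : e ≤ 1 / 3) {n B : ℝ}
    (hK : ∀ z, (z ∈ KD c e ∨ z ∈ KD (swp c) e) → lv c z ≤ n → Sg M c z ≤ B) {y : V} (hn : lv c y ≤ n)
    (h1 : 3 * e / 4 * lv c y + 10 * c.C ≤ c.q y) (h2 : 3 * e / 4 * lv c y + 10 * c.C ≤ c.p y) :
    Sg M c y ≤ 2 * B := by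
  have hC := c.one_le
  have hd : 0 < 1 - 3 * e / 2 := by linarith
  obtain ⟨s, hs⟩ : ∃ s : ℝ, s = (c.p y - 3 * e / 4 * lv c y) / (1 - 3 * e / 2) := ⟨_, rfl⟩
  obtain ⟨t, ht⟩ : ∃ t : ℝ, t = (c.q y - 3 * e / 4 * lv c y) / (1 - 3 * e / 2) := ⟨_, rfl⟩
  have hs1 : s * (1 - 3 * e / 2) = c.p y - 3 * e / 4 * lv c y := by rw [hs, div_mul_cancel₀ _ hd.ne']
  have ht1 : t * (1 - 3 * e / 2) = c.q y - 3 * e / 4 * lv c y := by rw [ht, div_mul_cancel₀ _ hd.ne']
  have hly : lv c y = c.p y + c.q y := rfl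
  have hst : s + t = lv c y := by
    have h3 : (s + t - lv c y) * (1 - 3 * e / 2) = 0 := by linarith
    rcases mul_eq_zero.1 h3 with h4 | h4
    · linarith
    · exact absurd h4 hd.ne'
  have hs2 : 10 * c.C ≤ s := by
    rw [hs, le_div_iff₀ hd]
    nlinarith
  have ht2 : 10 * c.C ≤ t := by
    rw [ht, le_div_iff₀ hd]
    nlinarith
  have hpy : c.p y = (1 - 3 * e / 4) * s + 3 * e / 4 * t := by
    have h3 : 3 * e / 4 * lv c y = 3 * e / 4 * s + 3 * e / 4 * t := by rw [← hst]; ring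
    linarith
  have hqy : c.q y = 3 * e / 4 * s + (1 - 3 * e / 4) * t := by
    have h3 : 3 * e / 4 * lv c y = 3 * e / 4 * s + 3 * e / 4 * t := by rw [← hst]; ring
    linarith
  obtain ⟨z, hz⟩ : ∃ z : V, z = c.rd ((1 - 3 * e / 4) * s) (3 * e / 4 * s) := ⟨_, rfl⟩
  have hp := abs_le.1 (c.rd_p ((1 - 3 * e / 4) * s) (3 * e / 4 * s))
  have hq := abs_le.1 (c.rd_q ((1 - 3 * e / 4) * s) (3 * e / 4 * s))
  rw [← hz] at hp hq
  have hes : 0 ≤ e * s := mul_nonneg he.le (by linarith)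
  have het : 0 ≤ e * t := mul_nonneg he.le (by linarith)
  have heC : e * c.C ≤ 1 / 3 * c.C := mul_le_mul_of_nonneg_right he1 (by linarith)
  have heC0 : 0 ≤ e * c.C := mul_nonneg he.le (by linarith)
  have hes3 : e * s ≤ 1 / 3 * s := mul_le_mul_of_nonneg_right he1 (by linarith)
  have het3 : e * t ≤ 1 / 3 * t := mul_le_mul_of_nonneg_right he1 (by linarith)
  obtain ⟨P, hP⟩ : ∃ P : ℝ, P = c.p z := ⟨_, rfl⟩
  obtain ⟨S, hS⟩ : ∃ S : ℝ, S = c.q z := ⟨_, rfl⟩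
  rw [← hP] at hp
  rw [← hS] at hq
  have hlz : lv c z = P + S := by unfold lv; rw [hP, hS]
  have hlyz : lv c (y - z) = s + t - (P + S) := by rw [lv_sub, hlz, hst]
  have hpyz : c.p (y - z) = (1 - 3 * e / 4) * s + 3 * e / 4 * t - P := by rw [map_sub, hpy, hP]
  have hqyz : c.q (y - z) = 3 * e / 4 * s + (1 - 3 * e / 4) * t - S := by rw [map_sub, hqy, hS]
  have b1 : |P + S - s| ≤ 2 * c.C := abs_le.2 ⟨by linarith [hp.1, hq.1], by linarith [hp.2, hq.2]⟩
  obtain ⟨b2, b3⟩ := abs_le.1 b1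
  have b4 : e * (P + S) ≤ e * (s + 2 * c.C) := mul_le_mul_of_nonneg_left (by linarith) he.le
  have b5 : e * (s - 2 * c.C) ≤ e * (P + S) := mul_le_mul_of_nonneg_left (by linarith) he.le
  have hzW : z ∈ Wc c := by
    show 0 ≤ 2 * c.p z + c.q z ∧ 0 ≤ c.p z + 2 * c.q z
    rw [← hP, ← hS]
    constructor <;> linarith [hp.1, hq.1]
  have hyzW : y - z ∈ Wc c := by
    show 0 ≤ 2 * c.p (y - z) + c.q (y - z) ∧ 0 ≤ c.p (y - z) + 2 * c.q (y - z)
    rw [hpyz, hqyz]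
    constructor <;> linarith [hp.2, hq.2]
  have hzK : z ∈ KD c e := by
    show 0 ≤ lv c z ∧ e / 2 * lv c z - 4 * c.C ≤ c.q z ∧ c.q z ≤ e * lv c z + 4 * c.C
    rw [hlz, ← hS]
    refine ⟨by linarith, by linarith [hq.1], by linarith [hq.2]⟩
  have b6 : e * (s + t - (P + S)) ≤ e * (t + 2 * c.C) := mul_le_mul_of_nonneg_left (by linarith) he.le
  have b7 : e * (t - 2 * c.C) ≤ e * (s + t - (P + S)) := mul_le_mul_of_nonneg_left (by linarith) he.le
  have hyzK : y - z ∈ KD (swp c) e := by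
    show 0 ≤ lv (swp c) (y - z) ∧ e / 2 * lv (swp c) (y - z) - 4 * c.C ≤ c.p (y - z) ∧
      c.p (y - z) ≤ e * lv (swp c) (y - z) + 4 * c.C
    rw [lv_swp, hlyz, hpyz]
    refine ⟨by linarith, by linarith [hp.2], by linarith [hp.1]⟩
  have k1 := Sg_add_le h c hzW hyzW
  rw [add_sub_cancel] at k1
  have k2 := hK z (Or.inl hzK) (by rw [hlz]; linarith)
  have k3 := hK (y - z) (Or.inr hyzK) (by rw [hlyz]; linarith)
  linarith

/-- **Every middle vector.** -/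
theorem Sg_Md_le (Q : Par) (g : V → ℝ) (c : Crd) {e D : ℝ} (he : 0 < e) (he1 : e ≤ 1 / 3) (hD : 3 ≤ D) (hDe : D * e ≤ 2) :
    ∃ C₀ : ℝ, 1 ≤ C₀ ∧ ∀ (R : ℝ) (M : Mdl Q.a Q.b), Good Q g R M → ∀ (n B : ℝ) (y : V), 0 ≤ B →
      (∀ z, (z ∈ KD c e ∨ z ∈ KD (swp c) e) → lv c z ≤ n → Sg M c z ≤ B) → y ∈ Md c D → 0 ≤ lv c y → lv c y ≤ n →
      Sg M c y ≤ 2 * B + C₀ := by
  have hC := c.one_le
  have hb : 0 < Q.b := Q.ha.trans Q.hab
  refine ⟨1 + Q.b * (c.C * (52 * c.C)) + Q.b * (c.C * (2 * (200 * c.C / e + 7 * c.C))), ?_, ?_⟩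
  · have h1 : 0 ≤ Q.b * (c.C * (52 * c.C)) := by positivity
    have h2 : 0 ≤ Q.b * (c.C * (2 * (200 * c.C / e + 7 * c.C))) := by positivity
    linarith
  intro R M h n B y hB hK hy hy0 hn
  have h1 : 0 ≤ Q.b * (c.C * (52 * c.C)) := by positivity
  have h2 : 0 ≤ Q.b * (c.C * (2 * (200 * c.C / e + 7 * c.C))) := by positivity
  obtain ⟨hy1, hy2⟩ := hy
  have hD0 : 0 < D := by linarith
  -- the coordinates are large
  have key : ∀ t : ℝ, lv c y ≤ D * t + (4 * D + 8) * c.C → e / 2 * lv c y - 7 * c.C ≤ t := by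
    intro t ht
    by_contra hcon
    push Not at hcon
    have h3 := mul_lt_mul_of_pos_left hcon hD0
    have h4 : D * e * lv c y ≤ 2 * lv c y := mul_le_mul_of_nonneg_right hDe hy0
    have h5 : 3 * c.C ≤ D * c.C := mul_le_mul_of_nonneg_right hD (by linarith)
    nlinarith
  have hp := key _ hy1
  have hq := key _ hy2
  rcases lt_or_ge (e * lv c y) (200 * c.C) with h3 | h3
  · -- small levels
    have h4 : lv c y ≤ 200 * c.C / e := by
      rw [le_div_iff₀ he]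
      linarith
    have h5 : 0 ≤ e / 2 * lv c y := mul_nonneg (by linarith) hy0
    have hly : lv c y = c.p y + c.q y := rfl
    have h6 : nm y ≤ c.C * (2 * (200 * c.C / e + 7 * c.C)) := by
      refine (c.nm_le y).trans (mul_le_mul_of_nonneg_left ?_ (by linarith))
      have h7 : |c.p y| ≤ 200 * c.C / e + 7 * c.C := abs_le.2 ⟨by linarith, by linarith⟩
      have h8 : |c.q y| ≤ 200 * c.C / e + 7 * c.C := abs_le.2 ⟨by linarith, by linarith⟩
      linarith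
    have h7 := Sg_crude M c hy0
    have h8 := mul_le_mul_of_nonneg_left h6 hb.le
    linarith
  rcases le_total (c.q y) (3 * e / 4 * lv c y + 10 * c.C) with h4 | h4
  · have h5 := Dec_A h c he he1 (fun z hz hz' => hK z (Or.inl hz) hz') h3 hn hq h4
    linarith
  rcases le_total (c.p y) (3 * e / 4 * lv c y + 10 * c.C) with h5 | h5
  · have h6 := Dec_A h (swp c) he he1 (n := n) (B := B) (fun z hz hz' => by
      rw [Dec_swp]
      exact hK z (Or.inr hz) (by rwa [lv_swp] at hz')) (y := y) (by rw [lv_swp]; exact h3) (by rw [lv_swp]; exact hn)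
      (by rw [lv_swp]; exact hp) (by rw [lv_swp]; exact h5)
    rw [Dec_swp] at h6
    have h7 : Q.b * ((swp c).C * (52 * (swp c).C)) = Q.b * (c.C * (52 * c.C)) := rfl
    rw [h7] at h6
    linarith
  · have h6 := Dec_C h c he he1 hK hn h4 h5
    linarith

end Pool.Agent.W_1b8d5d_sc
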