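import Pool.Agent.W_1b8d5d_sc.XsB
import Pool.Agent.W_1b8d5d_sc.Dec

/-!
MP_1b8d5d_pr (SC, part P1): the mean positive excess in the middle directions, from the lower tail.
-/

set_option autoImplicit false

namespace Pool.Agent.W_1b8d5d_sc

open Finset Pool.Agent.W_1b8d5d_h85 Pool.Agent.W_1b8d5d_fe

/-- The ratio of the layers. -/
private theorem P1Mean_r : 0 < (2 : ℝ) ^ (-(1 / 9) : ℝ) ∧ (2 : ℝ) ^ (-(1 / 9) : ℝ) ≤ 14 / 15 := by
  have h0 : 0 < (2 : ℝ) ^ (-(1 / 9) : ℝ) := Real.rpow_pos_of_pos (by norm_num) _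
  refine ⟨h0, ?_⟩
  by_contra hcon
  push Not at hcon
  have h1 : ((2 : ℝ) ^ (-(1 / 9) : ℝ)) ^ 9 = 1 / 2 := by
    rw [← Real.rpow_natCast, ← Real.rpow_mul (by norm_num)]
    norm_num
  have h2 : (14 / 15 : ℝ) ^ 9 < ((2 : ℝ) ^ (-(1 / 9) : ℝ)) ^ 9 := pow_lt_pow_left₀ hcon (by norm_num) (by norm_num)
  rw [h1] at h2
  norm_num at h2

private theorem P1Mean_layer {h : ℝ} (hh : 0 < h) (i : ℕ) :
    (2 : ℝ) ^ (i + 1) * h * (h / (2 ^ i * h)) ^ (10 / 9 : ℝ) = 2 * h * ((2 : ℝ) ^ (-(1 / 9) : ℝ)) ^ i := by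
  have h1 : h / (2 ^ i * h) = ((2 : ℝ) ^ (i : ℝ))⁻¹ := by
    rw [Real.rpow_natCast]
    field_simp
  have h2 : (((2 : ℝ) ^ (i : ℝ))⁻¹) ^ (10 / 9 : ℝ) = (2 : ℝ) ^ (-(i : ℝ) * (10 / 9)) := by
    rw [← Real.rpow_neg (by norm_num), ← Real.rpow_mul (by norm_num)]
  have h3 : ((2 : ℝ) ^ (-(1 / 9) : ℝ)) ^ i = (2 : ℝ) ^ (-(1 / 9) * (i : ℝ) : ℝ) := by
    rw [← Real.rpow_natCast, ← Real.rpow_mul (by norm_num)]
  have h4 : (2 : ℝ) ^ (i + 1) = 2 * (2 : ℝ) ^ (i : ℝ) := by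
    rw [Real.rpow_natCast, pow_succ]
    ring
  rw [h1, h2, h3, h4]
  have h5 : (2 : ℝ) ^ (i : ℝ) * (2 : ℝ) ^ (-(i : ℝ) * (10 / 9)) = (2 : ℝ) ^ (-(1 / 9) * (i : ℝ) : ℝ) := by
    rw [← Real.rpow_add (by norm_num)]
    congr 1
    ring
  calc 2 * (2 : ℝ) ^ (i : ℝ) * h * (2 : ℝ) ^ (-(i : ℝ) * (10 / 9)) =
      2 * h * ((2 : ℝ) ^ (i : ℝ) * (2 : ℝ) ^ (-(i : ℝ) * (10 / 9))) := by ring
    _ = _ := by rw [h5]

open Classical in
private theorem P1Mean_pt {h x : ℝ} (hh : 0 < h) (n : ℕ) (hx : x < 2 ^ n * h) :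
    x ≤ h + ∑ i ∈ range n, (2 : ℝ) ^ (i + 1) * h * (if 2 ^ i * h ≤ x then (1 : ℝ) else 0) := by
  induction n with
  | zero =>
    rw [pow_zero, one_mul] at hx
    rw [range_zero, sum_empty, add_zero]
    exact hx.le
  | succ n ih =>
    rw [sum_range_succ]
    have hpos : ∀ i : ℕ, 0 ≤ (2 : ℝ) ^ (i + 1) * h * (if 2 ^ i * h ≤ x then (1 : ℝ) else 0) := by
      intro i
      refine mul_nonneg (by positivity) ?_
      split_ifs <;> norm_num
    by_cases h1 : 2 ^ n * h ≤ x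
    · have h2 : 0 ≤ ∑ i ∈ range n, (2 : ℝ) ^ (i + 1) * h * (if 2 ^ i * h ≤ x then (1 : ℝ) else 0) :=
        sum_nonneg fun i _ => hpos i
      rw [if_pos h1, mul_one]
      linarith
    · push Not at h1
      have h2 := ih h1
      have h3 := hpos n
      linarith

/-- Layer cake with a tail of exponent `10 / 9`. -/
theorem layer_cake {a b : ℝ} (M : Mdl a b) {F : Env → ℝ} {U h : ℝ} (hU : ∀ τ, Bd a b τ → F τ ≤ U) (hh : 0 < h)
    (ht : ∀ t, h ≤ t → M.P (fun τ => t ≤ F τ) ≤ (h / t) ^ (10 / 9 : ℝ)) : M.E F ≤ 31 * h := by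
  classical
  obtain ⟨n, hn⟩ := pow_unbounded_of_one_lt (U / h) (by norm_num : (1 : ℝ) < 2)
  rw [div_lt_iff₀ hh] at hn
  have h1 : M.E F ≤ M.E (fun τ => h + ∑ i ∈ range n, (2 : ℝ) ^ (i + 1) * h * (if 2 ^ i * h ≤ F τ then (1 : ℝ) else 0)) :=
    M.E_mono fun τ hτ => P1Mean_pt hh n ((hU τ hτ).trans_lt hn)
  rw [M.E_add, M.E_const, M.E_sum] at h1
  have h2 : ∑ i ∈ range n, M.E (fun τ => (2 : ℝ) ^ (i + 1) * h * (if 2 ^ i * h ≤ F τ then (1 : ℝ) else 0)) ≤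
      ∑ i ∈ range n, 2 * h * ((2 : ℝ) ^ (-(1 / 9) : ℝ)) ^ i := by
    refine sum_le_sum fun i _ => ?_
    rw [M.E_mul_left, ← P1Mean_layer hh i]
    have h3 := ht (2 ^ i * h) (le_mul_of_one_le_left hh.le (one_le_pow₀ (by norm_num)))
    rw [M.P_def] at h3
    refine mul_le_mul_of_nonneg_left ?_ (by positivity)
    refine le_trans (le_of_eq ?_) h3
    refine M.E_congr fun τ _ => ?_
    congr
  rw [← mul_sum] at h2
  obtain ⟨hr0, hr1⟩ := P1Mean_r
  have h3 : ∑ i ∈ range n, ((2 : ℝ) ^ (-(1 / 9) : ℝ)) ^ i ≤ 15 := by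
    have h4 := mul_neg_geom_sum ((2 : ℝ) ^ (-(1 / 9) : ℝ)) n
    have h5 : 0 ≤ ((2 : ℝ) ^ (-(1 / 9) : ℝ)) ^ n := by positivity
    have h6 : 0 ≤ ∑ i ∈ range n, ((2 : ℝ) ^ (-(1 / 9) : ℝ)) ^ i := sum_nonneg fun i _ => by positivity
    nlinarith
  have h4 := mul_le_mul_of_nonneg_left h3 (by positivity : (0 : ℝ) ≤ 2 * h)
  linarith

/-- **(P1) The mean positive excess in the middle directions**, from the lower tail. -/
theorem P1_mean' {Q : Par} {g : V → ℝ} {c : Crd} {e D : ℝ} (he : 0 < e) (he1 : e ≤ 1 / 3) (hD : 3 ≤ D)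
    (hDe : D * e ≤ 2)
    (htail : ∃ C₁ : ℝ, 1 ≤ C₁ ∧ ∃ j₁ : ℕ, ∀ (N : ℕ) (R : ℝ) (M : Mdl Q.a Q.b) (j : ℕ) (H : ℝ) (y : V) (t : ℝ), Hor Q g N R M →
      4 * j ≤ N → j₁ ≤ j → MH Ag N (xs M c e) j H → y ∈ Md c D → 0 ≤ lv c y → lv c y ≤ 2 ^ j → C₁ * H ≤ t →
      M.P (fun τ => Tc Q.b c τ 0 y - lv c y ≤ -t) ≤ (C₁ * H / t) ^ (10 / 9 : ℝ)) :
    ∃ C : ℝ, 1 ≤ C ∧ ∀ (N : ℕ) (R : ℝ) (M : Mdl Q.a Q.b) (j : ℕ) (H : ℝ), Hor Q g N R M → 4 * j ≤ N → MH Ag N (xs M c e) j H →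
      Fm M c D (2 ^ j) ≤ C * H := by
  obtain ⟨C₁, hC₁, j₁, htail⟩ := htail
  obtain ⟨C₀, hC₀, hdec⟩ := Sg_Md_le Q g c he he1 hD hDe
  have hC := c.one_le
  have ha := Q.ha
  have hab := Q.hab
  have hb : 0 < Q.b := ha.trans hab
  have hD0 : 0 < D := by linarith
  set A : ℝ := Q.b * (c.C * (2 * (2 ^ j₁ + 7 * c.C))) with hA
  have hA0 : 0 ≤ A := by positivity
  refine ⟨1 + (2 + C₀ + 31 * C₁) + A, by linarith, ?_⟩
  intro N R M j H hH hjN hMH
  have hx : xs M c e j ≤ H := by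
    have h1 := hMH j le_rfl (by omega)
    rwa [Nat.sub_self, pow_zero, one_mul] at h1
  have hx1 : 1 ≤ xs M c e j := Mg_one_le ha.le hab.le he he1 _
  have hH1 : 1 ≤ H := hx1.trans hx
  have hH0 : 0 < H := by linarith
  have hmul : ∀ x : ℝ, 0 ≤ x → x ≤ x * H := fun x hx0 => le_mul_of_one_le_right hx0 hH1
  rcases lt_or_ge j j₁ with hj | hj
  · -- small scales
    have h1 : Fm M c D (2 ^ j) ≤ 1 + A := by
      refine Fm_le M c hA0 fun y hy hy0 hyn => ?_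
      have h2 : Sc M c y ≤ Q.b * nm y := by
        refine M.E_le_of_le fun τ hτ => max_le ?_ (mul_nonneg hb.le (nm_nonneg y))
        have h3 := Tc_upper ha.le hab.le hτ c 0 y
        rw [sub_zero] at h3
        linarith
      have h3 : nm y ≤ c.C * (2 * (2 ^ j₁ + 7 * c.C)) := by
        refine (c.nm_le y).trans (mul_le_mul_of_nonneg_left ?_ (by linarith))
        have hly : lv c y = c.p y + c.q y := rfl
        have h4 : (2 : ℝ) ^ j ≤ 2 ^ j₁ := pow_le_pow_right₀ (by norm_num) hj.le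
        obtain ⟨hy1, hy2⟩ := hy
        have key : ∀ t : ℝ, lv c y ≤ D * t + (4 * D + 8) * c.C → -(7 * c.C) ≤ t := by
          intro t ht
          by_contra hcon
          push Not at hcon
          have h5 := mul_lt_mul_of_pos_left hcon hD0
          have h6 : 3 * c.C ≤ D * c.C := mul_le_mul_of_nonneg_right hD (by linarith)
          nlinarith
        have hp := key _ hy1
        have hq := key _ hy2
        have h7 : |c.p y| ≤ 2 ^ j₁ + 7 * c.C := abs_le.2 ⟨by linarith, by linarith⟩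
        have h8 : |c.q y| ≤ 2 ^ j₁ + 7 * c.C := abs_le.2 ⟨by linarith, by linarith⟩
        linarith
      exact h2.trans (mul_le_mul_of_nonneg_left h3 hb.le)
    have h2 := hmul (1 + (2 + C₀ + 31 * C₁) + A) (by linarith)
    linarith
  · have h1 : Fm M c D (2 ^ j) ≤ 1 + (2 + C₀ + 31 * C₁) * H := by
      refine Fm_le M c (by positivity) fun y hy hy0 hyn => ?_
      -- the signed mean
      have h2 : Sg M c y ≤ 2 * (xs M c e j - 1) + C₀ :=
        hdec R M hH.1 (2 ^ j) (xs M c e j - 1) y (by linarith) (fun z hz hzn => Sg_le he he1 hz hzn) hy hy0 hyn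
      -- the negative part
      have h3 : M.E (fun τ => max (-(Tc Q.b c τ 0 y - lv c y)) 0) ≤ 31 * (C₁ * H) := by
        refine layer_cake M (U := 2 ^ j) (fun τ hτ => ?_) (by positivity) fun t ht => ?_
        · refine max_le ?_ (by positivity)
          have h4 := Tc_nonneg ha.le hab.le hτ c 0 y
          linarith
        · refine le_trans (M.P_mono fun τ _ hτ => ?_) (htail N R M j H y t hH hjN hj hMH hy hy0 hyn ht)
          have ht0 : 0 < t := lt_of_lt_of_le (by positivity) ht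
          rcases le_max_iff.1 hτ with h5 | h5
          · linarith
          · linarith
      have h4 : Sc M c y = Sg M c y + M.E (fun τ => max (-(Tc Q.b c τ 0 y - lv c y)) 0) := by
        unfold Sc Sg
        rw [← M.E_add]
        refine M.E_congr fun τ _ => ?_
        rcases le_total 0 (Tc Q.b c τ 0 y - lv c y) with h5 | h5
        · rw [max_eq_left h5, max_eq_right (by linarith), add_zero]
        · rw [max_eq_right h5, max_eq_left (by linarith)]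
          ring
      have h5 := hmul C₀ (by linarith)
      rw [h4]
      nlinarith
    have h2 := hmul A hA0
    have h3 : (1 + (2 + C₀ + 31 * C₁) + A) * H = H + (2 + C₀ + 31 * C₁) * H + A * H := by ring
    rw [h3]
    linarith

end Pool.Agent.W_1b8d5d_sc
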