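import Pool.Agent.W_1b8d5d_sc.TDefs
import Pool.Agent.W_1b8d5d_fe.FmL
import Pool.Agent.W_1b8d5d_fe.Tc2

/-!
MP_1b8d5d_pr (SC): elementary properties of the signed mean excess `Sg`, of `Mg` and of `xs`.
-/

set_option autoImplicit false

namespace Pool.Agent.W_1b8d5d_sc

open Finset Pool.Agent.W_1b8d5d_h85 Pool.Agent.W_1b8d5d_fe

/-- The thin cone is contained in the middle directions. -/
theorem KD_Md {c : Crd} {e : ℝ} (he : 0 < e) (he1 : e ≤ 1 / 3) {y : V} (hy : y ∈ KD c e) : y ∈ Md c (2 / e) := by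
  obtain ⟨h1, h2, h3⟩ := hy
  have hC := c.one_le
  have hD : 6 ≤ 2 / e := by
    rw [le_div_iff₀ he]
    linarith
  have hDe : 2 / e * e = 2 := div_mul_cancel₀ _ he.ne'
  have hD0 : 0 < 2 / e := by positivity
  set D : ℝ := 2 / e with hDd
  have hlv : lv c y = c.p y + c.q y := rfl
  refine ⟨?_, ?_⟩
  · -- p
    have h4 : e * lv c y ≤ 1 / 3 * lv c y := mul_le_mul_of_nonneg_right he1 h1
    have h5 : 0 ≤ c.p y + 4 * c.C := by linarith
    have h6 : 0 ≤ (D - 3 / 2) * (c.p y + 4 * c.C) := mul_nonneg (by linarith) h5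
    have h7 : lv c y ≤ 3 / 2 * (c.p y + 4 * c.C) := by linarith
    linarith
  · -- q
    have h4 := mul_le_mul_of_nonneg_left h2 hD0.le
    have h5 : D * (e / 2 * lv c y - 4 * c.C) = lv c y - 4 * (D * c.C) := by
      have h6 : D * (e / 2 * lv c y - 4 * c.C) = D * e / 2 * lv c y - 4 * (D * c.C) := by ring
      rw [h6, hDe]
      ring
    rw [h5] at h4
    linarith

/-- Both thin cones are contained in the middle directions. -/
theorem KD_Md_or {c : Crd} {e : ℝ} (he : 0 < e) (he1 : e ≤ 1 / 3) {y : V} (hy : y ∈ KD c e ∨ y ∈ KD (swp c) e) :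
    y ∈ Md c (2 / e) := by
  rcases hy with hy | hy
  · exact KD_Md he he1 hy
  · have h := KD_Md he he1 hy
    rwa [Md_swp] at h

theorem KD_lv_nonneg {c : Crd} {e : ℝ} {y : V} (hy : y ∈ KD c e ∨ y ∈ KD (swp c) e) : 0 ≤ lv c y := by
  rcases hy with hy | hy
  · exact hy.1
  · have h := hy.1
    rwa [lv_swp] at h

theorem KD_zero_mem (c : Crd) (e : ℝ) : (0 : V) ∈ KD c e := by
  have hC := c.one_le
  show 0 ≤ lv c 0 ∧ e / 2 * lv c 0 - 4 * c.C ≤ c.q 0 ∧ c.q 0 ≤ e * lv c 0 + 4 * c.C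
  rw [lv_zero, map_zero, mul_zero, mul_zero]
  refine ⟨le_refl _, ?_, ?_⟩ <;> linarith

/-- A box contains the thin cones up to a level. -/
theorem KD_nm {c : Crd} {e : ℝ} (he1 : e ≤ 1 / 3) (he : 0 < e) {y : V} {n : ℝ} (hy : y ∈ KD c e ∨ y ∈ KD (swp c) e)
    (hn : lv c y ≤ n) : nm y ≤ 4 * c.C * n + 8 * c.C ^ 2 := by
  have hC := c.one_le
  have h0 := KD_lv_nonneg hy
  have key : ∀ d : Crd, d.C = c.C → (∀ z, lv d z = lv c z) → y ∈ KD d e → nm y ≤ 4 * c.C * n + 8 * c.C ^ 2 := by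
    intro d hd hl hy
    obtain ⟨h1, h2, h3⟩ := hy
    have h4 := nm_le_lq d y
    rw [hl] at h1 h2 h3 h4
    rw [hd] at h2 h3 h4
    have h5 : e * lv c y ≤ 1 / 3 * lv c y := mul_le_mul_of_nonneg_right he1 h1
    have h6 : 0 ≤ e / 2 * lv c y := by positivity
    have h7 : |d.q y| ≤ 1 / 3 * lv c y + 4 * c.C := by
      rw [abs_le]
      constructor <;> linarith
    have h8 : |lv c y| + |d.q y| ≤ 2 * n + 4 * c.C := by
      rw [abs_of_nonneg h1]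
      linarith
    have h9 := mul_le_mul_of_nonneg_left h8 (by linarith : 0 ≤ 2 * c.C)
    nlinarith
  rcases hy with hy | hy
  · exact key c rfl (fun _ => rfl) hy
  · exact key (swp c) rfl (fun z => lv_swp c z) hy

section

variable {a b : ℝ} (M : Mdl a b) (c : Crd)

theorem Sg_swp (y : V) : Sg M (swp c) y = Sg M c y := by
  unfold Sg
  refine M.E_congr fun τ _ => ?_
  rw [Tc_swp, lv_swp]

/-- The signed mean excess is at most the mean positive excess. -/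
theorem Sg_le_Sc (y : V) : Sg M c y ≤ Sc M c y :=
  M.E_mono fun _ _ => le_max_left _ _

theorem Sg_zero_nonneg (ha : 0 ≤ a) (hab : a ≤ b) : 0 ≤ Sg M c 0 := by
  refine M.E_nonneg fun τ hτ => ?_
  rw [lv_zero, sub_zero]
  exact Tc_nonneg ha hab hτ c 0 0

/-- The crude bound. -/
theorem Sg_le_nm (ha : 0 ≤ a) (hab : a ≤ b) {y : V} (hy : 0 ≤ lv c y) : Sg M c y ≤ b * nm y := by
  refine M.E_le_of_le fun τ hτ => ?_
  have h := Tc_upper ha hab hτ c 0 y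
  rw [sub_zero] at h
  linarith

private theorem XsB_ball (R : ℝ) : {y : V | nm y ≤ R}.Finite := by
  refine ((Set.finite_Icc (-(⌈R⌉)) ⌈R⌉).prod (Set.finite_Icc (-(⌈R⌉)) ⌈R⌉)).subset ?_
  rintro ⟨y1, y2⟩ hy
  have hy' : |(y1 : ℝ)| + |(y2 : ℝ)| ≤ R := hy
  have h0 := Int.le_ceil R
  have e1 : |(y1 : ℝ)| ≤ (⌈R⌉ : ℝ) := by linarith [abs_nonneg (y2 : ℝ)]
  have e2 : |(y2 : ℝ)| ≤ (⌈R⌉ : ℝ) := by linarith [abs_nonneg (y1 : ℝ)]
  rw [abs_le] at e1 e2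
  refine ⟨⟨?_, ?_⟩, ⟨?_, ?_⟩⟩
  · have h := e1.1
    exact_mod_cast h
  · have h := e1.2
    exact_mod_cast h
  · have h := e2.1
    exact_mod_cast h
  · have h := e2.2
    exact_mod_cast h

/-- The set of the candidates of `Mg` is finite. -/
theorem Mg_fin {e : ℝ} (he : 0 < e) (he1 : e ≤ 1 / 3) (n : ℝ) :
    {t | ∃ y, (y ∈ KD c e ∨ y ∈ KD (swp c) e) ∧ lv c y ≤ n ∧ t = Sg M c y}.Finite := by
  refine ((XsB_ball (4 * c.C * n + 8 * c.C ^ 2)).image fun y => Sg M c y).subset ?_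
  rintro t ⟨y, h1, h2, rfl⟩
  exact ⟨y, KD_nm he1 he h1 h2, rfl⟩

theorem Mg_swp (e n : ℝ) : Mg M (swp c) e n = Mg M c e n := by
  unfold Mg
  simp only [lv_swp, Sg_swp, swp_swp]
  congr 3
  ext t
  constructor
  · rintro ⟨y, h1, h2⟩
    exact ⟨y, h1.symm, h2⟩
  · rintro ⟨y, h1, h2⟩
    exact ⟨y, h1.symm, h2⟩

variable {M c}

/-- Every vector of the two thin cones has a signed mean excess at most `Mg - 1`. -/
theorem Sg_le {e n : ℝ} (he : 0 < e) (he1 : e ≤ 1 / 3) {y : V} (hy : y ∈ KD c e ∨ y ∈ KD (swp c) e)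
    (hn : lv c y ≤ n) : Sg M c y ≤ Mg M c e n - 1 := by
  have h1 : Sg M c y ≤ sSup {t | ∃ y, (y ∈ KD c e ∨ y ∈ KD (swp c) e) ∧ lv c y ≤ n ∧ t = Sg M c y} :=
    le_csSup (Mg_fin M c he he1 n).bddAbove ⟨y, hy, hn, rfl⟩
  unfold Mg
  linarith

theorem Mg_one_le (ha : 0 ≤ a) (hab : a ≤ b) {e : ℝ} (he : 0 < e) (he1 : e ≤ 1 / 3) (n : ℝ) : 1 ≤ Mg M c e n := by
  rcases lt_or_ge n 0 with hn | hn
  · have h1 : {t | ∃ y, (y ∈ KD c e ∨ y ∈ KD (swp c) e) ∧ lv c y ≤ n ∧ t = Sg M c y} = ∅ := by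
      refine Set.eq_empty_iff_forall_notMem.2 ?_
      rintro t ⟨y, h1, h2, -⟩
      have h3 := KD_lv_nonneg h1
      linarith
    unfold Mg
    rw [h1, Real.sSup_empty]
    linarith
  · have h1 := Sg_le (M := M) (n := n) he he1 (y := 0) (Or.inl (KD_zero_mem c e)) (by rw [lv_zero]; exact hn)
    have h2 := Sg_zero_nonneg M c ha hab
    linarith

/-- Upper bound. -/
theorem Mg_le {e n B : ℝ} (hB : 0 ≤ B) (h : ∀ y, (y ∈ KD c e ∨ y ∈ KD (swp c) e) → lv c y ≤ n → Sg M c y ≤ B) :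
    Mg M c e n ≤ 1 + B := by
  have h1 : sSup {t | ∃ y, (y ∈ KD c e ∨ y ∈ KD (swp c) e) ∧ lv c y ≤ n ∧ t = Sg M c y} ≤ B := by
    refine Real.sSup_le ?_ hB
    rintro t ⟨y, h1, h2, rfl⟩
    exact h y h1 h2
  unfold Mg
  linarith

theorem Mg_mono (ha : 0 ≤ a) (hab : a ≤ b) {e : ℝ} (he : 0 < e) (he1 : e ≤ 1 / 3) {n n' : ℝ} (h : n ≤ n') :
    Mg M c e n ≤ Mg M c e n' := by
  have h1 := Mg_one_le (M := M) (c := c) ha hab he he1 n'
  have h2 : Mg M c e n ≤ 1 + (Mg M c e n' - 1) :=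
    Mg_le (by linarith) fun y hy hn => Sg_le he he1 hy (hn.trans h)
  linarith

/-- The supremum is attained. -/
theorem Mg_att {e : ℝ} (he : 0 < e) (he1 : e ≤ 1 / 3) {n : ℝ} (hn : 0 ≤ n) :
    ∃ y, (y ∈ KD c e ∨ y ∈ KD (swp c) e) ∧ lv c y ≤ n ∧ Mg M c e n = 1 + Sg M c y := by
  have hne : {t | ∃ y, (y ∈ KD c e ∨ y ∈ KD (swp c) e) ∧ lv c y ≤ n ∧ t = Sg M c y}.Nonempty := by
    refine ⟨Sg M c 0, 0, Or.inl (KD_zero_mem c e), ?_, rfl⟩
    rw [lv_zero]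
    exact hn
  obtain ⟨y, h1, h2, h3⟩ := hne.csSup_mem (Mg_fin M c he he1 n)
  refine ⟨y, h1, h2, ?_⟩
  unfold Mg
  rw [h3]

end

section

variable {Q : Par} {g : V → ℝ} {c : Crd}

/-- `xs` is at least `1`, nondecreasing and of growth exponent `3 / 4` (from `tc_mean`). -/
theorem xs_basic (hg : IsMean Q g) (hM : HasModels Q g) (hf : FlatS g c) {e : ℝ} (he : 0 < e) (he1 : e ≤ 1 / 3) :
    ∃ C₀ : ℝ, 1 ≤ C₀ ∧ ∀ (N : ℕ) (R : ℝ) (M : Mdl Q.a Q.b), Hor Q g N R M →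
      (∀ j, 1 ≤ xs M c e j) ∧ (∀ i j, i ≤ j → j ≤ N → xs M c e i ≤ xs M c e j) ∧
      ∀ j, j ≤ N → xs M c e j ≤ C₀ * ((2 : ℝ) ^ (3 / 4 : ℝ)) ^ j := by
  have ha : 0 ≤ Q.a := Q.ha.le
  have hab : Q.a ≤ Q.b := Q.hab.le
  have hb : 0 ≤ Q.b := ha.trans hab
  have hC := c.one_le
  have hD : 3 ≤ 2 / e := by
    rw [le_div_iff₀ he]
    linarith
  obtain ⟨C, hC1, hT⟩ := tc_mean hg hM hf hD
  set K : ℝ := Q.b * (4 * c.C * C + 8 * c.C ^ 2) with hK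
  have hK0 : 0 ≤ K := by positivity
  have h34 : (1 : ℝ) ≤ (2 : ℝ) ^ (3 / 4 : ℝ) := Real.one_le_rpow (by norm_num) (by norm_num)
  refine ⟨1 + C + K, by linarith, ?_⟩
  intro N R M hH
  obtain ⟨hG, hR⟩ := hH
  refine ⟨fun j => Mg_one_le ha hab he he1 _, fun i j hij _ => Mg_mono ha hab he he1 ?_, fun j hj => ?_⟩
  · exact pow_le_pow_right₀ (by norm_num) hij
  · have hj34 : (1 : ℝ) ≤ ((2 : ℝ) ^ (3 / 4 : ℝ)) ^ j := one_le_pow₀ h34
    have hj2 : (1 : ℝ) ≤ (2 : ℝ) ^ j := one_le_pow₀ (by norm_num)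
    have hjN : (2 : ℝ) ^ j ≤ (2 : ℝ) ^ N := pow_le_pow_right₀ (by norm_num) hj
    have hN1 : (1 : ℝ) ≤ (2 : ℝ) ^ N := one_le_pow₀ (by norm_num)
    rcases le_or_gt C ((2 : ℝ) ^ N) with hCN | hCN
    · -- the range is large
      have h1 : C * ((2 : ℝ) ^ j) ^ 2 ≤ R := by
        have h2 : C * ((2 : ℝ) ^ j) ^ 2 ≤ (2 : ℝ) ^ N * ((2 : ℝ) ^ N) ^ 2 :=
          mul_le_mul hCN (pow_le_pow_left₀ (by linarith) hjN 2) (by positivity) (by linarith)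
        have h3 : (2 : ℝ) ^ N * ((2 : ℝ) ^ N) ^ 2 = ((2 : ℝ) ^ N) ^ 3 := by ring
        have h4 : ((2 : ℝ) ^ N) ^ 3 ≤ ((2 : ℝ) ^ N) ^ 300 := pow_le_pow_right₀ hN1 (by norm_num)
        linarith
      have h2 := hT ((2 : ℝ) ^ j) R M hj2 h1 hG
      have h3 : ((2 : ℝ) ^ j) ^ (3 / 4 : ℝ) = ((2 : ℝ) ^ (3 / 4 : ℝ)) ^ j := by
        rw [← Real.rpow_natCast, ← Real.rpow_natCast, ← Real.rpow_mul (by norm_num), ← Real.rpow_mul (by norm_num),
          mul_comm]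
      rw [h3] at h2
      have h4 : xs M c e j ≤ 1 + C * ((2 : ℝ) ^ (3 / 4 : ℝ)) ^ j :=
        Mg_le (by positivity) fun y hy hn =>
          (Sg_le_Sc M c y).trans (h2 y (KD_Md_or he he1 hy) (KD_lv_nonneg hy) hn)
      have h5 : 0 ≤ K * ((2 : ℝ) ^ (3 / 4 : ℝ)) ^ j := by positivity
      linarith
    · -- the horizon is small
      have h4 : xs M c e j ≤ 1 + K := by
        refine Mg_le hK0 fun y hy hn => ?_
        have h5 := Sg_le_nm M c ha hab (KD_lv_nonneg hy)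
        have h6 := KD_nm he1 he hy hn
        have h7 : nm y ≤ 4 * c.C * C + 8 * c.C ^ 2 := by
          have h8 : 4 * c.C * (2 : ℝ) ^ j ≤ 4 * c.C * C :=
            mul_le_mul_of_nonneg_left (hjN.trans hCN.le) (by linarith)
          linarith
        exact h5.trans (mul_le_mul_of_nonneg_left h7 hb)
      have h5 : (1 + K) * 1 ≤ (1 + K) * ((2 : ℝ) ^ (3 / 4 : ℝ)) ^ j := mul_le_mul_of_nonneg_left hj34 (by linarith)
      have h6 : 0 ≤ C * ((2 : ℝ) ^ (3 / 4 : ℝ)) ^ j := by positivity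
      linarith

end

end Pool.Agent.W_1b8d5d_sc
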