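import Pool.Agent.W_1b8d5d_sc.P1Row
import Pool.Agent.W_1b8d5d_sc.XsB
import Pool.Agent.W_1b8d5d_sc.Dec

/-!
MP_1b8d5d_pr (SC, part P1): the lower tail of the excess of one vector.
-/

set_option autoImplicit false

namespace Pool.Agent.W_1b8d5d_sc

open Finset Pool.Agent.W_1b8d5d_h85 Pool.Agent.W_1b8d5d_fe

private theorem tail_y {c : Crd} {D n : ℝ} (hD : 3 ≤ D) {y : V} (hy : y ∈ Md c D) (h0 : 0 ≤ lv c y) (hn : lv c y ≤ n) :
    (-(7 * c.C) ≤ c.p y ∧ c.p y ≤ n + 7 * c.C) ∧ (-(7 * c.C) ≤ c.q y ∧ c.q y ≤ n + 7 * c.C) := by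
  obtain ⟨h1, h2⟩ := hy
  have hC := c.one_le
  have hlv : lv c y = c.p y + c.q y := rfl
  have hp : -(7 * c.C) ≤ c.p y := by
    by_contra hcon
    push Not at hcon
    have h3 : D * c.p y ≤ D * (-(7 * c.C)) := mul_le_mul_of_nonneg_left hcon.le (by linarith)
    have h4 : 3 * c.C ≤ D * c.C := mul_le_mul_of_nonneg_right hD (by linarith)
    nlinarith
  have hq : -(7 * c.C) ≤ c.q y := by
    by_contra hcon
    push Not at hcon
    have h3 : D * c.q y ≤ D * (-(7 * c.C)) := mul_le_mul_of_nonneg_left hcon.le (by linarith)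
    have h4 : 3 * c.C ≤ D * c.C := mul_le_mul_of_nonneg_right hD (by linarith)
    nlinarith
  exact ⟨⟨hp, by linarith⟩, hq, by linarith⟩

private theorem tail_pow {p : ℝ} {k : ℕ} (hp0 : 0 ≤ p) (hp1 : p ≤ 1) (h : 3 / 4 ≤ (1 - p) ^ k) : k * p ≤ 1 := by
  have h1 : (1 - p) ^ k * (1 + p) ^ k ≤ 1 := by
    rw [← mul_pow]
    refine pow_le_one₀ ?_ ?_
    · exact mul_nonneg (by linarith) (by linarith)
    · nlinarith
  have h2 : 1 + k * p ≤ (1 + p) ^ k := one_add_mul_le_pow (by linarith) k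
  have h3 : 0 ≤ (k : ℝ) * p := mul_nonneg (Nat.cast_nonneg k) hp0
  have h4 : 3 / 4 * (1 + k * p) ≤ (1 - p) ^ k * (1 + p) ^ k :=
    mul_le_mul h h2 (by linarith) (by linarith)
  linarith

/-- The geometry of the row. -/
private theorem tail_geo {Q : Par} {g : V → ℝ} {R : ℝ} {M : Mdl Q.a Q.b} (hG : Good Q g R M) {c : Crd} (hl : ∀ z, lv c z ≤ g z)
    {D : ℝ} (hD : 3 ≤ D) {n lam A F : ℝ} {k : ℕ} {y : V} (hn : 100 * c.C ≤ n) (hy : y ∈ Md c D)
    (hy0 : 0 ≤ lv c y) (hyn : lv c y ≤ n) (hk : (k : ℝ) ≤ 2 * lam) (hlam : 1 ≤ lam) (hA : A = 400 * lam * n)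
    (hF : ∀ z ∈ Md c D, 0 ≤ lv c z → lv c z ≤ 4 * A → Sg M c z ≤ F) (hF0 : 0 ≤ F) (hR : 100 * c.C ^ 2 * A ≤ R) (t : ℝ) :
    t * (1 - (1 - M.P (fun τ => Tc Q.b c τ 0 y - lv c y ≤ -t)) ^ k) ≤ 3 * F + Q.b * (20 * c.C ^ 2) + 1 := by
  have hC := c.one_le
  have hb : 0 < Q.b := Q.ha.trans Q.hab
  have hA1 : 400 * n ≤ A := by
    rw [hA]
    have : 0 ≤ n := by linarith
    nlinarith
  have hkn : 10 * n * k ≤ A / 20 := by
    rw [hA]
    have h0 : 0 ≤ 10 * n := by linarith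
    have := mul_le_mul_of_nonneg_left hk h0
    linarith
  have hA0 : 0 ≤ A := by linarith
  obtain ⟨⟨yp1, yp2⟩, yq1, yq2⟩ := tail_y hD hy hy0 hyn
  obtain ⟨κ, hκ⟩ : ∃ κ, κ = c.rd (4 * c.C) (4 * c.C) := ⟨_, rfl⟩
  have κp := abs_le.1 (c.rd_p (4 * c.C) (4 * c.C))
  have κq := abs_le.1 (c.rd_q (4 * c.C) (4 * c.C))
  rw [← hκ] at κp κq
  have κl : lv c κ = c.p κ + c.q κ := rfl
  have κn : nm κ ≤ 10 * c.C ^ 2 := by
    have h1 := c.nm_le κ
    have h2 : |c.p κ| ≤ 5 * c.C := by rw [abs_le]; constructor <;> linarith [κp.1, κp.2]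
    have h3 : |c.q κ| ≤ 5 * c.C := by rw [abs_le]; constructor <;> linarith [κq.1, κq.2]
    have h4 : c.C * (|c.p κ| + |c.q κ|) ≤ c.C * (5 * c.C + 5 * c.C) := mul_le_mul_of_nonneg_left (add_le_add h2 h3) (by linarith)
    calc nm κ ≤ c.C * (5 * c.C + 5 * c.C) := h1.trans h4
      _ = 10 * c.C ^ 2 := by ring
  obtain ⟨b, hbd⟩ : ∃ b : ℕ → ℝ, b = fun i : ℕ => A / 3 + 10 * n * (i : ℝ) := ⟨_, rfl⟩
  obtain ⟨z, hz⟩ : ∃ z : ℕ → V, z = fun i => c.rd (A - b i) (b i) := ⟨_, rfl⟩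
  obtain ⟨Z, hZ⟩ : ∃ Z, Z = c.rd (3 * A / 2) (3 * A / 2) := ⟨_, rfl⟩
  have hb1 : ∀ i ≤ k, A / 3 ≤ b i ∧ b i ≤ A / 3 + A / 20 := by
    intro i hi
    rw [hbd]
    have h1 : (i : ℝ) ≤ k := by exact_mod_cast hi
    have h2 : 0 ≤ 10 * n * (i : ℝ) := mul_nonneg (by linarith) (Nat.cast_nonneg i)
    have h3 : 10 * n * (i : ℝ) ≤ 10 * n * k := mul_le_mul_of_nonneg_left h1 (by linarith)
    constructor <;> linarith
  have zp : ∀ i, |c.p (z i) - (A - b i)| ≤ c.C := fun i => by rw [hz]; exact c.rd_p _ _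
  have zq : ∀ i, |c.q (z i) - b i| ≤ c.C := fun i => by rw [hz]; exact c.rd_q _ _
  have zl : ∀ i, |lv c (z i) - A| ≤ 2 * c.C := by
    intro i
    have h1 := abs_le.1 (zp i)
    have h2 := abs_le.1 (zq i)
    have h3 : lv c (z i) = c.p (z i) + c.q (z i) := rfl
    rw [abs_le]
    constructor <;> linarith [h1.1, h1.2, h2.1, h2.2]
  have Zp := abs_le.1 (c.rd_p (3 * A / 2) (3 * A / 2))
  have Zq := abs_le.1 (c.rd_q (3 * A / 2) (3 * A / 2))
  rw [← hZ] at Zp Zq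
  have Zl : lv c Z = c.p Z + c.q Z := rfl
  have hyl : lv c y = c.p y + c.q y := rfl
  -- the vectors u i = z i - κ and Z - v i, v i = z i + y + κ
  have hu : ∀ i ≤ k, z i - κ ∈ Md c D ∧ 0 ≤ lv c (z i - κ) ∧ lv c (z i - κ) ≤ A - 4 * c.C := by
    intro i hi
    have h1 := abs_le.1 (zp i)
    have h2 := abs_le.1 (zq i)
    have h3 := abs_le.1 (zl i)
    have h4 := hb1 i hi
    have e1 : c.p (z i - κ) = c.p (z i) - c.p κ := map_sub _ _ _
    have e2 : c.q (z i - κ) = c.q (z i) - c.q κ := map_sub _ _ _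
    have e3 : lv c (z i - κ) = lv c (z i) - lv c κ := lv_sub _ _ _
    refine ⟨Md_of hD ?_ ?_ ?_ ?_, ?_, ?_⟩
    · rw [e1]; linarith [h1.1, κp.2, h4.2]
    · rw [e2]; linarith [h2.1, κq.2, h4.1]
    · rw [e1, e3]; linarith [h1.1, κp.1, κp.2, κq.1, h4.2, h3.2]
    · rw [e2, e3]; linarith [h2.1, κp.1, κq.1, κq.2, h4.1, h3.2]
    · rw [e3]; linarith [h3.1, κp.2, κq.2]
    · rw [e3]; linarith [h3.2, κp.1, κq.1]
  have hv : ∀ i ≤ k, Z - (z i + y + κ) ∈ Md c D ∧ 0 ≤ lv c (Z - (z i + y + κ)) ∧ lv c (Z - (z i + y + κ)) ≤ 4 * A := by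
    intro i hi
    have h1 := abs_le.1 (zp i)
    have h2 := abs_le.1 (zq i)
    have h3 := abs_le.1 (zl i)
    have h4 := hb1 i hi
    have e1 : c.p (Z - (z i + y + κ)) = c.p Z - (c.p (z i) + c.p y + c.p κ) := by rw [map_sub, map_add, map_add]
    have e2 : c.q (Z - (z i + y + κ)) = c.q Z - (c.q (z i) + c.q y + c.q κ) := by rw [map_sub, map_add, map_add]
    have e3 : lv c (Z - (z i + y + κ)) = lv c Z - (lv c (z i) + lv c y + lv c κ) := by rw [lv_sub, lv_add, lv_add]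
    have g1 : 3 * A / 2 - (A - b i) - n - 15 * c.C ≤ c.p (Z - (z i + y + κ)) := by
      rw [e1]; linarith [h1.2, κp.2, Zp.1]
    have g2 : 3 * A / 2 - b i - n - 15 * c.C ≤ c.q (Z - (z i + y + κ)) := by
      rw [e2]; linarith [h2.2, κq.2, Zq.1]
    have g3 : lv c (Z - (z i + y + κ)) ≤ 2 * A - 2 * c.C := by
      rw [e3]; linarith [h3.1, κp.1, κq.1, Zp.2, Zq.2]
    have g4 : 0 ≤ lv c (Z - (z i + y + κ)) := by
      have : lv c (Z - (z i + y + κ)) = c.p (Z - (z i + y + κ)) + c.q (Z - (z i + y + κ)) := rfl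
      linarith [h4.1, h4.2]
    refine ⟨Md_of hD ?_ ?_ ?_ ?_, g4, ?_⟩
    · linarith [h4.1]
    · linarith [h4.2]
    · linarith [h4.1]
    · linarith [h4.2]
    · linarith
  -- norms
  have zn : ∀ i ≤ k, nm (z i) ≤ c.C * A + 2 * c.C ^ 2 := by
    intro i hi
    have h1 := abs_le.1 (zp i)
    have h2 := abs_le.1 (zq i)
    have h4 := hb1 i hi
    have e0 : c.C * A + 2 * c.C ^ 2 = c.C * (A + 2 * c.C) := by ring
    rw [e0]
    refine (c.nm_le _).trans (mul_le_mul_of_nonneg_left ?_ (by linarith))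
    rw [abs_of_nonneg (by linarith [h1.1, h4.2]), abs_of_nonneg (by linarith [h2.1, h4.1])]
    linarith [h1.2, h2.2]
  have yn : nm y ≤ 2 * (c.C * n) + 14 * c.C ^ 2 := by
    have e0 : 2 * (c.C * n) + 14 * c.C ^ 2 = c.C * (2 * n + 14 * c.C) := by ring
    rw [e0]
    refine (c.nm_le _).trans (mul_le_mul_of_nonneg_left ?_ (by linarith))
    have h1 : |c.p y| ≤ n + 7 * c.C := by rw [abs_le]; constructor <;> linarith
    have h2 : |c.q y| ≤ n + 7 * c.C := by rw [abs_le]; constructor <;> linarith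
    linarith
  have Zn : nm Z ≤ 3 * (c.C * A) + 2 * c.C ^ 2 := by
    have e0 : 3 * (c.C * A) + 2 * c.C ^ 2 = c.C * (3 * A + 2 * c.C) := by ring
    rw [e0]
    refine (c.nm_le _).trans (mul_le_mul_of_nonneg_left ?_ (by linarith))
    rw [abs_of_nonneg (by linarith [Zp.1]), abs_of_nonneg (by linarith [Zq.1])]
    linarith [Zp.2, Zq.2]
  have hCA : c.C ≤ A := by linarith
  have hCC : c.C ≤ c.C ^ 2 := by nlinarith
  have hCn : c.C * n ≤ c.C * A := mul_le_mul_of_nonneg_left (by linarith) (by linarith)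
  have hCC2 : c.C * c.C ≤ c.C * A := mul_le_mul_of_nonneg_left hCA (by linarith)
  have hCA2 : c.C * A ≤ c.C ^ 2 * A := mul_le_mul_of_nonneg_right hCC hA0
  have hC2 : c.C ^ 2 ≤ c.C ^ 2 * A := by
    have : c.C ^ 2 * 1 ≤ c.C ^ 2 * A := mul_le_mul_of_nonneg_left (by linarith) (by positivity)
    linarith
  refine row hG hl (u := fun i => z i - κ) (z := z) (v := fun i => z i + y + κ) (Z := Z) (k := k) ?_ ?_ ?_ hF0 ?_ ?_ ?_ ?_ ?_ ?_ ?_ ?_
  · intro i hi
    obtain ⟨h1, h2, h3⟩ := hu i hi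
    exact hF _ h1 h2 (by linarith)
  · intro i hi
    obtain ⟨h1, h2, h3⟩ := hv i hi
    have := E_Tc hG c (fun s => s - lv c (Z - (z i + y + κ))) (z i + y + κ) Z
    rw [this]
    exact hF _ h1 h2 h3
  · exact hF y hy hy0 (by linarith)
  · intro i hi
    have e1 : z i - (z i - κ) = κ := by abel
    have e2 : z i + y + κ - (z i + y) = κ := by abel
    show Q.b * nm (z i - (z i - κ)) - lv c (z i - (z i - κ)) +
      (Q.b * nm (z i + y + κ - (z i + y)) - lv c (z i + y + κ - (z i + y))) ≤ Q.b * (20 * c.C ^ 2)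
    rw [e1, e2]
    have := mul_le_mul_of_nonneg_left κn hb.le
    linarith [κp.1, κq.1]
  · intro i hi l hl'
    rw [Set.disjoint_left]
    intro e he he'
    have h1 := (Dc_lv he.1).2
    have h2 := (Dc_lv he'.1).1
    have h3 := (hu i hi).2.2
    have h4 := abs_le.1 (zl l)
    linarith [h4.1]
  · intro i hi l hl'
    rw [Set.disjoint_left]
    intro e he he'
    have h1 := (Dc_lv he.1).1
    have h2 := (Dc_lv he'.1).2
    have e3 : lv c (z i + y + κ) = lv c (z i) + lv c y + lv c κ := by rw [lv_add, lv_add]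
    have e4 : lv c (z l + y) = lv c (z l) + lv c y := lv_add _ _ _
    have h4 := abs_le.1 (zl l)
    have h5 := abs_le.1 (zl i)
    rw [e3] at h1
    rw [e4] at h2
    linarith [h4.2, h5.1, κp.1, κq.1]
  · intro i hi l hl' hil
    rw [Set.disjoint_left]
    intro e he he'
    have h1 := abs_le.1 (Dc_pq he.1).2
    have h2 := abs_le.1 (Dc_pq he'.1).2
    rw [add_sub_cancel_left, map_sub] at h1 h2
    have h3 := abs_le.1 (zq i)
    have h4 := abs_le.1 (zq l)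
    rw [hbd] at h3 h4
    simp only at h3 h4
    have h5 : 1 ≤ |(i : ℝ) - l| := by
      rcases lt_or_gt_of_ne hil with h | h
      · have : (i : ℝ) + 1 ≤ l := by exact_mod_cast h
        rw [abs_sub_comm]
        exact (by linarith : (1 : ℝ) ≤ l - i).trans (le_abs_self _)
      · have : (l : ℝ) + 1 ≤ i := by exact_mod_cast h
        exact (by linarith : (1 : ℝ) ≤ i - l).trans (le_abs_self _)
    have h6 : 10 * n * |(i : ℝ) - l| ≤ 4 * n + 2 * c.C := by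
      rw [← abs_of_nonneg (show 0 ≤ 10 * n by linarith), ← abs_mul, abs_le]
      constructor <;> linarith [h1.1, h1.2, h2.1, h2.2, h3.1, h3.2, h4.1, h4.2]
    have h7 : 10 * n * 1 ≤ 10 * n * |(i : ℝ) - l| := mul_le_mul_of_nonneg_left h5 (by linarith)
    linarith
  · intro i hi e he
    have h1 := Dc_nm he.1
    rw [sub_zero, sub_zero] at h1
    have h2 := (hu i hi).2.2
    have h3 : 4 * c.C * lv c (z i - κ) ≤ 4 * (c.C * A) := by
      rw [mul_assoc]
      exact mul_le_mul_of_nonneg_left (mul_le_mul_of_nonneg_left (by linarith) (by linarith)) (by norm_num)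
    linarith
  · intro i hi e he
    have h1 := Dc_nm he.1
    rw [add_sub_cancel_left] at h1
    have h2 := zn i hi
    have h3 : 4 * c.C * lv c y ≤ 4 * (c.C * n) := by
      rw [mul_assoc]
      exact mul_le_mul_of_nonneg_left (mul_le_mul_of_nonneg_left hyn (by linarith)) (by norm_num)
    have h4 := nm_add_le (e.1 - z i) (z i)
    rw [sub_add_cancel] at h4
    linarith
  · intro i hi e he
    have h1 := Dc_nm he.1
    have h2 := zn i hi
    have h3 : 4 * c.C * lv c (Z - (z i + y + κ)) ≤ 16 * (c.C * A) := by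
      have := mul_le_mul_of_nonneg_left (hv i hi).2.2 (show 0 ≤ 4 * c.C by linarith)
      linarith
    have h4 := nm_add_le (e.1 - (z i + y + κ)) (z i + y + κ)
    rw [sub_add_cancel] at h4
    have h5 := nm_add_le (z i + y) κ
    have h6 := nm_add_le (z i) y
    linarith
  · linarith

/-- **The lower tail of the excess of one vector.** -/
theorem P1_tail {Q : Par} {g : V → ℝ} {c : Crd} (hf : FlatS g c) {e D : ℝ} (he : 0 < e) (he1 : e ≤ 1 / 3) (hD : 3 ≤ D)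
    (hDe : D * e ≤ 2) :
    ∃ C₁ : ℝ, 1 ≤ C₁ ∧ ∃ j₁ : ℕ, ∀ (N : ℕ) (R : ℝ) (M : Mdl Q.a Q.b) (j : ℕ) (H : ℝ) (y : V) (t : ℝ), Hor Q g N R M → 4 * j ≤ N →
      j₁ ≤ j → MH Ag N (xs M c e) j H → y ∈ Md c D → 0 ≤ lv c y → lv c y ≤ 2 ^ j → C₁ * H ≤ t →
      M.P (fun τ => Tc Q.b c τ 0 y - lv c y ≤ -t) ≤ (C₁ * H / t) ^ (10 / 9 : ℝ) := by
  obtain ⟨C₀, hC₀, hSg⟩ := Sg_Md_le Q g c he he1 hD hDe
  have hC := c.one_le
  have ha : 0 ≤ Q.a := Q.ha.le
  have hab : Q.a ≤ Q.b := Q.hab.le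
  have hb : 0 < Q.b := Q.ha.trans Q.hab
  obtain ⟨K, hKd⟩ : ∃ K, K = Q.b * (20 * c.C ^ 2) := ⟨_, rfl⟩
  have hK : 0 ≤ K := by rw [hKd]; positivity
  obtain ⟨C₁, hC₁d⟩ : ∃ x, x = 4 * (19200 + 3 * C₀ + K + 1) := ⟨_, rfl⟩
  have hC₁ : 1 ≤ C₁ := by rw [hC₁d]; linarith
  obtain ⟨j₁, hj₁⟩ : ∃ j₁ : ℕ, 200 * c.C ^ 2 ≤ 2 ^ j₁ := pow_unbounded_of_one_lt _ (by norm_num) |>.imp fun n h => h.le
  refine ⟨C₁, hC₁, max j₁ 12, ?_⟩
  intro N R M j H y t hHor hN hj hMH hy hy0 hyn ht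
  obtain ⟨hG, hR⟩ := hHor
  have hj12 : 12 ≤ j := (le_max_right _ _).trans hj
  have hjj : j₁ ≤ j := (le_max_left _ _).trans hj
  obtain ⟨n, hn⟩ : ∃ n : ℝ, n = 2 ^ j := ⟨_, rfl⟩
  have hn1 : 200 * c.C ^ 2 ≤ n := by
    rw [hn]
    exact hj₁.trans (pow_le_pow_right₀ (by norm_num) hjj)
  have hCC : c.C ≤ c.C ^ 2 := by nlinarith
  have hn100 : 100 * c.C ≤ n := by linarith
  have hn0 : 1 ≤ n := by linarith
  have hH : 1 ≤ H := by
    have h1 := hMH j le_rfl (by omega)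
    rw [Nat.sub_self, pow_zero, one_mul] at h1
    have h2 : 1 ≤ xs M c e j := Mg_one_le ha hab he he1 _
    linarith
  have hCH : C₁ ≤ C₁ * H := by
    have := mul_le_mul_of_nonneg_left hH (show 0 ≤ C₁ by linarith)
    linarith
  have hCH0 : 0 < C₁ * H := by linarith
  have ht0 : 0 < t := by linarith
  have hpow0 : 0 ≤ (C₁ * H / t) ^ (10 / 9 : ℝ) := Real.rpow_nonneg (by positivity) _
  rcases lt_or_ge n t with htn | htn
  · have h1 : M.P (fun τ => Tc Q.b c τ 0 y - lv c y ≤ -t) ≤ M.P (fun _ => False) := by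
      refine M.P_mono fun τ hτ h => ?_
      have h2 := Tc_nonneg ha hab hτ c 0 y
      rw [← hn] at hyn
      linarith
    have h2 : M.P (fun _ => False) = 0 := by
      rw [M.P_def]
      simp only [if_false]
      exact M.E_const 0
    rw [h2] at h1
    exact h1.trans hpow0
  -- the number of the copies
  obtain ⟨x, hx⟩ : ∃ x, x = t / (C₁ * H) := ⟨_, rfl⟩
  have hx1 : 1 ≤ x := by
    rw [hx, le_div_iff₀ hCH0]
    linarith
  have hxn : x ≤ n := by
    rw [hx, div_le_iff₀ hCH0]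
    have := mul_le_mul_of_nonneg_left (show 1 ≤ C₁ * H by linarith) (show 0 ≤ n by linarith)
    linarith
  obtain ⟨lam, hlam⟩ : ∃ lam : ℝ, lam = x ^ (10 / 9 : ℝ) := ⟨_, rfl⟩
  have hlam1 : 1 ≤ lam := by
    rw [hlam]
    exact Real.one_le_rpow hx1 (by norm_num)
  have hlam2 : lam ≤ n ^ 2 := by
    rw [hlam]
    calc x ^ (10 / 9 : ℝ) ≤ n ^ (10 / 9 : ℝ) := Real.rpow_le_rpow (by linarith) hxn (by norm_num)
      _ ≤ n ^ (2 : ℝ) := Real.rpow_le_rpow_of_exponent_le hn0 (by norm_num)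
      _ = n ^ 2 := by exact_mod_cast Real.rpow_natCast n 2
  have hlam9 : lam ^ (9 / 10 : ℝ) = x := by
    rw [hlam, ← Real.rpow_mul (by linarith)]
    norm_num
  obtain ⟨k, hk⟩ : ∃ k : ℕ, k = ⌈lam⌉₊ := ⟨_, rfl⟩
  have hk1 : lam ≤ k := by rw [hk]; exact Nat.le_ceil lam
  have hk2 : (k : ℝ) ≤ 2 * lam := by
    have := (Nat.ceil_lt_add_one (show 0 ≤ lam by linarith)).le
    rw [← hk] at this
    linarith
  obtain ⟨a', ha1, ha2⟩ := exists_nat_pow_near (show (1 : ℝ) ≤ 1600 * lam by linarith) (show (1 : ℝ) < 2 by norm_num)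
  obtain ⟨m', hm'⟩ : ∃ m', m' = a' + 1 := ⟨_, rfl⟩
  have hm1 : 1600 * lam ≤ 2 ^ m' := by rw [hm']; exact ha2.le
  have hm2 : (2 : ℝ) ^ m' ≤ 3200 * lam := by
    rw [hm', pow_succ]
    linarith
  have hm3 : m' ≤ 12 + 2 * j := by
    by_contra hcon
    push Not at hcon
    have h1 : (2 : ℝ) ^ (12 + 2 * j + 1) ≤ 2 ^ m' := pow_le_pow_right₀ (by norm_num) hcon
    have h2 : (2 : ℝ) ^ (12 + 2 * j + 1) = 8192 * n ^ 2 := by
      rw [hn, ← pow_mul, pow_succ, pow_add]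
      ring
    have h3 : 3200 * lam ≤ 3200 * n ^ 2 := by linarith
    have h4 : 0 < n ^ 2 := by positivity
    linarith
  have hmN : j + m' ≤ N := by omega
  -- the excess at the scale of the row
  have hxs : xs M c e (j + m') ≤ 3200 * (t / C₁) := by
    have h1 := hMH (j + m') (by omega) hmN
    rw [Nat.add_sub_cancel_left] at h1
    have h2 : Ag ^ m' ≤ 3200 * x := by
      have e1 : Ag ^ m' = ((2 : ℝ) ^ m') ^ (9 / 10 : ℝ) := by
        unfold Ag
        rw [← Real.rpow_natCast, ← Real.rpow_natCast, ← Real.rpow_mul (by norm_num), ← Real.rpow_mul (by norm_num)]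
        ring_nf
      rw [e1]
      calc ((2 : ℝ) ^ m') ^ (9 / 10 : ℝ) ≤ (3200 * lam) ^ (9 / 10 : ℝ) :=
            Real.rpow_le_rpow (by positivity) hm2 (by norm_num)
        _ = (3200 : ℝ) ^ (9 / 10 : ℝ) * x := by rw [Real.mul_rpow (by norm_num) (by linarith), hlam9]
        _ ≤ 3200 * x := by
            refine mul_le_mul_of_nonneg_right ?_ (by linarith)
            calc (3200 : ℝ) ^ (9 / 10 : ℝ) ≤ (3200 : ℝ) ^ (1 : ℝ) :=
                  Real.rpow_le_rpow_of_exponent_le (by norm_num) (by norm_num)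
              _ = 3200 := Real.rpow_one _
    have h3 := mul_le_mul_of_nonneg_right h2 (show 0 ≤ H by linarith)
    have h4 : 3200 * x * H = 3200 * (t / C₁) := by
      rw [hx]
      field_simp
    linarith
  obtain ⟨A, hA⟩ : ∃ A, A = 400 * lam * n := ⟨_, rfl⟩
  have hAm : 4 * A ≤ 2 ^ (j + m') := by
    rw [hA, pow_add, ← hn]
    have := mul_le_mul_of_nonneg_right hm1 (show 0 ≤ n by linarith)
    linarith
  have hA0 : 0 ≤ A := by
    rw [hA]
    have : 0 ≤ lam := by linarith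
    positivity
  have hxs0 : 1 ≤ xs M c e (j + m') := Mg_one_le ha hab he he1 _
  have hAR : 100 * c.C ^ 2 * A ≤ R := by
    refine le_trans ?_ hR
    have h1 : (2 : ℝ) ^ (j + m') ≤ 2 ^ N := pow_le_pow_right₀ (by norm_num) hmN
    have h2 : n ≤ 2 ^ N := by
      rw [hn]
      exact pow_le_pow_right₀ (by norm_num) (by omega)
    have h3 : (1 : ℝ) ≤ 2 ^ N := one_le_pow₀ (by norm_num)
    have h4 : ((2 : ℝ) ^ N) ^ 2 ≤ ((2 : ℝ) ^ N) ^ 300 := pow_le_pow_right₀ h3 (by norm_num)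
    refine le_trans ?_ h4
    have h5 : 4 * A ≤ 2 ^ N := hAm.trans h1
    have h6 : 200 * c.C ^ 2 ≤ 2 ^ N := hn1.trans h2
    have h7 := mul_le_mul h6 h5 (by linarith) (by linarith)
    have h8 : 0 ≤ c.C ^ 2 * A := by positivity
    have h9 : 200 * c.C ^ 2 * (4 * A) = 800 * (c.C ^ 2 * A) := by ring
    have h10 : 100 * c.C ^ 2 * A = 100 * (c.C ^ 2 * A) := by ring
    rw [h9, ← pow_two] at h7
    rw [h10]
    linarith
  have hgeo := tail_geo hG hf.low hD (n := n) (lam := lam) (A := A) (F := 2 * xs M c e (j + m') + C₀) (k := k) (y := y)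
    hn100 hy hy0 (by rw [hn]; exact hyn) hk2 hlam1 hA (fun z hz hz0 hzA => by
      refine hSg R M hG (2 ^ (j + m')) (xs M c e (j + m')) z (by linarith) (fun w hw hwn => ?_) hz hz0 (hzA.trans hAm)
      have := Sg_le he he1 hw hwn (M := M)
      unfold xs
      linarith) (by linarith) hAR t
  obtain ⟨p, hp⟩ : ∃ p, p = M.P (fun τ => Tc Q.b c τ 0 y - lv c y ≤ -t) := ⟨_, rfl⟩
  rw [← hp, ← hKd] at hgeo
  rw [← hp]
  have hp0 : 0 ≤ p := by rw [hp]; exact M.P_nonneg _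
  have hp1 : p ≤ 1 := by rw [hp]; exact M.P_le_one _
  have htC : 1 ≤ t / C₁ := by
    rw [le_div_iff₀ (by linarith)]
    linarith
  have h34 : 3 / 4 ≤ (1 - p) ^ k := by
    have h1 : t * (1 - (1 - p) ^ k) ≤ t * (1 / 4) := by
      refine hgeo.trans ?_
      have h2 : 3 * (2 * xs M c e (j + m') + C₀) + K + 1 ≤ (19200 + 3 * C₀ + K + 1) * (t / C₁) := by
        have h3 : 3 * C₀ + K + 1 ≤ (3 * C₀ + K + 1) * (t / C₁) := by
          have := mul_le_mul_of_nonneg_left htC (show 0 ≤ 3 * C₀ + K + 1 by linarith)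
          linarith
        linarith
      refine h2.trans (le_of_eq ?_)
      have h4 : 19200 + 3 * C₀ + K + 1 = C₁ / 4 := by
        rw [hC₁d]
        ring
      rw [h4]
      field_simp
    have h5 := le_of_mul_le_mul_left h1 ht0
    linarith
  have hkp := tail_pow hp0 hp1 h34
  have hlam0 : 0 < lam := by linarith
  have h6 : p ≤ 1 / lam := by
    rw [le_div_iff₀ hlam0, mul_comm]
    exact (mul_le_mul_of_nonneg_right hk1 hp0).trans hkp
  refine h6.trans (le_of_eq ?_)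
  rw [hlam, hx, one_div, ← Real.inv_rpow (by positivity), inv_div]

end Pool.Agent.W_1b8d5d_sc
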