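import Pool.Agent.W_1b8d5d_sc.FDefs
import Pool.Agent.W_1b8d5d_sc.Num

/-!
MP_1b8d5d_pr (SC, no flat side): the definitions shared by the parts P1, P3, P4, P5, P7, P8.
`Hor Q g N R M`: a good model whose range is larger than the horizon `2 ^ N` to the power `300`.
`xs M c e j`: the size of the signed mean excess in the two thin cones `KD c e`, `KD (swp c) e` up to the level `2 ^ j`.
-/

set_option autoImplicit false

namespace Pool.Agent.W_1b8d5d_sc

open Finset Pool.Agent.W_1b8d5d_h85 Pool.Agent.W_1b8d5d_fe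

/-- The strip `{α ≤ lv ≤ α + ℓ, |q - β - σ (lv - α)| ≤ W}` is crossed inside by a `B`-good path. -/
def Tb (c : Crd) (τ : Env) (σ α β ℓ W B : ℝ) : Prop :=
  ∃ (x y : V) (w : grid.Walk x y), w.IsPath ∧ Bgd c τ B w ∧
    (∀ z ∈ w.support, (α ≤ lv c z ∧ lv c z ≤ α + ℓ) ∧ |c.q z - β - σ * (lv c z - α)| ≤ W) ∧
    lv c x ≤ α + 2 * c.C ∧ α + ℓ - 2 * c.C ≤ lv c y

/-- The thin cone of directions near the first end point of the flat piece, with a slack. -/
def KD (c : Crd) (e : ℝ) : Set V :=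
  {z | 0 ≤ lv c z ∧ e / 2 * lv c z - 4 * c.C ≤ c.q z ∧ c.q z ≤ e * lv c z + 4 * c.C}

/-- The signed mean excess. -/
noncomputable def Sg {a b : ℝ} (M : Mdl a b) (c : Crd) (y : V) : ℝ := M.E fun τ => Tc b c τ 0 y - lv c y

/-- The size of the signed mean excess in the two thin cones up to the level `n`. -/
noncomputable def Mg {a b : ℝ} (M : Mdl a b) (c : Crd) (e n : ℝ) : ℝ :=
  1 + sSup {t | ∃ y, (y ∈ KD c e ∨ y ∈ KD (swp c) e) ∧ lv c y ≤ n ∧ t = Sg M c y}

/-- The strips of length `2 ^ j`, half width `b 2 ^ j` and of a small slope are crossed inside with the budget `B` with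
probability at least `1 / 2`, near both end points of the flat piece, at all positions. -/
def Tub {a b : ℝ} (M : Mdl a b) (c : Crd) (σ₀ : ℝ) (j : ℕ) (r B : ℝ) : Prop :=
  ∀ d : Crd, d = c ∨ d = swp c → ∃ σ : ℝ, |σ| ≤ σ₀ ∧ ∀ α β : ℝ,
    1 / 2 ≤ M.P (fun τ => Tb d τ σ α β (2 ^ j) (r * 2 ^ j) B)

/-- There is a pair in the box of size `L` whose passage time is smaller than the level by `y`. -/
def Lk (c : Crd) (L y : ℝ) (τ : Env) : Prop := ∃ u v : V, nm u ≤ L ∧ nm v ≤ L ∧ T τ u v ≤ lv c (v - u) - y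

/-- Good models of a large range. -/
def Hor (Q : Par) (g : V → ℝ) (N : ℕ) (R : ℝ) (M : Mdl Q.a Q.b) : Prop := Good Q g R M ∧ ((2 : ℝ) ^ N) ^ 300 ≤ R

/-- The growth factor of the regularised excess. -/
noncomputable def Ag : ℝ := 2 ^ (9 / 10 : ℝ)

/-- The signed mean excess at the scale `2 ^ j`. -/
noncomputable def xs {a b : ℝ} (M : Mdl a b) (c : Crd) (e : ℝ) (j : ℕ) : ℝ := Mg M c e (2 ^ j)

/-- The statement of the soft base: straight strips of any small slope and of small relative width `η` are crossed inside with a budget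
`K H`, `K` independent of `η`, with a failure probability at most `p`. -/
def Soft (Q : Par) (g : V → ℝ) (c : Crd) (e p K : ℝ) : Prop :=
  ∀ η : ℝ, 0 < η → ∃ s₀ : ℕ, ∀ (N : ℕ) (R : ℝ) (M : Mdl Q.a Q.b) (j : ℕ) (H : ℝ), Hor Q g N R M → s₀ ≤ j → 16 * j ≤ N →
    MH Ag N (xs M c e) j H → ∀ d : Crd, d = c ∨ d = swp c → ∀ σ α β : ℝ, |σ| ≤ η / 2 →
      M.P (fun τ => ¬ Tb d τ σ α β (2 ^ j) (η * 2 ^ j) (K * H)) ≤ p

end Pool.Agent.W_1b8d5d_sc
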