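import Pool.Agent.W_1b8d5d_sc.Base
import Pool.Agent.W_1b8d5d_sc.TDefs

/-!
MP_1b8d5d_pr (SC), part P4: the soft base in real levels.
-/

set_option autoImplicit false

namespace Pool.Agent.W_1b8d5d_sc

open Finset Filter Pool.Agent.W_1b8d5d_h85 Pool.Agent.W_1b8d5d_fe

/-- Cutting a good walk at two real levels. -/
theorem tb_cut {c : Crd} {τ : Env} {B σ α β ℓ W : ℝ} {x y : V} {w : grid.Walk x y}
    (hw : Bgd c τ B w) (hx : lv c x < α) (hy : α + ℓ < lv c y) (hℓ : 2 * c.C < ℓ)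
    (hW : ∀ z ∈ w.support, α ≤ lv c z → lv c z ≤ α + ℓ → |c.q z - β - σ * (lv c z - α)| ≤ W) : Tb c τ σ α β ℓ W B := by
  have hC := c.one_le
  obtain ⟨u, v, w₁, h1, w₂, hd, hp, hu⟩ := split_last (fun z => α ≤ lv c z) w ⟨x, w.start_mem_support, by simpa using hx⟩
    (by show α ≤ lv c y; linarith)
  have hw2 : Bgd c τ B w₂ := by
    refine hw.sub (w₁ := w₁.append (.cons h1 .nil)) (w₂ := w₂) (w₃ := .nil) ?_
    rw [hd, SimpleGraph.Walk.append_nil, ← SimpleGraph.Walk.append_assoc]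
    rfl
  have hv : lv c v ≤ α + 2 * c.C := by
    have h2 := abs_le.1 (lv_adj (c := c) h1)
    have h3 : lv c u < α := by simpa using hu
    linarith [h2.2]
  obtain ⟨u', v', w₁', h1', w₂', hd', hp', hv'⟩ := split_first (fun z => α + ℓ < lv c z) w₂
    (by show ¬ α + ℓ < lv c v; linarith) ⟨y, w₂.end_mem_support, hy⟩
  have hw3 : Bgd c τ B w₁' := by
    refine hw2.sub (w₁ := .nil) (w₂ := w₁') (w₃ := .cons h1' w₂') ?_
    rw [hd', SimpleGraph.Walk.nil_append]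
  have hsub : ∀ z ∈ w₁'.support, z ∈ w₂.support := fun z hz => by
    rw [hd', SimpleGraph.Walk.mem_support_append_iff]
    exact Or.inl hz
  have hsub2 : ∀ z ∈ w₂.support, z ∈ w.support := fun z hz => by
    rw [hd, SimpleGraph.Walk.mem_support_append_iff]
    refine Or.inr ?_
    rw [SimpleGraph.Walk.support_cons]
    exact List.mem_cons_of_mem _ hz
  have hin : ∀ z ∈ w₁'.support, α ≤ lv c z ∧ lv c z ≤ α + ℓ := fun z hz => ⟨hp z (hsub z hz), by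
    have := hp' z hz
    simpa using this⟩
  refine ⟨v, u', w₁', hw3.1, hw3, fun z hz => ⟨hin z hz, hW z (hsub2 z (hsub z hz)) (hin z hz).1 (hin z hz).2⟩, hv, ?_⟩
  have h2 := abs_le.1 (lv_adj (c := c) h1')
  have h3 : α + ℓ < lv c v' := hv'
  linarith [h2.2]

/-- Translation. -/
theorem Tb_sh {c : Crd} {τ : Env} {B σ α β ℓ W : ℝ} (v : V) (h : Tb c (sh v τ) σ α β ℓ W B) :
    Tb c τ σ (α + lv c v) (β + c.q v) ℓ W B := by
  obtain ⟨x, y, w, h1, h2, h3, h4, h5⟩ := h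
  obtain ⟨w', hs, hb⟩ := exists_sh_walk w v
  have hw' := hb c τ B h2
  refine ⟨x + v, y + v, w', hw'.1, hw', fun z hz => ?_, ?_, ?_⟩
  · obtain ⟨⟨e1, e2⟩, e3⟩ := h3 (z - v) ((hs z).1 hz)
    rw [lv_sub] at e1 e2
    have e4 : c.q (z - v) - β - σ * (lv c (z - v) - α) = c.q z - (β + c.q v) - σ * (lv c z - (α + lv c v)) := by
      rw [lv_sub, map_sub]
      ring
    rw [e4] at e3
    exact ⟨⟨by linarith, by linarith⟩, e3⟩
  · rw [lv_add]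
    linarith
  · rw [lv_add]
    linarith

theorem Tb_mono {c : Crd} {τ : Env} {B B' σ α β ℓ W : ℝ} (hB : B ≤ B') (h : Tb c τ σ α β ℓ W B) : Tb c τ σ α β ℓ W B' := by
  obtain ⟨x, y, w, h1, h2, h3⟩ := h
  exact ⟨x, y, w, h1, h2.mono hB, h3⟩

theorem Tb_mono_W {c : Crd} {τ : Env} {B σ α β ℓ W W' : ℝ} (hW : W ≤ W') (h : Tb c τ σ α β ℓ W B) : Tb c τ σ α β ℓ W' B := by
  obtain ⟨x, y, w, h1, h2, h3, h4⟩ := h
  exact ⟨x, y, w, h1, h2, fun z hz => ⟨(h3 z hz).1, (h3 z hz).2.trans hW⟩, h4⟩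

/-- Translation invariance. -/
theorem P_Tb_sh {Q : Par} {g : V → ℝ} {R : ℝ} {M : Mdl Q.a Q.b} (hM : Good Q g R M) (c : Crd) (σ α β ℓ W B : ℝ) (v : V) :
    M.P (fun τ => Tb c τ σ α β ℓ W B) ≤ M.P (fun τ => Tb c τ σ (α + lv c v) (β + c.q v) ℓ W B) := by
  classical
  have h1 := hM.inv v fun τ => if Tb c τ σ α β ℓ W B then (1 : ℝ) else 0
  rw [M.P_def, M.P_def, ← h1]
  refine M.E_mono fun τ _ => ?_
  by_cases h2 : Tb c (sh v τ) σ α β ℓ W B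
  · rw [if_pos h2, if_pos (Tb_sh v h2)]
  · rw [if_neg h2]
    split_ifs <;> norm_num

/-- **The soft base in real levels.** -/
theorem soft_tb {Q : Par} {g : V → ℝ} (hg : IsMean Q g) (hM : HasModels Q g) {c : Crd} (hf : FlatS g c) {D : ℝ} (hD : 3 ≤ D) :
    ∃ Lb : ℝ, 1 ≤ Lb ∧ ∀ p : ℝ, 0 < p → p ≤ 1 → ∃ K : ℝ, 1 ≤ K ∧ ∀ η : ℝ, 0 < η → η ≤ 1 / 1000 →
      ∀ CF : ℝ, 1 ≤ CF → ∃ s₀ : ℝ, 1 ≤ s₀ ∧ ∀ (s R : ℝ) (M : Mdl Q.a Q.b), s₀ ≤ s →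
      (2 * s) ^ 300 ≤ R → Good Q g R M → ∀ F : ℝ, 1 ≤ F → F ≤ CF * s ^ (3 / 4 : ℝ) →
      (∀ n : ℝ, 2 * s ≤ n → n ≤ 4 * s ^ 2 → Fm M c D n ≤ F * (n / s) ^ (9 / 10 : ℝ)) →
      ∀ Y : ℝ, M.P (Lk c (Lb * s) Y) ≤ p / 4 →
      ∀ σ α β : ℝ, |σ| ≤ η / 2 → 1 - p ≤ M.P (fun τ => Tb c τ σ α β s (η * s) (K * F + 2 * Y)) := by
  have hC := c.one_le
  have ha := Q.ha
  have hab := Q.hab.le
  obtain ⟨A, s₁, hA, hs₁, hpath⟩ := conf_path Q c hf.low (g := g)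
  refine ⟨c.C + 2 * A, by linarith, fun p hp hp1 => ?_⟩
  obtain ⟨K, hK, hsoft⟩ := soft hg hM hf hD (p := p / 4) (by linarith) (by linarith)
  refine ⟨2 * K, by linarith, fun η hη hη1 CF hCF => ?_⟩
  have hCF0 : 0 < CF := by linarith
  obtain ⟨s₂, hs₂, hcr⟩ := hsoft (η / 80) (by positivity) (by linarith) (2 * CF) (by linarith)
  obtain ⟨s₃, hs₃, hconf⟩ := conf_flat hf (η := η / 80) (by positivity) hA
  obtain ⟨s₄, hs₄, hov⟩ := P_Ov Q g 22 (p / 4) (by linarith)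
  suffices HS : ∀ᶠ s : ℝ in atTop, ∀ (R : ℝ) (M : Mdl Q.a Q.b),
      (2 * s) ^ 300 ≤ R → Good Q g R M → ∀ F : ℝ, 1 ≤ F → F ≤ CF * s ^ (3 / 4 : ℝ) →
      (∀ n : ℝ, 2 * s ≤ n → n ≤ 4 * s ^ 2 → Fm M c D n ≤ F * (n / s) ^ (9 / 10 : ℝ)) →
      ∀ Y : ℝ, M.P (Lk c ((c.C + 2 * A) * s) Y) ≤ p / 4 →
      ∀ σ α β : ℝ, |σ| ≤ η / 2 → 1 - p ≤ M.P (fun τ => Tb c τ σ α β s (η * s) (2 * K * F + 2 * Y)) by
    obtain ⟨s₀, hs₀⟩ := eventually_atTop.1 HS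
    exact ⟨max s₀ 1, le_max_right _ _, fun s R M hs => hs₀ s ((le_max_left _ _).trans hs) R M⟩
  filter_upwards [eventually_ge_atTop s₁, eventually_ge_atTop s₂, eventually_ge_atTop s₃, eventually_ge_atTop s₄,
    eventually_ge_atTop (1000 * c.C / η), eventually_ge_atTop (1000 * c.C),
    eventually_ge_atTop (100 * A), ev_pow (8 * K * CF) (by norm_num : (3 / 4 : ℝ) < 4 / 5)]
    with s l1 l2 l3 l4 l5 l7 l8 w1
  intro R M hR hG F hF1 hFs hgr Y hluck σ α β hσ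
  have hs1 : 1 ≤ s := hs₁.trans l1
  have hs0 : 0 < s := by linarith only [hs1]
  obtain ⟨S, hS⟩ : ∃ S, S = 2 * s := ⟨_, rfl⟩
  have hS1 : 1 ≤ S := by linarith only [hS, hs1]
  have hS0 : 0 < S := by linarith only [hS1]
  have hSs : s ≤ S := by linarith only [hS, hs0]
  have hRp : ∀ k : ℕ, k ≤ 300 → S ^ k ≤ R := fun k hk => (pow_le_pow_right₀ hS1 hk).trans (by rw [hS]; exact hR)
  obtain ⟨r, hr⟩ : ∃ r, r = η / 80 * S := ⟨_, rfl⟩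
  have hrs : r = η * s / 40 := by rw [hr, hS]; ring
  have hηs : 1000 * c.C ≤ η * s := by
    have := (div_le_iff₀ hη).1 l5
    linarith only [this]
  have hηs1 : 1000 * (η * s) ≤ s := by
    have := mul_le_mul_of_nonneg_right hη1 hs0.le
    linarith only [this]
  have hr0 : 0 < r := by rw [hrs]; positivity
  -- the position
  obtain ⟨v, hv1, hv2⟩ := exists_shift c α β
  have hpos : M.P (fun τ => Tb c τ σ (α + lv c v) (β + c.q v) s (η * s) (2 * K * F + 2 * Y)) ≤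
      M.P (fun τ => Tb c τ σ α β s (η * s) (2 * K * F + 2 * Y)) := by
    have h1 := P_Tb_sh hG c σ (α + lv c v) (β + c.q v) s (η * s) (2 * K * F + 2 * Y) (-v)
    rw [lv_neg, map_neg, add_neg_cancel_right, add_neg_cancel_right] at h1
    exact h1
  refine le_trans ?_ hpos
  clear hpos
  obtain ⟨α₁, hα₁⟩ : ∃ α₁, α₁ = α + lv c v := ⟨_, rfl⟩
  obtain ⟨β₁, hβ₁⟩ : ∃ β₁, β₁ = β + c.q v := ⟨_, rfl⟩
  rw [← hα₁] at hv1
  rw [← hβ₁] at hv2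
  rw [← hα₁, ← hβ₁]
  obtain ⟨va, vb⟩ := abs_le.1 hv1
  obtain ⟨vc, vd⟩ := abs_le.1 hv2
  -- the crossing
  have hpow : s ^ (3 / 4 : ℝ) ≤ S ^ (3 / 4 : ℝ) := Real.rpow_le_rpow hs0.le hSs (by norm_num)
  have hF2 : 2 * F ≤ 2 * CF * S ^ (3 / 4 : ℝ) := by
    have h1 := mul_le_mul_of_nonneg_left hpow hCF0.le
    linarith only [h1, hFs]
  have hgr2 : ∀ n : ℝ, S ≤ n → n ≤ S ^ 2 → Fm M c D n ≤ 2 * F * (n / S) ^ (9 / 10 : ℝ) := by
    intro n hn1 hn2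
    have h1 := hgr n (by rw [← hS]; exact hn1) (hn2.trans (le_of_eq (by rw [hS]; ring)))
    have hn0 : 0 < n := lt_of_lt_of_le hS0 hn1
    have h2 : n / s = 2 * (n / S) := by
      rw [hS]
      field_simp
    have h3 : (2 * (n / S)) ^ (9 / 10 : ℝ) = 2 ^ (9 / 10 : ℝ) * (n / S) ^ (9 / 10 : ℝ) :=
      Real.mul_rpow (by norm_num) (by positivity)
    have h4 : (2 : ℝ) ^ (9 / 10 : ℝ) ≤ 2 := by
      calc (2 : ℝ) ^ (9 / 10 : ℝ) ≤ 2 ^ (1 : ℝ) := Real.rpow_le_rpow_of_exponent_le (by norm_num) (by norm_num)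
        _ = 2 := Real.rpow_one 2
    rw [h2, h3] at h1
    refine h1.trans ?_
    have h5 : 0 ≤ F * (n / S) ^ (9 / 10 : ℝ) := by positivity
    have h6 := mul_le_mul_of_nonneg_right h4 h5
    calc F * (2 ^ (9 / 10 : ℝ) * (n / S) ^ (9 / 10 : ℝ)) = 2 ^ (9 / 10 : ℝ) * (F * (n / S) ^ (9 / 10 : ℝ)) := by ring
      _ ≤ 2 * (F * (n / S) ^ (9 / 10 : ℝ)) := h6
      _ = 2 * F * (n / S) ^ (9 / 10 : ℝ) := by ring
  obtain ⟨α₀, β₀, hα₀, hβ₀, hP⟩ := hcr S R M (l2.trans hSs) (hRp 300 le_rfl) hG (2 * F) (by linarith only [hF1]) hF2 hgr2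
  rw [← hr] at hP
  obtain ⟨z, hz1, hz2⟩ := exists_shift c (α₀ - α₁ + s / 4) (β₀ - β₁)
  have hP' := P_Cr_sh hG c r (10 * r) r S α₀ β₀ (K * (2 * F)) z
  obtain ⟨α', hα'⟩ : ∃ α', α' = α₀ + lv c z := ⟨_, rfl⟩
  obtain ⟨β', hβ'⟩ : ∃ β', β' = β₀ + c.q z := ⟨_, rfl⟩
  rw [← hα', ← hβ'] at hP'
  have hα1 : α₁ - s / 4 - 2 * c.C ≤ α' := by
    have := (abs_le.1 hz1).1
    linarith only [this, hα']
  have hα2 : α' ≤ α₁ - s / 4 + 2 * c.C := by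
    have := (abs_le.1 hz1).2
    linarith only [this, hα']
  have hβ1 : |β' - β₁| ≤ c.C := by
    have : β' - β₁ = β₀ - β₁ + c.q z := by rw [hβ']; ring
    rw [this]
    exact hz2
  have hβ2 := abs_le.1 hβ1
  have hOv := hov S R M (l4.trans hSs) (le_trans (by
      calc 2 * S ^ 22 ≤ S * S ^ 22 := mul_le_mul_of_nonneg_right (by linarith only [l7, hC, hSs]) (by positivity)
        _ = S ^ 23 := by ring) (hRp 23 (by norm_num))) ((le_self_pow₀ hS1 (by norm_num)).trans (hRp 1 (by norm_num))) hG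
  have hkey : ∀ τ, Bd Q.a Q.b τ → ¬ Tb c τ σ α₁ β₁ s (η * s) (2 * K * F + 2 * Y) →
      (¬ Cr Q.b c r (10 * r) r S α' β' (K * (2 * F)) τ ∨ ¬ Ov g (S ^ 22) S τ) ∨ Lk c ((c.C + 2 * A) * s) Y τ := by
    intro τ hτ
    contrapose!
    rintro ⟨⟨hC1, hO⟩, hY⟩
    have hY' : ∀ u v : V, nm u ≤ (c.C + 2 * A) * s → nm v ≤ (c.C + 2 * A) * s → lv c (v - u) - Y ≤ T τ u v := by
      intro u v h1 h2
      by_contra h3
      exact hY ⟨u, v, h1, h2, (not_le.1 h3).le⟩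
    obtain ⟨x, y, hW, hKc⟩ := hC1
    obtain ⟨⟨x1, x2, x3⟩, y1, y2, y3⟩ := hW
    obtain ⟨x3a, x3b⟩ := abs_le.1 x3
    obtain ⟨y3a, y3b⟩ := abs_le.1 y3
    have hrr : r ≤ s / 1000 := by rw [hrs]; linarith only [hηs1, hs0]
    have hCC : c.C ≤ s / 1000 := by linarith only [l7]
    have nx : nm x ≤ c.C * s := by
      have h1 := nm_le_lq c x
      have h2 : |lv c x| ≤ s / 4 + 6 * c.C + r := by
        rw [abs_le]
        constructor <;> linarith only [x1, x2, hα1, hα2, hr0, hC, hs0, va, vb]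
      have h3 : |c.q x| ≤ 2 * c.C + 2 * r := by
        rw [abs_le]
        constructor <;> linarith only [x3a, x3b, hβ2.1, hβ2.2, vc, vd]
      have h4 : |lv c x| + |c.q x| ≤ s / 2 := by linarith only [h2, h3, hrr, hCC, hs0]
      calc nm x ≤ 2 * c.C * (|lv c x| + |c.q x|) := h1
        _ ≤ 2 * c.C * (s / 2) := mul_le_mul_of_nonneg_left h4 (by linarith only [hC])
        _ = c.C * s := by ring
    have hconf' := hconf S r S (l3.trans hSs) (by rw [hr]) (by linarith only [hrr, hSs, hs0]) hS0.le le_rfl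
    have hbox : nm x + A * S ≤ S ^ 22 := by
      have h1 : c.C + A ≤ S := by linarith only [hCC, l8, hSs, hs0, hA]
      have h2 : c.C * s ≤ c.C * S := mul_le_mul_of_nonneg_left hSs (by linarith only [hC])
      calc nm x + A * S ≤ (c.C + A) * S := by linarith only [nx, h2]
        _ ≤ S * S := mul_le_mul_of_nonneg_right h1 hS0.le
        _ = S ^ 2 := by ring
        _ ≤ S ^ 22 := pow_le_pow_right₀ hS1 (by norm_num)
    have hKF : K * (2 * F) ≤ S ^ (4 / 5 : ℝ) / 4 := by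
      have h1 : s ^ (4 / 5 : ℝ) ≤ S ^ (4 / 5 : ℝ) := Real.rpow_le_rpow hs0.le hSs (by norm_num)
      have h2 := mul_le_mul_of_nonneg_left hFs (by linarith only [hK] : 0 ≤ 8 * K)
      have h3 : 8 * K * (CF * s ^ (3 / 4 : ℝ)) = 8 * K * CF * s ^ (3 / 4 : ℝ) := by ring
      linarith only [h1, h2, h3, w1]
    obtain ⟨w, hw1, hw2, hw3⟩ := hpath S r S (S ^ 22) α' β' (K * (2 * F)) τ x y (l1.trans hSs)
      (by rw [hrs]; linarith only [hηs, hC]) (by linarith only [hrr, hSs, hs0]) le_rfl hS0.le hτ hO hconf'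
      ⟨⟨x1, x2, x3⟩, y1, y2, y3⟩ hbox hKF hKc
    have hnw : ∀ u ∈ w.support, nm u ≤ (c.C + 2 * A) * s := by
      intro u hu
      have h1 := nm_add_le x (u - x)
      rw [add_sub_cancel] at h1
      have h2 := (hw3 u hu).2
      have h3 : A * S = 2 * A * s := by rw [hS]; ring
      linarith only [h1, h2, h3, nx]
    have hgood := bgd_of_noluck ha.le hτ (Y := Y) hw1 hw2 fun u hu v hv => hY' u v (hnw u hu) (hnw v hv)
    have e1 : K * (2 * F) + 2 * Y = 2 * K * F + 2 * Y := by ring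
    rw [e1] at hgood
    refine tb_cut hgood (by linarith only [x2, hα2, hCC, hs0]) (by linarith only [y1, hα1, hCC, hs0, hS])
      (by linarith only [hCC, hs0]) fun u hu hu1 hu2 => ?_
    have h1 := abs_le.1 (hw3 u hu).1
    have h2 : 10 * r = η * s / 4 := by rw [hrs]; ring
    have h3 : |σ * (lv c u - α₁)| ≤ η / 2 * s := by
      rw [abs_mul]
      refine mul_le_mul hσ ?_ (abs_nonneg _) (by positivity)
      rw [abs_le]
      constructor <;> linarith only [hu1, hu2, hs0]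
    have h4 := abs_le.1 h3
    rw [abs_le]
    constructor <;> linarith only [h1.1, h1.2, h2, hβ2.1, hβ2.2, hηs, hC, h4.1, h4.2]
  have h1 := M.P_mono hkey
  have h2 := M.P_or (fun τ => ¬ Cr Q.b c r (10 * r) r S α' β' (K * (2 * F)) τ ∨ ¬ Ov g (S ^ 22) S τ)
    (fun τ => Lk c ((c.C + 2 * A) * s) Y τ)
  have h3 := M.P_or (fun τ => ¬ Cr Q.b c r (10 * r) r S α' β' (K * (2 * F)) τ) (fun τ => ¬ Ov g (S ^ 22) S τ)
  have h4 := M.P_not (Cr Q.b c r (10 * r) r S α' β' (K * (2 * F)))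
  have h5 := M.P_not (fun τ => Tb c τ σ α₁ β₁ s (η * s) (2 * K * F + 2 * Y))
  have h6 : M.P (fun τ => Lk c ((c.C + 2 * A) * s) Y τ) ≤ p / 4 := hluck
  linarith only [h1, h2, h3, h4, h5, hP, hP', hOv, h6, hp]

/-- Another slope. -/
theorem Tb_slope {c : Crd} {τ : Env} {B σ α β ℓ W W' : ℝ} (hℓ : |σ| * ℓ + W ≤ W') (h : Tb c τ 0 α β ℓ W B) :
    Tb c τ σ α β ℓ W' B := by
  obtain ⟨x, y, w, h1, h2, h3, h4⟩ := h
  refine ⟨x, y, w, h1, h2, fun z hz => ⟨(h3 z hz).1, ?_⟩, h4⟩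
  obtain ⟨⟨e1, e2⟩, e3⟩ := h3 z hz
  rw [zero_mul, sub_zero] at e3
  have e4 : |σ * (lv c z - α)| ≤ |σ| * ℓ := by
    rw [abs_mul]
    refine mul_le_mul_of_nonneg_left ?_ (abs_nonneg _)
    rw [abs_of_nonneg (by linarith)]
    linarith
  exact (abs_sub _ _).trans (by linarith)

/-- The regularised excess is at most the crude bound. -/
theorem MH_min {N : ℕ} {x : ℕ → ℝ} {j : ℕ} {H C₀ : ℝ} (hC₀ : 1 ≤ C₀)
    (hcr : ∀ j, j ≤ N → x j ≤ C₀ * ((2 : ℝ) ^ (3 / 4 : ℝ)) ^ j) (h : MH Ag N x j H) :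
    MH Ag N x j (min H (C₀ * ((2 : ℝ) ^ (3 / 4 : ℝ)) ^ j)) := by
  intro m hm hmN
  have hA : 0 < Ag := by unfold Ag; positivity
  have hθ : (2 : ℝ) ^ (3 / 4 : ℝ) ≤ Ag := Real.rpow_le_rpow_of_exponent_le (by norm_num) (by norm_num)
  rw [mul_min_of_nonneg _ _ (by positivity)]
  refine le_min (h m hm hmN) ((hcr m hmN).trans ?_)
  have h1 : ((2 : ℝ) ^ (3 / 4 : ℝ)) ^ m = ((2 : ℝ) ^ (3 / 4 : ℝ)) ^ (m - j) * ((2 : ℝ) ^ (3 / 4 : ℝ)) ^ j := by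
    rw [← pow_add, Nat.sub_add_cancel hm]
  have h2 : ((2 : ℝ) ^ (3 / 4 : ℝ)) ^ (m - j) ≤ Ag ^ (m - j) := pow_le_pow_left₀ (by positivity) hθ _
  calc C₀ * ((2 : ℝ) ^ (3 / 4 : ℝ)) ^ m
      = ((2 : ℝ) ^ (3 / 4 : ℝ)) ^ (m - j) * (C₀ * ((2 : ℝ) ^ (3 / 4 : ℝ)) ^ j) := by rw [h1]; ring
    _ ≤ Ag ^ (m - j) * (C₀ * ((2 : ℝ) ^ (3 / 4 : ℝ)) ^ j) := mul_le_mul_of_nonneg_right h2 (by positivity)

/-- `MH` at a larger scale. -/
theorem MH_shift {N : ℕ} {x : ℕ → ℝ} {j k : ℕ} {H : ℝ} (hjk : j ≤ k) (h : MH Ag N x j H) :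
    MH Ag N x k (Ag ^ (k - j) * H) := by
  intro m hm hmN
  have h1 := h m (hjk.trans hm) hmN
  rw [← mul_assoc, ← pow_add]
  have h2 : m - k + (k - j) = m - j := by omega
  rw [h2]
  exact h1

/-- The growth of `Fm` from `P1_mean`. -/
theorem Fm_growth {Q : Par} {c : Crd} {e : ℝ} {M : Mdl Q.a Q.b} {N j : ℕ} {C H : ℝ}
    (hmean : ∀ (j : ℕ) (H : ℝ), 4 * j ≤ N → MH Ag N (xs M c e) j H → Fm M c 3 (2 ^ j) ≤ C * H) (hC : 1 ≤ C)
    (hH : 0 < H) (hj : 2 ≤ j) (hjN : 16 * j ≤ N) (h : MH Ag N (xs M c e) j H) (n : ℝ) (hn1 : 2 * 2 ^ j ≤ n)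
    (hn2 : n ≤ 4 * (2 ^ j) ^ 2) : Fm M c 3 n ≤ 2 * C * H * (n / 2 ^ j) ^ (9 / 10 : ℝ) := by
  have h2j : (1 : ℝ) ≤ 2 ^ j := one_le_pow₀ (by norm_num)
  have hn0 : 0 < n := by linarith
  obtain ⟨m, hm1, hm2⟩ := exists_nat_pow_near (by linarith : 1 ≤ n) (one_lt_two : (1 : ℝ) < 2)
  have hmj : j + 1 < m + 1 := by
    have h1 : (2 : ℝ) ^ (j + 1) < 2 ^ (m + 1) := by
      rw [pow_succ]
      linarith
    exact (pow_lt_pow_iff_right₀ (by norm_num : (1 : ℝ) < 2)).1 h1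
  have hmj2 : m ≤ 2 * j + 2 := by
    have h1 : (2 : ℝ) ^ m ≤ 2 ^ (2 * j + 2) := by
      refine hm1.trans (hn2.trans (le_of_eq ?_))
      rw [pow_add, pow_mul, ← pow_mul, ← pow_mul, mul_comm j 2]
      ring
    exact (pow_le_pow_iff_right₀ (by norm_num : (1 : ℝ) < 2)).1 h1
  have h3 := hmean (m + 1) (Ag ^ (m + 1 - j) * H) (by omega) (MH_shift (by omega) h)
  have h4 : Fm M c 3 n ≤ Fm M c 3 (2 ^ (m + 1)) := Fm_mono M c (by norm_num) hm2.le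
  have hA0 : 0 < Ag := by unfold Ag; positivity
  have hA2 : Ag ≤ 2 := by
    unfold Ag
    calc (2 : ℝ) ^ (9 / 10 : ℝ) ≤ 2 ^ (1 : ℝ) := Real.rpow_le_rpow_of_exponent_le (by norm_num) (by norm_num)
      _ = 2 := Real.rpow_one 2
  have h5 : Ag ^ (m - j) ≤ (n / 2 ^ j) ^ (9 / 10 : ℝ) := by
    have h6 : Ag ^ (m - j) = ((2 : ℝ) ^ (m - j)) ^ (9 / 10 : ℝ) := by
      unfold Ag
      rw [← Real.rpow_natCast, ← Real.rpow_natCast, ← Real.rpow_mul (by norm_num), ← Real.rpow_mul (by norm_num), mul_comm]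
    rw [h6]
    refine Real.rpow_le_rpow (by positivity) ?_ (by norm_num)
    rw [le_div_iff₀ (by positivity), ← pow_add, Nat.sub_add_cancel (by omega)]
    exact hm1
  have h7 : Ag ^ (m + 1 - j) = Ag * Ag ^ (m - j) := by
    rw [← pow_succ']
    congr 1
    omega
  have h8 : Ag ^ (m + 1 - j) ≤ 2 * (n / 2 ^ j) ^ (9 / 10 : ℝ) := by
    rw [h7]
    exact mul_le_mul hA2 h5 (by positivity) (by norm_num)
  have h9 : 0 < C * H := by positivity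
  calc Fm M c 3 n ≤ C * (Ag ^ (m + 1 - j) * H) := h4.trans h3
    _ = Ag ^ (m + 1 - j) * (C * H) := by ring
    _ ≤ 2 * (n / 2 ^ j) ^ (9 / 10 : ℝ) * (C * H) := mul_le_mul_of_nonneg_right h8 h9.le
    _ = 2 * C * H * (n / 2 ^ j) ^ (9 / 10 : ℝ) := by ring

theorem Lk_mono {c : Crd} {L L' y : ℝ} {τ : Env} (h : L ≤ L') (h1 : Lk c L y τ) : Lk c L' y τ := by
  obtain ⟨u, v, h2, h3, h4⟩ := h1
  exact ⟨u, v, h2.trans h, h3.trans h, h4⟩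

theorem Lk_swp {c : Crd} {L y : ℝ} {τ : Env} : Lk (swp c) L y τ ↔ Lk c L y τ := by
  unfold Lk
  simp only [lv_swp]

/-- (P4) The soft base, from `xs_basic`, `P1_mean`, `P1_luck`. -/
theorem P4_soft' {Q : Par} {g : V → ℝ} {c : Crd} (hg : IsMean Q g) (hM : HasModels Q g) (hf : FlatS g c) {e p : ℝ} (hp : 0 < p)
    (hxs : ∃ C₀ : ℝ, 1 ≤ C₀ ∧ ∀ (N : ℕ) (R : ℝ) (M : Mdl Q.a Q.b), Hor Q g N R M →
      (∀ j, 1 ≤ xs M c e j) ∧ (∀ i j, i ≤ j → j ≤ N → xs M c e i ≤ xs M c e j) ∧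
      ∀ j, j ≤ N → xs M c e j ≤ C₀ * ((2 : ℝ) ^ (3 / 4 : ℝ)) ^ j)
    (hmean : ∃ C : ℝ, 1 ≤ C ∧ ∀ (N : ℕ) (R : ℝ) (M : Mdl Q.a Q.b) (j : ℕ) (H : ℝ), Hor Q g N R M → 4 * j ≤ N →
      MH Ag N (xs M c e) j H → Fm M c 3 (2 ^ j) ≤ C * H)
    (hluck : ∀ L : ℝ, 1 ≤ L → ∃ C : ℝ, 1 ≤ C ∧ ∀ (N : ℕ) (R : ℝ) (M : Mdl Q.a Q.b) (j : ℕ) (H y : ℝ), Hor Q g N R M →
      16 * j ≤ N → MH Ag N (xs M c e) j H → 0 < y → M.P (Lk c (L * 2 ^ j) y) ≤ C * (H / y) ^ (20 / 9 : ℝ)) :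
    ∃ K : ℝ, 1 ≤ K ∧ Soft Q g c e p K := by
  obtain ⟨C₀, hC₀, hx⟩ := hxs
  obtain ⟨Cm, hCm, hm⟩ := hmean
  obtain ⟨L₁, hL₁, ht₁⟩ := soft_tb hg hM hf (le_refl (3 : ℝ))
  obtain ⟨L₂, hL₂, ht₂⟩ := soft_tb hg hM (FlatS_swp hf) (le_refl (3 : ℝ))
  obtain ⟨p', hp', hp'1, hp'p⟩ : ∃ p' : ℝ, 0 < p' ∧ p' ≤ 1 ∧ p' ≤ p :=
    ⟨min p 1, lt_min hp one_pos, min_le_right _ _, min_le_left _ _⟩
  obtain ⟨K₁, hK₁, hs₁⟩ := ht₁ p' hp' hp'1
  obtain ⟨K₂, hK₂, hs₂⟩ := ht₂ p' hp' hp'1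
  obtain ⟨CL, hCL, hl⟩ := hluck (max L₁ L₂) (hL₁.trans (le_max_left _ _))
  obtain ⟨CY, hCY⟩ : ∃ CY, CY = 4 * CL / p' := ⟨_, rfl⟩
  have hCY4 : 4 * CL ≤ CY := by
    rw [hCY, le_div_iff₀ hp']
    nlinarith
  have hCY1 : 1 ≤ CY := by linarith
  have hCY0 : 0 < CY := by linarith
  have hCYp : CL * (1 / CY) ^ (20 / 9 : ℝ) ≤ p' / 4 := by
    have h1 : (1 / CY) ^ (20 / 9 : ℝ) ≤ 1 / CY := by
      calc (1 / CY) ^ (20 / 9 : ℝ) ≤ (1 / CY) ^ (1 : ℝ) :=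
            Real.rpow_le_rpow_of_exponent_ge (by positivity) (by rw [div_le_one hCY0]; exact hCY1) (by norm_num)
        _ = 1 / CY := Real.rpow_one _
    calc CL * (1 / CY) ^ (20 / 9 : ℝ) ≤ CL * (1 / CY) := mul_le_mul_of_nonneg_left h1 (by linarith)
      _ = p' / 4 := by
        rw [hCY]
        field_simp
  obtain ⟨K, hK⟩ : ∃ K, K = (max K₁ K₂) * (2 * Cm) + 2 * CY := ⟨_, rfl⟩
  have hKm : 1 ≤ max K₁ K₂ := hK₁.trans (le_max_left _ _)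
  refine ⟨K, by nlinarith, fun η hη => ?_⟩
  obtain ⟨η', hη', hη'1, hη'2⟩ : ∃ η' : ℝ, 0 < η' ∧ η' ≤ 1 / 1000 ∧ η' ≤ η / 2 :=
    ⟨min (1 / 1000) (η / 2), lt_min (by norm_num) (by linarith), min_le_left _ _, min_le_right _ _⟩
  obtain ⟨a₁, ha₁, hb₁⟩ := hs₁ η' hη' hη'1 (2 * Cm * C₀) (by nlinarith)
  obtain ⟨a₂, ha₂, hb₂⟩ := hs₂ η' hη' hη'1 (2 * Cm * C₀) (by nlinarith)
  refine ⟨⌈a₁⌉₊ + ⌈a₂⌉₊ + 2, fun N R M j H hHor hj hjN hMH d hd σ α β hσ => ?_⟩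
  obtain ⟨hx1, hx2, hx3⟩ := hx N R M hHor
  obtain ⟨s, hs⟩ : ∃ s : ℝ, s = 2 ^ j := ⟨_, rfl⟩
  have hjs : (j : ℝ) ≤ s := by
    have h1 : j ≤ 2 ^ j := Nat.lt_two_pow_self.le
    have h2 : (j : ℝ) ≤ ((2 ^ j : ℕ) : ℝ) := by exact_mod_cast h1
    rw [hs]
    refine h2.trans (le_of_eq ?_)
    push_cast
    rfl
  have has₁ : a₁ ≤ s := by
    have h1 := Nat.le_ceil a₁
    have h2 : ((⌈a₁⌉₊ : ℕ) : ℝ) ≤ j := by
      have : ⌈a₁⌉₊ ≤ j := by omega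
      exact_mod_cast this
    linarith
  have has₂ : a₂ ≤ s := by
    have h1 := Nat.le_ceil a₂
    have h2 : ((⌈a₂⌉₊ : ℕ) : ℝ) ≤ j := by
      have : ⌈a₂⌉₊ ≤ j := by omega
      exact_mod_cast this
    linarith
  have hs1 : 1 ≤ s := ha₁.trans has₁
  have hs0 : 0 < s := by linarith
  obtain ⟨H', hH'⟩ : ∃ H', H' = min H (C₀ * ((2 : ℝ) ^ (3 / 4 : ℝ)) ^ j) := ⟨_, rfl⟩
  have hMH' : MH Ag N (xs M c e) j H' := by rw [hH']; exact MH_min hC₀ hx3 hMH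
  have hH1 : 1 ≤ H' := by
    have h1 := hMH' j le_rfl (by omega)
    rw [Nat.sub_self, pow_zero, one_mul] at h1
    exact (hx1 j).trans h1
  have hH0 : 0 < H' := by linarith
  have hHH : H' ≤ H := by rw [hH']; exact min_le_left _ _
  have hHc : H' ≤ C₀ * s ^ (3 / 4 : ℝ) := by
    have h1 : H' ≤ C₀ * ((2 : ℝ) ^ (3 / 4 : ℝ)) ^ j := by rw [hH']; exact min_le_right _ _
    have h2 : ((2 : ℝ) ^ (3 / 4 : ℝ)) ^ j = s ^ (3 / 4 : ℝ) := by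
      rw [hs, ← Real.rpow_natCast, ← Real.rpow_natCast, ← Real.rpow_mul (by norm_num), ← Real.rpow_mul (by norm_num), mul_comm]
    rwa [h2] at h1
  have hR : (2 * s) ^ 300 ≤ R := by
    refine le_trans (pow_le_pow_left₀ (by positivity) ?_ 300) hHor.2
    rw [hs, ← pow_succ']
    exact pow_le_pow_right₀ (by norm_num) (by omega)
  have hgr : ∀ n : ℝ, 2 * s ≤ n → n ≤ 4 * s ^ 2 → Fm M c 3 n ≤ 2 * Cm * H' * (n / s) ^ (9 / 10 : ℝ) := by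
    intro n h1 h2
    rw [hs] at h1 h2 ⊢
    exact Fm_growth (fun j H h3 h4 => hm N R M j H hHor h3 h4) hCm hH0 (by omega) hjN hMH' n h1 h2
  have hlk : M.P (Lk c (max L₁ L₂ * s) (CY * H')) ≤ p' / 4 := by
    have h1 := hl N R M j H' (CY * H') hHor (by omega) hMH' (by positivity)
    have h2 : H' / (CY * H') = 1 / CY := by field_simp
    rw [h2] at h1
    rw [hs]
    exact h1.trans hCYp
  have hF1 : 1 ≤ 2 * Cm * H' := by nlinarith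
  have hFc : 2 * Cm * H' ≤ 2 * Cm * C₀ * s ^ (3 / 4 : ℝ) := by
    have := mul_le_mul_of_nonneg_left hHc (by linarith : 0 ≤ 2 * Cm)
    linarith
  -- the conclusion from `soft_tb`
  have hfin : ∀ d : Crd, ∀ K' : ℝ, K' ≤ max K₁ K₂ →
      1 - p' ≤ M.P (fun τ => Tb d τ 0 α β s (η' * s) (K' * (2 * Cm * H') + 2 * (CY * H'))) →
      M.P (fun τ => ¬ Tb d τ σ α β (2 ^ j) (η * 2 ^ j) (K * H)) ≤ p := by
    intro d K' hK' h1
    have h2 : M.P (fun τ => Tb d τ 0 α β s (η' * s) (K' * (2 * Cm * H') + 2 * (CY * H'))) ≤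
        M.P (fun τ => Tb d τ σ α β (2 ^ j) (η * 2 ^ j) (K * H)) := by
      refine M.P_mono fun τ _ h3 => ?_
      rw [← hs]
      refine Tb_slope ?_ (Tb_mono ?_ h3)
      · have h4 := mul_le_mul_of_nonneg_right hσ hs0.le
        have h5 := mul_le_mul_of_nonneg_right hη'2 hs0.le
        linarith
      · have h4 : K' * (2 * Cm * H') ≤ max K₁ K₂ * (2 * Cm * H') := mul_le_mul_of_nonneg_right hK' (by positivity)
        have h5 : K * H' ≤ K * H := mul_le_mul_of_nonneg_left hHH (by rw [hK]; positivity)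
        have h6 : K * H' = max K₁ K₂ * (2 * Cm * H') + 2 * (CY * H') := by rw [hK]; ring
        linarith
    have h3 := M.P_not (fun τ => Tb d τ σ α β (2 ^ j) (η * 2 ^ j) (K * H))
    linarith
  rcases hd with rfl | rfl
  · refine hfin d K₁ (le_max_left _ _) (hb₁ s R M has₁ hR hHor.1 _ hF1 hFc hgr (CY * H') ?_ 0 α β (by rw [abs_zero]; positivity))
    refine le_trans (M.P_mono fun τ _ h => Lk_mono ?_ h) hlk
    exact mul_le_mul_of_nonneg_right (le_max_left _ _) hs0.le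
  · refine hfin (swp c) K₂ (le_max_right _ _) (hb₂ s R M has₂ hR hHor.1 _ hF1 hFc ?_ (CY * H') ?_ 0 α β
      (by rw [abs_zero]; positivity))
    · intro n h1 h2
      rw [Fm_swp]
      exact hgr n h1 h2
    · refine le_trans (M.P_mono fun τ _ h => Lk_mono ?_ (Lk_swp.1 h)) hlk
      exact mul_le_mul_of_nonneg_right (le_max_right _ _) hs0.le

end Pool.Agent.W_1b8d5d_sc
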