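import Pool.Agent.W_1b8d5d_sc.P5Fin

/-!
MP_1b8d5d_pr (SC, part P5): the increment of the excess from the tubes, both ends.
-/

set_option autoImplicit false

namespace Pool.Agent.W_1b8d5d_sc

open Finset Pool.Agent.W_1b8d5d_h85 Pool.Agent.W_1b8d5d_fe

private theorem P5Inc_Lk (c : Crd) (L y : ℝ) : Lk (swp c) L y = Lk c L y := by
  funext τ
  unfold Lk
  simp only [lv_swp]

/-- (P5) The increment of the excess from a tube (restarts), from (P1). -/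
theorem P5_inc' {Q : Par} {g : V → ℝ} {c : Crd} (hg : IsMean Q g) (hf : FlatS g c)
    (hmean : ∀ {e D : ℝ}, 0 < e → e ≤ 1 / 3 → 3 ≤ D → D * e ≤ 2 →
      ∃ C : ℝ, 1 ≤ C ∧ ∀ (N : ℕ) (R : ℝ) (M : Mdl Q.a Q.b) (j : ℕ) (H : ℝ), Hor Q g N R M → 4 * j ≤ N →
        MH Ag N (xs M c e) j H → Fm M c D (2 ^ j) ≤ C * H)
    (hluck : ∀ {e L : ℝ}, 0 < e → e ≤ 1 / 3 → 1 ≤ L →
      ∃ C : ℝ, 1 ≤ C ∧ ∀ (N : ℕ) (R : ℝ) (M : Mdl Q.a Q.b) (j : ℕ) (H y : ℝ), Hor Q g N R M → 16 * j ≤ N →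
        MH Ag N (xs M c e) j H → 0 < y → M.P (Lk c (L * 2 ^ j) y) ≤ C * (H / y) ^ (20 / 9 : ℝ)) :
    ∃ (e σ₀ C κ : ℝ) (i₀ : ℕ), 0 < e ∧ e ≤ 1 / 3 ∧ 0 < σ₀ ∧ 0 ≤ C ∧ 0 < κ ∧
      ∀ (N : ℕ) (R : ℝ) (M : Mdl Q.a Q.b), Hor Q g N R M → ∀ (i j : ℕ) (b B H : ℝ), i₀ ≤ i → i < j → 16 * j ≤ N →
        0 ≤ b → 1 ≤ B → Tub M c σ₀ j b B → b ≤ κ * 2 ^ i / 2 ^ j → B ≤ κ * 2 ^ i → MH Ag N (xs M c e) j H →
        xs M c e (i + 1) ≤ xs M c e i + C * (2 ^ i / 2 ^ j + 1 / 2 ^ i) * (B + H) := by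
  have hC := c.one_le
  have he0 := ee_pos c
  have he1 := ee_le c
  have he3 : ee c ≤ 1 / 3 := he1.trans (by norm_num)
  have ha := Q.ha.le
  have hab := Q.hab.le
  obtain ⟨CD, hCD, hm⟩ := hmean (e := ee c) (D := 2 / ee c) he0 he3
    (by
      rw [le_div_iff₀ he0]
      linarith)
    (by rw [div_mul_cancel₀ _ he0.ne'])
  obtain ⟨CL, hCL, hl⟩ := hluck (e := ee c) (L := 30 * c.C) he0 he3 (by linarith)
  obtain ⟨C₂, κ₂, i₂, h1, h2, H1⟩ := one_end hg hf hCD hCL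
  obtain ⟨C₃, κ₃, i₃, h3, h4, H2⟩ := one_end hg (FlatS_swp hf) hCD hCL
  refine ⟨ee c, ee c / 100, C₂ + C₃ + 16, min κ₂ κ₃, max i₂ i₃, he0, he3, by positivity, by linarith, lt_min h2 h4, ?_⟩
  intro N R M hH i j b B H hi hij hjN hb0 hB1 hT hb hB hMH
  have hx1 : ∀ k, 1 ≤ xs M c (ee c) k := fun k => Mg_one_le ha hab he0 he3 _
  have hxm : ∀ k l : ℕ, k ≤ l → xs M c (ee c) k ≤ xs M c (ee c) l := fun k l hkl =>
    Mg_mono ha hab he0 he3 (pow_le_pow_right₀ (by norm_num) hkl)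
  have hxj : xs M c (ee c) j ≤ H := by
    have := hMH j le_rfl (by omega)
    rwa [Nat.sub_self, pow_zero, one_mul] at this
  have hH1 : 1 ≤ H := (hx1 j).trans hxj
  have p0 : (0 : ℝ) < 2 ^ i := by positivity
  have pj : (0 : ℝ) < 2 ^ j := by positivity
  have f1 : (0 : ℝ) ≤ 2 ^ i / 2 ^ j := by positivity
  have f2 : (0 : ℝ) ≤ 1 / 2 ^ i := by positivity
  have f3 : 0 ≤ (2 ^ i / 2 ^ j + 1 / 2 ^ i) * (B + H) := mul_nonneg (by linarith) (by linarith)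
  rcases Nat.lt_or_ge j (i + 5) with h5 | h5
  · -- trivial case
    have h6 : (2 : ℝ) ^ j ≤ 16 * 2 ^ i := by
      have h7 : (2 : ℝ) ^ j ≤ 2 ^ (i + 4) := pow_le_pow_right₀ (by norm_num) (by omega)
      have h8 : (2 : ℝ) ^ (i + 4) = 16 * 2 ^ i := by
        rw [pow_add]
        ring
      linarith
    have h7 : (1 : ℝ) / 16 ≤ 2 ^ i / 2 ^ j := by
      rw [div_le_div_iff₀ (by norm_num) pj]
      linarith
    have h8 : 1 / 16 * H ≤ (2 ^ i / 2 ^ j + 1 / 2 ^ i) * (B + H) :=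
      mul_le_mul (by linarith) (by linarith) (by linarith) (by linarith)
    have h9 : 16 * ((2 ^ i / 2 ^ j + 1 / 2 ^ i) * (B + H)) ≤ (C₂ + C₃ + 16) * ((2 ^ i / 2 ^ j + 1 / 2 ^ i) * (B + H)) :=
      mul_le_mul_of_nonneg_right (by linarith) f3
    have h10 := hxm (i + 1) j (by omega)
    have h11 := hx1 i
    rw [mul_assoc]
    linarith
  · -- the increment
    have hR : 2 * ((2 : ℝ) ^ j) ^ 4 ≤ R := by
      refine le_trans ?_ hH.2
      rw [← pow_mul, ← pow_mul]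
      have h6 : (2 : ℝ) * 2 ^ (j * 4) = 2 ^ (j * 4 + 1) := by
        rw [pow_succ]
        ring
      rw [h6]
      exact pow_le_pow_right₀ (by norm_num) (by omega)
    have hκ1 : b ≤ κ₂ * 2 ^ i / 2 ^ j := hb.trans (div_le_div_of_nonneg_right
      (mul_le_mul_of_nonneg_right (min_le_left _ _) p0.le) pj.le)
    have hκ2 : b ≤ κ₃ * 2 ^ i / 2 ^ j := hb.trans (div_le_div_of_nonneg_right
      (mul_le_mul_of_nonneg_right (min_le_right _ _) p0.le) pj.le)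
    have hκ3 : B ≤ κ₂ * 2 ^ i := hB.trans (mul_le_mul_of_nonneg_right (min_le_left _ _) p0.le)
    have hκ4 : B ≤ κ₃ * 2 ^ i := hB.trans (mul_le_mul_of_nonneg_right (min_le_right _ _) p0.le)
    have hF := hm N R M j H hH (by omega) hMH
    have hL := fun (y : ℝ) (hy : 0 < y) => hl N R M j H y hH hjN hMH hy
    have e1 := H1 R M i j b B H hH.1 (by omega) h5 hR hb0 hB1 hH1 (P_Cx_of_Tub hT (Or.inl rfl)) hκ1 hκ3 hF hL
    have e2 := H2 R M i j b B H hH.1 (by omega) h5 hR hb0 hB1 hH1 (P_Cx_of_Tub hT (Or.inr rfl)) hκ2 hκ4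
      (by rw [Fm_swp]; exact hF) (fun y hy => by rw [P5Inc_Lk]; exact hL y hy)
    have f4 : C₂ * (2 ^ i / 2 ^ j + 1 / 2 ^ i) * (B + H) ≤ (C₂ + C₃ + 16) * (2 ^ i / 2 ^ j + 1 / 2 ^ i) * (B + H) := by
      rw [mul_assoc, mul_assoc]
      exact mul_le_mul_of_nonneg_right (by linarith) f3
    have f5 : C₃ * (2 ^ i / 2 ^ j + 1 / 2 ^ i) * (B + H) ≤ (C₂ + C₃ + 16) * (2 ^ i / 2 ^ j + 1 / 2 ^ i) * (B + H) := by
      rw [mul_assoc, mul_assoc]
      exact mul_le_mul_of_nonneg_right (by linarith) f3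
    have f6 : 0 ≤ (C₂ + C₃ + 16) * (2 ^ i / 2 ^ j + 1 / 2 ^ i) * (B + H) := by
      rw [mul_assoc]
      exact mul_nonneg (by linarith) f3
    have key : Mg M c (ee c) (2 ^ (i + 1)) ≤
        1 + (xs M c (ee c) i - 1 + (C₂ + C₃ + 16) * (2 ^ i / 2 ^ j + 1 / 2 ^ i) * (B + H)) := by
      refine Mg_le (by linarith [hx1 i]) fun y hy hyl => ?_
      rcases le_or_gt (lv c y) (2 ^ i) with h6 | h6
      · have h7 := Sg_le (M := M) he0 he3 hy h6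
        unfold xs
        linarith
      · rcases hy with hy | hy
        · obtain ⟨x₀, g1, g2, g3⟩ := e1 y hy h6 hyl
          have h7 := Sg_le (M := M) he0 he3 (Or.inr g1) g2
          unfold xs
          linarith
        · obtain ⟨x₀, g1, g2, g3⟩ := e2 y hy (by rw [lv_swp]; exact h6) (by rw [lv_swp]; exact hyl)
          rw [Sg_swp, Sg_swp] at g3
          rw [lv_swp] at g2
          have h7 := Sg_le (M := M) (c := c) he0 he3 (Or.inl g1) g2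
          unfold xs
          linarith
    have e3 : xs M c (ee c) (i + 1) = Mg M c (ee c) (2 ^ (i + 1)) := rfl
    rw [e3]
    linarith

end Pool.Agent.W_1b8d5d_sc
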