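import Pool.Agent.W_1b8d5d_sc.WinFin
import Pool.Agent.W_1b8d5d_sc.P4
import Pool.Agent.W_1b8d5d_sc.Core
import Pool.Agent.W_1b8d5d_sc.P1Tail
import Pool.Agent.W_1b8d5d_sc.P1Mean
import Pool.Agent.W_1b8d5d_sc.P1LuckB
import Pool.Agent.W_1b8d5d_sc.XsB
import Pool.Agent.W_1b8d5d_sc.P5Inc

/-!
MP_1b8d5d_pr (SC, no flat side): the parts P1, P3, P4, P5, P7, P8 give the core of the proof: there is no flat piece.
-/

set_option autoImplicit false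

namespace Pool.Agent.W_1b8d5d_sc

open Finset Pool.Agent.W_1b8d5d_h85 Pool.Agent.W_1b8d5d_fe

variable {Q : Par} {g : V → ℝ} {c : Crd}

/-- (P1) The mean positive excess in the middle directions. -/
theorem P1_mean (hf : FlatS g c) {e D : ℝ} (he : 0 < e) (he1 : e ≤ 1 / 3) (hD : 3 ≤ D) (hDe : D * e ≤ 2) :
    ∃ C : ℝ, 1 ≤ C ∧ ∀ (N : ℕ) (R : ℝ) (M : Mdl Q.a Q.b) (j : ℕ) (H : ℝ), Hor Q g N R M → 4 * j ≤ N → MH Ag N (xs M c e) j H →
      Fm M c D (2 ^ j) ≤ C * H :=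
  P1_mean' he he1 hD hDe (P1_tail hf he he1 hD hDe)

/-- (P1) The tail of the luck of a box. -/
theorem P1_luck (hg : IsMean Q g) (hM : HasModels Q g) (hf : FlatS g c) {e L : ℝ} (he : 0 < e) (he1 : e ≤ 1 / 3) (hL : 1 ≤ L) :
    ∃ C : ℝ, 1 ≤ C ∧ ∀ (N : ℕ) (R : ℝ) (M : Mdl Q.a Q.b) (j : ℕ) (H y : ℝ), Hor Q g N R M → 16 * j ≤ N → MH Ag N (xs M c e) j H →
      0 < y → M.P (Lk c (L * 2 ^ j) y) ≤ C * (H / y) ^ (20 / 9 : ℝ) := by
  obtain ⟨C₀, hC₀, hx⟩ := xs_basic hg hM hf he he1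
  exact P1_luck' hg hf hL (fun N R M hH => (hx N R M hH).1) (P1_mean hf he he1 le_rfl (by linarith))

/-- (P4) The soft base. -/
theorem P4_soft (hg : IsMean Q g) (hM : HasModels Q g) (hf : FlatS g c) {e p : ℝ} (he : 0 < e) (he1 : e ≤ 1 / 3) (hp : 0 < p) :
    ∃ K : ℝ, 1 ≤ K ∧ Soft Q g c e p K :=
  P4_soft' hg hM hf hp (xs_basic hg hM hf he he1) (P1_mean hf he he1 le_rfl (by linarith))
    fun _ hL => P1_luck hg hM hf he he1 hL

/-- **There is no flat piece.** -/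
theorem sc_core (hg : IsMean Q g) (hM : HasModels Q g) (hf : FlatS g c) : False := by
  obtain ⟨e, σ₀, C, κ, i₀, he, he1, hσ, hC, hκ, h5⟩ := P5_inc' hg hf (fun he he1 hD hDe => P1_mean hf he he1 hD hDe)
    fun he he1 hL => P1_luck hg hM hf he he1 hL
  obtain ⟨C₀, hC₀, hb⟩ := xs_basic hg hM hf he he1
  obtain ⟨K, hK, hs⟩ := P4_soft hg hM hf he he1 (p := 1 / 1000) (by norm_num)
  obtain ⟨K', q₀, s₁, κ', hKK, hκ', h3⟩ := P3_win hg hM hf he he1 hσ hK hs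
  exact core_of hM hσ hC hκ h5 hC₀ hb hK hs hKK hκ' h3 fun L hL => P1_luck hg hM hf he he1 hL

end Pool.Agent.W_1b8d5d_sc
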