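import Pool.Agent.W_1b8d5d_h85.Grid1

/-!
MP_1b8d5d_pr (SC): two walks of the square lattice which cross a strip in the two directions have a common vertex.
-/

set_option autoImplicit false

namespace Pool.Agent.W_1b8d5d_sc

open Finset Pool.Agent.W_1b8d5d_h85

/-- The step `p, q` is horizontal, between the columns `z.1` and `z.1 + 1`, above `z`. -/
private def stp (z p q : V) : ZMod 2 :=
  if ((p.1 = z.1 ∧ q.1 = z.1 + 1) ∨ (p.1 = z.1 + 1 ∧ q.1 = z.1)) ∧ z.2 < p.2 then 1 else 0

/-- The indicator function of a half line. -/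
private def hfl (z p : V) : ZMod 2 := if p.1 = z.1 + 1 ∧ z.2 < p.2 then 1 else 0

/-- The sum of a function of the steps of a walk. -/
private def sm (f : V → V → ZMod 2) : {x y : V} → grid.Walk x y → ZMod 2
  | _, _, .nil => 0
  | x, _, .cons (v := v) _ w => f x v + sm f w

private theorem sm_cons (f : V → V → ZMod 2) {x v y : V} (h : grid.Adj x v) (w : grid.Walk v y) :
    sm f (SimpleGraph.Walk.cons h w) = f x v + sm f w := rfl

private theorem two_self (a : ZMod 2) : a + a = 0 := by
  revert a; decide

/-- A function of the vertices: the sum over the steps is the sum over the two end points. -/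
private theorem sm_bd (f : V → ZMod 2) {x y : V} (w : grid.Walk x y) : sm (fun p q => f p + f q) w = f x + f y := by
  induction w with
  | nil => exact (two_self _).symm
  | @cons a c e h w ih =>
    rw [sm_cons, ih]
    have := two_self (f c)
    calc f a + f c + (f c + f e) = f a + (f c + f c) + f e := by ring
      _ = f a + f e := by rw [this, add_zero]

private theorem sm_congr {f g : V → V → ZMod 2} {x y : V} (w : grid.Walk x y) {z : V} (hz : z ∉ w.support)
    (h : ∀ p q, grid.Adj p q → p ≠ z → q ≠ z → f p q = g p q) : sm f w = sm g w := by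
  induction w with
  | nil => rfl
  | @cons a c e ha w ih =>
    rw [sm_cons, sm_cons]
    rw [SimpleGraph.Walk.support_cons, List.mem_cons, not_or] at hz
    rw [ih hz.2, h a c ha (Ne.symm hz.1) (by rintro rfl; exact hz.2 w.start_mem_support)]

private theorem sm_add (f g : V → V → ZMod 2) {x y : V} (w : grid.Walk x y) :
    sm (fun p q => f p q + g p q) w = sm f w + sm g w := by
  induction w with
  | nil => exact (add_zero _).symm
  | @cons a c e h w ih =>
    rw [sm_cons, sm_cons, sm_cons, ih]
    ring

/-- A horizontal move. -/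
private theorem stp_right (z : V) {p q : V} (h : grid.Adj p q) (hp : p ≠ (z.1 + 1, z.2)) (hq : q ≠ (z.1 + 1, z.2)) :
    stp z p q + stp (z.1 + 1, z.2) p q = hfl z p + hfl z q := by
  obtain ⟨p1, p2⟩ := p
  obtain ⟨q1, q2⟩ := q
  obtain ⟨s, h | h⟩ := h <;>
  · have h1 := congrArg Prod.fst h
    have h2 := congrArg Prod.snd h
    simp only [ne_eq, Prod.mk.injEq, not_and] at hp hq
    cases s <;> simp only [dir, Prod.fst_add, Prod.snd_add, if_true, if_false, Bool.false_eq_true, add_zero] at h1 h2 <;>
    · subst h1 h2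
      unfold stp hfl
      simp only
      split_ifs <;> first | rfl | decide | (exfalso; omega)

/-- A vertical move. -/
private theorem stp_up (z : V) {p q : V} (h : grid.Adj p q) (hp : p ≠ (z.1, z.2 + 1)) (hq : q ≠ (z.1, z.2 + 1)) :
    stp z p q = stp (z.1, z.2 + 1) p q := by
  obtain ⟨p1, p2⟩ := p
  obtain ⟨q1, q2⟩ := q
  obtain ⟨s, h | h⟩ := h <;>
  · have h1 := congrArg Prod.fst h
    have h2 := congrArg Prod.snd h
    simp only [ne_eq, Prod.mk.injEq, not_and] at hp hq
    cases s <;> simp only [dir, Prod.fst_add, Prod.snd_add, if_true, if_false, Bool.false_eq_true, add_zero] at h1 h2 <;>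
    · subst h1 h2
      unfold stp
      simp only
      split_ifs <;> first | rfl | decide | (exfalso; omega)

/-- The parity of the number of the steps above `z` does not change at a move which avoids the walk. -/
private theorem sm_stp_dir {x y z : V} (P : grid.Walk x y) (s : Bool) (h1 : z + dir s ∉ P.support)
    (hx : x.1 < z.1 + 1 ∧ z.1 + 1 < y.1 ∨ s = true) : sm (stp z) P = sm (stp (z + dir s)) P := by
  cases s with
  | false =>
    have e : z + dir false = (z.1 + 1, z.2) := by ext <;> simp [dir]
    rw [e] at h1 ⊢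
    have h2 : sm (fun p q => stp z p q + stp (z.1 + 1, z.2) p q) P = sm (fun p q => hfl z p + hfl z q) P :=
      sm_congr P h1 fun p q h hp hq => stp_right z h hp hq
    rw [sm_add, sm_bd] at h2
    have h3 : hfl z x = 0 := by
      unfold hfl
      rw [if_neg]
      rintro ⟨h, _⟩
      rcases hx with hx | hx
      · omega
      · exact Bool.false_ne_true hx
    have h4 : hfl z y = 0 := by
      unfold hfl
      rw [if_neg]
      rintro ⟨h, _⟩
      rcases hx with hx | hx
      · omega
      · exact Bool.false_ne_true hx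
    rw [h3, h4, add_zero] at h2
    have h5 := two_self (sm (stp (z.1 + 1, z.2)) P)
    calc sm (stp z) P = sm (stp z) P + (sm (stp (z.1 + 1, z.2)) P + sm (stp (z.1 + 1, z.2)) P) := by rw [h5, add_zero]
      _ = sm (stp z) P + sm (stp (z.1 + 1, z.2)) P + sm (stp (z.1 + 1, z.2)) P := by ring
      _ = sm (stp (z.1 + 1, z.2)) P := by rw [h2, zero_add]
  | true =>
    have e : z + dir true = (z.1, z.2 + 1) := by ext <;> simp [dir]
    rw [e] at h1 ⊢
    exact sm_congr P h1 fun p q h hp hq => stp_up z h hp hq

/-- The parity is constant along a walk which avoids `P` and stays between the columns of its end points. -/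
private theorem sm_const {x y u v : V} (P : grid.Walk x y) (σ : grid.Walk u v) (hd : ∀ z ∈ σ.support, z ∉ P.support)
    (hc : ∀ z ∈ σ.support, x.1 < z.1 ∧ z.1 < y.1) : sm (stp u) P = sm (stp v) P := by
  induction σ with
  | nil => rfl
  | @cons a c e h σ ih =>
    have hm : ∀ z ∈ σ.support, z ∈ (SimpleGraph.Walk.cons h σ).support := fun z hz => by
      rw [SimpleGraph.Walk.support_cons]
      exact List.mem_cons_of_mem _ hz
    rw [← ih (fun z hz => hd z (hm z hz)) fun z hz => hc z (hm z hz)]
    have ha : a ∈ (SimpleGraph.Walk.cons h σ).support := SimpleGraph.Walk.start_mem_support _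
    have hcm : c ∈ (SimpleGraph.Walk.cons h σ).support := hm c σ.start_mem_support
    obtain ⟨s, hs | hs⟩ := h
    · rw [hs]
      refine sm_stp_dir P s (by rw [← hs]; exact hd c hcm) ?_
      cases s with
      | true => exact Or.inr rfl
      | false =>
        left
        have := hc c hcm
        rw [hs] at this
        simpa [dir] using this
    · rw [hs]
      refine (sm_stp_dir P s (by rw [← hs]; exact hd a ha) ?_).symm
      cases s with
      | true => exact Or.inr rfl
      | false =>
        left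
        have := hc a ha
        rw [hs] at this
        simpa [dir] using this

/-- Far above the walk there is no step. -/
private theorem sm_zero {x y z : V} (P : grid.Walk x y) (h : ∀ p ∈ P.support, p.1 = z.1 → p.2 ≤ z.2) :
    sm (stp z) P = 0 := by
  induction P with
  | nil => rfl
  | @cons a c e ha P ih =>
    have hm : ∀ z ∈ P.support, z ∈ (SimpleGraph.Walk.cons ha P).support := fun z hz => by
      rw [SimpleGraph.Walk.support_cons]
      exact List.mem_cons_of_mem _ hz
    rw [sm_cons, ih fun p hp => h p (hm p hp), add_zero]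
    unfold stp
    rw [if_neg]
    rintro ⟨h1, h2⟩
    have e1 := h a (SimpleGraph.Walk.start_mem_support _)
    have e2 := h c (hm c P.start_mem_support)
    obtain ⟨s, hs | hs⟩ := ha <;>
    · have h3 := congrArg Prod.fst hs
      have h4 := congrArg Prod.snd hs
      cases s <;> simp only [dir, Prod.fst_add, Prod.snd_add, if_true, if_false, Bool.false_eq_true, add_zero] at h3 h4 <;>
      · rcases h1 with h1 | h1
        · have := e1 h1.1
          omega
        · have := e2 h1.2
          omega

/-- Far below the walk all the horizontal steps of the column count. -/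
private theorem sm_one {x y z : V} (P : grid.Walk x y) (h : ∀ p ∈ P.support, p.1 = z.1 → z.2 < p.2)
    (hx : x.1 ≤ z.1) (hy : z.1 < y.1) : sm (stp z) P = 1 := by
  have key : sm (stp z) P = sm (fun p q => (if p.1 ≤ z.1 then (1 : ZMod 2) else 0) + if q.1 ≤ z.1 then 1 else 0) P := by
    clear hx hy
    induction P with
    | nil => rfl
    | @cons a c e ha P ih =>
      have hm : ∀ z ∈ P.support, z ∈ (SimpleGraph.Walk.cons ha P).support := fun z hz => by
        rw [SimpleGraph.Walk.support_cons]
        exact List.mem_cons_of_mem _ hz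
      rw [sm_cons, sm_cons, ih fun p hp => h p (hm p hp)]
      congr 1
      have e1 := h a (SimpleGraph.Walk.start_mem_support _)
      have e2 := h c (hm c P.start_mem_support)
      unfold stp
      obtain ⟨a1, a2⟩ := a
      obtain ⟨c1, c2⟩ := c
      obtain ⟨s, hs | hs⟩ := ha <;>
      · have h3 := congrArg Prod.fst hs
        have h4 := congrArg Prod.snd hs
        cases s <;> simp only [dir, Prod.fst_add, Prod.snd_add, if_true, if_false, Bool.false_eq_true, add_zero]
          at h3 h4 e1 e2 ⊢ <;>
        · subst h3 h4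
          split_ifs <;> first | rfl | decide | (exfalso; omega)
  rw [key, sm_bd (fun p => if p.1 ≤ z.1 then (1 : ZMod 2) else 0), if_pos hx, if_neg (by omega), add_zero]

/-- ** Crossing. ** `P` crosses the columns of `σ` inside the strip `α ≤ h ≤ β`, `σ` goes from one side of the strip to the
other: they have a common vertex. -/
theorem meet_col {x y u v : V} (P : grid.Walk x y) (σ : grid.Walk u v) (h : V →+ ℝ) (α β : ℝ) (hh : 0 < h (0, 1))
    (hP : ∀ z ∈ P.support, α ≤ h z ∧ h z ≤ β) (hu : h u < α) (hv : β < h v)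
    (hc : ∀ z ∈ σ.support, x.1 < z.1 ∧ z.1 < y.1) : ∃ z, z ∈ P.support ∧ z ∈ σ.support := by
  by_contra hcon
  push Not at hcon
  have h1 := sm_const P σ (fun z hz hz' => hcon z hz' hz) hc
  have hd : ∀ p z : V, p.1 = z.1 → h p = h z + (p.2 - z.2 : ℤ) * h (0, 1) := by
    intro p z hpz
    have e : p = z + (p.2 - z.2) • ((0, 1) : V) := by
      ext
      · simp [hpz]
      · simp
    calc h p = h (z + (p.2 - z.2) • ((0, 1) : V)) := by rw [← e]
      _ = h z + (p.2 - z.2 : ℤ) * h (0, 1) := by rw [map_add, map_zsmul, zsmul_eq_mul]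
  have h2 : sm (stp v) P = 0 := by
    refine sm_zero P fun p hp hpv => ?_
    by_contra hlt
    push Not at hlt
    have e1 := hd p v hpv
    have e2 : (0 : ℝ) ≤ (p.2 - v.2 : ℤ) := by exact_mod_cast (by omega : (0 : ℤ) ≤ p.2 - v.2)
    have e3 := (hP p hp).2
    nlinarith
  have h3 : sm (stp u) P = 1 := by
    refine sm_one P (fun p hp hpv => ?_) (hc u σ.start_mem_support).1.le (hc u σ.start_mem_support).2
    by_contra hlt
    push Not at hlt
    have e1 := hd p u hpv
    have e2 : ((p.2 - u.2 : ℤ) : ℝ) ≤ 0 := by exact_mod_cast (by omega : p.2 - u.2 ≤ 0)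
    have e3 := (hP p hp).1
    nlinarith
  rw [h2, h3] at h1
  exact absurd h1 (by decide)

/-- The other orientations. -/
private theorem meet_col' {x y u v : V} (P : grid.Walk x y) (σ : grid.Walk u v) (h : V →+ ℝ) (α β : ℝ) (hh : h (0, 1) ≠ 0)
    (hP : ∀ z ∈ P.support, α ≤ h z ∧ h z ≤ β) (hu : h u < α) (hv : β < h v)
    (hc : (∀ z ∈ σ.support, x.1 < z.1 ∧ z.1 < y.1) ∨ ∀ z ∈ σ.support, y.1 < z.1 ∧ z.1 < x.1) :
    ∃ z, z ∈ P.support ∧ z ∈ σ.support := by
  -- the orientation of `P`
  wlog hc' : ∀ z ∈ σ.support, x.1 < z.1 ∧ z.1 < y.1 generalizing x y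
  · obtain ⟨z, hz, hz'⟩ := this P.reverse (fun z hz => hP z (by simpa using hz)) (Or.inl (hc.resolve_left hc'))
      (hc.resolve_left hc')
    exact ⟨z, by simpa using hz, hz'⟩
  rcases lt_or_gt_of_ne hh with h0 | h0
  · obtain ⟨z, hz, hz'⟩ := meet_col P σ.reverse (-h) (-β) (-α) (by rw [AddMonoidHom.neg_apply]; linarith)
      (fun z hz => by
        have := hP z hz
        rw [AddMonoidHom.neg_apply]
        constructor <;> linarith [this.1, this.2])
      (by rw [AddMonoidHom.neg_apply]; linarith) (by rw [AddMonoidHom.neg_apply]; linarith)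
      (fun z hz => hc' z (by simpa using hz))
    exact ⟨z, hz, by simpa using hz'⟩
  · exact meet_col P σ h α β h0 hP hu hv hc'

/-- The exchange of the coordinates. -/
private def swp' : grid →g grid where
  toFun z := (z.2, z.1)
  map_rel' := by
    rintro a b ⟨s, h | h⟩
    · refine ⟨!s, Or.inl ?_⟩
      subst h
      cases s <;> simp [dir]
    · refine ⟨!s, Or.inr ?_⟩
      subst h
      cases s <;> simp [dir]

private theorem meet_row' {x y u v : V} (P : grid.Walk x y) (σ : grid.Walk u v) (h : V →+ ℝ) (α β : ℝ) (hh : h (1, 0) ≠ 0)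
    (hP : ∀ z ∈ P.support, α ≤ h z ∧ h z ≤ β) (hu : h u < α) (hv : β < h v)
    (hc : (∀ z ∈ σ.support, x.2 < z.2 ∧ z.2 < y.2) ∨ ∀ z ∈ σ.support, y.2 < z.2 ∧ z.2 < x.2) :
    ∃ z, z ∈ P.support ∧ z ∈ σ.support := by
  have hsup : ∀ {a b : V} (w : grid.Walk a b) (z : V), z ∈ (w.map swp').support → (z.2, z.1) ∈ w.support := by
    intro a b w z hz
    rw [SimpleGraph.Walk.support_map, List.mem_map] at hz
    obtain ⟨z', hz', rfl⟩ := hz
    exact hz'
  obtain ⟨z, hz, hz'⟩ := meet_col' (P.map swp') (σ.map swp')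
    (h.comp (AddMonoidHom.mk' (fun z : V => ((z.2, z.1) : V)) fun _ _ => rfl)) α β hh
    (fun z hz => hP _ (hsup P z hz)) hu hv (by
      rcases hc with hc | hc
      · exact Or.inl fun z hz => hc _ (hsup σ z hz)
      · exact Or.inr fun z hz => hc _ (hsup σ z hz))
  exact ⟨(z.2, z.1), hsup P z hz, hsup σ z hz'⟩

/-- ** Crossing in linear coordinates. ** `P` stays in the strip `α ≤ h ≤ β`, `σ` crosses the strip, it stays in the strip
`α - H ≤ h ≤ β + H`, far from the two end points of `P` in the direction `k`. -/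
theorem meet_lin {x y u v : V} (P : grid.Walk x y) (σ : grid.Walk u v) (h k : V →+ ℝ) {α β H c₀ K : ℝ} (hc₀ : 0 < c₀)
    (hmax : c₀ ≤ |h (1, 0)| ∨ c₀ ≤ |h (0, 1)|) (hk1 : |k (1, 0)| ≤ K) (hk2 : |k (0, 1)| ≤ K)
    (hind : h (1, 0) * k (0, 1) - h (0, 1) * k (1, 0) ≠ 0)
    (hP : ∀ z ∈ P.support, α ≤ h z ∧ h z ≤ β) (hσ : ∀ z ∈ σ.support, α - H ≤ h z ∧ h z ≤ β + H)
    (hu : h u < α) (hv : β < h v)
    (hx : ∀ z ∈ σ.support, K * (β - α + H) < c₀ * (k z - k x))
    (hy : ∀ z ∈ σ.support, K * (β - α + H) < c₀ * (k y - k z)) : ∃ z, z ∈ P.support ∧ z ∈ σ.support := by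
  have hK : 0 ≤ K := (abs_nonneg _).trans hk1
  have hxP := hP x P.start_mem_support
  have hyP := hP y P.end_mem_support
  have hlin : ∀ (f : V →+ ℝ) (z : V), f z = z.1 * f (1, 0) + z.2 * f (0, 1) := by
    intro f z
    have e : z = z.1 • ((1, 0) : V) + z.2 • ((0, 1) : V) := by ext <;> simp
    calc f z = f (z.1 • ((1, 0) : V) + z.2 • ((0, 1) : V)) := by rw [← e]
      _ = z.1 * f (1, 0) + z.2 * f (0, 1) := by rw [map_add, map_zsmul, map_zsmul, zsmul_eq_mul, zsmul_eq_mul]
  obtain ⟨Δ, hΔ⟩ : ∃ Δ, Δ = h (1, 0) * k (0, 1) - h (0, 1) * k (1, 0) := ⟨_, rfl⟩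
  rw [← hΔ] at hind
  have key1 : ∀ z : V, z.1 * Δ = h z * k (0, 1) - k z * h (0, 1) := by
    intro z
    rw [hΔ, hlin h z, hlin k z]
    ring
  have key2 : ∀ z : V, z.2 * Δ = k z * h (1, 0) - h z * k (1, 0) := by
    intro z
    rw [hΔ, hlin h z, hlin k z]
    ring
  -- the sign of a combination
  have sgn : ∀ A B r t : ℝ, c₀ ≤ |A| → |B| ≤ K → |r| ≤ β - α + H → K * (β - α + H) < c₀ * t →
      0 < (t * A - r * B) * A := by
    intro A B r t hA hB hr ht
    have h1 : 0 ≤ β - α + H := (abs_nonneg _).trans hr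
    have h2 : |r * B| ≤ (β - α + H) * K := by
      rw [abs_mul]
      exact mul_le_mul hr hB (abs_nonneg _) h1
    have hA0 : 0 < |A| := lt_of_lt_of_le hc₀ hA
    have ht0 : 0 < t := by
      by_contra hcon
      push Not at hcon
      have : c₀ * t ≤ 0 := mul_nonpos_of_nonneg_of_nonpos hc₀.le hcon
      have : 0 ≤ K * (β - α + H) := mul_nonneg hK h1
      linarith
    have h3 : |r * B| < t * |A| := by
      have : c₀ * t ≤ t * |A| := by
        rw [mul_comm]
        exact mul_le_mul_of_nonneg_left hA ht0.le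
      linarith
    have h4 : r * B * A ≤ |r * B| * |A| := by
      rw [← abs_mul]
      exact le_abs_self _
    have h5 : A * A = |A| * |A| := (abs_mul_abs_self A).symm
    have h6 : |r * B| * |A| < t * |A| * |A| := mul_lt_mul_of_pos_right h3 hA0
    calc (0 : ℝ) < t * |A| * |A| - |r * B| * |A| := by linarith
      _ ≤ t * (A * A) - r * B * A := by rw [h5]; linarith
      _ = (t * A - r * B) * A := by ring
  have hr1 : ∀ z ∈ σ.support, |h z - h x| ≤ β - α + H := fun z hz => by
    have := hσ z hz
    rw [abs_le]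
    constructor <;> linarith [this.1, this.2, hxP.1, hxP.2]
  have hr2 : ∀ z ∈ σ.support, |h y - h z| ≤ β - α + H := fun z hz => by
    have := hσ z hz
    rw [abs_le]
    constructor <;> linarith [this.1, this.2, hyP.1, hyP.2]
  have hcases : ∀ (f : V → ℝ) (B A : ℝ), A ≠ 0 → (∀ z ∈ σ.support, 0 < (f z - f x) * B * A) →
      (∀ z ∈ σ.support, 0 < (f y - f z) * B * A) →
      (∀ z ∈ σ.support, f x < f z ∧ f z < f y) ∨ ∀ z ∈ σ.support, f y < f z ∧ f z < f x := by
    intro f B A hA h1 h2
    rcases lt_or_ge (B * A) 0 with h0 | h0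
    · right
      intro z hz
      have e1 := h1 z hz
      have e2 := h2 z hz
      rw [mul_assoc] at e1 e2
      constructor
      · by_contra hcon
        push Not at hcon
        nlinarith
      · by_contra hcon
        push Not at hcon
        nlinarith
    · left
      intro z hz
      have e1 := h1 z hz
      have e2 := h2 z hz
      rw [mul_assoc] at e1 e2
      constructor
      · by_contra hcon
        push Not at hcon
        nlinarith
      · by_contra hcon
        push Not at hcon
        nlinarith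
  rcases hmax with hA | hA
  · -- rows
    have hA0 : h (1, 0) ≠ 0 := by
      intro e
      rw [e, abs_zero] at hA
      linarith
    refine meet_row' P σ h α β hA0 hP hu hv ?_
    have := hcases (fun z => (z.2 : ℝ)) Δ (h (1, 0)) hA0 (fun z hz => ?_) (fun z hz => ?_)
    · rcases this with h1 | h1
      · exact Or.inl fun z hz => ⟨by exact_mod_cast (h1 z hz).1, by exact_mod_cast (h1 z hz).2⟩
      · exact Or.inr fun z hz => ⟨by exact_mod_cast (h1 z hz).1, by exact_mod_cast (h1 z hz).2⟩
    · have e := sgn (h (1, 0)) (k (1, 0)) (h z - h x) (k z - k x) hA hk1 (hr1 z hz) (hx z hz)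
      have e2 : ((z.2 : ℝ) - x.2) * Δ = (k z - k x) * h (1, 0) - (h z - h x) * k (1, 0) := by
        rw [sub_mul, key2, key2]
        ring
      rw [e2]
      exact e
    · have e := sgn (h (1, 0)) (k (1, 0)) (h y - h z) (k y - k z) hA hk1 (hr2 z hz) (hy z hz)
      have e2 : ((y.2 : ℝ) - z.2) * Δ = (k y - k z) * h (1, 0) - (h y - h z) * k (1, 0) := by
        rw [sub_mul, key2, key2]
        ring
      rw [e2]
      exact e
  · -- columns
    have hA0 : h (0, 1) ≠ 0 := by
      intro e
      rw [e, abs_zero] at hA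
      linarith
    refine meet_col' P σ h α β hA0 hP hu hv ?_
    have := hcases (fun z => (z.1 : ℝ)) (-Δ) (h (0, 1)) hA0 (fun z hz => ?_) (fun z hz => ?_)
    · rcases this with h1 | h1
      · exact Or.inl fun z hz => ⟨by exact_mod_cast (h1 z hz).1, by exact_mod_cast (h1 z hz).2⟩
      · exact Or.inr fun z hz => ⟨by exact_mod_cast (h1 z hz).1, by exact_mod_cast (h1 z hz).2⟩
    · have e := sgn (h (0, 1)) (k (0, 1)) (h z - h x) (k z - k x) hA hk2 (hr1 z hz) (hx z hz)
      have e2 : ((z.1 : ℝ) - x.1) * -Δ = (k z - k x) * h (0, 1) - (h z - h x) * k (0, 1) := by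
        rw [mul_neg, sub_mul, key1, key1]
        ring
      rw [e2]
      exact e
    · have e := sgn (h (0, 1)) (k (0, 1)) (h y - h z) (k y - k z) hA hk2 (hr2 z hz) (hy z hz)
      have e2 : ((y.1 : ℝ) - z.1) * -Δ = (k y - k z) * h (0, 1) - (h y - h z) * k (0, 1) := by
        rw [mul_neg, sub_mul, key1, key1]
        ring
      rw [e2]
      exact e

end Pool.Agent.W_1b8d5d_sc
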