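import Pool.Agent.W_1b8d5d_sc.FDefs
import Pool.Agent.W_1b8d5d_h85.Grid2

/-!
MP_1b8d5d_pr (SC, part P2): good walks.
-/

set_option autoImplicit false

namespace Pool.Agent.W_1b8d5d_sc

open Finset Pool.Agent.W_1b8d5d_h85 Pool.Agent.W_1b8d5d_fe

/-- First vertex with the property `p` (induction on `w`; the case `cons`: test `p` at the second vertex). -/
theorem split_first (p : V → Prop) {x y : V} (w : grid.Walk x y) (hx : ¬ p x) (hy : ∃ z ∈ w.support, p z) :
    ∃ (u v : V) (w₁ : grid.Walk x u) (h : grid.Adj u v) (w₂ : grid.Walk v y), w = w₁.append (.cons h w₂) ∧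
      (∀ z ∈ w₁.support, ¬ p z) ∧ p v := by
  classical
  induction w with
  | nil =>
    obtain ⟨z, hz, hp⟩ := hy
    rw [SimpleGraph.Walk.support_nil, List.mem_singleton] at hz
    subst hz
    exact absurd hp hx
  | @cons x v y h w ih =>
    by_cases hv : p v
    · refine ⟨x, v, .nil, h, w, rfl, ?_, hv⟩
      intro z hz
      rw [SimpleGraph.Walk.support_nil, List.mem_singleton] at hz
      subst hz
      exact hx
    · have hy' : ∃ z ∈ w.support, p z := by
        obtain ⟨z, hz, hp⟩ := hy
        rw [SimpleGraph.Walk.support_cons, List.mem_cons] at hz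
        rcases hz with rfl | hz
        · exact absurd hp hx
        · exact ⟨z, hz, hp⟩
      obtain ⟨u', v', w₁, h', w₂, e, h1, h2⟩ := ih hv hy'
      refine ⟨u', v', .cons h w₁, h', w₂, ?_, ?_, h2⟩
      · rw [SimpleGraph.Walk.cons_append, ← e]
      · intro z hz
        rw [SimpleGraph.Walk.support_cons, List.mem_cons] at hz
        rcases hz with rfl | hz
        · exact hx
        · exact h1 z hz

/-- Last vertex without the property `p` (induction on `w`, or `split_first` for the reversed walk). -/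
theorem split_last (p : V → Prop) {x y : V} (w : grid.Walk x y) (hx : ∃ z ∈ w.support, ¬ p z) (hy : p y) :
    ∃ (u v : V) (w₁ : grid.Walk x u) (h : grid.Adj u v) (w₂ : grid.Walk v y), w = w₁.append (.cons h w₂) ∧
      (∀ z ∈ w₂.support, p z) ∧ ¬ p u := by
  classical
  induction w with
  | nil =>
    obtain ⟨z, hz, hp⟩ := hx
    rw [SimpleGraph.Walk.support_nil, List.mem_singleton] at hz
    subst hz
    exact absurd hy hp
  | @cons x v y h w ih =>
    by_cases hv : ∃ z ∈ w.support, ¬ p z
    · obtain ⟨u', v', w₁, h', w₂, e, h1, h2⟩ := ih hv hy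
      refine ⟨u', v', .cons h w₁, h', w₂, ?_, h1, h2⟩
      rw [SimpleGraph.Walk.cons_append, ← e]
    · push Not at hv
      refine ⟨x, v, .nil, h, w, rfl, hv, ?_⟩
      obtain ⟨z, hz, hp⟩ := hx
      rw [SimpleGraph.Walk.support_cons, List.mem_cons] at hz
      rcases hz with rfl | hz
      · exact hp
      · exact absurd (hv z hz) hp

private theorem FWalk_lv_sub (c : Crd) (x y : V) : lv c (y - x) = lv c y - lv c x := by
  unfold lv
  rw [map_sub, map_sub]
  ring

theorem Bgd.sub {c : Crd} {τ : Env} {B : ℝ} {x y : V} {w : grid.Walk x y} (hw : Bgd c τ B w) {u v : V}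
    {w₁ : grid.Walk x u} {w₂ : grid.Walk u v} {w₃ : grid.Walk v y} (h : w = w₁.append (w₂.append w₃)) : Bgd c τ B w₂ := by
  refine ⟨?_, ?_⟩
  · have h1 := hw.1
    rw [h] at h1
    exact h1.of_append_right.of_append_left
  · intro u' v' a b c' e
    refine hw.2 u' v' (w₁.append a) b (c'.append w₃) ?_
    rw [h, e]
    simp only [SimpleGraph.Walk.append_assoc]

theorem Bgd.mono {c : Crd} {τ : Env} {B B' : ℝ} (hB : B ≤ B') {x y : V} {w : grid.Walk x y} (hw : Bgd c τ B w) :
    Bgd c τ B' w := by
  exact ⟨hw.1, fun u v w₁ w₂ w₃ h => (hw.2 u v w₁ w₂ w₃ h).trans (by linarith)⟩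

/-- Goodness depends only on the weights of the edges of the walk. -/
theorem Bgd.congr {c : Crd} {τ τ' : Env} {B : ℝ} {x y : V} {w : grid.Walk x y} (hw : Bgd c τ B w)
    (h : ∀ e ∈ wedges w, τ e = τ' e) : Bgd c τ' B w := by
  refine ⟨hw.1, ?_⟩
  intro u v w₁ w₂ w₃ e
  rw [← cost_congr (τ := τ) (τ' := τ') w₂ (fun f hf => h f ?_)]
  · exact hw.2 u v w₁ w₂ w₃ e
  · rw [e, wedges_append, wedges_append, List.mem_append, List.mem_append]
    exact Or.inr (Or.inl hf)

/-- Lowering the weights. -/
theorem Bgd.anti {c : Crd} {τ τ' : Env} {B : ℝ} {x y : V} {w : grid.Walk x y} (hw : Bgd c τ B w)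
    (h : ∀ e, τ' e ≤ τ e) : Bgd c τ' B w := by
  refine ⟨hw.1, ?_⟩
  intro u v w₁ w₂ w₃ e
  exact (cost_mono w₂ (fun f _ => h f)).trans (hw.2 u v w₁ w₂ w₃ e)

/-- The distance between the end points of a good walk (`le_cost`, `nm_le_length` and the definition with `w₁ = w₃ = nil`). -/
theorem Bgd.nm_le {a b : ℝ} (ha : 0 < a) {c : Crd} {τ : Env} (hτ : Bd a b τ) {B : ℝ} {x y : V} {w : grid.Walk x y}
    (hw : Bgd c τ B w) : a * nm (y - x) ≤ lv c y - lv c x + B := by
  have h1 := hw.2 x y .nil w .nil (by simp)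
  have h2 := le_cost hτ w
  have h3 := mul_le_mul_of_nonneg_left (nm_le_length w) ha.le
  rw [FWalk_lv_sub] at h1
  linarith

/-- The height difference of the end points of a good walk. -/
theorem Bgd.q_le {a b : ℝ} (ha : 0 < a) {c : Crd} {τ : Env} (hτ : Bd a b τ) {B : ℝ} {x y : V} {w : grid.Walk x y}
    (hw : Bgd c τ B w) : |c.q y - c.q x| ≤ c.C / a * (lv c y - lv c x + B) := by
  have h1 := hw.nm_le ha hτ
  have h2 := c.q_le (y - x)
  rw [map_sub] at h2
  have hC : 0 < c.C := by linarith [c.one_le]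
  rw [div_mul_eq_mul_div, le_div_iff₀ ha]
  calc |c.q y - c.q x| * a ≤ c.C * nm (y - x) * a := mul_le_mul_of_nonneg_right h2 ha.le
    _ = c.C * (a * nm (y - x)) := by ring
    _ ≤ c.C * (lv c y - lv c x + B) := mul_le_mul_of_nonneg_left h1 hC.le

private theorem FWalk_cost_map (f : grid →g grid) (τ τ' : Env)
    (hc : ∀ x y, grid.Adj x y → τ (ke s(f x, f y)) = τ' (ke s(x, y))) {x y : V}
    (w : grid.Walk x y) : cost τ (w.map f) = cost τ' w := by
  induction w with
  | nil => simp [cost, wedges]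
  | @cons u v w h p ih =>
    unfold cost wedges at ih ⊢
    rw [SimpleGraph.Walk.map_cons, SimpleGraph.Walk.edges_cons, SimpleGraph.Walk.edges_cons,
      List.map_cons, List.map_cons, List.map_cons, List.map_cons, List.sum_cons, List.sum_cons, ih,
      hc _ _ h]

/-- Decompositions of the image of a walk are images. -/
private theorem FWalk_lift (f : grid →g grid) {x y : V} (w : grid.Walk x y) :
    ∀ {u' : V} (a : grid.Walk (f x) u') (b : grid.Walk u' (f y)), w.map f = a.append b →
      ∃ (u : V) (hu : f u = u') (a₀ : grid.Walk x u) (b₀ : grid.Walk u y), w = a₀.append b₀ ∧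
        a = (a₀.map f).copy rfl hu ∧ b = (b₀.map f).copy hu rfl := by
  induction w with
  | @nil x =>
    intro u' a b h
    cases a with
    | nil =>
      refine ⟨x, rfl, .nil, .nil, rfl, rfl, ?_⟩
      rw [SimpleGraph.Walk.nil_append] at h
      rw [← h]
      rfl
    | cons h' a' =>
      rw [SimpleGraph.Walk.map_nil, SimpleGraph.Walk.cons_append] at h
      cases h
  | @cons x v y h w ih =>
    intro u' a b e
    cases a with
    | nil =>
      refine ⟨x, rfl, .nil, .cons h w, rfl, rfl, ?_⟩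
      rw [SimpleGraph.Walk.nil_append] at e
      rw [← e]
      rfl
    | @cons _ v' _ h' a' =>
      rw [SimpleGraph.Walk.map_cons, SimpleGraph.Walk.cons_append] at e
      injection e with e0 e1 e2 e3
      subst e1
      have e4 := eq_of_heq e3
      obtain ⟨u, hu, a₀, b₀, h1, h2, h3⟩ := ih a' b e4
      subst hu
      refine ⟨u, rfl, .cons h a₀, b₀, ?_, ?_, h3⟩
      · rw [SimpleGraph.Walk.cons_append, ← h1]
      · rw [h2]
        rfl

/-- The image of a good walk. -/
private theorem FWalk_good (f : grid →g grid) {τ τ' : Env}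
    (hc : ∀ x y, grid.Adj x y → τ (ke s(f x, f y)) = τ' (ke s(x, y))) {B : ℝ}
    (F F' : V → V → ℝ) (hF : ∀ u v, F (f u) (f v) = F' u v) {x y : V} {w : grid.Walk x y}
    (hw : ∀ (u v : V) (w₁ : grid.Walk x u) (w₂ : grid.Walk u v) (w₃ : grid.Walk v y),
      w = w₁.append (w₂.append w₃) → cost τ' w₂ ≤ F' u v + B) :
    ∀ (u v : V) (w₁ : grid.Walk (f x) u) (w₂ : grid.Walk u v) (w₃ : grid.Walk v (f y)),
      w.map f = w₁.append (w₂.append w₃) → cost τ w₂ ≤ F u v + B := by
  intro u v w₁ w₂ w₃ h
  obtain ⟨u₀, hu, a₀, b₀, e1, -, e3⟩ := FWalk_lift f w w₁ (w₂.append w₃) h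
  subst hu
  rw [SimpleGraph.Walk.copy_rfl_rfl] at e3
  obtain ⟨v₀, hv, c₀, d₀, e4, e5, -⟩ := FWalk_lift f b₀ w₂ w₃ e3.symm
  subst hv
  rw [SimpleGraph.Walk.copy_rfl_rfl] at e5
  rw [e5, FWalk_cost_map f τ τ' hc, hF]
  refine hw u₀ v₀ a₀ c₀ d₀ ?_
  rw [e1, e4]

/-- Shift of a good walk (map by the translation; the decompositions of the image are the images of the decompositions; a
convenient way: induction on the walks with `SimpleGraph.Walk.map` and injectivity, or prove first the version with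
`getVert`/`take`/`drop`). -/
theorem exists_sh_walk {x y : V} (w : grid.Walk x y) (z : V) : ∃ w' : grid.Walk (x + z) (y + z),
    (∀ v, v ∈ w'.support ↔ v - z ∈ w.support) ∧ ∀ (c : Crd) (τ : Env) (B : ℝ), Bgd c (sh z τ) B w → Bgd c τ B w' := by
  let f : grid →g grid := ⟨fun v => v + z, by
    rintro x y ⟨s, h | h⟩
    · exact ⟨s, Or.inl (by rw [h]; abel)⟩
    · exact ⟨s, Or.inr (by rw [h]; abel)⟩⟩
  refine ⟨w.map f, ?_, ?_⟩
  · intro v
    rw [SimpleGraph.Walk.support_map, List.mem_map]
    constructor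
    · rintro ⟨u, hu, rfl⟩
      show u + z - z ∈ w.support
      rwa [add_sub_cancel_right]
    · intro h
      exact ⟨v - z, h, sub_add_cancel v z⟩
  · intro c τ B hw
    refine ⟨SimpleGraph.Walk.map_isPath_of_injective (fun u v h => add_right_cancel h) hw.1, ?_⟩
    refine FWalk_good f (τ := τ) (τ' := sh z τ) ?_ (fun u v => lv c (v - u)) (fun u v => lv c (v - u))
      ?_ hw.2
    · rintro x y ⟨s, h | h⟩
      · subst h
        have e : x + dir s + z = (x + z) + dir s := by abel
        show τ (ke s(x + z, x + dir s + z)) = sh z τ (ke s(x, x + dir s))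
        simp only [e, ke_dir, sh]
      · subst h
        have e : y + dir s + z = (y + z) + dir s := by abel
        show τ (ke s(y + dir s + z, y + z)) = sh z τ (ke s(y + dir s, y))
        simp only [e, ke_dir', sh]
    · intro u v
      show lv c (v + z - (u + z)) = lv c (v - u)
      rw [add_sub_add_right_eq_sub]

private theorem FWalk_rf (τ : Env) (x y : V) (h : grid.Adj x y) :
    τ (ke s(-x, -y)) = rf τ (ke s(x, y)) := by
  obtain ⟨s, h | h⟩ := h
  · subst h
    have e : -x = -(x + dir s) + dir s := by abel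
    have e2 : (-(x + dir s) : V) = -x - dir s := by abel
    conv_lhs => rw [e]
    rw [ke_dir', ke_dir, e2]
    rfl
  · subst h
    have e : -y = -(y + dir s) + dir s := by abel
    have e2 : (-(y + dir s) : V) = -y - dir s := by abel
    conv_lhs => rw [e]
    rw [ke_dir, ke_dir', e2]
    rfl

private theorem FWalk_adj_neg {x y : V} (h : grid.Adj x y) : grid.Adj (-x) (-y) := by
  obtain ⟨s, h | h⟩ := h
  · exact ⟨s, Or.inr (by rw [h]; abel)⟩
  · exact ⟨s, Or.inl (by rw [h]; abel)⟩

/-- Reflection of a good walk (map by `x ↦ -x` and reverse; `rf τ` gives the image edge the weight of the edge,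
`lv (-x - -y) = lv (y - x)`). -/
theorem exists_rf_walk {x y : V} (w : grid.Walk x y) : ∃ w' : grid.Walk (-y) (-x),
    (∀ v, v ∈ w'.support ↔ -v ∈ w.support) ∧ ∀ (c : Crd) (τ : Env) (B : ℝ), Bgd c τ B w → Bgd c (rf τ) B w' := by
  let f : grid →g grid := ⟨fun v => -v, fun {a b} h => FWalk_adj_neg h⟩
  have hsup : ∀ v, v ∈ ((w.map f).reverse : grid.Walk (-y) (-x)).support ↔ -v ∈ w.support := by
    intro v
    rw [SimpleGraph.Walk.support_reverse, List.mem_reverse, SimpleGraph.Walk.support_map, List.mem_map]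
    constructor
    · rintro ⟨u, hu, rfl⟩
      show - -u ∈ w.support
      rwa [neg_neg]
    · intro h
      exact ⟨-v, h, neg_neg v⟩
  refine ⟨(w.map f).reverse, hsup, ?_⟩
  intro c τ B hw
  refine ⟨(SimpleGraph.Walk.map_isPath_of_injective (fun u v h => neg_injective h) hw.1).reverse, ?_⟩
  have key := FWalk_good f (τ := rf τ) (τ' := τ) (B := B) (w := w) ?_ (fun u v => lv c (u - v))
    (fun u v => lv c (v - u)) ?_ hw.2
  · intro u v w₁ w₂ w₃ h
    have h1 : w.map f = w₃.reverse.append (w₂.reverse.append w₁.reverse) := by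
      rw [← SimpleGraph.Walk.reverse_reverse (w.map f), h, SimpleGraph.Walk.reverse_append,
        SimpleGraph.Walk.reverse_append, SimpleGraph.Walk.append_assoc]
    have h2 := key v u w₃.reverse w₂.reverse w₁.reverse h1
    rwa [cost_reverse] at h2
  · intro x y h
    have h1 := FWalk_rf τ (-x) (-y) (FWalk_adj_neg h)
    rw [neg_neg, neg_neg] at h1
    exact h1.symm
  · intro u v
    show lv c (-u - -v) = lv c (v - u)
    congr 1
    abel

end Pool.Agent.W_1b8d5d_sc
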