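import Pool.Agent.W_1b8d5d_sc.FLow

/-!
MP_1b8d5d_pr (SC, part P2): the crossing events `Rch` and the tube events `TubeG`.
-/

set_option autoImplicit false

namespace Pool.Agent.W_1b8d5d_sc

open Finset Pool.Agent.W_1b8d5d_h85 Pool.Agent.W_1b8d5d_fe

variable {a b : ℝ} {c : Crd} {Λ : Lev a c} {τ : Env} {B B' : ℝ} {α β γ : ℤ} {y z : ℝ}

theorem Rch.left {y' : ℝ} (hy : y' ≤ y) (h : Rch Λ B α β y z τ) : Rch Λ B α β y' z τ := by
  obtain ⟨u, v, w, h1, h2, h3, h4⟩ := h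
  exact ⟨u, v, w, h1, h2, hy.trans h3, h4⟩

theorem Rch.right {z' : ℝ} (hz : z ≤ z') (h : Rch Λ B α β y z τ) : Rch Λ B α β y z' τ := by
  obtain ⟨u, v, w, h1, h2, h3, h4⟩ := h
  exact ⟨u, v, w, h1, h2, h3, h4.trans hz⟩

theorem Rch.mono (hB : B ≤ B') (h : Rch Λ B α β y z τ) : Rch Λ B' α β y z τ := by
  obtain ⟨u, v, w, h1, h2, h3, h4⟩ := h
  exact ⟨u, v, w, h1.mono hB, h2, h3, h4⟩

/-- Splitting at an intermediate level (`Crs.split`): for every height `h`. -/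
theorem Rch.split (ha : 0 < a) (hτ : Bd a b τ) (h1 : α + Λ.L < γ) (h2 : γ + Λ.L < β) (h : ℝ) (hR : Rch Λ B α β y z τ) :
    Rch Λ B α γ y h τ ∨ Rch Λ B γ β (h - Λ.rj B) z τ := by
  obtain ⟨x, y', w, e1, e2, e3, e4⟩ := hR
  obtain ⟨u, v, w₁, w₂, f1, f2, f3, f4, -, -, f5⟩ := Crs.split ha hτ h1 h2 e1 e2
  rcases le_or_gt (c.q u) h with h0 | h0
  · exact Or.inl ⟨x, u, w₁, f1, f3, e3, h0⟩
  · have h3 := (abs_le.1 f5).1
    exact Or.inr ⟨v, y', w₂, f2, f4, by linarith, e4⟩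

private theorem FRch_sh_one (τ : Env) (v : V) (α β : ℤ) (y z : ℝ) (h : Rch Λ B α β y z (sh v τ)) :
    Rch Λ B (α + Λ.xi v) (β + Λ.xi v) (y + c.q v) (z + c.q v) τ := by
  obtain ⟨x, x', w, e1, e2, e3, e4⟩ := h
  obtain ⟨w', f1, f2⟩ := exists_sh_walk w v
  refine ⟨x + v, x' + v, w', f2 c τ B e1, ⟨?_, ?_, ?_⟩, ?_, ?_⟩
  · intro u hu
    have h1 := e2.1 (u - v) ((f1 u).1 hu)
    rw [map_sub] at h1
    constructor <;> linarith [h1.1, h1.2]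
  · rw [map_add]
    linarith [e2.2.1]
  · rw [map_add]
    linarith [e2.2.2]
  · rw [map_add]
    linarith
  · rw [map_add]
    linarith

private theorem FRch_back (τ : Env) (z : V) : sh (-z) (sh z τ) = τ := by
  funext e
  unfold sh
  simp only [neg_add_cancel_right]

/-- Shift by a vertex. -/
theorem Rch_sh (v : V) : Rch Λ B α β y z (sh v τ) ↔ Rch Λ B (α + Λ.xi v) (β + Λ.xi v) (y + c.q v) (z + c.q v) τ := by
  refine ⟨FRch_sh_one τ v α β y z, fun h => ?_⟩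
  have h1 : Rch Λ B (α + Λ.xi v) (β + Λ.xi v) (y + c.q v) (z + c.q v) (sh (-v) (sh v τ)) := by
    rwa [FRch_back]
  have h2 := FRch_sh_one (sh v τ) (-v) _ _ _ _ h1
  rw [map_neg, map_neg, add_neg_cancel_right, add_neg_cancel_right, add_neg_cancel_right, add_neg_cancel_right] at h2
  exact h2

/-- The front functional and the crossings (`low_le`). -/
theorem Rch.low_le (ha : 0 < a) (hτ : Bd a b τ) {t : ℤ} {h : ℝ} (hR : Rch Λ B α (α + t) h z τ) : low Λ τ B α t h ≤ z := by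
  obtain ⟨x, x', w, e1, e2, e3, e4⟩ := hR
  exact (Pool.Agent.W_1b8d5d_sc.low_le ha hτ w e1 e2 e3).trans e4

/-- `low_attained`. -/
theorem Rch_of_low {t : ℤ} {h : ℝ} (h1 : low Λ τ B α t h ≤ z) (h2 : z < h + t) : Rch Λ B α (α + t) h z τ := by
  obtain ⟨x, x', w, -, e1, e2, e3, e4⟩ := low_attained (lt_of_le_of_lt h1 h2)
  exact ⟨x, x', w, e1, e2, e3, by rw [e4]; exact h1⟩

/-- The first part of a good crossing up to the level `γ` before a vertex `v` of level `≥ γ`. -/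
theorem Crs.head (ha : 0 < a) (hτ : Bd a b τ) {x y' v : V} {w : grid.Walk x y'} (hw : Bgd c τ B w) (hc : Crs Λ α β w)
    (hv : v ∈ w.support) (h1 : α + Λ.L < γ) (h2 : γ ≤ Λ.xi v) :
    Rch Λ B α γ (c.q x) (c.q v + Λ.dsp B (Λ.xi v - γ + Λ.L)) τ := by
  have hx := hc.2.1
  obtain ⟨w₁, w₂, f0, g1, -⟩ := hw.parts hv
  obtain ⟨u, u', w₃, hadj, w₄, f1, f2, f3⟩ := split_first (fun z => γ ≤ Λ.xi z) w₁ (by omega)
    ⟨v, w₁.end_mem_support, h2⟩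
  have hu := f2 u w₃.end_mem_support
  have hadj1 := (abs_le.1 (Λ.xi_adj hadj)).2
  have hw3 : Bgd c τ B w₃ := g1.sub (w₁ := .nil) (w₃ := .cons hadj w₄) (by rw [SimpleGraph.Walk.nil_append, f1])
  have huv : Bgd c τ B (SimpleGraph.Walk.cons hadj w₄) := g1.sub (w₁ := w₃) (w₃ := .nil) (by
    rw [SimpleGraph.Walk.append_nil, f1])
  have hsub : ∀ z ∈ w₃.support, z ∈ w.support := fun z hz => by
    rw [f0, SimpleGraph.Walk.mem_support_append_iff, f1, SimpleGraph.Walk.mem_support_append_iff]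
    exact Or.inl (Or.inl hz)
  refine ⟨x, u, w₃, hw3, ⟨fun z hz => ⟨(hc.1 z (hsub z hz)).1, not_le.1 (f2 z hz)⟩, hx, by omega⟩, le_rfl, ?_⟩
  have h3 := (abs_le.1 (huv.q_dsp Λ ha hτ)).1
  have h4 : Λ.dsp B (Λ.xi v - Λ.xi u : ℤ) ≤ Λ.dsp B (Λ.xi v - γ + Λ.L) := by
    refine Λ.dsp_mono ha le_rfl ?_
    have : Λ.xi v - Λ.xi u ≤ Λ.xi v - γ + Λ.L := by omega
    exact_mod_cast this
  linarith

/-- The last part of a good crossing from the level `γ` after a vertex `v` of level `≤ γ`. -/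
theorem Crs.suffix (ha : 0 < a) (hτ : Bd a b τ) {x y' v : V} {w : grid.Walk x y'} (hw : Bgd c τ B w) (hc : Crs Λ α β w)
    (hv : v ∈ w.support) (h1 : γ + Λ.L < β) (h2 : Λ.xi v ≤ γ) :
    Rch Λ B γ β (c.q v - Λ.dsp B (γ - Λ.xi v + Λ.L)) (c.q y') τ := by
  have hy := hc.2.2
  obtain ⟨w₁, w₂, f0, -, g1⟩ := hw.parts hv
  obtain ⟨u, u', w₃, hadj, w₄, f1, f2, f3⟩ := split_last (fun z => γ < Λ.xi z) w₂
    ⟨v, w₂.start_mem_support, by omega⟩ (by omega)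
  have hu := f2 u' w₄.start_mem_support
  have hadj1 := (abs_le.1 (Λ.xi_adj hadj)).2
  have hw4 : Bgd c τ B w₄ := g1.sub (w₁ := w₃.append (.cons hadj .nil)) (w₃ := .nil) (by
    rw [SimpleGraph.Walk.append_nil, f1, ← SimpleGraph.Walk.append_assoc]
    rfl)
  have hvu : Bgd c τ B (w₃.append (.cons hadj .nil)) := g1.sub (w₁ := .nil) (w₃ := w₄) (by
    rw [SimpleGraph.Walk.nil_append, f1, ← SimpleGraph.Walk.append_assoc]
    rfl)
  have hsub : ∀ z ∈ w₄.support, z ∈ w.support := fun z hz => by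
    rw [f0, SimpleGraph.Walk.mem_support_append_iff, f1, SimpleGraph.Walk.mem_support_append_iff,
      SimpleGraph.Walk.support_cons]
    exact Or.inr (Or.inr (List.mem_cons_of_mem _ hz))
  refine ⟨u', y', w₄, hw4, ⟨fun z hz => ⟨f2 z hz, (hc.1 z (hsub z hz)).2⟩, by omega, hy⟩, ?_, le_rfl⟩
  have h3 := (abs_le.1 (hvu.q_dsp Λ ha hτ)).1
  have h4 : Λ.dsp B (Λ.xi u' - Λ.xi v : ℤ) ≤ Λ.dsp B (γ - Λ.xi v + Λ.L) := by
    refine Λ.dsp_mono ha le_rfl ?_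
    have : Λ.xi u' - Λ.xi v ≤ γ - Λ.xi v + Λ.L := by omega
    exact_mod_cast this
  linarith

/-- The height at a vertex and at the end points. -/
theorem Crs.vertex (ha : 0 < a) (hτ : Bd a b τ) {x y' v : V} {w : grid.Walk x y'} (hw : Bgd c τ B w) (hc : Crs Λ α β w)
    (hv : v ∈ w.support) : |c.q v - c.q x| ≤ Λ.dsp B (Λ.xi v - α) ∧ |c.q y' - c.q v| ≤ Λ.dsp B (β - Λ.xi v) := by
  have hx := (hc.1 x w.start_mem_support).1
  have hy := (hc.1 y' w.end_mem_support).2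
  obtain ⟨w₁, w₂, -, g1, g2⟩ := hw.parts hv
  constructor
  · refine (g1.q_dsp Λ ha hτ).trans (Λ.dsp_mono ha le_rfl ?_)
    have : Λ.xi v - Λ.xi x ≤ Λ.xi v - α := by omega
    exact_mod_cast this
  · refine (g2.q_dsp Λ ha hτ).trans (Λ.dsp_mono ha le_rfl ?_)
    have : Λ.xi y' - Λ.xi v ≤ β - Λ.xi v := by omega
    exact_mod_cast this

/-! Tubes. -/

theorem TubeG.mono {σ h W W' : ℝ} (hB : B ≤ B') (hW : W ≤ W') (h0 : TubeG Λ B σ h W α β τ) : TubeG Λ B' σ h W' α β τ := by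
  obtain ⟨u, v, w, h1, h2, h3⟩ := h0
  exact ⟨u, v, w, h1.mono hB, h2, fun z hz => (h3 z hz).trans hW⟩

/-- A tube contains the tubes between intermediate levels (`Crs.split` twice). -/
theorem TubeG.sub (ha : 0 < a) (hτ : Bd a b τ) {σ h W : ℝ} {α' β' : ℤ} (h1 : α = α' ∨ α + Λ.L < α')
    (h2 : β' = β ∨ β' + Λ.L < β) (h3 : α' + Λ.L < β') (h0 : TubeG Λ B σ h W α β τ) : TubeG Λ B σ h W α' β' τ := by
  have hL := Λ.one_le
  have key : TubeG Λ B σ h W α' β τ := by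
    rcases h1 with rfl | h1
    · exact h0
    · obtain ⟨x, y, w, e1, e2, e3⟩ := h0
      obtain ⟨u, v, w₁, w₂, f1, f2, f3, f4, f6, f7, f5⟩ := Crs.split ha hτ h1 (by rcases h2 with rfl | h2 <;> omega) e1 e2
      exact ⟨v, y, w₂, f2, f4, fun z hz => e3 z (f7 z hz)⟩
  rcases h2 with rfl | h2
  · exact key
  · obtain ⟨x, y, w, e1, e2, e3⟩ := key
    obtain ⟨u, v, w₁, w₂, f1, f2, f3, f4, f6, f7, f5⟩ := Crs.split ha hτ h3 h2 e1 e2
    exact ⟨x, u, w₁, f1, f3, fun z hz => e3 z (f6 z hz)⟩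

/-- Another slope. -/
theorem TubeG.slope {σ σ' h h' W W' : ℝ} (h1 : ∀ l : ℤ, α < l → l < β → |(σ * l + h) - (σ' * l + h')| + W ≤ W')
    (h0 : TubeG Λ B σ h W α β τ) : TubeG Λ B σ' h' W' α β τ := by
  obtain ⟨u, v, w, e1, e2, e3⟩ := h0
  refine ⟨u, v, w, e1, e2, fun z hz => ?_⟩
  have h2 := h1 (Λ.xi z) (e2.1 z hz).1 (e2.1 z hz).2
  have h3 := e3 z hz
  have h4 : c.q z - σ' * Λ.xi z - h' = (c.q z - σ * Λ.xi z - h) + ((σ * Λ.xi z + h) - (σ' * Λ.xi z + h')) := by ring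
  rw [h4]
  exact (abs_add_le _ _).trans (by linarith)

private theorem FRch_tube_one {σ W : ℝ} (τ : Env) (v : V) (α β : ℤ) (h : ℝ) (h0 : TubeG Λ B σ h W α β (sh v τ)) :
    TubeG Λ B σ (h + c.q v - σ * Λ.xi v) W (α + Λ.xi v) (β + Λ.xi v) τ := by
  obtain ⟨x, x', w, e1, e2, e3⟩ := h0
  obtain ⟨w', f1, f2⟩ := exists_sh_walk w v
  refine ⟨x + v, x' + v, w', f2 c τ B e1, ⟨?_, ?_, ?_⟩, ?_⟩
  · intro u hu
    have h1 := e2.1 (u - v) ((f1 u).1 hu)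
    rw [map_sub] at h1
    constructor <;> linarith [h1.1, h1.2]
  · rw [map_add]
    linarith [e2.2.1]
  · rw [map_add]
    linarith [e2.2.2]
  · intro u hu
    have h1 := e3 (u - v) ((f1 u).1 hu)
    rw [map_sub, map_sub] at h1
    push_cast at h1
    have h2 : c.q u - σ * Λ.xi u - (h + c.q v - σ * Λ.xi v) = c.q u - c.q v - σ * (Λ.xi u - Λ.xi v) - h := by ring
    rwa [h2]

theorem TubeG_sh {σ h W : ℝ} (v : V) :
    TubeG Λ B σ h W α β (sh v τ) ↔ TubeG Λ B σ (h + c.q v - σ * Λ.xi v) W (α + Λ.xi v) (β + Λ.xi v) τ := by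
  refine ⟨FRch_tube_one τ v α β h, fun h0 => ?_⟩
  have h1 : TubeG Λ B σ (h + c.q v - σ * Λ.xi v) W (α + Λ.xi v) (β + Λ.xi v) (sh (-v) (sh v τ)) := by
    rwa [FRch_back]
  have h2 := FRch_tube_one (sh v τ) (-v) _ _ _ h1
  rw [map_neg, map_neg, add_neg_cancel_right, add_neg_cancel_right] at h2
  have h3 : h + c.q v - σ * Λ.xi v + -c.q v - σ * ((-Λ.xi v : ℤ) : ℝ) = h := by
    push_cast
    ring
  rwa [h3] at h2

/-- The tube event depends only on the edges of the tube. -/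
theorem dependsOn_TubeG (Λ : Lev a c) (B σ h W : ℝ) (α β : ℤ) :
    ∀ τ τ' : Env, (∀ e ∈ edg {z | (α < Λ.xi z ∧ Λ.xi z < β) ∧ |c.q z - σ * Λ.xi z - h| ≤ W}, τ e = τ' e) →
      (TubeG Λ B σ h W α β τ ↔ TubeG Λ B σ h W α β τ') := by
  have one : ∀ τ τ' : Env, (∀ e ∈ edg {z | (α < Λ.xi z ∧ Λ.xi z < β) ∧ |c.q z - σ * Λ.xi z - h| ≤ W}, τ e = τ' e) →
      TubeG Λ B σ h W α β τ → TubeG Λ B σ h W α β τ' := by
    rintro τ τ' hττ ⟨x, y, w, e1, e2, e3⟩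
    refine ⟨x, y, w, e1.congr fun e he => hττ e ?_, e2, e3⟩
    have h1 := wedges_support w he
    exact ⟨⟨e2.1 _ h1.1, e3 _ h1.1⟩, ⟨e2.1 _ h1.2, e3 _ h1.2⟩⟩
  exact fun τ τ' hττ => ⟨one τ τ' hττ, one τ' τ fun e he => (hττ e he).symm⟩

/-- Lower weights. -/
theorem TubeG.anti {τ' : Env} {σ h W : ℝ} (hle : ∀ e, τ' e ≤ τ e) (h0 : TubeG Λ B σ h W α β τ) :
    TubeG Λ B σ h W α β τ' := by
  obtain ⟨x, y, w, e1, e2, e3⟩ := h0
  exact ⟨x, y, w, e1.anti hle, e2, e3⟩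

end Pool.Agent.W_1b8d5d_sc
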