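import Pool.Agent.W_1b8d5d_sc.Soft
import Pool.Agent.W_1b8d5d_sc.FRch
import Pool.Agent.W_1b8d5d_sc.FWalk

/-!
MP_1b8d5d_pr (SC), part P4: from the crossings of FE to the tubes with good paths.
-/

set_option autoImplicit false

namespace Pool.Agent.W_1b8d5d_sc

open Finset Filter Pool.Agent.W_1b8d5d_h85 Pool.Agent.W_1b8d5d_fe

/-- A crossing gives a path which stays within `10 r`.  PROOF: a geodesic of the restricted environment; `Conf` and `Ov`. -/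
theorem conf_path (Q : Par) {g : V → ℝ} (c : Crd) (hl : ∀ z, lv c z ≤ g z) :
    ∃ A s₀ : ℝ, 1 ≤ A ∧ 1 ≤ s₀ ∧ ∀ (s r ℓ L α β e : ℝ) (τ : Env) (x y : V), s₀ ≤ s → 2 * c.C ≤ r → r ≤ s → ℓ ≤ s → 0 ≤ ℓ →
      Bd Q.a Q.b τ → Ov g L s τ → Conf g c r ℓ A s → Win c r r ℓ α β x y → nm x + A * s ≤ L →
      e ≤ s ^ (4 / 5 : ℝ) / 4 → Kc Q.b c (10 * r) ℓ α β e x y τ →
      ∃ w : grid.Walk x y, w.IsPath ∧ cost τ w ≤ lv c (y - x) + e ∧
        ∀ z ∈ w.support, |c.q z - β| ≤ 10 * r ∧ nm (z - x) ≤ A * s := by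
  have hC := c.one_le
  have ha := Q.ha
  have hab := Q.hab.le
  obtain ⟨A, hA⟩ : ∃ A : ℝ, A = (3 + 4 * c.C) / Q.a + 1 := ⟨_, rfl⟩
  have hA0 : 0 < (3 + 4 * c.C) / Q.a := by positivity
  have hA1 : 1 ≤ A := by linarith
  obtain ⟨s₁, hs₁, h1⟩ := pow_large (8 * A) (x := 3 / 5) (y := 4 / 5) (by norm_num)
  refine ⟨A, s₁, hA1, hs₁, ?_⟩
  intro s r ℓ L α β e τ x y hs hCr hrs hℓs hℓ0 hτ hOv hConf hWin hL he hKc
  have hr0 : 0 ≤ r := by linarith
  have hs1 : 1 ≤ s := hs₁.trans hs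
  have hs0 : 0 < s := by linarith
  have h83 := h1 s hs
  have e45 : s ^ (4 / 5 : ℝ) ≤ s := by
    calc s ^ (4 / 5 : ℝ) ≤ s ^ (1 : ℝ) := Real.rpow_le_rpow_of_exponent_le hs1 (by norm_num)
      _ = s := Real.rpow_one s
  obtain ⟨⟨hx1, hx2, hx3⟩, hy1, hy2, hy3⟩ := hWin
  obtain ⟨ρ, hρ⟩ : ∃ ρ : Env, ρ = res Q.b (Eb c α β (10 * r) ℓ (lv c x)) τ := ⟨_, rfl⟩
  have hρB : Bd Q.a Q.b ρ := by rw [hρ]; exact Bd_res hab hτ _
  have hT : T ρ x y ≤ lv c (y - x) + e := by rw [hρ]; exact hKc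
  obtain ⟨u, hu⟩ := exists_geo hρB ha x y
  have hlvyx : lv c (y - x) = lv c y - lv c x := lv_sub c y x
  have hT2 : T ρ x y ≤ (3 + 4 * c.C) * s := by
    rw [hlvyx] at hT
    nlinarith
  have hTa : ∀ i, T ρ x (u.getVert i) ≤ (3 + 4 * c.C) * s := by
    intro i
    have h1 := geo_add hρB ha.le hu i
    have h2 := T_nonneg hρB ha.le (u.getVert i) y
    linarith
  have hTb : ∀ i, T ρ (u.getVert i) y ≤ (3 + 4 * c.C) * s := by
    intro i
    have h1 := geo_add hρB ha.le hu i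
    have h2 := T_nonneg hρB ha.le x (u.getVert i)
    linarith
  have hAs : (3 + 4 * c.C) * s / Q.a ≤ A * s := by
    have h1 : (3 + 4 * c.C) * s / Q.a = (3 + 4 * c.C) / Q.a * s := by ring
    have h2 : A * s = (3 + 4 * c.C) / Q.a * s + s := by rw [hA]; ring
    linarith
  have hna : ∀ i, nm (u.getVert i - x) ≤ A * s := by
    intro i
    refine le_trans ?_ hAs
    rw [le_div_iff₀ ha]
    have h1 := T_lower hρB ha.le x (u.getVert i)
    linarith [hTa i]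
  have hnb : ∀ i, nm (y - u.getVert i) ≤ A * s := by
    intro i
    refine le_trans ?_ hAs
    rw [le_div_iff₀ ha]
    have h1 := T_lower hρB ha.le (u.getVert i) y
    linarith [hTb i]
  have hnL : ∀ i, nm (u.getVert i) ≤ L := by
    intro i
    have h1 := nm_add_le x (u.getVert i - x)
    rw [add_sub_cancel] at h1
    linarith [hna i]
  have hxL : nm x ≤ L := by
    have : 0 ≤ A * s := by positivity
    linarith
  have hyL : nm y ≤ L := by
    have h1 := hnL u.length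
    rwa [u.getVert_length] at h1
  have hlow : ∀ x' y' : V, nm x' ≤ L → nm y' ≤ L → nm (y' - x') ≤ A * s →
      g (y' - x') - s ^ (4 / 5 : ℝ) / 8 ≤ T ρ x' y' := by
    intro x' y' g1 g2 g3
    have h1 := abs_le.1 (hOv x' y' g1 g2)
    have h2 : max s (nm (y' - x')) ^ (3 / 5 : ℝ) ≤ s ^ (4 / 5 : ℝ) / 8 := by
      have h3 : max s (nm (y' - x')) ≤ A * s := by
        refine max_le ?_ g3
        exact le_mul_of_one_le_left hs0.le hA1
      have h4 : A ^ (3 / 5 : ℝ) ≤ A := by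
        calc A ^ (3 / 5 : ℝ) ≤ A ^ (1 : ℝ) := Real.rpow_le_rpow_of_exponent_le hA1 (by norm_num)
          _ = A := Real.rpow_one A
      calc max s (nm (y' - x')) ^ (3 / 5 : ℝ) ≤ (A * s) ^ (3 / 5 : ℝ) :=
            Real.rpow_le_rpow (hs0.le.trans (le_max_left _ _)) h3 (by norm_num)
        _ = A ^ (3 / 5 : ℝ) * s ^ (3 / 5 : ℝ) := Real.mul_rpow (by linarith) hs0.le
        _ ≤ A * s ^ (3 / 5 : ℝ) := mul_le_mul_of_nonneg_right h4 (by positivity)
        _ ≤ s ^ (4 / 5 : ℝ) / 8 := by linarith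
    have h5 := T_le_res ha.le hτ (Eb c α β (10 * r) ℓ (lv c x)) x' y'
    rw [← hρ] at h5
    linarith [h1.1]
  have hthree : ∀ i, |c.q (u.getVert i) - β| ≤ 10 * r := by
    intro i
    by_contra hcon
    push Not at hcon
    obtain ⟨z, hz⟩ : ∃ z, z = u.getVert i := ⟨_, rfl⟩
    rw [← hz] at hcon
    have e0 : z - x + (y - z) = y - x := by abel
    have h1 : |c.q (y - x)| ≤ 3 * r := by
      rw [map_sub]
      have : c.q y - c.q x = (c.q y - β) - (c.q x - β) := by ring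
      rw [this]
      exact (abs_sub _ _).trans (by linarith)
    have h2 : 8 * r < |c.q (z - x)| := by
      rw [map_sub]
      have : c.q z - β = (c.q z - c.q x) + (c.q x - β) := by ring
      rw [this] at hcon
      have := abs_add_le (c.q z - c.q x) (c.q x - β)
      linarith
    have hnaz := hna i
    rw [← hz] at hnaz
    have h3 := hConf (z - x) (y - z) (by rw [e0]; exact h1) (by rw [e0, hlvyx]; linarith)
      (by rw [e0, hlvyx]; linarith) h2 hnaz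
    rw [e0] at h3
    have h4 := geo_add hρB ha.le hu i
    have h5 := hlow x (u.getVert i) hxL (hnL i) (hna i)
    have h6 := hlow (u.getVert i) y (hnL i) hyL (hnb i)
    rw [← hz] at h4 h5 h6
    have h7 : 0 < s ^ (4 / 5 : ℝ) := by positivity
    linarith
  refine ⟨u, hu.1, ?_, fun z hz => ?_⟩
  · have h2 : cost τ u ≤ cost ρ u := cost_mono u fun e _ => by rw [hρ]; exact le_res hτ _ e
    rw [hu.2] at h2
    linarith
  · obtain ⟨i, hi, -⟩ := (SimpleGraph.Walk.mem_support_iff_exists_getVert).1 hz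
    rw [← hi]
    exact ⟨hthree i, hna i⟩

/-- Without luck, a path of small excess is good. -/
theorem bgd_of_noluck {a b : ℝ} (ha : 0 ≤ a) {c : Crd} {τ : Env} (hτ : Bd a b τ) {e Y : ℝ} {x y : V} {w : grid.Walk x y}
    (hw : w.IsPath) (hc : cost τ w ≤ lv c (y - x) + e) (h : ∀ u ∈ w.support, ∀ v ∈ w.support, lv c (v - u) - Y ≤ T τ u v) :
    Bgd c τ (e + 2 * Y) w := by
  refine ⟨hw, fun u v w₁ w₂ w₃ hd => ?_⟩
  have h1 : cost τ w = cost τ w₁ + (cost τ w₂ + cost τ w₃) := by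
    rw [hd, cost_append, cost_append]
  have hu : u ∈ w.support := by
    rw [hd, SimpleGraph.Walk.mem_support_append_iff]
    exact Or.inl w₁.end_mem_support
  have hv : v ∈ w.support := by
    rw [hd, SimpleGraph.Walk.mem_support_append_iff, SimpleGraph.Walk.mem_support_append_iff]
    exact Or.inr (Or.inl w₂.end_mem_support)
  have h2 := (h x w.start_mem_support u hu).trans (T_le_cost hτ ha w₁)
  have h3 := (h v hv y w.end_mem_support).trans (T_le_cost hτ ha w₃)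
  have h4 : lv c (y - x) = lv c (u - x) + lv c (v - u) + lv c (y - v) := by
    rw [← lv_add, ← lv_add]
    congr 1
    abel
  linarith

/-- Cutting a good walk at two integer levels. -/
theorem tube_cut {a : ℝ} {c : Crd} {Λ : Lev a c} {τ : Env} {B σ h W : ℝ} {α γ : ℤ} {x y : V} {w : grid.Walk x y}
    (hw : Bgd c τ B w) (hx : Λ.xi x ≤ α) (hy : γ ≤ Λ.xi y) (hαγ : α + Λ.L < γ)
    (hW : ∀ z ∈ w.support, α < Λ.xi z → Λ.xi z < γ → |c.q z - σ * Λ.xi z - h| ≤ W) : TubeG Λ B σ h W α γ τ := by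
  have hL := Λ.one_le
  obtain ⟨u, v, w₁, h1, w₂, hd, hp, hu⟩ := split_last (fun z => α < Λ.xi z) w ⟨x, w.start_mem_support, by simpa using hx⟩
    (by show α < Λ.xi y; omega)
  have hw2 : Bgd c τ B w₂ := by
    refine hw.sub (w₁ := w₁.append (.cons h1 .nil)) (w₂ := w₂) (w₃ := .nil) ?_
    rw [hd, SimpleGraph.Walk.append_nil, ← SimpleGraph.Walk.append_assoc]
    rfl
  have hv : Λ.xi v ≤ α + Λ.L := by
    have h2 := abs_le.1 (Λ.xi_adj h1)
    have h3 : Λ.xi u ≤ α := by simpa using hu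
    omega
  obtain ⟨u', v', w₁', h1', w₂', hd', hp', hv'⟩ := split_first (fun z => γ ≤ Λ.xi z) w₂ (by show ¬ γ ≤ Λ.xi v; omega)
    ⟨y, w₂.end_mem_support, hy⟩
  have hw3 : Bgd c τ B w₁' := by
    refine hw2.sub (w₁ := .nil) (w₂ := w₁') (w₃ := .cons h1' w₂') ?_
    rw [hd', SimpleGraph.Walk.nil_append]
  have hsub : ∀ z ∈ w₁'.support, z ∈ w₂.support := fun z hz => by
    rw [hd', SimpleGraph.Walk.mem_support_append_iff]
    exact Or.inl hz
  have hsub2 : ∀ z ∈ w₂.support, z ∈ w.support := fun z hz => by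
    rw [hd, SimpleGraph.Walk.mem_support_append_iff]
    refine Or.inr ?_
    rw [SimpleGraph.Walk.support_cons]
    exact List.mem_cons_of_mem _ hz
  have hin : ∀ z ∈ w₁'.support, α < Λ.xi z ∧ Λ.xi z < γ := fun z hz => ⟨hp z (hsub z hz), by
    have := hp' z hz
    simpa using this⟩
  refine ⟨v, u', w₁', hw3, ⟨hin, hv, ?_⟩, fun z hz => hW z (hsub2 z (hsub z hz)) (hin z hz).1 (hin z hz).2⟩
  have h2 := abs_le.1 (Λ.xi_adj h1')
  omega

/-- Translation invariance of the tube events. -/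
theorem P_TubeG_sh {Q : Par} {g : V → ℝ} {R : ℝ} {M : Mdl Q.a Q.b} (hM : Good Q g R M) {c : Crd} (Λ : Lev Q.a c)
    (B σ h W : ℝ) (α β : ℤ) (v : V) :
    M.P (TubeG Λ B σ (h + c.q v - σ * Λ.xi v) W (α + Λ.xi v) (β + Λ.xi v)) = M.P (TubeG Λ B σ h W α β) := by
  classical
  have h1 := hM.inv v fun τ => if TubeG Λ B σ h W α β τ then (1 : ℝ) else 0
  rw [M.P_def, M.P_def, ← h1]
  refine M.E_congr fun τ _ => ?_
  by_cases h2 : TubeG Λ B σ h W α β (sh v τ)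
  · rw [if_pos h2, if_pos ((TubeG_sh v).1 h2)]
  · rw [if_neg h2, if_neg fun h3 => h2 ((TubeG_sh v).2 h3)]

/-- **The lower base.**  Near the end point `v₁` of the flat piece, the straight tubes of relative width `η` are crossed by
good paths of budget `K F + 2 Y`, with `K` independent of `η`. -/
theorem base_tube {Q : Par} {g : V → ℝ} (hg : IsMean Q g) (hM : HasModels Q g) {c : Crd} (hf : FlatS g c) {D : ℝ} (hD : 3 ≤ D) :
    ∃ Lb : ℝ, 1 ≤ Lb ∧ ∀ p : ℝ, 0 < p → p ≤ 1 → ∃ K : ℝ, 1 ≤ K ∧ ∀ η : ℝ, 0 < η → η ≤ 1 / 1000 →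
      ∀ Λ : Lev Q.a c, 100 * c.C * Λ.eps ≤ 1 → ∀ CF : ℝ, 1 ≤ CF → ∃ s₀ : ℝ, 1 ≤ s₀ ∧
      ∀ (s R : ℝ) (M : Mdl Q.a Q.b), s₀ ≤ s →
      (2 * s) ^ 300 ≤ R → Good Q g R M → ∀ F : ℝ, 1 ≤ F → F ≤ CF * s ^ (3 / 4 : ℝ) →
      (∀ n : ℝ, 2 * s ≤ n → n ≤ 4 * s ^ 2 → Fm M c D n ≤ F * (n / s) ^ (9 / 10 : ℝ)) →
      ∀ Y : ℝ, M.P (fun τ => ∃ u v, nm u ≤ Lb * s ∧ nm v ≤ Lb * s ∧ T τ u v ≤ lv c (v - u) - Y) ≤ p / 4 →
      ∀ (α t : ℤ) (h : ℝ), Λ.L < t → Λ.kap * t ≤ s →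
        1 - p ≤ M.P (TubeG Λ (K * F + 2 * Y) 0 h (η * s) α (α + t)) := by
  have hC := c.one_le
  have ha := Q.ha
  have hab := Q.hab.le
  obtain ⟨A, s₁, hA, hs₁, hpath⟩ := conf_path Q c hf.low (g := g)
  refine ⟨c.C + 2 * A, by linarith, fun p hp hp1 => ?_⟩
  obtain ⟨K, hK, hsoft⟩ := soft hg hM hf hD (p := p / 4) (by linarith) (by linarith)
  refine ⟨2 * K, by linarith, fun η hη hη1 Λ hΛ CF hCF => ?_⟩
  have hCF0 : 0 < CF := by linarith
  obtain ⟨s₂, hs₂, hcr⟩ := hsoft (η / 40) (by positivity) (by linarith) (2 * CF) (by linarith)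
  obtain ⟨s₃, hs₃, hconf⟩ := conf_flat hf (η := η / 40) (by positivity) hA
  obtain ⟨s₄, hs₄, hov⟩ := P_Ov Q g 22 (p / 4) (by linarith)
  have hH := Λ.H_nonneg
  have hκ := Λ.kap_pos
  have hε := Λ.eps_nonneg
  have hL := Λ.one_le
  suffices HS : ∀ᶠ s : ℝ in atTop, ∀ (R : ℝ) (M : Mdl Q.a Q.b),
      (2 * s) ^ 300 ≤ R → Good Q g R M → ∀ F : ℝ, 1 ≤ F → F ≤ CF * s ^ (3 / 4 : ℝ) →
      (∀ n : ℝ, 2 * s ≤ n → n ≤ 4 * s ^ 2 → Fm M c D n ≤ F * (n / s) ^ (9 / 10 : ℝ)) →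
      ∀ Y : ℝ, M.P (fun τ => ∃ u v, nm u ≤ (c.C + 2 * A) * s ∧ nm v ≤ (c.C + 2 * A) * s ∧
        T τ u v ≤ lv c (v - u) - Y) ≤ p / 4 →
      ∀ (α t : ℤ) (h : ℝ), Λ.L < t → Λ.kap * t ≤ s →
        1 - p ≤ M.P (TubeG Λ (2 * K * F + 2 * Y) 0 h (η * s) α (α + t)) by
    obtain ⟨s₀, hs₀⟩ := eventually_atTop.1 HS
    exact ⟨max s₀ 1, le_max_right _ _, fun s R M hs => hs₀ s ((le_max_left _ _).trans hs) R M⟩
  filter_upwards [eventually_ge_atTop s₁, eventually_ge_atTop s₂, eventually_ge_atTop s₃, eventually_ge_atTop s₄,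
    eventually_ge_atTop (1000 * c.C / η), eventually_ge_atTop (100 * Λ.H / η), eventually_ge_atTop (1000 * c.C),
    eventually_ge_atTop (100 * A), ev_pow (8 * K * CF) (by norm_num : (3 / 4 : ℝ) < 4 / 5)]
    with s l1 l2 l3 l4 l5 l6 l7 l8 w1
  intro R M hR hG F hF1 hFs hgr Y hluck α t h hLt hts
  have hs1 : 1 ≤ s := hs₁.trans l1
  have hs0 : 0 < s := by linarith only [hs1]
  obtain ⟨S, hS⟩ : ∃ S, S = 2 * s := ⟨_, rfl⟩
  have hS1 : 1 ≤ S := by linarith only [hS, hs1]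
  have hS0 : 0 < S := by linarith only [hS1]
  have hSs : s ≤ S := by linarith only [hS, hs0]
  have hRp : ∀ k : ℕ, k ≤ 300 → S ^ k ≤ R := fun k hk => (pow_le_pow_right₀ hS1 hk).trans (by rw [hS]; exact hR)
  obtain ⟨r, hr⟩ : ∃ r, r = η / 40 * S := ⟨_, rfl⟩
  have hrs : r = η * s / 20 := by rw [hr, hS]; ring
  have hηs : 1000 * c.C ≤ η * s := by
    have := (div_le_iff₀ hη).1 l5
    linarith only [this]
  have hHs : 100 * Λ.H ≤ η * s := by
    have := (div_le_iff₀ hη).1 l6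
    linarith only [this]
  have hηs1 : 1000 * (η * s) ≤ s := by
    have := mul_le_mul_of_nonneg_right hη1 hs0.le
    linarith only [this]
  have hr0 : 0 < r := by rw [hrs]; positivity
  -- the position
  obtain ⟨v, hv1, hv2, hv3⟩ := Λ.rnd (-α) (-h)
  have hpos : M.P (TubeG Λ (2 * K * F + 2 * Y) 0 h (η * s) α (α + t)) =
      M.P (TubeG Λ (2 * K * F + 2 * Y) 0 (h + c.q v) (η * s) 0 t) := by
    have h1 := P_TubeG_sh hG Λ (2 * K * F + 2 * Y) 0 h (η * s) α (α + t) v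
    rw [← h1, hv1]
    congr 2 <;> ring
  rw [hpos]
  obtain ⟨h', hh'⟩ : ∃ h', h' = h + c.q v := ⟨_, rfl⟩
  have hh0 : 0 ≤ h' := by linarith only [hh', hv2]
  have hhH : h' ≤ Λ.H := by linarith only [hh', hv3]
  rw [← hh']
  clear hpos
  -- the crossing
  have hpow : s ^ (3 / 4 : ℝ) ≤ S ^ (3 / 4 : ℝ) := Real.rpow_le_rpow hs0.le hSs (by norm_num)
  have hF2 : 2 * F ≤ 2 * CF * S ^ (3 / 4 : ℝ) := by
    have h1 := mul_le_mul_of_nonneg_left hpow hCF0.le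
    linarith only [h1, hFs]
  have hgr2 : ∀ n : ℝ, S ≤ n → n ≤ S ^ 2 → Fm M c D n ≤ 2 * F * (n / S) ^ (9 / 10 : ℝ) := by
    intro n hn1 hn2
    have h1 := hgr n (by rw [← hS]; exact hn1) (hn2.trans (le_of_eq (by rw [hS]; ring)))
    have hn0 : 0 < n := lt_of_lt_of_le hS0 hn1
    have h2 : n / s = 2 * (n / S) := by
      rw [hS]
      field_simp
    have h3 : (2 * (n / S)) ^ (9 / 10 : ℝ) = 2 ^ (9 / 10 : ℝ) * (n / S) ^ (9 / 10 : ℝ) :=
      Real.mul_rpow (by norm_num) (by positivity)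
    have h4 : (2 : ℝ) ^ (9 / 10 : ℝ) ≤ 2 := by
      calc (2 : ℝ) ^ (9 / 10 : ℝ) ≤ 2 ^ (1 : ℝ) := Real.rpow_le_rpow_of_exponent_le (by norm_num) (by norm_num)
        _ = 2 := Real.rpow_one 2
    rw [h2, h3] at h1
    refine h1.trans ?_
    have h5 : 0 ≤ F * (n / S) ^ (9 / 10 : ℝ) := by positivity
    have h6 := mul_le_mul_of_nonneg_right h4 h5
    calc F * (2 ^ (9 / 10 : ℝ) * (n / S) ^ (9 / 10 : ℝ)) = 2 ^ (9 / 10 : ℝ) * (F * (n / S) ^ (9 / 10 : ℝ)) := by ring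
      _ ≤ 2 * (F * (n / S) ^ (9 / 10 : ℝ)) := h6
      _ = 2 * F * (n / S) ^ (9 / 10 : ℝ) := by ring
  obtain ⟨α₀, β₀, hα₀, hβ₀, hP⟩ := hcr S R M (l2.trans hSs) (hRp 300 le_rfl) hG (2 * F) (by linarith only [hF1]) hF2 hgr2
  rw [← hr] at hP
  obtain ⟨z, hz1, hz2⟩ := exists_shift c (α₀ + s / 4) (β₀ - h')
  have hP' := P_Cr_sh hG c r (10 * r) r S α₀ β₀ (K * (2 * F)) z
  obtain ⟨α', hα'⟩ : ∃ α', α' = α₀ + lv c z := ⟨_, rfl⟩
  obtain ⟨β', hβ'⟩ : ∃ β', β' = β₀ + c.q z := ⟨_, rfl⟩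
  rw [← hα', ← hβ'] at hP'
  have hα1 : -(s / 4) - 2 * c.C ≤ α' := by
    have := (abs_le.1 hz1).1
    linarith only [this, hα']
  have hα2 : α' ≤ -(s / 4) + 2 * c.C := by
    have := (abs_le.1 hz1).2
    linarith only [this, hα']
  have hβ1 : |β' - h'| ≤ c.C := by
    have : β' - h' = β₀ - h' + c.q z := by rw [hβ']; ring
    rw [this]
    exact hz2
  have hβ2 := abs_le.1 hβ1
  have hOv := hov S R M (l4.trans hSs) (le_trans (by
      calc 2 * S ^ 22 ≤ S * S ^ 22 := mul_le_mul_of_nonneg_right (by linarith only [l7, hC, hSs]) (by positivity)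
        _ = S ^ 23 := by ring) (hRp 23 (by norm_num))) ((le_self_pow₀ hS1 (by norm_num)).trans (hRp 1 (by norm_num))) hG
  have hkey : ∀ τ, Bd Q.a Q.b τ → ¬ TubeG Λ (2 * K * F + 2 * Y) 0 h' (η * s) 0 t τ →
      (¬ Cr Q.b c r (10 * r) r S α' β' (K * (2 * F)) τ ∨ ¬ Ov g (S ^ 22) S τ) ∨
        ∃ u v, nm u ≤ (c.C + 2 * A) * s ∧ nm v ≤ (c.C + 2 * A) * s ∧ T τ u v ≤ lv c (v - u) - Y := by
    intro τ hτ
    contrapose!
    rintro ⟨⟨hC1, hO⟩, hY⟩
    obtain ⟨x, y, hW, hKc⟩ := hC1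
    obtain ⟨⟨x1, x2, x3⟩, y1, y2, y3⟩ := hW
    obtain ⟨x3a, x3b⟩ := abs_le.1 x3
    obtain ⟨y3a, y3b⟩ := abs_le.1 y3
    have hrr : r ≤ s / 1000 := by rw [hrs]; linarith only [hηs1, hs0]
    have hHH : Λ.H ≤ s / 1000 := by linarith only [hηs1, hs0, hHs]
    have hCC : c.C ≤ s / 1000 := by linarith only [l7]
    have nx : nm x ≤ c.C * s := by
      have h1 := nm_le_lq c x
      have h2 : |lv c x| ≤ s / 4 + 4 * c.C + r := by
        rw [abs_le]
        constructor <;> linarith only [x1, x2, hα1, hα2, hr0, hC, hs0]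
      have h3 : |c.q x| ≤ Λ.H + c.C + 2 * r := by
        rw [abs_le]
        constructor <;> linarith only [x3a, x3b, hβ2.1, hβ2.2, hh0, hhH]
      have h4 : |lv c x| + |c.q x| ≤ s / 2 := by linarith only [h2, h3, hrr, hHH, hCC, hs0]
      calc nm x ≤ 2 * c.C * (|lv c x| + |c.q x|) := h1
        _ ≤ 2 * c.C * (s / 2) := mul_le_mul_of_nonneg_left h4 (by linarith only [hC])
        _ = c.C * s := by ring
    have ny : nm y ≤ 5 * c.C * s := by
      have h1 := nm_le_lq c y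
      have h2 : |lv c y| ≤ s / 4 + 4 * c.C + 2 * s := by
        rw [abs_le]
        constructor <;> linarith only [y1, y2, hα1, hα2, hr0, hC, hs0, hS]
      have h3 : |c.q y| ≤ Λ.H + c.C + r := by
        rw [abs_le]
        constructor <;> linarith only [y3a, y3b, hβ2.1, hβ2.2, hh0, hhH]
      have h4 : |lv c y| + |c.q y| ≤ 5 / 2 * s := by linarith only [h2, h3, hrr, hHH, hCC, hs0]
      calc nm y ≤ 2 * c.C * (|lv c y| + |c.q y|) := h1
        _ ≤ 2 * c.C * (5 / 2 * s) := mul_le_mul_of_nonneg_left h4 (by linarith only [hC])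
        _ = 5 * c.C * s := by ring
    have hconf' := hconf S r S (l3.trans hSs) (by rw [hr]) (by linarith only [hrr, hSs, hs0]) hS0.le le_rfl
    have hbox : nm x + A * S ≤ S ^ 22 := by
      have h1 : c.C + A ≤ S := by linarith only [hCC, l8, hSs, hs0, hA]
      have h2 : c.C * s ≤ c.C * S := mul_le_mul_of_nonneg_left hSs (by linarith only [hC])
      calc nm x + A * S ≤ (c.C + A) * S := by linarith only [nx, h2]
        _ ≤ S * S := mul_le_mul_of_nonneg_right h1 hS0.le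
        _ = S ^ 2 := by ring
        _ ≤ S ^ 22 := pow_le_pow_right₀ hS1 (by norm_num)
    have hKF : K * (2 * F) ≤ S ^ (4 / 5 : ℝ) / 4 := by
      have h1 : s ^ (4 / 5 : ℝ) ≤ S ^ (4 / 5 : ℝ) := Real.rpow_le_rpow hs0.le hSs (by norm_num)
      have h2 := mul_le_mul_of_nonneg_left hFs (by linarith only [hK] : 0 ≤ 8 * K)
      have h3 : 8 * K * (CF * s ^ (3 / 4 : ℝ)) = 8 * K * CF * s ^ (3 / 4 : ℝ) := by ring
      linarith only [h1, h2, h3, w1]
    obtain ⟨w, hw1, hw2, hw3⟩ := hpath S r S (S ^ 22) α' β' (K * (2 * F)) τ x y (l1.trans hSs)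
      (by rw [hrs]; linarith only [hηs, hC]) (by linarith only [hrr, hSs, hs0]) le_rfl hS0.le hτ hO hconf'
      ⟨⟨x1, x2, x3⟩, y1, y2, y3⟩ hbox hKF hKc
    have hnw : ∀ u ∈ w.support, nm u ≤ (c.C + 2 * A) * s := by
      intro u hu
      have h1 := nm_add_le x (u - x)
      rw [add_sub_cancel] at h1
      have h2 := (hw3 u hu).2
      have h3 : A * S = 2 * A * s := by rw [hS]; ring
      linarith only [h1, h2, h3, nx]
    have hgood := bgd_of_noluck ha.le hτ (Y := Y) hw1 hw2 fun u hu v hv => (hY u v (hnw u hu) (hnw v hv)).le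
    have e1 : K * (2 * F) + 2 * Y = 2 * K * F + 2 * Y := by ring
    rw [e1] at hgood
    have hxi : Λ.xi x ≤ 0 := by
      have h1 := (abs_le.1 (Λ.close x)).2
      have h2 : Λ.eps * nm x ≤ s / 100 := by
        have h3 := mul_le_mul_of_nonneg_left nx hε
        have h4 := mul_le_mul_of_nonneg_right hΛ hs0.le
        linarith only [h3, h4]
      have h5 : Λ.kap * (Λ.xi x : ℝ) < 0 := by linarith only [h1, h2, x2, hα2, hCC, hs0]
      have h6 : (Λ.xi x : ℝ) < 0 := by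
        by_contra hcon
        push Not at hcon
        have := mul_nonneg hκ.le hcon
        linarith only [this, h5]
      have h7 : Λ.xi x < 0 := by exact_mod_cast h6
      omega
    have hyi : t ≤ Λ.xi y := by
      have h1 := (abs_le.1 (Λ.close y)).1
      have h2 : Λ.eps * nm y ≤ s / 20 := by
        have h3 := mul_le_mul_of_nonneg_left ny hε
        have h4 := mul_le_mul_of_nonneg_right hΛ hs0.le
        linarith only [h3, h4]
      have h5 : Λ.kap * (t : ℝ) ≤ Λ.kap * (Λ.xi y : ℝ) := by linarith only [h1, h2, y1, hα1, hCC, hs0, hS, hts]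
      have h6 : (t : ℝ) ≤ (Λ.xi y : ℝ) := le_of_mul_le_mul_left h5 hκ
      exact_mod_cast h6
    refine tube_cut hgood hxi hyi (by omega) fun u hu _ _ => ?_
    have h1 := abs_le.1 (hw3 u hu).1
    rw [zero_mul, sub_zero, abs_le]
    have h2 : 10 * r = η * s / 2 := by rw [hrs]; ring
    constructor <;> linarith only [h1.1, h1.2, h2, hβ2.1, hβ2.2, hηs, hC]
  have h1 := M.P_mono hkey
  have h2 := M.P_or (fun τ => ¬ Cr Q.b c r (10 * r) r S α' β' (K * (2 * F)) τ ∨ ¬ Ov g (S ^ 22) S τ)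
    (fun τ => ∃ u v, nm u ≤ (c.C + 2 * A) * s ∧ nm v ≤ (c.C + 2 * A) * s ∧ T τ u v ≤ lv c (v - u) - Y)
  have h3 := M.P_or (fun τ => ¬ Cr Q.b c r (10 * r) r S α' β' (K * (2 * F)) τ) (fun τ => ¬ Ov g (S ^ 22) S τ)
  have h4 := M.P_not (Cr Q.b c r (10 * r) r S α' β' (K * (2 * F)))
  have h5 := M.P_not (TubeG Λ (2 * K * F + 2 * Y) 0 h' (η * s) 0 t)
  linarith only [h1, h2, h3, h4, h5, hP, hP', hOv, hluck, hp]

end Pool.Agent.W_1b8d5d_sc
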