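import Pool.Agent.W_1b8d5d_fe.Geo

/-!
MP_1b8d5d_pr (SC, part P5): the straight chain. A vector of a thin cone is the sum of `K` vectors of the same thin cone; the
double cones of the pieces stay near the segment.
-/

set_option autoImplicit false

namespace Pool.Agent.W_1b8d5d_sc

open Finset Pool.Agent.W_1b8d5d_h85 Pool.Agent.W_1b8d5d_fe

/-- The rounded points `m x / K` of the segment from `0` to `x`. -/
noncomputable def sgm (c : Crd) (K : ℕ) (x : V) (m : ℕ) : V :=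
  if m = 0 then 0 else if K ≤ m then x else c.rd (m * c.p x / K) (m * c.q x / K)

theorem sgm_zero (c : Crd) (K : ℕ) (x : V) : sgm c K x 0 = 0 := if_pos rfl

theorem sgm_last (c : Crd) {K : ℕ} (hK : 1 ≤ K) (x : V) : sgm c K x K = x := by
  unfold sgm
  rw [if_neg (by omega), if_pos le_rfl]

theorem sgm_p (c : Crd) {K : ℕ} (hK : 1 ≤ K) (x : V) {m : ℕ} (hm : m ≤ K) :
    |c.p (sgm c K x m) - m * c.p x / K| ≤ c.C := by
  have hC := c.one_le
  have hK' : (0 : ℝ) < K := by exact_mod_cast hK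
  unfold sgm
  split_ifs with h1 h2
  · rw [h1, map_zero]
    simp only [Nat.cast_zero, zero_mul, zero_div, sub_zero, abs_zero]
    linarith
  · have : m = K := by omega
    rw [this]
    rw [mul_div_cancel_left₀ _ hK'.ne', sub_self, abs_zero]
    linarith
  · exact c.rd_p _ _

theorem sgm_q (c : Crd) {K : ℕ} (hK : 1 ≤ K) (x : V) {m : ℕ} (hm : m ≤ K) :
    |c.q (sgm c K x m) - m * c.q x / K| ≤ c.C := by
  have hC := c.one_le
  have hK' : (0 : ℝ) < K := by exact_mod_cast hK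
  unfold sgm
  split_ifs with h1 h2
  · rw [h1, map_zero]
    simp only [Nat.cast_zero, zero_mul, zero_div, sub_zero, abs_zero]
    linarith
  · have : m = K := by omega
    rw [this]
    rw [mul_div_cancel_left₀ _ hK'.ne', sub_self, abs_zero]
    linarith
  · exact c.rd_q _ _

theorem sgm_lv (c : Crd) {K : ℕ} (hK : 1 ≤ K) (x : V) {m : ℕ} (hm : m ≤ K) :
    |lv c (sgm c K x m) - m * lv c x / K| ≤ 2 * c.C := by
  have h1 := abs_le.1 (sgm_p c hK x hm)
  have h2 := abs_le.1 (sgm_q c hK x hm)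
  have h3 : (m : ℝ) * lv c x / K = m * c.p x / K + m * c.q x / K := by
    unfold lv
    ring
  rw [h3, abs_le]
  unfold lv
  constructor <;> linarith [h1.1, h1.2, h2.1, h2.2]

/-- The pieces. -/
noncomputable def pce (c : Crd) (K : ℕ) (x : V) (m : ℕ) : V := sgm c K x (m + 1) - sgm c K x m

theorem pce_p (c : Crd) {K : ℕ} (x : V) {m : ℕ} (hm : m < K) : |c.p (pce c K x m) - c.p x / K| ≤ 2 * c.C := by
  have h1 := abs_le.1 (sgm_p c (by omega : 1 ≤ K) x hm.le)
  have h2 := abs_le.1 (sgm_p c (by omega : 1 ≤ K) x (by omega : m + 1 ≤ K))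
  unfold pce
  rw [map_sub]
  push_cast at h2
  have h3 : ((m : ℝ) + 1) * c.p x / K = m * c.p x / K + c.p x / K := by ring
  rw [h3] at h2
  rw [abs_le]
  constructor <;> linarith [h1.1, h1.2, h2.1, h2.2]

theorem pce_q (c : Crd) {K : ℕ} (x : V) {m : ℕ} (hm : m < K) : |c.q (pce c K x m) - c.q x / K| ≤ 2 * c.C := by
  have h1 := abs_le.1 (sgm_q c (by omega : 1 ≤ K) x hm.le)
  have h2 := abs_le.1 (sgm_q c (by omega : 1 ≤ K) x (by omega : m + 1 ≤ K))
  unfold pce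
  rw [map_sub]
  push_cast at h2
  have h3 : ((m : ℝ) + 1) * c.q x / K = m * c.q x / K + c.q x / K := by ring
  rw [h3] at h2
  rw [abs_le]
  constructor <;> linarith [h1.1, h1.2, h2.1, h2.2]

theorem pce_lv (c : Crd) {K : ℕ} (x : V) {m : ℕ} (hm : m < K) : |lv c (pce c K x m) - lv c x / K| ≤ 4 * c.C := by
  have h1 := abs_le.1 (pce_p c x hm)
  have h2 := abs_le.1 (pce_q c x hm)
  have h3 : lv c x / K = c.p x / K + c.q x / K := by
    unfold lv
    ring
  rw [h3, abs_le]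
  unfold lv
  constructor <;> linarith [h1.1, h1.2, h2.1, h2.2]

/-- A linear inequality with a slack passes to the pieces. -/
theorem pce_cone {c : Crd} {K : ℕ} {x : V} {m : ℕ} (hm : m < K) (hK : 4 ≤ K) {e₁ e₂ : ℝ} (h1 : 0 ≤ e₁) (h1' : e₁ ≤ 1 / 4)
    (h2 : 0 ≤ e₂) (h2' : e₂ ≤ 1 / 4) (hx : e₁ * lv c x - 4 * c.C ≤ c.q x ∧ c.q x ≤ e₂ * lv c x + 4 * c.C) :
    e₁ * lv c (pce c K x m) - 4 * c.C ≤ c.q (pce c K x m) ∧ c.q (pce c K x m) ≤ e₂ * lv c (pce c K x m) + 4 * c.C := by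
  have hC := c.one_le
  have hK' : (4 : ℝ) ≤ K := by exact_mod_cast hK
  have hK0 : (0 : ℝ) < K := by linarith
  have a1 := abs_le.1 (pce_q c x hm)
  have a2 := abs_le.1 (pce_lv c x hm)
  have b1 : 4 * c.C / K ≤ c.C := by
    rw [div_le_iff₀ hK0]
    nlinarith
  have b2 : e₁ * (lv c x / K) - 4 * c.C / K ≤ c.q x / K := by
    have := div_le_div_of_nonneg_right hx.1 hK0.le
    calc e₁ * (lv c x / K) - 4 * c.C / K = (e₁ * lv c x - 4 * c.C) / K := by ring
      _ ≤ c.q x / K := this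
  have b3 : c.q x / K ≤ e₂ * (lv c x / K) + 4 * c.C / K := by
    have := div_le_div_of_nonneg_right hx.2 hK0.le
    calc c.q x / K ≤ (e₂ * lv c x + 4 * c.C) / K := this
      _ = e₂ * (lv c x / K) + 4 * c.C / K := by ring
  have c1 : e₁ * lv c (pce c K x m) ≤ e₁ * (lv c x / K) + c.C := by
    have := mul_le_mul_of_nonneg_left a2.2 h1
    nlinarith
  have c2 : e₂ * (lv c x / K) - c.C ≤ e₂ * lv c (pce c K x m) := by
    have := mul_le_mul_of_nonneg_left a2.1 h2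
    nlinarith
  constructor <;> linarith [a1.1, a1.2]

/-- The pieces are in the wide cone. -/
theorem pce_Wc {c : Crd} {K : ℕ} {x : V} {m : ℕ} (hm : m < K) (hK : 4 ≤ K) {e₁ e₂ : ℝ} (h1 : 0 ≤ e₁) (h1' : e₁ ≤ 1 / 4)
    (h2 : 0 ≤ e₂) (h2' : e₂ ≤ 1 / 4) (hx : e₁ * lv c x - 4 * c.C ≤ c.q x ∧ c.q x ≤ e₂ * lv c x + 4 * c.C)
    (hl : 12 * K * c.C ≤ lv c x) : pce c K x m ∈ Wc c := by
  have hC := c.one_le
  have hK' : (4 : ℝ) ≤ K := by exact_mod_cast hK
  have hK0 : (0 : ℝ) < K := by linarith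
  have a1 := pce_cone hm hK h1 h1' h2 h2' hx
  have a2 := abs_le.1 (pce_lv c x hm)
  have a3 : 12 * c.C ≤ lv c x / K := by
    rw [le_div_iff₀ hK0]
    linarith
  have a4 : 8 * c.C ≤ lv c (pce c K x m) := by linarith [a2.1]
  have a5 : 0 ≤ e₁ * lv c (pce c K x m) := mul_nonneg h1 (by linarith)
  have a6 : e₂ * lv c (pce c K x m) ≤ 1 / 4 * lv c (pce c K x m) := mul_le_mul_of_nonneg_right h2' (by linarith)
  have a7 : lv c (pce c K x m) = c.p (pce c K x m) + c.q (pce c K x m) := rfl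
  constructor
  · linarith [a1.2]
  · linarith [a1.1]

/-- The passage time along the chain. -/
theorem Tc_chain {a b : ℝ} {τ : Env} (ha : 0 ≤ a) (hab : a ≤ b) (hτ : Bd a b τ) {c : Crd} (z : ℕ → V) (K : ℕ)
    (hz : ∀ m < K, z (m + 1) - z m ∈ Wc c) (hK : 1 ≤ K) :
    Tc b c τ (z 0) (z K) ≤ ∑ m ∈ range K, Tc b c τ (z m) (z (m + 1)) := by
  have key : ∀ j : ℕ, j < K → Tc b c τ (z 0) (z (j + 1)) ≤ ∑ m ∈ range (j + 1), Tc b c τ (z m) (z (m + 1)) ∧
      z (j + 1) - z 0 ∈ Wc c := by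
    intro j
    induction j with
    | zero =>
      intro _
      rw [zero_add, sum_range_one]
      exact ⟨le_rfl, hz 0 (by omega)⟩
    | succ j ih =>
      intro hj
      obtain ⟨h1, h2⟩ := ih (by omega)
      have h3 := hz (j + 1) hj
      have h4 := Tc_triangle ha hab hτ h2 h3
      refine ⟨?_, ?_⟩
      · rw [sum_range_succ _ (j + 1)]
        linarith
      · have h5 := Wc_add h2 h3
        have h6 : z (j + 1) - z 0 + (z (j + 1 + 1) - z (j + 1)) = z (j + 1 + 1) - z 0 := by abel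
        rwa [h6] at h5
  obtain ⟨j, rfl⟩ : ∃ j, K = j + 1 := ⟨K - 1, by omega⟩
  exact (key j (by omega)).1

/-- The excess along the chain. -/
theorem exc_chain {a b : ℝ} {τ : Env} (ha : 0 ≤ a) (hab : a ≤ b) (hτ : Bd a b τ) {c : Crd} {K : ℕ} {x : V} (u : V)
    (hK : 4 ≤ K) {e₁ e₂ : ℝ} (h1 : 0 ≤ e₁) (h1' : e₁ ≤ 1 / 4) (h2 : 0 ≤ e₂) (h2' : e₂ ≤ 1 / 4)
    (hx : e₁ * lv c x - 4 * c.C ≤ c.q x ∧ c.q x ≤ e₂ * lv c x + 4 * c.C) (hl : 12 * K * c.C ≤ lv c x) :
    Tc b c τ u (u + x) - lv c x ≤ ∑ m ∈ range K,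
      max (Tc b c τ (u + sgm c K x m) (u + sgm c K x (m + 1)) - lv c (pce c K x m)) 0 := by
  have e1 : ∀ m : ℕ, (u + sgm c K x (m + 1)) - (u + sgm c K x m) = pce c K x m := by
    intro m
    unfold pce
    abel
  have e2 := Tc_chain ha hab hτ (c := c) (fun m => u + sgm c K x m) K (fun m hm => by
    show u + sgm c K x (m + 1) - (u + sgm c K x m) ∈ Wc c
    rw [e1]
    exact pce_Wc hm hK h1 h1' h2 h2' hx hl) (by omega)
  simp only [sgm_zero, sgm_last c (by omega : 1 ≤ K), add_zero] at e2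
  have e3 : ∀ n : ℕ, ∑ m ∈ range n, lv c (pce c K x m) = lv c (sgm c K x n) := by
    intro n
    induction n with
    | zero => rw [sum_range_zero, sgm_zero, lv_zero]
    | succ n ih =>
      rw [sum_range_succ, ih]
      unfold pce
      rw [lv_sub]
      ring
  have e4 := e3 K
  rw [sgm_last c (by omega : 1 ≤ K)] at e4
  have e5 : ∑ m ∈ range K, (Tc b c τ (u + sgm c K x m) (u + sgm c K x (m + 1)) - lv c (pce c K x m)) ≤
      ∑ m ∈ range K, max (Tc b c τ (u + sgm c K x m) (u + sgm c K x (m + 1)) - lv c (pce c K x m)) 0 :=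
    sum_le_sum fun m _ => le_max_left _ _
  rw [sum_sub_distrib, e4] at e5
  linarith

/-- The double cones of the pieces stay near the segment. -/
theorem pce_near {c : Crd} {K : ℕ} {x : V} (u : V) {m : ℕ} (hm : m < K) {z : V}
    (hz : z ∈ Dc c (u + sgm c K x m) (u + sgm c K x (m + 1))) :
    lv c u + m * lv c x / K - 2 * c.C ≤ lv c z ∧ lv c z ≤ lv c u + (m + 1) * lv c x / K + 2 * c.C ∧
      |c.q z - c.q u - m * c.q x / K| ≤ 2 * (lv c x / K) + 9 * c.C := by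
  have hC := c.one_le
  have h1 := abs_le.1 (sgm_lv c (by omega : 1 ≤ K) x hm.le)
  have h2 := abs_le.1 (sgm_lv c (by omega : 1 ≤ K) x (by omega : m + 1 ≤ K))
  push_cast at h2
  have h3 := Dc_lv hz
  rw [lv_add, lv_add] at h3
  refine ⟨by linarith [h1.1, h3.1], by linarith [h2.2, h3.2], ?_⟩
  have h4 := (Wc_pq hz.1).2
  have h5 : lv c (z - (u + sgm c K x m)) ≤ lv c (pce c K x m) := by
    unfold pce
    rw [lv_sub, lv_sub, lv_add]
    linarith [h3.2]
  have h6 := (abs_le.1 (pce_lv c x hm)).2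
  have h7 := abs_le.1 (sgm_q c (by omega : 1 ≤ K) x hm.le)
  have h8 := abs_le.1 h4
  rw [map_sub, map_add] at h8
  rw [abs_le]
  constructor <;> linarith [h7.1, h7.2, h8.1, h8.2]

end Pool.Agent.W_1b8d5d_sc
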