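import Pool.Agent.W_1b8d5d_fe.SlowA

/-!
MP_1b8d5d_pr (SC, P4): comparison of the crossings of blocks at different positions.
-/

set_option autoImplicit false

namespace Pool.Agent.W_1b8d5d_sc

open Finset Pool.Agent.W_1b8d5d_h85 Pool.Agent.W_1b8d5d_fe

/-- An edge of a walk has an end point before the last vertex. -/
theorem edge_before {x y : V} (w : grid.Walk x y) {P : V → Prop} (hP : ∀ j < w.length, P (w.getVert j)) {e : Edge}
    (he : e ∈ wedges w) : P e.1 ∨ P (e.1 + dir e.2) := by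
  obtain ⟨h1, h2⟩ := wedges_support w he
  obtain ⟨i, hi, hi'⟩ := (SimpleGraph.Walk.mem_support_iff_exists_getVert).1 h1
  obtain ⟨j, hj, hj'⟩ := (SimpleGraph.Walk.mem_support_iff_exists_getVert).1 h2
  rcases hi'.lt_or_eq with h | h
  · left; rw [← hi]; exact hP i h
  · rcases hj'.lt_or_eq with h' | h'
    · right; rw [← hj]; exact hP j h'
    · exfalso
      rw [h] at hi
      rw [h', hi] at hj
      have h3 : dir e.2 = 0 := by
        have : e.1 + dir e.2 = e.1 + 0 := by rw [add_zero]; exact hj.symm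
        exact add_left_cancel this
      have h4 := nm_dir e.2
      rw [h3, nm_zero] at h4
      norm_num at h4

/-- Cutting a crossing at a lower level. -/
theorem cr_cut (Q : Par) {g : V → ℝ} (c : Crd) (hl : ∀ z, lv c z ≤ g z) :
    ∃ A s₀ : ℝ, 1 ≤ A ∧ 1 ≤ s₀ ∧ ∀ (s r ℓ L α β α' β' e : ℝ) (τ : Env), s₀ ≤ s → s ^ (9 / 10 : ℝ) ≤ r → r ≤ s →
      4 * c.C ≤ ℓ → ℓ ≤ s → Bd Q.a Q.b τ → Ov g L s τ → A * (s + |α| + |β|) ≤ L → α - 4 * c.C ≤ α' → α' ≤ α →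
      |β' - β| ≤ c.C → e ≤ s ^ (4 / 5 : ℝ) / 4 →
      Cr Q.b c r (10 * r) r (ℓ + 4 * c.C) α' β' e τ → Cr Q.b c (3 * r) (10 * (3 * r)) (3 * r) ℓ α β (e + 6 * c.C) τ := by
  have hC := c.one_le
  have hC0 : 0 < c.C := by linarith
  have ha : 0 < Q.a := Q.ha
  have hab : Q.a ≤ Q.b := Q.hab.le
  obtain ⟨A, hA⟩ : ∃ A : ℝ, A = 40 * c.C + 4 / Q.a + 1 := ⟨_, rfl⟩
  have h4a : 0 ≤ 4 / Q.a := by positivity
  have hA1 : 1 ≤ A := by rw [hA]; linarith
  obtain ⟨s₁, hs₁, h1⟩ := pow_large (2 * (c.C / Q.a) * (6 * c.C + 1 + A)) (x := 4 / 5) (y := 9 / 10) (by norm_num)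
  obtain ⟨s₂, hs₂, h2'⟩ := pow_large (2 * c.C) (x := 0) (y := 9 / 10) (by norm_num)
  refine ⟨A, max (max s₁ s₂) (10 * c.C), hA1, hs₁.trans ((le_max_left _ _).trans (le_max_left _ _)), ?_⟩
  intro s r ℓ L α β α' β' e τ hs hr hrs hℓ hℓs hτ hO hL hα1 hα2 hβ he hcr
  have hs1 : s₁ ≤ s := ((le_max_left _ _).trans (le_max_left _ _)).trans hs
  have hs2 : s₂ ≤ s := ((le_max_right _ _).trans (le_max_left _ _)).trans hs
  have hsC : 10 * c.C ≤ s := (le_max_right _ _).trans hs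
  have hs1' : 1 ≤ s := hs₁.trans hs1
  have hs0 : 0 < s := by linarith
  have e45 : s ^ (4 / 5 : ℝ) ≤ s := by
    calc s ^ (4 / 5 : ℝ) ≤ s ^ (1 : ℝ) := Real.rpow_le_rpow_of_exponent_le hs1' (by norm_num)
      _ = s := Real.rpow_one s
  have one45 : 1 ≤ s ^ (4 / 5 : ℝ) := Real.one_le_rpow hs1' (by norm_num)
  have hr0 : 0 < r := lt_of_lt_of_le (by positivity) hr
  have hcC : 0 ≤ c.C / Q.a := by positivity
  have hbigr : 2 * (c.C / Q.a) * ((6 * c.C + 1 + A) * s ^ (4 / 5 : ℝ)) ≤ r := by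
    have := h1 s hs1
    calc 2 * (c.C / Q.a) * ((6 * c.C + 1 + A) * s ^ (4 / 5 : ℝ)) = 2 * (c.C / Q.a) * (6 * c.C + 1 + A) * s ^ (4 / 5 : ℝ) := by ring
      _ ≤ s ^ (9 / 10 : ℝ) := this
      _ ≤ r := hr
  obtain ⟨x, y, ⟨⟨x1, x2, x3⟩, y1, y2, y3⟩, hK⟩ := hcr
  obtain ⟨x3a, x3b⟩ := abs_le.1 x3
  obtain ⟨y3a, y3b⟩ := abs_le.1 y3
  obtain ⟨hβa, hβb⟩ := abs_le.1 hβ
  have hCr : 2 * c.C ≤ r := by
    have h2 := h2' s hs2
    rw [Real.rpow_zero, mul_one] at h2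
    linarith
  obtain ⟨ρ, hρ⟩ : ∃ ρ : Env, ρ = res Q.b (Eb c α' β' (10 * r) (ℓ + 4 * c.C) (lv c x)) τ := ⟨_, rfl⟩
  have hρB : Bd Q.a Q.b ρ := by rw [hρ]; exact Bd_res hab hτ _
  have hK' : T ρ x y ≤ lv c (y - x) + e := by rw [hρ]; exact hK
  have hlyx : lv c (y - x) = lv c y - lv c x := lv_sub c _ _
  obtain ⟨w, hw⟩ := exists_geo hρB ha x y
  obtain ⟨i, hi, hi1, hi2, hi3⟩ := first_passage (lv c) (2 * c.C) (fun _ _ h => lv_adj h) (α + ℓ) w (by linarith) (by linarith)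
  obtain ⟨y', hy'⟩ : ∃ y', y' = w.getVert i := ⟨_, rfl⟩
  have hadd := geo_add hρB ha.le hw i
  rw [← hy'] at hadd hi1 hi2
  have hTy : Q.a * nm (y - y') ≤ T ρ y' y := T_lower hρB ha.le y' y
  have hTx : Q.a * nm (y' - x) ≤ T ρ x y' := T_lower hρB ha.le x y'
  have hn1 : 0 ≤ nm (y - y') := nm_nonneg _
  have hn2 : 0 ≤ nm (y' - x) := nm_nonneg _
  have hTy0 : 0 ≤ T ρ y' y := (mul_nonneg ha.le hn1).trans hTy
  have hTx0 : 0 ≤ T ρ x y' := (mul_nonneg ha.le hn2).trans hTx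
  have hTtot : T ρ x y ≤ 4 * s := by
    refine hK'.trans ?_
    rw [hlyx]
    linarith
  have hny' : nm (y' - x) ≤ A * s := by
    have h2 : nm (y' - x) ≤ 4 / Q.a * s := by
      rw [div_mul_eq_mul_div, le_div_iff₀ ha]
      linarith
    refine h2.trans (mul_le_mul_of_nonneg_right ?_ hs0.le)
    rw [hA]; linarith
  -- the range
  have hxL : nm x ≤ 20 * c.C * (s + |α| + |β|) := by
    have h2 := nm_le_lq c x
    have h3 : |lv c x| ≤ |α| + 2 * s := by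
      rw [abs_le]
      constructor
      · linarith [neg_abs_le α]
      · linarith [le_abs_self α]
    have h4 : |c.q x| ≤ |β| + 3 * s := by
      rw [abs_le]
      constructor
      · linarith [neg_abs_le β]
      · linarith [le_abs_self β]
    refine h2.trans ?_
    have h5 : |lv c x| + |c.q x| ≤ 10 * (s + |α| + |β|) := by linarith [abs_nonneg α, abs_nonneg β]
    have h6 := mul_le_mul_of_nonneg_left h5 (by linarith : 0 ≤ 2 * c.C)
    linarith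
  have hS0 : 0 ≤ s + |α| + |β| := by positivity
  have hAL : 20 * c.C * (s + |α| + |β|) + (4 / Q.a + 1) * s ≤ L := by
    refine le_trans ?_ hL
    have h2 : (4 / Q.a + 1) * s ≤ (4 / Q.a + 1) * (s + |α| + |β|) :=
      mul_le_mul_of_nonneg_left (by linarith [abs_nonneg α, abs_nonneg β]) (by linarith)
    have h3 : 0 ≤ 20 * c.C * (s + |α| + |β|) := by positivity
    rw [hA]
    linarith
  have hxL' : nm x ≤ L := by
    have : 0 ≤ (4 / Q.a + 1) * s := by positivity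
    linarith
  have hyL' : nm y' ≤ L := by
    have h2 := nm_add_le (y' - x) x
    rw [sub_add_cancel] at h2
    have h3 : nm (y' - x) ≤ 4 / Q.a * s := by
      rw [div_mul_eq_mul_div, le_div_iff₀ ha]
      linarith
    linarith
  have hOv : lv c (y' - x) - (A * s) ^ (3 / 5 : ℝ) ≤ T ρ x y' := by
    have h2 := (abs_le.1 (hO x y' hxL' hyL')).1
    have h3 : max s (nm (y' - x)) ≤ A * s := max_le (le_mul_of_one_le_left hs0.le hA1) hny'
    have h4 : max s (nm (y' - x)) ^ (3 / 5 : ℝ) ≤ (A * s) ^ (3 / 5 : ℝ) :=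
      Real.rpow_le_rpow (hs0.le.trans (le_max_left _ _)) h3 (by norm_num)
    have h5 := hl (y' - x)
    have h6 : T τ x y' ≤ T ρ x y' := by rw [hρ]; exact T_le_res ha.le hτ _ x y'
    linarith
  have hAs : (A * s) ^ (3 / 5 : ℝ) ≤ A * s ^ (4 / 5 : ℝ) := by
    rw [Real.mul_rpow (by linarith) hs0.le]
    refine mul_le_mul ?_ (Real.rpow_le_rpow_of_exponent_le hs1' (by norm_num)) (by positivity) (by linarith)
    calc A ^ (3 / 5 : ℝ) ≤ A ^ (1 : ℝ) := Real.rpow_le_rpow_of_exponent_le hA1 (by norm_num)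
      _ = A := Real.rpow_one A
  have hly' : lv c (y' - x) = lv c y' - lv c x := lv_sub c _ _
  have hnear : c.C * nm (y - y') ≤ r / 2 := by
    have h2 : Q.a * nm (y - y') ≤ (6 * c.C + 1 + A) * s ^ (4 / 5 : ℝ) := by
      have h3 : T ρ y' y ≤ 6 * c.C + e + (A * s) ^ (3 / 5 : ℝ) := by linarith
      have h4 : 6 * c.C ≤ 6 * c.C * s ^ (4 / 5 : ℝ) := le_mul_of_one_le_right (by positivity) one45
      have h5 : (6 * c.C + 1 + A) * s ^ (4 / 5 : ℝ) = 6 * c.C * s ^ (4 / 5 : ℝ) + s ^ (4 / 5 : ℝ) + A * s ^ (4 / 5 : ℝ) := by ring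
      rw [h5]
      linarith
    have h3 : nm (y - y') ≤ (6 * c.C + 1 + A) * s ^ (4 / 5 : ℝ) / Q.a := by
      rw [le_div_iff₀ ha]; linarith
    have h4 : c.C * nm (y - y') ≤ c.C * ((6 * c.C + 1 + A) * s ^ (4 / 5 : ℝ) / Q.a) := mul_le_mul_of_nonneg_left h3 hC0.le
    have h5 : c.C * ((6 * c.C + 1 + A) * s ^ (4 / 5 : ℝ) / Q.a) = c.C / Q.a * ((6 * c.C + 1 + A) * s ^ (4 / 5 : ℝ)) := by ring
    rw [h5] at h4
    linarith
  have hqy : |c.q y' - β| ≤ 3 * r := by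
    have h2 := abs_le.1 (c.q_le (y - y'))
    rw [map_sub] at h2
    rw [abs_le]
    constructor <;> linarith
  refine ⟨x, y', ⟨⟨by linarith, by linarith, ?_⟩, by linarith, by linarith, hqy⟩, ?_⟩
  · rw [abs_le]; constructor <;> linarith
  · -- the cost
    obtain ⟨w', hw', hlen, hvert, -⟩ := geo_piece hρB ha.le hw (Nat.zero_le i) hi
    have e0 : w.getVert 0 = x := w.getVert_zero
    have hcost : T (res Q.b (Eb c α β (10 * (3 * r)) ℓ (lv c x)) τ) (w.getVert 0) (w.getVert i) ≤ T ρ (w.getVert 0) (w.getVert i) := by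
      refine (T_le_cost (Bd_res hab hτ _) ha.le w').trans ?_
      rw [← hw'.2]
      refine cost_mono w' fun d hd => ?_
      rw [hρ]
      unfold res
      by_cases hd' : d ∈ Eb c α' β' (10 * r) (ℓ + 4 * c.C) (lv c x)
      · have hin : d ∈ Eb c α β (10 * (3 * r)) ℓ (lv c x) := by
          obtain ⟨⟨a1, a2, a3⟩, b1, b2, b3⟩ := Eb_vert hd'
          obtain ⟨a3a, a3b⟩ := abs_le.1 a3
          obtain ⟨b3a, b3b⟩ := abs_le.1 b3
          refine ⟨⟨⟨?_, a1⟩, ⟨?_, b1⟩⟩, ?_⟩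
          · rw [abs_le]; constructor <;> linarith
          · rw [abs_le]; constructor <;> linarith
          · refine edge_before w' (P := fun z => lv c z < α + ℓ) (fun j hj => ?_) hd
            rw [hvert j (by omega)]
            exact hi3 _ (by omega)
        rw [if_pos hin, if_pos hd']
      · rw [if_neg hd']
        split_ifs
        · exact (hτ d).2
        · exact le_rfl
    rw [e0, ← hy'] at hcost
    show T (res Q.b (Eb c α β (10 * (3 * r)) ℓ (lv c x)) τ) x y' ≤ lv c (y' - x) + (e + 6 * c.C)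
    rw [hly']
    linarith

/-- Comparison of the blocks at different positions. -/
theorem cr_cmp (Q : Par) {g : V → ℝ} (c : Crd) (hl : ∀ z, lv c z ≤ g z) :
    ∃ A s₀ : ℝ, 1 ≤ A ∧ 1 ≤ s₀ ∧ ∀ (s r ℓ L R e : ℝ) (M : Mdl Q.a Q.b), s₀ ≤ s → s ^ (9 / 10 : ℝ) ≤ r → r ≤ s →
      4 * c.C ≤ ℓ → ℓ ≤ s → A * s ≤ L → e ≤ s ^ (4 / 5 : ℝ) / 4 → Good Q g R M → ∀ α β α' β' : ℝ,
      M.P (fun τ => ¬ Cr Q.b c (3 * r) (10 * (3 * r)) (3 * r) ℓ α β (e + 6 * c.C) τ) ≤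
        M.P (fun τ => ¬ Cr Q.b c r (10 * r) r (ℓ + 4 * c.C) α' β' e τ) + M.P (fun τ => ¬ Ov g L s τ) := by
  obtain ⟨A, s₀, hA, hs₀, hcut⟩ := cr_cut Q c hl
  have hC := c.one_le
  refine ⟨A * (1 + 3 * c.C), s₀, by nlinarith, hs₀, ?_⟩
  intro s r ℓ L R e M hs hr hrs hℓ hℓs hL he hG α β α' β'
  have hs1 : 1 ≤ s := hs₀.trans hs
  obtain ⟨z₀, h1, h2⟩ := exists_shift c α β
  obtain ⟨z₁, h3, h4⟩ := exists_shift c (α' - (α + lv c z₀) + 2 * c.C) (β' - (β + c.q z₀))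
  have p1 : M.P (fun τ => ¬ Cr Q.b c (3 * r) (10 * (3 * r)) (3 * r) ℓ α β (e + 6 * c.C) τ) =
      M.P (fun τ => ¬ Cr Q.b c (3 * r) (10 * (3 * r)) (3 * r) ℓ (α + lv c z₀) (β + c.q z₀) (e + 6 * c.C) τ) := by
    rw [M.P_not, M.P_not, P_Cr_sh hG]
  have p2 : M.P (fun τ => ¬ Cr Q.b c r (10 * r) r (ℓ + 4 * c.C) α' β' e τ) =
      M.P (fun τ => ¬ Cr Q.b c r (10 * r) r (ℓ + 4 * c.C) (α' + lv c z₁) (β' + c.q z₁) e τ) := by
    rw [M.P_not, M.P_not, P_Cr_sh hG]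
  rw [p1, p2]
  refine le_trans (M.P_mono (q := fun τ => ¬ Cr Q.b c r (10 * r) r (ℓ + 4 * c.C) (α' + lv c z₁) (β' + c.q z₁) e τ ∨ ¬ Ov g L s τ)
    fun τ hτ h => ?_) (M.P_or _ _)
  by_contra hcon
  push Not at hcon
  obtain ⟨k1, k2⟩ := hcon
  obtain ⟨h3a, h3b⟩ := abs_le.1 h3
  obtain ⟨h4a, h4b⟩ := abs_le.1 h4
  refine h (hcut s r ℓ L (α + lv c z₀) (β + c.q z₀) (α' + lv c z₁) (β' + c.q z₁) e τ hs hr hrs hℓ hℓs hτ k2 ?_ ?_ ?_ ?_ he k1)
  · refine le_trans ?_ hL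
    have h5 : s + |α + lv c z₀| + |β + c.q z₀| ≤ (1 + 3 * c.C) * s := by
      have : 3 * c.C ≤ 3 * c.C * s := le_mul_of_one_le_right (by linarith) hs1
      linarith
    calc A * (s + |α + lv c z₀| + |β + c.q z₀|) ≤ A * ((1 + 3 * c.C) * s) := mul_le_mul_of_nonneg_left h5 (by linarith)
      _ = A * (1 + 3 * c.C) * s := by ring
  · linarith
  · linarith
  · rw [abs_le]; constructor <;> linarith

end Pool.Agent.W_1b8d5d_sc
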