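import Mathlib

/-!
MP_1b8d5d_pr (SC, no flat side), the potential lemma: a subadditive family of log-Laplace functionals is concentrated at a
summable scale. `A j r` stands for `2^(-r) log E exp(2^r Y_j)`.
-/

set_option autoImplicit false

namespace Pool.Agent.W_1b8d5d_sc

open Finset

/-- One step: the greatest admissible exponent. -/
theorem pot_step {crit : ℤ → Prop} (p : ℤ) (small : ∃ R : ℤ, ∀ r ≤ R, crit r) :
    ∃ r : ℤ, r ≤ p + 1 ∧ crit r ∧ (r = p + 1 ∨ (r ≤ p ∧ ¬ crit (r + 1))) := by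
  obtain ⟨R, hR⟩ := small
  obtain ⟨r, ⟨h1, h2⟩, h3⟩ := Int.exists_greatest_of_bdd (P := fun z => z ≤ p + 1 ∧ crit z)
    ⟨p + 1, fun z hz => hz.1⟩ ⟨min R (p + 1), min_le_right _ _, hR _ (min_le_left _ _)⟩
  refine ⟨r, h1, h2, ?_⟩
  rcases h1.lt_or_eq with h | h
  · right
    refine ⟨by omega, fun hc => ?_⟩
    have := h3 (r + 1) ⟨by omega, hc⟩
    omega
  · exact Or.inl h

theorem pot {ε : ℝ} (hε : 0 < ε) (A : ℕ → ℤ → ℝ) (e : ℕ → ℝ) (n : ℕ) (r0 : ℤ)
    (mono : ∀ j ≤ n, ∀ r, A j r ≤ A j (r + 1))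
    (comp : ∀ j < n, ∀ r, A (j + 1) (r + 1) ≤ A j r + e j)
    (small : ∀ j ≤ n, ∃ R : ℤ, ∀ r ≤ R, A j r - A j (r - 1) ≤ ε * (2 : ℝ) ^ (-r)) :
    ∃ r : ℕ → ℤ, r 0 = r0 ∧ (∀ j < n, r (j + 1) ≤ r j + 1) ∧
      (∀ j < n, A (j + 1) (r (j + 1)) - A (j + 1) (r (j + 1) - 1) ≤ ε * (2 : ℝ) ^ (-r (j + 1))) ∧
      (∀ j < n, A (j + 1) (r (j + 1)) ≤ A j (r j) + e j) ∧
      ∑ j ∈ range n, (2 : ℝ) ^ (-r (j + 1)) ≤
        (2 : ℝ) ^ (-r0) + 4 / ε * (A 0 r0 - A n (r n) + ∑ j ∈ range n, e j) := by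
  classical
  have hst : ∀ (j : ℕ) (p : ℤ), ∃ r : ℤ, j + 1 ≤ n → (r ≤ p + 1 ∧
      (A (j + 1) r - A (j + 1) (r - 1) ≤ ε * (2 : ℝ) ^ (-r)) ∧
      (r = p + 1 ∨ (r ≤ p ∧ ¬ (A (j + 1) (r + 1) - A (j + 1) (r + 1 - 1) ≤ ε * (2 : ℝ) ^ (-(r + 1)))))) := by
    intro j p
    by_cases hj : j + 1 ≤ n
    · obtain ⟨r, h⟩ := pot_step (crit := fun r => A (j + 1) r - A (j + 1) (r - 1) ≤ ε * (2 : ℝ) ^ (-r)) p
        (small (j + 1) hj)
      exact ⟨r, fun _ => h⟩
    · exact ⟨0, fun h => absurd h hj⟩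
  choose nx hnx using hst
  let r : ℕ → ℤ := fun j => Nat.rec r0 (fun j p => nx j p) j
  have r0' : r 0 = r0 := rfl
  have rs : ∀ j, r (j + 1) = nx j (r j) := fun j => rfl
  have key : ∀ j < n, r (j + 1) ≤ r j + 1 ∧
      (A (j + 1) (r (j + 1)) - A (j + 1) (r (j + 1) - 1) ≤ ε * (2 : ℝ) ^ (-r (j + 1))) ∧
      A (j + 1) (r (j + 1)) ≤ A j (r j) + e j ∧
      (2 : ℝ) ^ (-r (j + 1)) ≤ (2 : ℝ) ^ (-r j) / 2 + 2 / ε * (A j (r j) + e j - A (j + 1) (r (j + 1))) := by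
    intro j hj
    obtain ⟨h1, h2, h3⟩ := hnx j (r j) hj
    rw [← rs] at h1 h2 h3
    have mono' : ∀ d : ℕ, ∀ q : ℤ, A j q ≤ A j (q + d) := by
      intro d
      induction d with
      | zero => intro q; simp
      | succ d ih =>
        intro q
        have := mono j hj.le (q + d)
        have e1 : q + ((d + 1 : ℕ) : ℤ) = q + d + 1 := by push_cast; ring
        rw [e1]
        exact (ih q).trans this
    have hle : ∀ q ≤ r j, A j q ≤ A j (r j) := by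
      intro q hq
      have := mono' (r j - q).toNat q
      rwa [Int.toNat_of_nonneg (by omega), add_sub_cancel] at this
    rcases h3 with h3 | ⟨h3, h4⟩
    · have c1 : A (j + 1) (r (j + 1)) ≤ A j (r j) + e j := by
        rw [h3]; exact comp j hj _
      refine ⟨h1, h2, c1, ?_⟩
      have e1 : (2 : ℝ) ^ (-r (j + 1)) = (2 : ℝ) ^ (-r j) / 2 := by
        rw [h3, neg_add, zpow_add₀ (by norm_num)]
        norm_num
        ring
      rw [e1]
      have : 0 ≤ 2 / ε * (A j (r j) + e j - A (j + 1) (r (j + 1))) :=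
        mul_nonneg (by positivity) (by linarith)
      linarith
    · have h5 : ε * (2 : ℝ) ^ (-(r (j + 1) + 1)) < A (j + 1) (r (j + 1) + 1) - A (j + 1) (r (j + 1)) := by
        have := not_le.1 h4
        rwa [add_sub_cancel_right] at this
      have h6 := comp j hj (r (j + 1))
      have h7 := hle _ h3
      have e1 : (2 : ℝ) ^ (-(r (j + 1) + 1)) = (2 : ℝ) ^ (-r (j + 1)) / 2 := by
        rw [neg_add, zpow_add₀ (by norm_num)]
        norm_num
        ring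
      rw [e1] at h5
      have h8 : ε * ((2 : ℝ) ^ (-r (j + 1)) / 2) < A j (r j) + e j - A (j + 1) (r (j + 1)) := by linarith
      have h9 : 0 < ε * ((2 : ℝ) ^ (-r (j + 1)) / 2) := by positivity
      refine ⟨h1, h2, by linarith, ?_⟩
      have h10 : (2 : ℝ) ^ (-r (j + 1)) ≤ 2 / ε * (A j (r j) + e j - A (j + 1) (r (j + 1))) := by
        rw [div_mul_eq_mul_div, le_div_iff₀ hε]
        linarith
      have : (0 : ℝ) ≤ (2 : ℝ) ^ (-r j) / 2 := by positivity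
      linarith
  refine ⟨r, r0', fun j hj => (key j hj).1, fun j hj => (key j hj).2.1, fun j hj => (key j hj).2.2.1, ?_⟩
  -- the sum
  have tel : ∀ m ≤ n, ∑ j ∈ range m, (2 : ℝ) ^ (-r (j + 1)) + (2 : ℝ) ^ (-r m) ≤
      2 * (2 : ℝ) ^ (-r0) - (2 : ℝ) ^ (-r0) + (2 : ℝ) ^ (-r m) - (2 : ℝ) ^ (-r m)
        + 4 / ε * (A 0 r0 - A m (r m) + ∑ j ∈ range m, e j) := by
    intro m
    induction m with
    | zero =>
      intro _
      simp only [range_zero, sum_empty, r0', add_zero, sub_self, mul_zero, zero_add]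
      linarith
    | succ m ih =>
      intro hm
      have i1 := ih (by omega)
      have i2 := (key m (by omega)).2.2.2
      rw [sum_range_succ, sum_range_succ]
      have e2 : 4 / ε * (A 0 r0 - A (m + 1) (r (m + 1)) + (∑ j ∈ range m, e j + e m)) =
          4 / ε * (A 0 r0 - A m (r m) + ∑ j ∈ range m, e j) +
            2 * (2 / ε * (A m (r m) + e m - A (m + 1) (r (m + 1)))) := by ring
      rw [e2]
      linarith
  have := tel n le_rfl
  have hp : (0 : ℝ) ≤ (2 : ℝ) ^ (-r n) := by positivity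
  linarith

end Pool.Agent.W_1b8d5d_sc
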