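import Pool.Agent.W_1b8d5d_fe.Defs
import Pool.Agent.W_1b8d5d_sc.Pot

/-!
MP_1b8d5d_pr (SC, part P3): concentration of the front at a summable scale (log-Laplace functionals in a finite model).
-/

set_option autoImplicit false

namespace Pool.Agent.W_1b8d5d_sc

open Finset Pool.Agent.W_1b8d5d_h85 Pool.Agent.W_1b8d5d_fe

section one

variable {a b : ℝ} (M : Mdl a b)

/-- The log-Laplace functional. -/
noncomputable def LL (X : Env → ℝ) (t : ℝ) : ℝ := Real.log (M.E fun τ => Real.exp (t * X τ))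

variable {M} {X : Env → ℝ} {C : ℝ}

theorem E_exp_ge (hX : ∀ τ, Bd a b τ → |X τ| ≤ C) {t : ℝ} (ht : 0 ≤ t) :
    Real.exp (-(t * C)) ≤ M.E fun τ => Real.exp (t * X τ) := by
  refine M.le_E_of_le fun τ hτ => Real.exp_le_exp.2 ?_
  have h1 := (abs_le.1 (hX τ hτ)).1
  have h2 := mul_le_mul_of_nonneg_left h1 ht
  linarith

theorem E_exp_le' (hX : ∀ τ, Bd a b τ → |X τ| ≤ C) {t : ℝ} (ht : 0 ≤ t) :
    (M.E fun τ => Real.exp (t * X τ)) ≤ Real.exp (t * C) := by
  refine M.E_le_of_le fun τ hτ => Real.exp_le_exp.2 ?_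
  have h1 := (abs_le.1 (hX τ hτ)).2
  exact mul_le_mul_of_nonneg_left h1 ht

theorem E_exp_pos (hX : ∀ τ, Bd a b τ → |X τ| ≤ C) {t : ℝ} (ht : 0 ≤ t) : 0 < M.E fun τ => Real.exp (t * X τ) :=
  (Real.exp_pos _).trans_le (E_exp_ge hX ht)

theorem E_exp_sq (X : Env → ℝ) (t : ℝ) :
    (M.E fun τ => Real.exp (t * X τ)) ^ 2 ≤ M.E fun τ => Real.exp (2 * t * X τ) := by
  have h1 : (M.E fun τ => Real.exp (t * X τ)) ^ 2 ≤ M.E fun τ => Real.exp (t * X τ) ^ 2 :=
    sq_Ex_le fun ω => Real.exp (t * X (M.env ω))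
  refine h1.trans (le_of_eq (M.E_congr fun τ _ => ?_))
  rw [← Real.exp_nat_mul]
  congr 1
  push_cast
  ring

theorem LL_two (hX : ∀ τ, Bd a b τ → |X τ| ≤ C) {t : ℝ} (ht : 0 ≤ t) : 2 * LL M X t ≤ LL M X (2 * t) := by
  unfold LL
  have h0 := E_exp_pos (M := M) hX ht
  have h1 := Real.log_le_log (pow_pos h0 2) (E_exp_sq (M := M) X t)
  rw [Real.log_pow] at h1
  exact_mod_cast h1

theorem abs_LL_le (hX : ∀ τ, Bd a b τ → |X τ| ≤ C) {t : ℝ} (ht : 0 ≤ t) : |LL M X t| ≤ t * C := by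
  unfold LL
  have h1 := Real.log_le_log (E_exp_pos (M := M) hX ht) (E_exp_le' (M := M) hX ht)
  have h2 := Real.log_le_log (Real.exp_pos _) (E_exp_ge (M := M) hX ht)
  rw [Real.log_exp] at h1 h2
  exact abs_le.2 ⟨h2, h1⟩

theorem LL_small (hX : ∀ τ, Bd a b τ → |X τ| ≤ C) {t ε : ℝ} (ht : 0 ≤ t) (h : 4 * (t * C) ≤ ε) :
    LL M X (2 * t) - 2 * LL M X t ≤ ε := by
  unfold LL
  have h1 := Real.log_le_log (E_exp_pos (M := M) hX (show 0 ≤ 2 * t by linarith)) (E_exp_le' (M := M) hX (show 0 ≤ 2 * t by linarith))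
  have h2 := Real.log_le_log (Real.exp_pos _) (E_exp_ge (M := M) hX ht)
  rw [Real.log_exp] at h1 h2
  linarith

/-- Concentration: `c = (2 / s) log E exp (s X / 2)`. -/
theorem conc_of (hX : ∀ τ, Bd a b τ → |X τ| ≤ C) {s ε : ℝ} (hs : 0 < s) (h : LL M X s - 2 * LL M X (s / 2) ≤ ε) :
    M.P (fun τ => 2 / s < |X τ - 2 / s * LL M X (s / 2)|) ≤ 4 * (Real.exp ε - 1) ∧
      ∀ t : ℝ, M.P (fun τ => 2 / s * LL M X (s / 2) + t / s ≤ X τ) ≤ Real.exp (ε - t) := by
  have hs2 : 0 ≤ s / 2 := by linarith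
  have hpos := E_exp_pos (M := M) hX hs2
  have hpos' := E_exp_pos (M := M) hX hs.le
  have e2 : ∀ x : ℝ, 2 * (s / 2) * x = s * x := fun x => by ring
  constructor
  · -- Chebyshev for `V = exp (s X / 2)`
    obtain ⟨m, hm⟩ : ∃ m, m = M.E fun τ => Real.exp (s / 2 * X τ) := ⟨_, rfl⟩
    have hm0 : 0 < m := by rw [hm]; exact hpos
    have hV : (M.E fun τ => Real.exp (s / 2 * X τ) ^ 2) ≤ Real.exp ε * m ^ 2 := by
      have h1 : (M.E fun τ => Real.exp (s / 2 * X τ) ^ 2) = M.E fun τ => Real.exp (s * X τ) := by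
        refine M.E_congr fun τ _ => ?_
        rw [← Real.exp_nat_mul]
        congr 1
        push_cast
        ring
      rw [h1]
      have h2 : Real.log (M.E fun τ => Real.exp (s * X τ)) ≤ ε + 2 * Real.log m := by
        unfold LL at h
        rw [← hm] at h
        linarith
      have h3 : ε + 2 * Real.log m = Real.log (Real.exp ε * m ^ 2) := by
        rw [Real.log_mul (Real.exp_pos _).ne' (pow_pos hm0 2).ne', Real.log_exp, Real.log_pow]
        push_cast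
        ring
      rw [h3] at h2
      exact (Real.log_le_log_iff hpos' (by positivity)).1 h2
    have hvar : (M.E fun τ => (Real.exp (s / 2 * X τ) - m) ^ 2) ≤ (Real.exp ε - 1) * m ^ 2 := by
      have h1 : (M.E fun τ => (Real.exp (s / 2 * X τ) - m) ^ 2) = (M.E fun τ => Real.exp (s / 2 * X τ) ^ 2) - m ^ 2 := by
        have h2 : (M.E fun τ => (Real.exp (s / 2 * X τ) - m) ^ 2) =
            M.E fun τ => Real.exp (s / 2 * X τ) ^ 2 - (2 * m * Real.exp (s / 2 * X τ) - m ^ 2) :=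
          M.E_congr fun τ _ => by ring
        rw [h2, M.E_sub, M.E_sub (fun τ => 2 * m * Real.exp (s / 2 * X τ)) (fun _ => m ^ 2), M.E_mul_left, M.E_const, ← hm]
        ring
      rw [h1]
      linarith
    have hch := M.chebyshev (fun τ => Real.exp (s / 2 * X τ)) (s := m / 2) (by linarith)
    rw [← hm] at hch
    have h4 : (M.E fun τ => (Real.exp (s / 2 * X τ) - m) ^ 2) / (m / 2) ^ 2 ≤ 4 * (Real.exp ε - 1) := by
      rw [div_le_iff₀ (by positivity)]
      calc (M.E fun τ => (Real.exp (s / 2 * X τ) - m) ^ 2) ≤ (Real.exp ε - 1) * m ^ 2 := hvar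
        _ = 4 * (Real.exp ε - 1) * (m / 2) ^ 2 := by ring
    refine le_trans (M.P_mono fun τ _ hτ => ?_) (hch.trans h4)
    -- if `|V - m| < m / 2` then `|X - c| ≤ 2 / s`
    by_contra hcon
    push Not at hcon
    have h5 := abs_lt.1 hcon
    have hlm : LL M X (s / 2) = Real.log m := by unfold LL; rw [hm]
    rw [hlm] at hτ
    have h6 : s / 2 * X τ < Real.log m + 1 := by
      have h7 : Real.exp (s / 2 * X τ) < Real.exp (Real.log m + 1) := by
        rw [Real.exp_add, Real.exp_log hm0]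
        have := Real.add_one_le_exp (1 : ℝ)
        nlinarith [h5.2]
      exact Real.exp_lt_exp.1 h7
    have h8 : Real.log m - 1 < s / 2 * X τ := by
      have h7 : Real.exp (Real.log m - 1) < Real.exp (s / 2 * X τ) := by
        rw [Real.exp_sub, Real.exp_log hm0]
        have h9 := Real.add_one_le_exp (1 : ℝ)
        have h10 : m / Real.exp 1 ≤ m / 2 := div_le_div_of_nonneg_left hm0.le (by norm_num) (by linarith)
        linarith [h5.1]
      exact Real.exp_lt_exp.1 h7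
    have h11 : |X τ - 2 / s * Real.log m| ≤ 2 / s := by
      have e3 : X τ - 2 / s * Real.log m = 2 / s * (s / 2 * X τ - Real.log m) := by
        field_simp
      have e4 : 0 ≤ 2 / s := by positivity
      rw [e3, abs_mul, abs_of_nonneg e4]
      have h12 : |s / 2 * X τ - Real.log m| ≤ 1 := abs_le.2 ⟨by linarith, by linarith⟩
      calc 2 / s * |s / 2 * X τ - Real.log m| ≤ 2 / s * 1 := mul_le_mul_of_nonneg_left h12 e4
        _ = 2 / s := mul_one _
    linarith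
  · intro t
    have h1 := M.markov (F := fun τ => Real.exp (s * X τ)) (fun τ _ => (Real.exp_pos _).le)
      (s := Real.exp (2 * LL M X (s / 2) + t)) (Real.exp_pos _)
    have h2 : (M.E fun τ => Real.exp (s * X τ)) ≤ Real.exp (2 * LL M X (s / 2) + ε) := by
      have h3 : Real.log (M.E fun τ => Real.exp (s * X τ)) ≤ 2 * LL M X (s / 2) + ε := by
        have : LL M X s = Real.log (M.E fun τ => Real.exp (s * X τ)) := rfl
        linarith
      exact (Real.log_le_iff_le_exp hpos').1 h3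
    refine le_trans (M.P_mono fun τ _ hτ => ?_) (h1.trans ?_)
    · apply Real.exp_le_exp.2
      have h4 := mul_le_mul_of_nonneg_left hτ hs.le
      have e3 : s * (2 / s * LL M X (s / 2) + t / s) = 2 * LL M X (s / 2) + t := by
        field_simp
      linarith
    · rw [div_le_iff₀ (Real.exp_pos _), ← Real.exp_add]
      refine h2.trans (Real.exp_le_exp.2 ?_)
      linarith

/-- A lower bound for the potential. -/
theorem LL_ge (hX : ∀ τ, Bd a b τ → |X τ| ≤ C) {s x p : ℝ} (hs : 0 < s) (hp : M.P (fun τ => X τ < x) ≤ p) (hp2 : p ≤ 1 / 2) :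
    s * x - 2 * p ≤ LL M X s := by
  classical
  have h0 : 0 ≤ p := (M.P_nonneg _).trans hp
  have h1 : Real.exp (s * x) * (1 - p) ≤ M.E fun τ => Real.exp (s * X τ) := by
    have h2 : (M.E fun τ => Real.exp (s * x) * (if ¬ X τ < x then (1 : ℝ) else 0)) ≤ M.E fun τ => Real.exp (s * X τ) := by
      refine M.E_mono fun τ _ => ?_
      by_cases hc : ¬ X τ < x
      · rw [if_pos hc, mul_one]
        push Not at hc
        exact Real.exp_le_exp.2 (mul_le_mul_of_nonneg_left hc hs.le)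
      · rw [if_neg hc, mul_zero]
        exact (Real.exp_pos _).le
    rw [M.E_mul_left] at h2
    have h3 : (M.E fun τ => if ¬ X τ < x then (1 : ℝ) else 0) = 1 - M.P (fun τ => X τ < x) := by
      rw [← M.P_not, M.P_def]
      refine M.E_congr fun τ _ => ?_
      by_cases h : X τ < x <;> simp [h]
    rw [h3] at h2
    refine le_trans (mul_le_mul_of_nonneg_left ?_ (Real.exp_pos _).le) h2
    linarith
  have h4 : Real.exp (-(2 * p)) ≤ 1 - p := by
    have h5 := Real.add_one_le_exp (2 * p)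
    rw [Real.exp_neg, inv_le_iff_one_le_mul₀ (Real.exp_pos _)]
    have h6 : (1 - p) * (2 * p + 1) ≤ (1 - p) * Real.exp (2 * p) := mul_le_mul_of_nonneg_left h5 (by linarith)
    nlinarith
  have h7 : Real.exp (s * x - 2 * p) ≤ M.E fun τ => Real.exp (s * X τ) := by
    refine le_trans ?_ h1
    rw [sub_eq_add_neg, Real.exp_add]
    exact mul_le_mul_of_nonneg_left h4 (Real.exp_pos _).le
  unfold LL
  rw [Real.le_log_iff_exp_le (E_exp_pos (M := M) hX hs.le)]
  exact h7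

/-- An upper bound for the potential. -/
theorem LL_le (hX : ∀ τ, Bd a b τ → |X τ| ≤ C) {s x p : ℝ} (hs : 0 < s) (hp : M.P (fun τ => x ≤ X τ) ≤ p) :
    LL M X s ≤ s * x + Real.exp (s * (C - x)) * p := by
  classical
  have h0 : 0 ≤ p := (M.P_nonneg _).trans hp
  have h1 : (M.E fun τ => Real.exp (s * X τ)) ≤ Real.exp (s * x) * (1 + Real.exp (s * (C - x)) * p) := by
    have h2 : (M.E fun τ => Real.exp (s * X τ)) ≤
        M.E fun τ => Real.exp (s * x) + Real.exp (s * C) * (if x ≤ X τ then (1 : ℝ) else 0) := by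
      refine M.E_mono fun τ hτ => ?_
      by_cases hc : x ≤ X τ
      · rw [if_pos hc, mul_one]
        have h3 := Real.exp_le_exp.2 (mul_le_mul_of_nonneg_left (abs_le.1 (hX τ hτ)).2 hs.le)
        have := Real.exp_pos (s * x)
        linarith
      · rw [if_neg hc, mul_zero, add_zero]
        push Not at hc
        exact Real.exp_le_exp.2 (mul_le_mul_of_nonneg_left hc.le hs.le)
    rw [M.E_add, M.E_const, M.E_mul_left] at h2
    have h3 : (M.E fun τ => if x ≤ X τ then (1 : ℝ) else 0) = M.P (fun τ => x ≤ X τ) := by rw [M.P_def]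
    rw [h3] at h2
    have h4 := mul_le_mul_of_nonneg_left hp (Real.exp_pos (s * C)).le
    have h5 : Real.exp (s * x) * (1 + Real.exp (s * (C - x)) * p) = Real.exp (s * x) + Real.exp (s * C) * p := by
      rw [mul_add, mul_one, ← mul_assoc, ← Real.exp_add]
      congr 3
      ring
    rw [h5]
    linarith
  have h6 : 1 + Real.exp (s * (C - x)) * p ≤ Real.exp (Real.exp (s * (C - x)) * p) := by
    have := Real.add_one_le_exp (Real.exp (s * (C - x)) * p)
    linarith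
  unfold LL
  rw [Real.log_le_iff_le_exp (E_exp_pos (M := M) hX hs.le), Real.exp_add]
  exact h1.trans (mul_le_mul_of_nonneg_left h6 (Real.exp_pos _).le)

end one

/-- ** Concentration in a window. ** `Y j` bounded by `C` (`j ≤ n`), subadditive log-Laplace functionals. -/
theorem conc_window {a b : ℝ} (M : Mdl a b) {ε C : ℝ} (hε : 0 < ε) (hC : 0 ≤ C) (Y : ℕ → Env → ℝ) (n : ℕ) (r0 : ℤ)
    (e : ℕ → ℝ) (hY : ∀ j ≤ n, ∀ τ, Bd a b τ → |Y j τ| ≤ C)
    (hcomp : ∀ j < n, ∀ t : ℝ, 0 < t → LL M (Y (j + 1)) (2 * t) ≤ 2 * LL M (Y j) t + 2 * t * e j) :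
    ∃ u Ψ c : ℕ → ℝ, u 0 = (2 : ℝ) ^ (-r0) ∧ Ψ 0 = (2 : ℝ) ^ (-r0) * LL M (Y 0) ((2 : ℝ) ^ r0) ∧ (∀ j, 0 < u j) ∧
      (∀ j, 1 ≤ j → j ≤ n → |c j| ≤ C ∧ c j ≤ Ψ j ∧ Ψ j - ε * u j ≤ c j ∧
        M.P (fun τ => 2 * u j < |Y j τ - c j|) ≤ 4 * (Real.exp ε - 1) ∧
        ∀ t : ℝ, M.P (fun τ => c j + t * u j ≤ Y j τ) ≤ Real.exp (ε - t)) ∧
      (∀ j < n, Ψ (j + 1) ≤ Ψ j + e j) ∧
      (∀ j ≤ n, ∀ x p : ℝ, M.P (fun τ => Y j τ < x) ≤ p → p ≤ 1 / 2 → x - 2 * p * u j ≤ Ψ j) ∧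
      ∑ j ∈ range n, u (j + 1) ≤ u 0 + 4 / ε * (Ψ 0 - Ψ n + ∑ j ∈ range n, e j) := by
  have hz : ∀ r : ℤ, (0 : ℝ) < (2 : ℝ) ^ r := fun r => by positivity
  have hzn : ∀ r : ℤ, (2 : ℝ) ^ (-r) * (2 : ℝ) ^ r = 1 := by
    intro r
    rw [← zpow_add₀ (by norm_num), neg_add_cancel, zpow_zero]
  have hzs : ∀ r : ℤ, (2 : ℝ) ^ (r + 1) = 2 * (2 : ℝ) ^ r := by
    intro r
    rw [zpow_add₀ (by norm_num), zpow_one, mul_comm]
  have hzp : ∀ r : ℤ, (2 : ℝ) ^ (r - 1) = (2 : ℝ) ^ r / 2 := by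
    intro r
    rw [zpow_sub₀ (by norm_num), zpow_one]
  obtain ⟨A, hA⟩ : ∃ A : ℕ → ℤ → ℝ, ∀ j r, A j r = (2 : ℝ) ^ (-r) * LL M (Y j) ((2 : ℝ) ^ r) := ⟨fun j r => _, fun _ _ => rfl⟩
  have hpot := pot hε A e n r0 (by
      intro j hj r
      have h1 := LL_two (M := M) (hY j hj) (hz r).le
      have h2 : (2 : ℝ) ^ (-(r + 1)) = (2 : ℝ) ^ (-r) / 2 := by
        rw [neg_add, zpow_add₀ (by norm_num)]
        norm_num
        ring
      rw [hA, hA, hzs, h2]
      have h3 := mul_le_mul_of_nonneg_left h1 (hz (-r)).le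
      linarith) (by
      intro j hj r
      have h1 := hcomp j hj ((2 : ℝ) ^ r) (hz r)
      have h2 : (2 : ℝ) ^ (-(r + 1)) = (2 : ℝ) ^ (-r) / 2 := by
        rw [neg_add, zpow_add₀ (by norm_num)]
        norm_num
        ring
      rw [hA, hA, hzs, h2]
      have h3 := mul_le_mul_of_nonneg_left h1 (hz (-r)).le
      have h4 : (2 : ℝ) ^ (-r) * (2 * LL M (Y j) ((2 : ℝ) ^ r) + 2 * (2 : ℝ) ^ r * e j) =
          2 * ((2 : ℝ) ^ (-r) * LL M (Y j) ((2 : ℝ) ^ r)) + 2 * ((2 : ℝ) ^ (-r) * (2 : ℝ) ^ r) * e j := by ring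
      rw [h4, hzn] at h3
      linarith) (by
      intro j hj
      -- `2^r C ≤ ε / 2` for `r ≤ R`
      obtain ⟨k, hk⟩ := exists_pow_lt_of_lt_one (show 0 < ε / (2 * C + 1) by positivity) (show (1 / 2 : ℝ) < 1 by norm_num)
      refine ⟨-(k : ℤ), fun r hr => ?_⟩
      have h1 : (2 : ℝ) ^ r ≤ (1 / 2) ^ k := by
        have h2 : (2 : ℝ) ^ r ≤ (2 : ℝ) ^ (-(k : ℤ)) := zpow_le_zpow_right₀ (by norm_num) hr
        rw [zpow_neg, zpow_natCast] at h2
        rw [one_div, inv_pow]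
        exact h2
      have h3 : 2 * ((2 : ℝ) ^ r * C) ≤ ε := by
        have h4 : (2 : ℝ) ^ r ≤ ε / (2 * C + 1) := h1.trans hk.le
        rw [le_div_iff₀ (by linarith)] at h4
        have := (hz r).le
        linarith
      have h5 := LL_small (M := M) (hY j hj) (t := (2 : ℝ) ^ r / 2) (ε := ε) (by have := hz r; linarith) (by linarith)
      have h6 : 2 * ((2 : ℝ) ^ r / 2) = (2 : ℝ) ^ r := by ring
      rw [h6] at h5
      have h7 : (2 : ℝ) ^ (-(r - 1)) = 2 * (2 : ℝ) ^ (-r) := by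
        rw [show -(r - 1) = -r + 1 by ring, hzs]
      rw [hA, hA, hzp, h7]
      have h8 := mul_le_mul_of_nonneg_left h5 (hz (-r)).le
      linarith)
  obtain ⟨r, hr0, -, hcrit, hΨ, hsum⟩ := hpot
  refine ⟨fun j => (2 : ℝ) ^ (-r j), fun j => A j (r j), fun j => A j (r j - 1), ?_, ?_, fun j => hz _, ?_, hΨ, ?_, ?_⟩
  · simp only [hr0]
  · simp only [hr0, hA]
  · intro j hj1 hjn
    obtain ⟨i, rfl⟩ : ∃ i, j = i + 1 := ⟨j - 1, by omega⟩
    have hc := hcrit i (by omega)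
    obtain ⟨p, hp⟩ : ∃ p, p = r (i + 1) := ⟨_, rfl⟩
    simp only [← hp] at hc ⊢
    have hbd := hY (i + 1) hjn
    obtain ⟨s, hs⟩ : ∃ s : ℝ, s = (2 : ℝ) ^ p := ⟨_, rfl⟩
    have hs0 : 0 < s := by rw [hs]; exact hz p
    have hinv : (2 : ℝ) ^ (-p) = 1 / s := by
      rw [hs, zpow_neg, one_div]
    have hA1 : A (i + 1) p = 1 / s * LL M (Y (i + 1)) s := by rw [hA, hinv, ← hs]
    have hA2 : A (i + 1) (p - 1) = 2 / s * LL M (Y (i + 1)) (s / 2) := by
      rw [hA, hzp, ← hs, show -(p - 1) = -p + 1 by ring, hzs, hinv]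
      ring
    rw [hinv, hA1, hA2] at hc
    rw [hinv, hA1, hA2]
    have h1 := LL_two (M := M) hbd (t := s / 2) (by linarith)
    have h2 : 2 * (s / 2) = s := by ring
    rw [h2] at h1
    have hLL : LL M (Y (i + 1)) s - 2 * LL M (Y (i + 1)) (s / 2) ≤ ε := by
      have h3 := mul_le_mul_of_nonneg_left hc hs0.le
      have h4 : s * (1 / s * LL M (Y (i + 1)) s - 2 / s * LL M (Y (i + 1)) (s / 2)) =
          LL M (Y (i + 1)) s - 2 * LL M (Y (i + 1)) (s / 2) := by
        field_simp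
      have h5 : s * (ε * (1 / s)) = ε := by field_simp
      linarith
    obtain ⟨c1, c2⟩ := conc_of (M := M) hbd hs0 hLL
    refine ⟨?_, ?_, by linarith, ?_, ?_⟩
    · have h3 := abs_LL_le (M := M) hbd (t := s / 2) (by linarith)
      rw [abs_mul, abs_of_nonneg (show 0 ≤ 2 / s by positivity)]
      calc 2 / s * |LL M (Y (i + 1)) (s / 2)| ≤ 2 / s * (s / 2 * C) := mul_le_mul_of_nonneg_left h3 (by positivity)
        _ = C := by field_simp
    · have h3 := mul_le_mul_of_nonneg_left h1 (show 0 ≤ 1 / s by positivity)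
      have h4 : 1 / s * (2 * LL M (Y (i + 1)) (s / 2)) = 2 / s * LL M (Y (i + 1)) (s / 2) := by ring
      linarith
    · have h3 : 2 * (1 / s) = 2 / s := by ring
      rw [h3]
      exact c1
    · intro t
      have h3 : t * (1 / s) = t / s := by ring
      rw [h3]
      exact c2 t
  · intro j hj x p hp hp2
    have h1 := LL_ge (M := M) (hY j hj) (hz (r j)) hp hp2
    have h2 := mul_le_mul_of_nonneg_left h1 (hz (-r j)).le
    have h3 : (2 : ℝ) ^ (-r j) * ((2 : ℝ) ^ r j * x - 2 * p) = (2 : ℝ) ^ (-r j) * (2 : ℝ) ^ r j * x - 2 * p * (2 : ℝ) ^ (-r j) := by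
      ring
    rw [h3, hzn, one_mul] at h2
    simp only [hA]
    exact h2
  · simp only [hr0]
    exact hsum

end Pool.Agent.W_1b8d5d_sc
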