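import Pool.Agent.W_1b8d5d_fe.Defs

/-!
MP_1b8d5d_pr (SC, part P2): integer levels, good walks, crossings, the front functional. Definitions.
-/

set_option autoImplicit false

namespace Pool.Agent.W_1b8d5d_sc

open Finset Pool.Agent.W_1b8d5d_h85 Pool.Agent.W_1b8d5d_fe

/-- An integer level `xi` close to the level: `|kap xi - lv| ≤ eps nm`. -/
structure Lev (a : ℝ) (c : Crd) where
  xi : V →+ ℤ
  kap : ℝ
  eps : ℝ
  L : ℤ
  H : ℝ
  kap_pos : 0 < kap
  eps_nonneg : 0 ≤ eps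
  eps_le : 2 * eps ≤ a
  eps_le' : 2 * c.C * eps ≤ 1
  close : ∀ z, |kap * xi z - lv c z| ≤ eps * nm z
  one_le : 1 ≤ L
  step : ∀ s, |xi (dir s)| ≤ L
  H_nonneg : 0 ≤ H
  rnd : ∀ (m : ℤ) (h : ℝ), ∃ z, xi z = m ∧ h ≤ c.q z ∧ c.q z ≤ h + H

/-- `B`-good walks: paths whose sub-walks have an excess at most `B`. -/
def Bgd (c : Crd) (τ : Env) (B : ℝ) {x y : V} (w : grid.Walk x y) : Prop :=
  w.IsPath ∧ ∀ (u v : V) (w₁ : grid.Walk x u) (w₂ : grid.Walk u v) (w₃ : grid.Walk v y),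
    w = w₁.append (w₂.append w₃) → cost τ w₂ ≤ lv c (v - u) + B

variable {a : ℝ} {c : Crd}

/-- The walk crosses the open slab of integer levels in `(α, β)`: all its vertices are in the slab, the first one has level at
most `α + L`, the last one has level at least `β - L`. -/
def Crs (Λ : Lev a c) (α β : ℤ) {x y : V} (w : grid.Walk x y) : Prop :=
  (∀ z ∈ w.support, α < Λ.xi z ∧ Λ.xi z < β) ∧ Λ.xi x ≤ α + Λ.L ∧ β - Λ.L ≤ Λ.xi y

/-- The slab `(α, β)` is crossed by a `B`-good walk from a height at least `y` to a height at most `z`. -/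
def Rch (Λ : Lev a c) (B : ℝ) (α β : ℤ) (y z : ℝ) (τ : Env) : Prop :=
  ∃ (u v : V) (w : grid.Walk u v), Bgd c τ B w ∧ Crs Λ α β w ∧ y ≤ c.q u ∧ c.q v ≤ z

/-- The straight tube `|q - σ xi - β| ≤ W` is crossed inside between the levels `α` and `γ` by a `B`-good walk. -/
def TubeG (Λ : Lev a c) (B σ β W : ℝ) (α γ : ℤ) (τ : Env) : Prop :=
  ∃ (u v : V) (w : grid.Walk u v), Bgd c τ B w ∧ Crs Λ α γ w ∧ ∀ z ∈ w.support, |c.q z - σ * Λ.xi z - β| ≤ W

/-- The bound for the displacement of a good walk along which the level increases by `t`. -/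
noncomputable def Lev.dsp (Λ : Lev a c) (B t : ℝ) : ℝ := 2 * c.C / a * (Λ.kap * t + B)

/-- The displacement at a joint. -/
noncomputable def Lev.rj (Λ : Lev a c) (B : ℝ) : ℝ := Λ.dsp B (2 * Λ.L)

/-- The half width of the box of the front functional. -/
noncomputable def Lev.wd (Λ : Lev a c) (B t : ℝ) : ℝ := t + Λ.dsp B t

/-- The box of the front functional. -/
def Bx (Λ : Lev a c) (B : ℝ) (α t : ℤ) (h : ℝ) : Set V :=
  {z | (α < Λ.xi z ∧ Λ.xi z < α + t) ∧ |c.q z - h| ≤ Λ.wd B t}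

/-- The end heights of the `B`-good crossings of the slab `(α, α + t)` in the box which start at a height at least `h`. -/
def Cand (Λ : Lev a c) (τ : Env) (B : ℝ) (α t : ℤ) (h : ℝ) : Set ℝ :=
  {r | ∃ (x y : V) (w : grid.Walk x y), (∀ z ∈ w.support, z ∈ Bx Λ B α t h) ∧ Bgd c τ B w ∧ Crs Λ α (α + t) w ∧
    h ≤ c.q x ∧ r = c.q y}

/-- The lowest height which can be reached at the end of the slab `(α, α + t)` from the heights `≥ h` by a `B`-good walk,
capped at `h + t`. -/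
noncomputable def low (Λ : Lev a c) (τ : Env) (B : ℝ) (α t : ℤ) (h : ℝ) : ℝ := sInf (insert (h + t) (Cand Λ τ B α t h))

/-- The front functional at the origin. -/
noncomputable def G0 (Λ : Lev a c) (B : ℝ) (t : ℤ) (τ : Env) : ℝ := -low Λ τ B 0 t 0

end Pool.Agent.W_1b8d5d_sc
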