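import Pool.Agent.W_1b8d5d_sc.FRch

/-!
MP_1b8d5d_pr (SC, part P2): translations, independence and the Laplace transform of the front functional at the origin.
-/

set_option autoImplicit false

namespace Pool.Agent.W_1b8d5d_sc

open Finset Pool.Agent.W_1b8d5d_h85 Pool.Agent.W_1b8d5d_fe

variable {Q : Par} {g : V → ℝ} {R : ℝ} {M : Mdl Q.a Q.b}

/-- Conditional expectation: `Z` and `F ≥ 0` depend on `A`, the functions `ψ z` depend on `A'`.
PROOF. `Z` takes finitely many values `v` on the environments of the model: `F ψ(Z) = Σ_v (F 1(Z = v)) ψ v`, independence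
(`Good.indep`) for each of them. -/
theorem Good_cond (hM : Good Q g R M) {A A' : Set Edge} (hd : Disjoint A A') (hR : ∀ e ∈ A ∪ A', nm e.1 ≤ R)
    {F Z : Env → ℝ} {ψ : ℝ → Env → ℝ} (hF : DependsOn F A) (hF0 : ∀ τ, 0 ≤ F τ) (hZ : DependsOn Z A)
    (hψ : ∀ τ, Bd Q.a Q.b τ → DependsOn (ψ (Z τ)) A') {m : ℝ} (hm : ∀ τ, Bd Q.a Q.b τ → M.E (ψ (Z τ)) ≤ m) :
    (M.E fun τ => F τ * ψ (Z τ) τ) ≤ m * M.E F := by
  classical
  set S : Finset ℝ := Finset.univ.image fun ω : M.Ω => Z (M.env ω) with hS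
  have e1 : (M.E fun τ => F τ * ψ (Z τ) τ)
      = ∑ v ∈ S, M.E (fun τ => (F τ * (if Z τ = v then (1 : ℝ) else 0)) * ψ v τ) := by
    rw [← M.E_sum]
    unfold Mdl.E
    refine Ex_congr fun ω => ?_
    have hmem : Z (M.env ω) ∈ S := Finset.mem_image_of_mem _ (Finset.mem_univ ω)
    beta_reduce
    rw [Finset.sum_eq_single (Z (M.env ω))]
    · rw [if_pos rfl, mul_one]
    · intro v _ hv
      rw [if_neg (Ne.symm hv), mul_zero, zero_mul]
    · intro h
      exact absurd hmem h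
  have e2 : M.E F = ∑ v ∈ S, M.E (fun τ => F τ * (if Z τ = v then (1 : ℝ) else 0)) := by
    rw [← M.E_sum]
    unfold Mdl.E
    refine Ex_congr fun ω => ?_
    have hmem : Z (M.env ω) ∈ S := Finset.mem_image_of_mem _ (Finset.mem_univ ω)
    beta_reduce
    rw [Finset.sum_eq_single (Z (M.env ω))]
    · rw [if_pos rfl, mul_one]
    · intro v _ hv
      rw [if_neg (Ne.symm hv), mul_zero]
    · intro h
      exact absurd hmem h
  rw [e1, e2, Finset.mul_sum]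
  refine Finset.sum_le_sum fun v hv => ?_
  obtain ⟨ω, -, rfl⟩ := Finset.mem_image.1 hv
  have hdep : DependsOn (fun τ => F τ * (if Z τ = Z (M.env ω) then (1 : ℝ) else 0)) A := by
    intro τ τ' h
    have h1 : F τ = F τ' := hF h
    have h2 : Z τ = Z τ' := hZ h
    simp only [h1, h2]
  rw [hM.indep A A' hd hR _ _ hdep (hψ _ (M.bd ω)), mul_comm]
  refine mul_le_mul_of_nonneg_right (hm _ (M.bd ω)) (M.E_nonneg fun τ _ => ?_)
  exact mul_nonneg (hF0 τ) (by split_ifs <;> norm_num)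

private theorem FLap_P_sh (hM : Good Q g R M) (z : V) (p : Env → Prop) : M.P (fun τ => p (sh z τ)) = M.P p := by
  classical
  rw [M.P_def, M.P_def]
  exact hM.inv z fun τ => if p τ then (1 : ℝ) else 0

private theorem FLap_G0_sh {a : ℝ} {c : Crd} (Λ : Lev a c) (B : ℝ) (t : ℤ) (z : V) (τ : Env) :
    G0 Λ B t (sh z τ) = c.q z - low Λ τ B (Λ.xi z) t (c.q z) := by
  unfold G0
  rw [low_sh, zero_add, zero_add]
  ring

private theorem FLap_upper {a b : ℝ} (ha : 0 < a) {c : Crd} (Λ : Lev a c) (B : ℝ) (α t : ℤ) (h : ℝ) :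
    ∃ z : V, ∀ τ, Bd a b τ → h - low Λ τ B α t h ≤ Λ.H + G0 Λ B t (sh z τ) := by
  obtain ⟨z, h1, h2, h3⟩ := Λ.rnd α (h - Λ.H)
  refine ⟨z, fun τ hτ => ?_⟩
  rw [FLap_G0_sh, h1]
  have h4 : c.q z ≤ h := by linarith
  have h5 := low_mono (Λ := Λ) (B := B) (α := α) (t := t) ha hτ h4
  linarith

/-- Every position against the origin (`Λ.rnd`, `low_sh`, `low_mono`, `Good.inv`). -/
theorem E_exp_low_le (hM : Good Q g R M) {c : Crd} (Λ : Lev Q.a c) (B : ℝ) (α t : ℤ) (h : ℝ) {l : ℝ} (hl : 0 ≤ l) :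
    (M.E fun τ => Real.exp (l * (h - low Λ τ B α t h))) ≤ Real.exp (l * Λ.H) * M.E fun τ => Real.exp (l * G0 Λ B t τ) := by
  obtain ⟨z, hz⟩ := FLap_upper (b := Q.b) Q.ha Λ B α t h
  have h1 : (M.E fun τ => Real.exp (l * (h - low Λ τ B α t h)))
      ≤ M.E fun τ => Real.exp (l * Λ.H) * Real.exp (l * G0 Λ B t (sh z τ)) := by
    refine M.E_mono fun τ hτ => ?_
    rw [← Real.exp_add]
    refine Real.exp_le_exp.2 ?_
    have := mul_le_mul_of_nonneg_left (hz τ hτ) hl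
    linarith
  rw [M.E_mul_left] at h1
  refine h1.trans (le_of_eq ?_)
  rw [hM.inv z fun τ => Real.exp (l * G0 Λ B t τ)]

/-- The bounds of the front functional at the origin. -/
theorem G0_bounds {a b : ℝ} (ha : 0 < a) {c : Crd} (Λ : Lev a c) {τ : Env} (hτ : Bd a b τ) {B : ℝ} (hB : 0 ≤ B) {t : ℤ}
    (ht : 0 ≤ t) : -t ≤ G0 Λ B t τ ∧ G0 Λ B t τ ≤ Λ.dsp B t := by
  have h1 := low_le_cap (Λ := Λ) (τ := τ) (B := B) (α := 0) (t := t) (h := 0)
  have h2 := low_ge (Λ := Λ) (α := 0) (h := 0) ha hτ hB ht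
  unfold G0
  constructor <;> linarith

/-- ** Laplace transform, two blocks ** (`low_comp`, `Good_cond` with `F = exp (l G0)`, `Z = low .. 0 s 0 - rj`,
`E_exp_low_le`). -/
theorem laplace_two (hM : Good Q g R M) {c : Crd} (Λ : Lev Q.a c) {B : ℝ} (hB : 0 ≤ B) {s t : ℤ} (hs : Λ.L < s) (ht : Λ.L < t)
    (hR : 8 * c.C * (Λ.kap + 1) * (s + t + Λ.wd B s + Λ.wd B t + Λ.rj B) + 1 ≤ R) {l : ℝ} (hl : 0 ≤ l) :
    (M.E fun τ => Real.exp (l * G0 Λ B (s + t) τ)) ≤
      Real.exp (l * (Λ.rj B + Λ.H)) * (M.E fun τ => Real.exp (l * G0 Λ B s τ)) * M.E fun τ => Real.exp (l * G0 Λ B t τ) := by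
  have ha := Q.ha
  have hC := c.one_le
  have hL := Λ.one_le
  have hs0 : (0 : ℤ) ≤ s := by omega
  have ht0 : (0 : ℤ) ≤ t := by omega
  have hs0' : (0 : ℝ) ≤ s := by exact_mod_cast hs0
  have ht0' : (0 : ℝ) ≤ t := by exact_mod_cast ht0
  have hrj := Λ.rj_nonneg ha hB
  have hws : 0 ≤ Λ.wd B s := by
    have := Λ.dsp_nonneg ha hB hs0'
    unfold Lev.wd
    linarith
  have hwt : 0 ≤ Λ.wd B t := by
    have := Λ.dsp_nonneg ha hB ht0'
    unfold Lev.wd
    linarith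
  have hk := Λ.kap_pos
  -- the ranges
  have hrange : ∀ v : V, |(Λ.xi v : ℝ)| ≤ s + t → |c.q v| ≤ Λ.wd B s + Λ.wd B t + Λ.rj B → nm v ≤ R := by
    intro v h1 h2
    have h3 := Λ.nm_le_q v
    have h4 : Λ.kap * |(Λ.xi v : ℝ)| + 2 * |c.q v| ≤ 4 * ((Λ.kap + 1) * (s + t + Λ.wd B s + Λ.wd B t + Λ.rj B)) := by
      have h5 := mul_le_mul_of_nonneg_left h1 hk.le
      have h6 : 0 ≤ Λ.kap * (s + t) := mul_nonneg hk.le (by linarith)
      have h7 : 0 ≤ Λ.kap * (Λ.wd B s + Λ.wd B t + Λ.rj B) := mul_nonneg hk.le (by linarith)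
      nlinarith
    have h5 := mul_le_mul_of_nonneg_left h4 (by linarith : 0 ≤ 2 * c.C)
    have h6 : 2 * c.C * (4 * ((Λ.kap + 1) * (s + t + Λ.wd B s + Λ.wd B t + Λ.rj B)))
        = 8 * c.C * (Λ.kap + 1) * (s + t + Λ.wd B s + Λ.wd B t + Λ.rj B) := by ring
    linarith
  set U' : Set V := {v | (s < Λ.xi v ∧ Λ.xi v < s + t) ∧ |c.q v| ≤ Λ.wd B s + Λ.wd B t + Λ.rj B} with hU'
  have hd : Disjoint (edg (Bx Λ B 0 s 0)) (edg U') := by
    rw [Set.disjoint_left]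
    intro e he he'
    have h1 := he.1.1.2
    have h2 := he'.1.1.1
    omega
  have hz : ∀ τ, |low Λ τ B 0 s 0 - Λ.rj B| ≤ Λ.wd B s + Λ.rj B := by
    intro τ
    have h1 := abs_low_sub_le (Λ := Λ) (τ := τ) (α := 0) (h := 0) ha hB hs0
    rw [sub_zero] at h1
    refine (abs_sub _ _).trans ?_
    rw [abs_of_nonneg hrj]
    linarith
  have hcond := Good_cond (M := M) hM hd (by
      rintro e (he | he)
      · obtain ⟨⟨h1, h2⟩, h3⟩ := he.1
        rw [sub_zero] at h3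
        refine hrange _ ?_ (by linarith)
        have h1' : (0 : ℝ) < Λ.xi e.1 := by exact_mod_cast h1
        have h2' : (Λ.xi e.1 : ℝ) < s := by exact_mod_cast (by omega : Λ.xi e.1 < s)
        rw [abs_of_pos h1']
        linarith
      · obtain ⟨⟨h1, h2⟩, h3⟩ := he.1
        refine hrange _ ?_ h3
        have h1' : (s : ℝ) < Λ.xi e.1 := by exact_mod_cast h1
        have h2' : (Λ.xi e.1 : ℝ) < s + t := by exact_mod_cast h2
        rw [abs_of_nonneg (by linarith)]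
        exact h2'.le)
    (F := fun τ => Real.exp (l * G0 Λ B s τ)) (Z := fun τ => low Λ τ B 0 s 0 - Λ.rj B)
    (ψ := fun z τ => Real.exp (l * (z - low Λ τ B (0 + s) t z)))
    (by
      intro τ τ' hττ
      have h1 : low Λ τ B 0 s 0 = low Λ τ' B 0 s 0 := dependsOn_low Λ B 0 s 0 hττ
      unfold G0
      simp only [h1])
    (fun τ => (Real.exp_pos _).le)
    (by
      intro τ τ' hττ
      have h1 : low Λ τ B 0 s 0 = low Λ τ' B 0 s 0 := dependsOn_low Λ B 0 s 0 hττ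
      simp only [h1])
    (by
      intro τ _ τ₁ τ₂ hττ
      have h0 := hz τ
      set z := low Λ τ B 0 s 0 - Λ.rj B with hzd
      have hsub : ∀ v, v ∈ Bx Λ B (0 + s) t z → v ∈ U' := by
        rintro v ⟨⟨a1, a2⟩, a3⟩
        refine ⟨⟨by omega, by omega⟩, ?_⟩
        have h3 : |c.q v| ≤ |c.q v - z| + |z| := by
          have := abs_add_le (c.q v - z) z
          rwa [sub_add_cancel] at this
        linarith
      have h2 : low Λ τ₁ B (0 + s) t z = low Λ τ₂ B (0 + s) t z :=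
        dependsOn_low Λ B (0 + s) t z fun e he => hττ e ⟨hsub _ he.1, hsub _ he.2⟩
      simp only [h2])
    (m := Real.exp (l * Λ.H) * M.E fun τ => Real.exp (l * G0 Λ B t τ))
    (fun τ _ => E_exp_low_le hM Λ B (0 + s) t _ hl)
  have h1 : (M.E fun τ => Real.exp (l * G0 Λ B (s + t) τ)) ≤ M.E fun τ => Real.exp (l * Λ.rj B) *
      (Real.exp (l * G0 Λ B s τ) * Real.exp (l * ((low Λ τ B 0 s 0 - Λ.rj B)
        - low Λ τ B (0 + s) t (low Λ τ B 0 s 0 - Λ.rj B)))) := by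
    refine M.E_mono fun τ hτ => ?_
    rw [← Real.exp_add, ← Real.exp_add]
    refine Real.exp_le_exp.2 ?_
    have h2 := low_comp (Λ := Λ) (α := 0) (h := 0) ha hτ hB hs ht
    have h3 : G0 Λ B (s + t) τ ≤ Λ.rj B + (G0 Λ B s τ + ((low Λ τ B 0 s 0 - Λ.rj B)
        - low Λ τ B (0 + s) t (low Λ τ B 0 s 0 - Λ.rj B))) := by
      unfold G0
      linarith
    have h4 := mul_le_mul_of_nonneg_left h3 hl
    linarith
  rw [M.E_mul_left] at h1
  refine h1.trans ((mul_le_mul_of_nonneg_left hcond (Real.exp_pos _).le).trans (le_of_eq ?_))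
  rw [mul_add, Real.exp_add]
  ring

/-- The probability of a crossing (`Rch_sh`, `Rch.low_le`, `Good.inv`). -/
theorem P_Rch_le (hM : Good Q g R M) {c : Crd} (Λ : Lev Q.a c) (B : ℝ) (α t : ℤ) (h x : ℝ) :
    M.P (fun τ => Rch Λ B α (α + t) h (h - x) τ) ≤ M.P (fun τ => x - Λ.H ≤ G0 Λ B t τ) := by
  obtain ⟨z, hz⟩ := FLap_upper (b := Q.b) Q.ha Λ B α t h
  rw [← FLap_P_sh hM z fun τ => x - Λ.H ≤ G0 Λ B t τ]
  refine M.P_mono fun τ hτ h1 => ?_
  have h2 := h1.low_le Q.ha hτ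
  have h3 := hz τ hτ
  linarith

/-- A lower bound for the probability of a crossing at every position (`low_attained`, `Good.inv`). -/
theorem le_P_Rch (hM : Good Q g R M) {c : Crd} (Λ : Lev Q.a c) (B : ℝ) (α t : ℤ) (h x : ℝ) (hx : -t < x) :
    M.P (fun τ => x + Λ.H ≤ G0 Λ B t τ) ≤ M.P (fun τ => Rch Λ B α (α + t) h (h - x) τ) := by
  obtain ⟨z, h1, h2, h3⟩ := Λ.rnd α h
  rw [← FLap_P_sh hM z fun τ => x + Λ.H ≤ G0 Λ B t τ]
  refine M.P_mono fun τ _ h4 => ?_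
  rw [FLap_G0_sh, h1] at h4
  exact (Rch_of_low (h := c.q z) (by linarith) (by linarith)).left h2

end Pool.Agent.W_1b8d5d_sc
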