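import Pool.Agent.W_1b8d5d_sc.FDefs

/-!
MP_1b8d5d_pr (SC, part P2): existence of an integer level.
-/

set_option autoImplicit false

namespace Pool.Agent.W_1b8d5d_sc

open Finset Pool.Agent.W_1b8d5d_h85 Pool.Agent.W_1b8d5d_fe

theorem lv_coord (c : Crd) (z : V) : lv c z = z.1 * lv c (1, 0) + z.2 * lv c (0, 1) := by
  have e : z = z.1 • ((1 : ℤ), (0 : ℤ)) + z.2 • ((0 : ℤ), (1 : ℤ)) := by
    ext <;> simp
  have hp : c.p z = z.1 * c.p (1, 0) + z.2 * c.p (0, 1) := by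
    conv_lhs => rw [e]
    rw [map_add, map_zsmul, map_zsmul, zsmul_eq_mul, zsmul_eq_mul]
  have hq : c.q z = z.1 * c.q (1, 0) + z.2 * c.q (0, 1) := by
    conv_lhs => rw [e]
    rw [map_add, map_zsmul, map_zsmul, zsmul_eq_mul, zsmul_eq_mul]
  unfold lv
  rw [hp, hq]
  ring

/-- There are integer levels with `eps` arbitrarily small.
PROOF. `λ₁ = lv (1, 0)`, `λ₂ = lv (0, 1)` are not both zero (`Crd`: `p`, `q` take arbitrarily large values: `rd`). For a large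
natural number `N` let `n_i = round (N λ_i)`, `d = gcd n₁ n₂ > 0`, `xi z = (n₁ z.1 + n₂ z.2) / d`, `kap = d / N`:
`|kap xi z - lv z| ≤ nm z / (2 N)`. `L = max |xi (dir s)|`, at least `1`. `rnd`: a vertex `t₀` with `xi t₀ = 1` (Bezout), the
kernel vector `k = (-n₂ / d, n₁ / d)` has `|lv k| ≤ eps nm k`, hence `q k ≠ 0` (as `nm k ≤ C (|p k| + |q k|)` and
`2 C eps ≤ 1`): `z = m t₀ + n k`, `H = |q k|`. -/
theorem exists_lev {a : ℝ} (ha : 0 < a) (c : Crd) {ε : ℝ} (hε : 0 < ε) : ∃ Λ : Lev a c, Λ.eps ≤ ε := by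
  have hC := c.one_le
  have hC0 : 0 < c.C := by linarith
  set l₁ := lv c (1, 0) with hl₁
  set l₂ := lv c (0, 1) with hl₂
  have hne : 0 < |l₁| + |l₂| := by
    by_contra hcon
    have h1 : |l₁| = 0 := by linarith [abs_nonneg l₁, abs_nonneg l₂]
    have h2 : |l₂| = 0 := by linarith [abs_nonneg l₁, abs_nonneg l₂]
    rw [abs_eq_zero] at h1 h2
    have h3 := lv_coord c (c.rd (2 * c.C + 1) 0)
    rw [← hl₁, ← hl₂, h1, h2] at h3
    have h4 := abs_le.1 (c.rd_p (2 * c.C + 1) 0)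
    have h5 := abs_le.1 (c.rd_q (2 * c.C + 1) 0)
    unfold lv at h3
    linarith [h4.1, h5.1]
  -- the denominator
  obtain ⟨N, hN⟩ := exists_nat_gt (2 / (|l₁| + |l₂|) + 1 / (2 * ε) + 1 / a + c.C)
  have p1 : 0 < 2 / (|l₁| + |l₂|) := by positivity
  have p2 : 0 < 1 / (2 * ε) := by positivity
  have p3 : 0 < 1 / a := by positivity
  have hN0 : (0 : ℝ) < N := by linarith
  have hN1 : 2 < N * (|l₁| + |l₂|) := by
    have : 2 / (|l₁| + |l₂|) < N := by linarith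
    rwa [div_lt_iff₀ hne] at this
  have hN2 : 1 / (2 * (N : ℝ)) ≤ ε := by
    have : 1 / (2 * ε) < N := by linarith
    rw [div_lt_iff₀ (by positivity)] at this
    rw [div_le_iff₀ (by positivity)]
    linarith
  have hN3 : 2 * (1 / (2 * (N : ℝ))) ≤ a := by
    have : 1 / a < N := by linarith
    rw [div_lt_iff₀ ha] at this
    have e : 2 * (1 / (2 * (N : ℝ))) = 1 / N := by field_simp
    rw [e, div_le_iff₀ hN0]
    linarith
  have hN4 : 2 * c.C * (1 / (2 * (N : ℝ))) ≤ 1 := by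
    have : c.C < N := by linarith
    have e : 2 * c.C * (1 / (2 * (N : ℝ))) = c.C / N := by field_simp
    rw [e, div_le_iff₀ hN0]
    linarith
  set n₁ := round ((N : ℝ) * l₁) with hn₁
  set n₂ := round ((N : ℝ) * l₂) with hn₂
  have r₁ : |(N : ℝ) * l₁ - n₁| ≤ 1 / 2 := abs_sub_round _
  have r₂ : |(N : ℝ) * l₂ - n₂| ≤ 1 / 2 := abs_sub_round _
  have hn0 : 0 < Int.gcd n₁ n₂ := by
    rw [Int.gcd_pos_iff]
    by_contra hcon
    push Not at hcon
    rw [hcon.1, Int.cast_zero, sub_zero, abs_mul, abs_of_pos hN0] at r₁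
    rw [hcon.2, Int.cast_zero, sub_zero, abs_mul, abs_of_pos hN0] at r₂
    nlinarith
  obtain ⟨m₁, m₂, hm, h1, h2⟩ := Int.exists_gcd_one hn0
  set d : ℕ := Int.gcd n₁ n₂ with hd
  have hd0 : (0 : ℝ) < d := by exact_mod_cast hn0
  have h1' : (n₁ : ℝ) = m₁ * d := by exact_mod_cast h1
  have h2' : (n₂ : ℝ) = m₂ * d := by exact_mod_cast h2
  have hm0 : 1 ≤ max |m₁| |m₂| := by
    by_contra hcon
    push Not at hcon
    have hh := max_lt_iff.1 hcon
    have e1 : m₁ = 0 := by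
      have := hh.1
      rw [← Int.abs_lt_one_iff]; exact this
    have e2 : m₂ = 0 := by
      have := hh.2
      rw [← Int.abs_lt_one_iff]; exact this
    rw [e1, e2] at hm
    simp at hm
  let ξ : V →+ ℤ := AddMonoidHom.mk' (fun z => m₁ * z.1 + m₂ * z.2) (fun x y => by
    simp only [Prod.fst_add, Prod.snd_add]; ring)
  have hξ : ∀ z : V, ξ z = m₁ * z.1 + m₂ * z.2 := fun z => rfl
  have hcl : ∀ z : V, |(d : ℝ) / N * (ξ z : ℝ) - lv c z| ≤ 1 / (2 * (N : ℝ)) * nm z := by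
    intro z
    rw [lv_coord c z, ← hl₁, ← hl₂, hξ]
    have e : (d : ℝ) / N * ((m₁ * z.1 + m₂ * z.2 : ℤ) : ℝ) - (z.1 * l₁ + z.2 * l₂)
        = -((z.1 : ℝ) * ((N : ℝ) * l₁ - n₁) + z.2 * ((N : ℝ) * l₂ - n₂)) / N := by
      rw [h1', h2']
      push_cast
      field_simp
      ring
    rw [e, abs_div, abs_neg, abs_of_pos hN0, div_le_iff₀ hN0]
    have e2 : 1 / (2 * (N : ℝ)) * nm z * N = |(z.1 : ℝ)| * (1 / 2) + |(z.2 : ℝ)| * (1 / 2) := by
      unfold nm
      field_simp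
    rw [e2]
    refine (abs_add_le _ _).trans ?_
    rw [abs_mul, abs_mul]
    exact add_le_add (mul_le_mul_of_nonneg_left r₁ (abs_nonneg _)) (mul_le_mul_of_nonneg_left r₂ (abs_nonneg _))
  -- the kernel vector
  set k₀ : V := (-m₂, m₁) with hk₀
  have hk1 : ξ k₀ = 0 := by rw [hξ, hk₀]; ring
  have hk2 : 1 ≤ nm k₀ := by
    unfold nm
    rw [hk₀]
    simp only [Int.cast_neg, abs_neg]
    have : (1 : ℝ) ≤ max |(m₁ : ℝ)| |(m₂ : ℝ)| := by exact_mod_cast hm0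
    rcases le_max_iff.1 this with h | h <;> linarith [abs_nonneg (m₁ : ℝ), abs_nonneg (m₂ : ℝ)]
  have hk3 : c.q k₀ ≠ 0 := by
    intro h0
    have h3 := hcl k₀
    rw [hk1, Int.cast_zero, mul_zero, zero_sub, abs_neg] at h3
    have h4 := c.nm_le k₀
    rw [h0, abs_zero, add_zero] at h4
    unfold lv at h3
    rw [h0, add_zero] at h3
    have h5 : c.C * |c.p k₀| ≤ c.C * (1 / (2 * (N : ℝ)) * nm k₀) := mul_le_mul_of_nonneg_left h3 hC0.le
    have h6 : c.C * (1 / (2 * (N : ℝ)) * nm k₀) = (2 * c.C * (1 / (2 * (N : ℝ)))) * nm k₀ / 2 := by ring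
    have h7 : (2 * c.C * (1 / (2 * (N : ℝ)))) * nm k₀ ≤ 1 * nm k₀ := mul_le_mul_of_nonneg_right hN4 (by linarith)
    linarith
  obtain ⟨k, hk, hkq, hkH⟩ : ∃ k : V, ξ k = 0 ∧ 0 < c.q k ∧ c.q k = |c.q k₀| := by
    rcases lt_or_gt_of_ne hk3 with h | h
    · refine ⟨-k₀, ?_, ?_, ?_⟩
      · rw [map_neg, hk1, neg_zero]
      · rw [map_neg]; linarith
      · rw [map_neg, abs_of_neg h]
    · exact ⟨k₀, hk1, h, (abs_of_pos h).symm⟩
  refine ⟨{
    xi := ξ
    kap := d / N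
    eps := 1 / (2 * (N : ℝ))
    L := max |m₁| |m₂|
    H := |c.q k₀|
    kap_pos := by positivity
    eps_nonneg := by positivity
    eps_le := hN3
    eps_le' := hN4
    close := hcl
    one_le := hm0
    step := ?_
    H_nonneg := abs_nonneg _
    rnd := ?_ }, hN2⟩
  · intro s
    cases s
    · have : ξ (dir false) = m₁ := by rw [hξ]; simp [dir]
      rw [this]; exact le_max_left _ _
    · have : ξ (dir true) = m₂ := by rw [hξ]; simp [dir]
      rw [this]; exact le_max_right _ _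
  · intro m h
    have hb := Int.gcd_eq_gcd_ab m₁ m₂
    rw [hm] at hb
    set t₀ : V := (Int.gcdA m₁ m₂, Int.gcdB m₁ m₂) with ht₀
    have ht : ξ t₀ = 1 := by rw [hξ, ht₀]; simpa using hb.symm
    set r := (h - m * c.q t₀) / c.q k with hr
    refine ⟨m • t₀ + ⌈r⌉ • k, ?_, ?_, ?_⟩
    · rw [map_add, map_zsmul, map_zsmul, hk, ht]
      simp
    · rw [map_add, map_zsmul, map_zsmul, zsmul_eq_mul, zsmul_eq_mul]
      have h1 : r ≤ ⌈r⌉ := Int.le_ceil r
      have h2 : r * c.q k ≤ ⌈r⌉ * c.q k := mul_le_mul_of_nonneg_right h1 hkq.le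
      have h3 : r * c.q k = h - m * c.q t₀ := by rw [hr]; field_simp
      linarith
    · rw [map_add, map_zsmul, map_zsmul, zsmul_eq_mul, zsmul_eq_mul, ← hkH]
      have h1 : (⌈r⌉ : ℝ) ≤ r + 1 := (Int.ceil_lt_add_one r).le
      have h2 : ⌈r⌉ * c.q k ≤ (r + 1) * c.q k := mul_le_mul_of_nonneg_right h1 hkq.le
      have h3 : r * c.q k = h - m * c.q t₀ := by rw [hr]; field_simp
      linarith

variable {a : ℝ} {c : Crd}

/-- The integer level is increasing on the wide cone. -/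
theorem Lev.le_of_Wc (Λ : Lev a c) {z : V} (hz : z ∈ Wc c) : (1 - 12 * c.C * Λ.eps) * lv c z ≤ Λ.kap * Λ.xi z ∧
    Λ.kap * Λ.xi z ≤ (1 + 12 * c.C * Λ.eps) * lv c z := by
  obtain ⟨h1, h2⟩ := hz
  have hC := c.one_le
  have he := Λ.eps_nonneg
  have h3 : lv c z = c.p z + c.q z := rfl
  have h0 : 0 ≤ lv c z := by linarith
  have hp : |c.p z| ≤ 2 * lv c z := abs_le.2 ⟨by linarith, by linarith⟩
  have hq : |c.q z| ≤ 2 * lv c z := abs_le.2 ⟨by linarith, by linarith⟩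
  have hn : nm z ≤ c.C * (4 * lv c z) := (c.nm_le z).trans (mul_le_mul_of_nonneg_left (by linarith) (by linarith))
  have hc := abs_le.1 (Λ.close z)
  have h4 : Λ.eps * nm z ≤ Λ.eps * (c.C * (4 * lv c z)) := mul_le_mul_of_nonneg_left hn he
  have h5 : 0 ≤ Λ.eps * (c.C * (8 * lv c z)) := by positivity
  constructor
  · nlinarith [hc.1, hc.2]
  · nlinarith [hc.1, hc.2]

end Pool.Agent.W_1b8d5d_sc
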