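import Pool.Agent.W_1b8d5d_sc.FWalk

/-!
MP_1b8d5d_pr (SC, part P2): the front functional.
-/

set_option autoImplicit false

namespace Pool.Agent.W_1b8d5d_sc

open Finset Pool.Agent.W_1b8d5d_h85 Pool.Agent.W_1b8d5d_fe

section lev

variable {a : ℝ} {c : Crd}

/-- A step changes the integer level by at most `L`. -/
theorem Lev.xi_adj (Λ : Lev a c) {x y : V} (h : grid.Adj x y) : |Λ.xi y - Λ.xi x| ≤ Λ.L := by
  obtain ⟨s, h | h⟩ := h
  · rw [h, map_add, add_sub_cancel_left]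
    exact Λ.step s
  · rw [h, map_add, sub_add_cancel_left, abs_neg]
    exact Λ.step s

/-- The norm is bounded by the integer level and the height. -/
theorem Lev.nm_le_q (Λ : Lev a c) (z : V) : nm z ≤ 2 * c.C * (Λ.kap * |(Λ.xi z : ℝ)| + 2 * |c.q z|) := by
  have hC := c.one_le
  have h1 := c.nm_le z
  have h2 : |c.p z| ≤ |lv c z| + |c.q z| := by
    have e1 : c.p z = lv c z - c.q z := by unfold lv; ring
    rw [e1]
    exact abs_sub _ _
  have h3 : |lv c z| ≤ Λ.kap * |(Λ.xi z : ℝ)| + Λ.eps * nm z := by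
    have e1 := Λ.close z
    have e2 : |lv c z| ≤ |Λ.kap * Λ.xi z| + |Λ.kap * Λ.xi z - lv c z| := by
      have := abs_sub (Λ.kap * Λ.xi z) (Λ.kap * Λ.xi z - lv c z)
      rwa [sub_sub_cancel] at this
    rw [abs_mul, abs_of_pos Λ.kap_pos] at e2
    linarith
  have h4 : c.C * (|c.p z| + |c.q z|) ≤ c.C * (Λ.kap * |(Λ.xi z : ℝ)| + Λ.eps * nm z + 2 * |c.q z|) :=
    mul_le_mul_of_nonneg_left (by linarith) (by linarith)
  have h5 : 2 * c.C * Λ.eps * nm z ≤ 1 * nm z := mul_le_mul_of_nonneg_right Λ.eps_le' (nm_nonneg z)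
  nlinarith

theorem Lev.dsp_mono (Λ : Lev a c) (ha : 0 < a) {B B' t t' : ℝ} (hB : B ≤ B') (ht : t ≤ t') : Λ.dsp B t ≤ Λ.dsp B' t' := by
  have hC := c.one_le
  have h1 : 0 ≤ 2 * c.C / a := by positivity
  have h2 := mul_le_mul_of_nonneg_left ht Λ.kap_pos.le
  exact mul_le_mul_of_nonneg_left (by linarith) h1

theorem Lev.dsp_nonneg (Λ : Lev a c) (ha : 0 < a) {B t : ℝ} (hB : 0 ≤ B) (ht : 0 ≤ t) : 0 ≤ Λ.dsp B t := by
  have hC := c.one_le
  have h1 : 0 ≤ 2 * c.C / a := by positivity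
  exact mul_nonneg h1 (add_nonneg (mul_nonneg Λ.kap_pos.le ht) hB)

theorem Lev.rj_nonneg (Λ : Lev a c) (ha : 0 < a) {B : ℝ} (hB : 0 ≤ B) : 0 ≤ Λ.rj B := by
  have h1 : (1 : ℝ) ≤ Λ.L := by exact_mod_cast Λ.one_le
  exact Λ.dsp_nonneg ha hB (by linarith)

/-- The distance between the end points of a good walk. -/
theorem Bgd.nm_le_xi {b : ℝ} (Λ : Lev a c) (ha : 0 < a) {τ : Env} (hτ : Bd a b τ) {B : ℝ} {x y : V} {w : grid.Walk x y}
    (hw : Bgd c τ B w) : nm (y - x) ≤ 2 / a * (Λ.kap * (Λ.xi y - Λ.xi x : ℤ) + B) := by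
  have h1 := hw.nm_le ha hτ
  have h2 := (abs_le.1 (Λ.close (y - x))).1
  have h3 := Λ.eps_le
  have h4 := nm_nonneg (y - x)
  have h5 : lv c (y - x) = lv c y - lv c x := by
    unfold lv
    rw [map_sub, map_sub]
    ring
  rw [h5, map_sub] at h2
  have h6 : 2 * Λ.eps * nm (y - x) ≤ a * nm (y - x) := mul_le_mul_of_nonneg_right h3 h4
  rw [div_mul_eq_mul_div, le_div_iff₀ ha]
  nlinarith

/-- The height difference of the end points of a good walk. -/
theorem Bgd.q_dsp {b : ℝ} (Λ : Lev a c) (ha : 0 < a) {τ : Env} (hτ : Bd a b τ) {B : ℝ} {x y : V} {w : grid.Walk x y}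
    (hw : Bgd c τ B w) : |c.q y - c.q x| ≤ Λ.dsp B (Λ.xi y - Λ.xi x : ℤ) := by
  have h1 := hw.nm_le_xi Λ ha hτ
  have h2 := c.q_le (y - x)
  rw [map_sub] at h2
  refine h2.trans ((mul_le_mul_of_nonneg_left h1 (by linarith [c.one_le])).trans (le_of_eq ?_))
  unfold Lev.dsp
  ring

end lev

/-- Splitting of a good walk at a vertex. -/
theorem Bgd.parts {c : Crd} {τ : Env} {B : ℝ} {x y z : V} {w : grid.Walk x y} (hw : Bgd c τ B w) (hz : z ∈ w.support) :
    ∃ (w₁ : grid.Walk x z) (w₂ : grid.Walk z y), w = w₁.append w₂ ∧ Bgd c τ B w₁ ∧ Bgd c τ B w₂ := by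
  classical
  have h : w = (w.takeUntil z hz).append (w.dropUntil z hz) := (w.take_spec hz).symm
  refine ⟨w.takeUntil z hz, w.dropUntil z hz, h, ?_, ?_⟩
  · exact hw.sub (w₁ := .nil) (w₃ := w.dropUntil z hz) (by rw [SimpleGraph.Walk.nil_append, ← h])
  · exact hw.sub (w₁ := w.takeUntil z hz) (w₃ := .nil) (by rw [SimpleGraph.Walk.append_nil, ← h])

section gen

variable {a : ℝ} {c : Crd} {Λ : Lev a c} {τ : Env} {B h : ℝ} {α t : ℤ}

/-- All candidates are in the window. -/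
theorem Cand_ge {r : ℝ} (hr : r ∈ Cand Λ τ B α t h) : |r - h| ≤ Λ.wd B t := by
  obtain ⟨x, y, w, h1, -, -, -, rfl⟩ := hr
  exact (h1 y w.end_mem_support).2

private theorem FLow_bdd : BddBelow (insert (h + t) (Cand Λ τ B α t h)) := by
  refine ⟨min (h + t) (h - Λ.wd B t), ?_⟩
  rintro r (rfl | hr)
  · exact min_le_left _ _
  · have := (abs_le.1 (Cand_ge hr)).1
    exact (min_le_right _ _).trans (by linarith)

theorem low_le_cap : low Λ τ B α t h ≤ h + t := csInf_le FLow_bdd (Set.mem_insert _ _)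

private theorem FLow_le_mem {r : ℝ} (hr : r ∈ Cand Λ τ B α t h) : low Λ τ B α t h ≤ r :=
  csInf_le FLow_bdd (Set.mem_insert_of_mem _ hr)

/-- A lower bound for the front. -/
theorem le_low {r : ℝ} (h1 : r ≤ h + t) (h2 : ∀ (x y : V) (w : grid.Walk x y), (∀ z ∈ w.support, z ∈ Bx Λ B α t h) →
    Bgd c τ B w → Crs Λ α (α + t) w → h ≤ c.q x → r ≤ c.q y) : r ≤ low Λ τ B α t h := by
  refine le_csInf ⟨_, Set.mem_insert _ _⟩ ?_
  rintro r' (rfl | ⟨x, y, w, e1, e2, e3, e4, rfl⟩)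
  · exact h1
  · exact h2 x y w e1 e2 e3 e4

theorem abs_low_sub_le (ha : 0 < a) (hB : 0 ≤ B) (ht : 0 ≤ t) : |low Λ τ B α t h - h| ≤ Λ.wd B t := by
  have ht' : (0 : ℝ) ≤ t := by exact_mod_cast ht
  have h0 := Λ.dsp_nonneg ha hB ht'
  have hw : (t : ℝ) ≤ Λ.wd B t := by unfold Lev.wd; linarith
  rw [abs_le]
  constructor
  · have : h - Λ.wd B t ≤ low Λ τ B α t h := by
      refine le_low (by linarith) fun x y w e1 e2 e3 e4 => ?_
      have := (abs_le.1 (e1 y w.end_mem_support).2).1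
      linarith
    linarith
  · have := low_le_cap (Λ := Λ) (τ := τ) (B := B) (α := α) (t := t) (h := h)
    linarith

private theorem FLow_edges {x y : V} (w : grid.Walk x y) {S : Set V} (hS : ∀ z ∈ w.support, z ∈ S) :
    ∀ e ∈ wedges w, e ∈ edg S := by
  intro e he
  have := wedges_support w he
  exact ⟨hS _ this.1, hS _ this.2⟩

private theorem FLow_cand_sub {τ' : Env} (hτ : ∀ e ∈ edg (Bx Λ B α t h), τ e = τ' e) :
    Cand Λ τ B α t h ⊆ Cand Λ τ' B α t h := by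
  rintro r ⟨x, y, w, e1, e2, e3, e4, rfl⟩
  exact ⟨x, y, w, e1, e2.congr fun e he => hτ e (FLow_edges w e1 e he), e3, e4, rfl⟩

/-- Locality (`Bgd.congr`: the edges of a walk in the box are in `edg` of the box). -/
theorem dependsOn_low (Λ : Lev a c) (B : ℝ) (α t : ℤ) (h : ℝ) :
    DependsOn (fun τ => low Λ τ B α t h) (edg (Bx Λ B α t h)) := by
  intro τ τ' hττ
  have h1 := FLow_cand_sub (τ := τ) (τ' := τ') (Λ := Λ) (B := B) (α := α) (t := t) (h := h) fun e he => hττ e he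
  have h2 := FLow_cand_sub (τ := τ') (τ' := τ) (Λ := Λ) (B := B) (α := α) (t := t) (h := h)
    fun e he => (hττ e he).symm
  change low Λ τ B α t h = low Λ τ' B α t h
  unfold low
  rw [Set.Subset.antisymm h1 h2]

/-- Shift. -/
theorem low_sh (z : V) : low Λ (sh z τ) B α t h = low Λ τ B (α + Λ.xi z) t (h + c.q z) - c.q z := by
  -- one inclusion, for all environments
  have key : ∀ (τ : Env) (z : V) (α : ℤ) (h r : ℝ), r ∈ Cand Λ (sh z τ) B α t h →
      r + c.q z ∈ Cand Λ τ B (α + Λ.xi z) t (h + c.q z) := by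
    rintro τ z α h r ⟨x, y, w, e1, e2, e3, e4, rfl⟩
    obtain ⟨w', f1, f2⟩ := exists_sh_walk w z
    refine ⟨x + z, y + z, w', ?_, f2 c τ B e2, ⟨?_, ?_, ?_⟩, ?_, by rw [map_add]⟩
    · intro v hv
      have h1 := e1 (v - z) ((f1 v).1 hv)
      unfold Bx at h1 ⊢
      rw [Set.mem_ofPred_eq, map_sub, map_sub] at h1
      rw [Set.mem_ofPred_eq]
      refine ⟨⟨by linarith [h1.1.1], by linarith [h1.1.2]⟩, ?_⟩
      have h2 := h1.2
      rwa [show c.q v - (h + c.q z) = c.q v - c.q z - h by ring]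
    · intro v hv
      have h1 := e3.1 (v - z) ((f1 v).1 hv)
      rw [map_sub] at h1
      constructor <;> linarith [h1.1, h1.2]
    · rw [map_add]
      linarith [e3.2.1]
    · rw [map_add]
      linarith [e3.2.2]
    · rw [map_add]
      linarith
  have hback : ∀ (τ : Env) (z : V), sh (-z) (sh z τ) = τ := by
    intro τ z
    funext e
    unfold sh
    simp only [neg_add_cancel_right]
  have one : ∀ (τ : Env) (z : V) (α : ℤ) (h : ℝ),
      low Λ τ B (α + Λ.xi z) t (h + c.q z) - c.q z ≤ low Λ (sh z τ) B α t h := by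
    intro τ z α h
    refine le_csInf ⟨_, Set.mem_insert _ _⟩ ?_
    rintro r (rfl | hr)
    · have := low_le_cap (Λ := Λ) (τ := τ) (B := B) (α := α + Λ.xi z) (t := t) (h := h + c.q z)
      linarith
    · have := FLow_le_mem (key τ z α h r hr)
      linarith
  refine le_antisymm ?_ (one τ z α h)
  have h1 := one (sh z τ) (-z) (α + Λ.xi z) (h + c.q z)
  rw [hback, map_neg, map_neg] at h1
  have e2 : α + Λ.xi z + -Λ.xi z = α := by ring
  have e3 : h + c.q z + -c.q z = h := by ring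
  rw [e2, e3] at h1
  linarith

/-- The box is finite. -/
private theorem FLow_fin : (Bx Λ B α t h).Finite := by
  -- a bound for the norm: `lv` is close to `kap xi`, use the finiteness of the levels
  obtain ⟨K, hK⟩ : ∃ K : ℕ, ∀ z ∈ Bx Λ B α t h, nm z ≤ K := by
    refine ⟨⌈2 * c.C * (Λ.kap * (|(α : ℝ)| + |(t : ℝ)|) + 2 * (|h| + |Λ.wd B t|))⌉₊, fun z hz => ?_⟩
    refine le_trans ?_ (Nat.le_ceil _)
    refine (Λ.nm_le_q z).trans (mul_le_mul_of_nonneg_left ?_ (by linarith [c.one_le]))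
    obtain ⟨⟨h1, h2⟩, h3⟩ := hz
    have h4 : |c.q z| ≤ |h| + |Λ.wd B t| := by
      have e1 : |c.q z| ≤ |c.q z - h| + |h| := by
        have := abs_add_le (c.q z - h) h
        rwa [sub_add_cancel] at this
      have e2 := le_abs_self (Λ.wd B t)
      linarith
    have h1' : (α : ℝ) < Λ.xi z := by exact_mod_cast h1
    have h2' : (Λ.xi z : ℝ) < α + t := by exact_mod_cast h2
    have h5 : |(Λ.xi z : ℝ)| ≤ |(α : ℝ)| + |(t : ℝ)| := by
      rw [abs_le]
      have e3 := neg_abs_le (α : ℝ)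
      have e4 := le_abs_self (α : ℝ)
      have e5 := le_abs_self (t : ℝ)
      have e6 := abs_nonneg (t : ℝ)
      constructor <;> linarith
    have h6 := mul_le_mul_of_nonneg_left h5 Λ.kap_pos.le
    linarith
  refine (Set.Finite.subset ((Set.finite_Icc (-(K : ℤ)) K).prod (Set.finite_Icc (-(K : ℤ)) K)) ?_)
  intro z hz
  have h1 := hK z hz
  rw [nm_eq_nat] at h1
  have h2 : z.1.natAbs + z.2.natAbs ≤ K := by exact_mod_cast h1
  rw [Set.mem_prod, Set.mem_Icc, Set.mem_Icc]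
  omega

/-- The infimum is attained: the box is a finite set of vertices. -/
theorem low_attained (hlt : low Λ τ B α t h < h + t) : ∃ (x y : V) (w : grid.Walk x y),
    (∀ z ∈ w.support, z ∈ Bx Λ B α t h) ∧ Bgd c τ B w ∧ Crs Λ α (α + t) w ∧ h ≤ c.q x ∧
      c.q y = low Λ τ B α t h := by
  have hfin : (Cand Λ τ B α t h).Finite := by
    refine (FLow_fin (Λ := Λ) (B := B) (α := α) (t := t) (h := h)).image (fun z => c.q z) |>.subset ?_
    rintro r ⟨x, y, w, e1, e2, e3, e4, rfl⟩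
    exact ⟨y, e1 y w.end_mem_support, rfl⟩
  have hmem : low Λ τ B α t h ∈ insert (h + t) (Cand Λ τ B α t h) :=
    (Set.insert_nonempty _ _).csInf_mem (hfin.insert _)
  rcases hmem with he | ⟨x, y, w, e1, e2, e3, e4, e5⟩
  · exact absurd he (ne_of_lt hlt)
  · exact ⟨x, y, w, e1, e2, e3, e4, e5.symm⟩

end gen

section bd

variable {a b : ℝ} {c : Crd} {Λ : Lev a c} {τ : Env} {B h : ℝ} {α t : ℤ}

/-- ** Every ** good crossing which starts above `h` ends above the front: if `q y < h + t` then the walk is in the box. -/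
theorem low_le (ha : 0 < a) (hτ : Bd a b τ) {x y : V} (w : grid.Walk x y) (hw : Bgd c τ B w)
    (hc : Crs Λ α (α + t) w) (hx : h ≤ c.q x) : low Λ τ B α t h ≤ c.q y := by
  have hlx := hc.1 x w.start_mem_support
  have hly := hc.1 y w.end_mem_support
  have ht : (0 : ℝ) < t := by exact_mod_cast (by omega : 0 < t)
  rcases le_or_gt (h + t) (c.q y) with h0 | h0
  · exact low_le_cap.trans h0
  · refine FLow_le_mem ⟨x, y, w, fun z hz => ⟨hc.1 z hz, ?_⟩, hw, hc, hx, rfl⟩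
    obtain ⟨w₁, w₂, -, h1, h2⟩ := hw.parts hz
    have hlz := hc.1 z hz
    have e1 := (abs_le.1 (h1.q_dsp Λ ha hτ)).1
    have e2 := (abs_le.1 (h2.q_dsp Λ ha hτ)).1
    have e3 : Λ.dsp B (Λ.xi z - Λ.xi x : ℤ) ≤ Λ.dsp B t :=
      Λ.dsp_mono ha le_rfl (by exact_mod_cast (by omega : Λ.xi z - Λ.xi x ≤ t))
    have e4 : Λ.dsp B (Λ.xi y - Λ.xi z : ℤ) ≤ Λ.dsp B t :=
      Λ.dsp_mono ha le_rfl (by exact_mod_cast (by omega : Λ.xi y - Λ.xi z ≤ t))
    unfold Lev.wd
    rw [abs_le]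
    constructor <;> linarith

theorem low_ge (ha : 0 < a) (hτ : Bd a b τ) (hB : 0 ≤ B) (ht : 0 ≤ t) : h - Λ.dsp B t ≤ low Λ τ B α t h := by
  have ht' : (0 : ℝ) ≤ t := by exact_mod_cast ht
  have h0 := Λ.dsp_nonneg ha hB ht'
  refine le_low (by linarith) fun x y w e1 e2 e3 e4 => ?_
  have f1 := (abs_le.1 (e2.q_dsp Λ ha hτ)).1
  have hlx := e3.1 x w.start_mem_support
  have hly := e3.1 y w.end_mem_support
  have f2 : Λ.dsp B (Λ.xi y - Λ.xi x : ℤ) ≤ Λ.dsp B t :=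
    Λ.dsp_mono ha le_rfl (by exact_mod_cast (by omega : Λ.xi y - Λ.xi x ≤ t))
  linarith

theorem low_mono (ha : 0 < a) (hτ : Bd a b τ) {h' : ℝ} (hh : h ≤ h') :
    low Λ τ B α t h ≤ low Λ τ B α t h' := by
  refine le_low (low_le_cap.trans (by linarith)) fun x y w e1 e2 e3 e4 => ?_
  exact low_le ha hτ w e2 e3 (hh.trans e4)

theorem low_anti (ha : 0 < a) (hτ : Bd a b τ) {B' : ℝ} (hBB : B ≤ B') :
    low Λ τ B' α t h ≤ low Λ τ B α t h := by
  refine le_low low_le_cap fun x y w e1 e2 e3 e4 => ?_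
  exact low_le ha hτ w (e2.mono hBB) e3 e4

/-- ** Splitting ** of a good crossing at an intermediate level: the first part crosses `(α, γ)`, the second part crosses
`(γ, β)`; the height changes by at most `rj` between the two parts. -/
theorem Crs.split (ha : 0 < a) (hτ : Bd a b τ) {β γ : ℤ} (h1 : α + Λ.L < γ) (h2 : γ + Λ.L < β) {x y : V}
    {w : grid.Walk x y} (hw : Bgd c τ B w) (hc : Crs Λ α β w) :
    ∃ (u v : V) (w₁ : grid.Walk x u) (w₂ : grid.Walk v y), Bgd c τ B w₁ ∧ Bgd c τ B w₂ ∧ Crs Λ α γ w₁ ∧ Crs Λ γ β w₂ ∧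
      (∀ z ∈ w₁.support, z ∈ w.support) ∧ (∀ z ∈ w₂.support, z ∈ w.support) ∧ |c.q v - c.q u| ≤ Λ.rj B := by
  have hL := Λ.one_le
  have hlx := hc.2.1
  have hly := hc.2.2
  have hx0 := (hc.1 x w.start_mem_support).1
  have hy0 := (hc.1 y w.end_mem_support).2
  obtain ⟨u, u', w₁, hadj, w₂, f1, f2, f3⟩ := split_first (fun z => γ ≤ Λ.xi z) w (by omega)
    ⟨y, w.end_mem_support, by omega⟩
  have hu := f2 u w₁.end_mem_support
  have hadj1 := (abs_le.1 (Λ.xi_adj hadj)).2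
  have hw1 : Bgd c τ B w₁ := hw.sub (w₁ := .nil) (w₃ := .cons hadj w₂) (by rw [SimpleGraph.Walk.nil_append, f1])
  have huy : Bgd c τ B (SimpleGraph.Walk.cons hadj w₂) := hw.sub (w₁ := w₁) (w₃ := .nil) (by
    rw [SimpleGraph.Walk.append_nil, f1])
  obtain ⟨v', v, w₃, hadj', w₄, g1, g2, g3⟩ := split_last (fun z => γ < Λ.xi z) (SimpleGraph.Walk.cons hadj w₂)
    ⟨u, SimpleGraph.Walk.start_mem_support _, by omega⟩ (by omega)
  have hadj2 := (abs_le.1 (Λ.xi_adj hadj')).2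
  have hv := g2 v w₄.start_mem_support
  have hw4 : Bgd c τ B w₄ := huy.sub (w₁ := w₃.append (.cons hadj' .nil)) (w₃ := .nil) (by
    rw [SimpleGraph.Walk.append_nil, g1, ← SimpleGraph.Walk.append_assoc]
    rfl)
  have huv : Bgd c τ B (w₃.append (.cons hadj' .nil)) := huy.sub (w₁ := .nil) (w₃ := w₄) (by
    rw [SimpleGraph.Walk.nil_append, g1, ← SimpleGraph.Walk.append_assoc]
    rfl)
  have hsub1 : ∀ z ∈ w₁.support, z ∈ w.support := fun z hz => by
    rw [f1, SimpleGraph.Walk.mem_support_append_iff]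
    exact Or.inl hz
  have hsub4 : ∀ z ∈ w₄.support, z ∈ w.support := fun z hz => by
    rw [f1, SimpleGraph.Walk.mem_support_append_iff, g1, SimpleGraph.Walk.mem_support_append_iff,
      SimpleGraph.Walk.support_cons]
    exact Or.inr (Or.inr (List.mem_cons_of_mem _ hz))
  refine ⟨u, v, w₁, w₄, hw1, hw4, ⟨fun z hz => ⟨(hc.1 z (hsub1 z hz)).1, not_le.1 (f2 z hz)⟩, hlx, by omega⟩,
    ⟨fun z hz => ⟨g2 z hz, (hc.1 z (hsub4 z hz)).2⟩, by omega, hly⟩, hsub1, hsub4, ?_⟩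
  refine (huv.q_dsp Λ ha hτ).trans (Λ.dsp_mono ha le_rfl ?_)
  exact_mod_cast (by omega : Λ.xi v - Λ.xi u ≤ 2 * Λ.L)

/-- ** Composition ** of the front functionals. -/
theorem low_comp (ha : 0 < a) (hτ : Bd a b τ) (hB : 0 ≤ B) {s : ℤ} (hs : Λ.L < s) (ht : Λ.L < t) :
    low Λ τ B (α + s) t (low Λ τ B α s h - Λ.rj B) ≤ low Λ τ B α (s + t) h := by
  have hr := Λ.rj_nonneg ha hB
  refine le_low ?_ fun x y w _ e2 e3 e4 => ?_
  · have h1 := low_le_cap (Λ := Λ) (τ := τ) (B := B) (α := α + s) (t := t) (h := low Λ τ B α s h - Λ.rj B)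
    have h2 := low_le_cap (Λ := Λ) (τ := τ) (B := B) (α := α) (t := s) (h := h)
    push_cast
    linarith
  · obtain ⟨u, v, w₁, w₂, f1, f2, f3, f4, -, -, f5⟩ := Crs.split ha hτ (γ := α + s) (by omega) (by omega) e2 e3
    have h1 := low_le ha hτ w₁ f1 f3 e4
    have h2 := (abs_le.1 f5).1
    refine low_le ha hτ w₂ f2 ?_ (by linarith)
    rwa [add_assoc]

end bd

end Pool.Agent.W_1b8d5d_sc
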