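import Pool.Agent.W_1b8d5d_sc.FRch

/-!
MP_1b8d5d_pr (SC, part P2): from the integer levels to the levels.
-/

set_option autoImplicit false

namespace Pool.Agent.W_1b8d5d_sc

open Finset Pool.Agent.W_1b8d5d_h85 Pool.Agent.W_1b8d5d_fe

variable {a : ℝ} {c : Crd}

/-- The level is a combination of the integer level and the height. -/
theorem Lev.lin (Λ : Lev a c) : ∃ A D : ℝ, (∀ z, lv c z = A * Λ.xi z + D * c.q z) ∧ |A - Λ.kap| ≤ 2 * c.C * Λ.eps * Λ.kap ∧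
    |D| ≤ 4 * c.C * Λ.eps := by
  have hC := c.one_le
  have he := Λ.eps_nonneg
  have hlin : ∀ (f : V →+ ℝ) (z : V), f z = z.1 * f (1, 0) + z.2 * f (0, 1) := by
    intro f z
    have e : z = z.1 • ((1, 0) : V) + z.2 • ((0, 1) : V) := by ext <;> simp
    calc f z = f (z.1 • ((1, 0) : V) + z.2 • ((0, 1) : V)) := by rw [← e]
      _ = z.1 * f (1, 0) + z.2 * f (0, 1) := by rw [map_add, map_zsmul, map_zsmul, zsmul_eq_mul, zsmul_eq_mul]
  have hX : ∀ z : V, (Λ.xi z : ℝ) = z.1 * (Λ.xi (1, 0) : ℤ) + z.2 * (Λ.xi (0, 1) : ℤ) :=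
    fun z => hlin ((Int.castAddHom ℝ).comp Λ.xi) z
  have hq := hlin c.q
  have hl : ∀ z : V, lv c z = z.1 * lv c (1, 0) + z.2 * lv c (0, 1) := by
    intro z
    unfold lv
    rw [hlin c.p z, hlin c.q z]
    ring
  obtain ⟨x₁, hx₁⟩ : ∃ x : ℝ, x = (Λ.xi (1, 0) : ℤ) := ⟨_, rfl⟩
  obtain ⟨x₂, hx₂⟩ : ∃ x : ℝ, x = (Λ.xi (0, 1) : ℤ) := ⟨_, rfl⟩
  obtain ⟨q₁, hq₁⟩ : ∃ x : ℝ, x = c.q (1, 0) := ⟨_, rfl⟩
  obtain ⟨q₂, hq₂⟩ : ∃ x : ℝ, x = c.q (0, 1) := ⟨_, rfl⟩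
  obtain ⟨l₁, hl₁⟩ : ∃ x : ℝ, x = lv c (1, 0) := ⟨_, rfl⟩
  obtain ⟨l₂, hl₂⟩ : ∃ x : ℝ, x = lv c (0, 1) := ⟨_, rfl⟩
  rw [← hx₁, ← hx₂] at hX
  rw [← hq₁, ← hq₂] at hq
  rw [← hl₁, ← hl₂] at hl
  obtain ⟨z₁, e1, e2, -⟩ := Λ.rnd 0 1
  obtain ⟨z₂, e4, -, -⟩ := Λ.rnd 1 0
  have hΔ : x₁ * q₂ - x₂ * q₁ ≠ 0 := by
    intro h0
    have key : (Λ.xi z₂ : ℝ) * c.q z₁ = Λ.xi z₁ * c.q z₂ := by
      rw [hX, hX, hq, hq]
      linear_combination ((z₂.1 : ℝ) * z₁.2 - z₂.2 * z₁.1) * h0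
    rw [e1, e4] at key
    simp only [Int.cast_one, one_mul, Int.cast_zero, zero_mul] at key
    linarith
  refine ⟨(l₁ * q₂ - l₂ * q₁) / (x₁ * q₂ - x₂ * q₁), (x₁ * l₂ - x₂ * l₁) / (x₁ * q₂ - x₂ * q₁), ?_, ?_⟩
  · intro z
    rw [hl, hX, hq, div_mul_eq_mul_div, div_mul_eq_mul_div, ← add_div, eq_div_iff hΔ]
    ring
  · obtain ⟨A, hA⟩ : ∃ A, A = (l₁ * q₂ - l₂ * q₁) / (x₁ * q₂ - x₂ * q₁) := ⟨_, rfl⟩
    obtain ⟨D, hD⟩ : ∃ D, D = (x₁ * l₂ - x₂ * l₁) / (x₁ * q₂ - x₂ * q₁) := ⟨_, rfl⟩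
    rw [← hA, ← hD]
    have hz : ∀ z, lv c z = A * Λ.xi z + D * c.q z := by
      intro z
      rw [hl, hX, hq, hA, hD, div_mul_eq_mul_div, div_mul_eq_mul_div, ← add_div, eq_div_iff hΔ]
      ring
    have hDb : |D| ≤ 4 * c.C * Λ.eps := by
      have f1 := Λ.close z₁
      have f2 := Λ.nm_le_q z₁
      rw [e1] at f1 f2
      simp only [Int.cast_zero, mul_zero, zero_sub, abs_neg, abs_zero, zero_add] at f1 f2
      rw [hz, e1] at f1
      simp only [Int.cast_zero, mul_zero, zero_add] at f1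
      rw [abs_mul] at f1
      have f3 : 0 < |c.q z₁| := by
        rw [abs_of_pos (by linarith)]
        linarith
      have f4 : Λ.eps * nm z₁ ≤ Λ.eps * (2 * c.C * (2 * |c.q z₁|)) := mul_le_mul_of_nonneg_left f2 he
      have f5 : |D| * |c.q z₁| ≤ 4 * c.C * Λ.eps * |c.q z₁| := by linarith
      exact le_of_mul_le_mul_right f5 f3
    refine ⟨?_, hDb⟩
    by_contra hcon
    push Not at hcon
    obtain ⟨δ, hδ⟩ : ∃ δ, δ = |A - Λ.kap| - 2 * c.C * Λ.eps * Λ.kap := ⟨_, rfl⟩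
    have hδ0 : 0 < δ := by rw [hδ]; linarith
    obtain ⟨m, hm⟩ := exists_nat_gt (8 * c.C * Λ.eps * Λ.H / δ)
    rw [div_lt_iff₀ hδ0] at hm
    obtain ⟨z, g1, g2, g3⟩ := Λ.rnd m 0
    have f1 := Λ.close z
    have f2 := Λ.nm_le_q z
    rw [hz, g1] at f1
    rw [g1] at f2
    have hm0 : (0 : ℝ) ≤ m := Nat.cast_nonneg m
    simp only [Int.cast_natCast] at f1 f2
    rw [abs_of_nonneg hm0, abs_of_nonneg g2] at f2
    have f3 : Λ.eps * nm z ≤ Λ.eps * (2 * c.C * (Λ.kap * m + 2 * Λ.H)) :=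
      mul_le_mul_of_nonneg_left (f2.trans (mul_le_mul_of_nonneg_left (by linarith) (by linarith))) he
    have f4 : |(A - Λ.kap) * m| ≤ |Λ.kap * m - (A * m + D * c.q z)| + |D * c.q z| := by
      have := abs_sub (Λ.kap * m - (A * m + D * c.q z)) (-(D * c.q z))
      rw [abs_neg] at this
      refine le_trans (le_of_eq ?_) this
      rw [← abs_neg]
      congr 1
      ring
    have f5 : |D * c.q z| ≤ 4 * c.C * Λ.eps * Λ.H := by
      rw [abs_mul, abs_of_nonneg g2]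
      exact mul_le_mul hDb (by linarith) g2 (by positivity)
    rw [abs_mul, abs_of_nonneg hm0] at f4
    have f6 : |A - Λ.kap| * m = δ * m + 2 * c.C * Λ.eps * Λ.kap * m := by
      rw [hδ]
      ring
    rw [f6] at f4
    nlinarith

/-- Cutting a tube of integer levels at the levels `α`, `α + l`. -/
theorem tb_of_tube {b : ℝ} {Λ : Lev a c} (_ha : 0 < a) {τ : Env} (_hτ : Bd a b τ) {A D : ℝ}
    (hlin : ∀ z, lv c z = A * Λ.xi z + D * c.q z) {B σ h W : ℝ} {α' β' : ℤ} (hT : TubeG Λ B σ h W α' β' τ)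
    (hden : 0 < A + D * σ) (hA : 0 < A) {α l : ℝ} (hl : 2 * c.C ≤ l)
    (h1 : (A + D * σ) * (α' + Λ.L) + D * h + |D| * W < α)
    (h2 : α + l < (A + D * σ) * (β' - Λ.L) + D * h - |D| * W) :
    ∃ (u v : V) (w : grid.Walk u v), Bgd c τ B w ∧ (∀ z ∈ w.support, α ≤ lv c z ∧ lv c z ≤ α + l ∧
      |c.q z - σ / (A + D * σ) * lv c z - A / (A + D * σ) * h| ≤ A / (A + D * σ) * W) ∧ lv c u ≤ α + 2 * c.C ∧
      α + l - 2 * c.C ≤ lv c v := by
  obtain ⟨x, y, w, e1, e2, e3⟩ := hT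
  -- the level in the tube
  have hlev : ∀ z ∈ w.support, |lv c z - ((A + D * σ) * Λ.xi z + D * h)| ≤ |D| * W := by
    intro z hz
    have f1 : lv c z - ((A + D * σ) * Λ.xi z + D * h) = D * (c.q z - σ * Λ.xi z - h) := by
      rw [hlin]
      ring
    rw [f1, abs_mul]
    exact mul_le_mul_of_nonneg_left (e3 z hz) (abs_nonneg _)
  have hx : lv c x < α := by
    have f1 := (abs_le.1 (hlev x w.start_mem_support)).2
    have f2 : (Λ.xi x : ℝ) ≤ α' + Λ.L := by exact_mod_cast e2.2.1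
    have f3 := mul_le_mul_of_nonneg_left f2 hden.le
    linarith
  have hy : α + l < lv c y := by
    have f1 := (abs_le.1 (hlev y w.end_mem_support)).1
    have f2 : (β' : ℝ) - Λ.L ≤ Λ.xi y := by exact_mod_cast e2.2.2
    have f3 := mul_le_mul_of_nonneg_left f2 hden.le
    linarith
  have hstep : ∀ {x y : V}, grid.Adj x y → |lv c y - lv c x| ≤ 2 * c.C := by
    intro x y h
    have h0 : nm (y - x) = 1 := nm_adj h
    have f1 := abs_le.1 (c.p_le (y - x))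
    have f2 := abs_le.1 (c.q_le (y - x))
    rw [h0, map_sub] at f1 f2
    unfold lv
    rw [abs_le]
    constructor <;> linarith [f1.1, f1.2, f2.1, f2.2]
  obtain ⟨u, u', w₁, hadj, w₂, f1, f2, f3⟩ := split_first (fun z => α + l < lv c z) w (by linarith [c.one_le])
    ⟨y, w.end_mem_support, hy⟩
  have hu := f2 u w₁.end_mem_support
  push Not at hu
  have hadj1 := (abs_le.1 (hstep hadj)).2
  obtain ⟨v', v, w₃, hadj', w₄, g1, g2, g3⟩ := split_last (fun z => α ≤ lv c z) w₁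
    ⟨x, w₁.start_mem_support, by linarith⟩ (by linarith [c.one_le])
  push Not at g3
  have hadj2 := (abs_le.1 (hstep hadj')).2
  have hw1 : Bgd c τ B w₁ := e1.sub (w₁ := .nil) (w₃ := .cons hadj w₂) (by rw [SimpleGraph.Walk.nil_append, f1])
  have hw4 : Bgd c τ B w₄ := hw1.sub (w₁ := w₃.append (.cons hadj' .nil)) (w₃ := .nil) (by
    rw [SimpleGraph.Walk.append_nil, g1, ← SimpleGraph.Walk.append_assoc]
    rfl)
  have hsub1 : ∀ z ∈ w₁.support, z ∈ w.support := fun z hz => by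
    rw [f1, SimpleGraph.Walk.mem_support_append_iff]
    exact Or.inl hz
  have hsub4 : ∀ z ∈ w₄.support, z ∈ w₁.support := fun z hz => by
    rw [g1, SimpleGraph.Walk.mem_support_append_iff, SimpleGraph.Walk.support_cons]
    exact Or.inr (List.mem_cons_of_mem _ hz)
  refine ⟨v, u, w₄, hw4, fun z hz => ⟨g2 z hz, not_lt.1 (f2 z (hsub4 z hz)), ?_⟩, by linarith, by linarith⟩
  have k1 : c.q z - σ / (A + D * σ) * lv c z - A / (A + D * σ) * h = A / (A + D * σ) * (c.q z - σ * Λ.xi z - h) := by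
    have hne := hden.ne'
    have hk : ∀ t : ℝ, (A + D * σ) * (t / (A + D * σ)) = t := fun t => mul_div_cancel₀ t hne
    apply mul_left_cancel₀ hne
    calc (A + D * σ) * (c.q z - σ / (A + D * σ) * lv c z - A / (A + D * σ) * h)
        = (A + D * σ) * c.q z - (A + D * σ) * (σ / (A + D * σ)) * lv c z - (A + D * σ) * (A / (A + D * σ)) * h := by ring
      _ = A * (c.q z - σ * Λ.xi z - h) := by
        rw [hk, hk, hlin]
        ring
      _ = (A + D * σ) * (A / (A + D * σ) * (c.q z - σ * Λ.xi z - h)) := by rw [← mul_assoc, hk]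
  rw [k1, abs_mul, abs_of_pos (div_pos hA hden)]
  exact mul_le_mul_of_nonneg_left (e3 z (hsub1 z (hsub4 z hz))) (div_pos hA hden).le

/-- The probability of a tube with real levels (`Tb`), at every position. -/
theorem P_tb {Q : Par} {M : Mdl Q.a Q.b} {Λ : Lev Q.a c} {A D : ℝ} (hlin : ∀ z, lv c z = A * Λ.xi z + D * c.q z)
    {B σ W p : ℝ} {N : ℤ} (hT : ∀ (α' : ℤ) (h' : ℝ), p ≤ M.P (fun τ => TubeG Λ B σ h' W α' (α' + N) τ))
    (hden : 0 < A + D * σ) (hA : 0 < A) {l : ℝ} (hl : 2 * c.C ≤ l)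
    (hN : l + 2 * |D| * W < (A + D * σ) * (N - 2 * Λ.L - 1)) (α β : ℝ) :
    p ≤ M.P (fun τ => ∃ (u v : V) (w : grid.Walk u v), Bgd c τ B w ∧ (∀ z ∈ w.support, α ≤ lv c z ∧ lv c z ≤ α + l ∧
      |c.q z - β - σ / (A + D * σ) * (lv c z - α)| ≤ A / (A + D * σ) * W) ∧ lv c u ≤ α + 2 * c.C ∧
        α + l - 2 * c.C ≤ lv c v) := by
  obtain ⟨h', hh'⟩ : ∃ h' : ℝ, A / (A + D * σ) * h' = β - σ / (A + D * σ) * α := by
    refine ⟨(A + D * σ) / A * (β - σ / (A + D * σ) * α), ?_⟩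
    rw [← mul_assoc, div_mul_div_comm, mul_comm A, div_self (mul_ne_zero hden.ne' hA.ne'), one_mul]
  obtain ⟨α', h1, h2⟩ : ∃ α' : ℤ, (A + D * σ) * (α' + Λ.L) + D * h' + |D| * W < α ∧
      α ≤ (A + D * σ) * (α' + Λ.L + 1) + D * h' + |D| * W := by
    refine ⟨⌈(α - D * h' - |D| * W) / (A + D * σ)⌉ - 1 - Λ.L, ?_, ?_⟩
    · have f1 := Int.ceil_lt_add_one ((α - D * h' - |D| * W) / (A + D * σ))
      have f2 : (⌈(α - D * h' - |D| * W) / (A + D * σ)⌉ : ℝ) - 1 < (α - D * h' - |D| * W) / (A + D * σ) := by linarith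
      rw [lt_div_iff₀ hden] at f2
      push_cast
      nlinarith
    · have f1 := Int.le_ceil ((α - D * h' - |D| * W) / (A + D * σ))
      rw [div_le_iff₀ hden] at f1
      push_cast
      nlinarith
  refine (hT α' h').trans (M.P_mono fun τ hτ hTu => ?_)
  obtain ⟨u, v, w, k1, k2, k3, k4⟩ := tb_of_tube Q.ha hτ hlin hTu hden hA hl h1 (by
    push_cast
    nlinarith)
  refine ⟨u, v, w, k1, fun z hz => ⟨(k2 z hz).1, (k2 z hz).2.1, ?_⟩, k3, k4⟩
  have := (k2 z hz).2.2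
  rw [hh'] at this
  refine le_trans (le_of_eq ?_) this
  congr 1
  ring

end Pool.Agent.W_1b8d5d_sc
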