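import Pool.Agent.W_1b8d5d_fe.Defs
import Pool.Agent.W_1b8d5d_nc.Nl

/-!
MP_1b8d5d_pr (SC, no flat side): from a nondegenerate segment in the boundary of the limit shape to the lattice data
`FlatS` of a maximal flat piece.
-/

set_option autoImplicit false

open Filter Topology

namespace Pool.Agent.W_1b8d5d_sc

open Pool.Agent.W_1b8d5d_h85 Pool.Agent.W_1b8d5d_fe Pool.Agent.W_1b8d5d_nc

variable {Q : Par} {g : V → ℝ} {μ : ℝ × ℝ → ℝ}

theorem Flat_zero (h : NormLike μ) : μ 0 = 0 := by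
  have h2 := h.hom 0 0 le_rfl
  rwa [smul_zero, zero_mul] at h2

/-- `μ` is linear on the cone of a flat piece. -/
theorem flat_cone (h : NormLike μ) {x y : ℝ × ℝ} (hxy : μ (x + y) = μ x + μ y) {α β : ℝ} (hα : 0 ≤ α) (hβ : 0 ≤ β) :
    μ (α • x + β • y) = α * μ x + β * μ y := by
  refine le_antisymm ?_ ?_
  · have h1 := h.add (α • x) (β • y)
    rwa [h.hom α x hα, h.hom β y hβ] at h1
  rcases le_total α β with h0 | h0
  · have h1 := h.add (α • x + β • y) ((β - α) • x)
    have e1 : α • x + β • y + (β - α) • x = β • (x + y) := by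
      rw [sub_smul, smul_add]
      abel
    rw [e1, h.hom β _ hβ, h.hom (β - α) x (by linarith), hxy] at h1
    linarith
  · have h1 := h.add (α • x + β • y) ((α - β) • y)
    have e1 : α • x + β • y + (α - β) • y = α • (x + y) := by
      rw [sub_smul, smul_add]
      abel
    rw [e1, h.hom α _ hα, h.hom (α - β) y (by linarith), hxy] at h1
    linarith

/-- The linear form of a flat piece is a supporting one. -/
theorem flat_form (h : NormLike μ) {x y : ℝ × ℝ} (hxy : μ (x + y) = μ x + μ y) (α β : ℝ) :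
    α * μ x + β * μ y ≤ μ (α • x + β • y) := by
  obtain ⟨s, hs0, hs1, hs2⟩ : ∃ s : ℝ, 0 ≤ s ∧ 0 ≤ α + s ∧ 0 ≤ β + s :=
    ⟨|α| + |β|, by positivity, by linarith [neg_abs_le α, abs_nonneg β], by linarith [neg_abs_le β, abs_nonneg α]⟩
  have h1 := h.add (α • x + β • y) (s • (x + y))
  have e1 : α • x + β • y + s • (x + y) = (α + s) • x + (β + s) • y := by
    rw [add_smul, add_smul, smul_add]
    abel
  rw [e1, flat_cone h hxy hs1 hs2, h.hom s _ hs0, hxy] at h1
  linarith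

/-- A maximal flat piece, with its end points `v₁, v₂`. -/
theorem exists_max_flat (h : NormLike μ) (hc : Continuous μ) {x y : ℝ × ℝ} (hd : dt x y ≠ 0)
    (hxy : μ (x + y) = μ x + μ y) :
    ∃ v₁ v₂ : ℝ × ℝ, dt v₁ v₂ ≠ 0 ∧ μ v₁ = 1 ∧ μ v₂ = 1 ∧ μ (v₁ + v₂) = 2 ∧
      ∀ p q : ℝ, μ (p • v₁ + q • v₂) = p + q → 0 ≤ p ∧ 0 ≤ q := by
  have hx0 : x ≠ 0 := by
    rintro rfl
    exact hd (by simp [dt])
  have hy0 : y ≠ 0 := by
    rintro rfl
    exact hd (by simp [dt])
  have hmx := h.pos x hx0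
  have hmy := h.pos y hy0
  -- normalisation
  obtain ⟨x', hx'⟩ : ∃ x' : ℝ × ℝ, x' = (μ x)⁻¹ • x := ⟨_, rfl⟩
  obtain ⟨y', hy'⟩ : ∃ y' : ℝ × ℝ, y' = (μ y)⁻¹ • y := ⟨_, rfl⟩
  have hx1 : μ x' = 1 := by rw [hx', h.hom _ _ (by positivity), inv_mul_cancel₀ hmx.ne']
  have hy1 : μ y' = 1 := by rw [hy', h.hom _ _ (by positivity), inv_mul_cancel₀ hmy.ne']
  have hxy1 : μ (x' + y') = μ x' + μ y' := by
    rw [hx1, hy1, hx', hy', flat_cone h hxy (by positivity) (by positivity), inv_mul_cancel₀ hmx.ne',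
      inv_mul_cancel₀ hmy.ne']
  have hd1 : dt x' y' ≠ 0 := by
    have e1 : dt x' y' = (μ x)⁻¹ * (μ y)⁻¹ * dt x y := by
      rw [hx', hy']
      simp only [dt, Prod.smul_fst, Prod.smul_snd, smul_eq_mul]
      ring
    rw [e1]
    exact mul_ne_zero (mul_ne_zero (inv_ne_zero hmx.ne') (inv_ne_zero hmy.ne')) hd
  clear hx' hy'
  -- the line
  obtain ⟨e, he⟩ : ∃ e : ℝ × ℝ, e = y' - x' := ⟨_, rfl⟩
  have hline : ∀ t : ℝ, x' + t • e = (1 - t) • x' + t • y' := by
    intro t
    rw [he, sub_smul, smul_sub, one_smul]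
    abel
  have hge : ∀ t : ℝ, 1 ≤ μ (x' + t • e) := by
    intro t
    have h1 := flat_form h hxy1 (1 - t) t
    rw [hx1, hy1, ← hline] at h1
    linarith
  have he0 : e ≠ 0 := by
    intro h0
    apply hd1
    have : y' = x' := by
      rw [he] at h0
      exact sub_eq_zero.1 h0
    rw [this]
    simp only [dt]
    ring
  have hme := h.pos e he0
  set T : Set ℝ := {t | μ (x' + t • e) ≤ 1} with hT
  have hcont : Continuous fun t : ℝ => μ (x' + t • e) := by fun_prop
  have hTc : IsClosed T := isClosed_le hcont continuous_const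
  have h0T : (0 : ℝ) ∈ T := by
    show μ (x' + (0 : ℝ) • e) ≤ 1
    rw [zero_smul, add_zero, hx1]
  have h1T : (1 : ℝ) ∈ T := by
    show μ (x' + (1 : ℝ) • e) ≤ 1
    rw [one_smul, he, add_sub_cancel, hy1]
  have hbd : ∀ t ∈ T, |t| ≤ 2 / μ e := by
    intro t ht
    have ht' : μ (x' + t • e) ≤ 1 := ht
    rw [le_div_iff₀ hme]
    have h1 : μ (t • e) = |t| * μ e := by
      rcases le_total 0 t with h0 | h0
      · rw [abs_of_nonneg h0, h.hom t e h0]
      · rw [abs_of_nonpos h0, ← h.hom (-t) e (by linarith), neg_smul, h.neg]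
    have h2 := h.add (x' + t • e) (-x')
    have e1 : x' + t • e + -x' = t • e := by abel
    rw [e1, h1, h.neg, hx1] at h2
    linarith
  have hbb : BddBelow T := ⟨-(2 / μ e), fun t ht => (abs_le.1 (hbd t ht)).1⟩
  have hba : BddAbove T := ⟨2 / μ e, fun t ht => (abs_le.1 (hbd t ht)).2⟩
  obtain ⟨t₁, ht₁⟩ : ∃ t₁ : ℝ, t₁ = sInf T := ⟨_, rfl⟩
  obtain ⟨t₂, ht₂⟩ : ∃ t₂ : ℝ, t₂ = sSup T := ⟨_, rfl⟩
  have h1m : t₁ ∈ T := by rw [ht₁]; exact hTc.csInf_mem ⟨0, h0T⟩ hbb
  have h2m : t₂ ∈ T := by rw [ht₂]; exact hTc.csSup_mem ⟨0, h0T⟩ hba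
  have hl1 : ∀ t ∈ T, t₁ ≤ t := fun t ht => by rw [ht₁]; exact csInf_le hbb ht
  have hl2 : ∀ t ∈ T, t ≤ t₂ := fun t ht => by rw [ht₂]; exact le_csSup hba ht
  have ht12 : t₁ < t₂ := by
    have a1 := hl1 0 h0T
    have a2 := hl2 1 h1T
    linarith
  have hv1 : μ (x' + t₁ • e) = 1 := le_antisymm h1m (hge t₁)
  have hv2 : μ (x' + t₂ • e) = 1 := le_antisymm h2m (hge t₂)
  have hdxe : dt x' e = dt x' y' := by
    rw [he]
    simp only [dt, Prod.fst_sub, Prod.snd_sub]
    ring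
  refine ⟨x' + t₁ • e, x' + t₂ • e, ?_, hv1, hv2, ?_, ?_⟩
  · have e1 : dt (x' + t₁ • e) (x' + t₂ • e) = (t₂ - t₁) * dt x' e := by
      simp only [dt, Prod.fst_add, Prod.snd_add, Prod.smul_fst, Prod.smul_snd, smul_eq_mul]
      ring
    rw [e1, hdxe]
    exact mul_ne_zero (by linarith) hd1
  · refine le_antisymm ?_ ?_
    · have h1 := h.add (x' + t₁ • e) (x' + t₂ • e)
      rw [hv1, hv2] at h1
      linarith
    · have e1 : x' + t₁ • e + (x' + t₂ • e) = (2 : ℝ) • (x' + ((t₁ + t₂) / 2) • e) := by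
        rw [smul_add, smul_smul, two_smul, mul_div_cancel₀ _ (by norm_num : (2 : ℝ) ≠ 0), add_smul]
        abel
      rw [e1, h.hom 2 _ (by norm_num)]
      linarith [hge ((t₁ + t₂) / 2)]
  · intro p q hpq
    have hpq0 : 0 ≤ p + q := by rw [← hpq]; exact h.nonneg _
    rcases hpq0.eq_or_lt with h0 | h0
    · -- the vector is zero
      have hz : p • (x' + t₁ • e) + q • (x' + t₂ • e) = 0 := by
        by_contra hne
        have := h.pos _ hne
        rw [hpq, ← h0] at this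
        exact lt_irrefl _ this
      have hq : q = -p := by linarith
      have hz2 : (p * (t₁ - t₂)) • e = 0 := by
        rw [← hz, hq, mul_smul, sub_smul, smul_sub, smul_add, smul_add, neg_smul, neg_smul]
        abel
      have hp0 : p * (t₁ - t₂) = 0 := by
        rcases smul_eq_zero.1 hz2 with h1 | h1
        · exact h1
        · exact absurd h1 he0
      have hp : p = 0 := by
        rcases mul_eq_zero.1 hp0 with h1 | h1
        · exact h1
        · linarith
      rw [hq, hp]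
      simp
    · set s : ℝ := p + q with hs
      have e1 : p • (x' + t₁ • e) + q • (x' + t₂ • e) = s • (x' + ((p * t₁ + q * t₂) / s) • e) := by
        rw [smul_add s, smul_smul s, mul_div_cancel₀ _ h0.ne', hs, add_smul, smul_add, smul_add, add_smul, mul_smul,
          mul_smul]
        abel
      rw [e1, h.hom s _ h0.le] at hpq
      have h1 : μ (x' + ((p * t₁ + q * t₂) / s) • e) = 1 := by
        have h2 : s * (μ (x' + ((p * t₁ + q * t₂) / s) • e) - 1) = 0 := by linarith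
        rcases mul_eq_zero.1 h2 with h3 | h3
        · exact absurd h3 h0.ne'
        · linarith
      have h2 : (p * t₁ + q * t₂) / s ∈ T := h1.le
      have h3 := hl1 _ h2
      have h4 := hl2 _ h2
      rw [le_div_iff₀ h0] at h3
      rw [div_le_iff₀ h0] at h4
      constructor
      · have h5 : 0 ≤ p * (t₂ - t₁) := by rw [hs] at h4; linarith
        exact nonneg_of_mul_nonneg_left h5 (by linarith)
      · have h5 : 0 ≤ q * (t₂ - t₁) := by rw [hs] at h3; linarith
        exact nonneg_of_mul_nonneg_left h5 (by linarith)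

/-- **A segment in the boundary of the limit shape gives a maximal flat piece in lattice coordinates.** -/
theorem exists_flat (hg : IsMean Q g) (hc : Continuous μ)
    (hom : ∀ (c : ℝ) (x : ℝ × ℝ), 0 ≤ c → μ (c • x) = c * μ x)
    (hlim : ∀ x : V, Tendsto (fun n : ℕ => g (n • x) / n) atTop (𝓝 (μ (toR x)))) {x y : ℝ × ℝ} (hd : dt x y ≠ 0)
    (hxy : μ (x + y) = μ x + μ y) : ∃ c : Crd, FlatS g c := by
  have h : NormLike μ := normLike hg hc hom hlim
  obtain ⟨v₁, v₂, hdv, hm1, hm2, hm12, hmax⟩ := exists_max_flat h hc hd hxy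
  have hv : μ (v₁ + v₂) = μ v₁ + μ v₂ := by rw [hm1, hm2, hm12]; norm_num
  obtain ⟨c, hp, hq⟩ := exists_crd hdv
  have hdec : ∀ w : ℝ × ℝ, w = (dt w v₂ / dt v₁ v₂) • v₁ + (dt v₁ w / dt v₁ v₂) • v₂ := fun w => cramer hdv w
  have hlow : ∀ w : ℝ × ℝ, dt w v₂ / dt v₁ v₂ + dt v₁ w / dt v₁ v₂ ≤ μ w := by
    intro w
    have h1 := flat_form h hv (dt w v₂ / dt v₁ v₂) (dt v₁ w / dt v₁ v₂)
    rw [← hdec, hm1, hm2, mul_one, mul_one] at h1
    exact h1
  have hlv : ∀ z, lv c z = dt (toR z) v₂ / dt v₁ v₂ + dt v₁ (toR z) / dt v₁ v₂ := by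
    intro z
    unfold lv
    rw [hp, hq]
  refine ⟨c, ⟨fun z => ?_, fun ε hε => ?_, fun η hη => ?_⟩⟩
  · rw [hlv]
    exact (hlow _).trans (mu_le hg hlim z)
  · -- the compact set
    set f : ℝ × ℝ → ℝ := fun w => μ w - (dt w v₂ / dt v₁ v₂ + dt v₁ w / dt v₁ v₂) with hf
    have hfc : Continuous f := by
      unfold f dt
      fun_prop
    set K : Set (ℝ × ℝ) := {w | rn w = 1 ∧ ε ≤ max (-(dt w v₂ / dt v₁ v₂)) (-(dt v₁ w / dt v₁ v₂))} with hK
    have hKc : IsCompact K := by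
      refine (isCompact_closedBall (0 : ℝ × ℝ) 1).of_isClosed_subset ?_ ?_
      · have hA : IsClosed {w : ℝ × ℝ | rn w = 1} := isClosed_eq continuous_rn continuous_const
        have hB : IsClosed {w : ℝ × ℝ | ε ≤ max (-(dt w v₂ / dt v₁ v₂)) (-(dt v₁ w / dt v₁ v₂))} := by
          refine isClosed_le continuous_const ?_
          unfold dt
          fun_prop
        exact hA.inter hB
      · rintro w ⟨hw, -⟩
        rw [Metric.mem_closedBall, dist_zero_right, Prod.norm_def, Real.norm_eq_abs, Real.norm_eq_abs]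
        unfold rn at hw
        exact max_le (by linarith [abs_nonneg w.2]) (by linarith [abs_nonneg w.1])
    have hfpos : ∀ w ∈ K, 0 < f w := by
      rintro w ⟨hw, hw2⟩
      have h1 := hlow w
      refine lt_of_le_of_ne (by simp only [hf]; linarith) ?_
      intro h0
      have h2 := hmax (dt w v₂ / dt v₁ v₂) (dt v₁ w / dt v₁ v₂) (by
        rw [← hdec]
        simp only [hf] at h0
        linarith)
      have h3 : max (-(dt w v₂ / dt v₁ v₂)) (-(dt v₁ w / dt v₁ v₂)) ≤ 0 :=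
        max_le (by linarith [h2.1]) (by linarith [h2.2])
      linarith
    obtain ⟨c₀, hc₀, hmin⟩ : ∃ c₀ : ℝ, 0 < c₀ ∧ ∀ w ∈ K, c₀ ≤ f w := by
      rcases K.eq_empty_or_nonempty with h0 | h0
      · exact ⟨1, one_pos, fun w hw => by rw [h0] at hw; exact absurd hw (Set.notMem_empty _)⟩
      · obtain ⟨w₀, hw₀, hw₁⟩ := hKc.exists_isMinOn h0 hfc.continuousOn
        exact ⟨f w₀, hfpos w₀ hw₀, fun w hw => hw₁ hw⟩
    refine ⟨c₀, hc₀, fun z hz => ?_⟩
    by_cases hz0 : z = 0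
    · subst hz0
      have e1 : nm (0 : V) = 0 := by simp [nm]
      have e2 : lv c 0 = 0 := by unfold lv; rw [map_zero, map_zero]; norm_num
      rw [e1, e2, hg.zero]
      simp
    have hn : 0 < nm z := by
      rw [nm_eq_rn]
      refine lt_of_le_of_ne (rn_nonneg _) fun h0 => hz0 ?_
      have h1 := rn_eq_zero.1 h0.symm
      unfold toR at h1
      rw [Prod.mk_eq_zero] at h1
      exact Prod.ext (by exact_mod_cast h1.1) (by exact_mod_cast h1.2)
    set w : ℝ × ℝ := (nm z)⁻¹ • toR z with hw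
    have hzw : toR z = nm z • w := by rw [hw, smul_smul, mul_inv_cancel₀ hn.ne', one_smul]
    have d1 : dt (toR z) v₂ / dt v₁ v₂ = nm z * (dt w v₂ / dt v₁ v₂) := by
      rw [hzw]
      simp only [dt, Prod.smul_fst, Prod.smul_snd, smul_eq_mul]
      ring
    have d2 : dt v₁ (toR z) / dt v₁ v₂ = nm z * (dt v₁ w / dt v₁ v₂) := by
      rw [hzw]
      simp only [dt, Prod.smul_fst, Prod.smul_snd, smul_eq_mul]
      ring
    have hwK : w ∈ K := by
      refine ⟨?_, ?_⟩
      · rw [hw, rn_smul, abs_of_pos (by positivity), ← nm_eq_rn, inv_mul_cancel₀ hn.ne']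
      · rw [hp, hq, d1, d2] at hz
        have h1 : max (-(nm z * (dt w v₂ / dt v₁ v₂))) (-(nm z * (dt v₁ w / dt v₁ v₂))) =
            nm z * max (-(dt w v₂ / dt v₁ v₂)) (-(dt v₁ w / dt v₁ v₂)) := by
          rw [mul_max_of_nonneg _ _ hn.le]
          congr 1 <;> ring
        rw [h1, mul_comm] at hz
        exact le_of_mul_le_mul_left hz hn
    have h1 := hmin w hwK
    have h2 := mu_le hg hlim z
    have h3 : μ (toR z) = nm z * μ w := by rw [hzw, hom _ _ hn.le]
    rw [hlv, d1, d2]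
    have h4 := mul_le_mul_of_nonneg_left h1 hn.le
    simp only [hf] at h4
    linarith
  · obtain ⟨N, hN⟩ := g_le_mu hg hc hom hlim hη
    refine ⟨N, fun z hz h1 h2 => ?_⟩
    have h3 := hN z hz
    have h4 : μ (toR z) = lv c z := by
      rw [hp] at h1
      rw [hq] at h2
      have h5 := flat_cone h hv h1 h2
      rw [← hdec, hm1, hm2, mul_one, mul_one] at h5
      rw [h5, hlv]
    linarith

end Pool.Agent.W_1b8d5d_sc
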