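import Pool.Agent.W_1b8d5d_fe.Cv

/-!
MP_1b8d5d_pr (SC, section 10): the passage times inside thin sets of edges are not concentrated on bounded intervals.
-/

set_option autoImplicit false

namespace Pool.Agent.W_1b8d5d_sc

open Finset Pool.Agent.W_1b8d5d_h85 Pool.Agent.W_1b8d5d_fe

private lemma Fluct_exp : Real.exp (1 / 2) ≤ 2 := by
  have h2 := Real.add_one_le_exp (-(1 / 2 : ℝ))
  have h3 : Real.exp (1 / 2) * Real.exp (-(1 / 2)) = 1 := by
    rw [← Real.exp_add]; simp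
  have h4 := mul_le_mul_of_nonneg_left h2 (Real.exp_pos (1 / 2 : ℝ)).le
  rw [h3] at h4
  linarith

/-- Lowering the weights of the edges of `H` lowers the cost of a path which contains them. -/
private lemma Fluct_drop {τ τ' : Env} {x y : V} {w : grid.Walk x y} (hw : w.IsPath) (hle : ∀ e, τ' e ≤ τ e)
    (H : Finset Edge) (hH : ∀ e ∈ H, e ∈ wedges w) :
    cost τ' w ≤ cost τ w - ∑ e ∈ H, (τ e - τ' e) := by
  classical
  rw [cost_path τ' hw, cost_path τ hw]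
  have h1 : H ⊆ (wedges w).toFinset := fun e he => List.mem_toFinset.2 (hH e he)
  have h2 : ∑ e ∈ H, (τ e - τ' e) ≤ ∑ e ∈ (wedges w).toFinset, (τ e - τ' e) :=
    Finset.sum_le_sum_of_subset_of_nonneg h1 fun e _ _ => sub_nonneg.2 (hle e)
  rw [Finset.sum_sub_distrib (s := (wedges w).toFinset)] at h2
  linarith

private lemma Fluct_high {su : ℝ} {τ : Env} {x y : V} {w : grid.Walk x y} (hw : w.IsPath) :
    (((wedges w).toFinset.filter fun e => su ≤ τ e).card : ℝ) = nHigh su τ w := by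
  classical
  unfold nHigh
  have h1 : (wedges w).toFinset.filter (fun e => su ≤ τ e) = ((wedges w).filter fun e => su ≤ τ e).toFinset := by
    ext e
    simp
  rw [h1, List.toFinset_card_of_nodup ((wedges_nodup hw).filter _)]

/-- The passage time from `x` to `y` has a mean positive excess over `L (y - x) ≤ g (y - x)` larger than `C₁`, or the probability of a
crossing from `x` to `y` inside a set of `ε s²` edges with an excess at most `C₁` is smaller than `p₀`.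
PROOF. Otherwise: on the event choose such a path `w`; at least half of its `≥ κ s` edges are high (`Good.peierls`, probability `p₀ / 4`
lost); the tilt kernel with `d = c₀ / √(card F + 1)` lowers the cost of `w` by `(su - sl) d κ s / 8 ≥ c / √ε`.  So
`T ≤ L + C₁ - Y` with probability at least `p₀ / 4` and `E (T - L) ≤ C₁ - Y p₀ / 4 + ..` contradicts `E T ≥ g - 1`. -/
theorem fluct (Q : Par) (g L : V → ℝ) (hl : ∀ z, L z ≤ g z) (C₁ p₀ κ : ℝ) (hp : 0 < p₀) (hκ : 0 < κ) :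
    ∃ ε s₀ : ℝ, 0 < ε ∧ 1 ≤ s₀ ∧ ∀ (s R : ℝ) (M : Mdl Q.a Q.b) (x y : V) (F : Finset Edge), s₀ ≤ s → Good Q g R M →
      κ * s ≤ nm (y - x) → nm (y - x) ≤ R → nm x ≤ R → (∀ e ∈ F, nm e.1 ≤ R) → (F.card : ℝ) ≤ ε * s ^ 2 → (F.card : ℝ) ≤ R →
      M.E (fun τ => max (T τ x y - L (y - x)) 0) ≤ C₁ →
      M.P (fun τ => ∃ w : grid.Walk x y, w.IsPath ∧ (∀ e ∈ wedges w, e ∈ F) ∧ cost τ w ≤ L (y - x) + C₁) < p₀ := by
  classical
  have ha := Q.ha
  have hab := Q.hab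
  have hK := Q.hK
  have hpl := Q.hpl
  have hsl : 0 < Q.su - Q.sl := by linarith [Q.hs]
  -- the number of steps of Peierls
  obtain ⟨l, hl1, hl2⟩ : ∃ l : ℕ, 1 ≤ l ∧ Q.K * (1 / 2) ^ l ≤ p₀ / 4 := by
    obtain ⟨n, hn⟩ := exists_pow_lt_of_lt_one (show 0 < p₀ / 4 / Q.K by positivity) (show (1 / 2 : ℝ) < 1 by norm_num)
    refine ⟨n + 1, by omega, ?_⟩
    have h1 : (1 / 2 : ℝ) ^ (n + 1) ≤ (1 / 2) ^ n := pow_le_pow_of_le_one (by norm_num) (by norm_num) (by omega)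
    have h2 : (1 / 2 : ℝ) ^ (n + 1) ≤ p₀ / 4 / Q.K := h1.trans hn.le
    rw [le_div_iff₀ (by linarith)] at h2
    linarith
  obtain ⟨m, hm⟩ : ∃ m : ℕ, 2 * (1 / 2 : ℝ) ^ m * 2 ≤ p₀ / 8 := by
    obtain ⟨n, hn⟩ := exists_pow_lt_of_lt_one (show 0 < p₀ / 32 by positivity) (show (1 / 2 : ℝ) < 1 by norm_num)
    exact ⟨n, by linarith⟩
  have hm0 : (0 : ℝ) ≤ m := Nat.cast_nonneg _
  -- the intensity
  obtain ⟨c₀, hc₀, hc₁, hc₂, hc₃⟩ : ∃ x : ℝ, 0 < x ∧ x ≤ 1 / 2 ∧ m * x ≤ Q.pl ∧ Q.K * m ^ 2 * x ^ 2 ≤ 1 / 2 := by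
    refine ⟨min (1 / 2) (min (Q.pl / (m + 1)) (1 / (2 * Q.K * (m + 1) ^ 2))), by positivity, min_le_left _ _, ?_, ?_⟩
    · have h1 : min (1 / 2) (min (Q.pl / (m + 1)) (1 / (2 * Q.K * (m + 1) ^ 2))) ≤ Q.pl / (m + 1) :=
        (min_le_right _ _).trans (min_le_left _ _)
      calc (m : ℝ) * min (1 / 2) (min (Q.pl / (m + 1)) (1 / (2 * Q.K * (m + 1) ^ 2))) ≤ (m + 1) * (Q.pl / (m + 1)) :=
            mul_le_mul (by linarith) h1 (by positivity) (by linarith)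
        _ = Q.pl := by field_simp
    · have h1 : min (1 / 2) (min (Q.pl / (m + 1)) (1 / (2 * Q.K * (m + 1) ^ 2))) ≤ 1 / (2 * Q.K * (m + 1) ^ 2) :=
        (min_le_right _ _).trans (min_le_right _ _)
      have h0 : 0 < min (1 / 2) (min (Q.pl / (m + 1)) (1 / (2 * Q.K * (m + 1) ^ 2))) := by positivity
      have h2 : min (1 / 2) (min (Q.pl / (m + 1)) (1 / (2 * Q.K * (m + 1) ^ 2))) ≤ 1 / 2 := min_le_left _ _
      set x := min (1 / 2) (min (Q.pl / (m + 1)) (1 / (2 * Q.K * (m + 1) ^ 2))) with hx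
      have h3 : x ^ 2 ≤ x := by nlinarith
      have h4 : (m : ℝ) ^ 2 ≤ (m + 1) ^ 2 := by nlinarith
      have hK0 : 0 < Q.K := by linarith
      calc Q.K * m ^ 2 * x ^ 2 ≤ Q.K * (m + 1) ^ 2 * (1 / (2 * Q.K * (m + 1) ^ 2)) := by
            refine mul_le_mul (mul_le_mul_of_nonneg_left h4 hK0.le) (h3.trans h1) (by positivity) (by positivity)
        _ = 1 / 2 := by field_simp
  -- the size of the drop
  obtain ⟨D, hD0, hD1, hD2⟩ : ∃ D : ℝ, 0 < D ∧ Real.exp (-(D / 16)) ≤ p₀ / 8 ∧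
      4 * (C₁ + 1) / p₀ < (Q.su - Q.sl) * (D / 4) - C₁ := by
    refine ⟨max (max (16 * (8 / p₀)) (4 * (4 * (|C₁| + 1) / p₀ + |C₁| + 1) / (Q.su - Q.sl))) 1, by positivity, ?_, ?_⟩
    · have h1 : 16 * (8 / p₀) ≤ max (max (16 * (8 / p₀)) (4 * (4 * (|C₁| + 1) / p₀ + |C₁| + 1) / (Q.su - Q.sl))) 1 :=
        (le_max_left _ _).trans (le_max_left _ _)
      set D := max (max (16 * (8 / p₀)) (4 * (4 * (|C₁| + 1) / p₀ + |C₁| + 1) / (Q.su - Q.sl))) 1
      have h2 : 8 / p₀ ≤ D / 16 := by linarith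
      have h3 := Real.add_one_le_exp (D / 16)
      rw [Real.exp_neg]
      have h4 : 8 / p₀ ≤ Real.exp (D / 16) := by linarith
      have h5 : (8 / p₀)⁻¹ = p₀ / 8 := by rw [inv_div]
      rw [← h5]
      exact inv_anti₀ (by positivity) h4
    · have h1 : 4 * (4 * (|C₁| + 1) / p₀ + |C₁| + 1) / (Q.su - Q.sl) ≤
          max (max (16 * (8 / p₀)) (4 * (4 * (|C₁| + 1) / p₀ + |C₁| + 1) / (Q.su - Q.sl))) 1 :=
        (le_max_right _ _).trans (le_max_left _ _)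
      set D := max (max (16 * (8 / p₀)) (4 * (4 * (|C₁| + 1) / p₀ + |C₁| + 1) / (Q.su - Q.sl))) 1
      rw [div_le_iff₀ hsl] at h1
      have h2 : C₁ ≤ |C₁| := le_abs_self _
      have h3 : 4 * (C₁ + 1) / p₀ ≤ 4 * (|C₁| + 1) / p₀ := by
        refine div_le_div_of_nonneg_right (by linarith) hp.le
      have h4 : (Q.su - Q.sl) * (D / 4) = D * (Q.su - Q.sl) / 4 := by ring
      rw [h4]
      linarith
  have hn2 : 0 < p₀ := hp
  refine ⟨(c₀ * κ / (2 * D)) ^ 2 / 2, max 1 (max (2 * D / (c₀ * κ) * 2) (l / κ)), by positivity, le_max_left _ _, ?_⟩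
  intro s R M x y F hs hG hxy hyR hxR hFR hFc hFR' hE
  have hs1 : 1 ≤ s := (le_max_left _ _).trans hs
  have hs2 : 2 * D / (c₀ * κ) * 2 ≤ s := (le_max_left _ _).trans ((le_max_right _ _).trans hs)
  have hs3 : l / κ ≤ s := (le_max_right _ _).trans ((le_max_right _ _).trans hs)
  have hs0 : 0 < s := by linarith
  -- the tilt
  obtain ⟨d, hd⟩ : ∃ d : ℝ, d = c₀ / Real.sqrt (F.card + 1) := ⟨_, rfl⟩
  have hF0 : (0 : ℝ) ≤ F.card := Nat.cast_nonneg _
  have hq : 1 ≤ Real.sqrt (F.card + 1) := by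
    rw [Real.one_le_sqrt]
    linarith
  have hqq : Real.sqrt (F.card + 1) ^ 2 = F.card + 1 := Real.sq_sqrt (by linarith)
  have hd0 : 0 ≤ d := by rw [hd]; positivity
  have hdc : d ≤ c₀ := by rw [hd]; exact div_le_self hc₀.le hq
  have hmd : m * d ≤ Q.pl := (mul_le_mul_of_nonneg_left hdc hm0).trans hc₂
  have hexp : Real.exp (Q.K * m ^ 2 * d ^ 2 * F.card) ≤ 2 := by
    refine (Real.exp_le_exp.2 ?_).trans Fluct_exp
    have h1 : d ^ 2 * F.card ≤ c₀ ^ 2 := by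
      rw [hd, div_pow, hqq, div_mul_eq_mul_div, div_le_iff₀ (by linarith)]
      nlinarith [sq_nonneg c₀]
    calc Q.K * m ^ 2 * d ^ 2 * F.card = Q.K * m ^ 2 * (d ^ 2 * F.card) := by ring
      _ ≤ Q.K * m ^ 2 * c₀ ^ 2 := mul_le_mul_of_nonneg_left h1 (by positivity)
      _ ≤ 1 / 2 := hc₃
  -- the drop
  have hdk : D ≤ d * (κ * s / 2) := by
    have h1 : Real.sqrt (F.card + 1) ≤ c₀ * κ / (2 * D) * s := by
      rw [Real.sqrt_le_left (by positivity)]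
      have h2 : 1 ≤ (c₀ * κ / (2 * D)) ^ 2 / 2 * s ^ 2 := by
        have h3 : 2 ≤ c₀ * κ / (2 * D) * s := by
          have h4 : c₀ * κ / (2 * D) * (2 * D / (c₀ * κ) * 2) ≤ c₀ * κ / (2 * D) * s :=
            mul_le_mul_of_nonneg_left hs2 (by positivity)
          have h5 : c₀ * κ / (2 * D) * (2 * D / (c₀ * κ) * 2) = 2 := by field_simp
          linarith
        nlinarith
      have h6 : (c₀ * κ / (2 * D)) ^ 2 / 2 * s ^ 2 + (c₀ * κ / (2 * D)) ^ 2 / 2 * s ^ 2 = (c₀ * κ / (2 * D) * s) ^ 2 := by ring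
      linarith
    rw [hd, div_mul_eq_mul_div, le_div_iff₀ (by linarith)]
    calc D * Real.sqrt (F.card + 1) ≤ D * (c₀ * κ / (2 * D) * s) := mul_le_mul_of_nonneg_left h1 hD0.le
      _ = c₀ * (κ * s / 2) := by field_simp
  by_contra hcon
  push Not at hcon
  -- the good event
  have hpei := hG.peierls x l hxR hl1
  have hgood : p₀ - p₀ / 4 ≤ M.P (fun τ => (∃ w : grid.Walk x y, w.IsPath ∧ (∀ e ∈ wedges w, e ∈ F) ∧ cost τ w ≤ L (y - x) + C₁) ∧
      ¬ ∃ (y : V) (w : grid.Walk x y), w.IsPath ∧ l ≤ w.length ∧ (w.length : ℝ) ≤ R ∧ (nHigh Q.su τ w : ℝ) < w.length / 2) := by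
    have h1 := M.P_or (fun τ => (∃ w : grid.Walk x y, w.IsPath ∧ (∀ e ∈ wedges w, e ∈ F) ∧ cost τ w ≤ L (y - x) + C₁) ∧
      ¬ ∃ (y : V) (w : grid.Walk x y), w.IsPath ∧ l ≤ w.length ∧ (w.length : ℝ) ≤ R ∧ (nHigh Q.su τ w : ℝ) < w.length / 2)
      (fun τ => ∃ (y : V) (w : grid.Walk x y), w.IsPath ∧ l ≤ w.length ∧ (w.length : ℝ) ≤ R ∧ (nHigh Q.su τ w : ℝ) < w.length / 2)
    have h2 : M.P (fun τ => ∃ w : grid.Walk x y, w.IsPath ∧ (∀ e ∈ wedges w, e ∈ F) ∧ cost τ w ≤ L (y - x) + C₁) ≤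
      M.P (fun τ => ((∃ w : grid.Walk x y, w.IsPath ∧ (∀ e ∈ wedges w, e ∈ F) ∧ cost τ w ≤ L (y - x) + C₁) ∧
      ¬ ∃ (y : V) (w : grid.Walk x y), w.IsPath ∧ l ≤ w.length ∧ (w.length : ℝ) ≤ R ∧ (nHigh Q.su τ w : ℝ) < w.length / 2) ∨
      ∃ (y : V) (w : grid.Walk x y), w.IsPath ∧ l ≤ w.length ∧ (w.length : ℝ) ≤ R ∧ (nHigh Q.su τ w : ℝ) < w.length / 2) := by
      refine M.P_mono fun τ _ h => ?_
      by_cases h3 : ∃ (y : V) (w : grid.Walk x y), w.IsPath ∧ l ≤ w.length ∧ (w.length : ℝ) ≤ R ∧ (nHigh Q.su τ w : ℝ) < w.length / 2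
      · exact Or.inr h3
      · exact Or.inl ⟨h, h3⟩
    linarith
  -- the chosen path
  have hch : ∀ ω : M.Ω, ∃ H : Finset Edge, ((∃ w : grid.Walk x y, w.IsPath ∧ (∀ e ∈ wedges w, e ∈ F) ∧ cost (M.env ω) w ≤ L (y - x) + C₁) ∧
      ¬ ∃ (y : V) (w : grid.Walk x y), w.IsPath ∧ l ≤ w.length ∧ (w.length : ℝ) ≤ R ∧ (nHigh Q.su (M.env ω) w : ℝ) < w.length / 2) →
      (H ⊆ F ∧ (∀ e ∈ H, Q.su ≤ M.env ω e) ∧ κ * s / 2 ≤ (H.card : ℝ)) ∧
      ∀ τ' : Env, Bd Q.a Q.b τ' → (∀ e, τ' e ≤ M.env ω e) → T τ' x y ≤ L (y - x) + C₁ - ∑ e ∈ H, (M.env ω e - τ' e) := by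
    intro ω
    by_cases hω : (∃ w : grid.Walk x y, w.IsPath ∧ (∀ e ∈ wedges w, e ∈ F) ∧ cost (M.env ω) w ≤ L (y - x) + C₁) ∧
      ¬ ∃ (y : V) (w : grid.Walk x y), w.IsPath ∧ l ≤ w.length ∧ (w.length : ℝ) ≤ R ∧ (nHigh Q.su (M.env ω) w : ℝ) < w.length / 2
    · obtain ⟨⟨w, hw, hwF, hwc⟩, hpe⟩ := hω
      refine ⟨(wedges w).toFinset.filter fun e => Q.su ≤ M.env ω e, fun _ => ⟨⟨?_, ?_, ?_⟩, ?_⟩⟩
      · intro e he
        exact hwF e (List.mem_toFinset.1 (Finset.mem_filter.1 he).1)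
      · intro e he
        exact (Finset.mem_filter.1 he).2
      · rw [Fluct_high hw]
        have h1 : nm (y - x) ≤ w.length := nm_le_length w
        have h2 : (w.length : ℝ) ≤ R := by
          have h3 : (wedges w).toFinset ⊆ F := fun e he => hwF e (List.mem_toFinset.1 he)
          have h4 := Finset.card_le_card h3
          rw [List.toFinset_card_of_nodup (wedges_nodup hw), length_wedges] at h4
          have h5 : (w.length : ℝ) ≤ F.card := by exact_mod_cast h4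
          linarith
        have h3 : l ≤ w.length := by
          have h4 : (l : ℝ) ≤ κ * s := by
            rw [div_le_iff₀ hκ] at hs3
            linarith
          have h5 : (l : ℝ) ≤ w.length := by linarith
          exact_mod_cast h5
        have h4 : (w.length : ℝ) / 2 ≤ nHigh Q.su (M.env ω) w := by
          by_contra hc
          push Not at hc
          exact hpe ⟨y, w, hw, h3, h2, hc⟩
        linarith
      · intro τ' hτ' hle
        have h1 := Fluct_drop hw hle ((wedges w).toFinset.filter fun e => Q.su ≤ M.env ω e)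
          (fun e he => List.mem_toFinset.1 (Finset.mem_filter.1 he).1)
        have h2 := T_le_cost hτ' ha.le w
        linarith
    · exact ⟨∅, fun h => absurd h hω⟩
  choose Hs hHs using hch
  have key := Pool.Agent.W_1b8d5d_c1.tilt_transfer (toC1 hG) F d hFR hd0 (by linarith) m hmd
    (fun ω => (∃ w : grid.Walk x y, w.IsPath ∧ (∀ e ∈ wedges w, e ∈ F) ∧ cost (M.env ω) w ≤ L (y - x) + C₁) ∧
      ¬ ∃ (y : V) (w : grid.Walk x y), w.IsPath ∧ l ≤ w.length ∧ (w.length : ℝ) ≤ R ∧ (nHigh Q.su (M.env ω) w : ℝ) < w.length / 2)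
    (fun ω => T (M.env ω) x y ≤ L (y - x) + C₁ - (Q.su - Q.sl) * (d * (κ * s / 2) / 4))
    Hs (κ * s / 2) (fun ω hω => (hHs ω hω).1) (fun ω ω' hω hle hsum => by
      have h1 := (hHs ω hω).2 (M.env ω') (M.bd ω') hle
      linarith)
  have h1 : Real.exp (-(d * (κ * s / 2) / 16)) ≤ p₀ / 8 := by
    refine (Real.exp_le_exp.2 ?_).trans hD1
    linarith
  have h2 : 2 * (1 / 2 : ℝ) ^ m * Real.exp (Q.K * m ^ 2 * d ^ 2 * F.card) ≤ p₀ / 8 := by
    refine le_trans (mul_le_mul_of_nonneg_left hexp (by positivity)) hm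
  have h3 : p₀ / 4 ≤ M.P (fun τ => T τ x y ≤ L (y - x) + C₁ - (Q.su - Q.sl) * (d * (κ * s / 2) / 4)) := by
    have h4 : Pr (fun ω => (∃ w : grid.Walk x y, w.IsPath ∧ (∀ e ∈ wedges w, e ∈ F) ∧ cost (M.env ω) w ≤ L (y - x) + C₁) ∧
      ¬ ∃ (y : V) (w : grid.Walk x y), w.IsPath ∧ l ≤ w.length ∧ (w.length : ℝ) ≤ R ∧ (nHigh Q.su (M.env ω) w : ℝ) < w.length / 2) =
      M.P (fun τ => (∃ w : grid.Walk x y, w.IsPath ∧ (∀ e ∈ wedges w, e ∈ F) ∧ cost τ w ≤ L (y - x) + C₁) ∧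
      ¬ ∃ (y : V) (w : grid.Walk x y), w.IsPath ∧ l ≤ w.length ∧ (w.length : ℝ) ≤ R ∧ (nHigh Q.su τ w : ℝ) < w.length / 2) := rfl
    have h5 : Pr (fun ω => T (M.env ω) x y ≤ L (y - x) + C₁ - (Q.su - Q.sl) * (d * (κ * s / 2) / 4)) =
      M.P (fun τ => T τ x y ≤ L (y - x) + C₁ - (Q.su - Q.sl) * (d * (κ * s / 2) / 4)) := rfl
    rw [h4, h5] at key
    linarith
  -- the negative part
  obtain ⟨Y, hY⟩ : ∃ Y : ℝ, Y = (Q.su - Q.sl) * (D / 4) - C₁ := ⟨_, rfl⟩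
  have hC₁ : 0 ≤ C₁ := (M.E_nonneg fun τ _ => le_max_right _ _).trans hE
  have hY0 : 0 < Y := by
    have : 0 ≤ 4 * (C₁ + 1) / p₀ := by positivity
    linarith
  have h4 : p₀ / 4 ≤ M.P (fun τ => Y ≤ max (L (y - x) - T τ x y) 0) := by
    refine h3.trans (M.P_mono fun τ _ h => ?_)
    refine le_trans ?_ (le_max_left _ _)
    have h5 : (Q.su - Q.sl) * (D / 4) ≤ (Q.su - Q.sl) * (d * (κ * s / 2) / 4) :=
      mul_le_mul_of_nonneg_left (by linarith) hsl.le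
    linarith
  have h5 := M.markov (F := fun τ => max (L (y - x) - T τ x y) 0) (fun τ _ => le_max_right _ _) hY0
  have h6 : p₀ / 4 * Y ≤ M.E (fun τ => max (L (y - x) - T τ x y) 0) := by
    have h7 := h4.trans h5
    rwa [le_div_iff₀ hY0] at h7
  have h7 : M.E (fun τ => T τ x y - L (y - x)) =
      M.E (fun τ => max (T τ x y - L (y - x)) 0) - M.E (fun τ => max (L (y - x) - T τ x y) 0) := by
    rw [← M.E_sub]
    refine M.E_congr fun τ _ => ?_
    rcases le_total (T τ x y) (L (y - x)) with h | h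
    · rw [max_eq_right (by linarith), max_eq_left (by linarith)]
      ring
    · rw [max_eq_left (by linarith), max_eq_right (by linarith)]
      ring
  have h8 : M.E (fun τ => T τ x y - L (y - x)) = M.E (fun τ => T τ x y) - L (y - x) := by
    rw [M.E_sub, M.E_const]
  have h9 := abs_le.1 (mean' hG hyR)
  have h10 := hl (y - x)
  have h11 : 4 * (C₁ + 1) / p₀ < Y := by rw [hY]; exact hD2
  rw [div_lt_iff₀ hp] at h11
  have h12 : p₀ / 4 * Y = Y * p₀ / 4 := by ring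
  linarith [h9.1]

end Pool.Agent.W_1b8d5d_sc
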