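import Pool.Agent.W_1b8d5d_fe.Defs

/-!
MP_1b8d5d_pr (SC, part P5): restarts of a crossing. The grid columns are `0, 1, ..., N`; `C a b` is the event that the strip is
crossed between the columns `a < b`, `sl a b` is the set of the edges of the strip between these columns.
-/

set_option autoImplicit false

namespace Pool.Agent.W_1b8d5d_sc

open Finset Pool.Agent.W_1b8d5d_h85 Pool.Agent.W_1b8d5d_fe

/-- The indicator of a proposition. -/
noncomputable def ic (p : Prop) : ℝ := @ite ℝ p (Classical.propDecidable p) 1 0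

theorem ic_of {p : Prop} (h : p) : ic p = 1 := if_pos h

theorem ic_not {p : Prop} (h : ¬ p) : ic p = 0 := if_neg h

theorem ic_nonneg (p : Prop) : 0 ≤ ic p := by
  unfold ic
  split_ifs <;> norm_num

theorem ic_le_one (p : Prop) : ic p ≤ 1 := by
  unfold ic
  split_ifs <;> norm_num

theorem ic_and (p q : Prop) : ic (p ∧ q) = ic p * ic q := by
  by_cases hp : p <;> by_cases hq : q <;> simp [ic, hp, hq]

theorem P_ic {a b : ℝ} (M : Mdl a b) (p : Env → Prop) : M.P p = M.E fun τ => ic (p τ) := rfl

open Classical in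
/-- The start of the segment which is current at the grid column `g + k`, when the first segment starts at `g`: the segment
goes on as long as `C (start) (column)` holds, otherwise a new segment starts at this column. -/
noncomputable def cs (C : ℕ → ℕ → Env → Prop) (g : ℕ) : ℕ → Env → ℕ
  | 0, _ => g
  | k + 1, τ => if C (cs C g k τ) (g + (k + 1)) τ then cs C g k τ else g + (k + 1)

variable {C : ℕ → ℕ → Env → Prop} {g : ℕ}

theorem cs_zero (τ : Env) : cs C g 0 τ = g := rfl

theorem cs_succ_of {k : ℕ} {τ : Env} (h : C (cs C g k τ) (g + (k + 1)) τ) : cs C g (k + 1) τ = cs C g k τ := by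
  rw [cs]
  exact if_pos h

theorem cs_succ_not {k : ℕ} {τ : Env} (h : ¬ C (cs C g k τ) (g + (k + 1)) τ) : cs C g (k + 1) τ = g + (k + 1) := by
  rw [cs]
  exact if_neg h

theorem cs_le (k : ℕ) (τ : Env) : cs C g k τ ≤ g + k := by
  induction k with
  | zero => exact le_rfl
  | succ k ih =>
    by_cases h : C (cs C g k τ) (g + (k + 1)) τ
    · rw [cs_succ_of h]
      omega
    · rw [cs_succ_not h]

theorem cs_le_succ (k : ℕ) (τ : Env) : cs C g k τ ≤ cs C g (k + 1) τ := by
  by_cases h : C (cs C g k τ) (g + (k + 1)) τ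
  · rw [cs_succ_of h]
  · rw [cs_succ_not h]
    have := cs_le (C := C) (g := g) k τ
    omega

theorem cs_mono (τ : Env) : Monotone fun k => cs C g k τ := monotone_nat_of_le_succ fun k => cs_le_succ k τ

theorem cs_ge (k : ℕ) (τ : Env) : g ≤ cs C g k τ := cs_mono (C := C) (g := g) τ (Nat.zero_le k)

/-- After a restart the process is the process started there. -/
theorem cs_shift {k : ℕ} {τ : Env} (h : cs C g k τ = g + k) (m : ℕ) : cs C g (k + m) τ = cs C (g + k) m τ := by
  induction m with
  | zero => exact h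
  | succ m ih =>
    have e : g + (k + m + 1) = g + k + (m + 1) := by ring
    by_cases h1 : C (cs C (g + k) m τ) (g + k + (m + 1)) τ
    · rw [cs_succ_of h1, ← ih]
      exact cs_succ_of (k := k + m) (by rw [ih, e]; exact h1)
    · rw [cs_succ_not h1, ← e]
      exact cs_succ_not (k := k + m) (by rw [ih, e]; exact h1)

/-- Inside a segment the start is constant. -/
theorem cs_const {k l : ℕ} {τ : Env} (h : cs C g k τ ≤ g + l) (hl : l ≤ k) : cs C g l τ = cs C g k τ := by
  induction k with
  | zero =>
    have : l = 0 := by omega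
    rw [this]
  | succ k ih =>
    rcases Nat.lt_or_ge k l with h1 | h1
    · have : l = k + 1 := by omega
      rw [this]
    · by_cases h2 : C (cs C g k τ) (g + (k + 1)) τ
      · rw [cs_succ_of h2] at h ⊢
        exact ih h h1
      · rw [cs_succ_not h2] at h
        omega

/-- Inside a segment the strip is crossed from its start. -/
theorem cs_cross {k : ℕ} {τ : Env} (h : cs C g k τ < g + k) : C (cs C g k τ) (g + k) τ := by
  cases k with
  | zero => exact absurd h (lt_irrefl _)
  | succ k =>
    by_cases h2 : C (cs C g k τ) (g + (k + 1)) τ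
    · rw [cs_succ_of h2]
      exact h2
    · rw [cs_succ_not h2] at h
      omega

/-- The start of a segment is a restart. -/
theorem cs_start (k : ℕ) (τ : Env) : ∃ l ≤ k, cs C g k τ = g + l ∧ cs C g l τ = g + l := by
  have h1 := cs_ge (C := C) (g := g) k τ
  have h2 := cs_le (C := C) (g := g) k τ
  obtain ⟨l, hl⟩ := Nat.exists_eq_add_of_le h1
  have hlk : l ≤ k := by omega
  refine ⟨l, hlk, hl, ?_⟩
  rw [cs_const (le_of_eq hl) hlk, hl]

/-- A pair of consecutive cells is inside a segment unless there is a restart at one of the two columns. -/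
theorem cs_pair {k : ℕ} {τ : Env} (h1 : cs C g (k + 1) τ ≠ g + (k + 1)) (h2 : cs C g (k + 2) τ ≠ g + (k + 2)) :
    cs C g (k + 2) τ ≤ g + k := by
  by_cases h3 : C (cs C g (k + 1) τ) (g + (k + 1 + 1)) τ
  · rw [cs_succ_of h3]
    by_cases h4 : C (cs C g k τ) (g + (k + 1)) τ
    · rw [cs_succ_of h4]
      exact cs_le k τ
    · exact absurd (cs_succ_not h4) h1
  · exact absurd (cs_succ_not h3) h2

section prob

variable {a b : ℝ} {M : Mdl a b} {sl : ℕ → ℕ → Set Edge} {N : ℕ}

/-- The current start depends on the edges between the columns. -/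
theorem cs_dep (hsl : ∀ a a' b b' : ℕ, a' ≤ a → b ≤ b' → sl a b ⊆ sl a' b')
    (hC : ∀ a b : ℕ, a < b → DependsOn (C a b) (sl a b)) (k : ℕ) : DependsOn (cs C g k) (sl g (g + k)) := by
  induction k with
  | zero => exact fun _ _ _ => rfl
  | succ k ih =>
    intro x y hxy
    have h1 : cs C g k x = cs C g k y := ih fun e he => hxy e (hsl _ _ _ _ le_rfl (by omega) he)
    have h2 := cs_le (C := C) (g := g) k x
    have h3 := cs_ge (C := C) (g := g) k x
    have h4 : C (cs C g k x) (g + (k + 1)) x = C (cs C g k x) (g + (k + 1)) y :=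
      hC _ _ (by omega) fun e he => hxy e (hsl _ _ _ _ h3 le_rfl he)
    by_cases h5 : C (cs C g k x) (g + (k + 1)) x
    · have h6 : C (cs C g k y) (g + (k + 1)) y := by
        rw [← h1, ← h4]
        exact h5
      rw [cs_succ_of h5, cs_succ_of h6, h1]
    · have h6 : ¬ C (cs C g k y) (g + (k + 1)) y := by
        rw [← h1, ← h4]
        exact h5
      rw [cs_succ_not h5, cs_succ_not h6]

/-- The assumptions on the crossing events. -/
structure Ren (M : Mdl a b) (C : ℕ → ℕ → Env → Prop) (sl : ℕ → ℕ → Set Edge) (N : ℕ) : Prop where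
  mono : ∀ a a' b b' : ℕ, a' ≤ a → b ≤ b' → sl a b ⊆ sl a' b'
  dep : ∀ a b : ℕ, a < b → DependsOn (C a b) (sl a b)
  dec : ∀ (a b c : ℕ) (τ : Env), a < b → b ≤ c → C a c τ → C a b τ
  ind : ∀ g ≤ N, ∀ F G : Env → ℝ, DependsOn F (sl 0 g) → DependsOn G (sl g N) →
    M.E (fun τ => F τ * G τ) = M.E F * M.E G
  half : ∀ g < N, 1 / 2 ≤ M.P (C g N)

theorem Ren.restart_le (H : Ren M C sl N) (hg : g ≤ N) :
    ∑ k ∈ range (N - g + 1), M.P (fun τ => cs C g k τ = g + k) ≤ 2 := by
  obtain ⟨n, hn⟩ : ∃ n, n = N - g := ⟨_, rfl⟩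
  have hN : N = g + n := by omega
  rw [← hn]
  have h1 : ∀ k ∈ range (n + 1), 1 / 2 * M.P (fun τ => cs C g k τ = g + k) ≤
      M.P (fun τ => cs C g n τ = g + k) := by
    intro k hk
    have hk' : k ≤ n := by
      have := mem_range.1 hk
      omega
    rcases Nat.lt_or_ge k n with hkn | hkn
    · have e1 : M.E (fun τ => ic (cs C g k τ = g + k) * ic (C (g + k) N τ)) =
          M.P (fun τ => cs C g k τ = g + k) * M.P (C (g + k) N) := by
        refine H.ind (g + k) (by omega) (fun τ => ic (cs C g k τ = g + k)) (fun τ => ic (C (g + k) N τ)) ?_ ?_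
        · intro x y hxy
          have : cs C g k x = cs C g k y :=
            cs_dep H.mono H.dep k fun e he => hxy e (H.mono _ _ _ _ (Nat.zero_le _) le_rfl he)
          simp only [this]
        · intro x y hxy
          have : C (g + k) N x = C (g + k) N y := H.dep _ _ (by omega) hxy
          simp only [this]
      have e2 : M.E (fun τ => ic (cs C g k τ = g + k) * ic (C (g + k) N τ)) ≤
          M.P (fun τ => cs C g n τ = g + k) := by
        rw [P_ic]
        refine M.E_mono fun τ _ => ?_
        by_cases h2 : cs C g k τ = g + k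
        · by_cases h3 : C (g + k) N τ
          · have h4 : ∀ m : ℕ, k + m ≤ n → cs C g (k + m) τ = g + k := by
              intro m
              induction m with
              | zero => intro _; exact h2
              | succ m ih =>
                intro hm
                have h5 := ih (by omega)
                have h6 : C (cs C g (k + m) τ) (g + (k + m + 1)) τ := by
                  rw [h5]
                  exact H.dec _ _ N τ (by omega) (by omega) h3
                have h7 := cs_succ_of h6
                rw [h5] at h7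
                exact h7
            have h5 := h4 (n - k) (by omega)
            rw [Nat.add_sub_cancel' hk'] at h5
            rw [ic_of h2, ic_of h3, ic_of h5, mul_one]
          · rw [ic_not h3, mul_zero]
            exact ic_nonneg _
        · rw [ic_not h2, zero_mul]
          exact ic_nonneg _
      have e3 := H.half (g + k) (by omega)
      have e4 := M.P_nonneg (fun τ => cs C g k τ = g + k)
      rw [e1] at e2
      nlinarith
    · have hkn' : k = n := by omega
      rw [hkn']
      have := M.P_nonneg (fun τ => cs C g n τ = g + n)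
      linarith
  have h2 : ∑ k ∈ range (n + 1), M.P (fun τ => cs C g n τ = g + k) = 1 := by
    simp only [P_ic]
    rw [← M.E_sum]
    rw [M.E_congr (G := fun _ => (1 : ℝ)), M.E_const]
    intro τ _
    have h3 := cs_ge (C := C) (g := g) n τ
    have h4 := cs_le (C := C) (g := g) n τ
    rw [sum_eq_single (cs C g n τ - g)]
    · rw [ic_of (by omega)]
    · intro k _ hk
      rw [ic_not (by omega)]
    · intro hk
      exact absurd (mem_range.2 (by omega)) hk
  have h3 := sum_le_sum h1
  rw [h2, ← mul_sum] at h3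
  linarith

/-- The number of the restarts. -/
noncomputable def nr (C : ℕ → ℕ → Env → Prop) (N : ℕ) (τ : Env) : ℝ :=
  ∑ k ∈ range (N + 1), ic (cs C 0 k τ = k)

theorem nr_nonneg (τ : Env) : 0 ≤ nr C N τ := sum_nonneg fun _ _ => ic_nonneg _

theorem Ren.restart_le0 (H : Ren M C sl N) : ∑ k ∈ range (N + 1), M.P (fun τ => cs C 0 k τ = k) ≤ 2 := by
  have h2 := H.restart_le (g := 0) (Nat.zero_le N)
  simp only [Nat.sub_zero, Nat.zero_add] at h2
  exact h2

/-- Costs at the restarts which are independent of the past. -/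
theorem Ren.sum_cost (H : Ren M C sl N) {F : ℕ → Env → ℝ} {c : ℝ} (hc : 0 ≤ c)
    (hF : ∀ k ≤ N, M.E (fun τ => ic (cs C 0 k τ = k) * F k τ) ≤ M.P (fun τ => cs C 0 k τ = k) * c) :
    M.E (fun τ => ∑ k ∈ range (N + 1), ic (cs C 0 k τ = k) * F k τ) ≤ 2 * c := by
  rw [M.E_sum]
  have h1 : ∀ k ∈ range (N + 1), M.E (fun τ => ic (cs C 0 k τ = k) * F k τ) ≤
      M.P (fun τ => cs C 0 k τ = k) * c := fun k hk => hF k (by
    have := mem_range.1 hk
    omega)
  refine (sum_le_sum h1).trans ?_
  rw [← sum_mul]
  exact mul_le_mul_of_nonneg_right H.restart_le0 hc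

/-- Costs at the restarts which depend on sets of edges `D k` independent of the edges of the strip left of the restart. -/
theorem Ren.sum_cost_ind (H : Ren M C sl N) {D : ℕ → Set Edge} {F : ℕ → Env → ℝ} {c : ℝ} (hc : 0 ≤ c)
    (hI : ∀ k ≤ N, ∀ F G : Env → ℝ, DependsOn F (sl 0 k) → DependsOn G (D k) →
      M.E (fun τ => F τ * G τ) = M.E F * M.E G)
    (hd : ∀ k ≤ N, DependsOn (F k) (D k)) (hF : ∀ k ≤ N, M.E (F k) ≤ c) :
    M.E (fun τ => ∑ k ∈ range (N + 1), ic (cs C 0 k τ = k) * F k τ) ≤ 2 * c := by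
  refine H.sum_cost hc fun k hk => ?_
  have h1 := hI k hk (fun τ => ic (cs C 0 k τ = k)) (F k) (by
    intro x y hxy
    have : cs C 0 k x = cs C 0 k y := cs_dep H.mono H.dep k fun e he => hxy e (by rwa [Nat.zero_add] at he)
    simp only [this]) (hd k hk)
  rw [h1, P_ic]
  exact mul_le_mul_of_nonneg_left (hF k hk) (M.E_nonneg fun τ _ => ic_nonneg _)

/-- Costs at the restarts which depend on the edges right of the restart. -/
theorem Ren.sum_cost_right (H : Ren M C sl N) {F : ℕ → Env → ℝ} {c : ℝ} (hc : 0 ≤ c)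
    (hd : ∀ k ≤ N, DependsOn (F k) (sl k N)) (hF : ∀ k ≤ N, M.E (F k) ≤ c) :
    M.E (fun τ => ∑ k ∈ range (N + 1), ic (cs C 0 k τ = k) * F k τ) ≤ 2 * c := by
  refine H.sum_cost hc fun k hk => ?_
  have h1 := H.ind k hk (fun τ => ic (cs C 0 k τ = k)) (F k) (by
    intro x y hxy
    have : cs C 0 k x = cs C 0 k y := cs_dep H.mono H.dep k fun e he => hxy e (by rwa [Nat.zero_add] at he)
    simp only [this]) (hd k hk)
  rw [h1, P_ic]
  exact mul_le_mul_of_nonneg_left (hF k hk) (M.E_nonneg fun τ _ => ic_nonneg _)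

theorem Ren.nr_le (H : Ren M C sl N) : M.E (nr C N) ≤ 2 := by
  refine le_trans (le_of_eq ?_) H.restart_le0
  unfold nr
  rw [M.E_sum]
  rfl

/-- The second moment of the number of the restarts. -/
theorem Ren.nr_sq_le (H : Ren M C sl N) : M.E (fun τ => nr C N τ ^ 2) ≤ 8 := by
  have key : ∀ k ≤ N, ∑ l ∈ range (N - k + 1), M.E (fun τ => ic (cs C 0 k τ = k) * ic (cs C 0 (k + l) τ = k + l)) ≤
      2 * M.P (fun τ => cs C 0 k τ = k) := by
    intro k hk
    have h1 : ∀ l ∈ range (N - k + 1), M.E (fun τ => ic (cs C 0 k τ = k) * ic (cs C 0 (k + l) τ = k + l)) =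
        M.P (fun τ => cs C 0 k τ = k) * M.P (fun τ => cs C k l τ = k + l) := by
      intro l hl
      have hl' : l ≤ N - k := by
        have := mem_range.1 hl
        omega
      have h2 := H.ind k hk (fun τ => ic (cs C 0 k τ = k)) (fun τ => ic (cs C k l τ = k + l)) (by
          intro x y hxy
          have : cs C 0 k x = cs C 0 k y := cs_dep H.mono H.dep k fun e he => hxy e (by rwa [Nat.zero_add] at he)
          simp only [this]) (by
          intro x y hxy
          have : cs C k l x = cs C k l y :=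
            cs_dep H.mono H.dep l fun e he => hxy e (H.mono _ _ _ _ le_rfl (by omega) he)
          simp only [this])
      rw [P_ic, P_ic, ← h2]
      refine M.E_congr fun τ _ => ?_
      by_cases h2 : cs C 0 k τ = k
      · have h3 : cs C 0 (k + l) τ = cs C k l τ := by
          have := cs_shift (C := C) (g := 0) (k := k) (τ := τ) (by rw [h2, Nat.zero_add]) l
          rwa [Nat.zero_add] at this
        rw [h3]
      · rw [ic_not h2, zero_mul, zero_mul]
    rw [sum_congr rfl h1, ← mul_sum, mul_comm (2 : ℝ)]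
    exact mul_le_mul_of_nonneg_left (H.restart_le hk) (M.P_nonneg _)
  have h1 : ∀ τ : Env, nr C N τ ^ 2 ≤ 2 * ∑ k ∈ range (N + 1), ∑ l ∈ range (N - k + 1),
      ic (cs C 0 k τ = k) * ic (cs C 0 (k + l) τ = k + l) := by
    intro τ
    obtain ⟨u, hu⟩ : ∃ u : ℕ → ℝ, u = fun k => ic (cs C 0 k τ = k) := ⟨_, rfl⟩
    have hu0 : ∀ k, 0 ≤ u k := by
      intro k
      rw [hu]
      exact ic_nonneg _
    have h2 : nr C N τ = ∑ k ∈ range (N + 1), u k := by
      rw [hu]
      rfl
    have h3 : ∀ k l : ℕ, ic (cs C 0 k τ = k) * ic (cs C 0 (k + l) τ = k + l) = u k * u (k + l) := by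
      intro k l
      rw [hu]
    simp only [h3]
    have h4 : ∀ n : ℕ, (∑ k ∈ range (n + 1), u k) ^ 2 ≤
        2 * ∑ k ∈ range (n + 1), ∑ l ∈ range (n - k + 1), u k * u (k + l) := by
      intro n
      induction n with
      | zero =>
        simp only [Nat.zero_add, range_one, sum_singleton, Nat.sub_zero]
        nlinarith [mul_nonneg (hu0 0) (hu0 0)]
      | succ n ih =>
        rw [sum_range_succ u (n + 1), sum_range_succ (fun k => ∑ l ∈ range (n + 1 - k + 1), u k * u (k + l)) (n + 1)]
        have e1 : ∀ k ∈ range (n + 1), ∑ l ∈ range (n + 1 - k + 1), u k * u (k + l) =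
            ∑ l ∈ range (n - k + 1), u k * u (k + l) + u k * u (n + 1) := by
          intro k hk
          have hk' : k ≤ n := by
            have := mem_range.1 hk
            omega
          have e2 : n + 1 - k + 1 = (n - k + 1) + 1 := by omega
          have e3 : k + (n - k + 1) = n + 1 := by omega
          rw [e2, sum_range_succ, e3]
        rw [sum_congr rfl e1, sum_add_distrib, ← sum_mul]
        have e4 : n + 1 - (n + 1) + 1 = 1 := by omega
        rw [e4, range_one, sum_singleton, Nat.add_zero]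
        have e5 := mul_nonneg (hu0 (n + 1)) (hu0 (n + 1))
        nlinarith
    rw [h2]
    exact h4 N
  refine (M.E_mono fun τ _ => h1 τ).trans ?_
  rw [M.E_mul_left, M.E_sum]
  have h2 : ∀ k ∈ range (N + 1), M.E (fun τ => ∑ l ∈ range (N - k + 1),
      ic (cs C 0 k τ = k) * ic (cs C 0 (k + l) τ = k + l)) ≤ 2 * M.P (fun τ => cs C 0 k τ = k) := by
    intro k hk
    rw [M.E_sum]
    exact key k (by
      have := mem_range.1 hk
      omega)
  have h3 := sum_le_sum h2
  rw [← mul_sum] at h3
  have h4 := H.restart_le0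
  linarith

/-- Cauchy-Schwarz: a random variable with second moment at most `c ^ 2`, paid once for every restart. -/
theorem Ren.nr_mul_le (H : Ren M C sl N) {L : Env → ℝ} {c : ℝ} (hc : 0 < c) (hL : M.E (fun τ => L τ ^ 2) ≤ c ^ 2) :
    M.E (fun τ => nr C N τ * L τ) ≤ 3 * c := by
  have h1 : ∀ τ : Env, nr C N τ * L τ ≤ c / 6 * nr C N τ ^ 2 + 3 / (2 * c) * L τ ^ 2 := by
    intro τ
    have h3 : 3 / (2 * c) * (c / 3 * nr C N τ - L τ) ^ 2 =
        c / 6 * nr C N τ ^ 2 + 3 / (2 * c) * L τ ^ 2 - nr C N τ * L τ := by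
      field_simp
      ring
    have h4 : 0 ≤ 3 / (2 * c) * (c / 3 * nr C N τ - L τ) ^ 2 := by positivity
    linarith
  refine (M.E_mono fun τ _ => h1 τ).trans ?_
  rw [M.E_add, M.E_mul_left, M.E_mul_left]
  have h2 := H.nr_sq_le
  have h3 : c / 6 * M.E (fun τ => nr C N τ ^ 2) ≤ c / 6 * 8 := mul_le_mul_of_nonneg_left h2 (by positivity)
  have h4 : 3 / (2 * c) * M.E (fun τ => L τ ^ 2) ≤ 3 / (2 * c) * c ^ 2 := mul_le_mul_of_nonneg_left hL (by positivity)
  have h5 : 3 / (2 * c) * c ^ 2 = 3 / 2 * c := by
    field_simp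
  linarith

end prob

end Pool.Agent.W_1b8d5d_sc
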