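import Pool.Agent.W_1b8d5d_sc.TDefs
import Pool.Agent.W_1b8d5d_sc.Renew

/-!
MP_1b8d5d_pr (SC, part P5): the largest luck of a box and its second moment.
-/

set_option autoImplicit false

namespace Pool.Agent.W_1b8d5d_sc

open Finset Pool.Agent.W_1b8d5d_h85 Pool.Agent.W_1b8d5d_fe

open Classical in
/-- The vertices of the box. -/
noncomputable def bxf (r : ℝ) : Finset V :=
  (Finset.Icc (-⌊r⌋) ⌊r⌋ ×ˢ Finset.Icc (-⌊r⌋) ⌊r⌋).filter fun z => nm z ≤ r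

theorem mem_bxf {r : ℝ} {z : V} : z ∈ bxf r ↔ nm z ≤ r := by
  unfold bxf
  rw [Finset.mem_filter]
  refine ⟨fun h => h.2, fun h => ⟨?_, h⟩⟩
  have h0 := h
  unfold nm at h
  have h1 := abs_nonneg (z.1 : ℝ)
  have h2 := abs_nonneg (z.2 : ℝ)
  have h3 : |z.1| ≤ ⌊r⌋ := by
    rw [Int.le_floor]
    push_cast
    linarith
  have h4 : |z.2| ≤ ⌊r⌋ := by
    rw [Int.le_floor]
    push_cast
    linarith
  rw [Finset.mem_product, Finset.mem_Icc, Finset.mem_Icc]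
  rw [abs_le] at h3 h4
  exact ⟨h3, h4⟩

open Classical in
/-- The largest luck between two vertices of the box of size `r`. -/
noncomputable def lks (c : Crd) (r : ℝ) (τ : Env) : ℝ :=
  (insert 0 ((bxf r ×ˢ bxf r).image fun u => lv c (u.2 - u.1) - T τ u.1 u.2)).max' ⟨0, Finset.mem_insert_self _ _⟩

theorem lks_nonneg (c : Crd) (r : ℝ) (τ : Env) : 0 ≤ lks c r τ := by
  classical
  unfold lks
  exact Finset.le_max' _ _ (Finset.mem_insert_self _ _)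

theorem le_lks (c : Crd) {r : ℝ} (τ : Env) {u v : V} (hu : nm u ≤ r) (hv : nm v ≤ r) :
    lv c (v - u) ≤ T τ u v + lks c r τ := by
  classical
  have h1 : lv c (v - u) - T τ u v ≤ lks c r τ := by
    unfold lks
    refine Finset.le_max' _ _ (Finset.mem_insert_of_mem ?_)
    rw [Finset.mem_image]
    exact ⟨(u, v), Finset.mem_product.2 ⟨mem_bxf.2 hu, mem_bxf.2 hv⟩, rfl⟩
  linarith

theorem lks_Lk (c : Crd) {r y : ℝ} {τ : Env} (hy : 0 < y) (h : y ≤ lks c r τ) : Lk c r y τ := by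
  classical
  have h1 : lks c r τ ∈ insert 0 ((bxf r ×ˢ bxf r).image fun u => lv c (u.2 - u.1) - T τ u.1 u.2) := by
    unfold lks
    exact Finset.max'_mem _ _
  rw [Finset.mem_insert, Finset.mem_image] at h1
  rcases h1 with h1 | ⟨u, hu, h1⟩
  · linarith
  · rw [Finset.mem_product] at hu
    exact ⟨u.1, u.2, mem_bxf.1 hu.1, mem_bxf.1 hu.2, by linarith⟩

/-- The numerical constant. -/
private theorem LkSq_num : (1 / 2 : ℝ) ^ (20 / 9 : ℝ) ≤ 7 / 32 := by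
  by_contra h
  push Not at h
  have h1 : ((1 / 2 : ℝ) ^ (20 / 9 : ℝ)) ^ 9 = (1 / 2) ^ 20 := by
    rw [← Real.rpow_natCast, ← Real.rpow_mul (by norm_num)]
    norm_num
  have h2 : (7 / 32 : ℝ) ^ 9 < ((1 / 2 : ℝ) ^ (20 / 9 : ℝ)) ^ 9 := pow_lt_pow_left₀ h (by norm_num) (by norm_num)
  rw [h1] at h2
  norm_num at h2

/-- Decomposition of a square over the dyadic levels. -/
private theorem LkSq_dec {H f : ℝ} (hH : 0 < H) (hf : 0 ≤ f) (n : ℕ) (h : f < 2 ^ n * H) :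
    f ^ 2 ≤ H ^ 2 + ∑ i ∈ range n, 4 ^ (i + 1) * H ^ 2 * ic (2 ^ i * H ≤ f) := by
  induction n with
  | zero =>
    rw [sum_range_zero, add_zero]
    rw [pow_zero, one_mul] at h
    exact pow_le_pow_left₀ hf h.le 2
  | succ n ih =>
    rw [sum_range_succ]
    have h0 : 0 ≤ ∑ i ∈ range n, 4 ^ (i + 1) * H ^ 2 * ic (2 ^ i * H ≤ f) :=
      sum_nonneg fun i _ => mul_nonneg (by positivity) (ic_nonneg _)
    have h1 : 0 ≤ 4 ^ (n + 1) * H ^ 2 * ic (2 ^ n * H ≤ f) := mul_nonneg (by positivity) (ic_nonneg _)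
    rcases lt_or_ge f (2 ^ n * H) with h2 | h2
    · have := ih h2
      linarith
    · rw [ic_of h2, mul_one]
      have h3 : f ^ 2 ≤ (2 ^ (n + 1) * H) ^ 2 := pow_le_pow_left₀ hf h.le 2
      have h4 : ((2 : ℝ) ^ (n + 1) * H) ^ 2 = 4 ^ (n + 1) * H ^ 2 := by
        rw [mul_pow, ← pow_mul, mul_comm (n + 1) 2, pow_mul]
        norm_num
      have h5 : 0 ≤ H ^ 2 := by positivity
      linarith

/-- ** A second moment from the tail. ** -/
theorem sq_of_tail {a b : ℝ} (M : Mdl a b) {F : Env → ℝ} {C H : ℝ} (hF : ∀ τ, Bd a b τ → 0 ≤ F τ) (hH : 0 < H) (hC : 1 ≤ C)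
    (ht : ∀ y : ℝ, 0 < y → M.P (fun τ => y ≤ F τ) ≤ C * (H / y) ^ (20 / 9 : ℝ)) :
    M.E (fun τ => F τ ^ 2) ≤ 33 * C * H ^ 2 := by
  obtain ⟨n, hn⟩ : ∃ n : ℕ, ∀ ω : M.Ω, F (M.env ω) < 2 ^ n * H := by
    obtain ⟨Y, hY⟩ : ∃ Y, ∀ ω : M.Ω, F (M.env ω) ≤ Y := by
      obtain ⟨ω₀, hω₀⟩ := Finite.exists_max fun ω : M.Ω => F (M.env ω)
      exact ⟨_, hω₀⟩
    obtain ⟨n, hn⟩ := pow_unbounded_of_one_lt (Y / H) (by norm_num : (1 : ℝ) < 2)
    refine ⟨n, fun ω => (hY ω).trans_lt ?_⟩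
    rwa [div_lt_iff₀ hH] at hn
  have h1 : M.E (fun τ => F τ ^ 2) ≤ M.E (fun τ => H ^ 2 + ∑ i ∈ range n, 4 ^ (i + 1) * H ^ 2 * ic (2 ^ i * H ≤ F τ)) :=
    Ex_mono fun ω => LkSq_dec hH (hF _ (M.bd ω)) n (hn ω)
  refine h1.trans ?_
  rw [M.E_add, M.E_const, M.E_sum]
  obtain ⟨s, hs⟩ : ∃ s, s = (1 / 2 : ℝ) ^ (20 / 9 : ℝ) := ⟨_, rfl⟩
  have hs0 : 0 < s := by
    rw [hs]
    positivity
  have hs1 : 4 * s ≤ 7 / 8 := by
    have := LkSq_num
    rw [← hs] at this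
    linarith
  have h2 : ∀ i ∈ range n, M.E (fun τ => 4 ^ (i + 1) * H ^ 2 * ic (2 ^ i * H ≤ F τ)) ≤ 4 * C * H ^ 2 * (4 * s) ^ i := by
    intro i _
    rw [M.E_mul_left, ← P_ic]
    have h3 := ht (2 ^ i * H) (by positivity)
    have h4 : H / (2 ^ i * H) = (1 / 2) ^ i := by
      rw [one_div, inv_pow]
      field_simp
    have h5 : ((1 / 2 : ℝ) ^ i) ^ (20 / 9 : ℝ) = s ^ i := by
      rw [hs, ← Real.rpow_natCast, ← Real.rpow_natCast, ← Real.rpow_mul (by norm_num), ← Real.rpow_mul (by norm_num), mul_comm]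
    rw [h4, h5] at h3
    have h6 := mul_le_mul_of_nonneg_left h3 (by positivity : 0 ≤ (4 : ℝ) ^ (i + 1) * H ^ 2)
    refine h6.trans (le_of_eq ?_)
    rw [mul_pow, pow_succ]
    ring
  have h3 : ∑ i ∈ range n, (4 * s) ^ i ≤ 8 := by
    have h6 : (∑ i ∈ range n, (4 * s) ^ i) * (1 - 4 * s) = 1 - (4 * s) ^ n := by
      have := geom_sum_mul (4 * s) n
      linarith
    have h7 : 0 ≤ (4 * s) ^ n := by positivity
    have h8 : 0 ≤ ∑ i ∈ range n, (4 * s) ^ i := sum_nonneg fun i _ => by positivity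
    nlinarith
  have h4 := sum_le_sum h2
  rw [← mul_sum] at h4
  have h5 : 4 * C * H ^ 2 * ∑ i ∈ range n, (4 * s) ^ i ≤ 4 * C * H ^ 2 * 8 := mul_le_mul_of_nonneg_left h3 (by positivity)
  have h6 : 1 * H ^ 2 ≤ C * H ^ 2 := mul_le_mul_of_nonneg_right hC (by positivity)
  linarith

/-- The second moment of the largest luck of a box. -/
theorem E_lks_sq {a b : ℝ} (M : Mdl a b) (c : Crd) {r C H : ℝ} (hH : 0 < H) (hC : 1 ≤ C)
    (ht : ∀ y : ℝ, 0 < y → M.P (Lk c r y) ≤ C * (H / y) ^ (20 / 9 : ℝ)) :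
    M.E (fun τ => lks c r τ ^ 2) ≤ 33 * C * H ^ 2 :=
  sq_of_tail M (fun τ _ => lks_nonneg c r τ) hH hC fun y hy =>
    (M.P_mono fun _ _ h => lks_Lk c hy h).trans (ht y hy)

end Pool.Agent.W_1b8d5d_sc
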