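import Pool.Agent.W_1b8d5d_sc.Cmp
import Pool.Agent.W_1b8d5d_sc.TDefs

/-!
MP_1b8d5d_pr (SC, P1): a lucky pair in a box gives a lucky piece between its lowest and its highest level, and the lucky piece can be
prolonged to a crossing of a wide block.
-/

set_option autoImplicit false

namespace Pool.Agent.W_1b8d5d_sc

open Finset Pool.Agent.W_1b8d5d_h85 Pool.Agent.W_1b8d5d_fe

/-- The vertices of the box of size `Z` of levels between those of `q` and of `p`. -/
def LBx (c : Crd) (Z : ℝ) (q p : V) : Set V := {z | nm z ≤ Z ∧ lv c q ≤ lv c z ∧ lv c z ≤ lv c p}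

/-- A lucky piece from `q` to `p` between the levels of `q` and `p`. -/
def Ko (b : ℝ) (c : Crd) (Z y : ℝ) (q p : V) (τ : Env) : Prop :=
  lv c q ≤ lv c p ∧ T (res b (edg (LBx c Z q p)) τ) q p ≤ lv c (p - q) - y

variable {a b : ℝ} {c : Crd} {τ : Env}

/-- A lucky pair contains a lucky piece between its lowest and its highest level. -/
theorem exists_Ko (ha : 0 < a) (hab : a ≤ b) (hτ : Bd a b τ) {L Z y : ℝ} (hZ : (1 + 2 * (b / a)) * L ≤ Z) (h : Lk c L y τ) :
    ∃ q p : V, nm q ≤ Z ∧ nm p ≤ Z ∧ Ko b c Z y q p τ := by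
  classical
  obtain ⟨u, v, hu, hv, huv⟩ := h
  have hL0 : 0 ≤ L := (nm_nonneg u).trans hu
  have hba : 0 ≤ b / a := div_nonneg (ha.le.trans hab) ha.le
  obtain ⟨w, hw⟩ := exists_geo hτ ha u v
  have hnm : ∀ i, nm (w.getVert i) ≤ Z := fun i => by
    have h1 := geo_near hτ ha hw i
    have h2 := nm_add_le (w.getVert i - u) u
    rw [sub_add_cancel] at h2
    have h3 : nm (v - u) ≤ 2 * L := by
      have := nm_add_le v (-u)
      rw [nm_neg, ← sub_eq_add_neg] at this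
      linarith
    have h4 := mul_le_mul_of_nonneg_left h3 hba
    linarith
  obtain ⟨i₀, hi₀, hmin⟩ := Finset.exists_min_image (range (w.length + 1)) (fun i => lv c (w.getVert i)) ⟨0, by simp⟩
  have hi₀' : i₀ ≤ w.length := by have := Finset.mem_range.1 hi₀; omega
  obtain ⟨j₀, hj₀, hmax⟩ := Finset.exists_max_image (Icc i₀ w.length) (fun i => lv c (w.getVert i)) ⟨i₀, by simp [hi₀']⟩
  obtain ⟨hij, hjn⟩ := Finset.mem_Icc.1 hj₀
  refine ⟨w.getVert i₀, w.getVert j₀, hnm _, hnm _, ?_⟩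
  obtain ⟨w', hw', hlen, hvert, -⟩ := geo_piece hτ ha.le hw hij hjn
  have e1 := geo_sub hτ ha.le hw hij
  have e2 := geo_add hτ ha.le hw j₀
  have h0 : 0 ≤ T τ u (w.getVert i₀) := T_nonneg hτ ha.le _ _
  have h0' : 0 ≤ T τ (w.getVert j₀) v := T_nonneg hτ ha.le _ _
  have hlu : lv c (w.getVert i₀) ≤ lv c u := by
    have := hmin 0 (by simp)
    simpa using this
  have hlv : lv c v ≤ lv c (w.getVert j₀) := by
    have := hmax w.length (by simp [hi₀'])
    simpa using this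
  have hres : T (res b (edg (LBx c Z (w.getVert i₀) (w.getVert j₀))) τ) (w.getVert i₀) (w.getVert j₀) =
      T τ (w.getVert i₀) (w.getVert j₀) := by
    refine T_res_eq ha.le hab hτ hw'.2 fun e he => ?_
    have hsup : ∀ z ∈ w'.support, z ∈ LBx c Z (w.getVert i₀) (w.getVert j₀) := fun z hz => by
      obtain ⟨l, hl, hl'⟩ := (SimpleGraph.Walk.mem_support_iff_exists_getVert).1 hz
      rw [hvert l (by omega)] at hl
      rw [← hl]
      exact ⟨hnm _, hmin (i₀ + l) (by simp; omega), hmax (i₀ + l) (by simp; omega)⟩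
    obtain ⟨h1, h2⟩ := wedges_support w' he
    exact ⟨hsup _ h1, hsup _ h2⟩
  refine ⟨hmax i₀ (by simp [hi₀']), ?_⟩
  rw [hres, lv_sub]
  rw [lv_sub] at huv
  linarith

/-- A lucky piece followed by a normal piece is a lucky crossing. -/
theorem Cr_of_Ko (ha : 0 < a) (hab : a ≤ b) (hτ : Bd a b τ) {Z y t r w w₁ ℓ α : ℝ} {q p y₀ : V} (hq : nm q ≤ Z) (hp : nm p ≤ Z)
    (hy₀ : y₀ ∈ Wc c) (hK : Ko b c Z y q p τ) (ht : Tc b c τ p (p + y₀) ≤ lv c y₀ + t)
    (h1 : α - r ≤ lv c q) (h2 : lv c q ≤ α + 2 * c.C) (h3 : c.C * Z ≤ 2 * r) (h4 : lv c p < α + ℓ)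
    (h5 : α + ℓ ≤ lv c (p + y₀)) (h6 : lv c (p + y₀) ≤ α + ℓ + 4 * c.C) (h7 : c.C * Z + 2 * lv c y₀ ≤ w)
    (h8 : c.C * Z + 4 * c.C ^ 2 * (b / a) * lv c y₀ ≤ w₁) :
    Cr b c r w w₁ ℓ α 0 (t + 4 * c.C - y) τ := by
  have hC := c.one_le
  have hba : 0 ≤ b / a := div_nonneg (ha.le.trans hab) ha.le
  have hly : 0 ≤ lv c y₀ := Wc_lv hy₀
  obtain ⟨ρ, hρ⟩ : ∃ ρ : Env, ρ = res b (edg (Dc c p (p + y₀))) τ := ⟨_, rfl⟩
  have hρB : Bd a b ρ := by rw [hρ]; exact Bd_res hab hτ _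
  have hT : T ρ p (p + y₀) ≤ lv c y₀ + t := by rw [hρ]; exact ht
  obtain ⟨w', hw'⟩ := exists_geo hρB ha p (p + y₀)
  obtain ⟨i, hi, hi1, hi2, hi3⟩ := first_passage (lv c) (2 * c.C) (fun _ _ h => lv_adj h) (α + ℓ) w' h4 h5
  have hadd := geo_add hρB ha.le hw' i
  have hnear := geo_near hρB ha hw' i
  have hend : 0 ≤ T ρ (w'.getVert i) (p + y₀) := T_nonneg hρB ha.le _ _
  have hqx : |c.q q| ≤ c.C * Z := (c.q_le q).trans (mul_le_mul_of_nonneg_left hq (by linarith))
  have hpx : |c.q p| ≤ c.C * Z := (c.q_le p).trans (mul_le_mul_of_nonneg_left hp (by linarith))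
  -- the position of the end point
  have hqy : |c.q (w'.getVert i)| ≤ w₁ := by
    have e1 : nm (p + y₀ - p) ≤ 4 * c.C * lv c y₀ := by
      rw [add_sub_cancel_left]
      exact Wc_nm hy₀
    have e2 : nm (w'.getVert i - p) ≤ b / a * (4 * c.C * lv c y₀) := hnear.trans (mul_le_mul_of_nonneg_left e1 hba)
    have e3 : |c.q (w'.getVert i - p)| ≤ c.C * (b / a * (4 * c.C * lv c y₀)) :=
      (c.q_le _).trans (mul_le_mul_of_nonneg_left e2 (by linarith))
    have e4 : c.q (w'.getVert i) = c.q (w'.getVert i - p) + c.q p := by rw [map_sub]; ring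
    rw [e4]
    refine (abs_add_le _ _).trans ?_
    have e5 : c.C * (b / a * (4 * c.C * lv c y₀)) = 4 * c.C ^ 2 * (b / a) * lv c y₀ := by ring
    linarith
  refine ⟨q, w'.getVert i, ⟨⟨h1, h2, ?_⟩, hi1, by linarith, ?_⟩, ?_⟩
  · rw [sub_zero]; exact hqx.trans h3
  · rw [sub_zero]; exact hqy
  · -- the cost
    have hE := Bd_res hab hτ (Eb c α 0 w ℓ (lv c q))
    have hqp : T (res b (Eb c α 0 w ℓ (lv c q)) τ) q p ≤ lv c (p - q) - y := by
      refine le_trans (T_res_anti ha.le hab hτ ?_ q p) hK.2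
      rintro e ⟨⟨a1, a2, a3⟩, b1, b2, b3⟩
      have hz : ∀ z : V, nm z ≤ Z → |c.q z - 0| ≤ w := fun z hz => by
        rw [sub_zero]
        have := (c.q_le z).trans (mul_le_mul_of_nonneg_left hz (by linarith : 0 ≤ c.C))
        linarith
      exact ⟨⟨⟨hz _ a1, a2⟩, hz _ b1, b2⟩, Or.inl (by linarith)⟩
    obtain ⟨w₂, hw₂, hlen, hvert, -⟩ := geo_piece hρB ha.le hw' (Nat.zero_le i) hi
    have e0 : w'.getVert 0 = p := w'.getVert_zero
    have hpy : T (res b (Eb c α 0 w ℓ (lv c q)) τ) (w'.getVert 0) (w'.getVert i) ≤ T ρ (w'.getVert 0) (w'.getVert i) := by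
      refine (T_le_cost hE ha.le w₂).trans ?_
      rw [← hw₂.2]
      refine cost_mono w₂ fun d hd => ?_
      rw [hρ]
      unfold res
      by_cases hd' : d ∈ edg (Dc c p (p + y₀))
      · have hin : d ∈ Eb c α 0 w ℓ (lv c q) := by
          have hz : ∀ z : V, z ∈ Dc c p (p + y₀) → |c.q z - 0| ≤ w ∧ lv c q ≤ lv c z := fun z hz => by
            have g1 := (Dc_pq hz).2
            rw [add_sub_cancel_left] at g1
            have g2 : c.q z = c.q (z - p) + c.q p := by rw [map_sub]; ring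
            refine ⟨?_, hK.1.trans (Dc_lv hz).1⟩
            rw [sub_zero, g2]
            refine (abs_add_le _ _).trans ?_
            linarith
          obtain ⟨a1, a2⟩ := hz _ hd'.1
          obtain ⟨b1, b2⟩ := hz _ hd'.2
          refine ⟨⟨⟨a1, a2⟩, b1, b2⟩, ?_⟩
          refine edge_before w₂ (P := fun z => lv c z < α + ℓ) (fun j hj => ?_) hd
          rw [hvert j (by omega)]
          exact hi3 _ (by omega)
        rw [if_pos hin, if_pos hd']
      · rw [if_neg hd']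
        split_ifs
        · exact (hτ d).2
        · exact le_rfl
    rw [e0] at hpy
    have htri := T_triangle hE ha.le q p (w'.getVert i)
    show T (res b (Eb c α 0 w ℓ (lv c q)) τ) q (w'.getVert i) ≤ lv c (w'.getVert i - q) + (t + 4 * c.C - y)
    rw [lv_sub] at hqp ⊢
    rw [lv_add] at h5 h6
    linarith

end Pool.Agent.W_1b8d5d_sc
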