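import Pool.Agent.W_1b8d5d_sc.TDefs
import Pool.Agent.W_1b8d5d_fe.Geo

/-!
MP_1b8d5d_pr (SC, part P1): the lower tail of the excess of one vector by a row of disjoint translates, with signed means.
-/

set_option autoImplicit false

namespace Pool.Agent.W_1b8d5d_sc

open Finset Pool.Agent.W_1b8d5d_h85 Pool.Agent.W_1b8d5d_fe

section

variable {Q : Par} {g : V → ℝ} {R : ℝ} {M : Mdl Q.a Q.b}

/-- A function of finitely many independent pieces: the product of a function of `A` and one of a disjoint set. -/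
private theorem row_dep_mono {F : Env → ℝ} {A B : Set Edge} (h : DependsOn F A) (hAB : A ⊆ B) : DependsOn F B :=
  fun _ _ hxy => h fun e he => hxy e (hAB he)

open Classical in
/-- No success among the copies `1, ..., i`. -/
private noncomputable def rN (S : ℕ → Env → Prop) (i : ℕ) (τ : Env) : ℝ := if ∀ l < i, ¬ S (l + 1) τ then 1 else 0

open Classical in
private noncomputable def rI (S : ℕ → Env → Prop) (i : ℕ) (τ : Env) : ℝ := if S i τ then 1 else 0

private theorem rN_zero (S : ℕ → Env → Prop) (τ : Env) : rN S 0 τ = 1 := by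
  unfold rN
  rw [if_pos]
  intro l hl
  omega

private theorem rN_succ (S : ℕ → Env → Prop) (i : ℕ) (τ : Env) : rN S (i + 1) τ = rN S i τ * (1 - rI S (i + 1) τ) := by
  unfold rN rI
  by_cases h : ∀ l < i, ¬ S (l + 1) τ
  · by_cases h' : S (i + 1) τ
    · rw [if_neg, if_pos h, if_pos h']
      · norm_num
      · intro h2
        exact h2 i (by omega) h'
    · rw [if_pos, if_pos h, if_neg h']
      · norm_num
      · intro l hl
        rcases Nat.lt_succ_iff_lt_or_eq.1 hl with h3 | h3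
        · exact h l h3
        · rw [h3]; exact h'
  · rw [if_neg, if_neg h, zero_mul]
    intro h2
    exact h fun l hl => h2 l (by omega)

private theorem rN_nonneg (S : ℕ → Env → Prop) (i : ℕ) (τ : Env) : 0 ≤ rN S i τ := by
  unfold rN
  split_ifs <;> norm_num

private theorem rI_nonneg (S : ℕ → Env → Prop) (i : ℕ) (τ : Env) : 0 ≤ rI S i τ := by
  unfold rI
  split_ifs <;> norm_num

private theorem rN_sum (S : ℕ → Env → Prop) (k : ℕ) (τ : Env) :
    ∑ i ∈ range k, rN S i τ * rI S (i + 1) τ = 1 - rN S k τ := by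
  induction k with
  | zero => rw [range_zero, sum_empty, rN_zero, sub_self]
  | succ k ih =>
    rw [sum_range_succ, ih, rN_succ]
    ring

/-- **The row.** -/
theorem row (hG : Good Q g R M) {c : Crd} (hl : ∀ z, lv c z ≤ g z) {k : ℕ} {u z v : ℕ → V} {y Z : V} {F C' t : ℝ}
    (hB : ∀ i ≤ k, M.E (fun τ => Tc Q.b c τ 0 (u i) - lv c (u i)) ≤ F)
    (hU : ∀ i ≤ k, M.E (fun τ => Tc Q.b c τ (v i) Z - lv c (Z - v i)) ≤ F)
    (hX : M.E (fun τ => Tc Q.b c τ 0 y - lv c y) ≤ F) (hF : 0 ≤ F)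
    (hC : ∀ i ≤ k, Q.b * nm (z i - u i) - lv c (z i - u i) + (Q.b * nm (v i - (z i + y)) - lv c (v i - (z i + y))) ≤ C')
    (h1 : ∀ i ≤ k, ∀ l ≤ k, Disjoint (edg (Dc c 0 (u i))) (edg (Dc c (z l) (z l + y))))
    (h2 : ∀ i ≤ k, ∀ l ≤ k, Disjoint (edg (Dc c (v i) Z)) (edg (Dc c (z l) (z l + y))))
    (h3 : ∀ i ≤ k, ∀ l ≤ k, i ≠ l → Disjoint (edg (Dc c (z i) (z i + y))) (edg (Dc c (z l) (z l + y))))
    (hR1 : ∀ i ≤ k, ∀ e ∈ edg (Dc c 0 (u i)), nm e.1 ≤ R)
    (hR2 : ∀ i ≤ k, ∀ e ∈ edg (Dc c (z i) (z i + y)), nm e.1 ≤ R)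
    (hR3 : ∀ i ≤ k, ∀ e ∈ edg (Dc c (v i) Z), nm e.1 ≤ R)
    (hZ : nm Z ≤ R) :
    t * (1 - (1 - M.P (fun τ => Tc Q.b c τ 0 y - lv c y ≤ -t)) ^ k) ≤ 3 * F + C' + 1 := by
  classical
  have ha : 0 ≤ Q.a := Q.ha.le
  have hab : Q.a ≤ Q.b := Q.hab.le
  obtain ⟨X, hXd⟩ : ∃ X : ℕ → Env → ℝ, X = fun i τ => Tc Q.b c τ (z i) (z i + y) - lv c y := ⟨_, rfl⟩
  obtain ⟨B, hBd⟩ : ∃ B : ℕ → Env → ℝ, B = fun i τ => Tc Q.b c τ 0 (u i) - lv c (u i) := ⟨_, rfl⟩
  obtain ⟨U, hUd⟩ : ∃ U : ℕ → Env → ℝ, U = fun i τ => Tc Q.b c τ (v i) Z - lv c (Z - v i) := ⟨_, rfl⟩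
  obtain ⟨S, hSd⟩ : ∃ S : ℕ → Env → Prop, S = fun i τ => X i τ ≤ -t := ⟨_, rfl⟩
  obtain ⟨p, hp⟩ : ∃ p, p = M.P (fun τ => Tc Q.b c τ 0 y - lv c y ≤ -t) := ⟨_, rfl⟩
  rw [← hp]
  -- the laws
  have eX : ∀ i, M.E (X i) = M.E (fun τ => Tc Q.b c τ 0 y - lv c y) := by
    intro i
    have := E_Tc hG c (fun s => s - lv c y) (z i) (z i + y)
    rw [add_sub_cancel_left] at this
    rw [hXd]
    exact this
  have eI : ∀ i, M.E (rI S i) = p := by
    intro i
    have := P_Tc hG c (fun s => s - lv c y ≤ -t) (z i) (z i + y)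
    rw [add_sub_cancel_left] at this
    rw [hp, ← this, M.P_def]
    refine M.E_congr fun τ _ => ?_
    unfold rI
    rw [hSd, hXd]
  -- dependence
  have dX : ∀ i, DependsOn (X i) (edg (Dc c (z i) (z i + y))) := by
    intro i τ τ' h
    have := Tc_dep Q.b c (z i) (z i + y) h
    rw [hXd]
    show Tc Q.b c τ (z i) (z i + y) - lv c y = Tc Q.b c τ' (z i) (z i + y) - lv c y
    have h' : Tc Q.b c τ (z i) (z i + y) = Tc Q.b c τ' (z i) (z i + y) := this
    rw [h']
  have dI : ∀ i, DependsOn (rI S i) (edg (Dc c (z i) (z i + y))) := by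
    intro i τ τ' h
    have := dX i h
    unfold rI
    rw [hSd]
    show (if X i τ ≤ -t then (1 : ℝ) else 0) = if X i τ' ≤ -t then 1 else 0
    rw [this]
  have dB : ∀ i, DependsOn (B i) (edg (Dc c 0 (u i))) := by
    intro i τ τ' h
    have h' : Tc Q.b c τ 0 (u i) = Tc Q.b c τ' 0 (u i) := Tc_dep Q.b c 0 (u i) h
    rw [hBd]
    show Tc Q.b c τ 0 (u i) - lv c (u i) = Tc Q.b c τ' 0 (u i) - lv c (u i)
    rw [h']
  have dU : ∀ i, DependsOn (U i) (edg (Dc c (v i) Z)) := by
    intro i τ τ' h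
    have h' : Tc Q.b c τ (v i) Z = Tc Q.b c τ' (v i) Z := Tc_dep Q.b c (v i) Z h
    rw [hUd]
    show Tc Q.b c τ (v i) Z - lv c (Z - v i) = Tc Q.b c τ' (v i) Z - lv c (Z - v i)
    rw [h']
  obtain ⟨A, hA⟩ : ∃ A : ℕ → Set Edge, A = fun i => {e | ∃ l < i, e ∈ edg (Dc c (z (l + 1)) (z (l + 1) + y))} := ⟨_, rfl⟩
  have dN : ∀ i, DependsOn (rN S i) (A i) := by
    intro i
    induction i with
    | zero =>
      intro τ τ' _
      rw [rN_zero, rN_zero]
    | succ i ih =>
      intro τ τ' h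
      rw [rN_succ, rN_succ]
      have e1 : rN S i τ = rN S i τ' := by
        refine ih fun e he => h e ?_
        rw [hA] at he ⊢
        obtain ⟨l, hl1, hl2⟩ := he
        exact ⟨l, by omega, hl2⟩
      have e2 : rI S (i + 1) τ = rI S (i + 1) τ' := by
        refine dI (i + 1) fun e he => h e ?_
        rw [hA]
        exact ⟨i, by omega, he⟩
      rw [e1, e2]
  have hAR : ∀ i ≤ k, ∀ e ∈ A i, nm e.1 ≤ R := by
    intro i hi e he
    rw [hA] at he
    obtain ⟨l, hl1, hl2⟩ := he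
    exact hR2 (l + 1) (by omega) e hl2
  -- the powers
  have eN : ∀ i ≤ k, M.E (rN S i) = (1 - p) ^ i := by
    intro i
    induction i with
    | zero =>
      intro _
      rw [pow_zero]
      have : M.E (rN S 0) = M.E fun _ => (1 : ℝ) := M.E_congr fun τ _ => rN_zero S τ
      rw [this, M.E_const]
    | succ i ih =>
      intro hi
      have e1 : M.E (rN S (i + 1)) = M.E fun τ => rN S i τ * (1 - rI S (i + 1) τ) := M.E_congr fun τ _ => rN_succ S i τ
      have hd : Disjoint (A i) (edg (Dc c (z (i + 1)) (z (i + 1) + y))) := by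
        rw [Set.disjoint_left]
        intro e he he'
        rw [hA] at he
        obtain ⟨l, hl1, hl2⟩ := he
        exact Set.disjoint_left.1 (h3 (l + 1) (by omega) (i + 1) hi (by omega)) hl2 he'
      have e2 := hG.indep (A i) (edg (Dc c (z (i + 1)) (z (i + 1) + y))) hd (by
        rintro e (he | he)
        · exact hAR i (by omega) e he
        · exact hR2 (i + 1) hi e he) (rN S i) (fun τ => 1 - rI S (i + 1) τ) (dN i) (by
          intro τ τ' h
          show 1 - rI S (i + 1) τ = 1 - rI S (i + 1) τ'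
          rw [dI (i + 1) h])
      have e3 : M.E (fun τ => 1 - rI S (i + 1) τ) = 1 - p := by
        rw [M.E_sub, M.E_const]
        rw [eI (i + 1)]
      rw [e1, e2, ih (by omega), e3, pow_succ]
  -- the pointwise inequality
  have hpt : ∀ τ, Bd Q.a Q.b τ → T τ 0 Z - lv c Z ≤
      ∑ i ∈ range k, rN S i τ * rI S (i + 1) τ * (B (i + 1) τ + U (i + 1) τ + (C' - t)) + rN S k τ * (B 0 τ + X 0 τ + U 0 τ + C') := by
    intro τ hτ
    have hone : ∀ i ≤ k, T τ 0 Z - lv c Z ≤ B i τ + X i τ + U i τ + C' := by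
      intro i hi
      have t1 := T_triangle hτ ha 0 (u i) Z
      have t2 := T_triangle hτ ha (u i) (z i) Z
      have t3 := T_triangle hτ ha (z i) (z i + y) Z
      have t4 := T_triangle hτ ha (z i + y) (v i) Z
      have t5 := T_le_Tc ha hτ c 0 (u i)
      have t6 := T_le_Tc ha hτ c (z i) (z i + y)
      have t7 := T_le_Tc ha hτ c (v i) Z
      have t8 := T_upper hτ ha (u i) (z i)
      have t9 := T_upper hτ ha (z i + y) (v i)
      have t10 := hC i hi
      have e1 : lv c (z i - u i) = lv c (z i) - lv c (u i) := lv_sub _ _ _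
      have e2 : lv c (v i - (z i + y)) = lv c (v i) - (lv c (z i) + lv c y) := by rw [lv_sub, lv_add]
      have e3 : lv c (Z - v i) = lv c Z - lv c (v i) := lv_sub _ _ _
      rw [hBd, hXd, hUd]
      show T τ 0 Z - lv c Z ≤ (Tc Q.b c τ 0 (u i) - lv c (u i)) + (Tc Q.b c τ (z i) (z i + y) - lv c y) +
        (Tc Q.b c τ (v i) Z - lv c (Z - v i)) + C'
      rw [e1, e2] at t10
      rw [e3]
      linarith
    have hs := rN_sum S k τ
    have e1 : T τ 0 Z - lv c Z = ∑ i ∈ range k, rN S i τ * rI S (i + 1) τ * (T τ 0 Z - lv c Z) + rN S k τ * (T τ 0 Z - lv c Z) := by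
      rw [← sum_mul, hs]
      ring
    rw [e1]
    refine add_le_add (sum_le_sum fun i hi => ?_) ?_
    · have hi' := mem_range.1 hi
      have h0 := mul_nonneg (rN_nonneg S i τ) (rI_nonneg S (i + 1) τ)
      by_cases hS : S (i + 1) τ
      · refine mul_le_mul_of_nonneg_left ?_ h0
        have h4 := hone (i + 1) (by omega)
        have h5 : X (i + 1) τ ≤ -t := by
          rw [hSd] at hS
          exact hS
        linarith
      · have : rI S (i + 1) τ = 0 := by
          unfold rI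
          rw [if_neg hS]
        rw [this, mul_zero, zero_mul, zero_mul]
    · exact mul_le_mul_of_nonneg_left (hone 0 (by omega)) (rN_nonneg S k τ)
  -- the mean of the right hand side
  have hAk : ∀ i < k, DependsOn (fun τ => rN S i τ * rI S (i + 1) τ) (A k) := by
    intro i hi τ τ' h
    have e1 : rN S i τ = rN S i τ' := by
      refine dN i fun e he => h e ?_
      rw [hA] at he ⊢
      obtain ⟨l, hl1, hl2⟩ := he
      exact ⟨l, by omega, hl2⟩
    have e2 : rI S (i + 1) τ = rI S (i + 1) τ' := by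
      refine dI (i + 1) fun e he => h e ?_
      rw [hA]
      exact ⟨i, hi, he⟩
    show rN S i τ * rI S (i + 1) τ = rN S i τ' * rI S (i + 1) τ'
    rw [e1, e2]
  have hterm : ∀ i < k, M.E (fun τ => rN S i τ * rI S (i + 1) τ * (B (i + 1) τ + U (i + 1) τ + (C' - t))) ≤
      M.E (fun τ => rN S i τ * rI S (i + 1) τ) * (2 * F + (C' - t)) := by
    intro i hi
    have hd : Disjoint (A k) (edg (Dc c 0 (u (i + 1))) ∪ edg (Dc c (v (i + 1)) Z)) := by
      rw [Set.disjoint_left]
      intro e he he'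
      rw [hA] at he
      obtain ⟨l, hl1, hl2⟩ := he
      rcases he' with he' | he'
      · exact Set.disjoint_left.1 (h1 (i + 1) (by omega) (l + 1) (by omega)) he' hl2
      · exact Set.disjoint_left.1 (h2 (i + 1) (by omega) (l + 1) (by omega)) he' hl2
    have e2 := hG.indep (A k) (edg (Dc c 0 (u (i + 1))) ∪ edg (Dc c (v (i + 1)) Z)) hd (by
      rintro e (he | he | he)
      · exact hAR k le_rfl e he
      · exact hR1 (i + 1) (by omega) e he
      · exact hR3 (i + 1) (by omega) e he) (fun τ => rN S i τ * rI S (i + 1) τ)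
      (fun τ => B (i + 1) τ + U (i + 1) τ + (C' - t)) (hAk i hi) (by
        intro τ τ' h
        show B (i + 1) τ + U (i + 1) τ + (C' - t) = B (i + 1) τ' + U (i + 1) τ' + (C' - t)
        rw [dB (i + 1) fun e he => h e (Or.inl he), dU (i + 1) fun e he => h e (Or.inr he)])
    rw [e2]
    refine mul_le_mul_of_nonneg_left ?_ (M.E_nonneg fun τ _ => mul_nonneg (rN_nonneg S i τ) (rI_nonneg S (i + 1) τ))
    have e3 : M.E (fun τ => B (i + 1) τ + U (i + 1) τ + (C' - t)) = M.E (B (i + 1)) + M.E (U (i + 1)) + (C' - t) := by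
      rw [M.E_add, M.E_add, M.E_const]
    have e4 := hB (i + 1) (by omega)
    have e5 := hU (i + 1) (by omega)
    rw [e3, hBd, hUd]
    have e4' : M.E ((fun i τ => Tc Q.b c τ 0 (u i) - lv c (u i)) (i + 1)) ≤ F := e4
    have e5' : M.E ((fun i τ => Tc Q.b c τ (v i) Z - lv c (Z - v i)) (i + 1)) ≤ F := e5
    linarith
  have hlast : M.E (fun τ => rN S k τ * (B 0 τ + X 0 τ + U 0 τ + C')) ≤ M.E (rN S k) * (3 * F + C') := by
    have hd : Disjoint (A k) (edg (Dc c 0 (u 0)) ∪ (edg (Dc c (z 0) (z 0 + y)) ∪ edg (Dc c (v 0) Z))) := by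
      rw [Set.disjoint_left]
      intro e he he'
      rw [hA] at he
      obtain ⟨l, hl1, hl2⟩ := he
      rcases he' with he' | he' | he'
      · exact Set.disjoint_left.1 (h1 0 (by omega) (l + 1) (by omega)) he' hl2
      · exact Set.disjoint_left.1 (h3 0 (by omega) (l + 1) (by omega) (by omega)) he' hl2
      · exact Set.disjoint_left.1 (h2 0 (by omega) (l + 1) (by omega)) he' hl2
    have e2 := hG.indep (A k) (edg (Dc c 0 (u 0)) ∪ (edg (Dc c (z 0) (z 0 + y)) ∪ edg (Dc c (v 0) Z))) hd (by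
      rintro e (he | he | he | he)
      · exact hAR k le_rfl e he
      · exact hR1 0 (by omega) e he
      · exact hR2 0 (by omega) e he
      · exact hR3 0 (by omega) e he) (rN S k)
      (fun τ => B 0 τ + X 0 τ + U 0 τ + C') (dN k) (by
        intro τ τ' h
        show B 0 τ + X 0 τ + U 0 τ + C' = B 0 τ' + X 0 τ' + U 0 τ' + C'
        rw [dB 0 fun e he => h e (Or.inl he), dX 0 fun e he => h e (Or.inr (Or.inl he)),
          dU 0 fun e he => h e (Or.inr (Or.inr he))])
    rw [e2]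
    refine mul_le_mul_of_nonneg_left ?_ (M.E_nonneg fun τ _ => rN_nonneg S k τ)
    have e3 : M.E (fun τ => B 0 τ + X 0 τ + U 0 τ + C') = M.E (B 0) + M.E (X 0) + M.E (U 0) + C' := by
      rw [M.E_add, M.E_add, M.E_add, M.E_const]
    have e4 := hB 0 (by omega)
    have e5 := hU 0 (by omega)
    rw [e3, eX 0, hBd, hUd]
    have e4' : M.E ((fun i τ => Tc Q.b c τ 0 (u i) - lv c (u i)) 0) ≤ F := e4
    have e5' : M.E ((fun i τ => Tc Q.b c τ (v i) Z - lv c (Z - v i)) 0) ≤ F := e5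
    linarith
  -- the lower bound
  have hlow : -1 ≤ M.E (fun τ => T τ 0 Z - lv c Z) := by
    rw [M.E_sub, M.E_const]
    have h4 := (abs_le.1 (hG.mean Z hZ)).1
    have h5 := hl Z
    linarith
  have hup := M.E_mono hpt
  rw [M.E_add, M.E_sum] at hup
  have hsum : ∑ i ∈ range k, M.E (fun τ => rN S i τ * rI S (i + 1) τ * (B (i + 1) τ + U (i + 1) τ + (C' - t))) ≤
      (1 - (1 - p) ^ k) * (2 * F + (C' - t)) := by
    refine (sum_le_sum fun i hi => hterm i (mem_range.1 hi)).trans (le_of_eq ?_)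
    rw [← sum_mul, ← M.E_sum]
    congr 1
    have e1 : M.E (fun τ => ∑ i ∈ range k, rN S i τ * rI S (i + 1) τ) = M.E fun τ => 1 - rN S k τ :=
      M.E_congr fun τ _ => rN_sum S k τ
    rw [e1, M.E_sub, M.E_const]
    rw [show M.E (fun τ => rN S k τ) = M.E (rN S k) from rfl, eN k le_rfl]
  rw [eN k le_rfl] at hlast
  have hp0 : 0 ≤ (1 - p) ^ k := by
    rw [← eN k le_rfl]
    exact M.E_nonneg fun τ _ => rN_nonneg S k τ
  have hp1 : 0 ≤ 1 - (1 - p) ^ k := by
    have : M.E (rN S k) ≤ 1 := M.E_le_of_le fun τ _ => by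
      unfold rN
      split_ifs <;> norm_num
    rw [eN k le_rfl] at this
    linarith
  have hfin : -1 ≤ (1 - (1 - p) ^ k) * (2 * F + (C' - t)) + (1 - p) ^ k * (3 * F + C') := by
    have := hlow.trans hup
    linarith
  have e6 : (1 - (1 - p) ^ k) * (2 * F + (C' - t)) + (1 - p) ^ k * (3 * F + C') =
      2 * F + C' + (1 - p) ^ k * F - t * (1 - (1 - p) ^ k) := by ring
  have e7 : (1 - p) ^ k * F ≤ 1 * F := mul_le_mul_of_nonneg_right (by linarith) hF
  rw [e6] at hfin
  linarith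

end

end Pool.Agent.W_1b8d5d_sc
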