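import Pool.Agent.W_1b8d5d_sc.FDefs
import Pool.Agent.W_1b8d5d_h85.Grid3

/-!
MP_1b8d5d_pr (SC, part P5): the pieces of a good walk between vertices of increasing levels.
-/

set_option autoImplicit false

namespace Pool.Agent.W_1b8d5d_sc

open Finset Pool.Agent.W_1b8d5d_h85 Pool.Agent.W_1b8d5d_fe

variable {a b : ℝ} {c : Crd} {τ : Env} {B : ℝ}

/-- The levels of the vertices of a good walk. -/
theorem Bgd.lv_le (hτ : Bd a b τ) (ha : 0 ≤ a) {x y : V} {w : grid.Walk x y} (hw : Bgd c τ B w) {v : V}
    (hv : v ∈ w.support) : lv c x - B ≤ lv c v ∧ lv c v ≤ lv c y + B := by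
  classical
  have h0 : ∀ {p q : V} (u : grid.Walk p q), 0 ≤ cost τ u := fun u =>
    le_trans (mul_nonneg ha (Nat.cast_nonneg _)) (le_cost hτ u)
  have hs : w = (w.takeUntil v hv).append (w.dropUntil v hv) := (w.take_spec hv).symm
  have hl : ∀ p q : V, lv c (q - p) = lv c q - lv c p := by
    intro p q
    unfold lv
    rw [map_sub, map_sub]
    ring
  constructor
  · have h1 := hw.2 x v SimpleGraph.Walk.nil (w.takeUntil v hv) (w.dropUntil v hv)
      (by rw [SimpleGraph.Walk.nil_append]; exact hs)
    have h2 := h0 (w.takeUntil v hv)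
    rw [hl] at h1
    linarith
  · have h1 := hw.2 v y (w.takeUntil v hv) (w.dropUntil v hv) SimpleGraph.Walk.nil
      (by rw [SimpleGraph.Walk.append_nil]; exact hs)
    have h2 := h0 (w.dropUntil v hv)
    rw [hl] at h1
    linarith

/-- The pieces of a good walk between vertices of increasing levels: they are consecutive. -/
theorem Bgd.exists_chain (hτ : Bd a b τ) (ha : 0 ≤ a) {x y : V} {w : grid.Walk x y} (hw : Bgd c τ B w) (z : ℕ → V) (m : ℕ)
    (hz : ∀ i ≤ m, z i ∈ w.support) (hl : ∀ i < m, lv c (z i) + B < lv c (z (i + 1))) :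
    ∃ u : ∀ i : ℕ, grid.Walk (z i) (z (i + 1)),
      (∀ i < m, ∃ (w₁ : grid.Walk x (z i)) (w₃ : grid.Walk (z (i + 1)) y), w = w₁.append ((u i).append w₃)) ∧
      ∑ i ∈ range m, cost τ (u i) ≤ lv c (z m) - lv c (z 0) + B := by
  classical
  have h0 : ∀ {p q : V} (u : grid.Walk p q), 0 ≤ cost τ u := fun u =>
    le_trans (mul_nonneg ha (Nat.cast_nonneg _)) (le_cost hτ u)
  have hlv : ∀ p q : V, lv c (q - p) = lv c q - lv c p := by
    intro p q
    unfold lv
    rw [map_sub, map_sub]
    ring
  have key : ∀ k ≤ m, ∃ (u : ∀ i : ℕ, grid.Walk (z i) (z (i + 1))) (U : grid.Walk (z 0) (z k)) (w₁ : grid.Walk x (z 0))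
      (w₃ : grid.Walk (z k) y), w = w₁.append (U.append w₃) ∧
      (∀ i < k, ∃ (w₁ : grid.Walk x (z i)) (w₃ : grid.Walk (z (i + 1)) y), w = w₁.append ((u i).append w₃)) ∧
      ∑ i ∈ range k, cost τ (u i) = cost τ U := by
    intro k
    induction k with
    | zero =>
      intro _
      have h1 := hz 0 (Nat.zero_le m)
      refine ⟨fun i => (exists_walk _ _).choose, SimpleGraph.Walk.nil, w.takeUntil _ h1, w.dropUntil _ h1, ?_, ?_, ?_⟩
      · rw [SimpleGraph.Walk.nil_append, w.take_spec h1]
      · intro i hi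
        omega
      · simp [cost, wedges]
    | succ k ih =>
      intro hk
      obtain ⟨u, U, w₁, w₃, h1, h2, h3⟩ := ih (by omega)
      have h4 : z (k + 1) ∈ w₃.support := by
        have h5 := hz (k + 1) hk
        have h6 := hl k (by omega)
        rw [h1, SimpleGraph.Walk.append_assoc, SimpleGraph.Walk.mem_support_append_iff] at h5
        rcases h5 with h5 | h5
        · exfalso
          have h7 := hw.2 (z (k + 1)) (z k) ((w₁.append U).takeUntil _ h5) ((w₁.append U).dropUntil _ h5) w₃ (by
            rw [SimpleGraph.Walk.append_assoc, SimpleGraph.Walk.take_spec, ← SimpleGraph.Walk.append_assoc]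
            exact h1)
          have h8 := h0 ((w₁.append U).dropUntil _ h5)
          rw [hlv] at h7
          linarith
        · exact h5
      refine ⟨Function.update u k (w₃.takeUntil _ h4), U.append (w₃.takeUntil _ h4), w₁, w₃.dropUntil _ h4, ?_, ?_, ?_⟩
      · rw [← SimpleGraph.Walk.append_assoc U, w₃.take_spec h4]
        exact h1
      · intro i hi
        by_cases hik : i = k
        · subst hik
          rw [Function.update_self]
          exact ⟨w₁.append U, w₃.dropUntil _ h4, by
            rw [w₃.take_spec h4, ← SimpleGraph.Walk.append_assoc]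
            exact h1⟩
        · rw [Function.update_of_ne hik]
          exact h2 i (by omega)
      · rw [sum_range_succ, Function.update_self, cost_append, ← h3]
        congr 1
        refine sum_congr rfl fun i hi => ?_
        rw [Function.update_of_ne (by have := mem_range.1 hi; omega)]
  obtain ⟨u, U, w₁, w₃, h1, h2, h3⟩ := key m le_rfl
  refine ⟨u, h2, ?_⟩
  have h4 := hw.2 _ _ w₁ U w₃ h1
  rw [hlv] at h4
  linarith

/-- ** The connections along a good walk. ** Their total excess is at most `B`; the connection number `i` uses only weights of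
the set `A i`, which contains the edges of the walk of levels between `lv (z i) - B` and `lv (z (i + 1)) + B`. -/
theorem Bgd.sum_T_le (hτ : Bd a b τ) (ha : 0 ≤ a) (hab : a ≤ b) {x y : V} {w : grid.Walk x y} (hw : Bgd c τ B w) (z : ℕ → V)
    (m : ℕ) (hz : ∀ i ≤ m, z i ∈ w.support) (hl : ∀ i < m, lv c (z i) + B < lv c (z (i + 1))) (A : ℕ → Set V)
    (hA : ∀ i < m, ∀ v ∈ w.support, lv c (z i) - B ≤ lv c v → lv c v ≤ lv c (z (i + 1)) + B → v ∈ A i) :
    ∑ i ∈ range m, (T (res b (edg (A i)) τ) (z i) (z (i + 1)) - lv c (z (i + 1) - z i)) ≤ B := by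
  obtain ⟨u, h1, h2⟩ := hw.exists_chain hτ ha z m hz hl
  have hlv : ∀ p q : V, lv c (q - p) = lv c q - lv c p := by
    intro p q
    unfold lv
    rw [map_sub, map_sub]
    ring
  have h3 : ∀ i ∈ range m, T (res b (edg (A i)) τ) (z i) (z (i + 1)) - lv c (z (i + 1) - z i)
      ≤ cost τ (u i) - (lv c (z (i + 1)) - lv c (z i)) := by
    intro i hi
    have him := mem_range.1 hi
    obtain ⟨w₁, w₃, h4⟩ := h1 i him
    have h5 : Bgd c τ B (u i) := by
      refine ⟨?_, ?_⟩
      · have h6 := hw.1
        rw [h4] at h6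
        exact h6.of_append_right.of_append_left
      · intro p q v₁ v₂ v₃ hv
        refine hw.2 p q (w₁.append v₁) v₂ (v₃.append w₃) ?_
        rw [h4, hv]
        simp only [SimpleGraph.Walk.append_assoc]
    have h6 : ∀ v ∈ (u i).support, v ∈ A i := by
      intro v hv
      have h7 := h5.lv_le hτ ha hv
      refine hA i him v ?_ h7.1 h7.2
      rw [h4, SimpleGraph.Walk.mem_support_append_iff, SimpleGraph.Walk.mem_support_append_iff]
      exact Or.inr (Or.inl hv)
    have h8 : cost (res b (edg (A i)) τ) (u i) = cost τ (u i) := by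
      refine cost_congr _ fun e he => ?_
      unfold res
      rw [if_pos]
      exact ⟨h6 _ (wedges_support _ he).1, h6 _ (wedges_support _ he).2⟩
    have h9 := T_le_cost (Bd_res hab hτ (edg (A i))) ha (u i)
    rw [hlv]
    linarith
  refine (sum_le_sum h3).trans ?_
  rw [sum_sub_distrib, sum_range_sub (fun i => lv c (z i)) m]
  linarith

end Pool.Agent.W_1b8d5d_sc
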