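import Pool.Agent.W_1b8d5d_fe.Geo
import Pool.Agent.W_1b8d5d_fe.Cv
import Pool.Agent.W_1b8d5d_h85.Grid2

/-!
MP_1b8d5d_pr (SC, part P5): on the overlap event the geodesics of a cell stay near the cell.
-/

set_option autoImplicit false

namespace Pool.Agent.W_1b8d5d_sc

open Finset Pool.Agent.W_1b8d5d_h85 Pool.Agent.W_1b8d5d_fe

/-- A large value of `- (2 p + q)` or of `- (p + 2 q)`. -/
private theorem pc_max {P q D : ℝ} (h : 2 * P + q < -D ∨ P + 2 * q < -D) : D / 3 ≤ max (-P) (-q) := by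
  rcases le_total (-P) (-q) with h1 | h1
  · rw [max_eq_right h1]
    rcases h with h | h <;> linarith
  · rw [max_eq_left h1]
    rcases h with h | h <;> linarith

/-- The barrier for a vector which leaves the cone by `D`. -/
private theorem pc_bar {g : V → ℝ} {c : Crd} {K c₀ D : ℝ} (hK : 0 < K) (hc₀ : 0 < c₀)
    (hbar : ∀ z, 1 / (6 * K) * nm z ≤ max (-c.p z) (-c.q z) → lv c z + c₀ * nm z ≤ g z) {z : V}
    (hz : nm z ≤ 2 * K * D) (h : 2 * c.p z + c.q z < -D ∨ c.p z + 2 * c.q z < -D) :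
    lv c z + c₀ / (3 * c.C) * D ≤ g z := by
  have hC : 0 < c.C := by linarith [c.one_le]
  have h1 := pc_max h
  have h2 : 1 / (6 * K) * nm z ≤ max (-c.p z) (-c.q z) := by
    refine le_trans ?_ h1
    have h3 := mul_le_mul_of_nonneg_left hz (by positivity : 0 ≤ 1 / (6 * K))
    refine h3.trans (le_of_eq ?_)
    field_simp
    ring
  have h3 := hbar z h2
  have h4 : max (-c.p z) (-c.q z) ≤ c.C * nm z :=
    max_le ((neg_le_abs _).trans (c.p_le z)) ((neg_le_abs _).trans (c.q_le z))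
  have h5 : D ≤ 3 * c.C * nm z := by linarith
  have h6 : c₀ / (3 * c.C) * D ≤ c₀ * nm z := by
    have h7 := mul_le_mul_of_nonneg_left h5 (by positivity : 0 ≤ c₀ / (3 * c.C))
    refine h7.trans (le_of_eq ?_)
    field_simp
  linarith

/-- The overlap event, for a pair in the box at distance at most `t`. -/
private theorem pc_ov {g : V → ℝ} {L s t : ℝ} {τ : Env} (hs : 0 ≤ s) (hOv : Ov g L s τ) {x y : V} (hx : nm x ≤ L) (hy : nm y ≤ L)
    (h1 : nm (y - x) ≤ t) (h2 : s ≤ t) :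
    g (y - x) - t ^ (3 / 5 : ℝ) ≤ T τ x y ∧ T τ x y ≤ g (y - x) + t ^ (3 / 5 : ℝ) := by
  have e1 := abs_le.1 (hOv x y hx hy)
  have e2 : max s (nm (y - x)) ^ (3 / 5 : ℝ) ≤ t ^ (3 / 5 : ℝ) :=
    Real.rpow_le_rpow (hs.trans (le_max_left _ _)) (max_le h2 h1) (by norm_num)
  constructor
  · linarith [e1.1]
  · linarith [e1.2]

/-- A geodesic between two deep points stays in the double cone. -/
private theorem pc_det {Q : Par} {g : V → ℝ} {c : Crd} (hl : ∀ z, lv c z ≤ g z) {K c₀ D ρ s L : ℝ} {τ : Env} {x y u v : V}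
    (hD : 0 < D) (hK : 1 ≤ K) (hc₀ : 0 < c₀)
    (hbar : ∀ z, 1 / (6 * K) * nm z ≤ max (-c.p z) (-c.q z) → lv c z + c₀ * nm z ≤ g z)
    (hs0 : 0 ≤ s) (hs : s ≤ 2 * K * D) (hnum : ρ + 3 * (2 * K * D) ^ (3 / 5 : ℝ) < c₀ / (3 * c.C) * D)
    (hτ : Bd Q.a Q.b τ) (hOv : Ov g L s τ) (hnm : nm (v - u) ≤ K * D) (hbK : Q.b / Q.a * nm (v - u) ≤ K * D)
    (hL : nm u + K * D ≤ L) (hrate : g (v - u) ≤ lv c (v - u) + ρ)
    (hx : D ≤ 2 * c.p (u - x) + c.q (u - x) ∧ D ≤ c.p (u - x) + 2 * c.q (u - x))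
    (hy : D ≤ 2 * c.p (y - v) + c.q (y - v) ∧ D ≤ c.p (y - v) + 2 * c.q (y - v))
    {w : grid.Walk u v} (hw : IsGeo τ w) (i : ℕ) : w.getVert i ∈ Dc c x y := by
  have ha := Q.ha
  set z := w.getVert i with hz
  have e1 : nm (z - u) ≤ K * D := (geo_near hτ ha hw i).trans hbK
  have e3 : nm (v - z) ≤ 2 * K * D := by
    have h1 := nm_add_le (v - u) (u - z)
    rw [sub_add_sub_cancel, nm_sub_comm u z] at h1
    linarith
  have hKD1 : K * D ≤ 2 * K * D := by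
    have : 0 ≤ K * D := by positivity
    linarith
  have n1 : nm z ≤ L := by
    have h1 := nm_add_le u (z - u)
    rw [add_sub_cancel] at h1
    linarith
  have n2 : nm v ≤ L := by
    have h1 := nm_add_le u (v - u)
    rw [add_sub_cancel] at h1
    linarith
  have n0 : nm u ≤ L := by
    have : 0 ≤ K * D := by positivity
    linarith
  have o1 := pc_ov hs0 hOv n0 n1 (e1.trans hKD1) hs
  have o2 := pc_ov hs0 hOv n1 n2 e3 hs
  have o3 := pc_ov hs0 hOv n0 n2 (hnm.trans hKD1) hs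
  have hadd := geo_add hτ ha.le hw i
  rw [← hz] at hadd
  have key : g (z - u) + g (v - z) ≤ lv c (v - u) + ρ + 3 * (2 * K * D) ^ (3 / 5 : ℝ) := by
    linarith [o1.1, o2.1, o3.2]
  have hlv : lv c (v - u) = lv c (z - u) + lv c (v - z) := by
    rw [← lv_add]
    congr 1
    abel
  have l1 := hl (z - u)
  have l2 := hl (v - z)
  have hK0 : 0 < K := by linarith
  have b1 : ¬ (2 * c.p (z - u) + c.q (z - u) < -D ∨ c.p (z - u) + 2 * c.q (z - u) < -D) := by
    intro h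
    have h1 := pc_bar hK0 hc₀ hbar (e1.trans hKD1) h
    linarith
  have b2 : ¬ (2 * c.p (v - z) + c.q (v - z) < -D ∨ c.p (v - z) + 2 * c.q (v - z) < -D) := by
    intro h
    have h1 := pc_bar hK0 hc₀ hbar e3 h
    linarith
  rw [not_or, not_lt, not_lt] at b1 b2
  simp only [map_sub] at b1 b2 hx hy
  refine ⟨⟨?_, ?_⟩, ?_, ?_⟩
  · rw [map_sub, map_sub]
    linarith [b1.1, hx.1]
  · rw [map_sub, map_sub]
    linarith [b1.2, hx.2]
  · rw [map_sub, map_sub]
    linarith [b2.1, hy.1]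
  · rw [map_sub, map_sub]
    linarith [b2.2, hy.2]

/-- A small power. -/
private theorem pc_pow {A δ : ℝ} (hA : 0 < A) (hδ : 0 < δ) : ∃ w₁ : ℝ, 1 ≤ w₁ ∧ ∀ w : ℝ, w₁ ≤ w → (A * w) ^ (3 / 5 : ℝ) ≤ δ * w := by
  obtain ⟨m, hm⟩ : ∃ m : ℝ, m = max 1 (A / δ) := ⟨_, rfl⟩
  have hm1 : 1 ≤ m := hm ▸ le_max_left _ _
  have hm2 : A / δ ≤ m := hm ▸ le_max_right _ _
  refine ⟨max 1 (m ^ 5 / A), le_max_left _ _, fun w hw => ?_⟩
  have hw1 : 1 ≤ w := (le_max_left _ _).trans hw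
  have hw2 : m ^ 5 ≤ A * w := by
    have h1 := (le_max_right _ _).trans hw
    rw [div_le_iff₀ hA] at h1
    linarith
  obtain ⟨t, ht⟩ : ∃ t, t = A * w := ⟨_, rfl⟩
  rw [← ht] at hw2 ⊢
  have ht0 : 0 < t := lt_of_lt_of_le (by positivity) hw2
  have h1 : m ≤ t ^ (1 / 5 : ℝ) := by
    have h2 : (m ^ 5) ^ (1 / 5 : ℝ) = m := by
      rw [← Real.rpow_natCast, ← Real.rpow_mul (by linarith)]
      norm_num
    have h3 : (m ^ 5) ^ (1 / 5 : ℝ) ≤ t ^ (1 / 5 : ℝ) := Real.rpow_le_rpow (by positivity) hw2 (by norm_num)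
    linarith
  have h2 : t = t ^ (3 / 5 : ℝ) * (t ^ (1 / 5 : ℝ) * t ^ (1 / 5 : ℝ)) := by
    rw [← Real.rpow_add ht0, ← Real.rpow_add ht0]
    norm_num
  have h3 : m ≤ t ^ (1 / 5 : ℝ) * t ^ (1 / 5 : ℝ) := by nlinarith
  have h4 : 0 ≤ t ^ (3 / 5 : ℝ) := Real.rpow_nonneg ht0.le _
  have h5 : t ^ (3 / 5 : ℝ) * m ≤ t := by
    have h6 := mul_le_mul_of_nonneg_left h3 h4
    rwa [← h2] at h6
  have h6 : t ^ (3 / 5 : ℝ) * (A / δ) ≤ t := (mul_le_mul_of_nonneg_left hm2 h4).trans h5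
  rw [mul_div_assoc', div_le_iff₀ hδ] at h6
  rw [ht] at h6 ⊢
  have h7 : (A * w) ^ (3 / 5 : ℝ) * A ≤ (δ * w) * A := by linarith
  exact le_of_mul_le_mul_right h7 hA

/-- The rate over the flat piece, with rounding. -/
private theorem pc_rate {Q : Par} {g : V → ℝ} (hg : IsMean Q g) {c : Crd} (hf : FlatS g c) {η : ℝ} (hη : 0 < η) :
    ∃ A : ℝ, 0 ≤ A ∧ ∀ z, -(2 * c.C) ≤ c.p z → -(2 * c.C) ≤ c.q z → g z ≤ lv c z + η * nm z + A := by
  obtain ⟨N, hN⟩ := hf.upp η hη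
  have hb : 0 < Q.b := Q.ha.trans Q.hab
  have hC := c.one_le
  have hM : 0 ≤ max N 0 := le_max_right _ _
  obtain ⟨s, hs⟩ : ∃ s, s = c.rd (3 * c.C) (3 * c.C) := ⟨_, rfl⟩
  have e1 := abs_le.1 (c.rd_p (3 * c.C) (3 * c.C))
  have e2 := abs_le.1 (c.rd_q (3 * c.C) (3 * c.C))
  rw [← hs] at e1 e2
  have e3 : nm s ≤ 8 * c.C ^ 2 := by
    refine (c.nm_le s).trans ?_
    rw [abs_of_nonneg (by linarith [e1.1] : 0 ≤ c.p s), abs_of_nonneg (by linarith [e2.1] : 0 ≤ c.q s)]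
    have h1 : c.p s + c.q s ≤ 8 * c.C := by linarith [e1.2, e2.2]
    have h2 := mul_le_mul_of_nonneg_left h1 (by linarith : 0 ≤ c.C)
    linarith
  refine ⟨8 * Q.b * c.C ^ 2 + 8 * c.C + η * (8 * c.C ^ 2) + Q.b * max N 0, by positivity, fun z hp hq => ?_⟩
  have h1 : g z ≤ g (z + s) + g s := by
    have h2 := hg.add (z + s) (-s)
    rw [add_neg_cancel_right, hg.neg] at h2
    exact h2
  have h2 : g s ≤ 8 * Q.b * c.C ^ 2 := by
    have h3 := mul_le_mul_of_nonneg_left e3 hb.le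
    have h4 := hg.upp s
    linarith
  have p1 : 0 ≤ c.p (z + s) := by rw [map_add]; linarith [e1.1]
  have p2 : 0 ≤ c.q (z + s) := by rw [map_add]; linarith [e2.1]
  have p3 : lv c (z + s) ≤ lv c z + 8 * c.C := by
    rw [lv_add]
    have : lv c s ≤ 8 * c.C := by unfold lv; linarith [e1.2, e2.2]
    linarith
  have p4 : nm (z + s) ≤ nm z + 8 * c.C ^ 2 := (nm_add_le z s).trans (by linarith)
  have p5 := mul_le_mul_of_nonneg_left p4 hη.le
  have p6 : 0 ≤ Q.b * max N 0 := by positivity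
  rcases le_total N (nm (z + s)) with h3 | h3
  · have h4 := hN (z + s) h3 p1 p2
    linarith
  · have h4 := hg.upp (z + s)
    have h5 := mul_le_mul_of_nonneg_left (h3.trans (le_max_left N 0)) hb.le
    have h6 : 0 ≤ lv c (z + s) := by unfold lv; linarith
    have h7 : 0 ≤ η * nm z := mul_nonneg hη.le (nm_nonneg z)
    have h8 : 0 ≤ η * (8 * c.C ^ 2) := by positivity
    linarith

/-- On the overlap event the passage time of the double cone is at most `(1 + ζ) lv`. -/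
theorem conf_up {Q : Par} {g : V → ℝ} (hg : IsMean Q g) {c : Crd} (hf : FlatS g c) {ζ : ℝ} (hζ : 0 < ζ) :
    ∃ A w₀ : ℝ, 1 ≤ A ∧ 1 ≤ w₀ ∧ ∀ (τ : Env) (L w : ℝ) (u v : V), Bd Q.a Q.b τ → 0 ≤ c.p (v - u) → 0 ≤ c.q (v - u) →
      w = lv c (v - u) → w₀ ≤ w → nm u + A * w ≤ L → Ov g L w τ → Tc Q.b c τ u v ≤ w + ζ * w := by
  have ha := Q.ha
  have hab := Q.hab
  have hb : 0 < Q.b := ha.trans hab
  have hC := c.one_le
  have hC0 : 0 < c.C := by linarith
  obtain ⟨C, hCC⟩ : ∃ C, C = c.C := ⟨_, rfl⟩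
  obtain ⟨b, hbb⟩ : ∃ b, b = Q.b := ⟨_, rfl⟩
  rw [← hCC] at hC hC0
  rw [← hbb] at hab hb
  obtain ⟨θ, hθ⟩ : ∃ θ : ℝ, θ = min (1 / 4) (ζ / (16 * b * C)) := ⟨_, rfl⟩
  have hθ0 : 0 < θ := by rw [hθ]; positivity
  have hθ1 : θ ≤ 1 / 4 := by rw [hθ]; exact min_le_left _ _
  have hθ2 : 16 * b * C * θ ≤ ζ := by
    have h1 : θ ≤ ζ / (16 * b * C) := by rw [hθ]; exact min_le_right _ _
    rw [le_div_iff₀ (by positivity)] at h1
    linarith
  have hba : 1 ≤ b / Q.a := by rw [one_le_div ha]; exact hab.le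
  obtain ⟨K, hK⟩ : ∃ K : ℝ, K = b / Q.a * (4 * C / θ) := ⟨_, rfl⟩
  have h4C : 4 ≤ 4 * C / θ := by
    rw [le_div_iff₀ hθ0]
    nlinarith
  have hK4 : 4 * C / θ ≤ K := by
    rw [hK]
    have := mul_le_mul_of_nonneg_right hba (by linarith : 0 ≤ 4 * C / θ)
    linarith
  have hK1 : 1 ≤ K := by linarith
  have hK0 : 0 < K := by linarith
  have hKθ : K * θ = b / Q.a * (4 * C) := by rw [hK]; field_simp
  have hKθ1 : 4 ≤ K * θ := by
    rw [hKθ]
    nlinarith
  obtain ⟨c₀, hc₀, hbar⟩ := hf.bar (1 / (6 * K)) (by positivity)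
  obtain ⟨η, hη⟩ : ∃ η : ℝ, η = min (ζ / (16 * C)) (c₀ * θ / (48 * C ^ 2)) := ⟨_, rfl⟩
  have hη0 : 0 < η := by rw [hη]; positivity
  have hη1 : 16 * C * η ≤ ζ := by
    have h1 : η ≤ ζ / (16 * C) := by rw [hη]; exact min_le_left _ _
    rw [le_div_iff₀ (by positivity)] at h1
    linarith
  have hη2 : η * (48 * C ^ 2) ≤ c₀ * θ := by
    have h1 : η ≤ c₀ * θ / (48 * C ^ 2) := by rw [hη]; exact min_le_right _ _
    rwa [le_div_iff₀ (by positivity)] at h1
  obtain ⟨A₁, hA₁, hrate⟩ := pc_rate hg hf hη0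
  obtain ⟨κ, hκ⟩ : ∃ κ : ℝ, κ = c₀ * θ / (24 * C) := ⟨_, rfl⟩
  have hκ0 : 0 < κ := by rw [hκ]; positivity
  obtain ⟨w₁, hw₁, hpow⟩ := pc_pow (A := K * θ) (δ := min (κ / 3) (ζ / 8)) (by positivity) (by positivity)
  refine ⟨1 + C + 2 * C ^ 2 + K, max (max w₁ (6 * C / θ)) (max (A₁ / κ) (max (8 * A₁ / ζ) (max (32 * b * C ^ 2 / ζ) (4 * C)))),
    by linarith [sq_nonneg C], hw₁.trans ((le_max_left _ _).trans (le_max_left _ _)), ?_⟩
  intro τ L w u v hτ hp hq hw hww hL hOv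
  have a1 : w₁ ≤ w := ((le_max_left _ _).trans (le_max_left _ _)).trans hww
  have a2 : 6 * C / θ ≤ w := ((le_max_right _ _).trans (le_max_left _ _)).trans hww
  have a3 : A₁ / κ ≤ w := ((le_max_left _ _).trans (le_max_right _ _)).trans hww
  have a4 : 8 * A₁ / ζ ≤ w := (((le_max_left _ _).trans (le_max_right _ _)).trans (le_max_right _ _)).trans hww
  have a5 : 32 * b * C ^ 2 / ζ ≤ w :=
    ((((le_max_left _ _).trans (le_max_right _ _)).trans (le_max_right _ _)).trans (le_max_right _ _)).trans hww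
  have a6 : 4 * C ≤ w :=
    ((((le_max_right _ _).trans (le_max_right _ _)).trans (le_max_right _ _)).trans (le_max_right _ _)).trans hww
  have hw1 : 1 ≤ w := hw₁.trans a1
  have hw0 : 0 < w := by linarith
  rw [div_le_iff₀ hθ0] at a2
  rw [div_le_iff₀ hκ0] at a3
  rw [div_le_iff₀ hζ] at a4 a5
  have hpw := hpow w a1
  have hpw1 : (K * θ * w) ^ (3 / 5 : ℝ) ≤ κ / 3 * w := hpw.trans (mul_le_mul_of_nonneg_right (min_le_left _ _) hw0.le)
  have hpw2 : (K * θ * w) ^ (3 / 5 : ℝ) ≤ ζ / 8 * w := hpw.trans (mul_le_mul_of_nonneg_right (min_le_right _ _) hw0.le)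
  obtain ⟨y, hy⟩ : ∃ y, y = v - u := ⟨_, rfl⟩
  rw [← hy] at hp hq hw
  have hvy : v = u + y := by rw [hy]; abel
  have hpq : w = c.p y + c.q y := hw
  obtain ⟨r₁, hr₁⟩ : ∃ r, r = c.rd (θ * c.p y) (θ * c.q y) := ⟨_, rfl⟩
  obtain ⟨r₂, hr₂⟩ : ∃ r, r = c.rd ((1 - θ) * c.p y) ((1 - θ) * c.q y) := ⟨_, rfl⟩
  have p1 := abs_le.1 (c.rd_p (θ * c.p y) (θ * c.q y))
  have p2 := abs_le.1 (c.rd_q (θ * c.p y) (θ * c.q y))
  have p3 := abs_le.1 (c.rd_p ((1 - θ) * c.p y) ((1 - θ) * c.q y))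
  have p4 := abs_le.1 (c.rd_q ((1 - θ) * c.p y) ((1 - θ) * c.q y))
  rw [← hr₁, ← hCC] at p1 p2
  rw [← hr₂, ← hCC] at p3 p4
  have t1 : 0 ≤ θ * c.p y := mul_nonneg hθ0.le hp
  have t2 : 0 ≤ θ * c.q y := mul_nonneg hθ0.le hq
  have t3 : θ * w = θ * c.p y + θ * c.q y := by rw [hpq]; ring
  have t4 : 0 ≤ (1 - 2 * θ) * c.p y := mul_nonneg (by linarith) hp
  have t5 : 0 ≤ (1 - 2 * θ) * c.q y := mul_nonneg (by linarith) hq
  -- sizes of the end pieces
  have n1 : nm r₁ ≤ C * (θ * w + 2 * C) := by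
    have h1 := c.nm_le r₁
    rw [← hCC] at h1
    refine h1.trans (mul_le_mul_of_nonneg_left ?_ hC0.le)
    have h2 : |c.p r₁| ≤ θ * c.p y + C := by rw [abs_le]; constructor <;> linarith [p1.1, p1.2]
    have h3 : |c.q r₁| ≤ θ * c.q y + C := by rw [abs_le]; constructor <;> linarith [p2.1, p2.2]
    linarith
  have n2 : nm (y - r₂) ≤ C * (θ * w + 2 * C) := by
    have h1 := c.nm_le (y - r₂)
    rw [← hCC] at h1
    refine h1.trans (mul_le_mul_of_nonneg_left ?_ hC0.le)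
    have h2 : |c.p (y - r₂)| ≤ θ * c.p y + C := by rw [map_sub, abs_le]; constructor <;> linarith [p3.1, p3.2]
    have h3 : |c.q (y - r₂)| ≤ θ * c.q y + C := by rw [map_sub, abs_le]; constructor <;> linarith [p4.1, p4.2]
    linarith
  have m1 : -(2 * C) ≤ c.p (r₂ - r₁) ∧ c.p (r₂ - r₁) ≤ (1 - 2 * θ) * c.p y + 2 * C := by
    rw [map_sub]
    constructor <;> linarith [p1.1, p1.2, p3.1, p3.2]
  have m2 : -(2 * C) ≤ c.q (r₂ - r₁) ∧ c.q (r₂ - r₁) ≤ (1 - 2 * θ) * c.q y + 2 * C := by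
    rw [map_sub]
    constructor <;> linarith [p2.1, p2.2, p4.1, p4.2]
  have m3 : nm (r₂ - r₁) ≤ 2 * C * w := by
    have h1 := c.nm_le (r₂ - r₁)
    rw [← hCC] at h1
    have h2 : |c.p (r₂ - r₁)| ≤ (1 - 2 * θ) * c.p y + 2 * C := by rw [abs_le]; constructor <;> linarith [m1.1, m1.2]
    have h3 : |c.q (r₂ - r₁)| ≤ (1 - 2 * θ) * c.q y + 2 * C := by rw [abs_le]; constructor <;> linarith [m2.1, m2.2]
    have h4 : |c.p (r₂ - r₁)| + |c.q (r₂ - r₁)| ≤ 2 * w := by linarith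
    have h5 := mul_le_mul_of_nonneg_left h4 hC0.le
    linarith
  have m4 : lv c (r₂ - r₁) ≤ w := by
    unfold lv
    linarith [m1.2, m2.2]
  have hD : (K * (θ * w / 2)) = K * θ * w / 2 := by ring
  have hD2 : 2 * K * (θ * w / 2) = K * θ * w := by ring
  have hKw : 2 * C * w ≤ K * θ * w / 2 ∧ b / Q.a * (2 * C * w) ≤ K * θ * w / 2 := by
    have h1 : b / Q.a * (2 * C * w) = K * θ * w / 2 := by rw [hKθ]; ring
    refine ⟨?_, h1.le⟩
    rw [← h1]
    have := mul_le_mul_of_nonneg_right hba (by positivity : 0 ≤ 2 * C * w)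
    linarith
  have s1 : nm (u + r₁) ≤ nm u + C * (θ * w + 2 * C) := (nm_add_le _ _).trans (by linarith)
  have s2 : C * (θ * w + 2 * C) + K * θ * w / 2 ≤ (1 + C + 2 * C ^ 2 + K) * w := by
    have h1 : C * (θ * w) ≤ C * w := by
      exact mul_le_mul_of_nonneg_left (mul_le_of_le_one_left hw0.le (by linarith)) hC0.le
    have h2 : 2 * C ^ 2 ≤ 2 * C ^ 2 * w := le_mul_of_one_le_right (by positivity) hw1
    have h3 : K * θ * w / 2 ≤ K * w := by
      have : K * θ * w ≤ K * w := mul_le_mul_of_nonneg_right (mul_le_of_le_one_right hK0.le (by linarith)) hw0.le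
      have h4 : 0 ≤ K * w := by positivity
      linarith
    have h4 : C * (θ * w + 2 * C) = C * (θ * w) + 2 * C ^ 2 := by ring
    have h5 : (1 + C + 2 * C ^ 2 + K) * w = w + C * w + 2 * C ^ 2 * w + K * w := by ring
    rw [h4, h5]
    linarith
  have hr := hrate (r₂ - r₁) (by rw [← hCC]; exact m1.1) (by rw [← hCC]; exact m2.1)
  have hηn : η * nm (r₂ - r₁) ≤ η * (2 * C * w) := mul_le_mul_of_nonneg_left m3 hη0.le
  have evu : u + r₂ - (u + r₁) = r₂ - r₁ := by abel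
  have hκw : c₀ / (3 * C) * (θ * w / 2) = 4 * (κ * w) := by rw [hκ]; field_simp; ring
  have hηk : η * (2 * C * w) ≤ κ * w := by
    have h1 : η * (2 * C) ≤ κ := by
      rw [hκ, le_div_iff₀ (by positivity)]
      have h9 : η * (2 * C) * (24 * C) = η * (48 * C ^ 2) := by ring
      rw [h9]
      exact hη2
    have := mul_le_mul_of_nonneg_right h1 hw0.le
    linarith
  have hκw0 : 0 < κ * w := by positivity
  have hKθw : w ≤ K * θ * w := le_mul_of_one_le_left hw0.le (by linarith)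
  -- the middle piece
  have hmid : T (res Q.b (edg (Dc c u v)) τ) (u + r₁) (u + r₂) ≤ w + (η * (2 * C * w) + A₁) + ζ / 8 * w := by
    obtain ⟨gw, hgw⟩ := exists_geo hτ ha (u + r₁) (u + r₂)
    have e1 : T (res Q.b (edg (Dc c u v)) τ) (u + r₁) (u + r₂) = T τ (u + r₁) (u + r₂) := by
      refine T_res_eq ha.le Q.hab.le hτ hgw.2 fun e he => ?_
      have hs := wedges_support gw he
      have hall : ∀ z ∈ gw.support, z ∈ Dc c u v := by
        intro z hz
        obtain ⟨i, hi, -⟩ := SimpleGraph.Walk.mem_support_iff_exists_getVert.1 hz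
        rw [← hi]
        refine pc_det hf.low (D := θ * w / 2) (K := K) (c₀ := c₀) (ρ := η * (2 * C * w) + A₁) (s := w) (L := L)
          (by positivity) hK1 hc₀ hbar hw0.le ?_ ?_ hτ hOv ?_ ?_ ?_ ?_ ?_ ?_ hgw i
        · rw [hD2]
          exact hKθw
        · rw [hD2, ← hCC, hκw]
          linarith
        · rw [evu, hD]
          linarith [hKw.1]
        · rw [evu, hD, ← hbb]
          have := mul_le_mul_of_nonneg_left m3 (by positivity : 0 ≤ b / Q.a)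
          linarith [hKw.2]
        · rw [hD]
          linarith
        · rw [evu]
          linarith
        · rw [add_sub_cancel_left]
          constructor <;> linarith [p1.1, p2.1]
        · have : v - (u + r₂) = y - r₂ := by rw [hvy]; abel
          rw [this, map_sub, map_sub]
          constructor <;> linarith [p3.2, p4.2]
      exact ⟨hall _ hs.1, hall _ hs.2⟩
    rw [e1]
    have n5 : nm (u + r₁) ≤ L := by
      have : 0 ≤ K * θ * w / 2 := by positivity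
      linarith
    have n6 : nm (u + r₂) ≤ L := by
      have h1 := nm_add_le (u + r₁) (r₂ - r₁)
      have h2 : u + r₁ + (r₂ - r₁) = u + r₂ := by abel
      rw [h2] at h1
      linarith [hKw.1]
    have o := pc_ov hw0.le hOv n5 n6 (t := K * θ * w) (by rw [evu]; linarith [hKw.1]) hKθw
    rw [evu] at o
    linarith [o.2]
  have hu1 : T (res Q.b (edg (Dc c u v)) τ) u (u + r₁) ≤ b * (C * (θ * w + 2 * C)) := by
    have h1 := T_upper (Bd_res Q.hab.le hτ (edg (Dc c u v))) ha.le u (u + r₁)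
    rw [add_sub_cancel_left, ← hbb] at h1
    rw [← hbb]
    exact h1.trans (mul_le_mul_of_nonneg_left n1 hb.le)
  have hu2 : T (res Q.b (edg (Dc c u v)) τ) (u + r₂) v ≤ b * (C * (θ * w + 2 * C)) := by
    have h1 := T_upper (Bd_res Q.hab.le hτ (edg (Dc c u v))) ha.le (u + r₂) v
    have h2 : v - (u + r₂) = y - r₂ := by rw [hvy]; abel
    rw [h2, ← hbb] at h1
    rw [← hbb]
    exact h1.trans (mul_le_mul_of_nonneg_left n2 hb.le)
  have htr1 := T_triangle (Bd_res Q.hab.le hτ (edg (Dc c u v))) ha.le u (u + r₁) v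
  have htr2 := T_triangle (Bd_res Q.hab.le hτ (edg (Dc c u v))) ha.le (u + r₁) (u + r₂) v
  unfold Tc
  have f1 : 16 * b * C * θ * w ≤ ζ * w := mul_le_mul_of_nonneg_right hθ2 hw0.le
  have f2 : 16 * C * η * w ≤ ζ * w := mul_le_mul_of_nonneg_right hη1 hw0.le
  have f3 : 0 ≤ ζ * w := by positivity
  have f4 : b * (C * (θ * w + 2 * C)) = b * C * θ * w + 2 * (b * C ^ 2) := by ring
  have f5 : η * (2 * C * w) = 2 * (C * η * w) := by ring
  have f6 : 16 * b * C * θ * w = 16 * (b * C * θ * w) := by ring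
  have f7 : 16 * C * η * w = 16 * (C * η * w) := by ring
  have f8 : 32 * b * C ^ 2 = 32 * (b * C ^ 2) := by ring
  have f9 : ζ / 8 * w = ζ * w / 8 := by ring
  rw [f4] at hu1 hu2
  rw [f5, f9] at hmid
  rw [f6] at f1
  rw [f7] at f2
  rw [f8] at a5
  linarith

/-- The barrier for a vector outside the cell. -/
private theorem pc_far {g : V → ℝ} {c : Crd} {C₁ c₀ w : ℝ} (hC₁ : 0 < C₁) (hc₀ : 0 < c₀) (hw : 0 < w)
    (hbar : ∀ z, 1 / (64 * C₁) * nm z ≤ max (-c.p z) (-c.q z) → lv c z + c₀ * nm z ≤ g z) {z : V}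
    (hz : nm z ≤ C₁ * w) (h : c.p z < -(w / 64) ∨ c.q z < -(w / 64)) : lv c z + c₀ / (64 * c.C) * w ≤ g z := by
  have hC : 0 < c.C := by linarith [c.one_le]
  have h1 : w / 64 ≤ max (-c.p z) (-c.q z) := by
    rcases h with h | h
    · exact le_trans (by linarith) (le_max_left _ _)
    · exact le_trans (by linarith) (le_max_right _ _)
  have h2 : 1 / (64 * C₁) * nm z ≤ max (-c.p z) (-c.q z) := by
    refine le_trans ?_ h1
    have h3 := mul_le_mul_of_nonneg_left hz (by positivity : 0 ≤ 1 / (64 * C₁))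
    refine h3.trans (le_of_eq ?_)
    field_simp
  have h3 := hbar z h2
  have h4 : max (-c.p z) (-c.q z) ≤ c.C * nm z :=
    max_le ((neg_le_abs _).trans (c.p_le z)) ((neg_le_abs _).trans (c.q_le z))
  have h5 : w ≤ 64 * c.C * nm z := by linarith
  have h6 : c₀ / (64 * c.C) * w ≤ c₀ * nm z := by
    have h7 := mul_le_mul_of_nonneg_left h5 (by positivity : 0 ≤ c₀ / (64 * c.C))
    refine h7.trans (le_of_eq ?_)
    field_simp
  linarith

/-- On the overlap event all geodesics of a cell stay near the cell. -/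
theorem conf_ov {Q : Par} {g : V → ℝ} (hg : IsMean Q g) {c : Crd} (hf : FlatS g c) :
    ∃ A w₀ : ℝ, 1 ≤ A ∧ 1 ≤ w₀ ∧ ∀ (τ : Env) (L w : ℝ) (u v : V), Bd Q.a Q.b τ → 0 ≤ c.p (v - u) → 0 ≤ c.q (v - u) →
      w = lv c (v - u) → w₀ ≤ w → nm u + A * w ≤ L → Ov g L w τ →
      ∀ z, T (res Q.b (edg (Dc c u v)) τ) u z + T (res Q.b (edg (Dc c u v)) τ) z v = T (res Q.b (edg (Dc c u v)) τ) u v →
        (-(w / 64) ≤ c.p (z - u) ∧ -(w / 64) ≤ c.q (z - u)) ∧ -(w / 64) ≤ c.p (v - z) ∧ -(w / 64) ≤ c.q (v - z) := by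
  have ha := Q.ha
  have hab := Q.hab
  have hb : 0 < Q.b := ha.trans hab
  have hC := c.one_le
  have hC0 : 0 < c.C := by linarith
  have hba : 1 ≤ Q.b / Q.a := by rw [one_le_div ha]; exact hab.le
  obtain ⟨C₁, hC₁⟩ : ∃ C₁ : ℝ, C₁ = Q.b / Q.a * c.C := ⟨_, rfl⟩
  have hC₁1 : c.C ≤ C₁ := by
    rw [hC₁]
    have := mul_le_mul_of_nonneg_right hba hC0.le
    linarith
  have hC₁0 : 0 < C₁ := by linarith
  obtain ⟨c₀, hc₀, hbar⟩ := hf.bar (1 / (64 * C₁)) (by positivity)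
  obtain ⟨ζ, hζ⟩ : ∃ ζ : ℝ, ζ = c₀ / (256 * c.C) := ⟨_, rfl⟩
  have hζ0 : 0 < ζ := by rw [hζ]; positivity
  have hζ4 : c₀ / (64 * c.C) = 4 * ζ := by rw [hζ]; field_simp; norm_num
  obtain ⟨A', w', hA', hw', hup⟩ := conf_up hg hf hζ0
  obtain ⟨w₁, hw₁, hpow⟩ := pc_pow (A := C₁) (δ := ζ / 2) hC₁0 (by positivity)
  refine ⟨A' + C₁, max w' w₁, by linarith, hw'.trans (le_max_left _ _), ?_⟩
  intro τ L w u v hτ hp hq hw hww hL hOv z hz
  have hw0' : w' ≤ w := (le_max_left _ _).trans hww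
  have hw1' : w₁ ≤ w := (le_max_right _ _).trans hww
  have hw0 : 0 < w := by linarith
  have hpw := hpow w hw1'
  have hCw : 0 ≤ C₁ * w := by positivity
  have hAw : 0 ≤ A' * w := by
    have : 0 < A' := by linarith
    positivity
  rw [add_mul] at hL
  have hT := hup τ L w u v hτ hp hq hw hw0' (by linarith) hOv
  have hbd := Bd_res hab.le hτ (edg (Dc c u v))
  have hnm : nm (v - u) ≤ c.C * w := by
    refine (c.nm_le _).trans (mul_le_mul_of_nonneg_left ?_ hC0.le)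
    rw [abs_of_nonneg hp, abs_of_nonneg hq, hw]
    exact le_of_eq rfl
  have hTu := T_upper hbd ha.le u v
  have t1 := T_nonneg hbd ha.le u z
  have t2 := T_nonneg hbd ha.le z v
  have hbC : Q.b * nm (v - u) ≤ Q.a * (C₁ * w) := by
    have h1 := mul_le_mul_of_nonneg_left hnm hb.le
    have h2 : Q.a * (C₁ * w) = Q.b * (c.C * w) := by
      rw [hC₁]
      field_simp
    linarith
  have n1 : nm (z - u) ≤ C₁ * w := by
    have h1 := T_lower hbd ha.le u z
    exact le_of_mul_le_mul_left (by linarith) ha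
  have n2 : nm (v - z) ≤ C₁ * w := by
    have h1 := T_lower hbd ha.le z v
    exact le_of_mul_le_mul_left (by linarith) ha
  have m0 : nm u ≤ L := by linarith
  have m1 : nm z ≤ L := by
    have h1 := nm_add_le u (z - u)
    rw [add_sub_cancel] at h1
    linarith
  have m2 : nm v ≤ L := by
    have h1 := nm_add_le u (v - u)
    rw [add_sub_cancel] at h1
    have h2 := mul_le_mul_of_nonneg_right hC₁1 hw0.le
    linarith
  have hwC : w ≤ C₁ * w := by
    have := mul_le_mul_of_nonneg_right (hC.trans hC₁1) hw0.le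
    linarith
  have o1 := pc_ov hw0.le hOv m0 m1 n1 hwC
  have o2 := pc_ov hw0.le hOv m1 m2 n2 hwC
  have r1 := T_le_res ha.le hτ (edg (Dc c u v)) u z
  have r2 := T_le_res ha.le hτ (edg (Dc c u v)) z v
  have key : g (z - u) + g (v - z) ≤ w + 2 * (ζ * w) := by
    unfold Tc at hT
    have h9 : ζ / 2 * w = ζ * w / 2 := by ring
    rw [h9] at hpw
    linarith [o1.1, o2.1]
  have hlv : w = lv c (z - u) + lv c (v - z) := by
    rw [← lv_add, hw]
    congr 1
    abel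
  have l1 := hf.low (z - u)
  have l2 := hf.low (v - z)
  have hζw : 0 < ζ * w := by positivity
  have b1 : ¬ (c.p (z - u) < -(w / 64) ∨ c.q (z - u) < -(w / 64)) := by
    intro h
    have h1 := pc_far hC₁0 hc₀ hw0 hbar n1 h
    rw [hζ4] at h1
    linarith
  have b2 : ¬ (c.p (v - z) < -(w / 64) ∨ c.q (v - z) < -(w / 64)) := by
    intro h
    have h1 := pc_far hC₁0 hc₀ hw0 hbar n2 h
    rw [hζ4] at h1
    linarith
  rw [not_or, not_lt, not_lt] at b1 b2
  exact ⟨b1, b2⟩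

end Pool.Agent.W_1b8d5d_sc
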