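import Pool.Agent.W_1b8d5d_sc.P5Defs
import Pool.Agent.W_1b8d5d_fe.Cv

/-!
MP_1b8d5d_pr (SC, part P5): good walks and crossings of a strip.
-/

set_option autoImplicit false

namespace Pool.Agent.W_1b8d5d_sc

open Finset Pool.Agent.W_1b8d5d_h85 Pool.Agent.W_1b8d5d_fe

theorem ps_add (c : Crd) (D : ℝ) (x y : V) : ps c D (x + y) = ps c D x + ps c D y := by
  unfold ps
  rw [map_add, Pool.Agent.W_1b8d5d_fe.lv_add]
  ring

theorem ps_sub (c : Crd) (D : ℝ) (x y : V) : ps c D (x - y) = ps c D x - ps c D y := by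
  unfold ps
  rw [map_sub, Pool.Agent.W_1b8d5d_fe.lv_sub]
  ring

/-- A walk through `z` is cut at `z` (`takeUntil`, `dropUntil`). -/
theorem exists_cut {x y z : V} (P : grid.Walk x y) (hz : z ∈ P.support) :
    ∃ (P₁ : grid.Walk x z) (P₂ : grid.Walk z y), P = P₁.append P₂ := by
  classical
  exact ⟨P.takeUntil z hz, P.dropUntil z hz, (P.take_spec hz).symm⟩

/-- The part of a walk between two of its vertices, in one of the two orders. -/
theorem exists_between {x y u v : V} (P : grid.Walk x y) (hu : u ∈ P.support) (hv : v ∈ P.support) :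
    (∃ (P₁ : grid.Walk x u) (P₂ : grid.Walk u v) (P₃ : grid.Walk v y), P = P₁.append (P₂.append P₃)) ∨
      ∃ (P₁ : grid.Walk x v) (P₂ : grid.Walk v u) (P₃ : grid.Walk u y), P = P₁.append (P₂.append P₃) := by
  obtain ⟨P₁, P₂, h⟩ := exists_cut P hu
  rw [h, SimpleGraph.Walk.mem_support_append_iff] at hv
  rcases hv with hv | hv
  · obtain ⟨P₃, P₄, h'⟩ := exists_cut P₁ hv
    right
    exact ⟨P₃, P₄, P₂, by rw [h, h', SimpleGraph.Walk.append_assoc]⟩
  · obtain ⟨P₃, P₄, h'⟩ := exists_cut P₂ hv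
    left
    exact ⟨P₁, P₃, P₄, by rw [h, h']⟩

theorem Bg.sub {c : Crd} {τ : Env} {B : ℝ} {x y : V} {P : grid.Walk x y} (h : Bg c τ B P) {u v : V}
    {w₁ : grid.Walk x u} {w₂ : grid.Walk u v} {w₃ : grid.Walk v y} (e : P = w₁.append (w₂.append w₃)) : Bg c τ B w₂ := by
  intro u' v' a b d e'
  refine h u' v' (w₁.append a) b (d.append w₃) ?_
  rw [e, e']
  simp only [SimpleGraph.Walk.append_assoc]

theorem Bg.left {c : Crd} {τ : Env} {B : ℝ} {x y z : V} {P : grid.Walk x y} (h : Bg c τ B P) {w₁ : grid.Walk x z}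
    {w₂ : grid.Walk z y} (e : P = w₁.append w₂) : Bg c τ B w₁ :=
  h.sub (w₁ := .nil) (w₂ := w₁) (w₃ := w₂) (by rw [SimpleGraph.Walk.nil_append, e])

theorem Bg.right {c : Crd} {τ : Env} {B : ℝ} {x y z : V} {P : grid.Walk x y} (h : Bg c τ B P) {w₁ : grid.Walk x z}
    {w₂ : grid.Walk z y} (e : P = w₁.append w₂) : Bg c τ B w₂ :=
  h.sub (w₁ := w₁) (w₂ := w₂) (w₃ := .nil) (by rw [SimpleGraph.Walk.append_nil, e])

theorem Bg.mono {c : Crd} {τ : Env} {B B' : ℝ} (hB : B ≤ B') {x y : V} {P : grid.Walk x y} (h : Bg c τ B P) : Bg c τ B' P :=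
  fun u v w₁ w₂ w₃ e => (h u v w₁ w₂ w₃ e).trans (by linarith)

theorem Bg.congr {c : Crd} {τ τ' : Env} {B : ℝ} {x y : V} {P : grid.Walk x y} (h : Bg c τ B P)
    (he : ∀ e ∈ wedges P, τ e = τ' e) : Bg c τ' B P := by
  intro u v w₁ w₂ w₃ e
  rw [← cost_congr (τ := τ) (τ' := τ') w₂ (fun f hf => he f ?_)]
  · exact h u v w₁ w₂ w₃ e
  · rw [e, wedges_append, wedges_append, List.mem_append, List.mem_append]
    exact Or.inr (Or.inl hf)

theorem Bg.cost_le {c : Crd} {τ : Env} {B : ℝ} {x y : V} {P : grid.Walk x y} (h : Bg c τ B P) :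
    cost τ P ≤ lv c (y - x) + B :=
  h x y .nil P .nil (by rw [SimpleGraph.Walk.nil_append, SimpleGraph.Walk.append_nil])

/-- The levels of a good walk (the costs are nonnegative). -/
theorem Bg.lv_mem {a b : ℝ} (ha : 0 ≤ a) {c : Crd} {τ : Env} (hτ : Bd a b τ) {B : ℝ} {x y : V} {P : grid.Walk x y}
    (h : Bg c τ B P) {z : V} (hz : z ∈ P.support) : lv c x - B ≤ lv c z ∧ lv c z ≤ lv c y + B := by
  obtain ⟨P₁, P₂, e⟩ := exists_cut P hz
  have h1 := (h.left e).cost_le
  have h2 := (h.right e).cost_le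
  have h3 : 0 ≤ cost τ P₁ := le_trans (by positivity) (le_cost hτ P₁)
  have h4 : 0 ≤ cost τ P₂ := le_trans (by positivity) (le_cost hτ P₂)
  rw [Pool.Agent.W_1b8d5d_fe.lv_sub] at h1 h2
  constructor <;> linarith

private theorem P5Cx_after {c : Crd} {s : ℝ} {x y : V} (P : grid.Walk x y) (hy : s < lv c y)
    (hx : lv c x ≤ s + 2 * c.C ∨ ∃ z ∈ P.support, lv c z ≤ s) :
    ∃ (u : V) (P₁ : grid.Walk x u) (P₂ : grid.Walk u y), P = P₁.append P₂ ∧ (∀ z ∈ P₂.support, s < lv c z) ∧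
      lv c u ≤ s + 2 * c.C := by
  have hC : 0 < c.C := by linarith [c.one_le]
  induction P with
  | @nil x =>
    refine ⟨x, .nil, .nil, rfl, ?_, ?_⟩
    · intro z hz
      rw [SimpleGraph.Walk.support_nil, List.mem_singleton] at hz
      subst hz
      exact hy
    · rcases hx with hx | ⟨z, hz, hx⟩
      · exact hx
      · rw [SimpleGraph.Walk.support_nil, List.mem_singleton] at hz
        subst hz
        linarith
  | @cons x v y h w ih =>
    by_cases h1 : ∃ z ∈ w.support, lv c z ≤ s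
    · obtain ⟨u, P₁, P₂, e, h2, h3⟩ := ih hy (Or.inr h1)
      refine ⟨u, .cons h P₁, P₂, ?_, h2, h3⟩
      rw [SimpleGraph.Walk.cons_append, ← e]
    · push Not at h1
      rcases lt_or_ge s (lv c x) with h2 | h2
      · refine ⟨x, .nil, .cons h w, rfl, ?_, ?_⟩
        · intro z hz
          rw [SimpleGraph.Walk.support_cons, List.mem_cons] at hz
          rcases hz with rfl | hz
          · exact h2
          · exact h1 z hz
        · rcases hx with hx | ⟨z, hz, hx⟩
          · exact hx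
          · rw [SimpleGraph.Walk.support_cons, List.mem_cons] at hz
            rcases hz with rfl | hz
            · linarith
            · have := h1 z hz
              linarith
      · refine ⟨v, .cons h .nil, w, rfl, h1, ?_⟩
        have h3 := (abs_le.1 (Pool.Agent.W_1b8d5d_fe.lv_adj (c := c) h)).2
        linarith

/-- A walk from `x` to `y` with levels `> t₁` or not at the start: the part after the last vertex of level `≤ s`. -/
theorem exists_after {c : Crd} {s : ℝ} {x y : V} (P : grid.Walk x y) (hx : lv c x ≤ s + 2 * c.C) (hy : s < lv c y) :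
    ∃ (u : V) (P₁ : grid.Walk x u) (P₂ : grid.Walk u y), P = P₁.append P₂ ∧ (∀ z ∈ P₂.support, s < lv c z) ∧
      lv c u ≤ s + 2 * c.C := P5Cx_after P hy (Or.inl hx)

/-- The part before the first vertex of level `≥ s`. -/
theorem exists_before {c : Crd} {s : ℝ} {x y : V} (P : grid.Walk x y) (hx : lv c x < s) (hy : s - 2 * c.C ≤ lv c y) :
    ∃ (u : V) (P₁ : grid.Walk x u) (P₂ : grid.Walk u y), P = P₁.append P₂ ∧ (∀ z ∈ P₁.support, lv c z < s) ∧
      s - 2 * c.C ≤ lv c u := by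
  induction P with
  | @nil x =>
    refine ⟨x, .nil, .nil, rfl, ?_, hy⟩
    intro z hz
    rw [SimpleGraph.Walk.support_nil, List.mem_singleton] at hz
    subst hz
    exact hx
  | @cons x v y h w ih =>
    rcases lt_or_ge (lv c v) s with h1 | h1
    · obtain ⟨u, P₁, P₂, e, h2, h3⟩ := ih h1 hy
      refine ⟨u, .cons h P₁, P₂, ?_, ?_, h3⟩
      · rw [SimpleGraph.Walk.cons_append, ← e]
      · intro z hz
        rw [SimpleGraph.Walk.support_cons, List.mem_cons] at hz
        rcases hz with rfl | hz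
        · exact hx
        · exact h2 z hz
    · refine ⟨x, .nil, .cons h w, rfl, ?_, ?_⟩
      · intro z hz
        rw [SimpleGraph.Walk.support_nil, List.mem_singleton] at hz
        subst hz
        exact hx
      · have h3 := (abs_le.1 (Pool.Agent.W_1b8d5d_fe.lv_adj (c := c) h)).2
        linarith

/-- A crossing contains the crossings of the shorter slabs (`exists_before`, `exists_after`). -/
theorem Cx.sub {c : Crd} {B D β W t₁ t₂ s₁ s₂ : ℝ} {τ : Env} (h : Cx c B D β W t₁ t₂ τ) (h1 : t₁ ≤ s₁) (h2 : s₂ ≤ t₂)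
    (h3 : s₁ + 4 * c.C ≤ s₂) : Cx c B D β W s₁ s₂ τ := by
  have hC : 0 < c.C := by linarith [c.one_le]
  obtain ⟨x, y, P, hP, hin, hx, hy⟩ := h
  obtain ⟨u, P₁, P₂, e, h4, h5⟩ := exists_after (c := c) (s := s₁) P (by linarith) (by linarith)
  obtain ⟨v, P₃, P₄, e', h6, h7⟩ := exists_before (c := c) (s := s₂) P₂ (by linarith) (by linarith)
  refine ⟨u, v, P₃, (hP.right e).left e', ?_, h5, h7⟩
  intro z hz
  have h8 : z ∈ P₂.support := by
    rw [e', SimpleGraph.Walk.mem_support_append_iff]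
    exact Or.inl hz
  have h9 : z ∈ P.support := by
    rw [e, SimpleGraph.Walk.mem_support_append_iff]
    exact Or.inr h8
  exact ⟨⟨h4 z h8, h6 z hz⟩, (hin z h9).2⟩

theorem Cx.mono {c : Crd} {B B' D β W W' t₁ t₂ : ℝ} {τ : Env} (h : Cx c B D β W t₁ t₂ τ) (hB : B ≤ B') (hW : W ≤ W') :
    Cx c B' D β W' t₁ t₂ τ := by
  obtain ⟨x, y, P, hP, hin, hx, hy⟩ := h
  exact ⟨x, y, P, hP.mono hB, fun z hz => ⟨(hin z hz).1, (hin z hz).2.trans hW⟩, hx, hy⟩

theorem dependsOn_Cx (c : Crd) (B D β W t₁ t₂ : ℝ) : DependsOn (Cx c B D β W t₁ t₂) (edg (Rg c D β W t₁ t₂)) := by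
  have key : ∀ τ τ' : Env, (∀ e ∈ edg (Rg c D β W t₁ t₂), τ e = τ' e) → Cx c B D β W t₁ t₂ τ → Cx c B D β W t₁ t₂ τ' := by
    rintro τ τ' hτ ⟨x, y, P, hP, hin, hx, hy⟩
    refine ⟨x, y, P, hP.congr fun e he => hτ e ?_, hin, hx, hy⟩
    have h1 := wedges_support P he
    exact ⟨hin _ h1.1, hin _ h1.2⟩
  intro τ τ' hτ
  exact propext ⟨key τ τ' hτ, key τ' τ fun e he => (hτ e he).symm⟩

theorem Rg_mono {c : Crd} {D β W t₁ t₂ s₁ s₂ : ℝ} (h1 : t₁ ≤ s₁) (h2 : s₂ ≤ t₂) :
    Rg c D β W s₁ s₂ ⊆ Rg c D β W t₁ t₂ := by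
  rintro z ⟨⟨h3, h4⟩, h5⟩
  exact ⟨⟨by linarith, by linarith⟩, h5⟩

private theorem P5Cx_cost_map (f : grid →g grid) (τ τ' : Env)
    (hc : ∀ x y, grid.Adj x y → τ (ke s(f x, f y)) = τ' (ke s(x, y))) {x y : V}
    (w : grid.Walk x y) : cost τ (w.map f) = cost τ' w := by
  induction w with
  | nil => simp [cost, wedges]
  | @cons u v w h p ih =>
    unfold cost wedges at ih ⊢
    rw [SimpleGraph.Walk.map_cons, SimpleGraph.Walk.edges_cons, SimpleGraph.Walk.edges_cons,
      List.map_cons, List.map_cons, List.map_cons, List.map_cons, List.sum_cons, List.sum_cons, ih,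
      hc _ _ h]

/-- Decompositions of the image of a walk are images. -/
private theorem P5Cx_lift (f : grid →g grid) {x y : V} (w : grid.Walk x y) :
    ∀ {u' : V} (a : grid.Walk (f x) u') (b : grid.Walk u' (f y)), w.map f = a.append b →
      ∃ (u : V) (hu : f u = u') (a₀ : grid.Walk x u) (b₀ : grid.Walk u y), w = a₀.append b₀ ∧
        a = (a₀.map f).copy rfl hu ∧ b = (b₀.map f).copy hu rfl := by
  induction w with
  | @nil x =>
    intro u' a b h
    cases a with
    | nil =>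
      refine ⟨x, rfl, .nil, .nil, rfl, rfl, ?_⟩
      rw [SimpleGraph.Walk.nil_append] at h
      rw [← h]
      rfl
    | cons h' a' =>
      rw [SimpleGraph.Walk.map_nil, SimpleGraph.Walk.cons_append] at h
      cases h
  | @cons x v y h w ih =>
    intro u' a b e
    cases a with
    | nil =>
      refine ⟨x, rfl, .nil, .cons h w, rfl, rfl, ?_⟩
      rw [SimpleGraph.Walk.nil_append] at e
      rw [← e]
      rfl
    | @cons _ v' _ h' a' =>
      rw [SimpleGraph.Walk.map_cons, SimpleGraph.Walk.cons_append] at e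
      injection e with e0 e1 e2 e3
      subst e1
      have e4 := eq_of_heq e3
      obtain ⟨u, hu, a₀, b₀, h1, h2, h3⟩ := ih a' b e4
      subst hu
      refine ⟨u, rfl, .cons h a₀, b₀, ?_, ?_, h3⟩
      · rw [SimpleGraph.Walk.cons_append, ← h1]
      · rw [h2]
        rfl

/-- The image of a good walk. -/
private theorem P5Cx_good (f : grid →g grid) {τ τ' : Env}
    (hc : ∀ x y, grid.Adj x y → τ (ke s(f x, f y)) = τ' (ke s(x, y))) {B : ℝ}
    (F F' : V → V → ℝ) (hF : ∀ u v, F (f u) (f v) = F' u v) {x y : V} {w : grid.Walk x y}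
    (hw : ∀ (u v : V) (w₁ : grid.Walk x u) (w₂ : grid.Walk u v) (w₃ : grid.Walk v y),
      w = w₁.append (w₂.append w₃) → cost τ' w₂ ≤ F' u v + B) :
    ∀ (u v : V) (w₁ : grid.Walk (f x) u) (w₂ : grid.Walk u v) (w₃ : grid.Walk v (f y)),
      w.map f = w₁.append (w₂.append w₃) → cost τ w₂ ≤ F u v + B := by
  intro u v w₁ w₂ w₃ h
  obtain ⟨u₀, hu, a₀, b₀, e1, -, e3⟩ := P5Cx_lift f w w₁ (w₂.append w₃) h
  subst hu
  rw [SimpleGraph.Walk.copy_rfl_rfl] at e3
  obtain ⟨v₀, hv, c₀, d₀, e4, e5, -⟩ := P5Cx_lift f b₀ w₂ w₃ e3.symm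
  subst hv
  rw [SimpleGraph.Walk.copy_rfl_rfl] at e5
  rw [e5, P5Cx_cost_map f τ τ' hc, hF]
  refine hw u₀ v₀ a₀ c₀ d₀ ?_
  rw [e1, e4]

private theorem P5Cx_shw {x y : V} (w : grid.Walk x y) (z : V) : ∃ w' : grid.Walk (x + z) (y + z),
    (∀ v, v ∈ w'.support ↔ v - z ∈ w.support) ∧ ∀ (c : Crd) (τ : Env) (B : ℝ), Bg c (sh z τ) B w → Bg c τ B w' := by
  let f : grid →g grid := ⟨fun v => v + z, by
    rintro x y ⟨s, h | h⟩
    · exact ⟨s, Or.inl (by rw [h]; abel)⟩
    · exact ⟨s, Or.inr (by rw [h]; abel)⟩⟩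
  refine ⟨w.map f, ?_, ?_⟩
  · intro v
    rw [SimpleGraph.Walk.support_map, List.mem_map]
    constructor
    · rintro ⟨u, hu, rfl⟩
      show u + z - z ∈ w.support
      rwa [add_sub_cancel_right]
    · intro h
      exact ⟨v - z, h, sub_add_cancel v z⟩
  · intro c τ B hw
    refine P5Cx_good f (τ := τ) (τ' := sh z τ) ?_ (fun u v => lv c (v - u)) (fun u v => lv c (v - u))
      ?_ hw
    · rintro x y ⟨s, h | h⟩
      · subst h
        have e : x + dir s + z = (x + z) + dir s := by abel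
        show τ (ke s(x + z, x + dir s + z)) = sh z τ (ke s(x, x + dir s))
        simp only [e, ke_dir, sh]
      · subst h
        have e : y + dir s + z = (y + z) + dir s := by abel
        show τ (ke s(y + dir s + z, y + z)) = sh z τ (ke s(y + dir s, y))
        simp only [e, ke_dir', sh]
    · intro u v
      show lv c (v + z - (u + z)) = lv c (v - u)
      rw [add_sub_add_right_eq_sub]

private theorem P5Cx_one (c : Crd) (B D β W t₁ t₂ : ℝ) (z : V) (τ : Env) (h : Cx c B D β W t₁ t₂ (sh z τ)) :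
    Cx c B D (β + ps c D z) W (t₁ + lv c z) (t₂ + lv c z) τ := by
  obtain ⟨x, y, P, hP, hin, hx, hy⟩ := h
  obtain ⟨P', h1, h2⟩ := P5Cx_shw P z
  refine ⟨x + z, y + z, P', h2 c τ B hP, ?_, ?_, ?_⟩
  · intro v hv
    have h3 := hin (v - z) ((h1 v).1 hv)
    obtain ⟨⟨h4, h5⟩, h6⟩ := h3
    rw [Pool.Agent.W_1b8d5d_fe.lv_sub] at h4 h5
    rw [ps_sub] at h6
    refine ⟨⟨by linarith, by linarith⟩, ?_⟩
    have e : ps c D v - (β + ps c D z) = ps c D v - ps c D z - β := by ring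
    rw [e]
    exact h6
  · rw [Pool.Agent.W_1b8d5d_fe.lv_add]
    linarith
  · rw [Pool.Agent.W_1b8d5d_fe.lv_add]
    linarith

/-- Shift of the crossing event. -/
theorem Cx_sh (c : Crd) (B D β W t₁ t₂ : ℝ) (z : V) (τ : Env) :
    Cx c B D β W t₁ t₂ (sh z τ) ↔ Cx c B D (β + ps c D z) W (t₁ + lv c z) (t₂ + lv c z) τ := by
  refine ⟨P5Cx_one c B D β W t₁ t₂ z τ, fun h => ?_⟩
  have e1 : sh (-z) (sh z τ) = τ := by
    funext e
    unfold sh
    simp only [neg_add_cancel_right]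
  have h1 := P5Cx_one c B D (β + ps c D z) W (t₁ + lv c z) (t₂ + lv c z) (-z) (sh z τ) (by rw [e1]; exact h)
  have e2 : ps c D (-z) = -ps c D z := by
    have := ps_sub c D 0 z
    have h0 : ps c D 0 = 0 := by
      have := ps_add c D 0 0
      rw [add_zero] at this
      linarith
    rw [zero_sub] at this
    rw [this, h0]
    ring
  rw [e2, Pool.Agent.W_1b8d5d_fe.lv_neg, add_neg_cancel_right, add_neg_cancel_right, add_neg_cancel_right] at h1
  exact h1

theorem P_Cx_sh {Q : Par} {g : V → ℝ} {R : ℝ} {M : Mdl Q.a Q.b} (h : Good Q g R M) (c : Crd) (B D β W t₁ t₂ : ℝ) (z : V) :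
    M.P (Cx c B D (β + ps c D z) W (t₁ + lv c z) (t₂ + lv c z)) = M.P (Cx c B D β W t₁ t₂) := by
  rw [← Pool.Agent.W_1b8d5d_fe.P_sh h z (Cx c B D β W t₁ t₂)]
  congr 1
  funext τ
  exact propext (Cx_sh c B D β W t₁ t₂ z τ).symm

end Pool.Agent.W_1b8d5d_sc
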