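import Pool.Agent.W_1b8d5d_sc.Planar
import Pool.Agent.W_1b8d5d_fe.Defs

/-!
MP_1b8d5d_pr (SC): crossing of a strip of slope `-D` in the coordinates of the flat piece.
-/

set_option autoImplicit false

namespace Pool.Agent.W_1b8d5d_sc

open Finset Pool.Agent.W_1b8d5d_h85 Pool.Agent.W_1b8d5d_fe

/-- The functional `q + D lv`. -/
private noncomputable def hD (c : Crd) (D : ℝ) : V →+ ℝ :=
  AddMonoidHom.mk' (fun z => c.q z + D * lv c z) (fun x y => by unfold lv; rw [map_add, map_add]; ring)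

/-- The level. -/
private noncomputable def kL (c : Crd) : V →+ ℝ :=
  AddMonoidHom.mk' (fun z => lv c z) (fun x y => by unfold lv; rw [map_add, map_add]; ring)

private theorem lin (f : V →+ ℝ) (z : V) : f z = z.1 * f (1, 0) + z.2 * f (0, 1) := by
  have e : z = z.1 • ((1, 0) : V) + z.2 • ((0, 1) : V) := by ext <;> simp
  calc f z = f (z.1 • ((1, 0) : V) + z.2 • ((0, 1) : V)) := by rw [← e]
    _ = z.1 * f (1, 0) + z.2 * f (0, 1) := by rw [map_add, map_zsmul, map_zsmul, zsmul_eq_mul, zsmul_eq_mul]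

/-- ** Crossing of a strip of slope `-D`. ** `P` stays in the strip `α ≤ q + D lv ≤ β`, `σ` starts below and ends above the
strip, at distance at most `H` from the strip, and its levels are far from the levels of the end points of `P`. -/
theorem meet_crd (c : Crd) {D : ℝ} (hD1 : |D| ≤ 1) {x y u v : V} (P : grid.Walk x y) (σ : grid.Walk u v) {α β H : ℝ}
    (hP : ∀ z ∈ P.support, α ≤ c.q z + D * lv c z ∧ c.q z + D * lv c z ≤ β)
    (hσ : ∀ z ∈ σ.support, α - H ≤ c.q z + D * lv c z ∧ c.q z + D * lv c z ≤ β + H)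
    (hu : c.q u + D * lv c u < α) (hv : β < c.q v + D * lv c v)
    (hx : ∀ z ∈ σ.support, 8 * c.C ^ 2 * (β - α + H) < lv c z - lv c x)
    (hy : ∀ z ∈ σ.support, 8 * c.C ^ 2 * (β - α + H) < lv c y - lv c z) : ∃ z, z ∈ P.support ∧ z ∈ σ.support := by
  have hC := c.one_le
  have hD2 := abs_le.1 hD1
  have hq : ∀ z, hD c D z = c.q z + D * lv c z := fun z => rfl
  have hk : ∀ z, kL c z = lv c z := fun z => rfl
  have hn1 : nm ((1, 0) : V) = 1 := by simp [nm]
  have hn2 : nm ((0, 1) : V) = 1 := by simp [nm]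
  -- a far vertex with small level
  have far : ∀ R : ℝ, 0 ≤ R → ∃ z : V, |lv c z| ≤ 2 * c.C ∧ R - 3 * c.C ≤ hD c D z ∧ nm z ≤ c.C * (2 * R + 2 * c.C) := by
    intro R hR
    have h1 := abs_le.1 (c.rd_p (-R) R)
    have h2 := abs_le.1 (c.rd_q (-R) R)
    have h3 : |lv c (c.rd (-R) R)| ≤ 2 * c.C := by
      unfold lv
      rw [abs_le]
      constructor <;> linarith [h1.1, h1.2, h2.1, h2.2]
    refine ⟨c.rd (-R) R, h3, ?_, ?_⟩
    · rw [hq]
      have h4 : |D * lv c (c.rd (-R) R)| ≤ 1 * (2 * c.C) := by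
        rw [abs_mul]
        exact mul_le_mul hD1 h3 (abs_nonneg _) zero_le_one
      have h5 := (abs_le.1 h4).1
      linarith [h2.1]
    · refine (c.nm_le _).trans (mul_le_mul_of_nonneg_left ?_ (by linarith))
      have h4 : |c.p (c.rd (-R) R)| ≤ R + c.C := by rw [abs_le]; constructor <;> linarith [h1.1, h1.2]
      have h5 : |c.q (c.rd (-R) R)| ≤ R + c.C := by rw [abs_le]; constructor <;> linarith [h2.1, h2.2]
      linarith
  have hmax : 1 / (4 * c.C) ≤ |hD c D (1, 0)| ∨ 1 / (4 * c.C) ≤ |hD c D (0, 1)| := by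
    by_contra hcon
    push Not at hcon
    obtain ⟨z, -, h1, h2⟩ := far (8 * c.C) (by linarith)
    have h3 : |hD c D z| ≤ 1 / (4 * c.C) * nm z := by
      rw [lin (hD c D) z]
      refine (abs_add_le _ _).trans ?_
      rw [abs_mul, abs_mul]
      unfold nm
      have e1 := mul_le_mul_of_nonneg_left hcon.1.le (abs_nonneg (z.1 : ℝ))
      have e2 := mul_le_mul_of_nonneg_left hcon.2.le (abs_nonneg (z.2 : ℝ))
      linarith
    have h4 : 1 / (4 * c.C) * nm z ≤ 1 / (4 * c.C) * (c.C * (2 * (8 * c.C) + 2 * c.C)) :=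
      mul_le_mul_of_nonneg_left h2 (by positivity)
    have h5 : 1 / (4 * c.C) * (c.C * (2 * (8 * c.C) + 2 * c.C)) = 9 / 2 * c.C := by
      field_simp
      ring
    have h6 := le_abs_self (hD c D z)
    linarith
  have hke : ∀ e : V, nm e = 1 → |kL c e| ≤ 2 * c.C := by
    intro e he
    have h1 := abs_le.1 (c.p_le e)
    have h2 := abs_le.1 (c.q_le e)
    rw [he] at h1 h2
    rw [hk]
    unfold lv
    rw [abs_le]
    constructor <;> linarith [h1.1, h1.2, h2.1, h2.2]
  have hind : hD c D (1, 0) * kL c (0, 1) - hD c D (0, 1) * kL c (1, 0) ≠ 0 := by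
    intro h0
    have key : ∀ z w : V, hD c D z * kL c w = hD c D w * kL c z := by
      intro z w
      rw [lin (hD c D) z, lin (kL c) w, lin (hD c D) w, lin (kL c) z]
      linear_combination ((z.1 : ℝ) * w.2 - z.2 * w.1) * h0
    -- a vertex of large level
    have h1 := abs_le.1 (c.rd_p (4 * c.C) 0)
    have h2 := abs_le.1 (c.rd_q (4 * c.C) 0)
    obtain ⟨w, hw⟩ : ∃ w, w = c.rd (4 * c.C) 0 := ⟨_, rfl⟩
    rw [← hw] at h1 h2
    have h3 : c.C ≤ kL c w := by
      rw [hk]
      unfold lv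
      linarith [h1.1, h2.1]
    obtain ⟨A, hA⟩ : ∃ A, A = |hD c D w| := ⟨_, rfl⟩
    have hA0 : 0 ≤ A := by rw [hA]; exact abs_nonneg _
    obtain ⟨z, h4, h5, -⟩ := far (3 * c.C + 2 * A + 1) (by linarith)
    have h6 := key z w
    have h7 : (2 * A + 1) * c.C ≤ hD c D z * kL c w := by
      have e1 : 2 * A + 1 ≤ hD c D z := by linarith
      exact mul_le_mul e1 h3 (by linarith) (by linarith)
    have h8 : hD c D w * kL c z ≤ A * (2 * c.C) := by
      refine (le_abs_self _).trans ?_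
      rw [abs_mul, ← hA, hk]
      exact mul_le_mul_of_nonneg_left h4 hA0
    rw [h6] at h7
    nlinarith
  have hconv : ∀ r t : ℝ, 8 * c.C ^ 2 * r < t → 2 * c.C * r < 1 / (4 * c.C) * t := by
    intro r t hrt
    have h1 : 1 / (4 * c.C) * (8 * c.C ^ 2 * r) < 1 / (4 * c.C) * t := mul_lt_mul_of_pos_left hrt (by positivity)
    have h2 : 1 / (4 * c.C) * (8 * c.C ^ 2 * r) = 2 * c.C * r := by
      field_simp
      ring
    rwa [h2] at h1
  exact meet_lin P σ (hD c D) (kL c) (c₀ := 1 / (4 * c.C)) (K := 2 * c.C) (by positivity) hmax (hke _ hn1) (hke _ hn2) hind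
    hP hσ hu hv (fun z hz => hconv _ _ (hx z hz)) fun z hz => hconv _ _ (hy z hz)

end Pool.Agent.W_1b8d5d_sc
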