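import Pool.Agent.W_1b8d5d_fe.Geo
import Pool.Agent.W_1b8d5d_sc.PlanarC
import Pool.Agent.W_1b8d5d_sc.Renew
import Pool.Agent.W_1b8d5d_sc.TDefs

/-!
MP_1b8d5d_pr (SC, part P5): the increment inequality.  Definitions.

Two thin cones `KD c e`, `KD (swp c) e` (near the two ends of the flat piece).  A vector `x₀ + U` of `KD c e` (near the
direction `q = 0`) is compared with the much shorter vector `x₀ ∈ KD (swp c) e` (near the direction `p = 0`), `U` is almost
parallel to `q = 0`.  The cells are the double cones from `o i = i U` to `x i = i U + x₀`.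
-/

set_option autoImplicit false

namespace Pool.Agent.W_1b8d5d_sc

open Finset Pool.Agent.W_1b8d5d_h85 Pool.Agent.W_1b8d5d_fe

/-- The transversal coordinate (constant along the direction of `U` for a suitable `D`). -/
noncomputable def ps (c : Crd) (D : ℝ) (z : V) : ℝ := c.q z + D * lv c z

/-- `B`-good walks: every sub-walk has an excess at most `B` (`Bgd` of `FDefs` without `IsPath`). -/
def Bg (c : Crd) (τ : Env) (B : ℝ) {x y : V} (P : grid.Walk x y) : Prop :=
  ∀ (u v : V) (w₁ : grid.Walk x u) (w₂ : grid.Walk u v) (w₃ : grid.Walk v y), P = w₁.append (w₂.append w₃) →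
    cost τ w₂ ≤ lv c (v - u) + B

/-- The part of the strip `|ps - β| ≤ W` of levels between `t₁` and `t₂`. -/
def Rg (c : Crd) (D β W t₁ t₂ : ℝ) : Set V := {z | (t₁ < lv c z ∧ lv c z < t₂) ∧ |ps c D z - β| ≤ W}

/-- The strip is crossed between the levels `t₁` and `t₂` by a `B`-good walk. -/
def Cx (c : Crd) (B D β W t₁ t₂ : ℝ) (τ : Env) : Prop :=
  ∃ (x y : V) (P : grid.Walk x y), Bg c τ B P ∧ (∀ z ∈ P.support, z ∈ Rg c D β W t₁ t₂) ∧
    lv c x ≤ t₁ + 2 * c.C ∧ t₂ - 2 * c.C ≤ lv c y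

/-- The positive excess of the double cone from `x` to `y`. -/
noncomputable def xc (b : ℝ) (c : Crd) (τ : Env) (x y : V) : ℝ := max (Tc b c τ x y - lv c (y - x)) 0

/-- The data: the coordinates, the long step `U`, the small vector `x₀`, the half width `W` of the strips, the budget `B` of
the crossings. -/
structure Fra where
  c : Crd
  U : V
  x₀ : V
  W : ℝ
  B : ℝ

namespace Fra

variable (f : Fra)

/-- The level of the small vector. -/
noncomputable def w : ℝ := lv f.c f.x₀

/-- The level of the long step. -/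
noncomputable def u : ℝ := lv f.c f.U

/-- The slope of the strips: `ps c D U = 0`. -/
noncomputable def D : ℝ := -(f.c.q f.U) / lv f.c f.U

/-- The lower corner of the cell `i`. -/
def o (i : ℕ) : V := i • f.U

/-- The upper corner of the cell `i`. -/
def x (i : ℕ) : V := i • f.U + f.x₀

/-- The grid levels: `tl i` is between the cells `i - 1` and `i`. -/
noncomputable def tl (s : ℝ) : ℝ := (s - 1 / 3) * f.u

/-- The numerical conditions. -/
structure Ok : Prop where
  hw : 1000 * f.c.C ≤ f.w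
  hu : 200 * f.c.C ^ 2 * f.w ≤ f.u
  hq : |f.c.q f.U| ≤ f.w / 16
  hp : |f.c.p f.x₀| ≤ f.w / 64
  hW0 : 0 ≤ f.W
  hW : f.W ≤ f.w / 64
  hB0 : 0 ≤ f.B
  hB : f.B ≤ f.w / 64

/-- The environment of the cell `i`. -/
noncomputable def Te (b : ℝ) (τ : Env) (i : ℕ) : Env := res b (edg (Dc f.c (f.o i) (f.x i))) τ

/-- `z` is on a geodesic of the cell `i`. -/
def G (b : ℝ) (τ : Env) (i : ℕ) (z : V) : Prop :=
  T (f.Te b τ i) (f.o i) z + T (f.Te b τ i) z (f.x i) = T (f.Te b τ i) (f.o i) (f.x i)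

/-- `z` is in the cell `i`, up to `w / 64`. -/
def Near (i : ℕ) (z : V) : Prop :=
  (-(f.w / 64) ≤ f.c.p (z - f.o i) ∧ -(f.w / 64) ≤ f.c.q (z - f.o i)) ∧
    -(f.w / 64) ≤ f.c.p (f.x i - z) ∧ -(f.w / 64) ≤ f.c.q (f.x i - z)

/-- The geodesics of the cells `0, ..., n` stay in the cells. -/
def Conf (b : ℝ) (n : ℕ) (τ : Env) : Prop := ∀ i ≤ n, ∀ z, f.G b τ i z → f.Near i z

/-- `L` bounds the lucks between the vertices of the cells `0, ..., n`. -/
def Luck (n : ℕ) (τ : Env) (L : ℝ) : Prop :=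
  ∀ i ≤ n, ∀ j ≤ n, ∀ u v, f.Near i u → f.Near j v → lv f.c (v - u) ≤ T τ u v + L

/-- The increment. -/
noncomputable def ff (b : ℝ) (τ : Env) (k : ℕ) : ℝ :=
  Tc b f.c τ (f.o k) (f.x (k + 1)) - Tc b f.c τ (f.o (k + 1)) (f.x (k + 1)) - f.u

/-- The potential of the vertex `z` of the cell `i`. -/
noncomputable def A (b : ℝ) (τ : Env) (i : ℕ) (z : V) : ℝ :=
  ∑ k ∈ range i, f.ff b τ k + (T (f.Te b τ i) (f.o i) z - lv f.c (z - f.o i))

/-- The upper strip is crossed from the grid level `i` to the grid level `j`. -/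
def X1 (i j : ℕ) (τ : Env) : Prop := Cx f.c f.B f.D (f.w / 2) f.W (f.tl i) (f.tl j) τ

/-- The edges of the upper strip between the grid levels `i` and `j`. -/
def sl (i j : ℕ) : Set Edge := edg (Rg f.c f.D (f.w / 2) f.W (f.tl i) (f.tl j))

/-- The lower strip is crossed from the grid level `j - 2` to the grid level `j + 1`. -/
def X2 (j : ℕ) (τ : Env) : Prop := Cx f.c f.B f.D (f.w / 4) f.W (f.tl (j - 2)) (f.tl (j + 1)) τ

/-- The positive excess of the direct connection from `o k` to `x (k + 1)`. -/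
noncomputable def dr (b : ℝ) (τ : Env) (k : ℕ) : ℝ := xc b f.c τ (f.o k) (f.x (k + 1))

/-- The positive excess of the cell `i`. -/
noncomputable def ex (b : ℝ) (τ : Env) (i : ℕ) : ℝ := xc b f.c τ (f.o i) (f.x i)

/-- The cost of the restart at the grid level `j`. -/
noncomputable def ct (b : ℝ) (τ : Env) (L : ℝ) (j : ℕ) : ℝ :=
  2 * f.B + 6 * L + f.ex b τ j + ic (¬ f.X2 j τ) * (f.dr b τ (j - 2) + f.dr b τ (j - 1))

end Fra

end Pool.Agent.W_1b8d5d_sc
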