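import Pool.Agent.W_1b8d5d_sc.P5Ren
import Pool.Agent.W_1b8d5d_sc.Chain

/-!
MP_1b8d5d_pr (SC, part P5): the cost of the direct connections.
-/

set_option autoImplicit false

namespace Pool.Agent.W_1b8d5d_sc

open Finset Pool.Agent.W_1b8d5d_h85 Pool.Agent.W_1b8d5d_fe

/-- The mean of the positive excess between arbitrary points (`E_exc`). -/
theorem E_xc {Q : Par} {g : V → ℝ} {R : ℝ} {M : Mdl Q.a Q.b} (hM : Good Q g R M) (c : Crd) (x y : V) :
    M.E (fun τ => xc Q.b c τ x y) = M.E fun τ => xc Q.b c τ 0 (y - x) := by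
  have h1 := E_Tc hM c (fun t => max (t - lv c (y - x)) 0) x y
  unfold xc
  rw [sub_zero]
  exact h1

theorem xc_dep (b : ℝ) (c : Crd) (x y : V) : DependsOn (fun τ : Env => xc b c τ x y) (edg (Dc c x y)) := by
  intro τ₁ τ₂ hτ
  have h1 := Tc_dep b c x y hτ
  simp only at h1
  simp only [xc, h1]

/-- The positive excess of a chain (`Tc_chain`). -/
theorem xc_chain {a b : ℝ} {τ : Env} (ha : 0 ≤ a) (hab : a ≤ b) (hτ : Bd a b τ) {c : Crd} (z : ℕ → V) (K : ℕ)
    (hz : ∀ m < K, z (m + 1) - z m ∈ Wc c) (hK : 1 ≤ K) : xc b c τ (z 0) (z K) ≤ ∑ m ∈ range K, xc b c τ (z m) (z (m + 1)) := by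
  have h1 := Tc_chain ha hab hτ z K hz hK
  have h2 : ∀ n : ℕ, ∑ m ∈ range n, lv c (z (m + 1) - z m) = lv c (z n - z 0) := by
    intro n
    induction n with
    | zero => rw [sum_range_zero, sub_self, lv_zero]
    | succ n ih =>
      rw [sum_range_succ, ih, ← lv_add]
      congr 1
      abel
  have h3 : ∑ m ∈ range K, (Tc b c τ (z m) (z (m + 1)) - lv c (z (m + 1) - z m)) ≤
      ∑ m ∈ range K, xc b c τ (z m) (z (m + 1)) := sum_le_sum fun m _ => le_max_left _ _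
  rw [sum_sub_distrib, h2 K] at h3
  unfold xc
  unfold xc at h3
  exact max_le (by linarith) (sum_nonneg fun _ _ => le_max_right _ _)

namespace Fra

variable {f : Fra} {Q : Par} {g : V → ℝ} {R : ℝ} {M : Mdl Q.a Q.b} {n : ℕ}

/-- The double cone of a short piece meets at most one of the two strips: `|ps z - ps z'| < w / 4 - 2 W` for two of its
vertices. -/
theorem piece_off (h : f.Ok) {x y : V} (hxy : 24 * lv f.c (y - x) ≤ f.w) (s t s' t' : ℝ) :
    Disjoint (edg (Rg f.c f.D (f.w / 2) f.W (f.tl s) (f.tl t))) (edg (Dc f.c x y)) ∨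
      Disjoint (edg (Rg f.c f.D (f.w / 4) f.W (f.tl s') (f.tl t'))) (edg (Dc f.c x y)) := by
  have hw0 := h.w_pos
  have hW := h.hW
  have key : ∀ z ∈ Dc f.c x y, |ps f.c f.D z - ps f.c f.D x| ≤ f.w / 11 := by
    intro z hz
    have h1 := Wc_pq hz.1
    have h2 : lv f.c (z - x) ≤ lv f.c (y - x) := by
      rw [lv_sub, lv_sub]
      linarith [(Dc_lv hz).2]
    have h3 := Wc_lv hz.1
    rw [← ps_sub]
    unfold ps
    have h4 : |f.D * lv f.c (z - x)| ≤ 1 / 3200 * lv f.c (z - x) := by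
      rw [abs_mul, abs_of_nonneg h3]
      exact mul_le_mul_of_nonneg_right h.D_le h3
    have h5 := abs_le.1 h4
    have h6 := abs_le.1 h1.2
    rw [abs_le]
    constructor <;> linarith [h5.1, h5.2, h6.1, h6.2]
  by_cases h1 : ∃ z ∈ Dc f.c x y, |ps f.c f.D z - f.w / 2| ≤ f.W
  · right
    obtain ⟨z, hz, hz2⟩ := h1
    rw [Set.disjoint_left]
    intro d hd1 hd2
    have h2 := abs_le.1 (key z hz)
    have h3 := abs_le.1 (key d.1 hd2.1)
    have h4 := abs_le.1 hz2
    have h5 := abs_le.1 hd1.1.2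
    linarith [h2.2, h3.1, h4.1, h5.2]
  · left
    rw [Set.disjoint_left]
    intro d hd1 hd2
    exact h1 ⟨d.1, hd2.1, hd1.1.2⟩

private theorem tl_mono (h : f.Ok) {s t : ℝ} (hst : s ≤ t) : f.tl s ≤ f.tl t := by
  unfold tl
  exact mul_le_mul_of_nonneg_right (by linarith) h.u_pos.le

private theorem x_succ_o (f : Fra) (k : ℕ) : f.x (k + 1) = f.o k + (f.U + f.x₀) := by
  unfold x o
  rw [add_smul, one_smul]
  abel

/-- The points of a chain in the wide cone are ordered. -/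
private theorem pt_Wc {c : Crd} {K : ℕ} {pt : ℕ → V} (hpt : ∀ m < K, pt (m + 1) - pt m ∈ Wc c) (m : ℕ) :
    ∀ n : ℕ, m ≤ n → n ≤ K → pt n - pt m ∈ Wc c := by
  intro n
  induction n with
  | zero =>
    intro h1 _
    have : m = 0 := by omega
    rw [this, sub_self]
    exact Wc_zero c
  | succ n ih =>
    intro h1 h2
    rcases Nat.lt_or_ge n m with h3 | h3
    · have : m = n + 1 := by omega
      rw [this, sub_self]
      exact Wc_zero c
    · have h4 := Wc_add (ih h3 (by omega)) (hpt n (by omega))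
      have h7 : pt n - pt m + (pt (n + 1) - pt n) = pt (n + 1) - pt m := by abel
      rwa [h7] at h4

private theorem dir_sum1 (h : f.Ok) (hM : Good Q g R M) (hR : 20 * f.c.C * (n + 4) * (f.u + f.w) ≤ R)
    (hr : Ren M f.X1 f.sl (n + 1)) (hp : ∀ j : ℕ, M.P (fun τ => ¬ f.X2 j τ) ≤ 3 / (n + 1)) {K : ℕ} (hK : 1 ≤ K) {pt : ℕ → V}
    (h0 : pt 0 = 0) (h1 : pt K = f.U + f.x₀) {X : ℝ} (hX : 0 ≤ X) (hpt : ∀ m < K, pt (m + 1) - pt m ∈ Wc f.c ∧
      24 * lv f.c (pt (m + 1) - pt m) ≤ f.w ∧ M.E (fun τ => xc Q.b f.c τ 0 (pt (m + 1) - pt m)) ≤ X) (o : ℕ) :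
    M.E (fun τ => ∑ j ∈ range (n + 1 + 1), ic (cs f.X1 0 j τ = j) * (ic (¬ f.X2 j τ) * f.dr Q.b τ (j - o))) ≤
      8 * (K * X) := by
  have ha := Q.ha.le
  have hab := Q.hab.le
  have hw0 := h.w_pos
  have hsub : ∀ (k m : ℕ), m < K → Dc f.c (f.o k + pt m) (f.o k + pt (m + 1)) ⊆ Dc f.c (f.o k) (f.x (k + 1)) := by
    intro k m hm
    have e1 := pt_Wc (fun m hm => (hpt m hm).1) 0 m (Nat.zero_le _) hm.le
    have e2 := pt_Wc (fun m hm => (hpt m hm).1) (m + 1) K hm le_rfl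
    rw [h0, sub_zero] at e1
    rw [h1] at e2
    rw [x_succ_o]
    refine (Dc_right (y := f.o k + pt (m + 1)) ?_).trans (Dc_left (x := f.o k) ?_)
    · have : f.o k + pt m - f.o k = pt m := by abel
      rw [this]
      exact e1
    · have : f.o k + (f.U + f.x₀) - (f.o k + pt (m + 1)) = (f.U + f.x₀) - pt (m + 1) := by abel
      rw [this]
      exact e2
  have key := chain_sum (M := M) (N := n + 1) (K := K) (R := fun j τ => cs f.X1 0 j τ = j) (F := fun j τ => f.X2 j τ)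
    (A₁ := fun j => f.sl 0 j) (A₂ := fun j => edg (Rg f.c f.D (f.w / 4) f.W (f.tl ((j : ℝ) - 2)) (f.tl ((j : ℝ) + 1))))
    (Z := fun j m τ => xc Q.b f.c τ (f.o (j - o) + pt m) (f.o (j - o) + pt (m + 1)))
    (D := fun j m => edg (Dc f.c (f.o (j - o) + pt m) (f.o (j - o) + pt (m + 1)))) (c := X) (p := 3 / ((n : ℝ) + 1))
    (by
      intro j _ τ₁ τ₂ hτ
      have : cs f.X1 0 j τ₁ = cs f.X1 0 j τ₂ :=
        cs_dep hr.mono hr.dep j fun d hd => hτ d (by rwa [Nat.zero_add] at hd)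
      simp only [this])
    (by
      intro j _
      exact dependsOn_Cx _ _ _ _ _ _ _)
    (by
      intro j _ m _
      exact xc_dep _ _ _ _)
    (fun _ _ _ _ _ _ => le_max_right _ _) hX
    (by
      intro j _ m hm
      rw [E_xc hM]
      have e2 : f.o (j - o) + pt (m + 1) - (f.o (j - o) + pt m) = pt (m + 1) - pt m := by abel
      rw [e2]
      exact (hpt m hm).2.2)
    (by
      intro j hj m hm
      have hB : ∀ d ∈ edg (Dc f.c (f.o (j - o) + pt m) (f.o (j - o) + pt (m + 1))), nm d.1 ≤ R := by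
        intro d hd
        exact (Dc_nm5 h (n := n) (i := j - o) (by omega) (hsub (j - o) m hm hd.1)).trans hR
      have hjn : (j : ℝ) ≤ n + 1 := by exact_mod_cast hj
      have hj0 : (0 : ℝ) ≤ j := Nat.cast_nonneg _
      have e2 : f.o (j - o) + pt (m + 1) - (f.o (j - o) + pt m) = pt (m + 1) - pt m := by abel
      have e1 : f.sl 0 j = edg (Rg f.c f.D (f.w / 2) f.W (f.tl 0) (f.tl j)) := by
        unfold sl
        rw [Nat.cast_zero]
      rcases piece_off h (x := f.o (j - o) + pt m) (y := f.o (j - o) + pt (m + 1)) (by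
          rw [e2]
          exact (hpt m hm).2.1) 0 j ((j : ℝ) - 2) ((j : ℝ) + 1) with h2 | h2
      · left
        refine indp_of hM ?_ ?_ hB
        · rw [e1]
          exact h2
        · intro d hd
          rw [e1] at hd
          exact (Rg_nm h (n := n) (by linarith) le_rfl (by norm_num) (by linarith) hd.1).trans hR
      · right
        refine indp_of hM h2 ?_ hB
        intro d hd
        exact (Rg_nm h (n := n) le_rfl (by linarith) (by linarith) (by linarith) hd.1).trans hR)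
    hr.restart_le0 (fun j _ => hp j)
  refine le_trans (M.E_mono fun τ hτ => ?_) (key.trans ?_)
  · refine sum_le_sum fun j _ => ?_
    rw [mul_assoc]
    refine mul_le_mul_of_nonneg_left (mul_le_mul_of_nonneg_left ?_ (ic_nonneg _)) (ic_nonneg _)
    unfold dr
    have h2 := xc_chain ha hab hτ (c := f.c) (fun m => f.o (j - o) + pt m) K (fun m hm => by
      have e2 : f.o (j - o) + pt (m + 1) - (f.o (j - o) + pt m) = pt (m + 1) - pt m := by abel
      show f.o (j - o) + pt (m + 1) - (f.o (j - o) + pt m) ∈ Wc f.c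
      rw [e2]
      exact (hpt m hm).1) hK
    simp only [h0, h1, add_zero] at h2
    rw [x_succ_o]
    exact h2
  · refine mul_le_mul_of_nonneg_right ?_ (mul_nonneg (Nat.cast_nonneg _) hX)
    have hn : (0 : ℝ) ≤ n := Nat.cast_nonneg _
    have h2 : ((n + 1 : ℕ) + 1 : ℝ) * (3 / ((n : ℝ) + 1)) ≤ 6 := by
      rw [mul_div_assoc', div_le_iff₀ (by linarith)]
      push_cast
      linarith
    linarith

/-- The cost of the direct connections.  PROOF. `dr k ≤ ∑ m, xc (o k + pt m) (o k + pt (m + 1))` (`xc_chain`), then `chain_sum`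
for `j - 2` and for `j - 1` (`R j = (cs f.X1 0 j τ = j)`, `F j = f.X2 j`), `(2 + (n + 2) 3 / (n + 1)) ≤ 8`. -/
theorem dir_sum (h : f.Ok) (hM : Good Q g R M) (hR : 20 * f.c.C * (n + 4) * (f.u + f.w) ≤ R) (hr : Ren M f.X1 f.sl (n + 1))
    (hp : ∀ j : ℕ, M.P (fun τ => ¬ f.X2 j τ) ≤ 3 / (n + 1)) {K : ℕ} (hK : 1 ≤ K) {pt : ℕ → V} (h0 : pt 0 = 0)
    (h1 : pt K = f.U + f.x₀) {X : ℝ} (hX : 0 ≤ X) (hpt : ∀ m < K, pt (m + 1) - pt m ∈ Wc f.c ∧
      24 * lv f.c (pt (m + 1) - pt m) ≤ f.w ∧ M.E (fun τ => xc Q.b f.c τ 0 (pt (m + 1) - pt m)) ≤ X) :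
    M.E (fun τ => ∑ j ∈ range (n + 2), ic (cs f.X1 0 j τ = j) *
      (ic (¬ f.X2 j τ) * (f.dr Q.b τ (j - 2) + f.dr Q.b τ (j - 1)))) ≤ 16 * K * X := by
  have e1 := dir_sum1 h hM hR hr hp hK h0 h1 hX hpt 2
  have e2 := dir_sum1 h hM hR hr hp hK h0 h1 hX hpt 1
  have e3 : M.E (fun τ => ∑ j ∈ range (n + 2), ic (cs f.X1 0 j τ = j) *
      (ic (¬ f.X2 j τ) * (f.dr Q.b τ (j - 2) + f.dr Q.b τ (j - 1)))) =
      M.E (fun τ => ∑ j ∈ range (n + 1 + 1), ic (cs f.X1 0 j τ = j) * (ic (¬ f.X2 j τ) * f.dr Q.b τ (j - 2))) +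
      M.E (fun τ => ∑ j ∈ range (n + 1 + 1), ic (cs f.X1 0 j τ = j) * (ic (¬ f.X2 j τ) * f.dr Q.b τ (j - 1))) := by
    rw [← M.E_add]
    refine M.E_congr fun τ _ => ?_
    rw [← sum_add_distrib]
    refine sum_congr rfl fun j _ => ?_
    ring
  rw [e3]
  linarith

end Fra

end Pool.Agent.W_1b8d5d_sc
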