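import Pool.Agent.W_1b8d5d_sc.Chain

/-!
MP_1b8d5d_pr (SC, part P5): the decomposition of a vector `x` of the thin cone near the end 1 into a shorter vector `x₀` of the
thin cone near the end 2 and a vector `U` in the direction of the tubes; the two strips and the pieces of the straight chain.
-/

set_option autoImplicit false

namespace Pool.Agent.W_1b8d5d_sc

open Finset Pool.Agent.W_1b8d5d_h85 Pool.Agent.W_1b8d5d_fe

/-- ** The decomposition. ** -/
theorem split_vec (c : Crd) {e σ : ℝ} (he : 0 < e) (he1 : e ≤ 1 / 100) (hσ : |σ| ≤ e / 8) {x : V}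
    (hl : 1000 * c.C ≤ e * lv c x) (h1 : e / 2 * lv c x - 4 * c.C ≤ c.q x) (h2 : c.q x ≤ e * lv c x + 4 * c.C) :
    ∃ x₀ : V, e / 4 * lv c x ≤ lv c x₀ ∧ lv c x₀ ≤ 2 * e * lv c x ∧
      (e / 2 * lv c x₀ - 4 * c.C ≤ c.p x₀ ∧ c.p x₀ ≤ e * lv c x₀ + 4 * c.C) ∧ 9 / 10 * lv c x₀ ≤ c.q x₀ ∧
      |c.q (x - x₀) - σ * lv c (x - x₀)| ≤ 2 * c.C := by
  have hC := c.one_le
  obtain ⟨n, hn⟩ : ∃ n, n = lv c x := ⟨_, rfl⟩
  rw [← hn] at hl h1 h2
  have hσ1 := abs_le.1 hσ
  have hn0 : 0 < n := by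
    by_contra h
    have := mul_nonneg he.le (by linarith : 0 ≤ -n)
    linarith
  have hd : 0 < 1 - 3 * e / 4 - σ := by linarith [hσ1.2]
  obtain ⟨m, hm⟩ : ∃ m, m = (c.q x - σ * n) / (1 - 3 * e / 4 - σ) := ⟨_, rfl⟩
  have hm' : m * (1 - 3 * e / 4 - σ) = c.q x - σ * n := by
    rw [hm]
    exact div_mul_cancel₀ _ hd.ne'
  have hσn1 : σ * n ≤ e / 8 * n := mul_le_mul_of_nonneg_right hσ1.2 hn0.le
  have hσn2 : -(e / 8) * n ≤ σ * n := mul_le_mul_of_nonneg_right hσ1.1 hn0.le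
  have hmlow : 3 / 10 * (e * n) ≤ m := by
    by_contra h
    push Not at h
    have h3 : 0 ≤ e * n := by positivity
    have h4 : m * (1 - 3 * e / 4 - σ) ≤ 3 / 10 * (e * n) * (1 - 3 * e / 4 - σ) := mul_le_mul_of_nonneg_right h.le hd.le
    have h5 : 3 / 10 * (e * n) * (1 - 3 * e / 4 - σ) ≤ 3 / 10 * (e * n) * 1 :=
      mul_le_mul_of_nonneg_left (by linarith [hσ1.1]) (by positivity)
    linarith
  have hmup : m ≤ 3 / 2 * (e * n) := by
    by_contra h
    push Not at h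
    have h3 : 0 ≤ e * n := by positivity
    have h4 : 3 / 2 * (e * n) * (1 - 3 * e / 4 - σ) ≤ m * (1 - 3 * e / 4 - σ) := mul_le_mul_of_nonneg_right h.le hd.le
    have h5 : 3 / 2 * (e * n) * (9 / 10) ≤ 3 / 2 * (e * n) * (1 - 3 * e / 4 - σ) :=
      mul_le_mul_of_nonneg_left (by linarith [hσ1.2]) (by positivity)
    linarith
  have hm0 : 0 < m := by nlinarith
  obtain ⟨x₀, hx₀⟩ : ∃ x₀, x₀ = c.rd (3 * e / 4 * m) ((1 - 3 * e / 4) * m) := ⟨_, rfl⟩
  have a1 := abs_le.1 (c.rd_p (3 * e / 4 * m) ((1 - 3 * e / 4) * m))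
  have a2 := abs_le.1 (c.rd_q (3 * e / 4 * m) ((1 - 3 * e / 4) * m))
  rw [← hx₀] at a1 a2
  have a3 : lv c x₀ = c.p x₀ + c.q x₀ := rfl
  have a4 : lv c x₀ ≤ m + 2 * c.C := by linarith [a1.2, a2.2]
  have a5 : m - 2 * c.C ≤ lv c x₀ := by linarith [a1.1, a2.1]
  have hem : e * m ≤ 1 / 100 * m := mul_le_mul_of_nonneg_right he1 hm0.le
  have hem0 : 0 < e * m := by positivity
  have e1 : e / 2 * lv c x₀ ≤ e / 2 * m + c.C := by
    have := mul_le_mul_of_nonneg_left a4 (by positivity : 0 ≤ e / 2)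
    nlinarith
  have e2 : e * m - c.C ≤ e * lv c x₀ := by
    have := mul_le_mul_of_nonneg_left a5 he.le
    nlinarith
  refine ⟨x₀, ?_, ?_, ⟨?_, ?_⟩, ?_, ?_⟩
  · rw [← hn]
    linarith
  · rw [← hn]
    linarith
  · linarith [a1.1]
  · linarith [a1.2]
  · linarith [a2.1]
  · rw [map_sub, lv_sub, ← hn]
    have b1 : c.q x - c.q x₀ - σ * (n - lv c x₀) =
        ((1 - 3 * e / 4) * m - c.q x₀) + σ * (lv c x₀ - m) := by
      linear_combination (-1 : ℝ) * hm'
    rw [b1]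
    have b2 : |σ * (lv c x₀ - m)| ≤ c.C := by
      rw [abs_mul]
      have b3 : |lv c x₀ - m| ≤ 2 * c.C := by
        rw [abs_le]
        constructor <;> linarith
      calc |σ| * |lv c x₀ - m| ≤ (e / 8) * (2 * c.C) := mul_le_mul hσ b3 (abs_nonneg _) (by positivity)
        _ ≤ c.C := by nlinarith
    have b4 := abs_le.1 b2
    rw [abs_le]
    constructor <;> linarith [b4.1, b4.2, a2.1, a2.2]

/-- The height with respect to the direction `U`. -/
noncomputable def thU (c : Crd) (U : V) : V →+ ℝ :=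
  AddMonoidHom.mk' (fun z => c.q z - c.q U / lv c U * lv c z) (fun x y => by rw [map_add, lv_add]; ring)

theorem thU_apply (c : Crd) (U z : V) : thU c U z = c.q z - c.q U / lv c U * lv c z := rfl

theorem thU_self {c : Crd} {U : V} (h : 0 < lv c U) : thU c U U = 0 := by
  rw [thU_apply, div_mul_cancel₀ _ h.ne', sub_self]

/-- The slope of `U`. -/
theorem slope_le {c : Crd} {e σ : ℝ} (hσ : |σ| ≤ e / 8) {U : V} (h : |c.q U - σ * lv c U| ≤ 2 * c.C)
    (hU : 16 * c.C ≤ e * lv c U) (he : 0 < e) : |c.q U / lv c U| ≤ e / 4 ∧ |c.q U / lv c U - σ| * lv c U ≤ 2 * c.C := by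
  have hC := c.one_le
  have hU0 : 0 < lv c U := by
    by_contra h
    have := mul_nonneg he.le (by linarith : 0 ≤ -lv c U)
    linarith
  have h1 : |c.q U / lv c U - σ| * lv c U ≤ 2 * c.C := by
    have h2 : |c.q U / lv c U - σ| * lv c U = |c.q U - σ * lv c U| := by
      rw [← abs_of_pos hU0, ← abs_mul, abs_of_pos hU0, sub_mul, div_mul_cancel₀ _ hU0.ne']
    rw [h2]
    exact h
  refine ⟨?_, h1⟩
  have h3 : |c.q U / lv c U - σ| ≤ e / 8 := by
    by_contra h4
    push Not at h4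
    have h5 := mul_lt_mul_of_pos_right h4 hU0
    linarith
  have h6 := abs_le.1 hσ
  have h7 := abs_le.1 h3
  rw [abs_le]
  constructor <;> linarith [h6.1, h6.2, h7.1, h7.2]

/-- The heights of the double cones of the pieces of the straight chain. -/
theorem pce_th {c : Crd} {K : ℕ} {x U : V} (hs : |c.q U / lv c U| ≤ 1 / 4) (hx : 0 ≤ lv c x) (u : V) {m : ℕ} (hm : m < K)
    {z : V} (hz : z ∈ Dc c (u + sgm c K x m) (u + sgm c K x (m + 1))) :
    |thU c U z - thU c U u - m / K * thU c U x| ≤ 3 * (lv c x / K) + 10 * c.C := by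
  have hC := c.one_le
  obtain ⟨h1, h2, h3⟩ := pce_near u hm hz
  rw [thU_apply, thU_apply, thU_apply]
  obtain ⟨s, hs'⟩ : ∃ s, s = c.q U / lv c U := ⟨_, rfl⟩
  rw [← hs'] at hs ⊢
  have h4 : |lv c z - lv c u - m * lv c x / K| ≤ lv c x / K + 2 * c.C := by
    have h5 : ((m : ℝ) + 1) * lv c x / K = m * lv c x / K + lv c x / K := by ring
    rw [h5] at h2
    have h6 : 0 ≤ lv c x / K := div_nonneg hx (Nat.cast_nonneg _)
    rw [abs_le]
    constructor <;> linarith
  have h5 : |s * (lv c z - lv c u - m * lv c x / K)| ≤ 1 / 4 * (lv c x / K + 2 * c.C) := by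
    rw [abs_mul]
    exact mul_le_mul hs h4 (abs_nonneg _) (by norm_num)
  have h6 := abs_le.1 h5
  have h7 := abs_le.1 h3
  have h8 : 0 ≤ lv c x / K := div_nonneg hx (Nat.cast_nonneg _)
  have h9 : c.q z - s * lv c z - (c.q u - s * lv c u) - (m : ℝ) / K * (c.q x - s * lv c x) =
      (c.q z - c.q u - m * c.q x / K) - s * (lv c z - lv c u - m * lv c x / K) := by ring
  rw [h9, abs_le]
  constructor <;> linarith [h6.1, h6.2, h7.1, h7.2]

/-- A piece of the straight chain misses the upper strip, if it is in the first half, and the lower strip otherwise. -/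
theorem pce_off {c : Crd} {K : ℕ} {x x₀ U : V} {e W : ℝ} (he : 0 < e) (hs : |c.q U / lv c U| ≤ 1 / 40)
    (hx : e / 4 * lv c x ≤ lv c x₀) (hxx : thU c U x = thU c U x₀) (hq : 9 / 10 * lv c x₀ ≤ c.q x₀)
    (hl : 1000 * c.C ≤ lv c x₀) (hW : W ≤ lv c x₀ / 10) (hK : 1200 ≤ e * K) {u : V} (hu : thU c U u = 0) {m : ℕ}
    (hm : m < K) {z : V} (hz : z ∈ Dc c (u + sgm c K x m) (u + sgm c K x (m + 1))) (hx0 : 0 ≤ lv c x) :
    (2 * m ≤ K → thU c U z < 7 / 10 * thU c U x₀ - W) ∧ (K ≤ 2 * m → 3 / 10 * thU c U x₀ + W < thU c U z) := by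
  have hC := c.one_le
  have hn0 : 0 < lv c x₀ := by linarith
  have h1 := abs_le.1 (pce_th (by linarith : |c.q U / lv c U| ≤ 1 / 4) hx0 u hm hz)
  rw [hu, hxx] at h1
  have hK0 : (0 : ℝ) < K := by
    by_contra h
    have := mul_nonneg he.le (by linarith : 0 ≤ -(K : ℝ))
    linarith
  have h2 : 3 * (lv c x / K) ≤ lv c x₀ / 100 := by
    have h3 : lv c x ≤ 4 / e * lv c x₀ := by
      have := mul_le_mul_of_nonneg_left hx (by positivity : 0 ≤ 4 / e)
      have h4 : 4 / e * (e / 4 * lv c x) = lv c x := by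
        field_simp
      linarith
    have h4 : lv c x / K ≤ 4 / (e * K) * lv c x₀ := by
      rw [div_le_iff₀ hK0]
      refine h3.trans (le_of_eq ?_)
      field_simp
    have h5 : 4 / (e * K) ≤ 1 / 300 := by
      rw [div_le_div_iff₀ (by positivity) (by norm_num)]
      linarith
    have h6 := mul_le_mul_of_nonneg_right h5 hn0.le
    linarith
  have h3 : 7 / 8 * lv c x₀ ≤ thU c U x₀ := by
    rw [thU_apply]
    have h4 := mul_le_mul_of_nonneg_right (abs_le.1 hs).2 hn0.le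
    linarith
  have h4 : 10 * c.C ≤ lv c x₀ / 100 := by linarith
  have ht0 : 0 < thU c U x₀ := by linarith
  constructor
  · intro h
    have h5 : (m : ℝ) / K ≤ 1 / 2 := by
      rw [div_le_div_iff₀ hK0 (by norm_num)]
      have : ((2 * m : ℕ) : ℝ) ≤ K := by exact_mod_cast h
      push_cast at this
      linarith
    have h6 := mul_le_mul_of_nonneg_right h5 ht0.le
    linarith [h1.2]
  · intro h
    have h5 : 1 / 2 ≤ (m : ℝ) / K := by
      rw [div_le_div_iff₀ (by norm_num) hK0]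
      have : (K : ℝ) ≤ ((2 * m : ℕ) : ℝ) := by exact_mod_cast h
      push_cast at this
      linarith
    have h6 := mul_le_mul_of_nonneg_right h5 ht0.le
    linarith [h1.1]

end Pool.Agent.W_1b8d5d_sc
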