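import Pool.Agent.W_1b8d5d_sc.P5Defs
import Pool.Agent.W_1b8d5d_sc.Split

/-!
MP_1b8d5d_pr (SC, part P5): the frame of a vector of the thin cone.
-/

set_option autoImplicit false

namespace Pool.Agent.W_1b8d5d_sc

open Finset Pool.Agent.W_1b8d5d_h85 Pool.Agent.W_1b8d5d_fe

namespace Fra

/-- ** The frame of `x`. ** -/
theorem exists_split (c : Crd) {e σ W B : ℝ} (he : 0 < e) (he1 : e * (1000 * c.C ^ 2) ≤ 1) (hσ : |σ| ≤ e / 100) {x : V}
    (hl : 4000 * c.C ≤ e * lv c x) (h1 : e / 2 * lv c x - 4 * c.C ≤ c.q x) (h2 : c.q x ≤ e * lv c x + 4 * c.C)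
    (hW0 : 0 ≤ W) (hW : W ≤ e * lv c x / 256) (hB0 : 0 ≤ B) (hB : B ≤ e * lv c x / 256) :
    ∃ f : Fra, f.c = c ∧ f.U + f.x₀ = x ∧ f.W = W ∧ f.B = B ∧ f.Ok ∧ e / 4 * lv c x ≤ f.w ∧ f.w ≤ 2 * e * lv c x ∧
      (e / 2 * f.w - 4 * c.C ≤ c.p f.x₀ ∧ c.p f.x₀ ≤ e * f.w + 4 * c.C) ∧
      |c.q f.U - σ * lv c f.U| ≤ 2 * c.C := by
  have hC := c.one_le
  have hC2 : 1 ≤ c.C ^ 2 := one_le_pow₀ hC
  have he2 : e ≤ 1 / 1000 := by nlinarith
  obtain ⟨x₀, a1, a2, a3, a4, a5⟩ := split_vec c he (by linarith) (hσ.trans (by linarith)) (by linarith) h1 h2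
  obtain ⟨n, hn⟩ : ∃ n, n = lv c x := ⟨_, rfl⟩
  obtain ⟨w, hw⟩ : ∃ w, w = lv c x₀ := ⟨_, rfl⟩
  rw [← hn] at hl hW hB a1 a2
  rw [← hw] at a1 a2 a3 a4
  have hn0 : 0 < n := by
    by_contra h
    have := mul_nonneg he.le (by linarith : 0 ≤ -n)
    linarith
  have hw1 : 1000 * c.C ≤ w := by linarith
  have hu : lv c (x - x₀) = n - w := by rw [lv_sub, hn, hw]
  have hnw : 500 * c.C ^ 2 * w ≤ n := by
    have h3 : 500 * c.C ^ 2 * w ≤ 500 * c.C ^ 2 * (2 * e * n) := mul_le_mul_of_nonneg_left a2 (by positivity)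
    have h4 := mul_le_mul_of_nonneg_right he1 hn0.le
    linarith
  have hwC : w ≤ c.C ^ 2 * w := le_mul_of_one_le_left (by linarith) hC2
  have hqU : |c.q (x - x₀)| ≤ w / 16 := by
    have h3 : |σ * lv c (x - x₀)| ≤ e / 100 * n := by
      rw [abs_mul, hu]
      have h4 : |n - w| ≤ n := by
        rw [abs_le]
        constructor <;> linarith
      exact mul_le_mul hσ h4 (abs_nonneg _) (by positivity)
    have h4 := abs_le.1 h3
    have h5 := abs_le.1 a5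
    rw [abs_le]
    constructor <;> linarith [h4.1, h4.2, h5.1, h5.2]
  have hew : e * w ≤ w / 1000 := by
    have := mul_le_mul_of_nonneg_right he2 (by linarith : 0 ≤ w)
    linarith
  have hew0 : 0 ≤ e * w := mul_nonneg he.le (by linarith)
  refine ⟨⟨c, x - x₀, x₀, W, B⟩, rfl, by show x - x₀ + x₀ = x; abel, rfl, rfl, ?_, ?_, ?_, ?_, a5⟩
  · refine ⟨?_, ?_, ?_, ?_, hW0, ?_, hB0, ?_⟩
    · show 1000 * c.C ≤ lv c x₀
      rw [← hw]
      exact hw1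
    · show 200 * c.C ^ 2 * lv c x₀ ≤ lv c (x - x₀)
      rw [hu, ← hw]
      linarith
    · show |c.q (x - x₀)| ≤ lv c x₀ / 16
      rw [← hw]
      exact hqU
    · show |c.p x₀| ≤ lv c x₀ / 64
      rw [← hw, abs_le]
      constructor <;> linarith [a3.1, a3.2]
    · show W ≤ lv c x₀ / 64
      rw [← hw]
      linarith
    · show B ≤ lv c x₀ / 64
      rw [← hw]
      linarith
  · show e / 4 * lv c x ≤ lv c x₀
    rw [← hw, ← hn]
    exact a1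
  · show lv c x₀ ≤ 2 * e * lv c x
    rw [← hw, ← hn]
    exact a2
  · show e / 2 * lv c x₀ - 4 * c.C ≤ c.p x₀ ∧ c.p x₀ ≤ e * lv c x₀ + 4 * c.C
    rw [← hw]
    exact a3

end Fra

end Pool.Agent.W_1b8d5d_sc
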