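import Pool.Agent.W_1b8d5d_sc.P5Cx
import Pool.Agent.W_1b8d5d_sc.TDefs

/-!
MP_1b8d5d_pr (SC, part P5): from the tubes of a real slope to the crossings of the strips in the direction of `U`.
-/

set_option autoImplicit false

namespace Pool.Agent.W_1b8d5d_sc

open Finset Pool.Agent.W_1b8d5d_h85 Pool.Agent.W_1b8d5d_fe

/-- A crossing of a tube of slope `σ` contains a crossing of the strip of slope `-D` over a shorter slab, if the change of the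
slope is absorbed by the width. -/
theorem Cx_of_Tb {c : Crd} {τ : Env} {σ D β W B t₁ t₂ ℓ r : ℝ} (h : Tb c τ σ t₁ (β - D * t₁) ℓ r B)
    (h1 : t₁ + 4 * c.C < t₂) (h2 : t₂ ≤ t₁ + ℓ) (hW : r + |D + σ| * (t₂ - t₁) ≤ W) : Cx c B D β W t₁ t₂ τ := by
  have hC := c.one_le
  obtain ⟨x, y, w, -, hw, hs, hx, hy⟩ := h
  obtain ⟨u, P₁, P₂, e1, a1, a2⟩ := exists_after (s := t₁) w hx (by linarith)
  obtain ⟨v, P₃, P₄, e2, a3, a4⟩ := exists_before (s := t₂) P₂ (by linarith) (by linarith)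
  have hB : Bg c τ B w := hw.2
  refine ⟨u, v, P₃, (hB.right e1).left e2, fun z hz => ?_, a2, a4⟩
  have hz2 : z ∈ P₂.support := by
    rw [e2, SimpleGraph.Walk.mem_support_append_iff]
    exact Or.inl hz
  have hz3 : z ∈ w.support := by
    rw [e1, SimpleGraph.Walk.mem_support_append_iff]
    exact Or.inr hz2
  have b1 := a1 z hz2
  have b2 := a3 z hz
  obtain ⟨-, b3⟩ := hs z hz3
  refine ⟨⟨b1, b2⟩, ?_⟩
  have b4 : |(D + σ) * (lv c z - t₁)| ≤ |D + σ| * (t₂ - t₁) := by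
    rw [abs_mul]
    refine mul_le_mul_of_nonneg_left ?_ (abs_nonneg _)
    rw [abs_le]
    constructor <;> linarith
  have b5 := abs_le.1 b3
  have b6 := abs_le.1 b4
  have b7 : ps c D z - β = (c.q z - (β - D * t₁) - σ * (lv c z - t₁)) + (D + σ) * (lv c z - t₁) := by
    unfold ps
    ring
  rw [b7, abs_le]
  constructor <;> linarith [b5.1, b5.2, b6.1, b6.2]

/-- ** The crossings of the strips from the tubes. ** -/
theorem P_Cx_of_Tub {a b : ℝ} {M : Mdl a b} {c : Crd} {σ₀ : ℝ} {j : ℕ} {r B : ℝ} (h : Tub M c σ₀ j r B) {d : Crd}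
    (hd : d = c ∨ d = swp c) : ∃ σ : ℝ, |σ| ≤ σ₀ ∧ ∀ D β W t₁ t₂ : ℝ, t₁ + 4 * d.C < t₂ → t₂ ≤ t₁ + 2 ^ j →
      r * 2 ^ j + |D + σ| * (t₂ - t₁) ≤ W → 1 / 2 ≤ M.P (Cx d B D β W t₁ t₂) := by
  obtain ⟨σ, hσ, hp⟩ := h d hd
  refine ⟨σ, hσ, fun D β W t₁ t₂ h1 h2 hW => ?_⟩
  refine (hp t₁ (β - D * t₁)).trans (M.P_mono fun τ _ hτ => ?_)
  exact Cx_of_Tb hτ h1 h2 hW

end Pool.Agent.W_1b8d5d_sc
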