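import Pool.Agent.W_1b8d5d_sc.P5Main
import Pool.Agent.W_1b8d5d_sc.P5Split
import Pool.Agent.W_1b8d5d_sc.P5Tb
import Pool.Agent.W_1b8d5d_sc.XsB
import Pool.Agent.W_1b8d5d_sc.LkSq
import Pool.Agent.W_1b8d5d_fe.Rates1
import Pool.Agent.W_1b8d5d_fe.FmL

/-!
MP_1b8d5d_pr (SC, part P5): the increment of the excess from the tubes.
-/

set_option autoImplicit false

namespace Pool.Agent.W_1b8d5d_sc

open Finset Pool.Agent.W_1b8d5d_h85 Pool.Agent.W_1b8d5d_fe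

/-- The opening of the thin cones. -/
noncomputable def ee (c : Crd) : ℝ := 1 / (1000 * c.C ^ 2)

theorem ee_pos (c : Crd) : 0 < ee c := by
  have := c.one_le
  unfold ee
  positivity

theorem ee_le (c : Crd) : ee c ≤ 1 / 1000 := by
  have h : 1 ≤ c.C ^ 2 := one_le_pow₀ c.one_le
  unfold ee
  rw [div_le_div_iff₀ (by positivity) (by norm_num)]
  linarith

theorem ee_mul (c : Crd) : ee c * (1000 * c.C ^ 2) = 1 := by
  have := c.one_le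
  unfold ee
  rw [one_div, inv_mul_cancel₀]
  positivity

private theorem P5Fin_a {CD CL H B : ℝ} (h1 : 1 ≤ CD) (h2 : 1 ≤ CL) (hH : 1 ≤ H) (hB : 1 ≤ B) :
    1 ≤ (CD + 33 * CL) * H ∧ 33 * CL * H ^ 2 ≤ ((CD + 33 * CL) * H) ^ 2 ∧ B + (CD + 33 * CL) * H ≤ (CD + 33 * CL) * (B + H) := by
  have h3 : 1 ≤ CD + 33 * CL := by linarith
  refine ⟨?_, ?_, ?_⟩
  · nlinarith
  · rw [mul_pow]
    refine mul_le_mul_of_nonneg_right ?_ (by positivity)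
    nlinarith
  · nlinarith

private theorem P5Fin_b {κ a b : ℝ} (hκ : 0 < κ) (ha : 0 ≤ a) (hb : 0 ≤ b) : 2 * a + 1 / κ * b ≤ (2 + 1 / κ) * (a + b) := by
  have h1 : 0 ≤ 1 / κ * a := by positivity
  have h2 : (2 + 1 / κ) * (a + b) = 2 * a + 1 / κ * b + (1 / κ * a + 2 * b) := by ring
  linarith

private theorem P5Fin_c {e w l : ℝ} (he : 0 < e) (h : e / 4 * l ≤ w) : l ≤ 4 / e * w := by
  have := mul_le_mul_of_nonneg_left h (by positivity : 0 ≤ 4 / e)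
  have h4 : 4 / e * (e / 4 * l) = l := by
    field_simp
  linarith

/-- The number of the cells. -/
private theorem P5Fin_num {κ : ℝ} {i j : ℕ} (h1 : i + 5 ≤ j) (h2 : 16 ≤ κ * 2 ^ i) : ∃ n : ℕ, 1 ≤ n ∧
    ((n : ℝ) + 3) * 2 ^ (i + 1) ≤ 2 ^ j ∧ ((n : ℝ) + 4) * 2 ^ (i + 1) ≤ 3 / 2 * 2 ^ j ∧ (n : ℝ) + 3 ≤ κ * 2 ^ i ∧
      1 / (n : ℝ) ≤ 2 * ((2 * 2 ^ i) / 2 ^ j + 1 / (κ * 2 ^ i)) := by
  have hp : (0 : ℝ) < 2 ^ (i + 1) := by positivity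
  have hj : (0 : ℝ) < 2 ^ j := by positivity
  obtain ⟨m, hm⟩ : ∃ m : ℝ, m = min (2 ^ j / 2 ^ (i + 1)) (κ * 2 ^ i) := ⟨_, rfl⟩
  have h3 : (16 : ℝ) ≤ 2 ^ j / 2 ^ (i + 1) := by
    rw [le_div_iff₀ hp]
    have h4 : (16 : ℝ) * 2 ^ (i + 1) = 2 ^ (i + 5) := by
      rw [show i + 5 = (i + 1) + 4 by ring, pow_add (2 : ℝ) (i + 1) 4]
      ring
    rw [h4]
    exact pow_le_pow_right₀ (by norm_num) h1
  have hm16 : 16 ≤ m := by
    rw [hm]
    exact le_min h3 h2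
  have hm1 : m ≤ 2 ^ j / 2 ^ (i + 1) := by rw [hm]; exact min_le_left _ _
  have hm2 : m ≤ κ * 2 ^ i := by rw [hm]; exact min_le_right _ _
  have hfl : (⌊m⌋₊ : ℝ) ≤ m := Nat.floor_le (by linarith)
  have hfl2 : m < (⌊m⌋₊ : ℝ) + 1 := Nat.lt_floor_add_one m
  have hfl3 : 16 ≤ ⌊m⌋₊ := Nat.le_floor (by exact_mod_cast hm16)
  obtain ⟨n, hn⟩ : ∃ n, ⌊m⌋₊ = n + 3 := ⟨⌊m⌋₊ - 3, by omega⟩
  rw [hn] at hfl hfl2
  push_cast at hfl hfl2
  have hm1' : m * 2 ^ (i + 1) ≤ 2 ^ j := by rwa [le_div_iff₀ hp] at hm1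
  refine ⟨n, by omega, ?_, ?_, by linarith, ?_⟩
  · exact (mul_le_mul_of_nonneg_right hfl hp.le).trans hm1'
  · have h4 : (n : ℝ) + 4 ≤ 3 / 2 * m := by linarith
    have := mul_le_mul_of_nonneg_right h4 hp.le
    linarith
  · have h4 : m / 2 ≤ n := by linarith
    have h5 : 1 / (n : ℝ) ≤ 2 * (1 / m) := by
      rw [div_le_iff₀ (by linarith)]
      have : 1 = 2 * (1 / m) * (m / 2) := by
        field_simp
      nlinarith [mul_le_mul_of_nonneg_left h4 (by positivity : 0 ≤ 2 * (1 / m))]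
    refine h5.trans (mul_le_mul_of_nonneg_left ?_ (by norm_num))
    have hκ : 0 < κ * 2 ^ i := by linarith
    have e1 : 0 ≤ (2 * 2 ^ i : ℝ) / 2 ^ j := by positivity
    have e2 : 0 ≤ 1 / (κ * 2 ^ i) := by positivity
    rcases min_choice ((2 : ℝ) ^ j / 2 ^ (i + 1)) (κ * 2 ^ i) with h6 | h6
    · rw [h6] at hm
      have : 1 / m = (2 * 2 ^ i) / 2 ^ j := by
        rw [hm, one_div_div, pow_succ]
        ring
      linarith
    · rw [h6] at hm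
      rw [hm]
      linarith

/-- ** One end. ** -/
theorem one_end {Q : Par} {g : V → ℝ} (hg : IsMean Q g) {c : Crd} (hf : FlatS g c) {CD CL : ℝ} (hCD : 1 ≤ CD) (hCL : 1 ≤ CL) :
    ∃ (C₂ κ : ℝ) (i₀ : ℕ), 0 ≤ C₂ ∧ 0 < κ ∧ ∀ (R : ℝ) (M : Mdl Q.a Q.b) (i j : ℕ) (b B H : ℝ), Good Q g R M → i₀ ≤ i →
      i + 5 ≤ j → 2 * ((2 : ℝ) ^ j) ^ 4 ≤ R → 0 ≤ b → 1 ≤ B → 1 ≤ H →
      (∃ σ : ℝ, |σ| ≤ ee c / 100 ∧ ∀ D β W t₁ t₂ : ℝ, t₁ + 4 * c.C < t₂ → t₂ ≤ t₁ + 2 ^ j →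
        b * 2 ^ j + |D + σ| * (t₂ - t₁) ≤ W → 1 / 2 ≤ M.P (Cx c B D β W t₁ t₂)) →
      b ≤ κ * 2 ^ i / 2 ^ j → B ≤ κ * 2 ^ i → Fm M c (2 / ee c) (2 ^ j) ≤ CD * H →
      (∀ y : ℝ, 0 < y → M.P (Lk c (30 * c.C * 2 ^ j) y) ≤ CL * (H / y) ^ (20 / 9 : ℝ)) →
      ∀ x ∈ KD c (ee c), 2 ^ i < lv c x → lv c x ≤ 2 ^ (i + 1) → ∃ x₀ ∈ KD (swp c) (ee c), lv c x₀ ≤ 2 ^ i ∧
        Sg M c x ≤ Sg M c x₀ + C₂ * (2 ^ i / 2 ^ j + 1 / 2 ^ i) * (B + H) := by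
  have hC := c.one_le
  obtain ⟨e, he⟩ : ∃ e, e = ee c := ⟨_, rfl⟩
  have he0 : 0 < e := by rw [he]; exact ee_pos c
  have he1 : e ≤ 1 / 1000 := by rw [he]; exact ee_le c
  have hem : e * (1000 * c.C ^ 2) = 1 := by rw [he]; exact ee_mul c
  rw [← he]
  obtain ⟨K, hK⟩ : ∃ K : ℕ, K = ⌈200 / e⌉₊ := ⟨_, rfl⟩
  have hK1 : 200 / e ≤ K := by rw [hK]; exact Nat.le_ceil _
  have hK200 : 200 ≤ e * K := by
    rw [div_le_iff₀ he0] at hK1
    linarith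
  have hK4 : 4 ≤ K := by
    have h1 : (4 : ℝ) ≤ 200 / e := by
      rw [le_div_iff₀ he0]
      linarith
    exact_mod_cast h1.trans hK1
  obtain ⟨C₁, w₀, hC₁, hw₀, hmain⟩ := main_inc hg hf (Λ := 4 / e) (by rw [le_div_iff₀ he0]; linarith) (K := K) (by omega)
  obtain ⟨κ, hκ⟩ : ∃ κ, κ = e / (1000 * c.C) := ⟨_, rfl⟩
  have hκ0 : 0 < κ := by rw [hκ]; positivity
  have hκC : κ * c.C = e / 1000 := by
    rw [hκ]
    field_simp
  have hκ1 : κ ≤ e / 1000 := by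
    have := mul_le_mul_of_nonneg_left hC hκ0.le
    linarith
  obtain ⟨T₀, hT₀⟩ : ∃ T₀, T₀ = 4000 * c.C / e ^ 2 + 12 * K * c.C + 4 * w₀ / e + 16 / κ + 8 / e := ⟨_, rfl⟩
  obtain ⟨i₀, hi₀⟩ := pow_unbounded_of_one_lt T₀ (by norm_num : (1 : ℝ) < 2)
  refine ⟨C₁ * (CD + 33 * CL) * (2 * (2 + 1 / κ)), κ, i₀, by positivity, hκ0, ?_⟩
  intro R M i j b B H hM hi hij hR hb0 hB1 hH1 htub hb hB hFm hluck x hx hx1 hx2
  obtain ⟨σ, hσ, hcx⟩ := htub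
  have hT : T₀ ≤ 2 ^ i := hi₀.le.trans (pow_le_pow_right₀ (by norm_num) hi)
  have hp0 : (0 : ℝ) < 2 ^ i := by positivity
  have g1 : 0 ≤ 4000 * c.C / e ^ 2 := by positivity
  have g2 : 0 ≤ 12 * (K : ℝ) * c.C := by positivity
  have g3 : 0 ≤ 4 * w₀ / e := by positivity
  have g4 : 0 ≤ 16 / κ := by positivity
  have g5 : 0 ≤ 8 / e := by positivity
  have t1 : 4000 * c.C ≤ e ^ 2 * 2 ^ i := by
    have h1 : 4000 * c.C / e ^ 2 ≤ 2 ^ i := by linarith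
    rw [div_le_iff₀ (by positivity)] at h1
    linarith
  have t2 : 12 * (K : ℝ) * c.C ≤ 2 ^ i := by linarith
  have t3 : 4 * w₀ ≤ e * 2 ^ i := by
    have h1 : 4 * w₀ / e ≤ 2 ^ i := by linarith
    rw [div_le_iff₀ he0] at h1
    linarith
  have t4 : 16 ≤ κ * 2 ^ i := by
    have h1 : 16 / κ ≤ 2 ^ i := by linarith
    rw [div_le_iff₀ hκ0] at h1
    linarith
  have t5 : 8 ≤ e * 2 ^ i := by
    have h1 : 8 / e ≤ 2 ^ i := by linarith
    rw [div_le_iff₀ he0] at h1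
    linarith
  obtain ⟨n, n1, n2, n3, n4, n5⟩ := P5Fin_num hij t4
  obtain ⟨hx3, hx4, hx5⟩ := hx
  obtain ⟨l, hl⟩ : ∃ l, l = lv c x := ⟨_, rfl⟩
  have hl1 : 2 ^ i < l := by rw [hl]; exact hx1
  have hl2 : l ≤ 2 ^ (i + 1) := by rw [hl]; exact hx2
  have hl0 : 0 < l := hp0.trans hl1
  have hle : e * 2 ^ i ≤ e * l := mul_le_mul_of_nonneg_left hl1.le he0.le
  have hle2 : e ^ 2 * 2 ^ i ≤ e ^ 2 * l := mul_le_mul_of_nonneg_left hl1.le (by positivity)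
  have hee : e ^ 2 * l ≤ e * l := by
    have h1 : e ^ 2 ≤ e := by
      rw [pow_two]
      exact mul_le_of_le_one_left he0.le (by linarith)
    exact mul_le_mul_of_nonneg_right h1 (by linarith)
  have hκl : κ * 2 ^ i ≤ e / 1000 * l := by
    have h1 := mul_le_mul_of_nonneg_right hκ1 hp0.le
    have h2 : e / 1000 * 2 ^ i ≤ e / 1000 * l := mul_le_mul_of_nonneg_left hl1.le (by positivity)
    linarith
  have hCκl : c.C * (κ * 2 ^ i) ≤ e / 1000 * l := by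
    have h1 : c.C * (κ * 2 ^ i) = e / 1000 * 2 ^ i := by rw [← hκC]; ring
    rw [h1]
    exact mul_le_mul_of_nonneg_left hl1.le (by positivity)
  have hbj : b * 2 ^ j ≤ κ * 2 ^ i := by rwa [le_div_iff₀ (by positivity)] at hb
  obtain ⟨W, hW⟩ : ∃ W, W = b * 2 ^ j + 2 * c.C * ((n : ℝ) + 3) := ⟨_, rfl⟩
  have hW0 : 0 ≤ W := by rw [hW]; positivity
  have hn3C : 2 * c.C * ((n : ℝ) + 3) ≤ 2 * (e / 1000 * l) := by
    have h1 : c.C * ((n : ℝ) + 3) ≤ c.C * (κ * 2 ^ i) := mul_le_mul_of_nonneg_left n4 (by linarith)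
    linarith
  obtain ⟨f, hfc, hfx, hfW, hfB, hOk, hw1, hw2, hp, hq⟩ := Fra.exists_split c (σ := σ) (W := W) (B := B) he0 hem.le
    hσ (x := x) (by rw [← hl]; linarith) hx4 hx5 hW0 (by rw [← hl, hW]; linarith) (by linarith)
    (by rw [← hl]; linarith)
  rw [← hl] at hw1 hw2
  obtain ⟨w, hw⟩ : ∃ w, w = f.w := ⟨_, rfl⟩
  obtain ⟨u, hu⟩ : ∃ u, u = f.u := ⟨_, rfl⟩
  have hwx : lv c f.x₀ = w := by rw [hw, ← hfc]; rfl
  have hux : lv c f.U = u := by rw [hu, ← hfc]; rfl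
  have hluw : l = u + w := by rw [hl, ← hfx, lv_add, hwx, hux]
  rw [← hw] at hw1 hw2 hp
  have hw0 : 0 < w := by
    have : 0 < e / 4 * l := by positivity
    linarith
  have hu0 : 0 < u := by rw [hu]; exact hOk.u_pos
  have h200 : 200 * w ≤ u := by rw [hw, hu]; exact hOk.w_le_u
  -- the crossings
  have hDσ : |f.D + σ| * u ≤ 2 * c.C := by
    have h1 : (f.D + σ) * u = -(c.q f.U - σ * lv c f.U) := by
      rw [add_mul]
      have h2 : f.D * u = -c.q f.U := by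
        rw [hu, hOk.D_mul, hfc]
      rw [h2, hux]
      ring
    have h3 : |f.D + σ| * u = |(f.D + σ) * u| := by rw [abs_mul, abs_of_pos hu0]
    rw [h3, h1, abs_neg]
    exact hq
  have htl : f.tl (n + 3) - f.tl 0 = ((n : ℝ) + 3) * u := by
    unfold Fra.tl
    rw [← hu]
    ring
  have hn0 : (0 : ℝ) ≤ n := Nat.cast_nonneg n
  have hcr : ∀ β : ℝ, 1 / 2 ≤ M.P (Cx c f.B f.D β f.W (f.tl 0) (f.tl (n + 3))) := by
    intro β
    rw [hfB, hfW]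
    refine hcx f.D β W (f.tl 0) (f.tl (n + 3)) ?_ ?_ ?_
    · have h1 : u ≤ ((n : ℝ) + 3) * u := le_mul_of_one_le_left hu0.le (by linarith)
      have h2 : 1000 * c.C ≤ w := by
        rw [hw, ← hfc]
        exact hOk.hw
      linarith
    · have h1 : ((n : ℝ) + 3) * u ≤ ((n : ℝ) + 3) * 2 ^ (i + 1) := mul_le_mul_of_nonneg_left (by linarith) (by linarith)
      linarith
    · rw [htl, hW]
      have h1 : |f.D + σ| * (((n : ℝ) + 3) * u) = ((n : ℝ) + 3) * (|f.D + σ| * u) := by ring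
      rw [h1]
      have h2 := mul_le_mul_of_nonneg_left hDσ (by linarith : 0 ≤ (n : ℝ) + 3)
      linarith
  -- the bound of the means
  obtain ⟨X, hX⟩ : ∃ X, X = (CD + 33 * CL) * H := ⟨_, rfl⟩
  have hD0 : 0 < 2 / e := by positivity
  have hmean : ∀ z ∈ Md c (2 / e), 0 ≤ lv c z → lv c z ≤ 2 ^ j → M.E (fun τ => xc Q.b c τ 0 z) ≤ X := by
    intro z hz h0 h1
    have h2 := Sc_le_Fm M c hD0 hz h0 h1
    have h3 : M.E (fun τ => xc Q.b c τ 0 z) = Sc M c z := by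
      unfold xc Sc
      rw [sub_zero]
    rw [h3, hX]
    have h4 : 0 ≤ 33 * CL * H := by positivity
    linarith
  have hij1 : (2 : ℝ) ^ (i + 1) ≤ 2 ^ j := pow_le_pow_right₀ (by norm_num) (by omega)
  have hwj : w ≤ 2 ^ i := by
    have h1 : 2 * e * l ≤ 2 * e * 2 ^ (i + 1) := mul_le_mul_of_nonneg_left hl2 (by positivity)
    have h2 : 2 * e * (2 : ℝ) ^ (i + 1) = 4 * e * 2 ^ i := by rw [pow_succ]; ring
    have h3 : 4 * e * 2 ^ i ≤ 1 * 2 ^ i := mul_le_mul_of_nonneg_right (by linarith) hp0.le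
    linarith
  have hwj2 : w ≤ 2 ^ j := hwj.trans (pow_le_pow_right₀ (by norm_num) (by omega))
  have hwe : 32 * c.C ≤ e * w := by
    have h1 := mul_le_mul_of_nonneg_left hw1 he0.le
    have h2 : e * (e / 4 * l) = e ^ 2 * l / 4 := by ring
    linarith
  have hx0K : f.x₀ ∈ KD (swp c) e := by
    refine ⟨?_, ?_, ?_⟩
    · rw [lv_swp, hwx]
      exact hw0.le
    · rw [lv_swp, hwx]
      exact hp.1
    · rw [lv_swp, hwx]
      exact hp.2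
  have hx0M := KD_Md_or he0 (by linarith : e ≤ 1 / 3) (Or.inr hx0K)
  -- the chain
  have hxl : lv c x = l := hl.symm
  have hchain : ∀ m < K, sgm c K x (m + 1) - sgm c K x m ∈ Wc c ∧
      24 * lv c (sgm c K x (m + 1) - sgm c K x m) ≤ f.w ∧
        M.E (fun τ => xc Q.b c τ 0 (sgm c K x (m + 1) - sgm c K x m)) ≤ X := by
    intro m hm
    have a1 := pce_Wc (c := c) (x := x) hm hK4 (by positivity : 0 ≤ e / 2) (by linarith) he0.le (by linarith) ⟨hx4, hx5⟩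
      (by rw [hxl]; linarith)
    have a2 := pce_cone (c := c) (x := x) hm hK4 (by positivity : 0 ≤ e / 2) (by linarith) he0.le (by linarith) ⟨hx4, hx5⟩
    have a3 := abs_le.1 (pce_lv c x hm)
    rw [hxl] at a3
    have hK0 : (0 : ℝ) < K := by exact_mod_cast (by omega : 0 < K)
    have a4 : l / K ≤ w / 50 := by
      rw [div_le_iff₀ hK0]
      have h1 : l ≤ 4 / e * w := P5Fin_c he0 hw1
      have h2 : 4 / e * w ≤ w / 50 * K := by
        have h3 := mul_le_mul_of_nonneg_left hK1 (by positivity : 0 ≤ w / 50)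
        have h4 : w / 50 * (200 / e) = 4 / e * w := by ring
        linarith
      linarith
    have a5 : 4 * c.C ≤ w / 250 := by
      have h2 : 1000 * c.C ≤ w := by
        rw [hw, ← hfc]
        exact hOk.hw
      linarith
    have a6 : 0 ≤ lv c (pce c K x m) := Wc_lv a1
    have a7 : pce c K x m ∈ KD c e := ⟨a6, a2⟩
    refine ⟨a1, ?_, ?_⟩
    · rw [← hw]
      show 24 * lv c (pce c K x m) ≤ w
      linarith [a3.2]
    · refine hmean _ (KD_Md he0 (by linarith) a7) a6 ?_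
      show lv c (pce c K x m) ≤ 2 ^ j
      linarith [a3.2]
  -- the luck
  have hbox : 20 * c.C * ((n : ℝ) + 4) * (f.u + f.w) ≤ 30 * c.C * 2 ^ j := by
    rw [← hu, ← hw, ← hluw]
    have h1 : ((n : ℝ) + 4) * l ≤ ((n : ℝ) + 4) * 2 ^ (i + 1) := mul_le_mul_of_nonneg_left hl2 (by linarith)
    have h2 : ((n : ℝ) + 4) * l ≤ 3 / 2 * 2 ^ j := h1.trans n3
    have h3 := mul_le_mul_of_nonneg_left h2 (by positivity : 0 ≤ 20 * c.C)
    linarith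
  obtain ⟨q1, q2, q3⟩ := P5Fin_a hCD hCL hH1 hB1
  have hX1 : 1 ≤ X := by
    rw [hX]
    exact q1
  have hsq : M.E (fun τ => lks c (30 * c.C * 2 ^ j) τ ^ 2) ≤ X ^ 2 := by
    refine (E_lks_sq M c (by linarith) hCL hluck).trans ?_
    rw [hX]
    exact q2
  have hfin := hmain f n R X M (lks c (30 * c.C * 2 ^ j)) (sgm c K x) hfc hOk (by rw [← hw]; linarith)
    (by
      rw [← hu, ← hw]
      have := P5Fin_c he0 hw1
      linarith)
    (by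
      rw [← hw]
      linarith)
    hM (by
      rw [← hw]
      have := pow_le_pow_left₀ hw0.le hwj2 4
      linarith)
    (by linarith [hp.1])
    (by
      have h1 : lv c f.x₀ = c.p f.x₀ + c.q f.x₀ := rfl
      rw [hwx] at h1
      have h2 : e * w ≤ 1 / 1000 * w := mul_le_mul_of_nonneg_right he1 hw0.le
      linarith [hp.2])
    (hcr _) (hcr _) (sgm_zero c K x) (by rw [hfx]; exact sgm_last c (by omega) x) hchain
    (hmean _ hx0M (by rw [hwx]; exact hw0.le) (by rw [hwx]; exact hwj2)) hX1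
    (fun τ _ => ⟨lks_nonneg _ _ _, fun a b ha hb => le_lks c τ (ha.trans hbox) (hb.trans hbox)⟩) hsq
  rw [hfx, hfB] at hfin
  refine ⟨f.x₀, hx0K, by rw [hwx]; exact hwj, ?_⟩
  have hn1 : (1 : ℝ) ≤ n := by exact_mod_cast n1
  have hBX : B + X ≤ (CD + 33 * CL) * (B + H) := by
    rw [hX]
    exact q3
  have h1 : Sg M c x - Sg M c f.x₀ ≤ C₁ * (B + X) * (1 / n) := by
    rw [mul_one_div, le_div_iff₀ (by linarith)]
    linarith
  have h2 : C₁ * (B + X) * (1 / n) ≤ C₁ * ((CD + 33 * CL) * (B + H)) * (2 * ((2 * 2 ^ i) / 2 ^ j + 1 / (κ * 2 ^ i))) := by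
    refine mul_le_mul (mul_le_mul_of_nonneg_left hBX (by linarith)) n5 (by positivity) (by positivity)
  have h3 : (2 * 2 ^ i : ℝ) / 2 ^ j + 1 / (κ * 2 ^ i) ≤ (2 + 1 / κ) * (2 ^ i / 2 ^ j + 1 / 2 ^ i) := by
    have e1 : (0 : ℝ) ≤ 2 ^ i / 2 ^ j := by positivity
    have e2 : (0 : ℝ) ≤ 1 / 2 ^ i := by positivity
    have e3 : 0 ≤ 1 / κ := by positivity
    have e4 : (2 * 2 ^ i : ℝ) / 2 ^ j = 2 * (2 ^ i / 2 ^ j) := by ring
    have e5 : 1 / (κ * 2 ^ i) = 1 / κ * (1 / 2 ^ i) := by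
      rw [one_div_mul_one_div]
    rw [e4, e5]
    exact P5Fin_b hκ0 e1 e2
  have h4 : C₁ * ((CD + 33 * CL) * (B + H)) * (2 * ((2 * 2 ^ i) / 2 ^ j + 1 / (κ * 2 ^ i))) ≤
      C₁ * ((CD + 33 * CL) * (B + H)) * (2 * ((2 + 1 / κ) * (2 ^ i / 2 ^ j + 1 / 2 ^ i))) :=
    mul_le_mul_of_nonneg_left (mul_le_mul_of_nonneg_left h3 (by norm_num)) (by positivity)
  have h5 : C₁ * ((CD + 33 * CL) * (B + H)) * (2 * ((2 + 1 / κ) * (2 ^ i / 2 ^ j + 1 / 2 ^ i))) =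
      C₁ * (CD + 33 * CL) * (2 * (2 + 1 / κ)) * (2 ^ i / 2 ^ j + 1 / 2 ^ i) * (B + H) := by ring
  linarith

end Pool.Agent.W_1b8d5d_sc
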