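import Pool.Agent.W_1b8d5d_sc.P5Defs

/-!
MP_1b8d5d_pr (SC, part P5): geometry of the cells and of the strips.  Everything is linear arithmetic in `c.p`, `c.q`
(`map_add`, `map_sub`, `map_nsmul`), `w`, `u`, `D u = - q U`.
-/

set_option autoImplicit false

namespace Pool.Agent.W_1b8d5d_sc

open Finset Pool.Agent.W_1b8d5d_h85 Pool.Agent.W_1b8d5d_fe

namespace Fra

variable {f : Fra}

theorem Ok.w_pos (h : f.Ok) : 0 < f.w := by
  have h1 := h.hw
  have h2 := f.c.one_le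
  linarith

theorem Ok.C_le_w (h : f.Ok) : f.c.C ≤ f.w / 1000 := by
  have h1 := h.hw
  linarith

theorem Ok.w_le_u (h : f.Ok) : 200 * f.w ≤ f.u := by
  have h1 := h.hu
  have h2 := f.c.one_le
  have h3 : 1 * f.w ≤ f.c.C ^ 2 * f.w := mul_le_mul_of_nonneg_right (by nlinarith) h.w_pos.le
  linarith

theorem Ok.u_pos (h : f.Ok) : 0 < f.u := by
  have h1 := h.w_le_u
  have h2 := h.w_pos
  linarith

theorem Ok.D_mul (h : f.Ok) : f.D * f.u = -f.c.q f.U := by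
  have h1 := h.u_pos
  have h2 : f.D = -f.c.q f.U / f.u := rfl
  rw [h2, div_mul_cancel₀ _ h1.ne']

theorem Ok.D_le (h : f.Ok) : |f.D| ≤ 1 / 3200 := by
  have h1 := h.u_pos
  have h2 := h.D_mul
  have h3 : |f.D| * f.u = |f.c.q f.U| := by
    rw [← abs_neg (f.c.q f.U), ← h2, abs_mul, abs_of_pos h1]
  have h4 := h.hq
  have h5 := h.w_le_u
  by_contra h6
  push Not at h6
  have h7 := mul_lt_mul_of_pos_right h6 h1
  linarith

theorem Ok.D_one (h : f.Ok) : |f.D| ≤ 1 := by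
  have h1 := h.D_le
  linarith

theorem Ok.ps_U (h : f.Ok) : ps f.c f.D f.U = 0 := by
  have h1 := h.D_mul
  show f.c.q f.U + f.D * f.u = 0
  linarith

private theorem P5Geo_lv_nsmul (c : Crd) (n : ℕ) (z : V) : lv c (n • z) = n * lv c z := by
  unfold lv
  rw [map_nsmul, map_nsmul, nsmul_eq_mul, nsmul_eq_mul]
  ring

private theorem P5Geo_ps_add (c : Crd) (D : ℝ) (x y : V) : ps c D (x + y) = ps c D x + ps c D y := by
  unfold ps
  rw [map_add, lv_add]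
  ring

private theorem P5Geo_ps_sub (c : Crd) (D : ℝ) (x y : V) : ps c D (x - y) = ps c D x - ps c D y := by
  unfold ps
  rw [map_sub, lv_sub]
  ring

private theorem P5Geo_ps_nsmul (c : Crd) (D : ℝ) (n : ℕ) (z : V) : ps c D (n • z) = n * ps c D z := by
  unfold ps
  rw [map_nsmul, P5Geo_lv_nsmul, nsmul_eq_mul]
  ring

theorem lv_o (f : Fra) (i : ℕ) : lv f.c (f.o i) = i * f.u := P5Geo_lv_nsmul f.c i f.U

theorem lv_x (f : Fra) (i : ℕ) : lv f.c (f.x i) = i * f.u + f.w := by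
  show lv f.c (i • f.U + f.x₀) = i * lv f.c f.U + lv f.c f.x₀
  rw [lv_add, P5Geo_lv_nsmul]

theorem Ok.ps_o (h : f.Ok) (i : ℕ) : ps f.c f.D (f.o i) = 0 := by
  show ps f.c f.D (i • f.U) = 0
  rw [P5Geo_ps_nsmul, h.ps_U, mul_zero]

theorem Ok.ps_x (h : f.Ok) (i : ℕ) : |ps f.c f.D (f.x i) - f.w| ≤ f.w / 50 := by
  have h1 : ps f.c f.D (f.x i) = f.c.q f.x₀ + f.D * f.w := by
    show ps f.c f.D (i • f.U + f.x₀) = f.c.q f.x₀ + f.D * lv f.c f.x₀
    rw [P5Geo_ps_add, P5Geo_ps_nsmul, h.ps_U, mul_zero, zero_add]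
    rfl
  have h2 : f.w = f.c.p f.x₀ + f.c.q f.x₀ := rfl
  have h3 : ps f.c f.D (f.x i) - f.w = -f.c.p f.x₀ + f.D * f.w := by
    rw [h1]
    linarith
  have h4 : |f.D * f.w| ≤ 1 / 3200 * f.w := by
    rw [abs_mul, abs_of_pos h.w_pos]
    exact mul_le_mul_of_nonneg_right h.D_le h.w_pos.le
  have h5 := abs_le.1 h4
  have h6 := abs_le.1 h.hp
  have h7 := h.w_pos
  rw [h3, abs_le]
  constructor <;> linarith [h5.1, h5.2, h6.1, h6.2]

theorem o_succ (f : Fra) (i : ℕ) : f.o (i + 1) = f.o i + f.U := succ_nsmul f.U i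

theorem x_succ (f : Fra) (i : ℕ) : f.x (i + 1) = f.x i + f.U := by
  show (i + 1) • f.U + f.x₀ = i • f.U + f.x₀ + f.U
  rw [succ_nsmul]
  abel

theorem x_sub_o (f : Fra) (i : ℕ) : f.x i - f.o i = f.x₀ := by
  show i • f.U + f.x₀ - i • f.U = f.x₀
  abel

theorem Ok.U_mem (h : f.Ok) : f.U ∈ Wc f.c := by
  have h1 := abs_le.1 h.hq
  have h2 := h.w_le_u
  have h3 := h.w_pos
  have h4 : f.u = f.c.p f.U + f.c.q f.U := rfl
  show 0 ≤ 2 * f.c.p f.U + f.c.q f.U ∧ 0 ≤ f.c.p f.U + 2 * f.c.q f.U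
  constructor <;> linarith [h1.1, h1.2]

theorem Ok.x₀_mem (h : f.Ok) : f.x₀ ∈ Wc f.c := by
  have h1 := abs_le.1 h.hp
  have h3 := h.w_pos
  have h4 : f.w = f.c.p f.x₀ + f.c.q f.x₀ := rfl
  show 0 ≤ 2 * f.c.p f.x₀ + f.c.q f.x₀ ∧ 0 ≤ f.c.p f.x₀ + 2 * f.c.q f.x₀
  constructor <;> linarith [h1.1, h1.2]

/-- The cell `i` is in the double cone of the direct connection. -/
theorem Ok.Dc_l (h : f.Ok) (i : ℕ) : Dc f.c (f.o i) (f.x i) ⊆ Dc f.c (f.o i) (f.x (i + 1)) := by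
  intro z hz
  refine ⟨hz.1, ?_⟩
  have h1 : f.x (i + 1) - z = f.x i - z + f.U := by
    rw [x_succ]
    abel
  rw [h1]
  exact Wc_add hz.2 h.U_mem

theorem Ok.Dc_r (h : f.Ok) (i : ℕ) : Dc f.c (f.o (i + 1)) (f.x (i + 1)) ⊆ Dc f.c (f.o i) (f.x (i + 1)) := by
  intro z hz
  refine ⟨?_, hz.2⟩
  have h1 : z - f.o i = z - f.o (i + 1) + f.U := by
    rw [o_succ]
    abel
  rw [h1]
  exact Wc_add hz.1 h.U_mem

theorem near_o (h : f.Ok) (i : ℕ) : f.Near i (f.o i) := by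
  have h1 := abs_le.1 h.hp
  have h3 := h.w_pos
  have h4 : f.w = f.c.p f.x₀ + f.c.q f.x₀ := rfl
  unfold Near
  rw [x_sub_o, sub_self, map_zero, map_zero]
  refine ⟨⟨?_, ?_⟩, ?_, ?_⟩ <;> linarith [h1.1, h1.2]

theorem near_x (h : f.Ok) (i : ℕ) : f.Near i (f.x i) := by
  have h1 := abs_le.1 h.hp
  have h3 := h.w_pos
  have h4 : f.w = f.c.p f.x₀ + f.c.q f.x₀ := rfl
  unfold Near
  rw [x_sub_o, sub_self, map_zero, map_zero]
  refine ⟨⟨?_, ?_⟩, ?_, ?_⟩ <;> linarith [h1.1, h1.2]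

theorem near_lv (h : f.Ok) {i : ℕ} {z : V} (hz : f.Near i z) :
    i * f.u - f.w / 32 ≤ lv f.c z ∧ lv f.c z ≤ i * f.u + f.w + f.w / 32 := by
  have _ := h
  obtain ⟨⟨h1, h2⟩, h3, h4⟩ := hz
  have h5 : lv f.c (z - f.o i) = f.c.p (z - f.o i) + f.c.q (z - f.o i) := rfl
  have h6 : lv f.c (f.x i - z) = f.c.p (f.x i - z) + f.c.q (f.x i - z) := rfl
  rw [lv_sub, lv_o] at h5
  rw [lv_sub, lv_x] at h6
  constructor <;> linarith

/-- The product with the slope. -/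
private theorem P5Geo_D (h : f.Ok) {t s : ℝ} (ht : |t| ≤ s) : |f.D * t| ≤ 1 / 3200 * s := by
  rw [abs_mul]
  exact mul_le_mul h.D_le ht (abs_nonneg _) (by norm_num)

private theorem P5Geo_near (h : f.Ok) {i : ℕ} {z : V} (hz : f.Near i z) :
    (|f.D * lv f.c (z - f.o i)| ≤ f.w / 3000 ∧ |f.D * lv f.c (f.x i - z)| ≤ f.w / 3000) ∧
      f.c.q (z - f.o i) = ps f.c f.D z - f.D * lv f.c (z - f.o i) ∧
        f.c.q (f.x i - z) = ps f.c f.D (f.x i) - ps f.c f.D z - f.D * lv f.c (f.x i - z) := by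
  have h1 := near_lv h hz
  have h2 : lv f.c (z - f.o i) = lv f.c z - i * f.u := by rw [lv_sub, lv_o]
  have h3 : lv f.c (f.x i - z) = i * f.u + f.w - lv f.c z := by rw [lv_sub, lv_x]
  have hw := h.w_pos
  have h4 : |lv f.c (z - f.o i)| ≤ f.w + f.w / 32 := by
    rw [h2, abs_le]
    constructor <;> linarith [h1.1, h1.2]
  have h5 : |lv f.c (f.x i - z)| ≤ f.w + f.w / 32 := by
    rw [h3, abs_le]
    constructor <;> linarith [h1.1, h1.2]
  have h6 : ps f.c f.D (z - f.o i) = f.c.q (z - f.o i) + f.D * lv f.c (z - f.o i) := rfl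
  have h7 : ps f.c f.D (f.x i - z) = f.c.q (f.x i - z) + f.D * lv f.c (f.x i - z) := rfl
  rw [P5Geo_ps_sub, h.ps_o] at h6
  rw [P5Geo_ps_sub] at h7
  refine ⟨⟨?_, ?_⟩, ?_, ?_⟩
  · have := P5Geo_D h h4
    linarith
  · have := P5Geo_D h h5
    linarith
  · linarith
  · linarith

theorem near_ps (h : f.Ok) {i : ℕ} {z : V} (hz : f.Near i z) :
    -(f.w / 32) ≤ ps f.c f.D z ∧ ps f.c f.D z ≤ f.w + f.w / 16 := by
  obtain ⟨⟨h1, h2⟩, h3, h4⟩ := P5Geo_near h hz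
  have h5 := abs_le.1 h1
  have h6 := abs_le.1 h2
  have h7 := abs_le.1 (h.ps_x i)
  obtain ⟨⟨-, g2⟩, -, g4⟩ := hz
  have hw := h.w_pos
  constructor <;> linarith [h5.1, h5.2, h6.1, h6.2, h7.1, h7.2]

/-- A point of the cell in the strip `β` is in the interior of the cell. -/
theorem near_strip (h : f.Ok) {i : ℕ} {z : V} (hz : f.Near i z) {β : ℝ} (hβ : |ps f.c f.D z - β| ≤ f.W) :
    i * f.u + β - f.w / 24 ≤ lv f.c z ∧ lv f.c z ≤ i * f.u + β + f.w / 15 := by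
  obtain ⟨⟨h1, h2⟩, h3, h4⟩ := P5Geo_near h hz
  have h5 := abs_le.1 h1
  have h6 := abs_le.1 h2
  have h7 := abs_le.1 (h.ps_x i)
  have h8 := abs_le.1 hβ
  have h9 := h.hW
  obtain ⟨⟨g1, g2⟩, g3, g4⟩ := hz
  have hw := h.w_pos
  have k5 : lv f.c (z - f.o i) = f.c.p (z - f.o i) + f.c.q (z - f.o i) := rfl
  have k6 : lv f.c (f.x i - z) = f.c.p (f.x i - z) + f.c.q (f.x i - z) := rfl
  have k2 : lv f.c (z - f.o i) = lv f.c z - i * f.u := by rw [lv_sub, lv_o]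
  have k3 : lv f.c (f.x i - z) = i * f.u + f.w - lv f.c z := by rw [lv_sub, lv_x]
  constructor <;> linarith [h5.1, h5.2, h6.1, h6.2, h7.1, h7.2, h8.1, h8.2]

/-- The part of the strip between two cells is in the double cone of the direct connection. -/
theorem cont (h : f.Ok) {i : ℕ} {β : ℝ} (h1 : f.w / 4 ≤ β) (h2 : β ≤ f.w / 2) {l e z : V} (hl : f.Near i l)
    (hl' : |ps f.c f.D l - β| ≤ f.W) (he : f.Near (i + 1) e) (he' : |ps f.c f.D e - β| ≤ f.W)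
    (hz : |ps f.c f.D z - β| ≤ f.W) (h3 : lv f.c l - f.B ≤ lv f.c z) (h4 : lv f.c z ≤ lv f.c e + f.B) :
    z ∈ Dc f.c (f.o i) (f.x (i + 1)) := by
  have hw := h.w_pos
  have hW := h.hW
  have hB := h.hB
  have a1 := near_strip h hl hl'
  have a2 := near_strip h he he'
  have a3 := abs_le.1 hz
  have a4 := abs_le.1 (h.ps_x (i + 1))
  have aD := abs_le.1 h.D_le
  have e1 : lv f.c (z - f.o i) = lv f.c z - i * f.u := by rw [lv_sub, lv_o]
  have e2 : lv f.c (f.x (i + 1) - z) = ((i + 1 : ℕ) : ℝ) * f.u + f.w - lv f.c z := by rw [lv_sub, lv_x]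
  have b1 : f.w * (19 / 100) ≤ lv f.c (z - f.o i) := by
    rw [e1]
    linarith [a1.1]
  have b2 : f.w * (41 / 100) ≤ lv f.c (f.x (i + 1) - z) := by
    rw [e2]
    linarith [a2.2]
  have b1' : β - f.w * (58 / 1000) ≤ lv f.c (z - f.o i) := by
    rw [e1]
    linarith [a1.1]
  have b2' : f.w - β - f.w * (83 / 1000) ≤ lv f.c (f.x (i + 1) - z) := by
    rw [e2]
    linarith [a2.2]
  have c1 : |f.D * lv f.c (z - f.o i)| ≤ 1 / 3200 * lv f.c (z - f.o i) :=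
    P5Geo_D h (abs_of_pos (by linarith)).le
  have c2 : |f.D * lv f.c (f.x (i + 1) - z)| ≤ 1 / 3200 * lv f.c (f.x (i + 1) - z) :=
    P5Geo_D h (abs_of_pos (by linarith)).le
  have d1 := abs_le.1 c1
  have d2 := abs_le.1 c2
  have h6 : ps f.c f.D (z - f.o i) = f.c.q (z - f.o i) + f.D * lv f.c (z - f.o i) := rfl
  have h7 : ps f.c f.D (f.x (i + 1) - z) = f.c.q (f.x (i + 1) - z) + f.D * lv f.c (f.x (i + 1) - z) := rfl
  rw [P5Geo_ps_sub, h.ps_o] at h6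
  rw [P5Geo_ps_sub] at h7
  have k5 : lv f.c (z - f.o i) = f.c.p (z - f.o i) + f.c.q (z - f.o i) := rfl
  have k6 : lv f.c (f.x (i + 1) - z) = f.c.p (f.x (i + 1) - z) + f.c.q (f.x (i + 1) - z) := rfl
  refine ⟨⟨?_, ?_⟩, ?_, ?_⟩ <;>
    linarith [d1.1, d1.2, d2.1, d2.2, a3.1, a3.2, a4.1, a4.2]

/-- A bound from the level and the transversal coordinate. -/
private theorem P5Geo_nm (h : f.Ok) {n : ℕ} {z : V} (h1 : |lv f.c z| ≤ (n + 3) * f.u + 2 * f.w)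
    (h2 : |ps f.c f.D z| ≤ 2 * f.w) : nm z ≤ 20 * f.c.C * (n + 4) * (f.u + f.w) := by
  have hw := h.w_pos
  have hu := h.u_pos
  have hn : (0 : ℝ) ≤ n := n.cast_nonneg
  have hC := f.c.one_le
  have h3 := P5Geo_D h h1
  have h4 : f.c.q z = ps f.c f.D z - f.D * lv f.c z := by
    unfold ps
    ring
  have h5 : |f.c.q z| ≤ 2 * f.w + 1 / 3200 * ((n + 3) * f.u + 2 * f.w) := by
    rw [h4]
    exact (abs_sub _ _).trans (add_le_add h2 h3)
  have h6 := nm_le_lq f.c z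
  have h7 : |lv f.c z| + |f.c.q z| ≤ 10 * ((n + 4) * (f.u + f.w)) := by
    have h8 : 0 ≤ (n : ℝ) * f.u := mul_nonneg hn hu.le
    have h9 : 0 ≤ (n : ℝ) * f.w := mul_nonneg hn hw.le
    linarith
  have h8 := mul_le_mul_of_nonneg_left h7 (by linarith : 0 ≤ 2 * f.c.C)
  calc nm z ≤ 2 * f.c.C * (|lv f.c z| + |f.c.q z|) := h6
    _ ≤ 2 * f.c.C * (10 * ((n + 4) * (f.u + f.w))) := h8
    _ = 20 * f.c.C * (n + 4) * (f.u + f.w) := by ring

/-- The vertices of the strips are in a small box. -/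
theorem Rg_nm (h : f.Ok) {n : ℕ} {β s t : ℝ} (h1 : f.w / 4 ≤ β) (h2 : β ≤ f.w / 2) (hs : -2 ≤ s) (ht : t ≤ n + 3) {z : V}
    (hz : z ∈ Rg f.c f.D β f.W (f.tl s) (f.tl t)) : nm z ≤ 20 * f.c.C * (n + 4) * (f.u + f.w) := by
  obtain ⟨⟨h3, h4⟩, h5⟩ := hz
  have hw := h.w_pos
  have hu := h.u_pos
  have hW := h.hW
  have hn : (0 : ℝ) ≤ n := n.cast_nonneg
  have h6 := abs_le.1 h5
  have h7 : (-2 - 1 / 3) * f.u ≤ (s - 1 / 3) * f.u := mul_le_mul_of_nonneg_right (by linarith) hu.le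
  have h8 : (t - 1 / 3) * f.u ≤ (n + 3) * f.u := mul_le_mul_of_nonneg_right (by linarith) hu.le
  have h9 : 0 ≤ (n : ℝ) * f.u := mul_nonneg hn hu.le
  unfold tl at h3 h4
  refine P5Geo_nm h ?_ ?_
  · rw [abs_le]
    constructor <;> linarith
  · rw [abs_le]
    constructor <;> linarith [h6.1, h6.2]

/-- The vertices of the cells are in a small box. -/
theorem Dc_nm5 (h : f.Ok) {n i : ℕ} (hi : i ≤ n + 1) {z : V} (hz : z ∈ Dc f.c (f.o i) (f.x (i + 1))) :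
    nm z ≤ 20 * f.c.C * (n + 4) * (f.u + f.w) := by
  have hw := h.w_pos
  have hu := h.u_pos
  have hn : (0 : ℝ) ≤ n := n.cast_nonneg
  have hC := f.c.one_le
  have hi' : (i : ℝ) ≤ n + 1 := by exact_mod_cast hi
  have h1 : lv f.c (z - f.o i) ≤ f.u + f.w := by
    have h2 := Wc_lv hz.2
    rw [lv_sub, lv_x] at h2
    push_cast at h2
    rw [lv_sub, lv_o]
    linarith
  have h3 : nm (z - f.o i) ≤ 4 * f.c.C * (f.u + f.w) :=
    (Wc_nm hz.1).trans (mul_le_mul_of_nonneg_left h1 (by linarith))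
  have h4 : f.o i ∈ Wc f.c := by
    have h5 := h.U_mem
    have h6 : ∀ j : ℕ, f.o j ∈ Wc f.c := by
      intro j
      induction j with
      | zero =>
        show 0 • f.U ∈ Wc f.c
        rw [zero_nsmul]
        exact Wc_zero _
      | succ j ih =>
        rw [o_succ]
        exact Wc_add ih h5
    exact h6 i
  have h5 : nm (f.o i) ≤ 4 * f.c.C * ((n + 1) * f.u) := by
    refine (Wc_nm h4).trans (mul_le_mul_of_nonneg_left ?_ (by linarith))
    rw [lv_o]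
    exact mul_le_mul_of_nonneg_right hi' hu.le
  have h6 : nm z ≤ nm (z - f.o i) + nm (f.o i) := by
    have h7 := nm_add_le (z - f.o i) (f.o i)
    rwa [sub_add_cancel] at h7
  have h7 : f.u + f.w + (n + 1) * f.u ≤ 5 * ((n + 4) * (f.u + f.w)) := by
    have h8 : 0 ≤ (n : ℝ) * f.u := mul_nonneg hn hu.le
    have h9 : 0 ≤ (n : ℝ) * f.w := mul_nonneg hn hw.le
    linarith
  have h8 := mul_le_mul_of_nonneg_left h7 (by linarith : 0 ≤ 4 * f.c.C)
  linarith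

/-- The vertices near the cells are in a small box. -/
theorem near_nm (h : f.Ok) {n i : ℕ} (hi : i ≤ n + 1) {z : V} (hz : f.Near i z) :
    nm z ≤ 20 * f.c.C * (n + 4) * (f.u + f.w) := by
  have hw := h.w_pos
  have hu := h.u_pos
  have hn : (0 : ℝ) ≤ n := n.cast_nonneg
  have hi0 : (0 : ℝ) ≤ i := i.cast_nonneg
  have hi' : (i : ℝ) ≤ n + 1 := by exact_mod_cast hi
  have h1 := near_lv h hz
  have h2 := near_ps h hz
  have h3 := mul_le_mul_of_nonneg_right hi' hu.le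
  have h4 := mul_nonneg hi0 hu.le
  have h5 : 0 ≤ (n : ℝ) * f.u := mul_nonneg hn hu.le
  refine P5Geo_nm h ?_ ?_
  · rw [abs_le]
    constructor <;> linarith [h1.1, h1.2]
  · rw [abs_le]
    constructor <;> linarith [h2.1, h2.2]

end Fra

end Pool.Agent.W_1b8d5d_sc
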