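import Pool.Agent.W_1b8d5d_sc.P5Step

/-!
MP_1b8d5d_pr (SC, part P5): the ledger of the restarts (deterministic).
-/

set_option autoImplicit false

namespace Pool.Agent.W_1b8d5d_sc

open Finset Pool.Agent.W_1b8d5d_h85 Pool.Agent.W_1b8d5d_fe

namespace Fra

variable {f : Fra} {a b : ℝ} {τ : Env}

theorem ct_nonneg (h : f.Ok) (b : ℝ) (τ : Env) {L : ℝ} (hL : 0 ≤ L) (j : ℕ) : 0 ≤ f.ct b τ L j := by
  have h1 := ex_nonneg f b τ j
  have h2 := mul_nonneg (ic_nonneg (¬ f.X2 j τ)) (add_nonneg (dr_nonneg f b τ (j - 2)) (dr_nonneg f b τ (j - 1)))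
  have h3 := h.hB0
  unfold ct
  linarith

/-- The bound of the potential at the start of the segment current at `k`. -/
theorem led (h : f.Ok) (ha : 0 < a) (hab : a ≤ b) (hτ : Bd a b τ) {n : ℕ} (hc : f.Conf b n τ) {L : ℝ} (hL0 : 0 ≤ L)
    (hL : f.Luck n τ L) (k : ℕ) (hk : k ≤ n) : ∀ z, f.G b τ (cs f.X1 0 k τ) z → f.A b τ (cs f.X1 0 k τ) z ≤
      f.ex b τ 0 + L + ∑ j ∈ range (k + 1), ic (cs f.X1 0 j τ = j) * f.ct b τ L j := by
  induction k with
  | zero =>
    intro z hz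
    have h1 := A_start h ha.le hab hτ hL (hc 0 (Nat.zero_le _) z hz) hz
    have h2 : 0 ≤ ∑ j ∈ range (0 + 1), ic (cs f.X1 0 j τ = j) * f.ct b τ L j :=
      sum_nonneg fun j _ => mul_nonneg (ic_nonneg _) (ct_nonneg h b τ hL0 j)
    rw [cs_zero]
    linarith
  | succ k ih =>
    intro z hz
    have h3 := ih (by omega)
    rw [sum_range_succ]
    have h5 := mul_nonneg (ic_nonneg (cs f.X1 0 (k + 1) τ = k + 1)) (ct_nonneg h b τ hL0 (k + 1))
    by_cases h4 : f.X1 (cs f.X1 0 k τ) (0 + (k + 1)) τ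
    · have e1 := cs_succ_of (C := f.X1) (g := 0) h4
      rw [e1] at hz ⊢
      have h6 := h3 z hz
      rw [e1] at h5
      linarith
    · have e1 := cs_succ_not (C := f.X1) (g := 0) h4
      rw [Nat.zero_add] at e1
      rw [e1] at hz ⊢
      rw [ic_of rfl, one_mul]
      have hle := cs_le (C := f.X1) (g := 0) k τ
      rw [Nat.zero_add] at hle
      have h6 := step h ha hab hτ hc hL0 hL hle hk (fun hlt => by
        have := cs_cross (C := f.X1) (g := 0) (k := k) (τ := τ) (by rwa [Nat.zero_add])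
        rwa [Nat.zero_add] at this) h3 hz
      linarith

/-- The ledger. -/
theorem ledger (h : f.Ok) (ha : 0 < a) (hab : a ≤ b) (hτ : Bd a b τ) {n : ℕ} (hc : f.Conf b (n + 1) τ) {L : ℝ} (hL0 : 0 ≤ L)
    (hL : f.Luck (n + 1) τ L) : ∑ k ∈ range n, f.ff b τ k ≤
      f.ex b τ 0 + f.ex b τ (n + 1) + f.B + 2 * L + ∑ j ∈ range (n + 2), ic (cs f.X1 0 j τ = j) * f.ct b τ L j := by
  have hle := cs_le (C := f.X1) (g := 0) (n + 1) τ
  rw [Nat.zero_add] at hle
  have h1 := step_end h ha hab hτ hc hL0 hL hle (fun hlt => by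
    have := cs_cross (C := f.X1) (g := 0) (k := n + 1) (τ := τ) (by rwa [Nat.zero_add])
    rwa [Nat.zero_add] at this) (led h ha hab hτ hc hL0 hL (n + 1) le_rfl)
  linarith

end Fra

end Pool.Agent.W_1b8d5d_sc
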