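import Pool.Agent.W_1b8d5d_sc.P5Led
import Pool.Agent.W_1b8d5d_sc.P5Dir
import Pool.Agent.W_1b8d5d_sc.P5Conf

/-!
MP_1b8d5d_pr (SC, part P5): the sum of the increments.
-/

set_option autoImplicit false

namespace Pool.Agent.W_1b8d5d_sc

open Finset Pool.Agent.W_1b8d5d_h85 Pool.Agent.W_1b8d5d_fe

namespace Fra

variable {f : Fra} {Q : Par} {g : V → ℝ} {R : ℝ} {M : Mdl Q.a Q.b}

/-- The mean of an increment. -/
theorem E_ff (hM : Good Q g R M) (f : Fra) (k : ℕ) :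
    M.E (fun τ => f.ff Q.b τ k) = Sg M f.c (f.U + f.x₀) - Sg M f.c f.x₀ := by
  have e1 := E_Tc hM f.c (fun t => t) (f.o k) (f.x (k + 1))
  have e2 := E_Tc hM f.c (fun t => t) (f.o (k + 1)) (f.x (k + 1))
  have e3 : f.x (k + 1) - f.o k = f.U + f.x₀ := by
    have h1 := x_sub_o f k
    rw [x_succ, ← h1]
    abel
  rw [e3] at e1
  rw [x_sub_o] at e2
  unfold ff Sg
  rw [M.E_sub, M.E_sub, M.E_const, e1, e2, M.E_sub, M.E_sub, M.E_const, M.E_const, lv_add]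
  unfold u
  ring

/-- The increments are bounded. -/
theorem ff_le (h : f.Ok) {a b : ℝ} (ha : 0 ≤ a) (hab : a ≤ b) {τ : Env} (hτ : Bd a b τ) (k : ℕ) :
    f.ff b τ k ≤ b * (4 * f.c.C * (f.u + f.w)) := by
  have e3 : f.x (k + 1) - f.o k = f.U + f.x₀ := by
    have h1 := x_sub_o f k
    rw [x_succ, ← h1]
    abel
  have h1 := Tc_upper ha hab hτ f.c (f.o k) (f.x (k + 1))
  have h2 := Tc_nonneg ha hab hτ f.c (f.o (k + 1)) (f.x (k + 1))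
  have h3 := h.u_pos
  have h4 : nm (f.U + f.x₀) ≤ 4 * f.c.C * (f.u + f.w) := by
    have h5 := Wc_nm (Wc_add h.U_mem h.x₀_mem)
    rw [lv_add] at h5
    exact h5
  rw [e3] at h1
  have h5 := mul_le_mul_of_nonneg_left h4 (ha.trans hab)
  unfold ff
  linarith

/-- The ledger as a function of the environment. -/
noncomputable def led5 (f : Fra) (b : ℝ) (n : ℕ) (L : Env → ℝ) (τ : Env) : ℝ :=
  f.ex b τ 0 + f.ex b τ (n + 1) + f.B + 2 * L τ + (2 * f.B * nr f.X1 (n + 1) τ + 6 * (nr f.X1 (n + 1) τ * L τ) +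
    ∑ j ∈ range (n + 2), ic (cs f.X1 0 j τ = j) * f.ex b τ j +
    ∑ j ∈ range (n + 2), ic (cs f.X1 0 j τ = j) * (ic (¬ f.X2 j τ) * (f.dr b τ (j - 2) + f.dr b τ (j - 1))))

theorem led5_eq (f : Fra) (b : ℝ) (n : ℕ) (L : Env → ℝ) (τ : Env) :
    f.ex b τ 0 + f.ex b τ (n + 1) + f.B + 2 * L τ + ∑ j ∈ range (n + 2), ic (cs f.X1 0 j τ = j) * f.ct b τ (L τ) j =
      f.led5 b n L τ := by
  unfold led5 nr ct
  rw [mul_sum, sum_mul, mul_sum, ← sum_add_distrib, ← sum_add_distrib, ← sum_add_distrib]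
  congr 1
  refine sum_congr rfl fun j _ => ?_
  ring

theorem led5_nonneg (h : f.Ok) (b : ℝ) (n : ℕ) {L : Env → ℝ} {τ : Env} (hL : 0 ≤ L τ) : 0 ≤ f.led5 b n L τ := by
  rw [← led5_eq]
  have h1 := ex_nonneg f b τ 0
  have h2 := ex_nonneg f b τ (n + 1)
  have h3 := h.hB0
  have h4 : 0 ≤ ∑ j ∈ range (n + 2), ic (cs f.X1 0 j τ = j) * f.ct b τ (L τ) j :=
    sum_nonneg fun j _ => mul_nonneg (ic_nonneg _) (ct_nonneg h b τ hL j)
  linarith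

/-- The mean of the ledger. -/
theorem E_led5 (h : f.Ok) (hM : Good Q g R M) {n : ℕ} (hR : 20 * f.c.C * (n + 4) * (f.u + f.w) ≤ R)
    (hX1 : 1 / 2 ≤ M.P (Cx f.c f.B f.D (f.w / 2) f.W (f.tl 0) (f.tl (n + 3))))
    (hX2 : 1 / 2 ≤ M.P (Cx f.c f.B f.D (f.w / 4) f.W (f.tl 0) (f.tl (n + 3)))) {K : ℕ} (hK : 1 ≤ K) {pt : ℕ → V}
    (h0 : pt 0 = 0) (h1 : pt K = f.U + f.x₀) {X : ℝ} (hX : 1 ≤ X) (hpt : ∀ m < K, pt (m + 1) - pt m ∈ Wc f.c ∧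
      24 * lv f.c (pt (m + 1) - pt m) ≤ f.w ∧ M.E (fun τ => xc Q.b f.c τ 0 (pt (m + 1) - pt m)) ≤ X)
    (hx : M.E (fun τ => xc Q.b f.c τ 0 f.x₀) ≤ X) {L : Env → ℝ} (hL : M.E (fun τ => L τ ^ 2) ≤ X ^ 2) :
    M.E (f.led5 Q.b n L) ≤ 5 * f.B + (24 + 16 * K) * X := by
  have hr := ren h hM hR hX1
  have hX0 : 0 < X := by linarith
  have s1 := ex_sum h hM hR hr hX0.le hx
  have s2 := dir_sum h hM hR hr (X2_le h hM hR hX2) hK h0 h1 hX0.le hpt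
  have s3 := hr.nr_mul_le hX0 hL
  have s4 := hr.nr_le
  have s5 : M.E L ≤ X := by
    have h2 : M.E L ≤ M.E (fun τ => 1 / (2 * X) * L τ ^ 2 + X / 2) := by
      refine M.E_mono fun τ _ => ?_
      have h3 : 0 ≤ 1 / (2 * X) * (L τ - X) ^ 2 := by positivity
      have h4 : 1 / (2 * X) * (L τ - X) ^ 2 = 1 / (2 * X) * L τ ^ 2 + X / 2 - L τ := by
        field_simp
        ring
      linarith
    rw [M.E_add, M.E_mul_left, M.E_const] at h2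
    have h3 := mul_le_mul_of_nonneg_left hL (by positivity : 0 ≤ 1 / (2 * X))
    have h4 : 1 / (2 * X) * X ^ 2 = X / 2 := by
      field_simp
    linarith
  have e0 : ∀ i : ℕ, M.E (fun τ => f.ex Q.b τ i) ≤ X := by
    intro i
    have h2 := E_xc hM f.c (f.o i) (f.x i)
    rw [x_sub_o] at h2
    exact h2.trans_le hx
  have hB := h.hB0
  have key : M.E (f.led5 Q.b n L) = M.E (fun τ => f.ex Q.b τ 0) + M.E (fun τ => f.ex Q.b τ (n + 1)) + f.B + 2 * M.E L +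
      (2 * f.B * M.E (nr f.X1 (n + 1)) + 6 * M.E (fun τ => nr f.X1 (n + 1) τ * L τ) +
      M.E (fun τ => ∑ j ∈ range (n + 2), ic (cs f.X1 0 j τ = j) * f.ex Q.b τ j) +
      M.E (fun τ => ∑ j ∈ range (n + 2), ic (cs f.X1 0 j τ = j) *
        (ic (¬ f.X2 j τ) * (f.dr Q.b τ (j - 2) + f.dr Q.b τ (j - 1))))) := by
    have e1 : M.E (f.led5 Q.b n L) = M.E (fun τ => f.ex Q.b τ 0 + f.ex Q.b τ (n + 1) + f.B + 2 * L τ +
      (2 * f.B * nr f.X1 (n + 1) τ + 6 * (nr f.X1 (n + 1) τ * L τ) +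
      ∑ j ∈ range (n + 2), ic (cs f.X1 0 j τ = j) * f.ex Q.b τ j +
      ∑ j ∈ range (n + 2), ic (cs f.X1 0 j τ = j) * (ic (¬ f.X2 j τ) * (f.dr Q.b τ (j - 2) + f.dr Q.b τ (j - 1))))) := rfl
    rw [e1, M.E_add, M.E_add, M.E_add, M.E_add, M.E_add, M.E_add, M.E_add, M.E_const, M.E_mul_left, M.E_mul_left,
      M.E_mul_left]
  rw [key]
  have t1 := e0 0
  have t2 := e0 (n + 1)
  have t3 := mul_le_mul_of_nonneg_left s4 (by linarith : 0 ≤ 2 * f.B)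
  linarith

end Fra

/-- The increment inequality for one frame. -/
theorem main_inc {Q : Par} {g : V → ℝ} (hg : IsMean Q g) {c : Crd} (hf : FlatS g c) {Λ : ℝ} (hΛ : 1 ≤ Λ) {K : ℕ}
    (hK : 1 ≤ K) : ∃ C₁ w₀ : ℝ, 1 ≤ C₁ ∧ 1 ≤ w₀ ∧ ∀ (f : Fra) (n : ℕ) (R X : ℝ) (M : Mdl Q.a Q.b) (L : Env → ℝ)
      (pt : ℕ → V), f.c = c → f.Ok → w₀ ≤ f.w → f.u ≤ Λ * f.w → (n : ℝ) + 4 ≤ f.w → Good Q g R M → 2 * f.w ^ 4 ≤ R →
      0 ≤ c.p f.x₀ → 0 ≤ c.q f.x₀ →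
      1 / 2 ≤ M.P (Cx c f.B f.D (f.w / 2) f.W (f.tl 0) (f.tl (n + 3))) →
      1 / 2 ≤ M.P (Cx c f.B f.D (f.w / 4) f.W (f.tl 0) (f.tl (n + 3))) → pt 0 = 0 → pt K = f.U + f.x₀ →
      (∀ m < K, pt (m + 1) - pt m ∈ Wc c ∧ 24 * lv c (pt (m + 1) - pt m) ≤ f.w ∧
        M.E (fun τ => xc Q.b c τ 0 (pt (m + 1) - pt m)) ≤ X) →
      M.E (fun τ => xc Q.b c τ 0 f.x₀) ≤ X → 1 ≤ X →
      (∀ τ, Bd Q.a Q.b τ → 0 ≤ L τ ∧ ∀ u v, nm u ≤ 20 * c.C * (n + 4) * (f.u + f.w) → nm v ≤ 20 * c.C * (n + 4) * (f.u + f.w) →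
        lv c (v - u) ≤ T τ u v + L τ) → M.E (fun τ => L τ ^ 2) ≤ X ^ 2 →
      n * (Sg M c (f.U + f.x₀) - Sg M c f.x₀) ≤ C₁ * (f.B + X) := by
  have ha := Q.ha
  have hab := Q.hab
  have hb : 0 < Q.b := ha.trans hab
  have hC := c.one_le
  obtain ⟨A, w₁, hA, hw₁, hconf⟩ := conf_ov hg hf
  obtain ⟨s₀, hs₀, hP⟩ := P_Ov_pow Q g 4 3
  obtain ⟨Z, hZ⟩ : ∃ Z : ℝ, Z = 20 * c.C * (Λ + 1) := ⟨_, rfl⟩
  have hZ1 : 1 ≤ Z := by
    rw [hZ]
    nlinarith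
  refine ⟨24 + 16 * K + 5 + 4 * Q.b * c.C * (Λ + 1), max (max w₁ s₀) (Z + A), ?_,
    hw₁.trans ((le_max_left _ _).trans (le_max_left _ _)), ?_⟩
  · have h1 : (0 : ℝ) ≤ K := Nat.cast_nonneg K
    have h2 : 0 ≤ 4 * Q.b * c.C * (Λ + 1) := by positivity
    linarith
  intro f n R X M L pt hfc hO hww hu hn hM hR hp hq hX1 hX2 h0 h1 hpt hx hX hL hL2
  subst hfc
  have w1 : w₁ ≤ f.w := ((le_max_left _ _).trans (le_max_left _ _)).trans hww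
  have w2 : s₀ ≤ f.w := ((le_max_right _ _).trans (le_max_left _ _)).trans hww
  have w3 : Z + A ≤ f.w := (le_max_right _ _).trans hww
  have hw0 := hO.w_pos
  have hw1 : 1 ≤ f.w := hw₁.trans w1
  have hn0 : (0 : ℝ) ≤ n := Nat.cast_nonneg n
  have hu0 := hO.u_pos
  have hw2 : f.w ≤ f.w ^ 2 := by nlinarith
  have hw4 : f.w ^ 3 ≤ f.w ^ 4 := pow_le_pow_right₀ hw1 (by norm_num)
  have hbox : 20 * f.c.C * (n + 4) * (f.u + f.w) ≤ Z * f.w ^ 2 := by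
    have e1 : f.u + f.w ≤ (Λ + 1) * f.w := by linarith
    have e2 : 20 * f.c.C * (n + 4) * (f.u + f.w) ≤ 20 * f.c.C * f.w * ((Λ + 1) * f.w) := by
      refine mul_le_mul ?_ e1 (by linarith) (by positivity)
      exact mul_le_mul_of_nonneg_left hn (by linarith)
    refine e2.trans (le_of_eq ?_)
    rw [hZ]
    ring
  have hbox2 : Z * f.w ^ 2 + A * f.w ≤ f.w ^ 4 := by
    have e1 : A * f.w ≤ A * f.w ^ 2 := mul_le_mul_of_nonneg_left hw2 (by linarith)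
    have e2 : (Z + A) * f.w ^ 2 ≤ f.w * f.w ^ 2 := mul_le_mul_of_nonneg_right w3 (by positivity)
    have e3 : f.w * f.w ^ 2 = f.w ^ 3 := by ring
    have e4 : (Z + A) * f.w ^ 2 = Z * f.w ^ 2 + A * f.w ^ 2 := by ring
    linarith
  have hAw : 0 ≤ A * f.w := by
    have : 0 < A := by linarith
    positivity
  have hw40 : 0 ≤ f.w ^ 4 := by positivity
  have hR1 : 20 * f.c.C * (n + 4) * (f.u + f.w) ≤ R := by linarith
  have hR2 : f.w ≤ R := by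
    have : f.w ^ 1 ≤ f.w ^ 4 := pow_le_pow_right₀ hw1 (by norm_num)
    linarith
  have hprob := hP f.w R M w2 hR hR2 hM
  obtain ⟨CR, hCR⟩ : ∃ CR : ℝ, CR = n * (Q.b * (4 * f.c.C * (f.u + f.w))) := ⟨_, rfl⟩
  have hCR0 : 0 ≤ CR := by
    rw [hCR]
    have : 0 ≤ f.u + f.w := by linarith
    positivity
  -- the pointwise bound
  have hpt1 : ∀ τ, Bd Q.a Q.b τ → ∑ k ∈ range n, f.ff Q.b τ k ≤ f.led5 Q.b n L τ + CR * ic (¬ Ov g (f.w ^ 4) f.w τ) := by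
    intro τ hτ
    obtain ⟨hL0, hL1⟩ := hL τ hτ
    by_cases hOv : Ov g (f.w ^ 4) f.w τ
    · have hcf : f.Conf Q.b (n + 1) τ := by
        intro i hi z hz
        have e1 := Fra.near_nm hO hi (Fra.near_o hO i)
        exact hconf τ (f.w ^ 4) f.w (f.o i) (f.x i) hτ (by rw [Fra.x_sub_o]; exact hp) (by rw [Fra.x_sub_o]; exact hq)
          (by rw [Fra.x_sub_o]; rfl) w1 (by linarith) hOv z hz
      have hlk : f.Luck (n + 1) τ (L τ) := fun i hi j hj u v hu' hv' =>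
        hL1 u v (Fra.near_nm hO hi hu') (Fra.near_nm hO hj hv')
      have h2 := Fra.ledger hO ha hab.le hτ hcf hL0 hlk
      rw [Fra.led5_eq] at h2
      have h3 := mul_nonneg hCR0 (ic_nonneg (¬ Ov g (f.w ^ 4) f.w τ))
      linarith
    · rw [ic_of hOv, mul_one]
      have h2 := Fra.led5_nonneg hO Q.b n hL0
      have h3 : ∑ k ∈ range n, f.ff Q.b τ k ≤ CR := by
        rw [hCR]
        have h4 := sum_le_card_nsmul (range n) (fun k => f.ff Q.b τ k) _ fun k _ => Fra.ff_le hO ha.le hab.le hτ k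
        rwa [card_range, nsmul_eq_mul] at h4
      linarith
  have hmean := M.E_mono hpt1
  rw [M.E_add, M.E_mul_left, M.E_sum] at hmean
  simp only [Fra.E_ff hM f] at hmean
  rw [sum_const, card_range, nsmul_eq_mul] at hmean
  have hled := Fra.E_led5 hO hM hR1 hX1 hX2 hK h0 h1 hX hpt hx hL2
  have hbad : CR * M.E (fun τ => ic (¬ Ov g (f.w ^ 4) f.w τ)) ≤ 4 * Q.b * f.c.C * (Λ + 1) := by
    rw [← P_ic]
    have e1 := mul_le_mul_of_nonneg_left hprob hCR0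
    refine e1.trans ?_
    rw [mul_one_div, div_le_iff₀ (by positivity), hCR]
    have e2 : f.u + f.w ≤ (Λ + 1) * f.w := by linarith
    have e3 : n * (Q.b * (4 * f.c.C * (f.u + f.w))) ≤ f.w * (Q.b * (4 * f.c.C * ((Λ + 1) * f.w))) := by
      refine mul_le_mul (by linarith) ?_ (by positivity) hw0.le
      exact mul_le_mul_of_nonneg_left (mul_le_mul_of_nonneg_left e2 (by linarith)) hb.le
    refine e3.trans ?_
    have e4 : f.w * (Q.b * (4 * f.c.C * ((Λ + 1) * f.w))) = 4 * Q.b * f.c.C * (Λ + 1) * f.w ^ 2 := by ring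
    rw [e4]
    refine mul_le_mul_of_nonneg_left (pow_le_pow_right₀ hw1 (by norm_num)) (by positivity)
  have hB := hO.hB0
  have hK0 : (0 : ℝ) ≤ K := Nat.cast_nonneg K
  have q1 : 0 ≤ 4 * Q.b * f.c.C * (Λ + 1) := by positivity
  have q2 : 4 * Q.b * f.c.C * (Λ + 1) * 1 ≤ 4 * Q.b * f.c.C * (Λ + 1) * X := mul_le_mul_of_nonneg_left hX q1
  have q3 : 0 ≤ (24 + 16 * K + 4 * Q.b * f.c.C * (Λ + 1)) * f.B := by positivity
  have e5 : (24 + 16 * K + 5 + 4 * Q.b * f.c.C * (Λ + 1)) * (f.B + X) = 5 * f.B + (24 + 16 * K) * X + 5 * X +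
    4 * Q.b * f.c.C * (Λ + 1) * X + (24 + 16 * K + 4 * Q.b * f.c.C * (Λ + 1)) * f.B := by ring
  rw [e5]
  linarith

end Pool.Agent.W_1b8d5d_sc
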