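import Pool.Agent.W_1b8d5d_sc.P5Geo

/-!
MP_1b8d5d_pr (SC, part P5): the potential and its moves.
-/

set_option autoImplicit false

namespace Pool.Agent.W_1b8d5d_sc

open Finset Pool.Agent.W_1b8d5d_h85 Pool.Agent.W_1b8d5d_fe

namespace Fra

variable {f : Fra} {a b : ℝ} {τ : Env}

theorem ex_nonneg (f : Fra) (b : ℝ) (τ : Env) (i : ℕ) : 0 ≤ f.ex b τ i := le_max_right _ _

theorem dr_nonneg (f : Fra) (b : ℝ) (τ : Env) (i : ℕ) : 0 ≤ f.dr b τ i := le_max_right _ _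

private theorem lv_sub (c : Crd) (p q : V) : lv c (q - p) = lv c q - lv c p := by
  unfold lv
  rw [map_sub, map_sub]
  ring

theorem G_x (ha : 0 ≤ a) (hab : a ≤ b) (hτ : Bd a b τ) (f : Fra) (i : ℕ) : f.G b τ i (f.x i) := by
  have h1 : T (f.Te b τ i) (f.x i) (f.x i) = 0 := T_self (Bd_res hab hτ _) ha _
  unfold G
  rw [h1, add_zero]

theorem G_o (ha : 0 ≤ a) (hab : a ≤ b) (hτ : Bd a b τ) (f : Fra) (i : ℕ) : f.G b τ i (f.o i) := by
  have h1 : T (f.Te b τ i) (f.o i) (f.o i) = 0 := T_self (Bd_res hab hτ _) ha _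
  unfold G
  rw [h1, zero_add]

/-- A point before a point of a geodesic is on a geodesic. -/
theorem G_of (ha : 0 ≤ a) (hab : a ≤ b) (hτ : Bd a b τ) {i : ℕ} {l z : V} (hl : f.G b τ i l)
    (hz : T (f.Te b τ i) (f.o i) z + T (f.Te b τ i) z l = T (f.Te b τ i) (f.o i) l) : f.G b τ i z := by
  have hTe : Bd a b (f.Te b τ i) := Bd_res hab hτ _
  have h1 := T_triangle hTe ha z l (f.x i)
  have h2 := T_triangle hTe ha (f.o i) z (f.x i)
  unfold G at hl ⊢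
  linarith

/-- Connection of two consecutive cells: `Tc (o i) (x (i+1)) ≤ T (Te i) (o i) l + cost σ + T (Te (i+1)) e (x (i+1))` (all three
walks use edges of the double cone from `o i` to `x (i+1)`; `T_res_anti`, `Dc_l`, `Dc_r`, `T_le_cost`, `cost_congr`). -/
theorem A_conn (h : f.Ok) (ha : 0 ≤ a) (hab : a ≤ b) (hτ : Bd a b τ) {i : ℕ} {l e : V} (σ : grid.Walk l e)
    (hσ : ∀ z ∈ σ.support, z ∈ Dc f.c (f.o i) (f.x (i + 1))) (he : f.G b τ (i + 1) e) :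
    f.A b τ (i + 1) e ≤ f.A b τ i l + cost τ σ - lv f.c (e - l) := by
  have hE : Bd a b (res b (edg (Dc f.c (f.o i) (f.x (i + 1)))) τ) := Bd_res hab hτ _
  have h1 := T_triangle hE ha (f.o i) l (f.x (i + 1))
  have h2 := T_triangle hE ha l e (f.x (i + 1))
  have hl1 : edg (Dc f.c (f.o i) (f.x i)) ⊆ edg (Dc f.c (f.o i) (f.x (i + 1))) := fun e he =>
    ⟨h.Dc_l i he.1, h.Dc_l i he.2⟩
  have hr1 : edg (Dc f.c (f.o (i + 1)) (f.x (i + 1))) ⊆ edg (Dc f.c (f.o i) (f.x (i + 1))) := fun e he =>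
    ⟨h.Dc_r i he.1, h.Dc_r i he.2⟩
  have h3 : T (res b (edg (Dc f.c (f.o i) (f.x (i + 1)))) τ) (f.o i) l ≤ T (f.Te b τ i) (f.o i) l :=
    T_res_anti ha hab hτ hl1 _ _
  have h4 : T (res b (edg (Dc f.c (f.o i) (f.x (i + 1)))) τ) e (f.x (i + 1)) ≤ T (f.Te b τ (i + 1)) e (f.x (i + 1)) :=
    T_res_anti ha hab hτ hr1 _ _
  have h5 : T (res b (edg (Dc f.c (f.o i) (f.x (i + 1)))) τ) l e ≤ cost τ σ := by
    refine (T_le_cost hE ha σ).trans (le_of_eq (cost_congr σ fun e he => ?_))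
    unfold res
    rw [if_pos]
    exact ⟨hσ _ (wedges_support _ he).1, hσ _ (wedges_support _ he).2⟩
  have h6 : Tc b f.c τ (f.o (i + 1)) (f.x (i + 1)) =
      T (f.Te b τ (i + 1)) (f.o (i + 1)) e + T (f.Te b τ (i + 1)) e (f.x (i + 1)) := he.symm
  have h7 : Tc b f.c τ (f.o i) (f.x (i + 1)) = T (res b (edg (Dc f.c (f.o i) (f.x (i + 1)))) τ) (f.o i) (f.x (i + 1)) := rfl
  have h8 := lv_o f i
  have h9 := lv_o f (i + 1)
  push_cast at h9
  unfold A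
  rw [sum_range_succ]
  unfold ff
  rw [h6, h7, lv_sub, lv_sub, lv_sub, h8, h9]
  linarith

/-- Going back on a geodesic costs only luck. -/
theorem A_back (ha : 0 ≤ a) (hab : a ≤ b) (hτ : Bd a b τ) {n : ℕ} {L : ℝ} (hL : f.Luck n τ L) {i : ℕ} (hi : i ≤ n)
    {l z : V} (hl : f.Near i l) (hz : f.Near i z)
    (hlz : T (f.Te b τ i) (f.o i) z + T (f.Te b τ i) z l = T (f.Te b τ i) (f.o i) l) : f.A b τ i z ≤ f.A b τ i l + L := by
  have h1 := hL i hi i hi z l hz hl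
  have h2 : T τ z l ≤ T (f.Te b τ i) z l := T_le_res ha hτ _ _ _
  unfold A
  rw [lv_sub] at h1
  rw [lv_sub, lv_sub]
  linarith

/-- The potential is almost at least its value at the lower corner. -/
private theorem A_low (h : f.Ok) (ha : 0 ≤ a) (hτ : Bd a b τ) {n : ℕ} {L : ℝ} (hL : f.Luck n τ L) {i : ℕ}
    (hi : i ≤ n) {l : V} (hl : f.Near i l) : ∑ k ∈ range i, f.ff b τ k ≤ f.A b τ i l + L := by
  have h1 := hL i hi i hi (f.o i) l (near_o h i) hl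
  have h2 : T τ (f.o i) l ≤ T (f.Te b τ i) (f.o i) l := T_le_res ha hτ _ _ _
  unfold A
  linarith

/-- The excess up to a point of a geodesic. -/
private theorem exc_le (h : f.Ok) (ha : 0 ≤ a) (hτ : Bd a b τ) {n : ℕ} {L : ℝ} (hL : f.Luck n τ L) {i : ℕ}
    (hi : i ≤ n) {z : V} (hz : f.Near i z) (hG : f.G b τ i z) :
    T (f.Te b τ i) (f.o i) z - lv f.c (z - f.o i) ≤ f.ex b τ i + L := by
  have h1 := hL i hi i hi z (f.x i) hz (near_x h i)
  have h2 : T τ z (f.x i) ≤ T (f.Te b τ i) z (f.x i) := T_le_res ha hτ _ _ _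
  have h3 : Tc b f.c τ (f.o i) (f.x i) - lv f.c (f.x i - f.o i) ≤ f.ex b τ i := le_max_left _ _
  have h4 : Tc b f.c τ (f.o i) (f.x i) = T (f.Te b τ i) (f.o i) z + T (f.Te b τ i) z (f.x i) := hG.symm
  rw [lv_sub] at h1 h3
  rw [lv_sub]
  linarith

/-- Moving on the geodesics of a cell. -/
theorem A_any (h : f.Ok) (ha : 0 ≤ a) (hab : a ≤ b) (hτ : Bd a b τ) {n : ℕ} {L : ℝ} (hL : f.Luck n τ L) {i : ℕ}
    (hi : i ≤ n) {l z : V} (hl : f.Near i l) (hz : f.Near i z) (hG : f.G b τ i z) :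
    f.A b τ i z ≤ f.A b τ i l + f.ex b τ i + 2 * L := by
  have h1 := A_low h ha hτ hL hi hl
  have h2 := exc_le h ha hτ hL hi hz hG
  have h3 : f.A b τ i z = ∑ k ∈ range i, f.ff b τ k + (T (f.Te b τ i) (f.o i) z - lv f.c (z - f.o i)) := rfl
  rw [h3]
  linarith

/-- The direct connection. -/
theorem A_dir (h : f.Ok) (ha : 0 ≤ a) (hab : a ≤ b) (hτ : Bd a b τ) {n : ℕ} {L : ℝ} (hL : f.Luck n τ L) {i : ℕ}
    (hi : i + 1 ≤ n) {l z : V} (hl : f.Near i l) (hz : f.Near (i + 1) z) (hG : f.G b τ (i + 1) z) :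
    f.A b τ (i + 1) z ≤ f.A b τ i l + f.dr b τ i + 2 * L := by
  have h1 := A_low h ha hτ hL (i := i) (by omega) hl
  have h2 := hL (i + 1) hi (i + 1) hi z (f.x (i + 1)) hz (near_x h (i + 1))
  have h3 : T τ z (f.x (i + 1)) ≤ T (f.Te b τ (i + 1)) z (f.x (i + 1)) := T_le_res ha hτ _ _ _
  have h4 : Tc b f.c τ (f.o (i + 1)) (f.x (i + 1)) =
      T (f.Te b τ (i + 1)) (f.o (i + 1)) z + T (f.Te b τ (i + 1)) z (f.x (i + 1)) := hG.symm
  have h5 : Tc b f.c τ (f.o i) (f.x (i + 1)) - lv f.c (f.x (i + 1) - f.o i) ≤ f.dr b τ i := le_max_left _ _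
  have h6 := lv_o f i
  have h7 := lv_o f (i + 1)
  push_cast at h7
  have h8 : f.A b τ (i + 1) z = ∑ k ∈ range i, f.ff b τ k + (Tc b f.c τ (f.o i) (f.x (i + 1)) -
      Tc b f.c τ (f.o (i + 1)) (f.x (i + 1)) - f.u) +
      (T (f.Te b τ (i + 1)) (f.o (i + 1)) z - lv f.c (z - f.o (i + 1))) := by
    unfold A
    rw [sum_range_succ]
    rfl
  rw [lv_sub] at h2 h5
  rw [h8, h4, lv_sub, h7]
  rw [h6] at h5
  linarith

theorem A_o (ha : 0 ≤ a) (hab : a ≤ b) (hτ : Bd a b τ) (f : Fra) (i : ℕ) :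
    f.A b τ i (f.o i) = ∑ k ∈ range i, f.ff b τ k := by
  have h1 : T (f.Te b τ i) (f.o i) (f.o i) = 0 := T_self (Bd_res hab hτ _) ha _
  unfold A
  rw [h1, lv_sub]
  ring

theorem A_start (h : f.Ok) (ha : 0 ≤ a) (hab : a ≤ b) (hτ : Bd a b τ) {n : ℕ} {L : ℝ} (hL : f.Luck n τ L) {z : V}
    (hz : f.Near 0 z) (hG : f.G b τ 0 z) : f.A b τ 0 z ≤ f.ex b τ 0 + L := by
  have h1 := exc_le h ha hτ hL (Nat.zero_le n) hz hG
  unfold A
  rw [range_zero, sum_empty, zero_add]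
  exact h1

/-- The last increment is bounded from below: `Tc (o n) (x (n+1)) ≥ T τ (o n) (x (n+1)) ≥ lv - L`. -/
theorem A_last (h : f.Ok) (ha : 0 ≤ a) (hab : a ≤ b) (hτ : Bd a b τ) {n : ℕ} {L : ℝ} (hL : f.Luck (n + 1) τ L) :
    f.A b τ n (f.o n) ≤ f.A b τ (n + 1) (f.o (n + 1)) + L + f.ex b τ (n + 1) := by
  have h1 := hL n (by omega) (n + 1) le_rfl (f.o n) (f.x (n + 1)) (near_o h n) (near_x h (n + 1))
  have h2 : T τ (f.o n) (f.x (n + 1)) ≤ Tc b f.c τ (f.o n) (f.x (n + 1)) := T_le_res ha hτ _ _ _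
  have h3 : Tc b f.c τ (f.o (n + 1)) (f.x (n + 1)) - lv f.c (f.x (n + 1) - f.o (n + 1)) ≤ f.ex b τ (n + 1) := le_max_left _ _
  have h6 := lv_o f n
  have h7 := lv_o f (n + 1)
  push_cast at h7
  rw [A_o ha hab hτ, A_o ha hab hτ, sum_range_succ]
  unfold ff
  rw [lv_sub] at h1 h3
  rw [h6] at h1
  rw [h7] at h3
  linarith

end Fra

end Pool.Agent.W_1b8d5d_sc
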