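import Pool.Agent.W_1b8d5d_sc.Renew

/-!
MP_1b8d5d_pr (SC, part P5): short crossings of the second strip and the cost of the straight chains.
-/

set_option autoImplicit false

namespace Pool.Agent.W_1b8d5d_sc

open Finset Pool.Agent.W_1b8d5d_h85 Pool.Agent.W_1b8d5d_fe

/-- `q ^ m ≥ 1/2` forces `1 - q ≤ 1 / m`. -/
theorem pow_half {q : ℝ} {m : ℕ} (h0 : 0 ≤ q) (h1 : q ≤ 1) (h : 1 / 2 ≤ q ^ m) : (m : ℝ) * (1 - q) ≤ 1 := by
  have h2 := one_add_mul_le_pow (a := 1 - q) (by linarith) m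
  have h3 : q ^ m * (1 + (1 - q)) ^ m ≤ 1 := by
    rw [← mul_pow]
    refine pow_le_one₀ (mul_nonneg h0 (by linarith)) ?_
    nlinarith [sq_nonneg (1 - q)]
  have h4 : 0 ≤ (m : ℝ) * (1 - q) := mul_nonneg (Nat.cast_nonneg _) (by linarith)
  have h5 : 1 / 2 * (1 + (m : ℝ) * (1 - q)) ≤ q ^ m * (1 + (1 - q)) ^ m :=
    mul_le_mul h (by linarith) (by linarith) (by positivity)
  linarith

section short

variable {a b : ℝ} {M : Mdl a b} {C : ℕ → ℕ → Env → Prop} {sl : ℕ → ℕ → Set Edge} {l m : ℕ}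

/-- The probability that `j` consecutive blocks of `l` cells are crossed. -/
theorem P_blocks_le (hl : 1 ≤ l) (mono : ∀ a a' b b' : ℕ, a' ≤ a → b ≤ b' → sl a b ⊆ sl a' b')
    (dep : ∀ a b : ℕ, a < b → DependsOn (C a b) (sl a b))
    (ind : ∀ g ≤ l * m, ∀ F G : Env → ℝ, DependsOn F (sl 0 g) → DependsOn G (sl g (l * m)) →
      M.E (fun τ => F τ * G τ) = M.E F * M.E G)
    {q : ℝ} (hq : ∀ i < m, M.P (C (l * i) (l * i + l)) ≤ q) (j : ℕ) (hj : j ≤ m) :
    M.P (fun τ => ∀ i < j, C (l * i) (l * i + l) τ) ≤ q ^ j := by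
  induction j with
  | zero => exact (M.P_le_one _).trans_eq (pow_zero q).symm
  | succ j ih =>
    have hj' : j < m := hj
    have h1 := ih hj'.le
    have h2 : l * j + l ≤ l * m := by
      rw [← Nat.mul_succ]
      exact Nat.mul_le_mul_left l hj
    have h3 := ind (l * j) (by omega) (fun τ => ic (∀ i < j, C (l * i) (l * i + l) τ))
      (fun τ => ic (C (l * j) (l * j + l) τ)) (by
        intro x y hxy
        have : (∀ i < j, C (l * i) (l * i + l) x) = (∀ i < j, C (l * i) (l * i + l) y) := by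
          refine forall_congr fun i => forall_congr fun hi => ?_
          refine dep _ _ (by omega) fun e he => hxy e (mono _ _ _ _ (Nat.zero_le _) ?_ he)
          rw [← Nat.mul_succ]
          exact Nat.mul_le_mul_left l hi
        simp only [this]) (by
        intro x y hxy
        have : C (l * j) (l * j + l) x = C (l * j) (l * j + l) y :=
          dep _ _ (by omega) fun e he => hxy e (mono _ _ _ _ le_rfl h2 he)
        simp only [this])
    have h4 : M.P (fun τ => ∀ i < j + 1, C (l * i) (l * i + l) τ) =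
        M.E (fun τ => ic (∀ i < j, C (l * i) (l * i + l) τ) * ic (C (l * j) (l * j + l) τ)) := by
      rw [P_ic]
      refine M.E_congr fun τ _ => ?_
      rw [← ic_and]
      congr 1
      refine propext ⟨fun h => ⟨fun i hi => h i (by omega), h j (by omega)⟩, fun h i hi => ?_⟩
      rcases Nat.lt_or_ge i j with h5 | h5
      · exact h.1 i h5
      · have : i = j := by omega
        rw [this]
        exact h.2
    rw [h4, h3, ← P_ic, ← P_ic, pow_succ]
    have h5 := hq j hj'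
    exact mul_le_mul h1 h5 (M.P_nonneg _) ((M.P_nonneg _).trans h1)

/-- Blocks of `l` cells are crossed with a probability close to one, if `m` of them are crossed with probability at least
one half. -/
theorem short_le (hl : 1 ≤ l) (hm : 1 ≤ m) (mono : ∀ a a' b b' : ℕ, a' ≤ a → b ≤ b' → sl a b ⊆ sl a' b')
    (dep : ∀ a b : ℕ, a < b → DependsOn (C a b) (sl a b))
    (sub : ∀ (a b c d : ℕ) (τ : Env), a ≤ b → b < c → c ≤ d → C a d τ → C b c τ)
    (ind : ∀ g ≤ l * m, ∀ F G : Env → ℝ, DependsOn F (sl 0 g) → DependsOn G (sl g (l * m)) →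
      M.E (fun τ => F τ * G τ) = M.E F * M.E G)
    (inv : ∀ k : ℕ, M.P (C k (k + l)) = M.P (C 0 l)) (half : 1 / 2 ≤ M.P (C 0 (l * m))) (k : ℕ) :
    M.P (fun τ => ¬ C k (k + l) τ) ≤ 1 / m := by
  have h1 := P_blocks_le (M := M) (C := C) (sl := sl) (l := l) (m := m) hl mono dep ind (q := M.P (C 0 l))
    (fun i _ => (inv (l * i)).le) m le_rfl
  have h2 : M.P (C 0 (l * m)) ≤ M.P (fun τ => ∀ i < m, C (l * i) (l * i + l) τ) := by
    refine M.P_mono fun τ _ h i hi => sub 0 _ _ (l * m) τ (Nat.zero_le _) (by omega) ?_ h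
    rw [← Nat.mul_succ]
    exact Nat.mul_le_mul_left l hi
  have h3 := pow_half (M.P_nonneg _) (M.P_le_one _) (half.trans (h2.trans h1))
  rw [M.P_not, inv k]
  have hm' : (0 : ℝ) < m := by exact_mod_cast hm
  rw [le_div_iff₀ hm']
  linarith

end short

section chain

variable {a b : ℝ} {M : Mdl a b} {N K : ℕ} {R F : ℕ → Env → Prop} {A₁ A₂ : ℕ → Set Edge} {Z : ℕ → ℕ → Env → ℝ}
  {D : ℕ → ℕ → Set Edge} {c p : ℝ}

/-- The independence of two sets of edges. -/
def Indp (M : Mdl a b) (A B : Set Edge) : Prop :=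
  ∀ F G : Env → ℝ, DependsOn F A → DependsOn G B → M.E (fun τ => F τ * G τ) = M.E F * M.E G

/-- The cost of one piece. -/
theorem chain_one {R F : Env → Prop} {A₁ A₂ D : Set Edge} {Z : Env → ℝ} (hR : DependsOn R A₁) (hF : DependsOn F A₂)
    (hZ : DependsOn Z D) (h0 : ∀ τ, Bd a b τ → 0 ≤ Z τ) (hc : M.E Z ≤ c) (hI : Indp M A₁ D ∨ Indp M A₂ D) :
    M.E (fun τ => ic (R τ) * ic (¬ F τ) * Z τ) ≤ (M.P R + M.P fun τ => ¬ F τ) * c := by
  have hc0 : 0 ≤ c := (M.E_nonneg h0).trans hc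
  have e1 := M.P_nonneg R
  have e2 := M.P_nonneg (fun τ => ¬ F τ)
  rcases hI with h | h
  · have h1 := h (fun τ => ic (R τ)) Z (fun x y hxy => by
      have : R x = R y := hR hxy
      simp only [this]) hZ
    have h2 : M.E (fun τ => ic (R τ) * ic (¬ F τ) * Z τ) ≤ M.E (fun τ => ic (R τ) * Z τ) := by
      refine M.E_mono fun τ hτ => ?_
      refine mul_le_mul_of_nonneg_right ?_ (h0 τ hτ)
      have := mul_le_mul_of_nonneg_left (ic_le_one (¬ F τ)) (ic_nonneg (R τ))
      linarith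
    rw [h1, ← P_ic] at h2
    have h3 := mul_le_mul_of_nonneg_left hc e1
    have h4 := mul_nonneg e2 hc0
    linarith
  · have h1 := h (fun τ => ic (¬ F τ)) Z (fun x y hxy => by
      have : F x = F y := hF hxy
      simp only [this]) hZ
    have h2 : M.E (fun τ => ic (R τ) * ic (¬ F τ) * Z τ) ≤ M.E (fun τ => ic (¬ F τ) * Z τ) := by
      refine M.E_mono fun τ hτ => ?_
      refine mul_le_mul_of_nonneg_right ?_ (h0 τ hτ)
      have := mul_le_mul_of_nonneg_right (ic_le_one (R τ)) (ic_nonneg (¬ F τ))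
      linarith
    rw [h1, ← P_ic] at h2
    have h3 := mul_le_mul_of_nonneg_left hc e2
    have h4 := mul_nonneg e1 hc0
    linarith

/-- The cost of the straight chains: they are used at a restart of the first strip where the second strip has no short
crossing, and each of their pieces is independent of the first or of the second strip. -/
theorem chain_sum (hR : ∀ k ≤ N, DependsOn (R k) (A₁ k)) (hF : ∀ k ≤ N, DependsOn (F k) (A₂ k))
    (hZ : ∀ k ≤ N, ∀ i < K, DependsOn (Z k i) (D k i)) (h0 : ∀ k ≤ N, ∀ i < K, ∀ τ, Bd a b τ → 0 ≤ Z k i τ)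
    (hc0 : 0 ≤ c) (hc : ∀ k ≤ N, ∀ i < K, M.E (Z k i) ≤ c)
    (hI : ∀ k ≤ N, ∀ i < K, Indp M (A₁ k) (D k i) ∨ Indp M (A₂ k) (D k i))
    (hR2 : ∑ k ∈ range (N + 1), M.P (R k) ≤ 2) (hp : ∀ k ≤ N, M.P (fun τ => ¬ F k τ) ≤ p) :
    M.E (fun τ => ∑ k ∈ range (N + 1), ic (R k τ) * ic (¬ F k τ) * ∑ i ∈ range K, Z k i τ) ≤
      (2 + (N + 1) * p) * (K * c) := by
  rw [M.E_sum]
  have h1 : ∀ k ∈ range (N + 1), M.E (fun τ => ic (R k τ) * ic (¬ F k τ) * ∑ i ∈ range K, Z k i τ) ≤
      (M.P (R k) + p) * (K * c) := by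
    intro k hk
    have hk' : k ≤ N := by
      have := mem_range.1 hk
      omega
    have h2 : M.E (fun τ => ic (R k τ) * ic (¬ F k τ) * ∑ i ∈ range K, Z k i τ) =
        ∑ i ∈ range K, M.E (fun τ => ic (R k τ) * ic (¬ F k τ) * Z k i τ) := by
      rw [← M.E_sum]
      refine M.E_congr fun τ _ => ?_
      rw [mul_sum]
    rw [h2]
    have h3 : ∀ i ∈ range K, M.E (fun τ => ic (R k τ) * ic (¬ F k τ) * Z k i τ) ≤ (M.P (R k) + p) * c := by
      intro i hi
      have hi' := mem_range.1 hi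
      refine (chain_one (hR k hk') (hF k hk') (hZ k hk' i hi') (h0 k hk' i hi') (hc k hk' i hi') (hI k hk' i hi')).trans ?_
      exact mul_le_mul_of_nonneg_right (add_le_add le_rfl (hp k hk')) hc0
    refine (sum_le_sum h3).trans (le_of_eq ?_)
    rw [sum_const, card_range, nsmul_eq_mul]
    ring
  refine (sum_le_sum h1).trans ?_
  rw [← sum_mul, sum_add_distrib, sum_const, card_range, nsmul_eq_mul]
  refine mul_le_mul_of_nonneg_right ?_ (mul_nonneg (Nat.cast_nonneg _) hc0)
  push_cast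
  linarith

end chain

end Pool.Agent.W_1b8d5d_sc
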