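import Pool.Agent.W_1b8d5d_sc.P5Cx
import Pool.Agent.W_1b8d5d_sc.P5Geo
import Pool.Agent.W_1b8d5d_sc.Short

/-!
MP_1b8d5d_pr (SC, part P5): the renewal structure of the upper strip, the short crossings of the lower strip.
-/

set_option autoImplicit false

namespace Pool.Agent.W_1b8d5d_sc

open Finset Pool.Agent.W_1b8d5d_h85 Pool.Agent.W_1b8d5d_fe

theorem indp_of {Q : Par} {g : V → ℝ} {R : ℝ} {M : Mdl Q.a Q.b} (hM : Good Q g R M) {A B : Set Edge} (hd : Disjoint A B)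
    (hA : ∀ e ∈ A, nm e.1 ≤ R) (hB : ∀ e ∈ B, nm e.1 ≤ R) : Indp M A B := by
  intro F G hF hG
  exact hM.indep A B hd (fun e he => he.elim (hA e) (hB e)) F G hF hG

namespace Fra

variable {f : Fra} {Q : Par} {g : V → ℝ} {R : ℝ} {M : Mdl Q.a Q.b} {n : ℕ}

/-- Translation of the crossing events by multiples of `U` (`P_Cx_sh`, `ps_U`). -/
theorem P_shift (h : f.Ok) (hM : Good Q g R M) (B β W s t : ℝ) (k : ℤ) :
    M.P (Cx f.c B f.D β W (f.tl (s + k)) (f.tl (t + k))) = M.P (Cx f.c B f.D β W (f.tl s) (f.tl t)) := by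
  have h1 : ∀ r : ℝ, f.tl (r + k) = f.tl r + lv f.c (k • f.U) := by
    intro r
    have h2 : lv f.c (k • f.U) = k * f.u := by
      unfold lv Fra.u
      rw [map_zsmul, map_zsmul, zsmul_eq_mul, zsmul_eq_mul]
      unfold lv
      ring
    rw [h2]
    unfold Fra.tl
    ring
  have h3 : ps f.c f.D (k • f.U) = 0 := by
    have h4 : ps f.c f.D (k • f.U) = k * ps f.c f.D f.U := by
      unfold ps lv
      rw [map_zsmul, map_zsmul, zsmul_eq_mul, zsmul_eq_mul]
      ring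
    rw [h4, h.ps_U, mul_zero]
  have h5 := P_Cx_sh hM f.c B f.D β W (f.tl s) (f.tl t) (k • f.U)
  rw [h3, add_zero, ← h1, ← h1] at h5
  exact h5

/-- The edges of the upper strip left and right of a grid level are disjoint. -/
theorem disj_Rg (f : Fra) {β W s t s' t' : ℝ} (hu : 0 < f.u) (h1 : t ≤ s') :
    Disjoint (edg (Rg f.c f.D β W (f.tl s) (f.tl t))) (edg (Rg f.c f.D β W (f.tl s') (f.tl t'))) := by
  rw [Set.disjoint_left]
  intro e he he'
  have h2 := he.1.1.2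
  have h3 := he'.1.1.1
  have h4 : f.tl t ≤ f.tl s' := by
    unfold Fra.tl
    exact mul_le_mul_of_nonneg_right (by linarith) hu.le
  linarith

/-- The restarts of the crossings of the upper strip are a renewal process.  PROOF. `mono`: `Rg_mono`; `dep`: `dependsOn_Cx`;
`dec`: `Cx.sub` (grid levels at distance `u ≥ 200 w ≥ 4 C`); `ind`: `indp_of`, `disj_Rg`, `Rg_nm`; `half`: `Cx.sub` and
`P_shift`. -/
theorem ren (h : f.Ok) (hM : Good Q g R M) (hR : 20 * f.c.C * (n + 4) * (f.u + f.w) ≤ R)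
    (hX : 1 / 2 ≤ M.P (Cx f.c f.B f.D (f.w / 2) f.W (f.tl 0) (f.tl (n + 3)))) : Ren M f.X1 f.sl (n + 1) := by
  have hu := h.u_pos
  have hC := f.c.one_le
  have hu4 : 4 * f.c.C ≤ f.u := by
    have h1 := h.C_le_w
    have h2 := h.w_le_u
    have h3 := h.w_pos
    linarith
  have htl : ∀ s t : ℝ, s ≤ t → f.tl s ≤ f.tl t := by
    intro s t hst
    unfold Fra.tl
    exact mul_le_mul_of_nonneg_right (by linarith) hu.le
  have htl1 : ∀ s t : ℝ, s + 1 ≤ t → f.tl s + 4 * f.c.C ≤ f.tl t := by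
    intro s t hst
    have h1 := htl (s + 1) t hst
    have h2 : f.tl (s + 1) = f.tl s + f.u := by
      unfold Fra.tl
      ring
    linarith
  have hw := h.w_pos
  have hbox : ∀ s t : ℝ, -2 ≤ s → t ≤ n + 3 → ∀ e ∈ edg (Rg f.c f.D (f.w / 2) f.W (f.tl s) (f.tl t)), nm e.1 ≤ R := by
    intro s t hs ht e he
    exact (Rg_nm h (by linarith) le_rfl hs ht he.1).trans hR
  refine ⟨?_, ?_, ?_, ?_, ?_⟩
  · intro a a' b b' ha hb e he
    have ha' : (a' : ℝ) ≤ a := by exact_mod_cast ha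
    have hb' : (b : ℝ) ≤ b' := by exact_mod_cast hb
    exact ⟨Rg_mono (htl _ _ ha') (htl _ _ hb') he.1, Rg_mono (htl _ _ ha') (htl _ _ hb') he.2⟩
  · intro a b _
    exact dependsOn_Cx _ _ _ _ _ _ _
  · intro a b c τ hab hbc hx
    have h1 : (a : ℝ) + 1 ≤ b := by exact_mod_cast hab
    have h2 : (b : ℝ) ≤ c := by exact_mod_cast hbc
    exact Cx.sub hx le_rfl (htl _ _ h2) (htl1 _ _ h1)
  · intro k hk
    have h1 : (k : ℝ) ≤ n + 1 := by exact_mod_cast hk
    have h0 : (0 : ℝ) ≤ k := Nat.cast_nonneg k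
    refine indp_of hM (disj_Rg f hu le_rfl) ?_ ?_
    · exact hbox _ _ (by push_cast; linarith) (by linarith)
    · exact hbox _ _ (by linarith) (by push_cast; linarith)
  · intro k hk
    have h1 : (k : ℝ) + 1 ≤ n + 1 := by exact_mod_cast hk
    have h0 : (0 : ℝ) ≤ k := Nat.cast_nonneg k
    refine hX.trans (M.P_mono fun τ _ hτ => ?_)
    refine Cx.sub hτ (htl _ _ (by exact_mod_cast h0)) (htl _ _ (by push_cast; linarith)) (htl1 _ _ (by push_cast; linarith))

/-- The short crossings of the lower strip (`short_le` with `l = 3`, `m = (n + 3) / 3`, `P_shift`). -/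
theorem X2_le (h : f.Ok) (hM : Good Q g R M) (hR : 20 * f.c.C * (n + 4) * (f.u + f.w) ≤ R)
    (hX : 1 / 2 ≤ M.P (Cx f.c f.B f.D (f.w / 4) f.W (f.tl 0) (f.tl (n + 3)))) (j : ℕ) :
    M.P (fun τ => ¬ f.X2 j τ) ≤ 3 / (n + 1) := by
  have hu := h.u_pos
  have hC := f.c.one_le
  have hu4 : 4 * f.c.C ≤ f.u := by
    have h1 := h.C_le_w
    have h2 := h.w_le_u
    have h3 := h.w_pos
    linarith
  have htl : ∀ s t : ℝ, s ≤ t → f.tl s ≤ f.tl t := by
    intro s t hst
    unfold Fra.tl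
    exact mul_le_mul_of_nonneg_right (by linarith) hu.le
  have htl1 : ∀ s t : ℝ, s + 1 ≤ t → f.tl s + 4 * f.c.C ≤ f.tl t := by
    intro s t hst
    have h1 := htl (s + 1) t hst
    have h2 : f.tl (s + 1) = f.tl s + f.u := by
      unfold Fra.tl
      ring
    linarith
  have hw := h.w_pos
  have hbox : ∀ s t : ℝ, -2 ≤ s → t ≤ n + 3 → ∀ e ∈ edg (Rg f.c f.D (f.w / 4) f.W (f.tl s) (f.tl t)), nm e.1 ≤ R := by
    intro s t hs ht e he
    exact (Rg_nm h le_rfl (by linarith) hs ht he.1).trans hR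
  obtain ⟨m, hm⟩ : ∃ m, m = (n + 3) / 3 := ⟨_, rfl⟩
  have hm1 : 1 ≤ m := by omega
  have hm2 : 3 * m ≤ n + 3 := by omega
  have hm3 : n + 1 ≤ 3 * m := by omega
  have hm2' : (3 : ℝ) * m ≤ n + 3 := by exact_mod_cast hm2
  have hm3' : (n : ℝ) + 1 ≤ 3 * m := by exact_mod_cast hm3
  have h1 := short_le (M := M) (C := fun a b : ℕ => Cx f.c f.B f.D (f.w / 4) f.W (f.tl a) (f.tl b))
    (sl := fun a b : ℕ => edg (Rg f.c f.D (f.w / 4) f.W (f.tl a) (f.tl b))) (l := 3) (m := m) (by norm_num) hm1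
    (by
      intro a a' b b' ha hb e he
      have ha' : (a' : ℝ) ≤ a := by exact_mod_cast ha
      have hb' : (b : ℝ) ≤ b' := by exact_mod_cast hb
      exact ⟨Rg_mono (htl _ _ ha') (htl _ _ hb') he.1, Rg_mono (htl _ _ ha') (htl _ _ hb') he.2⟩)
    (by
      intro a b _
      exact dependsOn_Cx _ _ _ _ _ _ _)
    (by
      intro a b c d τ hab hbc hcd hx
      have h1 : (a : ℝ) ≤ b := by exact_mod_cast hab
      have h2 : (b : ℝ) + 1 ≤ c := by exact_mod_cast hbc
      have h3 : (c : ℝ) ≤ d := by exact_mod_cast hcd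
      exact Cx.sub hx (htl _ _ h1) (htl _ _ h3) (htl1 _ _ h2))
    (by
      intro k hk
      have h1 : (k : ℝ) ≤ 3 * m := by exact_mod_cast hk
      have h0 : (0 : ℝ) ≤ k := Nat.cast_nonneg k
      refine indp_of hM (disj_Rg f hu le_rfl) ?_ ?_
      · exact hbox _ _ (by push_cast; linarith) (by linarith)
      · exact hbox _ _ (by linarith) (by push_cast; linarith))
    (by
      intro k
      have h1 := P_shift h hM f.B (f.w / 4) f.W 0 3 (k : ℤ)
      push_cast at h1 ⊢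
      rw [← h1, zero_add, add_comm (3 : ℝ) (k : ℝ)])
    (by
      refine hX.trans (M.P_mono fun τ _ hτ => ?_)
      have h1 : (1 : ℝ) ≤ m := by exact_mod_cast hm1
      refine Cx.sub hτ (htl _ _ (by push_cast; exact le_rfl)) (htl _ _ (by push_cast; linarith))
        (htl1 _ _ (by push_cast; linarith))) 0
  have h2 : M.P (fun τ => ¬ f.X2 j τ) ≤ 1 / m := by
    refine le_trans (le_of_eq ?_) h1
    rw [M.P_not, M.P_not]
    congr 1
    have h3 := P_shift h hM f.B (f.w / 4) f.W 0 3 ((j : ℤ) - 2)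
    have e1 : (0 : ℝ) + (((j : ℤ) - 2 : ℤ) : ℝ) = (j : ℝ) - 2 := by push_cast; ring
    have e2 : (3 : ℝ) + (((j : ℤ) - 2 : ℤ) : ℝ) = (j : ℝ) + 1 := by push_cast; ring
    rw [e1, e2] at h3
    refine Eq.trans ?_ (h3.trans ?_)
    · rfl
    · norm_num
  refine h2.trans ?_
  have hm0 : (0 : ℝ) < m := by exact_mod_cast hm1
  have hn0 : (0 : ℝ) < (n : ℝ) + 1 := by positivity
  rw [div_le_div_iff₀ hm0 hn0]
  linarith

/-- The cost of the cell right of a restart: `Ren.sum_cost_ind` with the edges of the cell `j` (levels `≥ j u > tl j`). -/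
theorem ex_sum (h : f.Ok) (hM : Good Q g R M) (hR : 20 * f.c.C * (n + 4) * (f.u + f.w) ≤ R) (hr : Ren M f.X1 f.sl (n + 1))
    {X : ℝ} (hX : 0 ≤ X) (hx : M.E (fun τ => xc Q.b f.c τ 0 f.x₀) ≤ X) :
    M.E (fun τ => ∑ j ∈ range (n + 2), ic (cs f.X1 0 j τ = j) * f.ex Q.b τ j) ≤ 2 * X := by
  have hu := h.u_pos
  have hw := h.w_pos
  refine hr.sum_cost_ind (D := fun k => edg (Dc f.c (f.o k) (f.x k))) (F := fun k τ => f.ex Q.b τ k) hX ?_ ?_ ?_
  · intro k hk
    have h1 : (k : ℝ) ≤ n + 1 := by exact_mod_cast hk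
    have h0 : (0 : ℝ) ≤ k := Nat.cast_nonneg k
    refine indp_of hM ?_ ?_ ?_
    · rw [Set.disjoint_left]
      intro e he he'
      have h2 := he.1.1.2
      have h3 := (Dc_lv he'.1).1
      rw [lv_o] at h3
      unfold Fra.tl at h2
      nlinarith
    · intro e he
      exact (Rg_nm h (by linarith) le_rfl (by push_cast; linarith) (by linarith) he.1).trans hR
    · intro e he
      exact (Dc_nm5 h hk (h.Dc_l k he.1)).trans hR
  · intro k _ x y hxy
    have h1 := Tc_dep Q.b f.c (f.o k) (f.x k) hxy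
    show f.ex Q.b x k = f.ex Q.b y k
    unfold Fra.ex xc
    have h2 : Tc Q.b f.c x (f.o k) (f.x k) = Tc Q.b f.c y (f.o k) (f.x k) := h1
    rw [h2]
  · intro k _
    refine le_trans (le_of_eq ?_) hx
    have h1 := E_exc hM f.c (f.o k) (f.x k)
    have h2 := E_exc hM f.c 0 f.x₀
    rw [x_sub_o] at h1
    rw [sub_zero] at h2
    show M.E (fun τ => f.ex Q.b τ k) = _
    unfold Fra.ex xc
    rw [x_sub_o, sub_zero, h1, h2]

end Fra

end Pool.Agent.W_1b8d5d_sc
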