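import Pool.Agent.W_1b8d5d_sc.P5Pot
import Pool.Agent.W_1b8d5d_sc.P5Cx
import Pool.Agent.W_1b8d5d_h85.Grid2

/-!
MP_1b8d5d_pr (SC, part P5): gluing along a crossing of a strip.
-/

set_option autoImplicit false

namespace Pool.Agent.W_1b8d5d_sc

open Finset Pool.Agent.W_1b8d5d_h85 Pool.Agent.W_1b8d5d_fe

namespace Fra

variable {f : Fra} {a b : ℝ} {τ : Env}

/-- A walk along a strip meets the geodesics of the cell `i`.  PROOF. `exists_geo` for `Te b τ i` from `o i` to `l`; all its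
vertices `z` satisfy `T (o i) z + T z l = T (o i) l` (`geo_add`), hence `G` (`G_of`), hence `Near i z` (`Conf`); `meet_crd` with
`α = β - W`, `β + W`, `H = 17 w / 16`: `8 C² (2 W + H) ≤ 9 C² w ≤ u / 20`. -/
theorem meet (h : f.Ok) (ha : 0 < a) (hab : a ≤ b) (hτ : Bd a b τ) {n : ℕ} (hc : f.Conf b n τ) {i : ℕ} (hi : i ≤ n)
    {β : ℝ} (h1 : f.w / 4 ≤ β) (h2 : β ≤ f.w / 2) {x y : V} (P : grid.Walk x y)
    (hP : ∀ z ∈ P.support, |ps f.c f.D z - β| ≤ f.W) (hx : lv f.c x ≤ i * f.u - f.u / 4) (hy : i * f.u + f.u / 4 ≤ lv f.c y)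
    {l : V} (hl : f.G b τ i l) (hl' : β + f.W < ps f.c f.D l) :
    ∃ z ∈ P.support, T (f.Te b τ i) (f.o i) z + T (f.Te b τ i) z l = T (f.Te b τ i) (f.o i) l := by
  have hTe : Bd a b (f.Te b τ i) := Bd_res hab hτ _
  obtain ⟨w, hw⟩ := exists_geo hTe ha (f.o i) l
  have hadd : ∀ z ∈ w.support, T (f.Te b τ i) (f.o i) z + T (f.Te b τ i) z l = T (f.Te b τ i) (f.o i) l := by
    intro z hz
    obtain ⟨j, hj, -⟩ := SimpleGraph.Walk.mem_support_iff_exists_getVert.1 hz
    have := geo_add hTe ha.le hw j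
    rwa [hj] at this
  have hnear : ∀ z ∈ w.support, f.Near i z := fun z hz => hc i hi z (G_of ha.le hab hτ hl (hadd z hz))
  have hw0 := h.w_pos
  have hwu := h.w_le_u
  have hW := h.hW
  have hW0 := h.hW0
  have hu := h.hu
  have hC := f.c.one_le
  have hC2 : 8 * f.c.C ^ 2 * (β + f.W - (β - f.W) + 17 * f.w / 16) ≤ f.u / 20 := by
    have e1 : β + f.W - (β - f.W) + 17 * f.w / 16 ≤ 9 / 8 * f.w := by linarith
    have e2 : 8 * f.c.C ^ 2 * (β + f.W - (β - f.W) + 17 * f.w / 16) ≤ 8 * f.c.C ^ 2 * (9 / 8 * f.w) :=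
      mul_le_mul_of_nonneg_left e1 (by positivity)
    have e3 : 8 * f.c.C ^ 2 * (9 / 8 * f.w) = 9 / 200 * (200 * f.c.C ^ 2 * f.w) := by ring
    have e4 : 0 ≤ 200 * f.c.C ^ 2 * f.w := by positivity
    rw [e3] at e2
    linarith
  obtain ⟨z, hz1, hz2⟩ := meet_crd f.c (D := f.D) h.D_one P w (α := β - f.W) (β := β + f.W) (H := 17 * f.w / 16)
    (fun z hz => by
      have := abs_le.1 (hP z hz)
      have e : ps f.c f.D z = f.c.q z + f.D * lv f.c z := rfl
      rw [← e]
      constructor <;> linarith [this.1, this.2])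
    (fun z hz => by
      have := near_ps h (hnear z hz)
      have e : ps f.c f.D z = f.c.q z + f.D * lv f.c z := rfl
      rw [← e]
      constructor <;> linarith [this.1, this.2])
    (by
      have e : ps f.c f.D (f.o i) = f.c.q (f.o i) + f.D * lv f.c (f.o i) := rfl
      rw [← e, h.ps_o]
      linarith)
    hl'
    (fun z hz => by
      have := (near_lv h (hnear z hz)).1
      linarith)
    (fun z hz => by
      have := (near_lv h (hnear z hz)).2
      linarith)
  exact ⟨z, hz1, hadd z hz2⟩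

/-- The upper corner of a cell is above the strips. -/
private theorem above_x (h : f.Ok) {β : ℝ} (h2 : β ≤ f.w / 2) (i : ℕ) : β + f.W < ps f.c f.D (f.x i) := by
  have h3 := abs_le.1 (h.ps_x i)
  have h4 := h.hW
  have h5 := h.w_pos
  linarith [h3.1]

/-- The potential along a good walk in a strip.  PROOF. Induction on `m`: for `m = 0` `A_conn` with `cont` (`Bg.lv_mem`); for
`m + 1` the walk meets the cell `i + m + 1` (`meet` with `l = x (i + m + 1)`), cut it there (`exists_cut`, `Bg.left`,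
`Bg.right`, `cost_append`). -/
theorem seg (h : f.Ok) (ha : 0 < a) (hab : a ≤ b) (hτ : Bd a b τ) {n : ℕ} (hc : f.Conf b n τ) {β : ℝ}
    (h1 : f.w / 4 ≤ β) (h2 : β ≤ f.w / 2) (m : ℕ) : ∀ (i : ℕ), i + m + 1 ≤ n → ∀ (l e : V) (P : grid.Walk l e),
    Bg f.c τ f.B P → (∀ z ∈ P.support, |ps f.c f.D z - β| ≤ f.W) → f.G b τ i l → f.G b τ (i + m + 1) e →
    f.A b τ (i + m + 1) e ≤ f.A b τ i l + cost τ P - lv f.c (e - l) := by
  -- one step
  have one : ∀ (i : ℕ), i + 1 ≤ n → ∀ (l e : V) (P : grid.Walk l e),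
      Bg f.c τ f.B P → (∀ z ∈ P.support, |ps f.c f.D z - β| ≤ f.W) → f.G b τ i l → f.G b τ (i + 1) e →
      f.A b τ (i + 1) e ≤ f.A b τ i l + cost τ P - lv f.c (e - l) := by
    intro i hi l e P hB hP hl he
    refine A_conn h ha.le hab hτ P (fun z hz => ?_) he
    have hz' := hB.lv_mem ha.le hτ hz
    exact cont h h1 h2 (hc i (by omega) l hl) (hP l P.start_mem_support) (hc (i + 1) hi e he) (hP e P.end_mem_support)
      (hP z hz) hz'.1 hz'.2
  have hlv : ∀ p q : V, lv f.c (q - p) = lv f.c q - lv f.c p := by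
    intro p q
    unfold lv
    rw [map_sub, map_sub]
    ring
  induction m with
  | zero => exact one
  | succ m ih =>
    intro i hi l e P hB hP hl he
    have hw0 := h.w_pos
    have hwu := h.w_le_u
    have hu0 := h.u_pos
    obtain ⟨z, hz1, hz2⟩ := meet h ha hab hτ hc (i := i + m + 1) (by omega) h1 h2 P hP
      (by
        have e1 := (near_lv h (hc i (by omega) l hl)).2
        push_cast
        have e2 : 0 ≤ (m : ℝ) * f.u := mul_nonneg (Nat.cast_nonneg _) hu0.le
        linarith)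
      (by
        have e1 := (near_lv h (hc (i + (m + 1) + 1) hi e he)).1
        push_cast at e1 ⊢
        linarith)
      (G_x ha.le hab hτ f (i + m + 1)) (above_x h h2 _)
    obtain ⟨P₁, P₂, hcut⟩ := exists_cut P hz1
    have hGz : f.G b τ (i + m + 1) z := hz2
    have h3 := ih i (by omega) l z P₁ (hB.left hcut) (fun v hv => hP v (by
      rw [hcut, SimpleGraph.Walk.mem_support_append_iff]
      exact Or.inl hv)) hl hGz
    have h4 := one (i + m + 1) (by omega) z e P₂ (hB.right hcut) (fun v hv => hP v (by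
      rw [hcut, SimpleGraph.Walk.mem_support_append_iff]
      exact Or.inr hv)) hGz he
    have h5 : cost τ P = cost τ P₁ + cost τ P₂ := by rw [hcut, cost_append]
    rw [hlv] at h3 h4 ⊢
    have e3 : i + (m + 1) + 1 = i + m + 1 + 1 := by ring
    rw [e3, h5]
    linarith

/-- Two cells `i < k` met by the same crossing: PROOF. `exists_between`; the order is the right one because a good walk
goes down by at most `B` (`Bg.lv_mem`, levels of the cells: `near_lv`); `seg` and `Bg.cost_le`. -/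
theorem seg_le (h : f.Ok) (ha : 0 < a) (hab : a ≤ b) (hτ : Bd a b τ) {n : ℕ} (hc : f.Conf b n τ) {β : ℝ}
    (h1 : f.w / 4 ≤ β) (h2 : β ≤ f.w / 2) {i k : ℕ} (hik : i < k) (hk : k ≤ n) {x y : V} (P : grid.Walk x y)
    (hB : Bg f.c τ f.B P) (hP : ∀ z ∈ P.support, |ps f.c f.D z - β| ≤ f.W) {l e : V} (hl : l ∈ P.support)
    (he : e ∈ P.support) (hGl : f.G b τ i l) (hGe : f.G b τ k e) : f.A b τ k e ≤ f.A b τ i l + f.B := by
  rcases exists_between P hl he with ⟨P₁, P₂, P₃, hcut⟩ | ⟨P₁, P₂, P₃, hcut⟩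
  · obtain ⟨m, hm⟩ : ∃ m, k = i + m + 1 := ⟨k - i - 1, by omega⟩
    subst hm
    have h3 := seg h ha hab hτ hc h1 h2 m i hk l e P₂ (hB.sub hcut) (fun v hv => hP v (by
      rw [hcut, SimpleGraph.Walk.mem_support_append_iff, SimpleGraph.Walk.mem_support_append_iff]
      exact Or.inr (Or.inl hv))) hGl hGe
    have h4 := (hB.sub hcut).cost_le
    linarith
  · exfalso
    have h3 := ((hB.sub hcut).lv_mem ha.le hτ P₂.end_mem_support).1
    have h4 := (near_lv h (hc i (by omega) l hGl)).2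
    have h5 := (near_lv h (hc k hk e hGe)).1
    have hw0 := h.w_pos
    have hwu := h.w_le_u
    have hu0 := h.u_pos
    have hB' := h.hB
    have h6 : ((i : ℝ) + 1) * f.u ≤ k * f.u := mul_le_mul_of_nonneg_right (by exact_mod_cast hik) hu0.le
    linarith

end Fra

end Pool.Agent.W_1b8d5d_sc
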