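import Pool.Agent.W_1b8d5d_sc.P5Seg

/-!
MP_1b8d5d_pr (SC, part P5): one restart.
-/

set_option autoImplicit false

namespace Pool.Agent.W_1b8d5d_sc

open Finset Pool.Agent.W_1b8d5d_h85 Pool.Agent.W_1b8d5d_fe

namespace Fra

variable {f : Fra} {a b : ℝ} {τ : Env}

/-- The crossing of the segment started at `s` meets the cells `s, ..., k - 1`; the potential there.  PROOF. `meet` at the
cell `s` and at the cell `i` with `l = x _`; for `i = s` the bound `V`, otherwise `seg_le`. -/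
theorem seg_pot (h : f.Ok) (ha : 0 < a) (hab : a ≤ b) (hτ : Bd a b τ) {n : ℕ} (hc : f.Conf b n τ) {s k i : ℕ} (hsi : s ≤ i)
    (hik : i < k) (hi : i ≤ n) (hX : f.X1 s k τ) {V₀ : ℝ} (hV : ∀ z, f.G b τ s z → f.A b τ s z ≤ V₀) :
    ∃ l, f.G b τ i l ∧ |ps f.c f.D l - f.w / 2| ≤ f.W ∧ f.A b τ i l ≤ V₀ + f.B := by
  obtain ⟨x, y, P, hB, hR, hx, hy⟩ := hX
  have hP : ∀ z ∈ P.support, |ps f.c f.D z - f.w / 2| ≤ f.W := fun z hz => (hR z hz).2
  have hw0 := h.w_pos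
  have hwu := h.w_le_u
  have hu0 := h.u_pos
  have hCw := h.C_le_w
  have hB0 := h.hB0
  unfold tl at hx hy
  -- the levels of the ends
  have hm : ∀ j : ℕ, s ≤ j → j < k → lv f.c x ≤ j * f.u - f.u / 4 ∧ j * f.u + f.u / 4 ≤ lv f.c y := by
    intro j hsj hjk
    have e1 : (s : ℝ) * f.u ≤ j * f.u := mul_le_mul_of_nonneg_right (by exact_mod_cast hsj) hu0.le
    have e2 : ((j : ℝ) + 1) * f.u ≤ k * f.u := mul_le_mul_of_nonneg_right (by exact_mod_cast hjk) hu0.le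
    constructor <;> linarith
  have hab' : ∀ j : ℕ, f.w / 2 + f.W < ps f.c f.D (f.x j) := by
    intro j
    have h3 := abs_le.1 (h.ps_x j)
    have h4 := h.hW
    linarith [h3.1]
  obtain ⟨l, hl1, hl2⟩ := meet h ha hab hτ hc hi (by linarith) le_rfl P hP (hm i hsi hik).1 (hm i hsi hik).2
    (G_x ha.le hab hτ f i) (hab' i)
  refine ⟨l, hl2, hP l hl1, ?_⟩
  rcases hsi.lt_or_eq with h3 | h3
  · obtain ⟨l', hl1', hl2'⟩ := meet h ha hab hτ hc (i := s) (by omega) (by linarith) le_rfl P hP (hm s le_rfl (by omega)).1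
      (hm s le_rfl (by omega)).2 (G_x ha.le hab hτ f s) (hab' s)
    have h4 := seg_le h ha hab hτ hc (by linarith) le_rfl h3 hi P hB hP hl1' hl1 hl2' hl2
    have h5 := hV l' hl2'
    linarith
  · subst h3
    have h5 := hV l hl2
    linarith

/-- The restart at `k + 1` when the lower strip is crossed.  PROOF. `i₀ = max s (k - 1)`.  If `s < k`: `seg_pot` at `i₀ = k - 1`
gives `l` in the upper strip; the crossing of the lower strip is met by the geodesic from `o i₀` to `l` (`meet` with this `l`)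
at `l'`, `A_back`.  If `s = k`: `i₀ = k`, `meet` with `x k`, `hV`.  Then `meet` at the cell `k + 1` (with `x (k + 1)`), `seg_le`,
and `A_any` in the cell `k + 1`. -/
theorem step_lo (h : f.Ok) (ha : 0 < a) (hab : a ≤ b) (hτ : Bd a b τ) {n : ℕ} (hc : f.Conf b n τ) {L : ℝ} (hL0 : 0 ≤ L)
    (hL : f.Luck n τ L) {s k : ℕ} (hsk : s ≤ k) (hk : k + 1 ≤ n) (hX : s < k → f.X1 s k τ) {V₀ : ℝ}
    (hV : ∀ z, f.G b τ s z → f.A b τ s z ≤ V₀) (hX2 : f.X2 (k + 1) τ) {z : V} (hz : f.G b τ (k + 1) z) :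
    f.A b τ (k + 1) z ≤ V₀ + 2 * f.B + f.ex b τ (k + 1) + 3 * L := by
  obtain ⟨x, y, P, hB, hR, hx, hy⟩ := hX2
  have hP : ∀ z ∈ P.support, |ps f.c f.D z - f.w / 4| ≤ f.W := fun z hz => (hR z hz).2
  have hw0 := h.w_pos
  have hwu := h.w_le_u
  have hu0 := h.u_pos
  have hCw := h.C_le_w
  have hB0 := h.hB0
  have hW := h.hW
  unfold tl at hx hy
  push_cast at hx hy
  -- the levels of the ends
  have hm : ∀ j : ℕ, k ≤ j + 1 → j ≤ k + 1 → lv f.c x ≤ j * f.u - f.u / 4 ∧ j * f.u + f.u / 4 ≤ lv f.c y := by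
    intro j hsj hjk
    have e1 : (k : ℝ) * f.u ≤ ((j : ℝ) + 1) * f.u := mul_le_mul_of_nonneg_right (by exact_mod_cast hsj) hu0.le
    have e2 : (j : ℝ) * f.u ≤ ((k : ℝ) + 1) * f.u := mul_le_mul_of_nonneg_right (by exact_mod_cast hjk) hu0.le
    constructor <;> linarith
  have hab' : ∀ j : ℕ, f.w / 4 + f.W < ps f.c f.D (f.x j) := by
    intro j
    have h3 := abs_le.1 (h.ps_x j)
    linarith [h3.1]
  -- the entry to the cell `k + 1`
  obtain ⟨e, he1, he2⟩ := meet h ha hab hτ hc hk le_rfl (by linarith) P hP (hm (k + 1) (by omega) le_rfl).1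
    (hm (k + 1) (by omega) le_rfl).2 (G_x ha.le hab hτ f (k + 1)) (hab' (k + 1))
  have h5 := A_any h ha.le hab hτ hL hk (hc (k + 1) hk e he2) (hc (k + 1) hk z hz) hz
  rcases hsk.lt_or_eq with h3 | h3
  · obtain ⟨i, hi⟩ : ∃ i, k = i + 1 := ⟨k - 1, by omega⟩
    obtain ⟨l, hl1, hl2, hl3⟩ := seg_pot h ha hab hτ hc (i := i) (by omega) (by omega) (by omega) (hX h3) hV
    have hl4 := abs_le.1 hl2
    obtain ⟨l', hl5, hl6⟩ := meet h ha hab hτ hc (i := i) (by omega) le_rfl (by linarith) P hP (hm i (by omega) (by omega)).1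
      (hm i (by omega) (by omega)).2 hl1 (by linarith [hl4.1])
    have hG := G_of ha.le hab hτ hl1 hl6
    have h6 := A_back ha.le hab hτ hL (i := i) (by omega) (hc i (by omega) l hl1) (hc i (by omega) l' hG) hl6
    have h7 := seg_le h ha hab hτ hc le_rfl (by linarith) (i := i) (k := k + 1) (by omega) hk P hB hP hl5 he1 hG he2
    linarith
  · subst h3
    obtain ⟨l', hl5, hl6⟩ := meet h ha hab hτ hc (i := s) (by omega) le_rfl (by linarith) P hP (hm s (by omega) (by omega)).1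
      (hm s (by omega) (by omega)).2 (G_x ha.le hab hτ f s) (hab' s)
    have h6 := hV l' hl6
    have h7 := seg_le h ha hab hτ hc le_rfl (by linarith) (i := s) (k := s + 1) (by omega) hk P hB hP hl5 he1 hl6 he2
    linarith

/-- The restart at `k + 1` by the direct connections: `seg_pot` at `k - 1` and `A_dir` twice if `s < k`, `A_dir` once if
`s = k`. -/
theorem step_dir (h : f.Ok) (ha : 0 < a) (hab : a ≤ b) (hτ : Bd a b τ) {n : ℕ} (hc : f.Conf b n τ) {L : ℝ} (hL0 : 0 ≤ L)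
    (hL : f.Luck n τ L) {s k : ℕ} (hsk : s ≤ k) (hk : k + 1 ≤ n) (hX : s < k → f.X1 s k τ) {V₀ : ℝ}
    (hV : ∀ z, f.G b τ s z → f.A b τ s z ≤ V₀) {z : V} (hz : f.G b τ (k + 1) z) :
    f.A b τ (k + 1) z ≤ V₀ + f.B + (f.dr b τ (k - 1) + f.dr b τ k) + 4 * L := by
  have hB0 := h.hB0
  have hxk := G_x ha.le hab hτ f k
  have h5 := A_dir h ha.le hab hτ hL hk (hc k (by omega) _ hxk) (hc (k + 1) hk z hz) hz
  have h0 := dr_nonneg f b τ (k - 1)
  rcases hsk.lt_or_eq with h3 | h3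
  · obtain ⟨i, hi⟩ : ∃ i, k = i + 1 := ⟨k - 1, by omega⟩
    obtain ⟨l, hl1, hl2, hl3⟩ := seg_pot h ha hab hτ hc (i := i) (by omega) (by omega) (by omega) (hX h3) hV
    subst hi
    have h6 := A_dir h ha.le hab hτ hL (i := i) (by omega) (hc i (by omega) l hl1) (hc (i + 1) (by omega) _ hxk) hxk
    rw [Nat.add_sub_cancel]
    linarith
  · subst h3
    have h6 := hV _ hxk
    linarith

/-- One restart. -/
theorem step (h : f.Ok) (ha : 0 < a) (hab : a ≤ b) (hτ : Bd a b τ) {n : ℕ} (hc : f.Conf b n τ) {L : ℝ} (hL0 : 0 ≤ L)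
    (hL : f.Luck n τ L) {s k : ℕ} (hsk : s ≤ k) (hk : k + 1 ≤ n) (hX : s < k → f.X1 s k τ) {V₀ : ℝ}
    (hV : ∀ z, f.G b τ s z → f.A b τ s z ≤ V₀) {z : V} (hz : f.G b τ (k + 1) z) :
    f.A b τ (k + 1) z ≤ V₀ + f.ct b τ L (k + 1) := by
  have hB := h.hB0
  have h1 := ex_nonneg f b τ (k + 1)
  have h2 := dr_nonneg f b τ (k - 1)
  have h3 := dr_nonneg f b τ k
  unfold ct
  have e1 : k + 1 - 2 = k - 1 := by omega
  have e2 : k + 1 - 1 = k := by omega
  rw [e1, e2]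
  by_cases hX2 : f.X2 (k + 1) τ
  · have h4 := step_lo h ha hab hτ hc hL0 hL hsk hk hX hV hX2 hz
    rw [ic_not (not_not.2 hX2)]
    linarith
  · have h4 := step_dir h ha hab hτ hc hL0 hL hsk hk hX hV hz
    rw [ic_of hX2]
    linarith

/-- The end. -/
theorem step_end (h : f.Ok) (ha : 0 < a) (hab : a ≤ b) (hτ : Bd a b τ) {n : ℕ} (hc : f.Conf b (n + 1) τ) {L : ℝ} (hL0 : 0 ≤ L)
    (hL : f.Luck (n + 1) τ L) {s : ℕ} (hs : s ≤ n + 1) (hX : s < n + 1 → f.X1 s (n + 1) τ) {V₀ : ℝ}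
    (hV : ∀ z, f.G b τ s z → f.A b τ s z ≤ V₀) :
    ∑ k ∈ range n, f.ff b τ k ≤ V₀ + f.B + L + f.ex b τ (n + 1) := by
  have h0 := ha.le
  have hB := h.hB0
  have h1 := ex_nonneg f b τ (n + 1)
  rw [← A_o h0 hab hτ f n]
  rcases hs.lt_or_eq with h2 | h2
  · obtain ⟨l, hl1, hl2, hl3⟩ := seg_pot h ha hab hτ hc (i := n) (by omega) (by omega) (by omega) (hX h2) hV
    have h3 := A_back h0 hab hτ hL (i := n) (by omega) (hc n (by omega) l hl1) (near_o h n) (z := f.o n) (by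
      have hT : T (f.Te b τ n) (f.o n) (f.o n) = 0 := T_self (Bd_res hab hτ _) h0 _
      rw [hT, zero_add])
    linarith
  · subst h2
    have h3 := A_last h h0 hab hτ hL
    have h4 := hV _ (G_o h0 hab hτ f (n + 1))
    linarith

end Fra

end Pool.Agent.W_1b8d5d_sc
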