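import Mathlib

/-!
MP_1b8d5d_pr (SC, section 9): a slowly increasing sequence is bounded.
-/

set_option autoImplicit false

namespace Pool.Agent.W_1b8d5d_sc

open Finset Filter Topology

/-- Step 1: the growth rate is at most `θ`. -/
private lemma Slow9_one {θ A C : ℝ} (h1 : 1 < θ) (hA : θ ≤ A) (hC : 0 ≤ C) {x : ℕ → ℝ} {m : ℕ → ℕ}
    (hx : ∀ i, 0 < x i) (hgr : ∀ δ : ℝ, 0 < δ → ∃ N, ∀ i, N ≤ i → x i ≤ δ * θ ^ i) {i₀ : ℕ}
    (hm1 : ∀ i, i₀ ≤ i → 1 ≤ m i) (hm2 : ∀ i, i₀ ≤ i → C * (θ / 2) ^ m i < θ - 1)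
    (hrec : ∀ i, i₀ ≤ i → ∀ y : ℝ, (∀ l, x (i + m i + l) ≤ A ^ l * y) → x (i + 1) ≤ x i + C * (1 / 2) ^ m i * y) :
    ∀ i, i₀ ≤ i → ∀ l, x (i + l) ≤ θ ^ l * x i := by
  have h0 : 0 < θ := by linarith
  intro i hi
  -- the maximum of `x (i + l) / θ ^ l`
  obtain ⟨j, hj⟩ : ∃ j, ∀ k, x (i + k) / θ ^ k ≤ x (i + j) / θ ^ j := by
    obtain ⟨N, hN⟩ := hgr (x i / θ ^ i) (div_pos (hx i) (pow_pos h0 i))
    obtain ⟨j, hj1, hj2⟩ := Finset.exists_max_image (Finset.range (N + 1)) (fun k => x (i + k) / θ ^ k) ⟨0, by simp⟩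
    refine ⟨j, fun k => ?_⟩
    by_cases hk : k < N + 1
    · exact hj2 k (Finset.mem_range.2 hk)
    · have h2 : x (i + k) ≤ x i / θ ^ i * θ ^ (i + k) := hN (i + k) (by omega)
      have h3 : x i / θ ^ i * θ ^ (i + k) = x i * θ ^ k := by
        rw [pow_add]
        field_simp
      rw [h3] at h2
      have h4 : x (i + k) / θ ^ k ≤ x i := by
        rw [div_le_iff₀ (pow_pos h0 k)]
        exact h2
      have h5 := hj2 0 (Finset.mem_range.2 (Nat.succ_pos N))
      simp only [add_zero, pow_zero, div_one] at h5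
      exact h4.trans h5
  have hmax : ∀ k, x (i + k) * θ ^ j ≤ x (i + j) * θ ^ k := by
    intro k
    have h2 := hj k
    rwa [div_le_div_iff₀ (pow_pos h0 k) (pow_pos h0 j)] at h2
  rcases Nat.eq_zero_or_pos j with h | h
  · subst h
    intro l
    have h2 := hmax l
    simp only [pow_zero, mul_one, add_zero] at h2
    linarith
  · exfalso
    obtain ⟨j', rfl⟩ : ∃ j', j = j' + 1 := ⟨j - 1, by omega⟩
    have e1 := hm1 (i + j') (by omega)
    have e2 := hm2 (i + j') (by omega)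
    obtain ⟨m', hm'⟩ : ∃ m', m (i + j') = m' + 1 := ⟨m (i + j') - 1, by omega⟩
    have hxj := hx (i + (j' + 1))
    have e3 : ∀ k, x (i + (j' + 1) + k) ≤ θ ^ k * x (i + (j' + 1)) := by
      intro k
      have h2 := hmax (j' + 1 + k)
      rw [pow_add θ (j' + 1) k] at h2
      have h3 : 0 < θ ^ (j' + 1) := pow_pos h0 _
      have h4 : x (i + (j' + 1 + k)) * θ ^ (j' + 1) ≤ θ ^ k * x (i + (j' + 1)) * θ ^ (j' + 1) := by linarith
      have h5 := le_of_mul_le_mul_right h4 h3
      rwa [← add_assoc i (j' + 1) k] at h5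
    have e4 : x (i + j') * θ ≤ x (i + (j' + 1)) := by
      have h2 := hmax j'
      rw [pow_succ] at h2
      have h3 : 0 < θ ^ j' := pow_pos h0 _
      have h4 : x (i + j') * θ * θ ^ j' ≤ x (i + (j' + 1)) * θ ^ j' := by linarith
      exact le_of_mul_le_mul_right h4 h3
    have e5 := hrec (i + j') (by omega) (θ ^ m' * x (i + (j' + 1))) (by
      intro l
      have h2 := e3 (m' + l)
      have h3 : i + (j' + 1) + (m' + l) = i + j' + m (i + j') + l := by omega
      rw [h3] at h2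
      refine h2.trans ?_
      rw [pow_add]
      have h4 : θ ^ l ≤ A ^ l := pow_le_pow_left₀ h0.le hA l
      have h5 : 0 ≤ θ ^ m' * x (i + (j' + 1)) := by positivity
      have h6 := mul_le_mul_of_nonneg_right h4 h5
      linarith)
    have e6 : C * (1 / 2) ^ m (i + j') * (θ ^ m' * x (i + (j' + 1))) * θ = C * (θ / 2) ^ m (i + j') * x (i + (j' + 1)) := by
      rw [hm', div_pow θ 2, pow_succ θ m', one_div, inv_pow]
      field_simp
    have e7 : x (i + (j' + 1)) * θ ≤ x (i + (j' + 1)) + C * (θ / 2) ^ m (i + j') * x (i + (j' + 1)) := by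
      have h2 : x (i + j' + 1) * θ ≤ (x (i + j') + C * (1 / 2) ^ m (i + j') * (θ ^ m' * x (i + (j' + 1)))) * θ :=
        mul_le_mul_of_nonneg_right e5 h0.le
      rw [add_mul, e6] at h2
      rw [add_assoc i j' 1] at h2
      linarith
    have e8 : C * (θ / 2) ^ m (i + j') * x (i + (j' + 1)) < (θ - 1) * x (i + (j' + 1)) :=
      mul_lt_mul_of_pos_right e2 hxj
    linarith

/-- ** Section 9. ** A positive nondecreasing sequence of growth rate less than `θ < 2` is bounded if its increments satisfy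
`x (i + 1) - x i ≤ C 2^(- m i) Mh (i + m i)`, `Mh n = sup_l A^(-l) x (n + l)`, with summable `2^(- m i)`. -/
theorem bounded_of_rec {θ A C : ℝ} (h1 : 1 < θ) (h2 : θ < 2) (hA : θ ≤ A) (hC : 0 ≤ C) {x : ℕ → ℝ} {m : ℕ → ℕ}
    (hx : ∀ i, 0 < x i) (hmono : Monotone x) (hgr : ∀ δ : ℝ, 0 < δ → ∃ N, ∀ i, N ≤ i → x i ≤ δ * θ ^ i)
    (hsum : Summable fun i => (1 / 2 : ℝ) ^ m i) (i₀ : ℕ)
    (hrec : ∀ i, i₀ ≤ i → ∀ y : ℝ, (∀ l, x (i + m i + l) ≤ A ^ l * y) → x (i + 1) ≤ x i + C * (1 / 2) ^ m i * y) :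
    ∃ B : ℝ, ∀ i, x i ≤ B := by
  have h0 : 0 < θ := by linarith
  have hr0 : 0 < θ / 2 := by linarith
  have hr1 : θ / 2 < 1 := by linarith
  have hA0 : 0 < A := by linarith
  -- `m` tends to infinity
  have hm : Tendsto m atTop atTop := by
    have h3 := hsum.tendsto_atTop_zero
    rw [tendsto_atTop_atTop]
    intro b
    have h4 : ∀ᶠ i in atTop, (1 / 2 : ℝ) ^ m i < (1 / 2) ^ b := h3.eventually (gt_mem_nhds (by positivity))
    obtain ⟨N, hN⟩ := eventually_atTop.1 h4
    refine ⟨N, fun i hi => ?_⟩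
    by_contra hcon
    push Not at hcon
    have h5 : (1 / 2 : ℝ) ^ b ≤ (1 / 2) ^ m i := pow_le_pow_of_le_one (by norm_num) (by norm_num) hcon.le
    linarith [hN i hi]
  have hpow : Tendsto (fun i => C * (θ / 2) ^ m i) atTop (𝓝 0) := by
    have h3 := ((tendsto_pow_atTop_nhds_zero_of_lt_one hr0.le hr1).comp hm).const_mul C
    simpa using h3
  obtain ⟨i₁, hi₁⟩ : ∃ i₁, ∀ i, i₁ ≤ i → 1 ≤ m i ∧ C * (θ / 2) ^ m i < θ - 1 := by
    have h3 : ∀ᶠ i in atTop, 1 ≤ m i := hm.eventually_ge_atTop 1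
    have h4 : ∀ᶠ i in atTop, C * (θ / 2) ^ m i < θ - 1 := hpow.eventually (gt_mem_nhds (by linarith))
    exact eventually_atTop.1 (h3.and h4)
  have hone := Slow9_one h1 hA hC hx hgr (i₀ := max i₀ i₁)
    (fun i hi => (hi₁ i ((le_max_right _ _).trans hi)).1) (fun i hi => (hi₁ i ((le_max_right _ _).trans hi)).2)
    (fun i hi => hrec i ((le_max_left _ _).trans hi))
  -- the recursion with `x` instead of `Mh`
  have hstep : ∀ l, max i₀ i₁ ≤ l → x (l + 1) ≤ x l + C * (1 / 2) ^ m l * x (l + m l) := by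
    intro l hl
    refine hrec l ((le_max_left _ _).trans hl) _ fun k => ?_
    refine (hone (l + m l) (by omega) k).trans ?_
    exact mul_le_mul_of_nonneg_right (pow_le_pow_left₀ h0.le hA k) (hx _).le
  -- `n (θ/2)^(n-1) ≤ 1` for large `n`
  obtain ⟨n₀, hn₀⟩ : ∃ n₀ : ℕ, ∀ n : ℕ, n₀ ≤ n → ((n : ℝ) + 1) * (θ / 2) ^ n ≤ 1 := by
    have h3 : Tendsto (fun n : ℕ => ((n : ℝ) + 1) * (θ / 2) ^ n) atTop (𝓝 0) := by
      have h4 := tendsto_self_mul_const_pow_of_lt_one hr0.le hr1
      have h5 := tendsto_pow_atTop_nhds_zero_of_lt_one hr0.le hr1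
      have h6 := h4.add h5
      simp only [add_zero] at h6
      refine h6.congr fun n => ?_
      ring
    have h4 : ∀ᶠ n : ℕ in atTop, ((n : ℝ) + 1) * (θ / 2) ^ n < 1 := h3.eventually (gt_mem_nhds (by norm_num))
    obtain ⟨n₀, hn₀⟩ := eventually_atTop.1 h4
    exact ⟨n₀, fun n hn => (hn₀ n hn).le⟩
  obtain ⟨G, hG⟩ : ∃ G : ℝ, G = max (2 ^ (n₀ + 1)) (Real.exp (2 * C)) := ⟨_, rfl⟩
  have hG0 : 0 < G := by rw [hG]; positivity
  have hG1 : (2 : ℝ) ^ (n₀ + 1) ≤ G := by rw [hG]; exact le_max_left _ _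
  have hG2 : Real.exp (2 * C) ≤ G := by rw [hG]; exact le_max_right _ _
  -- the tail of the series
  obtain ⟨i₂, hi₂, hi₃⟩ : ∃ i₂, max i₀ i₁ ≤ i₂ ∧ ∀ i, i₂ ≤ i → ∀ n, G * ∑ k ∈ range n, (1 / 2 : ℝ) ^ m (i + k) ≤ 1 := by
    have h3 := tendsto_sum_nat_add fun i => (1 / 2 : ℝ) ^ m i
    have h4 : ∀ᶠ i in atTop, ∑' k, (1 / 2 : ℝ) ^ m (k + i) < 1 / G := h3.eventually (gt_mem_nhds (by positivity))
    obtain ⟨N, hN⟩ := eventually_atTop.1 h4
    refine ⟨max (max i₀ i₁) N, le_max_left _ _, fun i hi n => ?_⟩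
    have h5 := hN i ((le_max_right _ _).trans hi)
    have h6 : ∑ k ∈ range n, (1 / 2 : ℝ) ^ m (i + k) ≤ ∑' k, (1 / 2 : ℝ) ^ m (k + i) := by
      have h7 : Summable fun k => (1 / 2 : ℝ) ^ m (k + i) := (summable_nat_add_iff i).2 hsum
      have h8 := h7.sum_le_tsum (range n) (fun k _ => by positivity)
      refine le_trans (le_of_eq ?_) h8
      refine Finset.sum_congr rfl fun k _ => ?_
      rw [add_comm]
    have h7 : ∑ k ∈ range n, (1 / 2 : ℝ) ^ m (i + k) ≤ 1 / G := h6.trans h5.le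
    calc G * ∑ k ∈ range n, (1 / 2 : ℝ) ^ m (i + k) ≤ G * (1 / G) := mul_le_mul_of_nonneg_left h7 hG0.le
      _ = 1 := by field_simp
  have key : ∀ n : ℕ, ∀ i, i₂ ≤ i → x (i + n) ≤ G * x i := by
    intro n
    induction n using Nat.strong_induction_on with
    | _ n ih =>
      intro i hi
      by_cases hn : n ≤ n₀
      · have h3 := hone i (hi₂.trans hi) n
        have h4 : θ ^ n ≤ 2 ^ (n₀ + 1) :=
          (pow_le_pow_left₀ h0.le h2.le n).trans (pow_le_pow_right₀ (by norm_num) (by omega))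
        exact h3.trans (mul_le_mul_of_nonneg_right (h4.trans hG1) (hx i).le)
      · push Not at hn
        obtain ⟨n', rfl⟩ : ∃ n', n = n' + 1 := ⟨n - 1, by omega⟩
        have h3 := hn₀ n' (by omega)
        have hn'0 : (0 : ℝ) < (n' : ℝ) + 1 := by positivity
        -- one step
        have h4 : ∀ l, i₂ ≤ l → x (l + 1) ≤ x l * Real.exp (C / (n' + 1) + C * (G * (1 / 2) ^ m l)) := by
          intro l hl
          have h5 := hstep l (hi₂.trans hl)
          have h6 : (1 / 2 : ℝ) ^ m l * x (l + m l) ≤ (1 / (n' + 1) + G * (1 / 2) ^ m l) * x l := by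
            by_cases hml : n' ≤ m l
            · have h7 := hone l (hi₂.trans hl) (m l)
              have h8 : (1 / 2 : ℝ) ^ m l * x (l + m l) ≤ (θ / 2) ^ m l * x l := by
                calc (1 / 2 : ℝ) ^ m l * x (l + m l) ≤ (1 / 2 : ℝ) ^ m l * (θ ^ m l * x l) :=
                      mul_le_mul_of_nonneg_left h7 (by positivity)
                  _ = (θ / 2) ^ m l * x l := by
                      rw [← mul_assoc, ← mul_pow]
                      congr 2
                      ring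
              have h9 : (θ / 2) ^ m l ≤ 1 / (n' + 1) := by
                refine (pow_le_pow_of_le_one hr0.le hr1.le hml).trans ?_
                rw [le_div_iff₀ hn'0]
                linarith
              refine h8.trans (mul_le_mul_of_nonneg_right (h9.trans ?_) (hx l).le)
              have : 0 ≤ G * (1 / 2 : ℝ) ^ m l := by positivity
              linarith
            · push Not at hml
              have h7 := ih (m l) (by omega) l hl
              have h8 : (1 / 2 : ℝ) ^ m l * x (l + m l) ≤ (1 / 2 : ℝ) ^ m l * (G * x l) :=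
                mul_le_mul_of_nonneg_left h7 (by positivity)
              have h9 : 0 ≤ 1 / ((n' : ℝ) + 1) * x l := mul_nonneg (by positivity) (hx l).le
              linarith
          have h7 : x (l + 1) ≤ x l * (C / (n' + 1) + C * (G * (1 / 2) ^ m l) + 1) := by
            have h8 := mul_le_mul_of_nonneg_left h6 hC
            have h9 : C * ((1 / (n' + 1) + G * (1 / 2) ^ m l) * x l) = x l * (C / (n' + 1) + C * (G * (1 / 2) ^ m l)) := by ring
            linarith
          exact h7.trans (mul_le_mul_of_nonneg_left (Real.add_one_le_exp _) (hx l).le)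
        -- the product
        have h5 : ∀ k, x (i + k) ≤ x i * Real.exp (k * (C / (n' + 1)) + C * (G * ∑ q ∈ range k, (1 / 2 : ℝ) ^ m (i + q))) := by
          intro k
          induction k with
          | zero => simp
          | succ k ihk =>
            have h6 := h4 (i + k) (by omega)
            have h7 := mul_le_mul_of_nonneg_right ihk (Real.exp_pos (C / (n' + 1) + C * (G * (1 / 2) ^ m (i + k)))).le
            have h8 : x i * Real.exp (k * (C / (n' + 1)) + C * (G * ∑ q ∈ range k, (1 / 2 : ℝ) ^ m (i + q))) *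
                Real.exp (C / (n' + 1) + C * (G * (1 / 2) ^ m (i + k))) =
                x i * Real.exp (((k + 1 : ℕ) : ℝ) * (C / (n' + 1)) + C * (G * ∑ q ∈ range (k + 1), (1 / 2 : ℝ) ^ m (i + q))) := by
              rw [mul_assoc, ← Real.exp_add, Finset.sum_range_succ]
              congr 2
              push_cast
              ring
            rw [h8] at h7
            exact h6.trans h7
        have h6 := h5 (n' + 1)
        have h7 := hi₃ i hi (n' + 1)
        have h8 : ((n' + 1 : ℕ) : ℝ) * (C / (n' + 1)) = C := by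
          push_cast
          field_simp
        rw [h8] at h6
        have h9 : C + C * (G * ∑ q ∈ range (n' + 1), (1 / 2 : ℝ) ^ m (i + q)) ≤ 2 * C := by
          have := mul_le_mul_of_nonneg_left h7 hC
          linarith
        have h10 : x i * Real.exp (C + C * (G * ∑ q ∈ range (n' + 1), (1 / 2 : ℝ) ^ m (i + q))) ≤ x i * G :=
          mul_le_mul_of_nonneg_left ((Real.exp_le_exp.2 h9).trans hG2) (hx i).le
        linarith
  refine ⟨G * x i₂, fun i => ?_⟩
  rcases le_total i i₂ with h | h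
  · have h3 : x i ≤ x i₂ := hmono h
    have h4 : 1 ≤ G := le_trans (one_le_pow₀ (by norm_num : (1 : ℝ) ≤ 2)) hG1
    have h5 : 1 * x i₂ ≤ G * x i₂ := mul_le_mul_of_nonneg_right h4 (hx i₂).le
    linarith
  · have h3 := key (i - i₂) i₂ le_rfl
    rwa [Nat.add_sub_cancel' h] at h3

end Pool.Agent.W_1b8d5d_sc
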