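import Pool.Agent.W_1b8d5d_sc.TDefs
import Pool.Agent.W_1b8d5d_sc.Drop

/-!
MP_1b8d5d_pr (SC, no flat side): THE INTERFACES between the parts.  Every `theorem` of this file is proved by the head of the part in a file of
its own; this file is NOT imported by the final hand-in.
-/

set_option autoImplicit false

namespace Pool.Agent.W_1b8d5d_sc

open Finset Pool.Agent.W_1b8d5d_h85 Pool.Agent.W_1b8d5d_fe

section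

variable {Q : Par} {g : V → ℝ} {c : Crd}

/-- `xs` is at least `1`, nondecreasing and of growth exponent `3 / 4` (from `tc_mean`). -/
theorem xs_basic (hg : IsMean Q g) (hM : HasModels Q g) (hf : FlatS g c) {e : ℝ} (he : 0 < e) (he1 : e ≤ 1 / 3) :
    ∃ C₀ : ℝ, 1 ≤ C₀ ∧ ∀ (N : ℕ) (R : ℝ) (M : Mdl Q.a Q.b), Hor Q g N R M →
      (∀ j, 1 ≤ xs M c e j) ∧ (∀ i j, i ≤ j → j ≤ N → xs M c e i ≤ xs M c e j) ∧
      ∀ j, j ≤ N → xs M c e j ≤ C₀ * ((2 : ℝ) ^ (3 / 4 : ℝ)) ^ j := sorry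

/-- (P1) The mean POSITIVE excess in the middle directions. -/
theorem P1_mean (hg : IsMean Q g) (hM : HasModels Q g) (hf : FlatS g c) {e D : ℝ} (he : 0 < e) (he1 : e ≤ 1 / 3) (hD : 3 ≤ D)
    (hDe : D * e ≤ 2) :
    ∃ C : ℝ, 1 ≤ C ∧ ∀ (N : ℕ) (R : ℝ) (M : Mdl Q.a Q.b) (j : ℕ) (H : ℝ), Hor Q g N R M → 4 * j ≤ N → MH Ag N (xs M c e) j H →
      Fm M c D (2 ^ j) ≤ C * H := sorry

/-- (P1) The tail of the luck of a box. -/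
theorem P1_luck (hg : IsMean Q g) (hM : HasModels Q g) (hf : FlatS g c) {e L : ℝ} (he : 0 < e) (he1 : e ≤ 1 / 3) (hL : 1 ≤ L) :
    ∃ C : ℝ, 1 ≤ C ∧ ∀ (N : ℕ) (R : ℝ) (M : Mdl Q.a Q.b) (j : ℕ) (H y : ℝ), Hor Q g N R M → 16 * j ≤ N → MH Ag N (xs M c e) j H →
      0 < y → M.P (Lk c (L * 2 ^ j) y) ≤ C * (H / y) ^ (20 / 9 : ℝ) := sorry

/-- (P4) The soft base. -/
theorem P4_soft (hg : IsMean Q g) (hM : HasModels Q g) (hf : FlatS g c) {e p : ℝ} (he : 0 < e) (he1 : e ≤ 1 / 3) (hp : 0 < p) :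
    ∃ K : ℝ, 1 ≤ K ∧ Soft Q g c e p K := sorry

/-- (P3) Tubes of summable widths in a window of scales with one budget (potential lemma, chaining, soft base). -/
theorem P3_win (hg : IsMean Q g) (hM : HasModels Q g) (hf : FlatS g c) {e σ₀ K : ℝ} (he : 0 < e) (he1 : e ≤ 1 / 3) (hσ : 0 < σ₀)
    (hK : 1 ≤ K) (hs : Soft Q g c e (1 / 1000) K) :
    ∃ (K' : ℝ) (q₀ s₁ : ℝ → ℕ) (κ : ℝ → ℝ), K ≤ K' ∧ (∀ δ, 0 < δ → 0 < κ δ) ∧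
      ∀ (N : ℕ) (R : ℝ) (M : Mdl Q.a Q.b), Hor Q g N R M → ∀ (δ : ℝ) (j₀ j₁ : ℕ) (B : ℝ), 0 < δ → s₁ δ ≤ j₀ → j₀ ≤ j₁ → 32 * j₁ ≤ N →
        1 ≤ B → B ≤ κ δ * 2 ^ j₀ → (∀ j m, j₀ ≤ j → j ≤ j₁ → j ≤ m → m ≤ N → K' * xs M c e m ≤ Ag ^ (m - j) * B) →
        ∃ b : ℕ → ℝ, (∀ j, j₀ + q₀ δ ≤ j → j ≤ j₁ → 0 ≤ b j ∧ Tub M c σ₀ j (b j) B) ∧ ∑ j ∈ Icc (j₀ + q₀ δ) j₁, b j ≤ δ := sorry

/-- (P5) The increment of the excess from a tube (restarts). -/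
theorem P5_inc (hg : IsMean Q g) (hM : HasModels Q g) (hf : FlatS g c) :
    ∃ (e σ₀ C κ : ℝ) (i₀ : ℕ), 0 < e ∧ e ≤ 1 / 3 ∧ 0 < σ₀ ∧ 0 ≤ C ∧ 0 < κ ∧
      ∀ (N : ℕ) (R : ℝ) (M : Mdl Q.a Q.b), Hor Q g N R M → ∀ (i j : ℕ) (b B H : ℝ), i₀ ≤ i → i < j → 16 * j ≤ N →
        0 ≤ b → 1 ≤ B → Tub M c σ₀ j b B → b ≤ κ * 2 ^ i / 2 ^ j → B ≤ κ * 2 ^ i → MH Ag N (xs M c e) j H →
        xs M c e (i + 1) ≤ xs M c e i + C * (2 ^ i / 2 ^ j + 1 / 2 ^ i) * (B + H) := sorry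

/-- (P7 + P8, assembly) -/
theorem sc_core (hg : IsMean Q g) (hM : HasModels Q g) (hf : FlatS g c) : False := sorry

end

end Pool.Agent.W_1b8d5d_sc
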