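import Pool.Agent.W_1b8d5d_fe.Defs

/-!
MP_1b8d5d_pr (SC, part P3): straight tubes from upper tails of the fronts, by dyadic chaining.

`R α β y z τ` (`α β` integer levels) is the event that the slab `[α, β]` of levels is crossed from a height at least `y` to a
height at most `z` (inside the budget).  This file is about any family of events which is monotone (`hl`, `hr`) and splits at
intermediate levels (`hs`); the heights of the start of the dyadic blocks are deterministic.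
The slab has the length `D 0`, the blocks of depth `i` have the length `D i`, `D i = 2 D (i + 1)` (for example `D i = 2 ^ (j - i)`),
`w i` is the allowance of a block of depth `i`.
-/

set_option autoImplicit false

namespace Pool.Agent.W_1b8d5d_sc

open Finset Pool.Agent.W_1b8d5d_h85 Pool.Agent.W_1b8d5d_fe

/-- The total allowance at the dyadic point `m / 2 ^ q` (at most one block of every scale). -/
def Dw (w : ℕ → ℝ) : ℕ → ℕ → ℝ
  | 0, m => m * w 0
  | q + 1, m => Dw w q (m / 2) + (m % 2 : ℕ) * w (q + 1)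

theorem Dw_zero (w : ℕ → ℝ) (q : ℕ) : Dw w q 0 = 0 := by
  induction q with
  | zero => simp [Dw]
  | succ q ih => simp [Dw, ih]

theorem Dw_even (w : ℕ → ℝ) (q k : ℕ) : Dw w (q + 1) (2 * k) = Dw w q k := by
  simp [Dw]

theorem Dw_odd (w : ℕ → ℝ) (q k : ℕ) : Dw w (q + 1) (2 * k + 1) = Dw w q k + w (q + 1) := by
  have h1 : (2 * k + 1) / 2 = k := by omega
  have h2 : (2 * k + 1) % 2 = 1 := by omega
  simp [Dw, h1, h2]

theorem Dw_nonneg {w : ℕ → ℝ} (hw : ∀ q, 0 ≤ w q) (q m : ℕ) : 0 ≤ Dw w q m := by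
  induction q generalizing m with
  | zero => exact mul_nonneg (Nat.cast_nonneg _) (hw 0)
  | succ q ih => exact add_nonneg (ih _) (mul_nonneg (Nat.cast_nonneg _) (hw _))

/-- The lengths of the blocks. -/
structure Dy (l₀ : ℤ) (Q : ℕ) (D : ℕ → ℤ) : Prop where
  two : ∀ i < Q, D i = 2 * D (i + 1)
  pos : ∀ i ≤ Q, 0 < D i
  low : ∀ i ≤ Q, l₀ ≤ D i

theorem Dy_pow {l₀ : ℤ} {j Q : ℕ} (hQ : Q ≤ j) (h : l₀ ≤ 2 ^ (j - Q)) : Dy l₀ Q fun i => 2 ^ (j - i) where
  two := fun i hi => by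
    have h1 : j - i = j - (i + 1) + 1 := by omega
    rw [h1, pow_succ]
    ring
  pos := fun i _ => by positivity
  low := fun i hi => h.trans (pow_le_pow_right₀ (by norm_num) (by omega))

theorem Dy.mul_pow {l₀ : ℤ} {Q : ℕ} {D : ℕ → ℤ} (h : Dy l₀ Q D) {i : ℕ} (hi : i ≤ Q) : 2 ^ i * D i = D 0 := by
  induction i with
  | zero => simp
  | succ i ih =>
    rw [← ih (by omega), h.two i (by omega), pow_succ]
    ring

theorem Dy.castR {l₀ : ℤ} {Q : ℕ} {D : ℕ → ℤ} (h : Dy l₀ Q D) {i : ℕ} (hi : i < Q) : (D i : ℝ) = 2 * D (i + 1) := by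
  rw [h.two i hi]
  push_cast
  ring

/-- The allowance against a straight line. -/
theorem Dw_le {l₀ : ℤ} {Q : ℕ} {D : ℕ → ℤ} (hD : Dy l₀ Q D) {w : ℕ → ℝ} {σ : ℝ} {v : ℕ → ℝ} (hv : ∀ q ≤ Q, 0 ≤ v q)
    (h : ∀ q ≤ Q, w q ≤ σ * D q + v q) :
    ∀ q ≤ Q, ∀ m : ℕ, m ≤ 2 ^ q → Dw w q m ≤ σ * (m * D q) + ∑ i ∈ range (q + 1), v i := by
  intro q
  induction q with
  | zero =>
    intro hq m hm
    simp only [pow_zero] at hm
    have hm' : m = 0 ∨ m = 1 := by omega
    rcases hm' with rfl | rfl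
    · simp only [Dw, Nat.cast_zero, zero_mul, mul_zero, zero_add, range_one, sum_singleton]
      exact hv 0 hq
    · have h0 := h 0 hq
      simp only [Dw, Nat.cast_one, one_mul, zero_add, range_one, sum_singleton]
      exact h0
  | succ q ih =>
    intro hq m hm
    have hc := hD.castR (i := q) (by omega)
    rcases Nat.even_or_odd' m with ⟨k, rfl | rfl⟩
    · have hk : k ≤ 2 ^ q := by
        rw [pow_succ] at hm
        omega
      rw [Dw_even, sum_range_succ _ (q + 1)]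
      have h1 := ih (by omega) k hk
      have h2 : ((2 * k : ℕ) : ℝ) * (D (q + 1) : ℝ) = k * D q := by
        rw [hc]
        push_cast
        ring
      rw [h2]
      have := hv (q + 1) hq
      linarith
    · have hk : k ≤ 2 ^ q := by
        rw [pow_succ] at hm
        omega
      rw [Dw_odd, sum_range_succ _ (q + 1)]
      have h1 := ih (by omega) k hk
      have h2 : ((2 * k + 1 : ℕ) : ℝ) * (D (q + 1) : ℝ) = k * D q + D (q + 1) := by
        rw [hc]
        push_cast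
        ring
      rw [h2, mul_add]
      have := h (q + 1) hq
      linarith

section det

variable {R : ℤ → ℤ → ℝ → ℝ → Prop} {κ : ℝ} {l₀ : ℤ}

/-- Forward chaining. -/
theorem chain_fwd (hl : ∀ α β y y' z, y' ≤ y → R α β y z → R α β y' z)
    (hs : ∀ α γ β y z h, α + l₀ ≤ γ → γ + l₀ ≤ β → R α β y z → R α γ y h ∨ R γ β (h - κ) z) (hκ : 0 ≤ κ)
    (w : ℕ → ℝ) {α : ℤ} {y : ℝ} {Q : ℕ} {D : ℕ → ℤ} (hD : Dy l₀ Q D) :
    ∀ q ≤ Q, ∀ m : ℕ, 1 ≤ m → m ≤ 2 ^ q → R α (α + m * D q) y (y - Dw w q m) →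
      ∃ i ≤ q, ∃ k : ℕ, k < 2 ^ i ∧ R (α + k * D i) (α + k * D i + D i) (y - Dw w i k - κ) (y - Dw w i k - w i) := by
  intro q
  induction q with
  | zero =>
    intro hq m hm1 hm2 hR
    simp only [pow_zero] at hm2
    have hm' : m = 1 := by omega
    subst hm'
    refine ⟨0, le_rfl, 0, by simp, ?_⟩
    have h1 : Dw w 0 1 = w 0 := by simp [Dw]
    rw [h1] at hR
    simp only [Nat.cast_zero, zero_mul, add_zero, Nat.cast_one, one_mul, Dw_zero, sub_zero] at hR ⊢
    exact hl _ _ _ _ _ (by linarith) hR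
  | succ q ih =>
    intro hq m hm1 hm2 hR
    have hc := hD.two q (by omega)
    rcases Nat.even_or_odd' m with ⟨k, rfl | rfl⟩
    · have hk : k ≤ 2 ^ q := by
        rw [pow_succ] at hm2
        omega
      have h2 : ((2 * k : ℕ) : ℤ) * D (q + 1) = k * D q := by
        rw [hc]
        push_cast
        ring
      rw [Dw_even, h2] at hR
      obtain ⟨i, hi, j, hj, h3⟩ := ih (by omega) k (by omega) hk hR
      exact ⟨i, by omega, j, hj, h3⟩
    · have hk : k < 2 ^ q := by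
        rw [pow_succ] at hm2
        omega
      have h2 : ((2 * k : ℕ) : ℤ) * D (q + 1) = k * D q := by
        rw [hc]
        push_cast
        ring
      have h3 : ((2 * k + 1 : ℕ) : ℤ) * D (q + 1) = ((2 * k : ℕ) : ℤ) * D (q + 1) + D (q + 1) := by
        push_cast
        ring
      rw [Dw_odd, h3] at hR
      have hlast : R (α + ((2 * k : ℕ) : ℤ) * D (q + 1)) (α + ((2 * k : ℕ) : ℤ) * D (q + 1) + D (q + 1))
          (y - Dw w q k - κ) (y - (Dw w q k + w (q + 1))) →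
          ∃ i ≤ q + 1, ∃ k : ℕ, k < 2 ^ i ∧ R (α + k * D i) (α + k * D i + D i) (y - Dw w i k - κ)
            (y - Dw w i k - w i) := by
        intro h4
        refine ⟨q + 1, le_rfl, 2 * k, by rw [pow_succ]; omega, ?_⟩
        rw [Dw_even]
        have e1 : y - Dw w q k - w (q + 1) = y - (Dw w q k + w (q + 1)) := by ring
        rw [e1]
        exact h4
      rcases Nat.eq_zero_or_pos k with h | h
      · subst h
        apply hlast
        rw [Dw_zero] at hR ⊢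
        simp only [mul_zero, Nat.cast_zero, zero_mul, add_zero, zero_add, sub_zero] at hR ⊢
        exact hl _ _ _ _ _ (by linarith) hR
      · have h5 : 1 * D q ≤ k * D q :=
          mul_le_mul_of_nonneg_right (by exact_mod_cast h) (hD.pos q (by omega)).le
        have h6 := hD.low q (by omega)
        have h7 := hD.low (q + 1) hq
        rcases hs α (α + ((2 * k : ℕ) : ℤ) * D (q + 1)) (α + (((2 * k : ℕ) : ℤ) * D (q + 1) + D (q + 1))) y
          (y - (Dw w q k + w (q + 1))) (y - Dw w q k) (by rw [h2]; linarith) (by linarith) hR with h4 | h4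
        · rw [h2] at h4
          obtain ⟨i, hi, j, hj, h3⟩ := ih (by omega) k h hk.le h4
          exact ⟨i, by omega, j, hj, h3⟩
        · apply hlast
          rw [add_assoc]
          exact h4

/-- Backward chaining. -/
theorem chain_bwd (hr : ∀ α β y z z', z ≤ z' → R α β y z → R α β y z')
    (hs : ∀ α γ β y z h, α + l₀ ≤ γ → γ + l₀ ≤ β → R α β y z → R α γ y h ∨ R γ β (h - κ) z) (hκ : 0 ≤ κ)
    (w : ℕ → ℝ) {β : ℤ} {z : ℝ} {Q : ℕ} {D : ℕ → ℤ} (hD : Dy l₀ Q D) :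
    ∀ q ≤ Q, ∀ m : ℕ, 1 ≤ m → m ≤ 2 ^ q → R (β - m * D q) β (z + Dw w q m) z →
      ∃ i ≤ q, ∃ k : ℕ, k < 2 ^ i ∧ R (β - k * D i - D i) (β - k * D i) (z + Dw w i k + w i) (z + Dw w i k + κ) := by
  intro q
  induction q with
  | zero =>
    intro hq m hm1 hm2 hR
    simp only [pow_zero] at hm2
    have hm' : m = 1 := by omega
    subst hm'
    refine ⟨0, le_rfl, 0, by simp, ?_⟩
    have h1 : Dw w 0 1 = w 0 := by simp [Dw]
    rw [h1] at hR
    simp only [Nat.cast_zero, zero_mul, sub_zero, Nat.cast_one, one_mul, Dw_zero, add_zero] at hR ⊢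
    exact hr _ _ _ _ _ (by linarith) hR
  | succ q ih =>
    intro hq m hm1 hm2 hR
    have hc := hD.two q (by omega)
    rcases Nat.even_or_odd' m with ⟨k, rfl | rfl⟩
    · have hk : k ≤ 2 ^ q := by
        rw [pow_succ] at hm2
        omega
      have h2 : ((2 * k : ℕ) : ℤ) * D (q + 1) = k * D q := by
        rw [hc]
        push_cast
        ring
      rw [Dw_even, h2] at hR
      obtain ⟨i, hi, j, hj, h3⟩ := ih (by omega) k (by omega) hk hR
      exact ⟨i, by omega, j, hj, h3⟩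
    · have hk : k < 2 ^ q := by
        rw [pow_succ] at hm2
        omega
      have h2 : ((2 * k : ℕ) : ℤ) * D (q + 1) = k * D q := by
        rw [hc]
        push_cast
        ring
      have h3 : ((2 * k + 1 : ℕ) : ℤ) * D (q + 1) = ((2 * k : ℕ) : ℤ) * D (q + 1) + D (q + 1) := by
        push_cast
        ring
      rw [Dw_odd, h3] at hR
      have hlast : R (β - ((2 * k : ℕ) : ℤ) * D (q + 1) - D (q + 1)) (β - ((2 * k : ℕ) : ℤ) * D (q + 1))
          (z + (Dw w q k + w (q + 1))) (z + Dw w q k + κ) →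
          ∃ i ≤ q + 1, ∃ k : ℕ, k < 2 ^ i ∧ R (β - k * D i - D i) (β - k * D i) (z + Dw w i k + w i)
            (z + Dw w i k + κ) := by
        intro h4
        refine ⟨q + 1, le_rfl, 2 * k, by rw [pow_succ]; omega, ?_⟩
        rw [Dw_even]
        have e1 : z + Dw w q k + w (q + 1) = z + (Dw w q k + w (q + 1)) := by ring
        rw [e1]
        exact h4
      rcases Nat.eq_zero_or_pos k with h | h
      · subst h
        apply hlast
        rw [Dw_zero] at hR ⊢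
        simp only [mul_zero, Nat.cast_zero, zero_mul, add_zero, zero_add, sub_zero] at hR ⊢
        exact hr _ _ _ _ _ (by linarith) hR
      · have h5 : 1 * D q ≤ k * D q :=
          mul_le_mul_of_nonneg_right (by exact_mod_cast h) (hD.pos q (by omega)).le
        have h6 := hD.low q (by omega)
        have h7 := hD.low (q + 1) hq
        rcases hs (β - (((2 * k : ℕ) : ℤ) * D (q + 1) + D (q + 1))) (β - ((2 * k : ℕ) : ℤ) * D (q + 1)) β
          (z + (Dw w q k + w (q + 1))) z (z + Dw w q k + κ)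
          (by linarith) (by rw [h2]; linarith) hR with h4 | h4
        · apply hlast
          rw [sub_sub]
          exact h4
        · rw [h2, add_sub_cancel_right] at h4
          obtain ⟨i, hi, j, hj, h3⟩ := ih (by omega) k h hk.le h4
          exact ⟨i, by omega, j, hj, h3⟩

/-- The points (level `ℓ`, height `h`) of a path which crosses the slab `[α, α + D 0]` from `y` to `z` lie in a straight tube of
slope `-σ`. -/
theorem tube_det (hr : ∀ α β y z z', z ≤ z' → R α β y z → R α β y z') (hl : ∀ α β y y' z, y' ≤ y → R α β y z → R α β y' z)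
    (w : ℕ → ℝ) {v : ℕ → ℝ} {α : ℤ} {y z σ C₁ B : ℝ} {Q : ℕ} {D : ℕ → ℤ} (hD : Dy l₀ Q D) (hC₁ : 0 ≤ C₁) (hB : 0 ≤ B)
    (hv : ∀ q ≤ Q, 0 ≤ v q) (hw : ∀ q ≤ Q, w q ≤ σ * D q + v q)
    (hf : ∀ m : ℕ, 1 ≤ m → m ≤ 2 ^ Q → ¬ R α (α + m * D Q) y (y - Dw w Q m))
    (hb : ∀ m : ℕ, 1 ≤ m → m ≤ 2 ^ Q → ¬ R (α + D 0 - m * D Q) (α + D 0) (z + Dw w Q m) z)
    {ℓ : ℤ} {h : ℝ} (h0 : α ≤ ℓ) (h1 : (ℓ : ℝ) ≤ α + D 0 + B)
    (v0 : y - C₁ * (ℓ - α + B) ≤ h) (v3 : h ≤ z + C₁ * (|(α : ℝ) + D 0 - ℓ| + B))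
    (v1 : ∀ γ : ℤ, α + l₀ ≤ γ → γ ≤ ℓ → γ ≤ α + D 0 → R α γ y (h + C₁ * (ℓ - γ + B)))
    (v2 : ∀ γ : ℤ, α ≤ γ → γ + l₀ ≤ α + D 0 → ℓ ≤ γ → R γ (α + D 0) (h - C₁ * (γ - ℓ + B)) z) :
    y - σ * (ℓ - α) - (∑ i ∈ range (Q + 1), v i + (C₁ + |σ|) * (D Q + 2 * B)) ≤ h ∧
      h ≤ z + σ * (α + D 0 - ℓ) + (∑ i ∈ range (Q + 1), v i + (C₁ + |σ|) * (D Q + 2 * B)) := by
  have hd : (0 : ℝ) < D Q := by exact_mod_cast hD.pos Q le_rfl
  have hdZ := hD.pos Q le_rfl
  have hlow := hD.low Q le_rfl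
  have hsZ : D 0 = 2 ^ Q * D Q := (hD.mul_pow le_rfl).symm
  obtain ⟨dz, hdz⟩ : ∃ dz : ℤ, dz = D Q := ⟨_, rfl⟩
  rw [← hdz] at hd hdZ hlow hsZ ⊢
  obtain ⟨d, hdd⟩ : ∃ d : ℝ, d = dz := ⟨_, rfl⟩
  have hs' : ((D 0 : ℤ) : ℝ) = 2 ^ Q * d := by
    rw [hsZ, hdd]
    push_cast
    ring
  rw [← hdd] at hd ⊢
  have h0R : (α : ℝ) ≤ ℓ := by exact_mod_cast h0
  have hσ0 : 0 ≤ |σ| := abs_nonneg _
  have hV : 0 ≤ ∑ i ∈ range (Q + 1), v i := sum_nonneg fun i hi => hv i (by
    have := mem_range.1 hi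
    omega)
  have key : ∀ x : ℝ, |x| ≤ d + B → |σ * x| ≤ |σ| * (d + B) := by
    intro x hx
    rw [abs_mul]
    exact mul_le_mul_of_nonneg_left hx hσ0
  constructor
  · -- the last dyadic level before
    obtain ⟨m, hm1, hm2, hm3⟩ : ∃ m : ℕ, m ≤ 2 ^ Q ∧ (α : ℝ) + m * d ≤ ℓ ∧ (ℓ : ℝ) ≤ α + m * d + (d + B) := by
      obtain ⟨n, hn⟩ : ∃ n : ℕ, n = ⌊((ℓ : ℝ) - α) / d⌋₊ := ⟨_, rfl⟩
      have e1 : (n : ℝ) ≤ ((ℓ : ℝ) - α) / d := by
        rw [hn]
        exact Nat.floor_le (div_nonneg (by linarith) hd.le)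
      have e2 : ((ℓ : ℝ) - α) / d < n + 1 := by
        rw [hn]
        exact Nat.lt_floor_add_one _
      rw [le_div_iff₀ hd] at e1
      rw [div_lt_iff₀ hd] at e2
      by_cases hc : n ≤ 2 ^ Q
      · exact ⟨n, hc, by linarith, by linarith⟩
      · push Not at hc
        have e3 : ((2 ^ Q : ℕ) : ℝ) * d ≤ n * d := mul_le_mul_of_nonneg_right (by exact_mod_cast hc.le) hd.le
        refine ⟨2 ^ Q, le_rfl, by linarith, ?_⟩
        push_cast
        rw [← hs']
        linarith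
    rcases Nat.eq_zero_or_pos m with hm | hm
    · subst hm
      simp only [Nat.cast_zero, zero_mul, add_zero] at hm2 hm3
      have e1 := (abs_le.1 (key (ℓ - α) (abs_le.2 ⟨by linarith, by linarith⟩))).1
      have e2 : C₁ * (ℓ - α + B) ≤ C₁ * (d + 2 * B) := mul_le_mul_of_nonneg_left (by linarith) hC₁
      have e3 : |σ| * (d + B) ≤ |σ| * (d + 2 * B) := mul_le_mul_of_nonneg_left (by linarith) hσ0
      rw [add_mul]
      linarith
    · have e1 := hf m hm hm1
      rw [← hdz] at e1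
      have hmZ : ((m : ℤ) : ℝ) = m := by push_cast; rfl
      have e3 : (((α + m * dz : ℤ)) : ℝ) = α + m * d := by
        push_cast
        rw [hdd]
      have e2 : α + m * dz ≤ ℓ := by
        have : ((α + m * dz : ℤ) : ℝ) ≤ (ℓ : ℝ) := by rw [e3]; exact hm2
        exact_mod_cast this
      have e4 : 1 * dz ≤ m * dz := mul_le_mul_of_nonneg_right (by exact_mod_cast hm) hdZ.le
      have e5 : (m : ℤ) * dz ≤ 2 ^ Q * dz := mul_le_mul_of_nonneg_right (by exact_mod_cast hm1) hdZ.le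
      have e6 := v1 (α + m * dz) (by linarith) e2 (by rw [hsZ]; linarith)
      rw [e3] at e6
      have e7 : y - Dw w Q m < h + C₁ * (ℓ - (α + m * d) + B) := by
        by_contra hcon
        push Not at hcon
        exact e1 (hr _ _ _ _ _ hcon e6)
      have e8 := Dw_le hD hv hw Q le_rfl m hm1
      rw [← hdz, ← hdd] at e8
      have e9 : C₁ * (ℓ - (α + m * d) + B) ≤ C₁ * (d + 2 * B) := mul_le_mul_of_nonneg_left (by linarith) hC₁
      have e10 := (abs_le.1 (key (ℓ - α - m * d) (abs_le.2 ⟨by linarith, by linarith⟩))).1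
      have e11 : |σ| * (d + B) ≤ |σ| * (d + 2 * B) := mul_le_mul_of_nonneg_left (by linarith) hσ0
      have e12 : σ * (ℓ - α - m * d) = σ * (ℓ - α) - σ * (m * d) := by ring
      rw [add_mul]
      linarith
  · -- the first dyadic level after
    by_cases hc : (α : ℝ) + D 0 ≤ ℓ
    · have e0 : |(α : ℝ) + D 0 - ℓ| ≤ B := abs_le.2 ⟨by linarith, by linarith⟩
      have e1 := (abs_le.1 (key ((α : ℝ) + D 0 - ℓ) (by linarith))).1
      have e2 : C₁ * (|(α : ℝ) + D 0 - ℓ| + B) ≤ C₁ * (d + 2 * B) := mul_le_mul_of_nonneg_left (by linarith) hC₁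
      have e3 : |σ| * (d + B) ≤ |σ| * (d + 2 * B) := mul_le_mul_of_nonneg_left (by linarith) hσ0
      rw [add_mul]
      linarith
    · push Not at hc
      obtain ⟨m, hm1, hm2, hm3⟩ : ∃ m : ℕ, m ≤ 2 ^ Q ∧ (ℓ : ℝ) ≤ α + D 0 - m * d ∧ (α : ℝ) + D 0 - m * d ≤ ℓ + d := by
        obtain ⟨n, hn⟩ : ∃ n : ℕ, n = ⌊((α : ℝ) + D 0 - ℓ) / d⌋₊ := ⟨_, rfl⟩
        have e1 : (n : ℝ) ≤ ((α : ℝ) + D 0 - ℓ) / d := by
          rw [hn]
          exact Nat.floor_le (div_nonneg (by linarith) hd.le)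
        have e2 : ((α : ℝ) + D 0 - ℓ) / d < n + 1 := by
          rw [hn]
          exact Nat.lt_floor_add_one _
        rw [le_div_iff₀ hd] at e1
        rw [div_lt_iff₀ hd] at e2
        refine ⟨n, ?_, by linarith, by linarith⟩
        have e3 : (n : ℝ) * d ≤ 2 ^ Q * d := by
          rw [← hs']
          linarith
        have e4 := le_of_mul_le_mul_right e3 hd
        exact_mod_cast e4
      rcases Nat.eq_zero_or_pos m with hm | hm
      · subst hm
        simp only [Nat.cast_zero, zero_mul, sub_zero] at hm2 hm3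
        have e0 : |(α : ℝ) + D 0 - ℓ| ≤ d := abs_le.2 ⟨by linarith, by linarith⟩
        have e1 := (abs_le.1 (key ((α : ℝ) + D 0 - ℓ) (by linarith))).1
        have e2 : C₁ * (|(α : ℝ) + D 0 - ℓ| + B) ≤ C₁ * (d + 2 * B) := mul_le_mul_of_nonneg_left (by linarith) hC₁
        have e3 : |σ| * (d + B) ≤ |σ| * (d + 2 * B) := mul_le_mul_of_nonneg_left (by linarith) hσ0
        rw [add_mul]
        linarith
      · have e1 := hb m hm hm1
        rw [← hdz] at e1
        have e3 : (((α + D 0 - m * dz : ℤ)) : ℝ) = α + D 0 - m * d := by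
          push_cast
          rw [hdd]
        have e2 : ℓ ≤ α + D 0 - m * dz := by
          have : (ℓ : ℝ) ≤ ((α + D 0 - m * dz : ℤ) : ℝ) := by rw [e3]; exact hm2
          exact_mod_cast this
        have e4 : 1 * dz ≤ m * dz := mul_le_mul_of_nonneg_right (by exact_mod_cast hm) hdZ.le
        have e5 : (m : ℤ) * dz ≤ 2 ^ Q * dz := mul_le_mul_of_nonneg_right (by exact_mod_cast hm1) hdZ.le
        have e6 := v2 (α + D 0 - m * dz) (by rw [hsZ]; linarith) (by linarith) e2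
        rw [e3] at e6
        have e7 : h - C₁ * (α + D 0 - m * d - ℓ + B) < z + Dw w Q m := by
          by_contra hcon
          push Not at hcon
          exact e1 (hl _ _ _ _ _ hcon e6)
        have e8 := Dw_le hD hv hw Q le_rfl m hm1
        rw [← hdz, ← hdd] at e8
        have e9 : C₁ * (α + D 0 - m * d - ℓ + B) ≤ C₁ * (d + 2 * B) := mul_le_mul_of_nonneg_left (by linarith) hC₁
        have e10 := (abs_le.1 (key ((α : ℝ) + D 0 - ℓ - m * d) (abs_le.2 ⟨by linarith, by linarith⟩))).1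
        have e11 : |σ| * (d + B) ≤ |σ| * (d + 2 * B) := mul_le_mul_of_nonneg_left (by linarith) hσ0
        have e12 : σ * ((α : ℝ) + D 0 - ℓ - m * d) = σ * (α + D 0 - ℓ) - σ * (m * d) := by ring
        rw [add_mul]
        linarith

end det

/-- The probability that one of the dyadic levels is reached too low (forward) or left too high (backward): every event is
a crossing of one block of depth `i` from a deterministic height `h` to `h + κ - w i`. -/
theorem tube_prob {a b : ℝ} (M : Mdl a b) {R : ℤ → ℤ → ℝ → ℝ → Env → Prop} {κ : ℝ} {l₀ : ℤ}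
    (hl : ∀ τ, Bd a b τ → ∀ α β y y' z, y' ≤ y → R α β y z τ → R α β y' z τ)
    (hr : ∀ τ, Bd a b τ → ∀ α β y z z', z ≤ z' → R α β y z τ → R α β y z' τ)
    (hs : ∀ τ, Bd a b τ → ∀ α γ β y z h, α + l₀ ≤ γ → γ + l₀ ≤ β → R α β y z τ → R α γ y h τ ∨ R γ β (h - κ) z τ)
    (hκ : 0 ≤ κ) (w : ℕ → ℝ) {α : ℤ} {y z : ℝ} {Q : ℕ} {D : ℕ → ℤ} (hD : Dy l₀ Q D) {p : ℕ → ℝ}
    (hp : ∀ i ≤ Q, ∀ (γ : ℤ) (h : ℝ), M.P (R γ (γ + D i) h (h + κ - w i)) ≤ p i) :
    M.P (fun τ => (∃ m : ℕ, 1 ≤ m ∧ m ≤ 2 ^ Q ∧ R α (α + m * D Q) y (y - Dw w Q m) τ) ∨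
      ∃ m : ℕ, 1 ≤ m ∧ m ≤ 2 ^ Q ∧ R (α + D 0 - m * D Q) (α + D 0) (z + Dw w Q m) z τ) ≤
      2 * ∑ i ∈ range (Q + 1), 2 ^ i * p i := by
  have hfw : M.P (fun τ => ∃ m : ℕ, 1 ≤ m ∧ m ≤ 2 ^ Q ∧ R α (α + m * D Q) y (y - Dw w Q m) τ) ≤
      ∑ i ∈ range (Q + 1), 2 ^ i * p i := by
    have h1 : M.P (fun τ => ∃ m : ℕ, 1 ≤ m ∧ m ≤ 2 ^ Q ∧ R α (α + m * D Q) y (y - Dw w Q m) τ) ≤
        M.P (fun τ => ∃ i ∈ range (Q + 1), ∃ k ∈ range (2 ^ i), R (α + k * D i) (α + k * D i + D i)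
          (y - Dw w i k - κ) (y - Dw w i k - w i) τ) := by
      refine M.P_mono fun τ hτ => ?_
      rintro ⟨m, hm1, hm2, hm3⟩
      obtain ⟨i, hi, k, hk, h2⟩ := chain_fwd (R := fun α β y z => R α β y z τ) (hl τ hτ) (hs τ hτ) hκ w hD Q le_rfl m hm1 hm2 hm3
      exact ⟨i, Finset.mem_range.2 (by omega), k, Finset.mem_range.2 hk, h2⟩
    refine h1.trans ((M.P_exists_le _ _).trans (Finset.sum_le_sum fun i hi => ?_))
    have hi' : i ≤ Q := by
      have := Finset.mem_range.1 hi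
      omega
    refine (M.P_exists_le _ _).trans ?_
    have h2 : ∀ k ∈ range (2 ^ i), M.P (R (α + k * D i) (α + k * D i + D i)
        (y - Dw w i k - κ) (y - Dw w i k - w i)) ≤ p i := by
      intro k _
      have h9 := hp i hi' (α + k * D i) (y - Dw w i k - κ)
      have e1 : y - Dw w i k - κ + κ - w i = y - Dw w i k - w i := by ring
      rw [e1] at h9
      exact h9
    refine (Finset.sum_le_sum h2).trans (le_of_eq ?_)
    rw [Finset.sum_const, Finset.card_range, nsmul_eq_mul]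
    push_cast
    ring
  have hbw : M.P (fun τ => ∃ m : ℕ, 1 ≤ m ∧ m ≤ 2 ^ Q ∧ R (α + D 0 - m * D Q) (α + D 0) (z + Dw w Q m) z τ) ≤
      ∑ i ∈ range (Q + 1), 2 ^ i * p i := by
    have h1 : M.P (fun τ => ∃ m : ℕ, 1 ≤ m ∧ m ≤ 2 ^ Q ∧ R (α + D 0 - m * D Q) (α + D 0) (z + Dw w Q m) z τ) ≤
        M.P (fun τ => ∃ i ∈ range (Q + 1), ∃ k ∈ range (2 ^ i), R (α + D 0 - k * D i - D i) (α + D 0 - k * D i)
          (z + Dw w i k + w i) (z + Dw w i k + κ) τ) := by
      refine M.P_mono fun τ hτ => ?_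
      rintro ⟨m, hm1, hm2, hm3⟩
      obtain ⟨i, hi, k, hk, h2⟩ := chain_bwd (R := fun α β y z => R α β y z τ) (hr τ hτ) (hs τ hτ) hκ w hD Q le_rfl m hm1 hm2 hm3
      exact ⟨i, Finset.mem_range.2 (by omega), k, Finset.mem_range.2 hk, h2⟩
    refine h1.trans ((M.P_exists_le _ _).trans (Finset.sum_le_sum fun i hi => ?_))
    have hi' : i ≤ Q := by
      have := Finset.mem_range.1 hi
      omega
    refine (M.P_exists_le _ _).trans ?_
    have h2 : ∀ k ∈ range (2 ^ i), M.P (R (α + D 0 - k * D i - D i) (α + D 0 - k * D i)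
        (z + Dw w i k + w i) (z + Dw w i k + κ)) ≤ p i := by
      intro k _
      have h9 := hp i hi' (α + D 0 - k * D i - D i) (z + Dw w i k + w i)
      have e1 : z + Dw w i k + w i + κ - w i = z + Dw w i k + κ := by ring
      have e2 : α + D 0 - k * D i - D i + D i = α + D 0 - k * D i := by ring
      rw [e1, e2] at h9
      exact h9
    refine (Finset.sum_le_sum h2).trans (le_of_eq ?_)
    rw [Finset.sum_const, Finset.card_range, nsmul_eq_mul]
    push_cast
    ring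
  have h := M.P_or (fun τ => ∃ m : ℕ, 1 ≤ m ∧ m ≤ 2 ^ Q ∧ R α (α + m * D Q) y (y - Dw w Q m) τ)
    (fun τ => ∃ m : ℕ, 1 ≤ m ∧ m ≤ 2 ^ Q ∧ R (α + D 0 - m * D Q) (α + D 0) (z + Dw w Q m) z τ)
  linarith

end Pool.Agent.W_1b8d5d_sc
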