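import Pool.Agent.W_1b8d5d_sc.FLow
import Pool.Agent.W_1b8d5d_fe.SlowA

/-!
MP_1b8d5d_pr (SC, part P4, (upper)): the front does not go outward by a fixed proportion (if the budget is small compared with the length).
-/

set_option autoImplicit false

namespace Pool.Agent.W_1b8d5d_sc

open Finset Pool.Agent.W_1b8d5d_h85 Pool.Agent.W_1b8d5d_fe

/-- Deterministic part. -/
theorem upper_det {Q : Par} {g : V → ℝ} {c : Crd} (hf : FlatS g c) (Λ : Lev Q.a c) {δ : ℝ} (hδ : 0 < δ) :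
    ∃ κ s₀ : ℝ, 0 < κ ∧ 1 ≤ s₀ ∧ ∀ (t : ℤ) (B : ℝ) (τ : Env), s₀ ≤ t → 0 ≤ B → B ≤ κ * t → Bd Q.a Q.b τ →
      Ov g ((t : ℝ) ^ 2) t τ → G0 Λ B t τ < δ * t := by
  have hC := c.one_le
  have hC0 : 0 < c.C := by linarith
  have ha := Q.ha
  have hk := Λ.kap_pos
  obtain ⟨D, hD⟩ : ∃ D : ℝ, D = 2 / Q.a * (Λ.kap + 1) := ⟨_, rfl⟩
  have hD0 : 0 < D := by rw [hD]; positivity
  obtain ⟨c₀, hc₀, hbar⟩ := hf.bar (δ / 2 / D) (by positivity)
  obtain ⟨e, he⟩ : ∃ e : ℝ, e = c₀ * (δ / 2) / c.C := ⟨_, rfl⟩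
  have he0 : 0 < e := by rw [he]; positivity
  obtain ⟨C₃, hC₃⟩ : ∃ C₃ : ℝ, C₃ = 2 * c.C * (Λ.kap + 2 * (1 + c.C * D)) := ⟨_, rfl⟩
  obtain ⟨s₁, hs₁, h1⟩ := pow_large (4 / e * (1 + D)) (by norm_num : (3 / 5 : ℝ) < 1)
  refine ⟨min 1 (e / 4), max s₁ C₃, by positivity, hs₁.trans (le_max_left _ _), ?_⟩
  intro t B τ ht hB hBt hτ hOv
  have ht1 : s₁ ≤ t := (le_max_left _ _).trans ht
  have ht3 : C₃ ≤ t := (le_max_right _ _).trans ht
  have ht0 : (1 : ℝ) ≤ t := hs₁.trans ht1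
  have htp : (0 : ℝ) < t := by linarith
  have hB1 : B ≤ t := hBt.trans (by
    calc min 1 (e / 4) * t ≤ 1 * t := mul_le_mul_of_nonneg_right (min_le_left _ _) htp.le
      _ = t := one_mul _)
  have hBe : B ≤ e / 4 * t := hBt.trans (mul_le_mul_of_nonneg_right (min_le_right _ _) htp.le)
  have key : -(δ / 2 * t) ≤ low Λ τ B 0 t 0 := by
    refine le_low ?_ ?_
    · have : 0 ≤ δ / 2 * t := by positivity
      push_cast
      linarith
    intro x y w e1 e2 e3 e4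
    by_contra hlt
    push Not at hlt
    have hx := e1 x w.start_mem_support
    have hy := e1 y w.end_mem_support
    -- the norms
    have hwd : Λ.wd B t ≤ (1 + c.C * D) * t := by
      have f1 : Λ.kap * (t : ℝ) + B ≤ (Λ.kap + 1) * t := by linarith
      have f2 : 2 * c.C / Q.a * (Λ.kap * t + B) ≤ 2 * c.C / Q.a * ((Λ.kap + 1) * t) :=
        mul_le_mul_of_nonneg_left f1 (by positivity)
      have f3 : 2 * c.C / Q.a * ((Λ.kap + 1) * t) = c.C * D * t := by rw [hD]; ring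
      unfold Lev.wd Lev.dsp
      linarith
    have hnm : ∀ z : V, z ∈ Bx Λ B 0 t 0 → nm z ≤ (t : ℝ) ^ 2 := by
      rintro z ⟨⟨f1, f2⟩, f3⟩
      have f4 : |(Λ.xi z : ℝ)| ≤ t := by
        have g1 : (0 : ℝ) < Λ.xi z := by exact_mod_cast f1
        have g2 : (Λ.xi z : ℝ) < t := by
          have : Λ.xi z < t := by omega
          exact_mod_cast this
        rw [abs_of_pos g1]
        exact g2.le
      have f5 : |c.q z| ≤ (1 + c.C * D) * t := by
        have := f3.trans hwd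
        rwa [sub_zero] at this
      have f6 := Λ.nm_le_q z
      have f7 : Λ.kap * |(Λ.xi z : ℝ)| ≤ Λ.kap * t := mul_le_mul_of_nonneg_left f4 hk.le
      have f8 : 2 * c.C * (Λ.kap * |(Λ.xi z : ℝ)| + 2 * |c.q z|) ≤ 2 * c.C * (Λ.kap * t + 2 * ((1 + c.C * D) * t)) :=
        mul_le_mul_of_nonneg_left (by linarith) (by positivity)
      have f9 : 2 * c.C * (Λ.kap * t + 2 * ((1 + c.C * D) * t)) = C₃ * t := by rw [hC₃]; ring
      have f10 : C₃ * t ≤ t * t := mul_le_mul_of_nonneg_right ht3 htp.le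
      have f11 : (t : ℝ) * t = t ^ 2 := by ring
      linarith
    have hdiff : nm (y - x) ≤ D * t := by
      have f1 := e2.nm_le_xi Λ ha hτ
      have f2 : ((Λ.xi y - Λ.xi x : ℤ) : ℝ) ≤ t := by
        have g1 := hx.1.1
        have g2 := hy.1.2
        have : Λ.xi y - Λ.xi x ≤ t := by omega
        exact_mod_cast this
      have f3 : Λ.kap * ((Λ.xi y - Λ.xi x : ℤ) : ℝ) ≤ Λ.kap * t := mul_le_mul_of_nonneg_left f2 hk.le
      have f4 : 2 / Q.a * (Λ.kap * ((Λ.xi y - Λ.xi x : ℤ) : ℝ) + B) ≤ 2 / Q.a * ((Λ.kap + 1) * t) :=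
        mul_le_mul_of_nonneg_left (by linarith) (by positivity)
      have f5 : 2 / Q.a * ((Λ.kap + 1) * t) = D * t := by rw [hD]; ring
      linarith
    have hq : c.q (y - x) < -(δ / 2 * t) := by
      rw [map_sub]
      linarith
    have hb := hbar (y - x) (by
      refine le_trans ?_ (le_max_right _ _)
      have f1 : δ / 2 / D * nm (y - x) ≤ δ / 2 / D * (D * t) := mul_le_mul_of_nonneg_left hdiff (by positivity)
      have f2 : δ / 2 / D * (D * t) = δ / 2 * t := by field_simp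
      linarith)
    have hn2 : δ / 2 * t ≤ c.C * nm (y - x) := by
      have f1 := c.q_le (y - x)
      have f2 := neg_abs_le (c.q (y - x))
      linarith
    have hn3 : e * t ≤ c₀ * nm (y - x) := by
      have f1 : c₀ / c.C * (δ / 2 * t) ≤ c₀ / c.C * (c.C * nm (y - x)) := mul_le_mul_of_nonneg_left hn2 (by positivity)
      have f2 : c₀ / c.C * (c.C * nm (y - x)) = c₀ * nm (y - x) := by field_simp
      have f3 : c₀ / c.C * (δ / 2 * t) = e * t := by rw [he]; ring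
      linarith
    -- the passage time
    have hT := (abs_le.1 (hOv x y (hnm x hx) (hnm y hy))).1
    have hcost : T τ x y ≤ cost τ w := T_le_cost hτ ha.le w
    have hgood := e2.2 x y .nil w .nil (by rw [SimpleGraph.Walk.nil_append, SimpleGraph.Walk.append_nil])
    have hmax : max (t : ℝ) (nm (y - x)) ^ (3 / 5 : ℝ) ≤ e / 4 * t := by
      have f1 : max (t : ℝ) (nm (y - x)) ≤ (1 + D) * (t : ℝ) ^ 1 := by
        rw [pow_one]
        refine max_le ?_ ?_
        · have : 0 ≤ D * t := by positivity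
          linarith
        · linarith
      have f2 : max (t : ℝ) (nm (y - x)) ^ (3 / 5 : ℝ) ≤ (1 + D) * (t : ℝ) ^ (3 / 5 : ℝ) :=
        (Real.rpow_le_rpow (by positivity) f1 (by norm_num)).trans
          (rpow_mul_le (by linarith) ht0 (by norm_num) (by norm_num) 1 (by norm_num))
      have f3 := h1 t ht1
      rw [Real.rpow_one] at f3
      have f4 : e / 4 * (4 / e * (1 + D) * (t : ℝ) ^ (3 / 5 : ℝ)) ≤ e / 4 * t := mul_le_mul_of_nonneg_left f3 (by positivity)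
      have f5 : e / 4 * (4 / e * (1 + D) * (t : ℝ) ^ (3 / 5 : ℝ)) = (1 + D) * (t : ℝ) ^ (3 / 5 : ℝ) := by
        field_simp
      linarith
    have hp : 0 < e * t := by positivity
    linarith
  have h2 : 0 < δ / 2 * t := by positivity
  unfold G0
  linarith

/-- ** (upper) ** The probability of an outward deviation by a fixed proportion is smaller than any power. -/
theorem upper {Q : Par} {g : V → ℝ} {c : Crd} (hf : FlatS g c) (Λ : Lev Q.a c) {δ : ℝ} (hδ : 0 < δ) (k : ℕ) :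
    ∃ κ s₀ : ℝ, 0 < κ ∧ 1 ≤ s₀ ∧ ∀ (t : ℤ) (R B : ℝ) (M : Mdl Q.a Q.b), s₀ ≤ t → 2 * (t : ℝ) ^ 2 ≤ R → Good Q g R M →
      0 ≤ B → B ≤ κ * t → M.P (fun τ => δ * t ≤ G0 Λ B t τ) ≤ 1 / (t : ℝ) ^ k := by
  obtain ⟨κ, s₁, hκ, hs₁, h1⟩ := upper_det hf Λ hδ
  obtain ⟨s₂, hs₂, h2⟩ := P_Ov_pow Q g 2 k
  refine ⟨κ, max s₁ s₂, hκ, hs₁.trans (le_max_left _ _), ?_⟩
  intro t R B M ht hR hG hB hBt
  have ht1 : s₁ ≤ t := (le_max_left _ _).trans ht
  have ht2 : s₂ ≤ t := (le_max_right _ _).trans ht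
  have ht0 : (1 : ℝ) ≤ t := hs₁.trans ht1
  refine (M.P_mono fun τ hτ h => ?_).trans (h2 t R M ht2 hR (by nlinarith) hG)
  intro hOv
  exact absurd h (not_le.2 (h1 t B τ ht1 hB hBt hτ hOv))

end Pool.Agent.W_1b8d5d_sc
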