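import Pool.Agent.W_1b8d5d_sc.FLap
import Pool.Agent.W_1b8d5d_sc.Tube
import Pool.Agent.W_1b8d5d_sc.Conc

/-!
MP_1b8d5d_pr (SC, part P3): one straight tube from the upper tails of the fronts.
-/

set_option autoImplicit false

namespace Pool.Agent.W_1b8d5d_sc

open Finset Pool.Agent.W_1b8d5d_h85 Pool.Agent.W_1b8d5d_fe

variable {Q : Par} {g : V → ℝ} {R : ℝ} {M : Mdl Q.a Q.b}

/-- The Lipschitz constant of good walks. -/
noncomputable def Lev.lip {a : ℝ} {c : Crd} (Λ : Lev a c) : ℝ := 2 * c.C / a * (Λ.kap * (Λ.L + 1) + 1)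

theorem Lev.lip_nonneg {a : ℝ} (ha : 0 < a) {c : Crd} (Λ : Lev a c) : 0 ≤ Λ.lip := by
  have hC := c.one_le
  have hk := Λ.kap_pos
  have hL : (1 : ℝ) ≤ Λ.L := by exact_mod_cast Λ.one_le
  unfold Lev.lip
  have h1 : 0 ≤ 2 * c.C / a := div_nonneg (by linarith) ha.le
  have h2 : 0 ≤ Λ.kap * (Λ.L + 1) := mul_nonneg hk.le (by linarith)
  exact mul_nonneg h1 (by linarith)

theorem Lev.dsp_le_lip {a : ℝ} (ha : 0 < a) {c : Crd} (Λ : Lev a c) {B x y : ℝ} (hB : 1 ≤ B) (hx : 0 ≤ x) (hy : y ≤ x + Λ.L) :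
    Λ.dsp B y ≤ Λ.lip * (x + B) := by
  have hC := c.one_le
  have hk := Λ.kap_pos
  have hL : (1 : ℝ) ≤ Λ.L := by exact_mod_cast Λ.one_le
  unfold Lev.lip Lev.dsp
  have h1 : 0 ≤ 2 * c.C / a := div_nonneg (by linarith) ha.le
  rw [mul_assoc]
  refine mul_le_mul_of_nonneg_left ?_ h1
  have h2 := mul_le_mul_of_nonneg_left hy hk.le
  have h3 : Λ.kap * Λ.L * 1 ≤ Λ.kap * Λ.L * B := mul_le_mul_of_nonneg_left hB (mul_nonneg hk.le (by linarith))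
  have h4 : 0 ≤ Λ.kap * Λ.L * x := mul_nonneg (mul_nonneg hk.le (by linarith)) hx
  have h5 : 0 ≤ Λ.kap * B := mul_nonneg hk.le (by linarith)
  have e1 : (Λ.kap * (Λ.L + 1) + 1) * (x + B) = Λ.kap * Λ.L * x + Λ.kap * Λ.L * B + Λ.kap * x + Λ.kap * B + x + B := by ring
  rw [e1]
  linarith

/-- A crossing which is not bad gives the tube. -/
theorem tube_of_Rch {c : Crd} (Λ : Lev Q.a c) {B : ℝ} (hB : 1 ≤ B) {τ : Env} (hτ : Bd Q.a Q.b τ) {l₀ : ℤ} (hl₀ : Λ.L + 1 ≤ l₀)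
    (w : ℕ → ℝ) {v : ℕ → ℝ} {α : ℤ} {y z σ : ℝ} {q : ℕ} {D : ℕ → ℤ} (hD : Dy l₀ q D)
    (hv : ∀ i ≤ q, 0 ≤ v i) (hw : ∀ i ≤ q, w i ≤ σ * D i + v i)
    (hf : ∀ m : ℕ, 1 ≤ m → m ≤ 2 ^ q → ¬ Rch Λ B α (α + m * D q) y (y - Dw w q m) τ)
    (hb : ∀ m : ℕ, 1 ≤ m → m ≤ 2 ^ q → ¬ Rch Λ B (α + D 0 - m * D q) (α + D 0) (z + Dw w q m) z τ)
    (hR : Rch Λ B α (α + D 0) y z τ) {h W : ℝ} (hy : y = h - σ * α)
    (hW₁ : ∑ i ∈ range (q + 1), v i + (Λ.lip + |σ|) * (D q + 2 * B) ≤ W)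
    (hW₂ : z - y + σ * D 0 + (∑ i ∈ range (q + 1), v i + (Λ.lip + |σ|) * (D q + 2 * B)) ≤ W) :
    TubeG Λ B (-σ) h W α (α + D 0) τ := by
  have ha := Q.ha
  have hlip := Λ.lip_nonneg ha
  have hL := Λ.one_le
  obtain ⟨u₁, u₂, wk, e1, e2, e3, e4⟩ := hR
  refine ⟨u₁, u₂, wk, e1, e2, fun x hx => ?_⟩
  obtain ⟨h1, h2⟩ := e2.1 x hx
  obtain ⟨k1, k2⟩ := Crs.vertex ha hτ e1 e2 hx
  have h1R : (α : ℝ) < Λ.xi x := by exact_mod_cast h1
  have h2R : (Λ.xi x : ℝ) < α + D 0 := by exact_mod_cast h2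
  have hLR : (1 : ℝ) ≤ Λ.L := by exact_mod_cast hL
  have hdet := tube_det (R := fun α β y z => Rch Λ B α β y z τ)
    (hr := fun _ _ _ _ _ hz hR => hR.right hz) (hl := fun _ _ _ _ _ hy hR => hR.left hy)
    (w := w) (v := v) (α := α) (y := y) (z := z) (σ := σ) (C₁ := Λ.lip) (B := B) (Q := q) (D := D) (hD := hD)
    (hC₁ := hlip) (hB := by linarith) (hv := hv) (hw := hw) (hf := hf) (hb := hb) (ℓ := Λ.xi x) (h := c.q x)
    (h0 := h1.le) (h1 := by linarith) (v0 := by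
      have := (abs_le.1 k1).1
      have h5 := Λ.dsp_le_lip ha hB (x := Λ.xi x - α) (y := Λ.xi x - α) (by linarith) (by linarith)
      linarith) (v3 := by
      have h6 := (abs_le.1 k2).1
      rw [abs_of_nonneg (by linarith)]
      have h5 := Λ.dsp_le_lip ha hB (x := α + D 0 - Λ.xi x) (y := α + D 0 - Λ.xi x) (by linarith) (by linarith)
      push_cast at h6
      linarith) (v1 := by
      intro γ g1 g2 g3
      have g2R : (γ : ℝ) ≤ Λ.xi x := by exact_mod_cast g2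
      have h5 := Crs.head ha hτ e1 e2 hx (γ := γ) (by omega) g2
      refine (h5.left e3).right ?_
      have h6 := Λ.dsp_le_lip ha hB (x := Λ.xi x - γ) (y := Λ.xi x - γ + Λ.L) (by linarith) le_rfl
      linarith) (v2 := by
      intro γ g1 g2 g3
      have g3R : (Λ.xi x : ℝ) ≤ γ := by exact_mod_cast g3
      have h5 := Crs.suffix ha hτ e1 e2 hx (γ := γ) (by omega) g3
      refine (h5.right e4).left ?_
      have h6 := Λ.dsp_le_lip ha hB (x := γ - Λ.xi x) (y := γ - Λ.xi x + Λ.L) (by linarith) le_rfl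
      linarith)
  obtain ⟨d1, d2⟩ := hdet
  rw [abs_le]
  have e5 : c.q x - -σ * Λ.xi x - h = c.q x - (h - σ * α) + σ * (Λ.xi x - α) := by ring
  rw [e5, ← hy]
  constructor
  · linarith
  · have e6 : σ * (α + D 0 - Λ.xi x) = σ * D 0 - σ * (Λ.xi x - α) := by ring
    rw [e6] at d2
    linarith

private theorem WinA_exp (i : ℕ) : Real.exp (1 / 40 - (5 + 2 * (i : ℝ))) ≤ 1 / 50 * (1 / 7) ^ i := by
  have h1 := Real.exp_one_gt_d9
  have h2 : Real.exp (1 / 40 - (5 + 2 * (i : ℝ))) ≤ Real.exp (-(4 * 1)) * Real.exp (-(2 * 1)) ^ i := by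
    rw [← Real.exp_nat_mul, ← Real.exp_add]
    exact Real.exp_le_exp.2 (by linarith)
  refine h2.trans ?_
  have h3 : Real.exp (-(4 * 1)) ≤ 1 / 50 := by
    rw [Real.exp_neg, one_div]
    refine inv_anti₀ (by norm_num) ?_
    have e1 : Real.exp (4 * 1) = Real.exp 1 ^ 4 := by
      rw [← Real.exp_nat_mul]
      norm_num
    rw [e1]
    calc (50 : ℝ) ≤ 2.7 ^ 4 := by norm_num
      _ ≤ Real.exp 1 ^ 4 := pow_le_pow_left₀ (by norm_num) (by linarith) 4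
  have h4 : Real.exp (-(2 * 1)) ≤ 1 / 7 := by
    rw [Real.exp_neg, one_div]
    refine inv_anti₀ (by norm_num) ?_
    have e1 : Real.exp (2 * 1) = Real.exp 1 ^ 2 := by
      rw [← Real.exp_nat_mul]
      norm_num
    rw [e1]
    calc (7 : ℝ) ≤ 2.7 ^ 2 := by norm_num
      _ ≤ Real.exp 1 ^ 2 := pow_le_pow_left₀ (by norm_num) (by linarith) 2
  exact mul_le_mul h3 (pow_le_pow_left₀ (Real.exp_pos _).le h4 i) (by positivity) (by norm_num)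

private theorem WinA_geom (n : ℕ) : 2 * ∑ i ∈ range n, (2 : ℝ) ^ i * (1 / 50 * (1 / 7) ^ i) ≤ 1 / 8 := by
  have h1 : ∀ n : ℕ, ∑ i ∈ range n, (2 : ℝ) ^ i * (1 / 50 * (1 / 7) ^ i) = 7 / 250 * (1 - (2 / 7) ^ n) := by
    intro n
    induction n with
    | zero => simp
    | succ n ih =>
      rw [sum_range_succ, ih]
      have e1 : (2 : ℝ) ^ n * (1 / 50 * (1 / 7) ^ n) = 1 / 50 * (2 / 7) ^ n := by
        rw [div_pow 2 7, div_pow 1 7, one_pow]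
        ring
      rw [e1, pow_succ]
      ring
  rw [h1]
  have : (0 : ℝ) < (2 / 7) ^ n := by positivity
  linarith

/-- ** One tube. ** The scale `2 ^ (j₀ + k)`, the blocks have the scales `2 ^ (j₀ + i)`, `1 ≤ i ≤ k`. -/
theorem tube_one (hM : Good Q g R M) {c : Crd} (Λ : Lev Q.a c) {B : ℝ} (hB : 1 ≤ B) {j₀ k : ℕ} (hk : 1 ≤ k)
    (hL : Λ.L + 1 ≤ 2 ^ (j₀ + 1)) {u cc : ℕ → ℝ} {m : ℝ} (hu : ∀ i, 0 ≤ u i) (hm : -(2 ^ (j₀ + k)) < m * 2 ^ (j₀ + k) - Λ.H)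
    (hmc : cc k - 2 * u k ≤ m) (hP : M.P (fun τ => G0 Λ B (2 ^ (j₀ + k)) τ < m * 2 ^ (j₀ + k)) ≤ 1 / 8)
    (ht : ∀ i, 1 ≤ i → i ≤ k → ∀ t : ℝ,
      M.P (fun τ => (cc i + t * u i) * 2 ^ (j₀ + i) ≤ G0 Λ B (2 ^ (j₀ + i)) τ) ≤ Real.exp (1 / 40 - t))
    {W : ℝ} (hW : 2 * u k * 2 ^ (j₀ + k) + Λ.H + ∑ i ∈ range k, (2 ^ (j₀ + k - i) * (|cc (k - i) - cc k| + (5 + 2 * i) * u (k - i))
      + (Λ.rj B + 2 * Λ.H)) + (Λ.lip + |cc k|) * (2 ^ (j₀ + 1) + 2 * B) ≤ W) (α : ℤ) (h : ℝ) :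
    3 / 4 ≤ M.P (TubeG Λ B (-cc k) h W α (α + 2 ^ (j₀ + k))) := by
  have ha := Q.ha
  have hH := Λ.H_nonneg
  have hrj := Λ.rj_nonneg (B := B) ha (by linarith)
  obtain ⟨D, hD⟩ : ∃ D : ℕ → ℤ, D = fun i => 2 ^ (j₀ + k - i) := ⟨_, rfl⟩
  have hD0 : D 0 = 2 ^ (j₀ + k) := by rw [hD]; rfl
  have hDi : ∀ i, D i = 2 ^ (j₀ + k - i) := fun i => by rw [hD]
  have hDy : Dy (Λ.L + 1) (k - 1) D := by
    rw [hD]
    refine Dy_pow (by omega) ?_
    have : j₀ + k - (k - 1) = j₀ + 1 := by omega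
    rw [this]
    exact hL
  obtain ⟨w, hw⟩ : ∃ w : ℕ → ℝ, ∀ i, w i = D i * (cc (k - i) + (5 + 2 * i) * u (k - i)) + (Λ.rj B + 2 * Λ.H) := ⟨_, fun _ => rfl⟩
  obtain ⟨y, hy⟩ : ∃ y, y = h - cc k * α := ⟨_, rfl⟩
  obtain ⟨z, hz⟩ : ∃ z, z = y - (m * D 0 - Λ.H) := ⟨_, rfl⟩
  have hDR : (D 0 : ℝ) = 2 ^ (j₀ + k) := by rw [hD0]; push_cast; rfl
  -- the crossing
  have hcross : 7 / 8 ≤ M.P (Rch Λ B α (α + D 0) y z) := by
    have h1 := le_P_Rch hM Λ B α (D 0) y (m * D 0 - Λ.H) (by rw [hDR]; exact hm)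
    rw [sub_add_cancel, hDR] at h1
    rw [← hDR] at h1 hP
    rw [← hD0] at hP
    have h2 := M.P_not fun τ => G0 Λ B (D 0) τ < m * D 0
    have h3 : M.P (fun τ => ¬ G0 Λ B (D 0) τ < m * D 0) = M.P (fun τ => m * D 0 ≤ G0 Λ B (D 0) τ) := by
      simp only [not_lt]
    rw [h3] at h2
    rw [hz]
    linarith
  -- the bad events
  have hbad := tube_prob M (R := fun α β y z τ => Rch Λ B α β y z τ) (κ := Λ.rj B + Λ.H) (l₀ := Λ.L + 1)
    (hl := fun τ _ α β y y' z hy hR => hR.left hy) (hr := fun τ _ α β y z z' hz hR => hR.right hz)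
    (hs := fun τ hτ α γ β y z h h1 h2 hR => by
      rcases hR.split ha hτ (γ := γ) (by omega) (by omega) h with h3 | h3
      · exact Or.inl h3
      · exact Or.inr (h3.left (by linarith)))
    (hκ := by linarith) (w := w) (α := α) (y := y) (z := z) (hD := hDy)
    (p := fun i => 1 / 50 * (1 / 7) ^ i) (hp := by
      intro i hi γ h'
      have h1 := P_Rch_le hM Λ B γ (D i) h' (w i - (Λ.rj B + Λ.H))
      have e1 : h' - (w i - (Λ.rj B + Λ.H)) = h' + (Λ.rj B + Λ.H) - w i := by ring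
      rw [e1] at h1
      refine h1.trans ?_
      have h2 := ht (k - i) (by omega) (by omega) (5 + 2 * i)
      have e2 : D i = 2 ^ (j₀ + (k - i)) := by
        rw [hDi]
        congr 1
        omega
      have e3 : w i - (Λ.rj B + Λ.H) - Λ.H = (cc (k - i) + (5 + 2 * i) * u (k - i)) * 2 ^ (j₀ + (k - i)) := by
        rw [hw, e2]
        push_cast
        ring
      rw [e3, e2]
      exact h2.trans (WinA_exp i))
  have hgeo := WinA_geom (k - 1 + 1)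
  have hbad' := hbad.trans hgeo
  -- the tube
  have hmain : M.P (Rch Λ B α (α + D 0) y z) ≤ M.P (fun τ => TubeG Λ B (-cc k) h W α (α + D 0) τ ∨
      ((∃ m : ℕ, 1 ≤ m ∧ m ≤ 2 ^ (k - 1) ∧ Rch Λ B α (α + m * D (k - 1)) y (y - Dw w (k - 1) m) τ) ∨
      ∃ m : ℕ, 1 ≤ m ∧ m ≤ 2 ^ (k - 1) ∧ Rch Λ B (α + D 0 - m * D (k - 1)) (α + D 0) (z + Dw w (k - 1) m) z τ)) := by
    refine M.P_mono fun τ hτ hR => ?_
    by_contra hcon
    push Not at hcon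
    obtain ⟨g1, g2, g3⟩ := hcon
    apply g1
    have hsum : ∑ i ∈ range (k - 1 + 1), (D i * (|cc (k - i) - cc k| + (5 + 2 * i) * u (k - i)) + (Λ.rj B + 2 * Λ.H)) =
        ∑ i ∈ range k, (2 ^ (j₀ + k - i) * (|cc (k - i) - cc k| + (5 + 2 * i) * u (k - i)) + (Λ.rj B + 2 * Λ.H)) := by
      rw [Nat.sub_add_cancel hk]
      refine Finset.sum_congr rfl fun i _ => ?_
      rw [hDi]
      push_cast
      rfl
    have hDk : (D (k - 1) : ℝ) = 2 ^ (j₀ + 1) := by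
      rw [hDi, show j₀ + k - (k - 1) = j₀ + 1 by omega]
      push_cast
      rfl
    have hu2 : 0 ≤ 2 * u k * 2 ^ (j₀ + k) := mul_nonneg (mul_nonneg (by norm_num) (hu k)) (by positivity)
    refine tube_of_Rch Λ hB hτ le_rfl w
      (v := fun i => D i * (|cc (k - i) - cc k| + (5 + 2 * i) * u (k - i)) + (Λ.rj B + 2 * Λ.H)) hDy ?_ ?_ ?_ ?_ hR hy ?_ ?_
    · intro i hi
      have h1 : (0 : ℝ) ≤ D i := by exact_mod_cast (hDy.pos i hi).le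
      have h2 : 0 ≤ |cc (k - i) - cc k| + (5 + 2 * i) * u (k - i) :=
        add_nonneg (abs_nonneg _) (mul_nonneg (by positivity) (hu _))
      have h3 := mul_nonneg h1 h2
      beta_reduce
      linarith
    · intro i hi
      have h1 : (0 : ℝ) ≤ D i := by exact_mod_cast (hDy.pos i hi).le
      have h2 := mul_le_mul_of_nonneg_left (le_abs_self (cc (k - i) - cc k)) h1
      rw [hw]
      have e1 : (D i : ℝ) * (cc (k - i) + (5 + 2 * i) * u (k - i)) =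
          cc k * D i + D i * (cc (k - i) - cc k) + D i * ((5 + 2 * i) * u (k - i)) := by ring
      rw [e1, mul_add]
      linarith
    · exact fun m h1 h2 => g2 m h1 h2
    · exact fun m h1 h2 => g3 m h1 h2
    · rw [hsum, hDk]
      linarith
    · rw [hsum, hDk, hz, hDR]
      have h1 := mul_le_mul_of_nonneg_right hmc (show (0 : ℝ) ≤ 2 ^ (j₀ + k) by positivity)
      rw [sub_mul] at h1
      linarith
  have hor := M.P_or (fun τ => TubeG Λ B (-cc k) h W α (α + D 0) τ)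
    (fun τ => (∃ m : ℕ, 1 ≤ m ∧ m ≤ 2 ^ (k - 1) ∧ Rch Λ B α (α + m * D (k - 1)) y (y - Dw w (k - 1) m) τ) ∨
      ∃ m : ℕ, 1 ≤ m ∧ m ≤ 2 ^ (k - 1) ∧ Rch Λ B (α + D 0 - m * D (k - 1)) (α + D 0) (z + Dw w (k - 1) m) z τ)
  rw [← hD0]
  have e : M.P (fun τ => TubeG Λ B (-cc k) h W α (α + D 0) τ) = M.P (TubeG Λ B (-cc k) h W α (α + D 0)) := rfl
  linarith

end Pool.Agent.W_1b8d5d_sc
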