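import Pool.Agent.W_1b8d5d_sc.WinB0

/-!
MP_1b8d5d_pr (SC, part P3): a window of scales with straight tubes whose relative widths have a small sum.
-/

set_option autoImplicit false

namespace Pool.Agent.W_1b8d5d_sc

open Finset Pool.Agent.W_1b8d5d_h85 Pool.Agent.W_1b8d5d_fe

/-- ** The window. ** `Λ` an integer level.  If the fronts are almost level from below at all scales of the window (with the
failure probability `1 / 640`) and from above at the first scale, then there are straight tubes at all scales whose relative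
widths have a small sum. -/
theorem window {Q : Par} {c : Crd} (Λ : Lev Q.a c) : ∃ C' : ℝ, 1 ≤ C' ∧ ∀ (g : V → ℝ) (R : ℝ) (M : Mdl Q.a Q.b), Good Q g R M →
    ∀ (B δ : ℝ) (j₀ j₁ q₀ : ℕ), 1 ≤ B → B ≤ 2 ^ j₀ → 0 < δ → δ ≤ 1 / 4 → C' ≤ 2 ^ j₀ → C' * 2 ^ j₁ ≤ R → 1 ≤ q₀ →
    (∀ j, j₀ ≤ j → j ≤ j₁ → M.P (fun τ => G0 Λ B (2 ^ j) τ < -(δ * 2 ^ j)) ≤ 1 / 640) →
    M.P (fun τ => δ * 2 ^ j₀ ≤ G0 Λ B (2 ^ j₀) τ) ≤ Real.exp (-(C' / δ)) →
    ∃ σ b : ℕ → ℝ, (∀ j, j₀ + q₀ ≤ j → j ≤ j₁ → 0 ≤ b j ∧ |σ j| ≤ C' * (δ + B / 2 ^ j₀) ∧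
      ∀ (α : ℤ) (h : ℝ), 3 / 4 ≤ M.P (TubeG Λ B (σ j) h (b j * 2 ^ j) α (α + 2 ^ j))) ∧
      ∑ j ∈ Icc (j₀ + q₀) j₁, b j ≤ C' * (δ + (1 / 2) ^ q₀ + B / 2 ^ j₀) := by
  have ha := Q.ha
  have hC := c.one_le
  have hk := Λ.kap_pos
  have hcy := Λ.one_le_cy ha
  have hlip := Λ.lip_nonneg ha
  have hLZ := Λ.one_le
  have hL : (1 : ℝ) ≤ Λ.L := by exact_mod_cast hLZ
  have hH := Λ.H_nonneg
  have hCa : 0 ≤ 2 * c.C / Q.a := div_nonneg (by linarith) ha.le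
  -- the constants
  obtain ⟨CE, hCE⟩ : ∃ CE : ℝ, CE = 2 * c.C / Q.a * (Λ.kap * (2 * Λ.L) + 1) + 2 * Λ.H := ⟨_, rfl⟩
  have hCE0 : 0 ≤ CE := by
    rw [hCE]
    have := mul_nonneg hCa (show 0 ≤ Λ.kap * (2 * Λ.L) + 1 by positivity)
    linarith
  obtain ⟨CR, hCR⟩ : ∃ CR : ℝ, CR = c.C * (Λ.kap + 1) * Λ.cy := ⟨_, rfl⟩
  have hCR0 : 0 ≤ CR := by rw [hCR]; positivity
  obtain ⟨C', hC'⟩ : ∃ C' : ℝ, C' = 30000 * (1 + Λ.cy + Λ.lip + CE + Λ.L + Λ.H + CR) := ⟨_, rfl⟩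
  refine ⟨C', by rw [hC']; linarith, ?_⟩
  intro g R M hM B δ j₀ j₁ q₀ hB hBj hδ hδ1 hCj hRj hq₀ hlow hupp
  have hC'0 : 0 < C' := by rw [hC']; linarith
  by_cases hj : j₁ ≤ j₀
  · refine ⟨fun _ => 0, fun _ => 0, fun j h1 h2 => by omega, ?_⟩
    rw [Icc_eq_empty (by omega), sum_empty]
    positivity
  push Not at hj
  obtain ⟨n, hn⟩ : ∃ n, n = j₁ - j₀ := ⟨_, rfl⟩
  have hn1 : 1 ≤ n := by omega
  have h2j : (0 : ℝ) < 2 ^ j₀ := by positivity
  -- the loss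
  obtain ⟨r, hr⟩ : ∃ r : ℝ, r = Λ.rj B + 2 * Λ.H := ⟨_, rfl⟩
  have hrj0 := Λ.rj_nonneg (B := B) ha (by linarith)
  have hr0 : 0 ≤ r := by rw [hr]; linarith
  have hrB : r ≤ CE * B := by
    rw [hr, hCE]
    unfold Lev.rj Lev.dsp
    have h1 : Λ.kap * (2 * Λ.L) * 1 ≤ Λ.kap * (2 * Λ.L) * B := mul_le_mul_of_nonneg_left hB (by positivity)
    have h2 := mul_le_mul_of_nonneg_left (show Λ.kap * (2 * Λ.L) + B ≤ (Λ.kap * (2 * Λ.L) + 1) * B by linarith) hCa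
    have h3 : 2 * Λ.H * 1 ≤ 2 * Λ.H * B := mul_le_mul_of_nonneg_left hB (by linarith)
    push_cast at h1 h2 ⊢
    linarith
  obtain ⟨x, hx⟩ : ∃ x : ℝ, x = B / 2 ^ j₀ := ⟨_, rfl⟩
  have hx0 : 0 ≤ x := by rw [hx]; positivity
  have hrx : r / 2 ^ j₀ ≤ CE * x := by
    rw [hx, ← mul_div_assoc]
    exact div_le_div_of_nonneg_right hrB h2j.le
  have hrH : (Λ.rj B + Λ.H) / 2 ^ j₀ ≤ CE * x :=
    (div_le_div_of_nonneg_right (by rw [hr]; linarith) h2j.le).trans hrx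
  -- the scale `u 0`
  obtain ⟨z, hz1, hz2⟩ := exists_mem_Ico_zpow hδ (one_lt_two : (1 : ℝ) < 2)
  have hz3 : (2 : ℝ) ^ (z + 1) = 2 * 2 ^ z := by
    rw [zpow_add₀ (by norm_num), zpow_one, mul_comm]
  rw [hz3] at hz2
  have hLj : 2 * Λ.L < 2 ^ j₀ := by
    have h1 : ((2 * Λ.L : ℤ) : ℝ) < ((2 ^ j₀ : ℤ) : ℝ) := by
      push_cast
      have : C' ≤ 2 ^ j₀ := hCj
      rw [hC'] at this
      linarith
    exact_mod_cast h1
  have hYbd : ∀ j ≤ n, ∀ τ, Bd Q.a Q.b τ → |YY Λ B j₀ j τ| ≤ Λ.cy := fun j _ τ hτ => WinB_bd Λ hB hBj j hτ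
  obtain ⟨u, Ψ, cc, hu0, hΨ0, hu, hconc, hΨ, hlb, hsum⟩ := conc_window M (ε := 1 / 40) (C := Λ.cy) (by norm_num)
    (by linarith) (YY Λ B j₀) n (-z) (fun j => (Λ.rj B + Λ.H) / 2 ^ (j₀ + j + 1)) hYbd (by
      intro j hjn t ht
      refine WinB_comp hM Λ hB hBj hLj ?_ ht
      have h1 : (2 : ℝ) ^ (j₀ + j) ≤ 2 ^ j₁ := pow_le_pow_right₀ (by norm_num) (by omega)
      have h2 : 8 * c.C * (Λ.kap + 1) * (5 * Λ.cy * 2 ^ (j₀ + j)) = 40 * CR * 2 ^ (j₀ + j) := by rw [hCR]; ring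
      rw [h2]
      have h3 : 40 * CR * (2 : ℝ) ^ (j₀ + j) ≤ 40 * CR * 2 ^ j₁ := mul_le_mul_of_nonneg_left h1 (by linarith)
      have h4 : (1 : ℝ) ≤ 2 ^ j₁ := one_le_pow₀ (by norm_num)
      have h5 : (40 * CR + 1) * (2 : ℝ) ^ j₁ ≤ C' * 2 ^ j₁ := mul_le_mul_of_nonneg_right (by rw [hC']; linarith) (by linarith)
      linarith)
  rw [neg_neg] at hu0 hΨ0
  -- the sum of the errors
  obtain ⟨E, hE⟩ : ∃ E : ℝ, E = ∑ j ∈ range n, (Λ.rj B + Λ.H) / 2 ^ (j₀ + j + 1) := ⟨_, rfl⟩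
  rw [← hE] at hsum
  have hEx : E ≤ CE * x := by
    rw [hE]
    exact (WinB_err (by linarith) j₀ n).trans hrH
  have hE0 : 0 ≤ E := by
    rw [hE]
    exact sum_nonneg fun j _ => by positivity
  -- probabilities of the rescaled fronts
  have hcast : ∀ j : ℕ, (0 : ℝ) < 2 ^ (j₀ + j) := fun j => by positivity
  have hYlow : ∀ j ≤ n, M.P (fun τ => YY Λ B j₀ j τ < -δ) ≤ 1 / 640 := by
    intro j hjn
    refine le_trans (M.P_mono fun τ _ hτ => ?_) (hlow (j₀ + j) (by omega) (by omega))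
    unfold YY at hτ
    rw [div_lt_iff₀ (hcast j)] at hτ
    linarith
  have hΨ0' : Ψ 0 ≤ 2 * δ := by
    have h1 := LL_le (M := M) (X := YY Λ B j₀ 0) (C := Λ.cy) (hYbd 0 (by omega)) (s := (2 : ℝ) ^ (-z)) (x := δ)
      (p := Real.exp (-(C' / δ))) (by positivity) (by
        refine le_trans (M.P_mono fun τ _ hτ => ?_) hupp
        unfold YY at hτ
        rw [le_div_iff₀ (hcast 0)] at hτ
        exact hτ)
    have hzz : (2 : ℝ) ^ z * 2 ^ (-z) = 1 := by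
      rw [← zpow_add₀ (by norm_num), add_neg_cancel, zpow_zero]
    have hz0 : (0 : ℝ) < 2 ^ z := by positivity
    have hzn0 : (0 : ℝ) < 2 ^ (-z) := by positivity
    have h2 := mul_le_mul_of_nonneg_left h1 hz0.le
    rw [hΨ0]
    have h3 : (2 : ℝ) ^ (-z) ≤ 2 / δ := by
      rw [le_div_iff₀ hδ]
      have h4 : (2 : ℝ) ^ (-z) * δ ≤ 2 ^ (-z) * (2 * 2 ^ z) := mul_le_mul_of_nonneg_left hz2.le hzn0.le
      linarith
    have h4 : Real.exp ((2 : ℝ) ^ (-z) * (Λ.cy - δ)) * Real.exp (-(C' / δ)) ≤ 1 := by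
      rw [← Real.exp_add]
      refine Real.exp_le_one_iff.2 ?_
      have h5 : (2 : ℝ) ^ (-z) * (Λ.cy - δ) ≤ 2 / δ * Λ.cy :=
        mul_le_mul h3 (by linarith) (by linarith) (by positivity)
      have h6 : 2 / δ * Λ.cy ≤ C' / δ := by
        rw [div_mul_eq_mul_div]
        refine div_le_div_of_nonneg_right ?_ hδ.le
        rw [hC']
        linarith
      linarith
    have h5 := mul_le_mul_of_nonneg_left h4 hz0.le
    rw [mul_add, ← mul_assoc, hzz, one_mul] at h2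
    linarith
  have hΨn : -δ - 1 / 320 * u n ≤ Ψ n := by
    have := hlb n le_rfl (-δ) (1 / 640) (hYlow n le_rfl) (by norm_num)
    linarith
  -- the sum of the `u`
  obtain ⟨U, hU⟩ : ∃ U : ℝ, U = ∑ j ∈ range n, u (j + 1) := ⟨_, rfl⟩
  rw [← hU] at hsum
  have huU : ∀ k, 1 ≤ k → k ≤ n → u k ≤ U := by
    intro k hk1 hkn
    rw [hU]
    have h1 : u (k - 1 + 1) ≤ ∑ j ∈ range n, u (j + 1) :=
      single_le_sum (f := fun j => u (j + 1)) (fun j _ => (hu _).le) (Finset.mem_range.2 (by omega))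
    rwa [Nat.sub_add_cancel hk1] at h1
  have hU0 : 0 ≤ U := (hu n).le.trans (huU n hn1 le_rfl)
  have hUb : U ≤ 962 * δ + 320 * (CE * x) := by
    have h1 := huU n hn1 le_rfl
    have h2 : u 0 ≤ δ := by rw [hu0]; exact hz1
    have e1 : (4 : ℝ) / (1 / 40) = 160 := by norm_num
    rw [e1] at hsum
    linarith
  -- bounds of the potential
  have hΨle : ∀ k ≤ n, Ψ k ≤ Ψ 0 + E := by
    have h1 : ∀ k ≤ n, Ψ k ≤ Ψ 0 + ∑ j ∈ range k, (Λ.rj B + Λ.H) / 2 ^ (j₀ + j + 1) := by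
      intro k
      induction k with
      | zero => intro _; simp
      | succ k ih =>
        intro hk'
        have h2 := ih (by omega)
        have h3 := hΨ k (by omega)
        rw [sum_range_succ]
        linarith
    intro k hk'
    refine (h1 k hk').trans ?_
    rw [hE]
    have := sum_le_sum_of_subset_of_nonneg (f := fun j => (Λ.rj B + Λ.H) / 2 ^ (j₀ + j + 1))
      (Finset.range_subset_range.2 hk') (fun i _ _ => by positivity)
    linarith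
  have hccb : ∀ k, 1 ≤ k → k ≤ n → |cc k| ≤ C' * (δ + x) := by
    intro k hk1 hkn
    obtain ⟨-, h1, h2, -, -⟩ := hconc k hk1 hkn
    have h3 := hΨle k hkn
    have h4 := hlb k hkn (-δ) (1 / 640) (hYlow k hkn) (by norm_num)
    have h5 := huU k hk1 hkn
    have h6 : 0 ≤ Λ.cy * δ := by positivity
    have h7 : C' * (δ + x) = 30000 * (δ + x) + 30000 * ((Λ.cy + Λ.lip + CE + Λ.L + Λ.H + CR) * (δ + x)) := by rw [hC']; ring
    have h8 : CE * (δ + x) ≤ (Λ.cy + Λ.lip + CE + Λ.L + Λ.H + CR) * (δ + x) :=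
      mul_le_mul_of_nonneg_right (by linarith) (by linarith)
    have h9 : 0 ≤ CE * δ := by positivity
    have h10 : 0 ≤ CE * x := by positivity
    rw [abs_le]
    constructor <;> linarith
  have hconst : ∀ k, 1 ≤ k → k ≤ n → |cc k| ≤ Λ.cy := fun k h1 h2 => (hconc k h1 h2).1
  obtain ⟨bb, hbb⟩ : ∃ bb : ℕ → ℝ, bb = WinB_WB Ψ u r (Λ.lip + Λ.cy) j₀ := ⟨_, rfl⟩
  have hu' : ∀ k, 0 ≤ u k := fun k => (hu k).le
  have hbb0 : ∀ k, 0 ≤ bb k := fun k => by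
    rw [hbb]
    exact WinB_WBn hu' hr0 (by linarith) j₀ k
  refine ⟨fun j => -cc (j - j₀), fun j => bb (j - j₀), fun j h1 h2 => ⟨hbb0 _, ?_, ?_⟩, ?_⟩
  · rw [abs_neg, ← hx]
    exact hccb _ (by omega) (by omega)
  · intro α h
    obtain ⟨k, hkj⟩ : ∃ k, j = j₀ + k := ⟨j - j₀, by omega⟩
    have hk1 : 1 ≤ k := by omega
    have hkn : k ≤ n := by omega
    have hsub : j - j₀ = k := by omega
    beta_reduce
    rw [hsub, hkj]
    have hD := hcast k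
    have hDH : Λ.H ≤ 1 / 2 * 2 ^ (j₀ + k) := by
      have h3 : (2 : ℝ) ^ j₀ ≤ 2 ^ (j₀ + k) := pow_le_pow_right₀ (by norm_num) (by omega)
      rw [hC'] at hCj
      linarith
    refine tube_one hM Λ hB hk1 ?_ (u := u) (cc := cc) (m := max (cc k - 2 * u k) (-δ)) hu' ?_ (le_max_left _ _) ?_ ?_ ?_ α h
    · have h3 : (2 : ℤ) ^ j₀ ≤ 2 ^ (j₀ + 1) := pow_le_pow_right₀ (by norm_num) (by omega)
      omega
    · have h3 : -δ * 2 ^ (j₀ + k) ≤ max (cc k - 2 * u k) (-δ) * 2 ^ (j₀ + k) :=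
        mul_le_mul_of_nonneg_right (le_max_right _ _) hD.le
      have h4 : δ * 2 ^ (j₀ + k) ≤ 1 / 4 * 2 ^ (j₀ + k) := mul_le_mul_of_nonneg_right hδ1 hD.le
      linarith
    · obtain ⟨-, -, -, h5, -⟩ := hconc k hk1 hkn
      rcases max_choice (cc k - 2 * u k) (-δ) with h6 | h6
      · rw [h6]
        have h7 : M.P (fun τ => G0 Λ B (2 ^ (j₀ + k)) τ < (cc k - 2 * u k) * 2 ^ (j₀ + k)) ≤
            M.P (fun τ => 2 * u k < |YY Λ B j₀ k τ - cc k|) := by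
          refine M.P_mono fun τ _ hτ => ?_
          rw [← div_lt_iff₀ hD] at hτ
          have h8 : YY Λ B j₀ k τ < cc k - 2 * u k := hτ
          rw [abs_sub_comm]
          exact (by linarith : 2 * u k < cc k - YY Λ B j₀ k τ).trans_le (le_abs_self _)
        refine h7.trans (h5.trans ?_)
        have h9 : Real.exp (1 / 40) ≤ 1 + 1 / 32 := by
          have h10 := Real.add_one_le_exp (-(1 / 40) : ℝ)
          have h11 : Real.exp (1 / 40) * Real.exp (-(1 / 40)) = 1 := by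
            rw [← Real.exp_add, add_neg_cancel, Real.exp_zero]
          have h12 := mul_le_mul_of_nonneg_left h10 (Real.exp_pos (1 / 40)).le
          rw [h11] at h12
          linarith only [h12]
        linarith only [h9]
      · rw [h6]
        refine le_trans (M.P_mono fun τ _ hτ => ?_) ((hlow (j₀ + k) (by omega) (by omega)).trans (by norm_num))
        linarith
    · intro i hi1 hik t
      obtain ⟨-, -, -, -, h5⟩ := hconc i hi1 (by omega)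
      refine le_trans (M.P_mono fun τ _ hτ => ?_) (h5 t)
      unfold YY
      rw [le_div_iff₀ (hcast i)]
      exact hτ
    · have h3 := WinB_WBle (Ψ := Ψ) (u := u) (cc := cc) (n := n) hu' (fun k h1 h2 => ⟨(hconc k h1 h2).2.1, (hconc k h1 h2).2.2.1⟩)
        hr0 hH (by rw [hr]; linarith) (l := Λ.lip + Λ.cy) (cl := Λ.lip + |cc k|) (j₀ := j₀) (k := k) hk1 hkn
        (by linarith [hconst k hk1 hkn]) (by linarith) hBj (by linarith)
      rw [hbb, ← hr]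
      exact h3
  · -- the sum
    have hre : ∑ j ∈ Icc (j₀ + q₀) j₁, bb (j - j₀) = ∑ k ∈ Icc q₀ n, bb k := by
      refine Finset.sum_nbij' (fun j => j - j₀) (fun k => j₀ + k) ?_ ?_ ?_ ?_ ?_
      · intro j hj'
        rw [Finset.mem_Icc] at hj' ⊢
        omega
      · intro k hk'
        rw [Finset.mem_Icc] at hk' ⊢
        omega
      · intro j hj'
        rw [Finset.mem_Icc] at hj'
        beta_reduce
        omega
      · intro k hk'
        beta_reduce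
        omega
      · intro j _
        rfl
    have hsplit : ∑ k ∈ Icc q₀ n, bb k ≤ ∑ k ∈ range (n + 1), (SP Ψ k + 9 * SA u k + 2 * ST u k) +
        CE * x * ∑ k ∈ range (n + 1), ((k : ℝ) + 1) * (1 / 2) ^ k + 4 * (Λ.lip + Λ.cy) * ∑ k ∈ Icc q₀ n, (1 / 2 : ℝ) ^ k := by
      have h1 : ∀ k ∈ Icc q₀ n, bb k ≤ (SP Ψ k + 9 * SA u k + 2 * ST u k) + CE * x * (((k : ℝ) + 1) * (1 / 2) ^ k) +
          4 * (Λ.lip + Λ.cy) * (1 / 2 : ℝ) ^ k := by
        intro k _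
        rw [hbb]
        unfold WinB_WB
        have h2 : ((k : ℝ) + 1) * r / 2 ^ (j₀ + k) ≤ CE * x * (((k : ℝ) + 1) * (1 / 2) ^ k) := by
          have e1 : ((k : ℝ) + 1) * r / 2 ^ (j₀ + k) = r / 2 ^ j₀ * (((k : ℝ) + 1) * (1 / 2) ^ k) := by
            rw [pow_add, one_div, inv_pow]
            field_simp
          rw [e1]
          exact mul_le_mul_of_nonneg_right hrx (by positivity)
        linarith
      refine (sum_le_sum h1).trans ?_
      rw [sum_add_distrib, sum_add_distrib, ← mul_sum, ← mul_sum]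
      have hsubset : Icc q₀ n ⊆ range (n + 1) := fun k hk' => by
        rw [Finset.mem_Icc] at hk'
        exact Finset.mem_range.2 (by omega)
      have h3 : ∑ k ∈ Icc q₀ n, (SP Ψ k + 9 * SA u k + 2 * ST u k) ≤ ∑ k ∈ range (n + 1), (SP Ψ k + 9 * SA u k + 2 * ST u k) :=
        sum_le_sum_of_subset_of_nonneg hsubset fun k _ _ => by
          have := WinB_SPn Ψ k
          have := WinB_SAn hu' k
          have := WinB_STn hu' k
          linarith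
      have h4 : ∑ k ∈ Icc q₀ n, ((k : ℝ) + 1) * (1 / 2) ^ k ≤ ∑ k ∈ range (n + 1), ((k : ℝ) + 1) * (1 / 2) ^ k :=
        sum_le_sum_of_subset_of_nonneg hsubset fun k _ _ => by positivity
      have h5 := mul_le_mul_of_nonneg_left h4 (show 0 ≤ CE * x by positivity)
      linarith
    have hs := WinB_sum (u := u) (Ψ := Ψ) (e := fun j => (Λ.rj B + Λ.H) / 2 ^ (j₀ + j + 1)) (n := n) hu' hΨ
      (fun k => by positivity)
    rw [← hE, ← hU] at hs
    have h4 := mul_le_mul_of_nonneg_left (WinB_lin (n + 1)) (show 0 ≤ CE * x by positivity)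
    have h5 := mul_le_mul_of_nonneg_left (WinB_tail (q₀ := q₀) (n := n)) (show 0 ≤ 4 * (Λ.lip + Λ.cy) by linarith)
    have h6 := huU n hn1 le_rfl
    rw [hre, ← hx]
    have h7 : C' * (δ + (1 / 2) ^ q₀ + x) = 30000 * (δ + (1 / 2) ^ q₀ + x) + 30000 * ((Λ.lip + Λ.cy) * (δ + (1 / 2) ^ q₀ + x)) +
        30000 * (CE * (δ + (1 / 2) ^ q₀ + x)) + 30000 * ((Λ.L + Λ.H + CR) * (δ + (1 / 2) ^ q₀ + x)) := by rw [hC']; ring
    have hq0 : (0 : ℝ) < (1 / 2) ^ q₀ := by positivity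
    have h8 : 0 ≤ (Λ.L + Λ.H + CR) * (δ + (1 / 2) ^ q₀ + x) := mul_nonneg (by linarith) (by linarith)
    have h9 : (Λ.lip + Λ.cy) * (1 / 2) ^ q₀ ≤ (Λ.lip + Λ.cy) * (δ + (1 / 2) ^ q₀ + x) :=
      mul_le_mul_of_nonneg_left (by linarith) (by linarith)
    have h10 : CE * x ≤ CE * (δ + (1 / 2) ^ q₀ + x) := mul_le_mul_of_nonneg_left (by linarith) hCE0
    have h11 : 0 ≤ (Λ.lip + Λ.cy) * (1 / 2) ^ q₀ := mul_nonneg (by linarith) hq0.le
    have h12 : 0 ≤ CE * x := by positivity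
    rw [h7]
    linarith

end Pool.Agent.W_1b8d5d_sc
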