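import Pool.Agent.W_1b8d5d_sc.WinA

/-!
MP_1b8d5d_pr (SC, part P3): lemmas for the window of scales (`WinB`).
-/

set_option autoImplicit false

namespace Pool.Agent.W_1b8d5d_sc

open Finset Pool.Agent.W_1b8d5d_h85 Pool.Agent.W_1b8d5d_fe

theorem WinB_half {x f : ℕ → ℝ} (h0 : x 0 = 0) (n : ℕ) (h : ∀ k < n, x (k + 1) ≤ x k / 2 + f k) :
    ∑ k ∈ range (n + 1), x k + x n ≤ 2 * ∑ k ∈ range n, f k := by
  induction n with
  | zero => simp [h0]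
  | succ n ih =>
    have h1 := ih fun k hk => h k (by omega)
    have h2 := h n (by omega)
    rw [sum_range_succ _ (n + 1), sum_range_succ f]
    linarith

/-- The oscillation of the potential at the scale `k`. -/
noncomputable def SP (Ψ : ℕ → ℝ) (k : ℕ) : ℝ := ∑ i ∈ range k, (1 / 2) ^ i * |Ψ (k - i) - Ψ k|

noncomputable def SA (u : ℕ → ℝ) (k : ℕ) : ℝ := ∑ i ∈ range k, (1 / 2) ^ i * u (k - i)

noncomputable def ST (u : ℕ → ℝ) (k : ℕ) : ℝ := ∑ i ∈ range k, (1 / 2) ^ i * (i * u (k - i))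

theorem WinB_SPn (Ψ : ℕ → ℝ) (k : ℕ) : 0 ≤ SP Ψ k :=
  sum_nonneg fun _ _ => mul_nonneg (by positivity) (abs_nonneg _)

theorem WinB_SAn {u : ℕ → ℝ} (hu : ∀ k, 0 ≤ u k) (k : ℕ) : 0 ≤ SA u k :=
  sum_nonneg fun _ _ => mul_nonneg (by positivity) (hu _)

theorem WinB_STn {u : ℕ → ℝ} (hu : ∀ k, 0 ≤ u k) (k : ℕ) : 0 ≤ ST u k :=
  sum_nonneg fun _ _ => mul_nonneg (by positivity) (mul_nonneg (by positivity) (hu _))

theorem WinB_SAs (u : ℕ → ℝ) (k : ℕ) : SA u (k + 1) = SA u k / 2 + u (k + 1) := by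
  unfold SA
  rw [sum_range_succ', pow_zero, one_mul, Nat.sub_zero, sum_div]
  congr 1
  refine sum_congr rfl fun i _ => ?_
  rw [Nat.add_sub_add_right, pow_succ]
  ring

theorem WinB_STs (u : ℕ → ℝ) (k : ℕ) : ST u (k + 1) = ST u k / 2 + SA u k / 2 := by
  unfold ST SA
  rw [sum_range_succ', Nat.cast_zero, zero_mul, mul_zero, add_zero, sum_div, sum_div, ← sum_add_distrib]
  refine sum_congr rfl fun i _ => ?_
  rw [Nat.add_sub_add_right, pow_succ]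
  push_cast
  ring

theorem WinB_pow_sum (k : ℕ) : ∑ i ∈ range k, (1 / 2 : ℝ) ^ i = 2 - 2 * (1 / 2) ^ k := by
  induction k with
  | zero => simp
  | succ k ih =>
    rw [sum_range_succ, ih, pow_succ]
    ring

theorem WinB_SPs (Ψ : ℕ → ℝ) (k : ℕ) : SP Ψ (k + 1) ≤ SP Ψ k / 2 + |Ψ (k + 1) - Ψ k| := by
  unfold SP
  rw [sum_range_succ', Nat.sub_zero, sub_self, abs_zero, mul_zero, add_zero]
  have h1 : ∀ i ∈ range k, (1 / 2 : ℝ) ^ (i + 1) * |Ψ (k + 1 - (i + 1)) - Ψ (k + 1)| ≤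
      (1 / 2) ^ i * |Ψ (k - i) - Ψ k| / 2 + (1 / 2) ^ i * (|Ψ (k + 1) - Ψ k| / 2) := by
    intro i _
    rw [Nat.add_sub_add_right, pow_succ]
    have h2 : |Ψ (k - i) - Ψ (k + 1)| ≤ |Ψ (k - i) - Ψ k| + |Ψ (k + 1) - Ψ k| := by
      have h3 := abs_sub_le (Ψ (k - i)) (Ψ k) (Ψ (k + 1))
      rwa [abs_sub_comm (Ψ k)] at h3
    have h3 := mul_le_mul_of_nonneg_left h2 (show (0 : ℝ) ≤ (1 / 2) ^ i * (1 / 2) by positivity)
    linarith
  refine (sum_le_sum h1).trans ?_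
  rw [sum_add_distrib, ← sum_div, ← sum_mul, WinB_pow_sum]
  have h2 : (0 : ℝ) ≤ (1 / 2) ^ k := by positivity
  have h3 := mul_nonneg h2 (abs_nonneg (Ψ (k + 1) - Ψ k))
  have e1 : (2 - 2 * (1 / 2 : ℝ) ^ k) * (|Ψ (k + 1) - Ψ k| / 2) = |Ψ (k + 1) - Ψ k| - (1 / 2) ^ k * |Ψ (k + 1) - Ψ k| := by ring
  rw [e1]
  linarith

/-- The sum of the widths. -/
theorem WinB_sum {u Ψ e : ℕ → ℝ} {n : ℕ} (hu : ∀ k, 0 ≤ u k) (hΨ : ∀ k < n, Ψ (k + 1) ≤ Ψ k + e k) (he : ∀ k, 0 ≤ e k) :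
    ∑ k ∈ range (n + 1), (SP Ψ k + 9 * SA u k + 2 * ST u k) ≤
      22 * ∑ k ∈ range n, u (k + 1) + 2 * (Ψ 0 - Ψ n + 2 * ∑ k ∈ range n, e k) := by
  have h1 := WinB_half (x := SP Ψ) (f := fun k => |Ψ (k + 1) - Ψ k|) (by simp [SP]) n fun k _ => WinB_SPs Ψ k
  have h2 := WinB_half (x := SA u) (f := fun k => u (k + 1)) (by simp [SA]) n fun k _ => (WinB_SAs u k).le
  have h3 := WinB_half (x := ST u) (f := fun k => SA u k / 2) (by simp [ST]) n fun k _ => (WinB_STs u k).le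
  rw [← sum_div] at h3
  have h4 : ∑ k ∈ range n, SA u k ≤ ∑ k ∈ range (n + 1), SA u k := by
    rw [sum_range_succ]
    linarith [WinB_SAn hu n]
  have h5 : ∑ k ∈ range n, |Ψ (k + 1) - Ψ k| ≤ Ψ 0 - Ψ n + 2 * ∑ k ∈ range n, e k := by
    have h6 : ∀ k ∈ range n, |Ψ (k + 1) - Ψ k| ≤ (Ψ k - Ψ (k + 1)) + 2 * e k := by
      intro k hk
      have h7 := hΨ k (Finset.mem_range.1 hk)
      have h8 := he k
      rw [abs_le]
      constructor <;> linarith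
    refine (sum_le_sum h6).trans (le_of_eq ?_)
    rw [sum_add_distrib, sum_range_sub', mul_sum]
  rw [sum_add_distrib, sum_add_distrib, ← mul_sum, ← mul_sum]
  have a1 := WinB_SPn Ψ n
  have a2 := WinB_SAn hu n
  have a3 := WinB_STn hu n
  linarith

theorem WinB_lin (n : ℕ) : ∑ k ∈ range n, ((k : ℝ) + 1) * (1 / 2) ^ k ≤ 4 := by
  have h1 : ∀ n : ℕ, ∑ k ∈ range n, ((k : ℝ) + 1) * (1 / 2) ^ k = 4 - (2 * n + 4) * (1 / 2) ^ n := by
    intro n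
    induction n with
    | zero => simp
    | succ n ih =>
      rw [sum_range_succ, ih, pow_succ]
      push_cast
      ring
  rw [h1]
  have : (0 : ℝ) ≤ (2 * n + 4) * (1 / 2) ^ n := by positivity
  linarith

theorem WinB_tail {q₀ n : ℕ} : ∑ k ∈ Icc q₀ n, (1 / 2 : ℝ) ^ k ≤ 2 * (1 / 2) ^ q₀ := by
  by_cases h : q₀ ≤ n
  · have h1 : ∀ n, q₀ ≤ n → ∑ k ∈ Icc q₀ n, (1 / 2 : ℝ) ^ k = 2 * (1 / 2) ^ q₀ - (1 / 2) ^ n := by
      intro n hn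
      induction n, hn using Nat.le_induction with
      | base =>
        rw [Icc_self, sum_singleton]
        ring
      | succ n hn ih =>
        rw [Finset.sum_Icc_succ_top (by omega), ih, pow_succ]
        ring
    rw [h1 n h]
    have : (0 : ℝ) ≤ (1 / 2) ^ n := by positivity
    linarith
  · rw [Icc_eq_empty h, sum_empty]
    positivity

/-- The rescaled front. -/
noncomputable def YY {a : ℝ} {c : Crd} (Λ : Lev a c) (B : ℝ) (j₀ j : ℕ) (τ : Env) : ℝ :=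
  G0 Λ B (2 ^ (j₀ + j)) τ / 2 ^ (j₀ + j)

theorem WinB_cast (j : ℕ) : (((2 ^ j : ℤ)) : ℝ) = 2 ^ j := by push_cast; rfl

/-- The bound of the rescaled fronts. -/
noncomputable def Lev.cy {a : ℝ} {c : Crd} (Λ : Lev a c) : ℝ := 1 + 2 * c.C / a * (Λ.kap + 1)

theorem Lev.one_le_cy {a : ℝ} (ha : 0 < a) {c : Crd} (Λ : Lev a c) : 1 ≤ Λ.cy := by
  have hC := c.one_le
  have hk := Λ.kap_pos
  unfold Lev.cy
  have h1 : 0 ≤ 2 * c.C / a := div_nonneg (by linarith) ha.le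
  have h2 := mul_nonneg h1 (show 0 ≤ Λ.kap + 1 by linarith)
  linarith

theorem Lev.dsp_le_cy {a : ℝ} (ha : 0 < a) {c : Crd} (Λ : Lev a c) {B t : ℝ} (hBt : B ≤ t) : Λ.dsp B t ≤ (Λ.cy - 1) * t := by
  have hC := c.one_le
  unfold Lev.cy Lev.dsp
  have h1 : 0 ≤ 2 * c.C / a := div_nonneg (by linarith) ha.le
  have h2 := mul_le_mul_of_nonneg_left (show Λ.kap * t + B ≤ (Λ.kap + 1) * t by linarith) h1
  linarith

theorem WinB_bd {Q : Par} {c : Crd} (Λ : Lev Q.a c) {B : ℝ} (hB : 1 ≤ B) {j₀ : ℕ} (hBj : B ≤ 2 ^ j₀) (j : ℕ) {τ : Env}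
    (hτ : Bd Q.a Q.b τ) : |YY Λ B j₀ j τ| ≤ Λ.cy := by
  have hp : (0 : ℝ) < 2 ^ (j₀ + j) := by positivity
  have h1 := G0_bounds Q.ha Λ hτ (B := B) (by linarith) (t := 2 ^ (j₀ + j)) (by positivity)
  rw [WinB_cast] at h1
  have h2 : B ≤ 2 ^ (j₀ + j) := hBj.trans (pow_le_pow_right₀ (by norm_num) (by omega))
  have h3 := Λ.dsp_le_cy Q.ha h2
  have h4 := Λ.one_le_cy Q.ha
  unfold YY
  rw [abs_div, abs_of_pos hp, div_le_iff₀ hp, abs_le]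
  have h5 : 1 * (2 : ℝ) ^ (j₀ + j) ≤ Λ.cy * 2 ^ (j₀ + j) := mul_le_mul_of_nonneg_right h4 hp.le
  constructor <;> linarith [h1.1, h1.2]

/-- The Laplace functionals of two consecutive scales. -/
theorem WinB_comp {Q : Par} {g : V → ℝ} {R : ℝ} {M : Mdl Q.a Q.b} (hM : Good Q g R M) {c : Crd} (Λ : Lev Q.a c) {B : ℝ}
    (hB : 1 ≤ B) {j₀ j : ℕ} (hBj : B ≤ 2 ^ j₀) (hL : 2 * Λ.L < 2 ^ j₀)
    (hR : 8 * c.C * (Λ.kap + 1) * (5 * Λ.cy * 2 ^ (j₀ + j)) + 1 ≤ R) {t : ℝ} (ht : 0 < t) :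
    LL M (YY Λ B j₀ (j + 1)) (2 * t) ≤ 2 * LL M (YY Λ B j₀ j) t + 2 * t * ((Λ.rj B + Λ.H) / 2 ^ (j₀ + j + 1)) := by
  have ha := Q.ha
  have hC := c.one_le
  have hk := Λ.kap_pos
  obtain ⟨s, hs⟩ : ∃ s : ℤ, s = 2 ^ (j₀ + j) := ⟨_, rfl⟩
  have hsR : (s : ℝ) = 2 ^ (j₀ + j) := by rw [hs, WinB_cast]
  have hs0 : (0 : ℝ) < s := by rw [hsR]; positivity
  have hjs : (2 : ℤ) ^ j₀ ≤ s := by rw [hs]; exact pow_le_pow_right₀ (by norm_num) (by omega)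
  have hL1 := Λ.one_le
  have hLs : Λ.L < s := by omega
  have hjsR : (2 : ℝ) ^ j₀ ≤ s := by rw [hsR]; exact pow_le_pow_right₀ (by norm_num) (by omega)
  have hBs : B ≤ s := hBj.trans hjsR
  have hcy := Λ.one_le_cy ha
  have hd := Λ.dsp_le_cy ha hBs
  have hrj : Λ.rj B ≤ (Λ.cy - 1) * s := by
    refine le_trans ?_ hd
    unfold Lev.rj
    refine Λ.dsp_mono ha le_rfl ?_
    have : (2 * Λ.L : ℤ) ≤ s := by omega
    exact_mod_cast this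
  have hlap := laplace_two hM Λ (B := B) (by linarith) hLs hLs (by
    refine le_trans ?_ hR
    rw [← hsR]
    have h1 : (s : ℝ) + s + Λ.wd B s + Λ.wd B s + Λ.rj B ≤ 5 * Λ.cy * s := by
      unfold Lev.wd
      have h2 : 1 * (s : ℝ) ≤ Λ.cy * s := mul_le_mul_of_nonneg_right hcy hs0.le
      linarith
    have h2 := mul_le_mul_of_nonneg_left h1 (show 0 ≤ 8 * c.C * (Λ.kap + 1) from mul_nonneg (by linarith) (by linarith))
    linarith) (l := t / s) (div_nonneg ht.le hs0.le)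
  have hb1 := fun τ hτ => WinB_bd Λ hB hBj j (τ := τ) hτ
  have hb2 := fun τ hτ => WinB_bd Λ hB hBj (j + 1) (τ := τ) hτ
  have e1 : (M.E fun τ => Real.exp (2 * t * YY Λ B j₀ (j + 1) τ)) = M.E fun τ => Real.exp (t / s * G0 Λ B (s + s) τ) := by
    refine M.E_congr fun τ _ => ?_
    have h1 : (2 : ℤ) ^ (j₀ + (j + 1)) = s + s := by rw [hs, ← add_assoc, pow_succ]; ring
    have h2 : (2 : ℝ) ^ (j₀ + (j + 1)) = 2 * s := by rw [hsR, ← add_assoc, pow_succ]; ring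
    unfold YY
    rw [h1, h2]
    congr 1
    field_simp
  have e2 : (M.E fun τ => Real.exp (t * YY Λ B j₀ j τ)) = M.E fun τ => Real.exp (t / s * G0 Λ B s τ) := by
    refine M.E_congr fun τ _ => ?_
    unfold YY
    rw [← hs, ← hsR]
    congr 1
    field_simp
  have p1 := E_exp_pos (M := M) (X := YY Λ B j₀ (j + 1)) hb2 (show 0 ≤ 2 * t by linarith)
  have p2 := E_exp_pos (M := M) (X := YY Λ B j₀ j) hb1 ht.le
  unfold LL
  rw [e1] at p1 ⊢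
  rw [e2] at p2 ⊢
  have h3 := Real.log_le_log p1 hlap
  rw [Real.log_mul (mul_pos (Real.exp_pos _) p2).ne' p2.ne', Real.log_mul (Real.exp_pos _).ne' p2.ne', Real.log_exp] at h3
  have e3 : 2 * t * ((Λ.rj B + Λ.H) / 2 ^ (j₀ + j + 1)) = t / s * (Λ.rj B + Λ.H) := by
    rw [pow_succ, ← hsR]
    field_simp
  rw [e3]
  linarith

/-- The width at the scale `k`. -/
noncomputable def WinB_WB (Ψ u : ℕ → ℝ) (r l : ℝ) (j₀ k : ℕ) : ℝ :=
  SP Ψ k + 9 * SA u k + 2 * ST u k + (k + 1) * r / 2 ^ (j₀ + k) + 4 * l * (1 / 2) ^ k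

theorem WinB_WBn {Ψ u : ℕ → ℝ} {r l : ℝ} (hu : ∀ k, 0 ≤ u k) (hr : 0 ≤ r) (hl : 0 ≤ l) (j₀ k : ℕ) : 0 ≤ WinB_WB Ψ u r l j₀ k := by
  unfold WinB_WB
  have h1 := WinB_SPn Ψ k
  have h2 := WinB_SAn hu k
  have h3 := WinB_STn hu k
  have h4 : 0 ≤ ((k : ℝ) + 1) * r / 2 ^ (j₀ + k) := by positivity
  have h5 : 0 ≤ 4 * l * (1 / 2) ^ k := by positivity
  linarith

/-- The width of the tube at the scale `k`. -/
theorem WinB_WBle {Ψ u cc : ℕ → ℝ} {n : ℕ} (hu : ∀ k, 0 ≤ u k) (hc : ∀ k, 1 ≤ k → k ≤ n → cc k ≤ Ψ k ∧ Ψ k - 1 / 40 * u k ≤ cc k)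
    {r H l cl B : ℝ} (hr : 0 ≤ r) (hH : 0 ≤ H) (hHr : H ≤ r) {j₀ k : ℕ} (hk : 1 ≤ k) (hkn : k ≤ n) (hl : cl ≤ l) (hl0 : 0 ≤ l)
    (hB : B ≤ 2 ^ j₀) (hB0 : 0 ≤ B) :
    2 * u k * 2 ^ (j₀ + k) + H + ∑ i ∈ range k, (2 ^ (j₀ + k - i) * (|cc (k - i) - cc k| + (5 + 2 * i) * u (k - i)) + r) +
      cl * (2 ^ (j₀ + 1) + 2 * B) ≤ WinB_WB Ψ u r l j₀ k * 2 ^ (j₀ + k) := by
  obtain ⟨D, hD⟩ : ∃ D : ℝ, D = 2 ^ (j₀ + k) := ⟨_, rfl⟩
  have hD0 : 0 < D := by rw [hD]; positivity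
  have h1 : ∀ i ∈ range k, (2 : ℝ) ^ (j₀ + k - i) * (|cc (k - i) - cc k| + (5 + 2 * i) * u (k - i)) + r ≤
      D * ((1 / 2) ^ i * |Ψ (k - i) - Ψ k|) + D * (6 * ((1 / 2) ^ i * u (k - i))) + D * (2 * ((1 / 2) ^ i * (i * u (k - i)))) +
        D * (1 / 40 * ((1 / 2) ^ i * u k)) + r := by
    intro i hi
    have hi' := Finset.mem_range.1 hi
    have e1 : (2 : ℝ) ^ (j₀ + k - i) = D * (1 / 2) ^ i := by
      have e2 : j₀ + k = (j₀ + k - i) + i := by omega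
      rw [hD]
      conv_rhs => rw [e2, pow_add]
      rw [mul_assoc, ← mul_pow]
      norm_num
    obtain ⟨a1, a2⟩ := hc k hk hkn
    obtain ⟨a3, a4⟩ := hc (k - i) (by omega) (by omega)
    have h2 : |cc (k - i) - cc k| ≤ |Ψ (k - i) - Ψ k| + 1 / 40 * u (k - i) + 1 / 40 * u k := by
      have b1 := le_abs_self (Ψ (k - i) - Ψ k)
      have b2 := neg_abs_le (Ψ (k - i) - Ψ k)
      have b3 := hu k
      have b4 := hu (k - i)
      rw [abs_le]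
      constructor <;> linarith
    rw [e1]
    have h3 : 0 ≤ D * (1 / 2) ^ i := by positivity
    have h4 := mul_le_mul_of_nonneg_left h2 h3
    have h5 := mul_nonneg h3 (hu (k - i))
    rw [mul_add]
    have e3 : D * (1 / 2) ^ i * ((5 + 2 * i) * u (k - i)) = 5 * (D * (1 / 2) ^ i * u (k - i)) + D * (2 * ((1 / 2) ^ i * (i * u (k - i)))) := by ring
    rw [e3]
    have e4 : D * (1 / 2) ^ i * (|Ψ (k - i) - Ψ k| + 1 / 40 * u (k - i) + 1 / 40 * u k) =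
        D * ((1 / 2) ^ i * |Ψ (k - i) - Ψ k|) + 1 / 40 * (D * (1 / 2) ^ i * u (k - i)) + D * (1 / 40 * ((1 / 2) ^ i * u k)) := by ring
    rw [e4] at h4
    have e5 : D * (6 * ((1 / 2) ^ i * u (k - i))) = 6 * (D * (1 / 2) ^ i * u (k - i)) := by ring
    rw [e5]
    linarith
  have h2 := sum_le_sum h1
  have hRs : ∑ i ∈ range k, (D * ((1 / 2) ^ i * |Ψ (k - i) - Ψ k|) + D * (6 * ((1 / 2) ^ i * u (k - i))) +
      D * (2 * ((1 / 2) ^ i * (i * u (k - i)))) + D * (1 / 40 * ((1 / 2) ^ i * u k)) + r) =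
      D * SP Ψ k + 6 * (D * SA u k) + D * (2 * ST u k) + D * (1 / 40 * ((2 - 2 * (1 / 2) ^ k) * u k)) + k * r := by
    unfold SP SA ST
    rw [← WinB_pow_sum]
    simp only [sum_add_distrib, ← mul_sum, ← sum_mul, sum_const, card_range, nsmul_eq_mul]
    ring
  rw [hRs] at h2
  -- `u k ≤ SA u k`
  have h3 : u k ≤ SA u k := by
    have h4 : (1 / 2 : ℝ) ^ 0 * u (k - 0) ≤ SA u k :=
      single_le_sum (f := fun i => (1 / 2 : ℝ) ^ i * u (k - i)) (fun i _ => mul_nonneg (by positivity) (hu _)) (Finset.mem_range.2 hk)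
    simpa using h4
  have h4 : D * (1 / 40 * ((2 - 2 * (1 / 2) ^ k) * u k)) ≤ D * u k := by
    refine mul_le_mul_of_nonneg_left ?_ hD0.le
    have h5 : (0 : ℝ) ≤ (1 / 2) ^ k := by positivity
    have h6 := mul_nonneg h5 (hu k)
    have h7 := hu k
    nlinarith
  have h5 := mul_le_mul_of_nonneg_left h3 hD0.le
  have h6 : cl * (2 ^ (j₀ + 1) + 2 * B) ≤ D * (4 * l * (1 / 2) ^ k) := by
    have e1 : D * (4 * l * (1 / 2) ^ k) = l * (4 * 2 ^ j₀) := by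
      rw [hD, pow_add]
      have e2 : (2 : ℝ) ^ k * (1 / 2) ^ k = 1 := by
        rw [← mul_pow]
        norm_num
      calc (2 : ℝ) ^ j₀ * 2 ^ k * (4 * l * (1 / 2) ^ k) = l * (4 * 2 ^ j₀) * (2 ^ k * (1 / 2) ^ k) := by ring
        _ = l * (4 * 2 ^ j₀) := by rw [e2, mul_one]
    rw [e1]
    have h7 : (2 : ℝ) ^ (j₀ + 1) + 2 * B ≤ 4 * 2 ^ j₀ := by
      rw [pow_succ]
      linarith
    have h8 : 0 ≤ (2 : ℝ) ^ (j₀ + 1) + 2 * B := by positivity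
    calc cl * (2 ^ (j₀ + 1) + 2 * B) ≤ l * (2 ^ (j₀ + 1) + 2 * B) := mul_le_mul_of_nonneg_right hl h8
      _ ≤ l * (4 * 2 ^ j₀) := mul_le_mul_of_nonneg_left h7 hl0
  have h7 : D * ((k + 1) * r / D) = (k + 1) * r := by
    field_simp
  unfold WinB_WB
  rw [← hD]
  have e9 : (SP Ψ k + 9 * SA u k + 2 * ST u k + (k + 1) * r / D + 4 * l * (1 / 2) ^ k) * D =
      D * SP Ψ k + 9 * (D * SA u k) + D * (2 * ST u k) + D * ((k + 1) * r / D) + D * (4 * l * (1 / 2) ^ k) := by ring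
  rw [e9, h7]
  have e11 : 2 * u k * D = 2 * (D * u k) := by ring
  rw [e11]
  linarith

/-- The sum of the errors. -/
theorem WinB_err {r : ℝ} (hr : 0 ≤ r) (j₀ n : ℕ) : ∑ j ∈ range n, r / 2 ^ (j₀ + j + 1) ≤ r / 2 ^ j₀ := by
  have h1 : ∀ n : ℕ, ∑ j ∈ range n, r / 2 ^ (j₀ + j + 1) = r / 2 ^ j₀ * (1 - (1 / 2) ^ n) := by
    intro n
    induction n with
    | zero => simp
    | succ n ih =>
      rw [sum_range_succ, ih]
      have e1 : r / 2 ^ (j₀ + n + 1) = r / 2 ^ j₀ * ((1 / 2) ^ n * (1 / 2)) := by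
        rw [pow_succ, pow_add, one_div, inv_pow]
        field_simp
      rw [e1, pow_succ]
      ring
  rw [h1]
  have h2 : 0 ≤ r / 2 ^ j₀ := by positivity
  have h3 : (0 : ℝ) < (1 / 2) ^ n := by positivity
  nlinarith

end Pool.Agent.W_1b8d5d_sc
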