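import Pool.Agent.W_1b8d5d_sc.TDefs
import Pool.Agent.W_1b8d5d_sc.FTb

/-!
MP_1b8d5d_pr (SC, part P3): the lower bound of the front functional from the soft base.
-/

set_option autoImplicit false

namespace Pool.Agent.W_1b8d5d_sc

open Finset Pool.Agent.W_1b8d5d_h85 Pool.Agent.W_1b8d5d_fe

/-- A strip crossed inside gives a bound of the front functional (deterministic). -/
theorem G0_of_Tb {a b : ℝ} (ha : 0 < a) {c : Crd} (Λ : Lev a c) {τ : Env} (hτ : Bd a b τ) {A D : ℝ}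
    (hlin : ∀ z, lv c z = A * Λ.xi z + D * c.q z) (hA : 0 < A) (hD : |D| ≤ 1 / 4) {t : ℤ} (ht : Λ.L < t) {ℓ W B : ℝ}
    (hW : 0 ≤ W) (hℓ : A * t + 4 * c.C + W ≤ ℓ) (hT : Tb c τ 0 (-2 * c.C - W / 2) W ℓ W B) :
    -(2 * W) ≤ G0 Λ B t τ := by
  obtain ⟨x, y, w, -, e1, e2, e3, e4⟩ := hT
  have hq : ∀ z ∈ w.support, 0 ≤ c.q z ∧ c.q z ≤ 2 * W := by
    intro z hz
    have h := abs_le.1 (e2 z hz).2
    constructor <;> linarith [h.1, h.2]
  have hDq : ∀ z ∈ w.support, |D * c.q z| ≤ W / 2 := by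
    intro z hz
    obtain ⟨h1, h2⟩ := hq z hz
    rw [abs_mul, abs_of_nonneg h1]
    calc |D| * c.q z ≤ 1 / 4 * (2 * W) := mul_le_mul hD h2 h1 (by norm_num)
      _ = W / 2 := by ring
  have hx : Λ.xi x ≤ 0 := by
    have h1 := (abs_le.1 (hDq x w.start_mem_support)).1
    have h2 := hlin x
    have h3 : A * Λ.xi x ≤ 0 := by linarith
    have h4 : (Λ.xi x : ℝ) ≤ 0 := by
      by_contra h
      push Not at h
      have := mul_pos hA h
      linarith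
    exact_mod_cast h4
  have hy : t ≤ Λ.xi y := by
    have h1 := (abs_le.1 (hDq y w.end_mem_support)).2
    have h2 := hlin y
    have h3 : A * (t : ℝ) ≤ A * Λ.xi y := by linarith
    have h4 : (t : ℝ) ≤ Λ.xi y := le_of_mul_le_mul_left h3 hA
    exact_mod_cast h4
  have hL := Λ.one_le
  obtain ⟨u, u', w₁, hadj, w₂, f1, f2, f3⟩ := split_first (fun z => t ≤ Λ.xi z) w (by omega)
    ⟨y, w.end_mem_support, hy⟩
  have hu := f2 u w₁.end_mem_support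
  have hadj1 := abs_le.1 (Λ.xi_adj hadj)
  obtain ⟨v', v, w₃, hadj', w₄, g1, g2, g3⟩ := split_last (fun z => 0 < Λ.xi z) w₁
    ⟨x, w₁.start_mem_support, by omega⟩ (by omega)
  have hadj2 := abs_le.1 (Λ.xi_adj hadj')
  have hw1 : Bgd c τ B w₁ := e1.sub (w₁ := .nil) (w₃ := .cons hadj w₂) (by rw [SimpleGraph.Walk.nil_append, f1])
  have hw4 : Bgd c τ B w₄ := hw1.sub (w₁ := w₃.append (.cons hadj' .nil)) (w₃ := .nil) (by
    rw [SimpleGraph.Walk.append_nil, g1, ← SimpleGraph.Walk.append_assoc]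
    rfl)
  have hsub1 : ∀ z ∈ w₁.support, z ∈ w.support := fun z hz => by
    rw [f1, SimpleGraph.Walk.mem_support_append_iff]
    exact Or.inl hz
  have hsub4 : ∀ z ∈ w₄.support, z ∈ w₁.support := fun z hz => by
    rw [g1, SimpleGraph.Walk.mem_support_append_iff, SimpleGraph.Walk.support_cons]
    exact Or.inr (List.mem_cons_of_mem _ hz)
  have hcrs : Crs Λ 0 (0 + t) w₄ := by
    refine ⟨fun z hz => ⟨g2 z hz, ?_⟩, ?_, ?_⟩
    · have := f2 z (hsub4 z hz)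
      omega
    · omega
    · omega
  have h1 := low_le ha hτ w₄ hw4 hcrs (hq v (hsub1 _ (hsub4 _ w₄.start_mem_support))).1
  have h2 := (hq u (hsub1 _ (hsub4 _ w₄.end_mem_support))).2
  unfold G0
  linarith

/-- ** (low) ** The lower bound of the front functional from the soft base. -/
theorem low_soft {Q : Par} {g : V → ℝ} {c : Crd} {e K : ℝ} (hK : 1 ≤ K) (hs : Soft Q g c e (1 / 1000) K) {d : Crd}
    (hd : d = c ∨ d = swp c) (Λ : Lev Q.a d) (hΛ : 16 * d.C * Λ.eps ≤ 1) (k : ℕ) :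
    ∃ K' : ℝ, K ≤ K' ∧ ∀ δ : ℝ, 0 < δ → ∃ s₂ : ℕ, ∀ (N : ℕ) (R : ℝ) (M : Mdl Q.a Q.b) (j : ℕ) (B : ℝ), Hor Q g N R M →
      s₂ ≤ j → 32 * j ≤ N → 0 ≤ B → (∀ m, j ≤ m → m ≤ N → K' * xs M c e m ≤ Ag ^ (m - j) * B) →
      M.P (fun τ => G0 Λ B (2 ^ (j + k)) τ < -(δ * 2 ^ (j + k))) ≤ 1 / 1000 := by
  have hC := d.one_le
  have hk := Λ.kap_pos
  obtain ⟨A, D, hlin, hAk, hD⟩ := Λ.lin
  have hA1 : |A - Λ.kap| ≤ Λ.kap / 8 := by
    refine hAk.trans ?_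
    have := mul_le_mul_of_nonneg_right hΛ hk.le
    linarith
  have hA2 := abs_le.1 hA1
  have hA0 : 0 < A := by linarith
  have hD1 : |D| ≤ 1 / 4 := by linarith
  -- the scale
  obtain ⟨f, hf⟩ := pow_unbounded_of_one_lt (8 * (Λ.kap + 1) * 2 ^ k) (by norm_num : (1 : ℝ) < 2)
  have hAg : 1 ≤ Ag := Real.one_le_rpow (by norm_num) (by norm_num)
  have hAgf : 1 ≤ Ag ^ f := one_le_pow₀ hAg
  have hK0 : 0 < K := by linarith
  refine ⟨Ag ^ f * K, le_mul_of_one_le_left hK0.le hAgf, ?_⟩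
  intro δ hδ
  obtain ⟨η, hη⟩ : ∃ η : ℝ, η = min (1 / 16) (δ * 2 ^ k / (2 * 2 ^ f)) := ⟨_, rfl⟩
  have hη0 : 0 < η := by rw [hη]; positivity
  have hη1 : η ≤ 1 / 16 := by rw [hη]; exact min_le_left _ _
  have hη2 : 2 * (η * 2 ^ f) ≤ δ * 2 ^ k := by
    have h1 : η ≤ δ * 2 ^ k / (2 * 2 ^ f) := by rw [hη]; exact min_le_right _ _
    rw [le_div_iff₀ (by positivity)] at h1
    linarith
  obtain ⟨s₀, hs₀⟩ := hs η hη0
  obtain ⟨s₃, hs₃⟩ := pow_unbounded_of_one_lt (64 * d.C + Λ.L) (by norm_num : (1 : ℝ) < 2)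
  refine ⟨max (max s₀ s₃) f, ?_⟩
  intro N R M j B hHor hj hjN hB hx
  have hj0 : s₀ ≤ j := (le_max_left _ _).trans ((le_max_left _ _).trans hj)
  have hj3 : s₃ ≤ j := (le_max_right _ _).trans ((le_max_left _ _).trans hj)
  have hjf : f ≤ j := (le_max_right _ _).trans hj
  have h2j : 64 * d.C + Λ.L < 2 ^ j := hs₃.trans_le (pow_le_pow_right₀ (by norm_num) hj3)
  have hL1 : (1 : ℝ) ≤ Λ.L := by exact_mod_cast Λ.one_le
  have h2k : (1 : ℝ) ≤ 2 ^ k := one_le_pow₀ (by norm_num)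
  have h2jp : (0 : ℝ) < 2 ^ j := by positivity
  have hMH : MH Ag N (xs M c e) (j + f) (B / K) := by
    intro m hm hmN
    have h1 := hx m (by omega) hmN
    have h2 : m - j = f + (m - (j + f)) := by omega
    rw [h2, pow_add] at h1
    rw [← mul_div_assoc, le_div_iff₀ hK0]
    have h3 : Ag ^ f * (xs M c e m * K) ≤ Ag ^ f * (Ag ^ (m - (j + f)) * B) := by linarith
    exact le_of_mul_le_mul_left h3 (by linarith)
  have hP := hs₀ N R M (j + f) (B / K) hHor (by omega) (by omega) hMH d hd 0 (-2 * d.C - η * 2 ^ (j + f) / 2)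
    (η * 2 ^ (j + f)) (by rw [abs_zero]; positivity)
  have hKB : K * (B / K) = B := by field_simp
  rw [hKB] at hP
  refine (M.P_mono fun τ hτ h => ?_).trans hP
  intro hT
  have hpow : (2 : ℝ) ^ (j + k) = 2 ^ j * 2 ^ k := pow_add _ _ _
  have hpow' : (2 : ℝ) ^ (j + f) = 2 ^ j * 2 ^ f := pow_add _ _ _
  have hcast : (((2 : ℤ) ^ (j + k) : ℤ) : ℝ) = 2 ^ (j + k) := by push_cast; rfl
  have h1 := G0_of_Tb (Q.ha) Λ hτ hlin hA0 hD1 (t := 2 ^ (j + k)) (ℓ := 2 ^ (j + f)) (W := η * 2 ^ (j + f)) (B := B) (by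
    have h2 : (Λ.L : ℝ) < ((2 ^ (j + k) : ℤ) : ℝ) := by
      rw [hcast, hpow]
      have : (2 : ℝ) ^ j * 1 ≤ 2 ^ j * 2 ^ k := mul_le_mul_of_nonneg_left h2k h2jp.le
      linarith
    exact_mod_cast h2) (by positivity) (by
    rw [hcast, hpow, hpow']
    have h3 : A ≤ 2 * (Λ.kap + 1) := by linarith [hA2.2]
    have h4 : A * (2 ^ j * 2 ^ k) ≤ 2 * (Λ.kap + 1) * (2 ^ j * 2 ^ k) := mul_le_mul_of_nonneg_right h3 (by positivity)
    have h5 : 2 ^ j * (8 * (Λ.kap + 1) * 2 ^ k) ≤ 2 ^ j * 2 ^ f := mul_le_mul_of_nonneg_left hf.le h2jp.le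
    have h6 : η * (2 ^ j * 2 ^ f) ≤ 1 / 16 * (2 ^ j * 2 ^ f) := mul_le_mul_of_nonneg_right hη1 (by positivity)
    have h7 : (1 : ℝ) ≤ 2 ^ f := one_le_pow₀ (by norm_num)
    have h8 : (2 : ℝ) ^ j * 1 ≤ 2 ^ j * 2 ^ f := mul_le_mul_of_nonneg_left h7 h2jp.le
    linarith) hT
  have h2 : 2 * (η * 2 ^ (j + f)) ≤ δ * 2 ^ (j + k) := by
    rw [hpow, hpow']
    have := mul_le_mul_of_nonneg_left hη2 h2jp.le
    linarith
  linarith

end Pool.Agent.W_1b8d5d_sc
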