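import Pool.Agent.W_1b8d5d_sc.WinB
import Pool.Agent.W_1b8d5d_sc.WinLow
import Pool.Agent.W_1b8d5d_sc.Upper
import Pool.Agent.W_1b8d5d_sc.FLev
import Pool.Agent.W_1b8d5d_fe.Rates1

/-!
MP_1b8d5d_pr (SC, part P3): tubes of summable widths in a window of scales (`P3_win`), from the window theorem for one end and
integer levels (`window`), the lower bound from the soft base (`low_soft`) and the upper bound (`upper`).
-/

set_option autoImplicit false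

namespace Pool.Agent.W_1b8d5d_sc

open Finset Pool.Agent.W_1b8d5d_h85 Pool.Agent.W_1b8d5d_fe

variable {Q : Par} {g : V → ℝ} {c : Crd}

private theorem WinFin_half (ε : ℝ) (hε : 0 < ε) : ∃ q : ℕ, (1 / 2 : ℝ) ^ q ≤ ε := by
  obtain ⟨n, hn⟩ := exists_pow_lt_of_lt_one hε (show (1 / 2 : ℝ) < 1 by norm_num)
  exact ⟨n, hn.le⟩

private theorem WinFin_big (X : ℝ) : ∃ n : ℕ, X ≤ 2 ^ n := by
  obtain ⟨n, hn⟩ := pow_unbounded_of_one_lt X (show (1 : ℝ) < 2 by norm_num)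
  exact ⟨n, hn.le⟩

private theorem WinFin_mono_W {d : Crd} {τ : Env} {σ α β ℓ W W' B : ℝ} (hW : W ≤ W') (h : Tb d τ σ α β ℓ W B) : Tb d τ σ α β ℓ W' B := by
  obtain ⟨x, y, w, h1, h2, h3, h4, h5⟩ := h
  exact ⟨x, y, w, h1, h2, fun z hz => ⟨(h3 z hz).1, (h3 z hz).2.trans hW⟩, h4, h5⟩

/-- One end. -/
private theorem win_end (hf : FlatS g c) {e σ₀ K : ℝ} (hσ : 0 < σ₀)
    (hK : 1 ≤ K) (hs : Soft Q g c e (1 / 1000) K) {d : Crd} (hd : d = c ∨ d = swp c) :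
    ∃ (K' : ℝ) (q₀ s₁ : ℝ → ℕ) (κ : ℝ → ℝ), K ≤ K' ∧ (∀ δ, 0 < δ → 0 < κ δ) ∧
      ∀ (N : ℕ) (R : ℝ) (M : Mdl Q.a Q.b), Hor Q g N R M → ∀ (δ : ℝ) (j₀ j₁ : ℕ) (B : ℝ), 0 < δ → s₁ δ ≤ j₀ → j₀ ≤ j₁ → 32 * j₁ ≤ N →
        1 ≤ B → B ≤ κ δ * 2 ^ j₀ → (∀ j m, j₀ ≤ j → j ≤ j₁ → j ≤ m → m ≤ N → K' * xs M c e m ≤ Ag ^ (m - j) * B) →
        ∃ b : ℕ → ℝ, (∀ j, j₀ + q₀ δ ≤ j → j ≤ j₁ → 0 ≤ b j ∧ ∃ σ : ℝ, |σ| ≤ σ₀ ∧ ∀ α β : ℝ,
          1 / 2 ≤ M.P (fun τ => Tb d τ σ α β (2 ^ j) (b j * 2 ^ j) B)) ∧ ∑ j ∈ Icc (j₀ + q₀ δ) j₁, b j ≤ δ := by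
  have ha := Q.ha
  have hC := d.one_le
  obtain ⟨Λ, hΛ⟩ := exists_lev ha d (ε := 1 / (16 * d.C)) (by positivity)
  have hA0 : 16 * d.C * Λ.eps ≤ 1 := by
    have h1 := mul_le_mul_of_nonneg_left hΛ (show (0 : ℝ) ≤ 16 * d.C by positivity)
    have h2 : 16 * d.C * (1 / (16 * d.C)) = 1 := by field_simp
    linarith
  obtain ⟨A, D, hlin, hAk, hD⟩ := Λ.lin
  have hk := Λ.kap_pos
  have hA1 : |A - Λ.kap| ≤ Λ.kap / 8 := by
    refine hAk.trans ?_
    have := mul_le_mul_of_nonneg_right hA0 hk.le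
    linarith
  have hD1 : |D| ≤ 1 / 4 := by linarith
  have hA2 := abs_le.1 hA1
  obtain ⟨k, hk8⟩ := WinFin_big (8 / Λ.kap)
  rw [div_le_iff₀ hk] at hk8
  have hfd : FlatS g d := by
    rcases hd with h | h
    · rw [h]; exact hf
    · rw [h]; exact FlatS_swp hf
  obtain ⟨K', hK', hlow⟩ := low_soft hK hs hd Λ hA0 k
  obtain ⟨C, hC1, hone⟩ := window Λ
  -- the parameters for a given `δ`
  have hpar : ∀ δ : ℝ, 0 < δ → ∃ (q s : ℕ) (κ : ℝ), 0 < κ ∧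
      ∀ (N : ℕ) (R : ℝ) (M : Mdl Q.a Q.b), Hor Q g N R M → ∀ (j₀ j₁ : ℕ) (B : ℝ), s ≤ j₀ → j₀ ≤ j₁ → 32 * j₁ ≤ N →
        1 ≤ B → B ≤ κ * 2 ^ j₀ → (∀ j m, j₀ ≤ j → j ≤ j₁ → j ≤ m → m ≤ N → K' * xs M c e m ≤ Ag ^ (m - j) * B) →
        ∃ b : ℕ → ℝ, (∀ j, j₀ + q ≤ j → j ≤ j₁ → 0 ≤ b j ∧ ∃ σ : ℝ, |σ| ≤ σ₀ ∧ ∀ α β : ℝ,
          1 / 2 ≤ M.P (fun τ => Tb d τ σ α β (2 ^ j) (b j * 2 ^ j) B)) ∧ ∑ j ∈ Icc (j₀ + q) j₁, b j ≤ δ := by
    intro δ hδ
    obtain ⟨θ, hθ0, hθ1, hθ2, hθ3, hθ4, hθ5⟩ : ∃ θ : ℝ, 0 < θ ∧ θ ≤ 1 / 4 ∧ 3 * C * θ * 2 ^ (k + 1) ≤ δ ∧ 3 * C * θ * 2 ^ k ≤ 1 ∧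
        C * (θ + 3 * C * θ) ≤ Λ.kap / 4 ∧ C * (θ + 3 * C * θ) ≤ Λ.kap / 4 * σ₀ := by
      have h2k : (0 : ℝ) < 2 ^ k := by positivity
      have hCC : 0 < C * (1 + 3 * C) := by positivity
      refine ⟨min (1 / 4) (min (δ / (3 * C * 2 ^ (k + 1))) (min (1 / (3 * C * 2 ^ k)) (min (Λ.kap / 4 / (C * (1 + 3 * C)))
        (Λ.kap / 4 * σ₀ / (C * (1 + 3 * C)))))), ?_, min_le_left _ _, ?_, ?_, ?_, ?_⟩
      · exact lt_min (by norm_num) (lt_min (by positivity) (lt_min (by positivity) (lt_min (by positivity) (by positivity))))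
      · have h1 : min (1 / 4) (min (δ / (3 * C * 2 ^ (k + 1))) (min (1 / (3 * C * 2 ^ k)) (min (Λ.kap / 4 / (C * (1 + 3 * C)))
            (Λ.kap / 4 * σ₀ / (C * (1 + 3 * C)))))) ≤ δ / (3 * C * 2 ^ (k + 1)) := (min_le_right _ _).trans (min_le_left _ _)
        rw [le_div_iff₀ (by positivity)] at h1
        linarith
      · have h1 : min (1 / 4) (min (δ / (3 * C * 2 ^ (k + 1))) (min (1 / (3 * C * 2 ^ k)) (min (Λ.kap / 4 / (C * (1 + 3 * C)))
            (Λ.kap / 4 * σ₀ / (C * (1 + 3 * C)))))) ≤ 1 / (3 * C * 2 ^ k) :=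
          (min_le_right _ _).trans ((min_le_right _ _).trans (min_le_left _ _))
        rw [le_div_iff₀ (by positivity)] at h1
        linarith
      · have h1 : min (1 / 4) (min (δ / (3 * C * 2 ^ (k + 1))) (min (1 / (3 * C * 2 ^ k)) (min (Λ.kap / 4 / (C * (1 + 3 * C)))
            (Λ.kap / 4 * σ₀ / (C * (1 + 3 * C)))))) ≤ Λ.kap / 4 / (C * (1 + 3 * C)) :=
          (min_le_right _ _).trans ((min_le_right _ _).trans ((min_le_right _ _).trans (min_le_left _ _)))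
        rw [le_div_iff₀ hCC] at h1
        linarith
      · have h1 : min (1 / 4) (min (δ / (3 * C * 2 ^ (k + 1))) (min (1 / (3 * C * 2 ^ k)) (min (Λ.kap / 4 / (C * (1 + 3 * C)))
            (Λ.kap / 4 * σ₀ / (C * (1 + 3 * C)))))) ≤ Λ.kap / 4 * σ₀ / (C * (1 + 3 * C)) :=
          (min_le_right _ _).trans ((min_le_right _ _).trans ((min_le_right _ _).trans (min_le_right _ _)))
        rw [le_div_iff₀ hCC] at h1
        linarith
    obtain ⟨q, hq1, hq⟩ : ∃ q : ℕ, 1 ≤ q ∧ (1 / 2 : ℝ) ^ q ≤ θ := by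
      obtain ⟨q, hq⟩ := WinFin_half θ hθ0
      exact ⟨q + 1, by omega, (pow_le_pow_of_le_one (by norm_num) (by norm_num) (by omega)).trans hq⟩
    obtain ⟨s₂, hs₂⟩ := hlow θ hθ0
    obtain ⟨κu, su, hκu, hsu, hupp⟩ := upper hfd Λ hθ0 1
    -- the size of the first scale
    obtain ⟨s₃, hs₃⟩ := WinFin_big (max (max C su) (max (Real.exp (C / θ)) (max (2 * d.C) (max (2 ^ k) (2 * Λ.kap * (2 * Λ.L + 1))))))
    have hs₃' : C ≤ 2 ^ s₃ ∧ su ≤ 2 ^ s₃ ∧ Real.exp (C / θ) ≤ 2 ^ s₃ ∧ 2 * d.C ≤ 2 ^ s₃ ∧ (2 : ℝ) ^ k ≤ 2 ^ s₃ ∧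
        2 * Λ.kap * (2 * Λ.L + 1) ≤ 2 ^ s₃ := by
      simp only [max_le_iff] at hs₃
      tauto
    obtain ⟨g1, g2, g3, g4, g5, g6⟩ := hs₃'
    refine ⟨q, max s₂ s₃, min (min 1 θ) κu, lt_min (lt_min one_pos hθ0) hκu, ?_⟩
    intro N R M hH j₀ j₁ B hj₀ hj₁ hN hB1 hB2 hwin
    have hj2 : s₂ ≤ j₀ := (le_max_left _ _).trans hj₀
    have hj3 : s₃ ≤ j₀ := (le_max_right _ _).trans hj₀
    have hpow : ∀ {m n : ℕ}, m ≤ n → (2 : ℝ) ^ m ≤ 2 ^ n := fun h => pow_le_pow_right₀ (by norm_num) h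
    have hp3 := hpow hj3
    have h2j0 : (0 : ℝ) < 2 ^ j₀ := by positivity
    have h1k : (1 : ℝ) ≤ 2 ^ k := one_le_pow₀ (by norm_num)
    by_cases hjj : j₀ + q ≤ j₁
    swap
    · refine ⟨fun _ => 0, fun j h1 h2 => absurd (h1.trans h2) hjj, ?_⟩
      rw [Icc_eq_empty (by omega), sum_empty]
      exact hδ.le
    have hBθ : B ≤ θ * 2 ^ j₀ := hB2.trans (mul_le_mul_of_nonneg_right ((min_le_left _ _).trans (min_le_right _ _)) h2j0.le)
    have hBu : B ≤ κu * 2 ^ j₀ := hB2.trans (mul_le_mul_of_nonneg_right (min_le_right _ _) h2j0.le)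
    have hB1' : B ≤ 1 * 2 ^ j₀ := hB2.trans (mul_le_mul_of_nonneg_right ((min_le_left _ _).trans (min_le_left _ _)) h2j0.le)
    -- the ranges
    have hR1 : (2 : ℝ) ^ (32 * j₁) ≤ R := by
      refine (hpow hN).trans (le_trans ?_ hH.2)
      have : (1 : ℝ) ≤ 2 ^ N := one_le_pow₀ (by norm_num)
      calc (2 : ℝ) ^ N = (2 ^ N) ^ 1 := (pow_one _).symm
        _ ≤ (2 ^ N) ^ 300 := pow_le_pow_right₀ this (by norm_num)
    have hkj : k ≤ j₁ := by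
      have h1 : (2 : ℝ) ^ k ≤ 2 ^ j₁ := g5.trans (hp3.trans (hpow hj₁))
      exact (pow_le_pow_iff_right₀ (by norm_num)).1 h1
    have hR2 : C * 2 ^ (j₁ + k) ≤ R := by
      have h1 : C ≤ 2 ^ j₁ := g1.trans (hp3.trans (hpow hj₁))
      have h2 : C * 2 ^ (j₁ + k) ≤ 2 ^ j₁ * 2 ^ (j₁ + k) := mul_le_mul_of_nonneg_right h1 (by positivity)
      rw [← pow_add] at h2
      exact h2.trans ((hpow (by omega)).trans hR1)
    have hcast : ∀ n : ℕ, (((2 : ℤ) ^ n : ℤ) : ℝ) = 2 ^ n := fun n => by push_cast; rfl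
    obtain ⟨σs, b, hb1, hb2⟩ := hone g R M hH.1 B θ (j₀ + k) (j₁ + k) q hB1
      (by
        have := hpow (show j₀ ≤ j₀ + k by omega)
        linarith) hθ0 hθ1 ((g1.trans hp3).trans (hpow (by omega))) hR2 hq1
      (fun m hm1 hm2 => by
        obtain ⟨j, rfl⟩ : ∃ j, m = j + k := ⟨m - k, by omega⟩
        exact (hs₂ N R M j B hH (by omega) (by omega) (by linarith)
          fun m hm3 hm4 => hwin j m (by omega) (by omega) hm3 hm4).trans (by norm_num))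
      (by
        have h1 := hupp (2 ^ (j₀ + k)) R B M (by
            rw [hcast]
            exact g2.trans (hp3.trans (hpow (by omega)))) (by
            rw [hcast, ← pow_mul, mul_comm 2 ((2 : ℝ) ^ _), ← pow_succ]
            refine (hpow ?_).trans hR1
            have : 1 ≤ j₁ := by
              by_contra h0
              have h1 : j₁ = 0 := by omega
              rw [h1] at hkj
              have h2 : (2 : ℝ) ^ k = 1 := by
                rw [Nat.le_zero.1 hkj, pow_zero]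
              have h3 : j₀ = 0 := by omega
              have h4 : s₃ = 0 := by omega
              rw [h4, pow_zero] at g4
              linarith
            omega) hH.1 (by linarith) (by
            rw [hcast]
            refine hBu.trans (mul_le_mul_of_nonneg_left (hpow (by omega)) hκu.le))
        rw [hcast, pow_one] at h1
        refine h1.trans ?_
        have h2 : Real.exp (C / θ) ≤ 2 ^ (j₀ + k) := g3.trans (hp3.trans (hpow (by omega)))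
        rw [Real.exp_neg, one_div]
        exact inv_anti₀ (Real.exp_pos _) h2)
    -- the sum
    have hsum : ∑ j ∈ Icc (j₀ + k + q) (j₁ + k), b j ≤ 3 * C * θ := by
      refine hb2.trans ?_
      have h1 : B / 2 ^ (j₀ + k) ≤ θ := by
        rw [div_le_iff₀ (by positivity)]
        exact hBθ.trans (mul_le_mul_of_nonneg_left (hpow (by omega)) hθ0.le)
      have h2 := mul_le_mul_of_nonneg_left (add_le_add (add_le_add (le_refl θ) hq) h1) (show 0 ≤ C by linarith)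
      linarith
    have hbj : ∀ m, j₀ + k + q ≤ m → m ≤ j₁ + k → b m ≤ 3 * C * θ := by
      intro m h1 h2
      refine le_trans ?_ hsum
      exact single_le_sum (f := b) (fun i hi => by
        rw [mem_Icc] at hi
        exact (hb1 i hi.1 hi.2).1) (mem_Icc.2 ⟨h1, h2⟩)
    refine ⟨fun j => 2 ^ (k + 1) * b (j + k), ?_, ?_⟩
    · intro j hj1 hj2
      obtain ⟨h1, h2, h3⟩ := hb1 (j + k) (by omega) (by omega)
      obtain ⟨σ, hσs⟩ : ∃ σ, σ = σs (j + k) := ⟨_, rfl⟩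
      rw [← hσs] at h2 h3
      have hBk : B / 2 ^ (j₀ + k) ≤ θ := by
        rw [div_le_iff₀ (by positivity)]
        exact hBθ.trans (mul_le_mul_of_nonneg_left (hpow (by omega)) hθ0.le)
      have h4 := hbj (j + k) (by omega) (by omega)
      have hσ1 : |σ| ≤ C * (θ + 3 * C * θ) := by
        refine h2.trans (mul_le_mul_of_nonneg_left ?_ (by linarith))
        have e1 : 1 * θ ≤ 3 * C * θ := mul_le_mul_of_nonneg_right (by linarith) hθ0.le
        linarith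
      have hσ2 : |σ| ≤ Λ.kap / 4 := hσ1.trans hθ4
      have hσ3 : |σ| ≤ Λ.kap / 4 * σ₀ := hσ1.trans hθ5
      have hDσ : |D * σ| ≤ Λ.kap / 16 := by
        rw [abs_mul]
        calc |D| * |σ| ≤ 1 / 4 * (Λ.kap / 4) := mul_le_mul hD1 hσ2 (abs_nonneg _) (by norm_num)
          _ = Λ.kap / 16 := by ring
      have hDσ' := abs_le.1 hDσ
      have hden : Λ.kap / 2 ≤ A + D * σ := by linarith [hA2.1, hDσ'.1]
      have hden2 : A + D * σ ≤ 2 * Λ.kap := by linarith [hA2.2, hDσ'.2]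
      have hden0 : 0 < A + D * σ := by linarith
      have hA0' : 0 < A := by linarith [hA2.1]
      have hratio : A / (A + D * σ) ≤ 2 := by
        rw [div_le_iff₀ hden0]
        linarith [hA2.2]
      have h2j : (2 : ℝ) ^ j₀ ≤ 2 ^ j := hpow (by omega)
      have hW0 : 0 ≤ b (j + k) * 2 ^ (j + k) := mul_nonneg h1 (by positivity)
      have hbk : b (j + k) * 2 ^ k ≤ 1 := (mul_le_mul_of_nonneg_right h4 (by positivity)).trans hθ3
      refine ⟨by positivity, σ / (A + D * σ), ?_, ?_⟩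
      · rw [abs_div, abs_of_pos hden0, div_le_iff₀ hden0]
        have h5 : σ₀ * (Λ.kap / 2) ≤ σ₀ * (A + D * σ) := mul_le_mul_of_nonneg_left hden hσ.le
        have h6 : 0 ≤ Λ.kap * σ₀ := by positivity
        linarith
      · intro α β
        have h5 := P_tb (M := M) (Λ := Λ) hlin (B := B) (σ := σ) (W := b (j + k) * 2 ^ (j + k)) (p := 1 / 2)
          (N := 2 ^ (j + k)) (fun α' h' => le_trans (by norm_num) (h3 α' h')) hden0 hA0' (l := 2 ^ j) ((g4.trans hp3).trans h2j) (by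
            rw [hcast]
            have f1 : 2 * |D| * (b (j + k) * 2 ^ (j + k)) ≤ 1 / 2 * (2 : ℝ) ^ j := by
              have e1 : 2 * |D| * (b (j + k) * 2 ^ (j + k)) = 2 * |D| * ((b (j + k) * 2 ^ k) * 2 ^ j) := by
                rw [pow_add]
                ring
              rw [e1]
              have e2 : (b (j + k) * 2 ^ k) * 2 ^ j ≤ 1 * (2 : ℝ) ^ j := mul_le_mul_of_nonneg_right hbk (by positivity)
              have e3 : 0 ≤ (b (j + k) * 2 ^ k) * 2 ^ j := by positivity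
              calc 2 * |D| * ((b (j + k) * 2 ^ k) * 2 ^ j) ≤ 1 / 2 * ((b (j + k) * 2 ^ k) * 2 ^ j) :=
                    mul_le_mul_of_nonneg_right (by linarith) e3
                _ ≤ 1 / 2 * (2 : ℝ) ^ j := by linarith
            have f2 : (A + D * σ) * (2 * Λ.L + 1) ≤ 2 ^ j := by
              have e1 : (0 : ℝ) ≤ 2 * Λ.L + 1 := by
                have : (1 : ℝ) ≤ Λ.L := by exact_mod_cast Λ.one_le
                linarith
              have e2 := mul_le_mul_of_nonneg_right hden2 e1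
              linarith [g6.trans (hp3.trans h2j)]
            have f3 : 4 * (2 : ℝ) ^ j ≤ (A + D * σ) * 2 ^ (j + k) := by
              have e1 : Λ.kap / 2 * 2 ^ (j + k) ≤ (A + D * σ) * 2 ^ (j + k) := mul_le_mul_of_nonneg_right hden (by positivity)
              have e2 : Λ.kap / 2 * 2 ^ (j + k) = (2 ^ k * Λ.kap) / 2 * 2 ^ j := by
                rw [pow_add]
                ring
              have e3 : 8 / 2 * (2 : ℝ) ^ j ≤ (2 ^ k * Λ.kap) / 2 * 2 ^ j :=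
                mul_le_mul_of_nonneg_right (by linarith) (by positivity)
              linarith
            have f4 : (0 : ℝ) < 2 ^ j := by positivity
            have f5 : (A + D * σ) * (2 ^ (j + k) - 2 * (Λ.L : ℝ) - 1) =
                (A + D * σ) * 2 ^ (j + k) - (A + D * σ) * (2 * Λ.L + 1) := by ring
            rw [f5]
            linarith) α β
        refine h5.trans (M.P_mono fun τ _ => ?_)
        rintro ⟨u, v, w, k1, k2, k3, k4⟩
        refine ⟨u, v, w, k1.1, k1, fun z hz => ⟨⟨(k2 z hz).1, (k2 z hz).2.1⟩, (k2 z hz).2.2.trans ?_⟩, k3, k4⟩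
        have f1 : A / (A + D * σ) * (b (j + k) * 2 ^ (j + k)) ≤ 2 * (b (j + k) * 2 ^ (j + k)) :=
          mul_le_mul_of_nonneg_right hratio hW0
        refine f1.trans (le_of_eq ?_)
        rw [pow_add, pow_succ]
        ring
    · -- the sum
      have h1 : ∑ j ∈ Icc (j₀ + q) j₁, (2 : ℝ) ^ (k + 1) * b (j + k) = 2 ^ (k + 1) * ∑ j ∈ Icc (j₀ + k + q) (j₁ + k), b j := by
        rw [mul_sum]
        have h2 : Icc (j₀ + k + q) (j₁ + k) = (Icc (j₀ + q) j₁).map (addRightEmbedding k) := by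
          rw [Finset.map_add_right_Icc]
          congr 1
          omega
        rw [h2, sum_map]
        rfl
      rw [h1]
      have h2 := mul_le_mul_of_nonneg_left hsum (show (0 : ℝ) ≤ 2 ^ (k + 1) by positivity)
      linarith
  choose! q s κ hκ hmain using hpar
  exact ⟨K', q, s, κ, hK', hκ, fun N R M hH δ j₀ j₁ B hδ => hmain δ hδ N R M hH j₀ j₁ B⟩

/-- ** (P3) ** Tubes of summable widths in a window of scales with one budget. -/
theorem P3_win (_hg : IsMean Q g) (_hM : HasModels Q g) (hf : FlatS g c) {e σ₀ K : ℝ} (_he : 0 < e) (_he1 : e ≤ 1 / 3)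
    (hσ : 0 < σ₀) (hK : 1 ≤ K) (hs : Soft Q g c e (1 / 1000) K) :
    ∃ (K' : ℝ) (q₀ s₁ : ℝ → ℕ) (κ : ℝ → ℝ), K ≤ K' ∧ (∀ δ, 0 < δ → 0 < κ δ) ∧
      ∀ (N : ℕ) (R : ℝ) (M : Mdl Q.a Q.b), Hor Q g N R M → ∀ (δ : ℝ) (j₀ j₁ : ℕ) (B : ℝ), 0 < δ → s₁ δ ≤ j₀ → j₀ ≤ j₁ → 32 * j₁ ≤ N →
        1 ≤ B → B ≤ κ δ * 2 ^ j₀ → (∀ j m, j₀ ≤ j → j ≤ j₁ → j ≤ m → m ≤ N → K' * xs M c e m ≤ Ag ^ (m - j) * B) →
        ∃ b : ℕ → ℝ, (∀ j, j₀ + q₀ δ ≤ j → j ≤ j₁ → 0 ≤ b j ∧ Tub M c σ₀ j (b j) B) ∧ ∑ j ∈ Icc (j₀ + q₀ δ) j₁, b j ≤ δ := by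
  obtain ⟨K₁, q₁, s₁, κ₁, hK₁, hκ₁, h₁⟩ := win_end hf hσ hK hs (d := c) (Or.inl rfl)
  obtain ⟨K₂, q₂, s₂, κ₂, hK₂, hκ₂, h₂⟩ := win_end hf hσ hK hs (d := swp c) (Or.inr rfl)
  refine ⟨max K₁ K₂, fun δ => max (q₁ (δ / 2)) (q₂ (δ / 2)), fun δ => max (s₁ (δ / 2)) (s₂ (δ / 2)),
    fun δ => min (κ₁ (δ / 2)) (κ₂ (δ / 2)), hK₁.trans (le_max_left _ _),
    fun δ hδ => lt_min (hκ₁ _ (by linarith)) (hκ₂ _ (by linarith)), ?_⟩
  intro N R M hH δ j₀ j₁ B hδ hj₀ hj₁ hN hB1 hB2 hwin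
  have hB0 : 0 ≤ B := by linarith
  have hAg : 0 < Ag := by unfold Ag; positivity
  have hw : ∀ K₃, K ≤ K₃ → K₃ ≤ max K₁ K₂ → ∀ j m, j₀ ≤ j → j ≤ j₁ → j ≤ m → m ≤ N → K₃ * xs M c e m ≤ Ag ^ (m - j) * B := by
    intro K₃ hK3 hK3' j m e1 e2 e3 e4
    rcases le_total 0 (xs M c e m) with h | h
    · exact (mul_le_mul_of_nonneg_right hK3' h).trans (hwin j m e1 e2 e3 e4)
    · refine (mul_nonpos_of_nonneg_of_nonpos (by linarith) h).trans (by positivity)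
  have h2j : (0 : ℝ) ≤ 2 ^ j₀ := by positivity
  obtain ⟨b₁, f1, f2⟩ := h₁ N R M hH (δ / 2) j₀ j₁ B (by linarith) ((le_max_left _ _).trans hj₀) hj₁ hN hB1
    (hB2.trans (mul_le_mul_of_nonneg_right (min_le_left _ _) h2j)) (hw K₁ hK₁ (le_max_left _ _))
  obtain ⟨b₂, f3, f4⟩ := h₂ N R M hH (δ / 2) j₀ j₁ B (by linarith) ((le_max_right _ _).trans hj₀) hj₁ hN hB1
    (hB2.trans (mul_le_mul_of_nonneg_right (min_le_right _ _) h2j)) (hw K₂ hK₂ (le_max_right _ _))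
  refine ⟨fun j => b₁ j + b₂ j, ?_, ?_⟩
  · intro j hj1 hj2
    have e1 : j₀ + q₁ (δ / 2) ≤ j := (Nat.add_le_add_left (le_max_left _ _) _).trans hj1
    have e2 : j₀ + q₂ (δ / 2) ≤ j := (Nat.add_le_add_left (le_max_right _ _) _).trans hj1
    obtain ⟨g1, σ, g2, g3⟩ := f1 j e1 hj2
    obtain ⟨g1', σ', g2', g3'⟩ := f3 j e2 hj2
    refine ⟨add_nonneg g1 g1', ?_⟩
    rintro d (rfl | rfl)
    · refine ⟨σ, g2, fun α β => (g3 α β).trans (M.P_mono fun τ _ h => WinFin_mono_W ?_ h)⟩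
      exact mul_le_mul_of_nonneg_right (by linarith) (by positivity)
    · refine ⟨σ', g2', fun α β => (g3' α β).trans (M.P_mono fun τ _ h => WinFin_mono_W ?_ h)⟩
      exact mul_le_mul_of_nonneg_right (by linarith) (by positivity)
  · rw [sum_add_distrib]
    have hsub : ∀ (q : ℕ) (b : ℕ → ℝ), q ≤ max (q₁ (δ / 2)) (q₂ (δ / 2)) → (∀ j, j₀ + q ≤ j → j ≤ j₁ → 0 ≤ b j) →
        ∑ j ∈ Icc (j₀ + max (q₁ (δ / 2)) (q₂ (δ / 2))) j₁, b j ≤ ∑ j ∈ Icc (j₀ + q) j₁, b j := by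
      intro q b hq hb
      refine sum_le_sum_of_subset_of_nonneg (Icc_subset_Icc (by omega) le_rfl) fun j hj _ => ?_
      rw [mem_Icc] at hj
      exact hb j hj.1 hj.2
    have e1 := hsub (q₁ (δ / 2)) b₁ (le_max_left _ _) fun j h1 h2 => (f1 j h1 h2).1
    have e2 := hsub (q₂ (δ / 2)) b₂ (le_max_right _ _) fun j h1 h2 => (f3 j h1 h2).1
    linarith

end Pool.Agent.W_1b8d5d_sc
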